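import Pool.Agent.Work.MP_d266e7_co.Full.CW

/-!
Selection of the reduction step; the outer statement follows from the inner one.
-/

namespace Pool.Agent.Work.MP_d266e7_co.Mix

open Finset C5 C5.P24

variable {V : Type} [DecidableEq V]

namespace Tgt

variable {H : Finset (Finset V)} {c w y w' : Finset V}

theorem symm (h : Tgt H c w y w') : Tgt H w c y w' :=
  ⟨h.pr.symm, sd_comm c w ▸ h.leg, h.tr, h.npd, h.nlk, h.nw, h.nc, fun v hv x hx a =>
    (h.st v hv x hx a).imp_right (Or.imp_right fun k => ⟨k.1.symm, sd_comm c w ▸ k.2⟩)⟩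

theorem nsub (h : Tgt H c w y w') : ¬ y ∩ w' ⊆ sd c w := fun e => h.nlk ⟨c, w, h.pr, e⟩

/-- the legs of `y` are legs of the removed pair -/
theorem rest (h : Tgt H c w y w') {v : V} (hv : v ∈ y) (hv' : v ∉ w') : v ∈ sd c w := by
  by_contra k
  obtain ⟨e, e1, e2⟩ := not_subset.1 h.nsub
  have n : v ≠ e := fun f => hv' (f ▸ (mem_inter.1 e1).2)
  have h1 : insert v (insert e (sd c w)) ⊆ y :=
    insert_subset hv (insert_subset (mem_inter.1 e1).1 h.leg)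
  have h2 := card_le_card h1
  rw [card_insert_of_notMem (fun f => (mem_insert.1 f).elim n k), card_insert_of_notMem e2,
    sd_card h.pr.c5 h.pr.w5 h.pr.i3, h.tr.1.c5] at h2
  omega

/-- if only `c` meets the core of the target, merging the target makes `c` superfluous -/
theorem sn (h : Tgt H c w y w') (hw : ∀ v ∈ y ∩ w', v ∉ w) : ¬ MC (mrg H y w') := by
  intro hm
  have hp := h.npd
  rw [pend_iff h.tr.1.mc h.tr.1.mw] at hp
  push Not at hp
  obtain ⟨x, hx, v, hv, a, n1, n2⟩ := hp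
  have vc : v ∈ c := by
    rcases h.st v hv x hx a with k | k | ⟨rfl | rfl, -⟩
    exacts [absurd k n1, absurd k n2, a, absurd a (hw v hv)]
  have cG : c ∈ mrg H y w' :=
    mem_mrg.2 (Or.inr ⟨h.pr.mc, (cm_ne h.pr h.leg).1.symm, h.nc.symm⟩)
  obtain ⟨T, t1, t2⟩ := exists_opt (hm.nes.mono (erase_subset c _))
  obtain ⟨u, u1, u2⟩ := t1 (y ∩ w') (mem_erase.2 ⟨fun e => by
    have a1 := h.tr.1.i3
    have a2 := h.pr.c5
    rw [e] at a1
    omega, mem_insert_self _ _⟩)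
  have h1 : tau (mrg H y w') ≤ (insert v (T.erase u)).card := tau_le fun e he => by
    by_cases k : e = c
    · exact ⟨v, k ▸ vc, mem_insert_self _ _⟩
    rcases mem_mrg.1 he with rfl | k'
    · exact ⟨v, hv, mem_insert_self _ _⟩
    obtain ⟨r, r1, r2⟩ := t1 e (mem_erase.2 ⟨k, he⟩)
    refine ⟨r, r1, mem_insert_of_mem (mem_erase.2 ⟨fun f => ?_, r2⟩)⟩
    rcases h.st u u1 e k'.1 (f ▸ r1) with g | g | ⟨g | g, -⟩
    exacts [k'.2.1 g, k'.2.2 g, k g, hw u u1 (g ▸ f ▸ r1)]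
  have h2 := card_insert_le v (T.erase u)
  have h3 := card_erase_add_one u2
  have h4 := hm.crit c cG
  omega

theorem dn_aux (h : Tgt H c w y w') {s1 s2 : V} (a1 : s1 ∈ y ∩ w') (b1 : s1 ∈ c)
    (a2 : s2 ∈ y ∩ w') (b2 : s2 ∈ w) {y' v : Finset V} (h2 : Tgt H y w' y' v) {d f : V}
    (d1 : d ∈ y' ∩ v) (d2 : d ∈ c) (d3 : d ∉ w) (f1 : f ∈ y' ∩ v) (f2 : f ∉ y) : False := by
  have yn := cm_ne h.pr h.leg
  have s1w : s1 ∉ w := by
    rcases h.st s1 a1 c h.pr.mc b1 with k | k | k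
    · exact absurd k.symm yn.1
    · exact absurd k.symm h.nc
    · exact fun e => (mem_sdiff.1 k.2).2 (mem_inter.2 ⟨b1, e⟩)
  have s2c : s2 ∉ c := by
    rcases h.st s2 a2 w h.pr.mw b2 with k | k | k
    · exact absurd k.symm yn.2
    · exact absurd k.symm h.nw
    · exact fun e => (mem_sdiff.1 k.2).2 (mem_inter.2 ⟨e, b2⟩)
  obtain ⟨e, e1, e2⟩ := exists_mem_ne (s := w \ c) (by rw [h.pr.legs.2]; omega) s2
  have ew : e ∉ w' := fun k => by
    have g : ({s1, s2, e} : Finset V) ⊆ y ∩ w' := insert_subset a1 (insert_subset a2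
      (singleton_subset_iff.2 (mem_inter.2 ⟨h.leg (cr_sd2 e1), k⟩)))
    have g' := eq_of_subset_of_card_le g (by
      rw [h.tr.1.i3, card_eq_three.2 ⟨s1, s2, e, fun j => s2c (j ▸ b1),
        fun j => (mem_sdiff.1 e1).2 (j ▸ b1), e2.symm, rfl⟩])
    exact h.nsub (g' ▸ insert_subset (cr_sd1 (mem_sdiff.2 ⟨b1, s1w⟩)) (insert_subset
      (cr_sd2 (mem_sdiff.2 ⟨b2, s2c⟩)) (singleton_subset_iff.2 (cr_sd2 e1))))
  rcases h2.st d d1 c h.pr.mc d2 with k | k | ⟨k | k, -⟩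
  · exact (mem_sdiff.1 e1).2 (k ▸ h2.leg (cr_sd1 (mem_sdiff.2 ⟨h.leg (cr_sd2 e1), ew⟩)))
  · have fc : f ∈ c := k ▸ (mem_inter.1 f1).2
    have fw : f ∈ w := by_contra fun g => f2 (h.leg (cr_sd1 (mem_sdiff.2 ⟨fc, g⟩)))
    rcases h2.st f f1 w h.pr.mw fw with g | g | ⟨g | g, -⟩
    exacts [d3 (g ▸ (mem_inter.1 d1).1), h.pr.ne (k.trans g.symm), yn.2 g.symm, h.nw g.symm]
  · exact yn.1 k.symm
  · exact h.nc k.symm

/-- two targets in a row cannot both be met by both nodes of the removed pair -/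
theorem dn (h : Tgt H c w y w') {s1 s2 : V} (a1 : s1 ∈ y ∩ w') (b1 : s1 ∈ c)
    (a2 : s2 ∈ y ∩ w') (b2 : s2 ∈ w) {y' v : Finset V} (h2 : Tgt H y w' y' v) {d f : V}
    (d1 : d ∈ y' ∩ v) (d2 : d ∈ y) (f1 : f ∈ y' ∩ v) (f2 : f ∈ w') : False := by
  have yn := cm_ne h2.pr h2.leg
  have dw : d ∉ w' := by
    rcases h2.st d d1 y h2.pr.mc d2 with k | k | k
    · exact absurd k.symm yn.1
    · exact absurd k.symm h2.nc
    · exact fun e => (mem_sdiff.1 k.2).2 (mem_inter.2 ⟨d2, e⟩)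
  have fy : f ∉ y := by
    rcases h2.st f f1 w' h2.pr.mw f2 with k | k | k
    · exact absurd k.symm yn.2
    · exact absurd k.symm h2.nw
    · exact fun e => (mem_sdiff.1 k.2).2 (mem_inter.2 ⟨e, f2⟩)
  rcases mem_sd.1 (h.rest d2 dw) with k | k
  · exact h.dn_aux a1 b1 a2 b2 h2 d1 k.1 k.2 f1 fy
  · exact h.symm.dn_aux a2 b2 a1 b1 h2 d1 k.2 k.1 f1 fy

theorem both (h : Tgt H c w y w') (hm : MC (mrg H y w')) :
    (∃ s ∈ y ∩ w', s ∈ c) ∧ ∃ s ∈ y ∩ w', s ∈ w :=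
  ⟨by_contra fun k => h.symm.sn (fun v hv e => k ⟨v, hv, e⟩) hm,
    by_contra fun k => h.sn (fun v hv e => k ⟨v, hv, e⟩) hm⟩

theorem close {β : ℕ} (h : Tgt H c w y w') (h1 : 17 ≤ β) (h2 : β ≤ 216) (cH : ClsC H) (mH : MC H)
    (ih : IHC β H) : -46 ≤ ValC β H := by
  obtain ⟨y', a1, a2, a3⟩ := h.tr.2
  have R := red_mrg (β := β) cH mH h.tr.1 a1 a2 a3 h.npd h.nlk
  by_cases hm : MC (mrg H y w')
  swap
  · exact R.notMC h1 h2 ih hm
  obtain ⟨⟨s1, p1, q1⟩, s2, p2, q2⟩ := h.both hm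
  rcases R.cyc h1 ih hm with k | ⟨v, k⟩
  · exact k
  obtain ⟨y'', b1, b2, b3⟩ := k.tr.2
  have R' := red_mrg (β := β) cH mH k.tr.1 b1 b2 b3 k.npd k.nlk
  refine R'.notMC h1 h2 ih fun hm' => ?_
  obtain ⟨⟨d, d1, d2⟩, f, f1, f2⟩ := k.both hm'
  exact h.dn p1 q1 p2 q2 k d1 d2 f1 f2

end Tgt

theorem Red.close {β b : ℕ} {H G : Finset (Finset V)} {s y c w : Finset V}
    (h : Red β H G s y c w b) (h1 : 17 ≤ β) (h2 : β ≤ 216) (ih : IHC β H) : -46 ≤ ValC β H := by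
  by_cases hm : MC G
  · rcases h.cyc h1 ih hm with k | ⟨w', k⟩
    exacts [k, k.close h1 h2 h.cH h.mH ih]
  · exact h.notMC h1 h2 ih hm

/-- the outer statement from the inner one -/
theorem cstar_of_gstar {β : ℕ} (h1 : 17 ≤ β) (h2 : β ≤ 216) (hG : GStar V β) : CStar V β := by
  refine cstar_of_step fun H cH mH ih => ?_
  by_cases k : ∀ c w, Trc H c w → Pend H c w
  · exact cok_of_gok cH k (hG H cH.cls mH)
  push Not at k
  obtain ⟨c, w, ⟨h, y, a1, a2, a3⟩, hp⟩ := k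
  left
  by_cases hl : Lk H (c ∩ w)
  · obtain ⟨G, s, R⟩ := red_star h1 cH mH h a1 a2 a3 hl
    exact R.close h1 h2 ih
  · exact (red_mrg cH mH h a1 a2 a3 hp hl).close h1 h2 ih

end Pool.Agent.Work.MP_d266e7_co.Mix
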