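import Pool.Agent.Work.MP_d266e7_co.Full.Sum

/-!
Definitions for the last level `QT V 50` of the inner induction, blocks of weighted degree four.
Words: a member is a node, a vertex is a block. A piece `W` of `H` has the value `VH H W`, which
is at least `-46` unless `W` is one node of size three (`-60`) or `E10` (`-72`). A gadget of gain
`g` on `W` gives `g - 46 ≤ VH H W`.
-/

namespace Pool.Agent.Work.MP_d266e7_co.Mix

open Finset C5 C5.P24

variable {V : Type} [DecidableEq V]

/-- the standing hypotheses of the level -/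
structure QH (H : Finset (Finset V)) : Prop where
  cls : Cls H
  mc : MC H
  ih : IHG 50 H
  fl : Flat H

/-- the value of the piece `W`, with the bonus and the priced sets of `H` -/
noncomputable def VH (H W : Finset (Finset V)) : ℤ :=
  V0 W - (∑ e ∈ W, bon 50 H e : ℕ) + 13 * (((gps H).filter fun K => K ⊆ cov W).card : ℕ)

/-- a piece with at least three nodes outside -/
structure Pc (H W : Finset (Finset V)) : Prop where
  q : QH H
  mc : MC W
  sub : W ⊆ H
  sm : W.card + 3 ≤ H.card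

/-- blocks of `W` that lie in nodes outside `W` -/
def Ho (H W : Finset (Finset V)) (B : Finset V) : Prop :=
  ∀ v ∈ B, v ∈ cov W ∧ ∃ x ∈ H, x ∉ W ∧ v ∈ x

/-- `A` lies in a node of size five outside `W` without private blocks -/
def Rl (H W : Finset (Finset V)) (A : Finset V) : Prop :=
  ∃ x ∈ H, x ∉ W ∧ x.card = 5 ∧ np H x = 0 ∧ A ⊆ x

/-- room for a new node of size three -/
def Rm (W : Finset (Finset V)) (B : Finset V) : Prop := ∀ v ∈ B, wdeg W v ≤ 2

/-- the data of a pair gadget -/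
structure GA (H W : Finset (Finset V)) (A B : Finset V) : Prop where
  pc : Pc H W
  ha : Ho H W A
  hb : Ho H W B
  cr : Cross W A B

/-- gain of the pair gadget: `p` blocks of one host (of size five, without private blocks if
`4 ≤ p`), `q` blocks on the other side, `c` of them with room for a node of size three -/
def gT (p q c : ℕ) : ℕ :=
  if 4 ≤ p then
    (if 3 ≤ q then 185 else if 2 ≤ c then 125 else if 2 ≤ q then 110 else if 1 ≤ c then 30
      else if 1 ≤ q then 2 else 0)
  else if p = 3 then (if 3 ≤ q then 155 else if 2 ≤ q then 64 else if 1 ≤ c then 17 else 0)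
  else if p = 2 then (if 4 ≤ q then 77 else if 3 ≤ q then 64 else if 2 ≤ q then 47 else 0)
  else 0

/-- different nodes of size three are disjoint -/
def N33 (H : Finset (Finset V)) : Prop :=
  ∀ K ∈ H, ∀ L ∈ H, K.card = 3 → L.card = 3 → K ≠ L → Disjoint K L

/-- the blocks of the nodes of size three have weighted degree at most three -/
def F3 (H : Finset (Finset V)) : Prop := ∀ K ∈ H, K.card = 3 → ∀ v ∈ K, wdeg H v ≤ 3

/-- the block `t` lies in all hosts of the node `u` of size three -/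
structure BadU (H : Finset (Finset V)) (t : V) (u : Finset V) : Prop where
  mem : u ∈ H
  c3 : u.card = 3
  host : ∀ x ∈ H, x ≠ u → Adj x u → t ∈ x ∧ np H x = 0
  three : ∀ x ∈ H, ∀ y ∈ H, ∀ z ∈ H, x ≠ u → y ≠ u → z ≠ u → Adj x u → Adj y u → Adj z u →
    x ≠ y → x ≠ z → y ≠ z → (x ∩ y ∩ z).card ≤ 2

/-- a bad block of degree four -/
def BadQ (H : Finset (Finset V)) (t : V) : Prop := 2 * tau H ≤ H.card ∧ ∃ u, BadU H t u

/-- pieces `W i` and hosts `q x`, nothing else -/
structure Cfg {ι κ : Type} [Fintype ι] (H : Finset (Finset V)) (W : ι → Finset (Finset V))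
    (q : κ → Finset V) : Prop where
  qh : QH H
  mc : ∀ i, MC (W i)
  sub : ∀ i, W i ⊆ H
  sep : ∀ i j, i ≠ j → Sep (W i) (W j)
  qm : ∀ x, q x ∈ H
  qo : ∀ x i, q x ∉ W i
  qi : Function.Injective q
  all : ∀ e ∈ H, (∃ i, e ∈ W i) ∨ ∃ x, e = q x
  tau : ∑ i, tau (W i) + 1 = tau H

/-- numerical shadow of `r` pieces and `r + 1` hosts: `d i x` blocks of host `x` in piece `i`,
`k i y z` common blocks of two hosts in piece `i`, `R i x y`: the hosts cross in piece `i`,
`U i`: the piece is a node of size three, `g i` the value of the piece -/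
structure Num {ι κ : Type} [Fintype κ] [DecidableEq κ] (d : ι → κ → ℕ) (k : ι → κ → κ → ℕ)
    (R : ι → κ → κ → Prop) (U : ι → Prop) (g : ι → ℤ) : Prop where
  hall : ∀ S : Finset ι, S.Nonempty →
    S.card + 1 ≤ (univ.filter fun x => ∃ i ∈ S, 1 ≤ d i x).card
  rule : ∀ i x y, x ≠ y → ∀ f : κ → ι, (∀ z, z ≠ x → z ≠ y → f z ≠ i ∧ 1 ≤ d (f z) z) →
    (∀ z w, z ≠ x → z ≠ y → w ≠ x → w ≠ y → f z = f w → z = w) → R i x y
  small : ∀ i, U i → ∑ x, d i x ≤ 3 ∧ ∀ x, d i x ≤ 2
  b60 : ∀ i, -60 ≤ g i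
  b46 : ∀ i, ¬ U i → -46 ≤ g i
  k1 : ∀ i y z, k i y z ≤ d i y
  k2 : ∀ i y z, k i y z ≤ d i z
  k0 : ∀ i y z, y ≠ z → R i y z → k i y z = 0
  c1 : ∀ i x y, ¬ U i → x ≠ y → R i x y → (gT (d i x) (d i y) 0 : ℤ) - 46 ≤ g i
  c2 : ∀ i x y z, ¬ U i → x ≠ y → x ≠ z → y ≠ z → R i x y → R i x z →
    (gT (d i x) (d i y + d i z - k i y z) (k i y z) : ℤ) - 46 ≤ g i

end Pool.Agent.Work.MP_d266e7_co.Mix
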