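import Pool.Agent.Work.MP_d266e7_co.Full.Un5
import Pool.Agent.Work.MP_d266e7_co.Full.QD
import Pool.Agent.Work.MP_d266e7_co.Full.T2P

/-!
The count for families in which every block of degree four contains all hosts of a node of size
three. `V0 = 24 L + 12 e + 6 val - 78 e3` in the unfolded family.
-/

namespace Pool.Agent.Work.MP_d266e7_co.Mix

open Finset C5 C5.P24

variable {V : Type} [DecidableEq V]

/-- the blocks of degree `k` -/
def bl (H : Finset (Finset V)) (k : ℕ) : Finset V := (cov H).filter fun v => dg H v = k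

/-- `t` lies in all hosts of `K` -/
def Thru (H : Finset (Finset V)) (K : Finset V) (t : V) : Prop :=
  ∀ x ∈ H, x ≠ K → ¬ Disjoint x K → t ∈ x

instance (H : Finset (Finset V)) (K : Finset V) : DecidablePred (Thru H K) := fun t => by
  unfold Thru
  infer_instance

/-- the number of blocks of degree four that lie in all hosts of `K` -/
def kq (H : Finset (Finset V)) (K : Finset V) : ℕ := ((bl H 4).filter (Thru H K)).card

theorem mem_bl {H : Finset (Finset V)} {k : ℕ} (hk : 1 ≤ k) {v : V} : v ∈ bl H k ↔ dg H v = k :=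
  mem_filter.trans ⟨And.right, fun h => ⟨dg_pos.1 (h ▸ hk), h⟩⟩

theorem deg_id {G : Finset (Finset V)} (u : U5 G) (h4 : ∀ v, dg G v ≤ 4) :
    3 * (cov G).card + (bl G 4).card = 5 * G.card + (bl G 2).card + 2 * (bl G 1).card := by
  have a : ∑ v ∈ cov G, dg G v = 5 * G.card := sum_deg u
  rw [← a, bl, bl, bl, card_filter, card_filter, card_filter, mul_sum, mul_comm 3,
    ← sum_const_nat (f := fun _ => 3) (m := 3) fun _ _ => rfl, ← sum_add_distrib,
    ← sum_add_distrib, ← sum_add_distrib]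
  refine sum_congr rfl fun v hv => ?_
  have := dg_pos.2 hv
  have := h4 v
  split_ifs <;> omega

theorem sum_np_bl (G : Finset (Finset V)) : ∑ e ∈ G, np G e ≤ (bl G 1).card :=
  sum_np_le Subset.rfl fun e he _ hv k =>
    (mem_bl le_rfl).2 (le_antisymm k (dg_pos.2 (mem_cov.2 ⟨e, he, hv⟩)))

/-- the blocks of degree two in nodes of size three and in the cores of the traces -/
theorem doubles {H : Finset (Finset V)} (hf : Flat H)
    (fl : ∀ K ∈ H, K.card = 3 → ∀ v ∈ K, wdeg H v ≤ 3) :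
    3 * ek H 3 + 3 * piG H ≤ (bl H 2).card + ∑ K ∈ H.filter fun e => e.card = 3, np H K := by
  obtain ⟨J, hJ⟩ : ∃ J, J = H.filter fun e => e.card = 3 := ⟨_, rfl⟩
  have mJ : ∀ K ∈ J, K ∈ H ∧ K.card = 3 := fun K hK => mem_filter.1 (hJ ▸ hK)
  have tr : ∀ K ∈ gps H, ∃ c w, Pr H c w ∧ Pend H c w ∧ K = c ∩ w := fun K hK => by
    rcases mem_gps.1 hK with ⟨c, w, a, b⟩ | ⟨a, b, c⟩
    · exact ⟨c, w, a.1, hf.tr c w a, b⟩
    · exact absurd c (hf.lk K a b)
  have a1 : (J.biUnion fun K => K.filter fun v => ¬ dg H v ≤ 1).card =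
      ∑ K ∈ J, (K.filter fun v => ¬ dg H v ≤ 1).card :=
    card_biUnion fun K hK K' hK' c => disjoint_left.2 fun v a b => by
      have h1 := fl K (mJ K hK).1 (mJ K hK).2 v (mem_filter.1 a).1
      have h2 : 2 ≤ dg J v := one_lt_card.2 ⟨K, mem_star.2 ⟨hK, (mem_filter.1 a).1⟩, K',
        mem_star.2 ⟨hK', (mem_filter.1 b).1⟩, c⟩
      have h3 := (mem_filter.1 a).2
      rw [wdeg_eq, ← hJ] at h1
      omega
  have a2 : ∑ K ∈ J, (K.filter fun v => ¬ dg H v ≤ 1).card + ∑ K ∈ J, np H K = 3 * ek H 3 := by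
    rw [← sum_add_distrib, ek, ← hJ, mul_comm]
    exact sum_const_nat fun K hK => by
      rw [add_comm, np, card_filter_add_card_filter_not, (mJ K hK).2]
  have a3 : ((gps H).biUnion id).card = 3 * piG H := by
    rw [card_biUnion, piG, mul_comm]
    · exact sum_const_nat fun K hK => (mem_gps.1 hK).card
    · refine fun K hK K' hK' c => disjoint_left.2 fun v a b => c ?_
      obtain ⟨c, w, p, p', rfl⟩ := tr K hK
      obtain ⟨c', w', q, q', rfl⟩ := tr K' hK'
      have e := (p' v a).symm.trans (q' v b)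
      have e1 : ∀ c w : Finset V, c ∩ w = ({c, w} : Finset (Finset V)).inf' (by simp) id := by simp
      rw [e1, e1]
      congr 1
  have a4 : Disjoint (J.biUnion fun K => K.filter fun v => ¬ dg H v ≤ 1) ((gps H).biUnion id) :=
    disjoint_left.2 fun v a b => by
      obtain ⟨K, hK, a⟩ := mem_biUnion.1 a
      obtain ⟨K', hK', b⟩ := mem_biUnion.1 b
      obtain ⟨c, w, p, p', rfl⟩ := tr K' hK'
      have := (pend_iff p.mc p.mw).1 p' K (mJ K hK).1 v b (mem_filter.1 a).1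
      have k := (mJ K hK).2
      have := p.c5
      have := p.w5
      rcases ‹K = c ∨ K = w› with rfl | rfl <;> omega
  have a5 : (J.biUnion fun K => K.filter fun v => ¬ dg H v ≤ 1) ∪ (gps H).biUnion id ⊆ bl H 2 := by
    refine union_subset (fun v a => ?_) fun v b => ?_
    · obtain ⟨K, hK, a⟩ := mem_biUnion.1 a
      obtain ⟨a, b⟩ := mem_filter.1 a
      have := fl K (mJ K hK).1 (mJ K hK).2 v a
      have := dg_lt_wdeg (mJ K hK).1 (mJ K hK).2 a
      exact (mem_bl (by omega)).2 (by omega)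
    · obtain ⟨K', hK', b⟩ := mem_biUnion.1 b
      obtain ⟨c, w, p, p', rfl⟩ := tr K' hK'
      exact (mem_bl (by omega)).2 (le_antisymm (p.pend_iff.1 p' v b)
        (p.dg2 (Or.inl (mem_inter.1 b).1)))
  have a6 := card_le_card a5
  rw [card_union_of_disjoint a4] at a6
  rw [← hJ]
  omega

theorem Un5.bl_eq {H : Finset (Finset V)} {f : Finset V → Finset V} (h : Un5 H f) {k : ℕ}
    (hk : 2 ≤ k) : bl (H.image f) k = bl H k := by
  ext v
  rw [mem_bl (by omega), mem_bl (by omega)]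
  by_cases c : v ∈ cov H
  · rw [h.unf.dg_old c]
  · have := h.unf.dg_new c
    have := dg_zero c
    omega

/-- the value in terms of the slack of the bound for the unfolded family -/
theorem val_count {β : ℕ} (h2 : β ≤ 72) {H : Finset (Finset V)} {f : Finset V → Finset V}
    (h : Un5 H f) (hf : Flat H) (fl : ∀ K ∈ H, K.card = 3 → ∀ v ∈ K, wdeg H v ≤ 3) {c : ℕ}
    (hT : P24.VB (H.image f) c) :
    (30 * ek H 3 + 12 * (∑ K ∈ H.filter fun e => e.card = 3, np H K : ℕ) + 25 * piG H +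
      6 * H.card : ℤ) ≤ ValG β H + 24 * c + 12 * (bl H 4).card + 12 * tau H := by
  have a1 := deg_id h.u5 (h.dg_le (by omega) fun v => (dg_le_wdeg H v).trans (h.cls.d4 v))
  rw [h.bl_eq (by omega), h.bl_eq le_rfl] at a1
  have a2 := sum_np_bl (H.image f)
  rw [sum_image h.unf.inj] at a2
  have a3 := doubles hf fl
  have a4 := h.hi_le hf.tr
  have a5 : tt (H.image f) (dg (H.image f)) =
      ∑ e ∈ H, if 2 ≤ np (H.image f) (f e) then 1 else 0 := by
    rw [tt, card_filter, sum_image h.unf.inj]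
    rfl
  have a6 : bonus β H + 120 * ek H 3 + 24 * ∑ K ∈ H.filter (fun e => e.card = 3), np H K ≤
      24 * ∑ e ∈ H, np (H.image f) (f e) + 24 * tt (H.image f) (dg (H.image f)) +
        48 * ek H 3 := by
    rw [a5, bonus, ek, card_filter, sum_filter, mul_sum, mul_sum, mul_sum, mul_sum, mul_sum,
      ← sum_add_distrib, ← sum_add_distrib, ← sum_add_distrib, ← sum_add_distrib]
    refine sum_le_sum fun e he => ?_
    have := h.np_im he
    have := h.cls.sz e he
    unfold bon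
    split_ifs <;> omega
  have a7 := card_eq_ek h.cls.sz
  unfold P24.VB at hT
  rw [h.tau_eq, h.card, h.cov_card] at hT
  rw [h.card, h.cov_card] at a1
  unfold ValG V0
  omega

theorem quads_le {H J : Finset (Finset V)} (bad : ∀ t, dg H t = 4 → ∃ K ∈ J, Thru H K t) :
    (bl H 4).card ≤ ∑ K ∈ J, kq H K :=
  (card_le_card fun t ht => by
    obtain ⟨K, a, c⟩ := bad t ((mem_bl (by omega)).1 ht)
    exact mem_biUnion.2 ⟨K, a, mem_filter.2 ⟨ht, c⟩⟩).trans card_biUnion_le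

theorem bad_count_of {β : ℕ} (h2 : β ≤ 72) {H : Finset (Finset V)} {f : Finset V → Finset V}
    (h : Un5 H f) (hf : Flat H) (hv : 2 * tau H ≤ H.card)
    (fl : ∀ K ∈ H, K.card = 3 → ∀ v ∈ K, wdeg H v ≤ 3) (hT : P24.VB (H.image f) 2)
    (hq : ∃ t, dg H t = 4) {J : Finset (Finset V)} (hJ : J ⊆ H.filter fun e => e.card = 3)
    (bad : ∀ t, dg H t = 4 → ∃ K ∈ J, Thru H K t) (hk : ∀ K ∈ J, kq H K ≤ 2 + np H K) :
    -46 ≤ ValG β H := by
  have a1 := val_count h2 h hf fl hT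
  have a2 := quads_le bad
  have a3 := (sum_le_sum hk).trans (sum_le_sum_of_subset hJ)
  rw [sum_add_distrib, sum_const_nat (m := 2) fun _ _ => rfl] at a3
  have a4 : 1 ≤ ek H 3 := by
    obtain ⟨t, ht⟩ := hq
    obtain ⟨K, a, -⟩ := bad t ht
    exact card_pos.2 ⟨K, hJ a⟩
  unfold ek at *
  omega

/-- the hosts of a node of size three whose blocks have weighted degree at most three -/
theorem host_five {H : Finset (Finset V)} (hc : Cls H) {K x : Finset V} (hK : K ∈ H)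
    (k3 : K.card = 3) (fl : ∀ v ∈ K, wdeg H v ≤ 3) (hx : x ∈ H) (c : x ≠ K) {v : V} (a : v ∈ x)
    (b : v ∈ K) : x.card = 5 ∧ star H v = {K, x} := by
  have s : ({K, x} : Finset (Finset V)) ⊆ star H v :=
    insert_subset (mem_star.2 ⟨hK, b⟩) (singleton_subset_iff.2 (mem_star.2 ⟨hx, a⟩))
  have h1 : ws {K, x} ≤ 3 := (ws_mono s).trans (fl v b)
  rw [ws, sum_pair c.symm, wt3 k3] at h1
  have h2 := dg_lt_wdeg hK k3 b
  have h3 := fl v b
  refine ⟨(hc.sz x hx).resolve_left fun k => by rw [wt3 k] at h1; omega,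
    (eq_of_subset_of_card_le s ?_).symm⟩
  rw [card_pair c.symm]
  change dg H v ≤ 2
  omega

/-- the bound on `kq`, unless three hosts share three blocks of degree four -/
theorem kq_le {H : Finset (Finset V)} (hc : Cls H) (hm : MC H) (hf : Flat H) {K : Finset V}
    (hK : K ∈ H) (k3 : K.card = 3) (fl : ∀ v ∈ K, wdeg H v ≤ 3)
    (n0 : ∀ x ∈ H, x ≠ K → ¬ Disjoint x K → np H x = 0) :
    kq H K ≤ 2 + np H K ∨ ∃ y ∈ H, ∃ z ∈ H, ∃ w ∈ H, y ≠ z ∧ y ≠ w ∧ z ≠ w ∧
      (y ≠ K ∧ ¬ Disjoint y K) ∧ (z ≠ K ∧ ¬ Disjoint z K) ∧ (w ≠ K ∧ ¬ Disjoint w K) ∧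
      (y ∩ z).card = 3 ∧ y ∩ z ⊆ w ∧ ∀ t ∈ y ∩ z, dg H t = 4 ∧ Thru H K t := by
  by_cases c : kq H K ≤ 2 + np H K
  · exact Or.inl c
  right
  obtain ⟨t, ht⟩ := card_pos.1 (show 0 < kq H K by omega)
  have mem : ∀ t ∈ (bl H 4).filter (Thru H K), dg H t = 4 ∧ Thru H K t := fun t ht =>
    ⟨(mem_bl (by omega)).1 (mem_filter.1 ht).1, (mem_filter.1 ht).2⟩
  have two := hm.nl1 (N := H.filter fun x => x ≠ K ∧ ¬ Disjoint x K)
    (mc_singleton (card_pos.1 (by omega))) (singleton_subset_iff.2 hK) (by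
      obtain ⟨x, hx, k⟩ := exists_mem_ne (show 1 < (star H t).card from
        (by decide : 1 < 4).trans_eq (mem t ht).1.symm) K
      exact ⟨x, (mem_star.1 hx).1, fun e => k (mem_singleton.1 e)⟩) fun x hx a b =>
    mem_filter.2 ⟨hx, fun e => a (mem_singleton.2 e), by
      rw [C5.dd, cov_singleton] at b
      exact not_disjoint_iff_nonempty_inter.2 (card_pos.1 b)⟩
  obtain ⟨y, hy, z, hz, yz⟩ := one_lt_card.1 two
  obtain ⟨y1, y2⟩ := mem_filter.1 hy
  obtain ⟨z1, z2⟩ := mem_filter.1 hz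
  have s : (bl H 4).filter (Thru H K) ⊆ y ∩ z := fun t ht =>
    mem_inter.2 ⟨(mem t ht).2 y y1 y2.1 y2.2, (mem t ht).2 z z1 z2.1 z2.2⟩
  have c3 := hc.c3 y y1 z z1 yz
  have e := eq_of_subset_of_card_le s (by unfold kq at c; omega)
  have i3 : (y ∩ z).card = 3 := by rw [← e] at c3 ⊢; unfold kq at c; omega
  have nK : np H K = 0 := by have := card_le_card s; unfold kq at c; omega
  by_cases k : ∃ w ∈ H, y ≠ w ∧ z ≠ w ∧ w ≠ K ∧ ¬ Disjoint w K
  · obtain ⟨w, w1, w2, w3, w4⟩ := k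
    exact ⟨y, y1, z, z1, w, w1, yz, w2, w3, y2, z2, w4, i3,
      fun t ht => (mem t (e ▸ ht)).2 w w1 w4.1 w4.2, fun t ht => mem t (e ▸ ht)⟩
  exfalso
  have five : ∀ x ∈ H, x ≠ K ∧ ¬ Disjoint x K → x.card = 5 := fun x hx a => by
    obtain ⟨v, a1, a2⟩ := not_disjoint_iff.1 a.2
    exact (host_five hc hK k3 fl hx a.1 a1 a2).1
  have p : Pr H y z := ⟨y1, z1, five y y1 y2, five z z1 z2, i3,
    n0 y y1 y2.1 y2.2, n0 z z1 z2.1 z2.2⟩
  refine hf.lk K hK k3 ⟨y, z, p, fun d => ?_, fun v hv => ?_⟩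
  · have := p.pend_iff.1 d t (s ht)
    have := (mem t ht).1
    omega
  · obtain ⟨x, hx, a⟩ := exists_mem_ne (show 1 < (star H v).card from two_le_dg nK hv) K
    obtain ⟨x1, x2⟩ := mem_star.1 hx
    have st := (host_five hc hK k3 fl x1 a x2 hv).2
    have only : ∀ u ∈ H, u ≠ K → v ∈ u → u = x := fun u u1 u2 u3 => by
      have : u ∈ star H v := mem_star.2 ⟨u1, u3⟩
      rw [st] at this
      simpa [u2] using this
    by_cases b : y = x
    · exact mem_sd.2 (Or.inl ⟨b ▸ x2, fun d => yz (b.trans (only z z1 z2.1 d).symm)⟩)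
    · have b' : z = x := by_contra fun b' =>
        k ⟨x, x1, b, b', a, not_disjoint_iff.2 ⟨v, x2, hv⟩⟩
      exact mem_sd.2 (Or.inr ⟨fun d => b (only y y1 y2.1 d), b' ▸ x2⟩)

theorem qcount [Infinite V] {H : Finset (Finset V)} (hc : Cls H) (hH : MC H) (fl : Flat H)
    (f3 : F3 H) (hb : ∀ t, wdeg H t = 4 → BadQ H t) (ht : ∃ t, wdeg H t = 4) :
    -46 ≤ ValG 50 H := by
  classical
  obtain ⟨f, h⟩ := exists_un5 hc
  obtain ⟨t, ht⟩ := ht
  have d4 : dg H t = 4 := by
    have : dg (H.filter fun e => e.card = 3) t = 0 := dg_zero fun c => by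
      obtain ⟨K, a, b⟩ := mem_cov.1 c
      have := f3 K (mem_filter.1 a).1 (mem_filter.1 a).2 t b
      omega
    have := wdeg_eq H t
    omega
  have hv := (hb t ht).1
  have hT := (t2p (h.cc hH) (h.dg_le (by omega) fun v => (dg_le_wdeg H v).trans (hc.d4 v))
    (by rw [h.tau_eq, h.card, ← card_eq_ek hc.sz]; exact hv)).resolve_right fun e => by
      have c : t ∈ cov H := dg_pos.1 (by omega)
      have := e.d3 t (h.unf.cov_sub c)
      rw [h.unf.dg_old c] at this
      omega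
  refine bad_count_of (by omega) h fl hv f3 hT ⟨t, d4⟩
    (J := H.filter fun K => ∃ s, BadU H s K) (fun K hK => ?_) (fun s hs => ?_) fun K hK => ?_
  · obtain ⟨a, s, b⟩ := mem_filter.1 hK
    exact mem_filter.2 ⟨a, b.c3⟩
  · obtain ⟨-, K, b⟩ := hb s (le_antisymm (hc.d4 s) (hs ▸ dg_le_wdeg H s))
    exact ⟨K, mem_filter.2 ⟨b.mem, s, b⟩, fun x a c d => (b.host x a c (not_disjoint_iff.1 d)).1⟩
  · obtain ⟨a, s, b⟩ := mem_filter.1 hK
    refine (kq_le hc hH fl a b.c3 (f3 K a b.c3) fun x a c d =>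
      (b.host x a c (not_disjoint_iff.1 d)).2).resolve_right ?_
    rintro ⟨y, y1, z, z1, w, w1, yz, yw, zw, y2, z2, w2, i3, s3, -⟩
    have := b.three y y1 z z1 w w1 y2.1 z2.1 w2.1 (not_disjoint_iff.1 y2.2)
      (not_disjoint_iff.1 z2.2) (not_disjoint_iff.1 w2.2) yz yw zw
    rw [inter_eq_left.2 s3] at this
    omega

end Pool.Agent.Work.MP_d266e7_co.Mix
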