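import Pool.Agent.Work.MP_d266e7_co.Full.QStar
import Pool.Agent.Work.MP_d266e7_co.Full.QCount

/-!
The last level of the inner induction from its case of weighted degrees at most three.
-/

namespace Pool.Agent.Work.MP_d266e7_co.Mix

open Finset C5 C5.P24

variable {V : Type} [DecidableEq V] [Infinite V]

theorem qt_of_tlevel (hT : ∀ H : Finset (Finset V), Cls H → MC H → Flat H →
    (∀ v, wdeg H v ≤ 3) → GOk 50 H) : QT V 50 := by
  intro H hc hH ih fl
  have h : QH H := ⟨hc, hH, ih, fl⟩
  by_cases n33 : N33 H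
  swap
  · exact Or.inl (star33 h n33)
  by_cases f3 : F3 H
  swap
  · exact Or.inl (star355 h n33 f3)
  by_cases ht : ∃ t, wdeg H t = 4
  swap
  · refine hT H hc hH fl fun v => ?_
    have a := hc.d4 v
    have b : wdeg H v ≠ 4 := fun e => ht ⟨v, e⟩
    omega
  by_cases hb : ∀ t, wdeg H t = 4 → BadQ H t
  · exact Or.inl (qcount hc hH fl f3 hb ht)
  · obtain ⟨t, k⟩ := not_forall.1 hb
    obtain ⟨k1, k2⟩ := Classical.not_imp.1 k
    exact Or.inl ((star5555 h f3 k1).resolve_right k2)

end Pool.Agent.Work.MP_d266e7_co.Mix
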