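import Pool.Agent.Work.MP_d266e7_co.Full.Q1Rew

/-!
`vb4`: critical, connected, degrees at most three, no two members with four common vertices, and a
member with a private vertex and a vertex `t` of degree three: the bound `VB` holds with constant
four. Step at `t` as in `step1`; new gains: `pb33` (two common new vertices, gain three) and
`pb41` (gain one; induction or rewiring).
-/

namespace Pool.Agent.Work.MP_d266e7_co.C5.P24

open Finset

variable {V : Type} [DecidableEq V]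

/-- no two members have four common vertices -/
def N4 (H : Finset (Finset V)) : Prop := ∀ x ∈ H, ∀ y ∈ H, x ≠ y → (x ∩ y).card ≤ 3

/-- a member with a private vertex and a vertex of degree three -/
def PT (H : Finset (Finset V)) : Prop :=
  ∃ z ∈ H, (∃ p ∈ z, dg H p ≤ 1) ∧ ∃ t ∈ z, dg H t = 3

/-- the induction hypothesis of `vb4` -/
def IH4 (V : Type) [DecidableEq V] (k : ℕ) : Prop :=
  ∀ X : Finset (Finset V), X.card ≤ k → CC X → (∀ v, dg X v ≤ 3) → N4 X → PT X → VB X 4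

theorem N4.mono {H W : Finset (Finset V)} (h : N4 H) (hs : W ⊆ H) : N4 W :=
  fun x hx y hy => h x (hs hx) y (hs hy)

theorem q1_new {W : Finset (Finset V)} {a b : Finset V} (h : Ear W a b) (h2 : (a ∩ b).card = 2)
    {w y : Finset V} (hw : w ∈ W) (h3 : (a ∩ w).card = 3) (hy : y = a ∨ y = b ∨ y ∈ W)
    (hs : sd a w ⊆ y) : w ⊆ a ∪ b := by
  intro z hz
  by_cases hza : z ∈ a
  · exact mem_union_left _ hza
  have hzy : z ∈ y := hs (mem_sd.2 (Or.inr ⟨hza, hz⟩))
  rcases hy with rfl | rfl | hy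
  · exact absurd hzy hza
  · exact mem_union_right _ hzy
  · obtain ⟨s, h4⟩ : (a ∩ b).Nonempty := card_pos.1 (by omega)
    obtain ⟨h5, h6⟩ := mem_inter.1 h4
    have h8 := h.out h5 h6
    exact absurd (mem_cov.2 ⟨y, hy, hs (mem_sd.2 (Or.inl ⟨h5, fun e =>
      h8 (mem_cov.2 ⟨w, hw, e⟩)⟩))⟩) h8

theorem q1_both {W : Finset (Finset V)} {a b : Finset V} (h : Ear W a b) {w : Finset V}
    (hw : w ∈ W) : (a ∩ w).card + (b ∩ w).card ≤ 5 := by
  rw [← card_union_of_disjoint (disjoint_left.2 fun z z1 z2 =>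
    h.out (mem_inter.1 z1).1 (mem_inter.1 z2).1 (mem_cov.2 ⟨w, hw, (mem_inter.1 z1).2⟩)),
    ← h.cc.u5 w hw]
  exact card_le_card (union_subset inter_subset_right inter_subset_right)

theorem q1_hi33 {W H : Finset (Finset V)} {a b : Finset V} (h : Ear W a b) (hs : W ⊆ H)
    (ha : dd W a = 3) (hb : dd W b = 3) (h2 : (a ∩ b).card = 2)
    (hd : ∀ v ∈ a ∪ b, dg W v ≤ 2) :
    hi (insert a (insert b W)) (insert a (insert b W)) ≤ hi H W + 2 := by
  classical
  set G := insert a (insert b W) with hG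
  set T := (G.powersetCard 2).filter (Tr G) with hT
  set O := (W.powersetCard 2).filter (Tr H) with hO
  set Z := W.filter (fun c => c ⊆ a ∪ b) with hZ
  have k1 : (T \ O).card ≤ Z.card := by
    refine card_le_card_of_forall_subsingleton
      (fun q c => (q = {a, c} ∧ (a ∩ c).card = 3) ∨ (q = {b, c} ∧ (b ∩ c).card = 3))
      (fun q hq => ?_) (fun g hg => ?_)
    · obtain ⟨hq1, hq2⟩ := mem_sdiff.1 hq
      obtain ⟨hp, c, hc, w, hw, h3, y, hy, hsd⟩ := mem_filter.1 hq1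
      obtain ⟨h4, h6⟩ := mem_powersetCard.1 hp
      have e := earhi_pair hp hc hw (h.earhi_u5 (h4 hc)) h3
      have hc' := h4 hc
      have hw' := h4 hw
      have h2' : (b ∩ a).card = 2 := by rwa [inter_comm]
      have h5 := h.a5
      have h7 := h.b5
      simp only [hG, mem_insert] at hc' hw' hy
      rcases hc' with rfl | rfl | hc' <;> rcases hw' with rfl | rfl | hw'
      · rw [inter_self] at h3
        omega
      · omega
      · exact ⟨w, mem_filter.2 ⟨hw', q1_new h h2 hw' h3 hy hsd⟩, Or.inl ⟨e, h3⟩⟩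
      · omega
      · rw [inter_self] at h3
        omega
      · exact ⟨w, mem_filter.2 ⟨hw', union_comm c a ▸
          q1_new h.symm h2' hw' h3 (or_left_comm.1 hy) hsd⟩, Or.inr ⟨e, h3⟩⟩
      · rw [inter_comm] at h3
        exact ⟨c, mem_filter.2 ⟨hc', q1_new h h2 hc' h3 hy (sd_comm c w ▸ hsd)⟩,
          Or.inl ⟨e.trans (pair_comm _ _), h3⟩⟩
      · rw [inter_comm] at h3
        exact ⟨c, mem_filter.2 ⟨hc', union_comm w a ▸
          q1_new h.symm h2' hc' h3 (or_left_comm.1 hy) (sd_comm c w ▸ hsd)⟩,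
          Or.inr ⟨e.trans (pair_comm _ _), h3⟩⟩
      · exfalso
        refine hq2 (earhi_old e h6 hc' hw' h3 ?_)
        have h8 := sd_card (h.cc.u5 c hc') (h.cc.u5 w hw') h3
        have h9 : (sd c w).card ≤ dd W y := card_le_card (earhi_sd hc' hw' hsd)
        rcases hy with rfl | rfl | hy
        · omega
        · omega
        · exact ⟨y, hs hy, hsd⟩
    · intro q hq q' hq'
      have := q1_both h (mem_filter.1 hg).1
      rcases hq.2 with ⟨a1, a2⟩ | ⟨a1, a2⟩ <;> rcases hq'.2 with ⟨b1, b2⟩ | ⟨b1, b2⟩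
      · rw [a1, b1]
      · omega
      · omega
      · rw [a1, b1]
  have k2 : Z.card ≤ 2 := by
    have a1 := sum_deg (h.cc.u5.mono (filter_subset (fun c => c ⊆ a ∪ b) W))
    have a2 : cov Z ⊆ a ∩ cov W ∪ b ∩ cov W := fun z hz => by
      obtain ⟨c, c1, c2⟩ := mem_cov.1 hz
      obtain ⟨c3, c4⟩ := mem_filter.1 c1
      rw [← union_inter_distrib_right]
      exact mem_inter.2 ⟨c4 c2, mem_cov.2 ⟨c, c3, c2⟩⟩
    have a3 : ∑ v ∈ cov Z, (star Z v).card ≤ (cov Z).card • 2 :=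
      sum_le_card_nsmul _ _ _ fun z hz => by
        obtain ⟨c, c1, c2⟩ := mem_cov.1 hz
        exact (dg_mono (filter_subset _ W) z).trans (hd z ((mem_filter.1 c1).2 c2))
    have a4 := (card_le_card a2).trans (card_union_le _ _)
    rw [Nat.nsmul_eq_mul] at a3
    unfold dd at ha hb
    rw [← hZ] at a1
    omega
  have k3 := card_le_card_sdiff_add_card (s := T) (t := O)
  show T.card ≤ O.card + 2
  omega

theorem pb33 [Infinite V] {H W : Finset (Finset V)} (hW : CC W) (hs : W ⊆ H)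
    (h3 : ∀ v, dg H v ≤ 3) (hg : SGad H W 3 3) : PB H W 5 3 := by
  obtain ⟨a, b, e, k5, k6, k1, -, -, hd⟩ := gainv_sub (k := 2) hW hs hg
    (by omega) (by omega) (by omega) le_rfl le_rfl
  have k2 := gainv_ear (ihv5 W) e h3 hd
  have k3 := q1_hi33 e hs k5 k6 k1 fun v hv => by
    by_cases hvW : v ∈ cov W
    · have a1 := hd v hvW
      have a2 := h3 v
      rw [e.dg_ins] at a1
      rcases mem_union.1 hv with hv | hv
      · rw [if_pos hv] at a1
        omega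
      · rw [if_pos hv] at a1
        omega
    · rw [gain_out hvW]
      omega
  have k4 := e.new_card
  unfold PB
  omega

theorem pb41_ear [Infinite V] {k : ℕ} (ih : IH4 V k) {H W : Finset (Finset V)}
    (hk : W.card + 2 ≤ k) (hW : CC W) (hs : W ⊆ H) (h3 : ∀ v, dg H v ≤ 3) (h4 : N4 H)
    {x : Finset V} (hx : x ∈ H) (hxW : x ∉ W) (hd : dd W x = 4) {p : V} (hp : p ∈ cov W)
    (hr : dg W p < dg H p) (hc : Cross W (x ∩ cov W) {p}) (h2 : dg W p = 2) : PB H W 5 1 := by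
  obtain ⟨a, b, e, ea, eb, k1⟩ := exists_ear hW (A := x ∩ cov W) (B := {p}) inter_subset_right
    (singleton_subset_iff.2 hp) hc (by unfold dd at hd; omega) (by simp) (k := 1) le_rfl
    (by unfold dd at hd; omega) (by simp)
  have da : dd W a = 4 := by
    unfold dd at hd ⊢
    rw [ea, hd]
  have db : dd W b = 1 := by
    unfold dd
    rw [eb, card_singleton]
  have pb : p ∈ b := (mem_inter.1 (eb ▸ mem_singleton_self p)).1
  have hdg : ∀ v ∈ cov W, dg (insert a (insert b W)) v ≤ dg H v := fun v hv => by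
    have a1 := dg_mono hs v
    rw [e.dg_ins]
    by_cases ha : v ∈ a
    · have a2 : v ∈ x := (mem_inter.1 (ea ▸ mem_inter.2 ⟨ha, hv⟩)).1
      have a3 := dg_lt hs hx hxW a2
      rw [if_pos ha, if_neg fun hb => e.out ha hb hv]
      omega
    · rw [if_neg ha]
      split_ifs with hb
      · have a2 : v = p := mem_singleton.1 (eb ▸ mem_inter.2 ⟨hb, hv⟩)
        subst a2
        omega
      · omega
  have aw : ∀ c ∈ W, (a ∩ c).card ≤ 3 := fun c hc' =>
    (card_le_card fun z hz => mem_inter.2 ⟨(mem_inter.1 (ea ▸ mem_inter.2 ⟨(mem_inter.1 hz).1,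
      mem_cov.2 ⟨c, hc', (mem_inter.1 hz).2⟩⟩)).1, (mem_inter.1 hz).2⟩).trans
      (h4 x hx c (hs hc') fun ee => hxW (ee ▸ hc'))
  have bw : ∀ c ∈ W, (b ∩ c).card ≤ 3 := fun c hc' => by
    have : (b ∩ c).card ≤ dd W b := card_le_card fun z hz =>
      mem_inter.2 ⟨(mem_inter.1 hz).1, mem_cov.2 ⟨c, hc', (mem_inter.1 hz).2⟩⟩
    omega
  have n4 : N4 (insert a (insert b W)) := by
    intro c hc' w hw hne
    simp only [mem_insert] at hc' hw
    rcases hc' with rfl | rfl | hc' <;> rcases hw with rfl | rfl | hw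
    · exact absurd rfl hne
    · omega
    · exact aw w hw
    · rw [inter_comm]
      omega
    · exact absurd rfl hne
    · exact bw w hw
    · exact inter_comm c w ▸ aw c hc'
    · exact inter_comm c w ▸ bw c hc'
    · exact h4 c (hs hc') w (hs hw) hne
  have pt : PT (insert a (insert b W)) := by
    refine ⟨b, mem_insert_of_mem (mem_insert_self _ _), ?_, p, pb, ?_⟩
    · have a1 := e.symm.earhi_priv (by rw [inter_comm]; omega)
      rw [insert_comm] at a1
      obtain ⟨z, hz⟩ := card_pos.1 (lt_of_lt_of_le (by omega) a1)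
      exact ⟨z, mem_filter.1 hz⟩
    · rw [e.dg_ins, if_pos pb, if_neg fun ha => e.out ha pb hp]
      omega
  have h6 : VB (insert a (insert b W)) 4 := ih _ (by rw [e.card_ins]; exact hk) e.cc_ins (fun v => by
    by_cases hv : v ∈ cov W
    · exact (hdg v hv).trans (h3 v)
    · rw [e.dg_ins, gain_out hv]
      split_ifs <;> omega) n4 pt
  have a1 := e.card_ins
  have a2 := e.tau_ins
  have a4 := e.cov_ins
  have a5 := e.tt_ins hdg
  have a6 := e.new_card
  have a7 := e.hi_one hs k1 (safe_host hx (ea ▸ inter_subset_left))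
    (safe_small hW.u5 (by unfold dd at db; omega))
  rw [da, db, k1] at a5
  unfold VB at h6
  unfold PB
  simp only [show ¬ (4 + 1 ≤ 3) by omega, show 1 + 1 ≤ 3 by omega, if_true, if_false] at a5
  omega

theorem pb41 [Infinite V] {k : ℕ} (ih : IH4 V k) {H W : Finset (Finset V)}
    (hk : W.card + 2 ≤ k) (hW : CC W) (hs : W ⊆ H) (h3 : ∀ v, dg H v ≤ 3) (h4 : N4 H)
    {x : Finset V} (hx : x ∈ H) (hxW : x ∉ W) (hd : dd W x = 4) {p : V} (hp : p ∈ cov W)
    (hr : dg W p < dg H p) (hc : Cross W (x ∩ cov W) {p}) : PB H W 5 1 := by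
  have p1 := dg_pos.2 hp
  have p3 := h3 p
  by_cases h2 : dg W p = 2
  · exact pb41_ear ih hk hW hs h3 h4 hx hxW hd hp hr hc h2
  obtain ⟨u, hu, pu⟩ := mem_cov.1 hp
  have w3 : ∀ v, dg W v ≤ 3 := fun v => (dg_mono hs v).trans (h3 v)
  by_cases ht : ∃ t ∈ u, dg W t = 3
  · have a1 : VB W 4 := ih W (by omega) hW w3 (h4.mono hs) ⟨u, hu, ⟨p, pu, by omega⟩, ht⟩
    have a2 : tt W (dg H) ≤ tt W (dg W) := tt_mono fun v _ => dg_mono hs v
    have a4 : hi W W ≤ hi H W := hi_mono hs Subset.rfl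
    unfold VB at a1
    unfold PB
    omega
  · have u2 : ∀ w ∈ u, dg W w ≤ 2 := fun w hw => by
      have a1 := w3 w
      have a2 : dg W w ≠ 3 := fun e => ht ⟨w, hw, e⟩
      omega
    obtain ⟨b, b1, b2⟩ : ∃ b ∈ x ∩ cov W, b ∉ u := by
      by_contra hn
      have a1 : (x ∩ cov W).card ≤ (x ∩ u).card :=
        card_le_card fun z hz => mem_inter.2 ⟨(mem_inter.1 hz).1, by
          by_contra hzu
          exact hn ⟨z, hz, hzu⟩⟩
      have a2 := h4 x hx u (hs hu) fun ee => hxW (ee ▸ hu)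
      unfold dd at hd
      omega
    have r : Rew W u p b := ⟨hW, hu, pu, by omega, (mem_inter.1 b1).2, b2,
      hc.mono (singleton_subset_iff.2 b1) Subset.rfl⟩
    have b3 := dg_lt hs hx hxW (mem_inter.1 b1).1
    have b4 := h3 b
    have a1 := t1 r.cc_new fun v => by
      have c1 := r.dg_new v
      have c2 := w3 v
      split_ifs at c1 with e
      · subst e
        omega
      · omega
    have a2 := r.tt_new (fun w => dg_mono hs w) b3 (by omega)
    have a3 := r.hi_new hs u2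
    have a4 := r.cov_new
    have a5 := r.card_eq
    have a6 := r.tau_eq
    unfold VB at a1
    unfold PB
    omega

theorem q1_r {H W1 W2 : Finset (Finset V)} {q : Fin 3 → Finset V}
    {O : Finset V} (h : Two H W1 W2 q O) {g E : ℕ} (i1 : IHV W1 5)
    (hg : 27 * tau W1 + tt W1 (dg H) + g = 8 * W1.card + 3 * (cov W1).card + hi H W1 + 5)
    (hE : hi H W1 + hi H W2 + E = hi H H)
    {x y z : Fin 3} (hxy : x ≠ y) (hxz : x ≠ z) (hyz : y ≠ z) (hz : 1 ≤ dd W2 (q z))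
    (hx : 1 ≤ dd W1 (q x)) (hy : 1 ≤ dd W1 (q y)) (hK : (q x ∩ q y).Nonempty) :
    11 ≤ g + E + 3 * (((q x ∪ q y) ∩ cov W2).card +
      ((q x ∪ q y) \ (cov W1 ∪ cov W2)).card) := by
  have h1 := pb_real i1 h.c1 h.s1 h.u5 h.d3 (h.qmem x) (h.qmem y) (h.nj1 x y z hxy hxz hyz hz)
    hx hy hK
  have h2 : hi H (insert (q x) (insert (q y) W1)) + hi H W2 ≤ hi H H := by
    refine hi_add ?_ ?_ h.s2
    · rw [disjoint_insert_left, disjoint_insert_left]
      exact ⟨h.q2 x, h.q2 y, h.sep.disjoint h.c1.u5.ne⟩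
    · exact insert_subset (h.qmem x) (insert_subset (h.qmem y) h.s1)
  have h3 : ((q x ∪ q y) \ cov W1).card ≤ ((q x ∪ q y) ∩ cov W2).card +
      ((q x ∪ q y) \ (cov W1 ∪ cov W2)).card := by
    refine le_trans (card_le_card ?_) (card_union_le _ _)
    intro v hv
    obtain ⟨hv1, hv2⟩ := mem_sdiff.1 hv
    by_cases hv3 : v ∈ cov W2
    · exact mem_union_left _ (mem_inter.2 ⟨hv1, hv3⟩)
    · exact mem_union_right _ (mem_sdiff.2 ⟨hv1, fun hc => (mem_union.1 hc).elim hv2 hv3⟩)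
  omega

theorem q1_1N {H W1 W2 : Finset (Finset V)} {q : Fin 3 → Finset V}
    {O : Finset V} (h : Two H W1 W2 q O) {x y z : Fin 3} (hxy : x ≠ y) (hxz : x ≠ z) (hyz : y ≠ z)
    (hy : 1 ≤ dd W2 (q y)) (hz : 1 ≤ dd W2 (q z)) :
    SGad H W1 (dd W1 (q x)) (min ((q y ∪ q z) ∩ cov W1).card 3) := by
  have := sgad1N (N := {q y, q z}) h.c1 h.s1 (h.qmem x) (h.q1 x) (by
    intro e he
    rcases mem_insert.1 he with rfl | he
    · exact ⟨h.qmem y, h.q1 y, h.nj1 x y z hxy hxz hyz hz⟩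
    · rw [mem_singleton.1 he]
      exact ⟨h.qmem z, h.q1 z, h.nj1 x z y hxz hxy hyz.symm hy⟩)
  rwa [two_cov_pair] at this

theorem q1_12 {H W1 W2 : Finset (Finset V)} {q : Fin 3 → Finset V}
    {O : Finset V} (h : Two H W1 W2 q O) {x y z : Fin 3} (hxy : x ≠ y) (hxz : x ≠ z) (hyz : y ≠ z)
    (hx : 1 ≤ dd W2 (q x)) (hy : 1 ≤ dd W2 (q y)) (hz : 1 ≤ dd W2 (q z)) :
    SGad H W1 (dd W1 (q x)) (dd W1 (q y) + dd W1 (q z)) :=
  sgad12 h.c1 h.s1 (h.qmem x) (h.qmem y) (h.qmem z) (h.q1 x) (h.q1 y) (h.q1 z)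
    (h.nj1 x y z hxy hxz hyz hz) (h.nj1 x z y hxz hxy hyz.symm hy)
    (h.nj1 y z x hyz hxy.symm hxz.symm hx)

theorem q1_n {a : Fin 3 → ℕ} (h : ∃ x y, x ≠ y ∧ 1 ≤ a x ∧ 1 ≤ a y) {x y z : Fin 3} (hxy : x ≠ y)
    (hxz : x ≠ z) (hyz : y ≠ z) : (1 ≤ a x ∧ 1 ≤ a y) ∨ (1 ≤ a x ∧ 1 ≤ a z) ∨
      (1 ≤ a y ∧ 1 ≤ a z) := by
  obtain ⟨i, j, hij, h1, h2⟩ := h
  rcases sides_three x y z i hxy hxz hyz with rfl | rfl | rfl <;>
    rcases sides_three _ _ _ j hxy hxz hyz with rfl | rfl | rfl <;>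
    first | exact absurd rfl hij | omega

/-- the gains of the gadgets on a piece -/
structure Q1G (H W : Finset (Finset V)) (g : ℕ) : Prop where
  eq : 27 * tau W + tt W (dg H) + g = 8 * W.card + 3 * (cov W).card + hi H W + 5
  g22 : ∀ p r, SGad H W p r → 2 ≤ p → 2 ≤ r → 1 ≤ g
  g42 : ∀ p r, SGad H W p r → 4 ≤ p → 2 ≤ r → 3 ≤ g
  g33 : ∀ p r, SGad H W p r → 3 ≤ p → 3 ≤ r → 3 ≤ g
  g41 : ∀ x ∈ H, ∀ y ∈ H, x ∉ W → y ∉ W → NJ W x y → dd W x = 4 → 1 ≤ dd W y → 1 ≤ g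

theorem q1_exists [Infinite V] {k : ℕ} (ih : IH4 V k) {H W : Finset (Finset V)}
    (hk : W.card + 2 ≤ k) (hW : CC W) (hs : W ⊆ H) (h3 : ∀ v, dg H v ≤ 3) (h4 : N4 H)
    (hr : ∃ v ∈ cov W, dg W v < dg H v) : ∃ g, Q1G H W g := by
  have p1 := pb_zero (ihv5 W) hW hs h3 hr
  unfold PB at p1
  obtain ⟨g, hg⟩ : ∃ g, 27 * tau W + tt W (dg H) + g =
      8 * W.card + 3 * (cov W).card + hi H W + 5 := Nat.exists_eq_add_of_le p1 |>.imp
        fun g hg => by omega
  refine ⟨g, hg, fun p r h hp hr' => ?_, fun p r h hp hr' => ?_, fun p r h hp hr' => ?_,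
    fun x hx y hy hxW hyW hn h1 h2 => ?_⟩
  · have := pb_gain (ihv5 W) hW hs h3 hr (h.mono hp hr')
    unfold PB at this
    rw [show gainV 2 2 = 1 by decide] at this
    omega
  · have := pb_gain (ihv5 W) hW hs h3 hr (h.mono hp hr')
    unfold PB at this
    rw [show gainV 4 2 = 3 by decide] at this
    omega
  · have := pb33 hW hs h3 (h.mono hp hr')
    unfold PB at this
    omega
  · obtain ⟨p, hp⟩ : (y ∩ cov W).Nonempty := card_pos.1 h2
    obtain ⟨py, pW⟩ := mem_inter.1 hp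
    have := pb41 ih hk hW hs h3 h4 hx hxW h1 pW (dg_lt hs hy hyW py)
      fun C hC hc v hv w hw hvC hwC => hn.no_cover hC hc (mem_inter.1 hv).1
        (mem_singleton.1 hw ▸ py) hvC hwC
    unfold PB at this
    omega

/-- the host `z` with the private vertices does not meet the second piece -/
theorem q1_B [Infinite V] {H W1 W2 : Finset (Finset V)} {q : Fin 3 → Finset V} {O : Finset V}
    (h : Two H W1 W2 q O) {g1 g2 E s : ℕ} (G1 : Q1G H W1 g1) (G2 : Q1G H W2 g2)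
    (hE : hi H W1 + hi H W2 + E = hi H H) {z x y : Fin 3} (hzx : z ≠ x) (hzy : z ≠ y)
    (hxy : x ≠ y) (hK : ∀ i j, (q i ∩ q j).Nonempty) (hs : s = 2 ∨ s = 3)
    (hz : dd W1 (q z) + s = 5) (h0 : dd W2 (q z) = 0)
    (ho : ((q x ∪ q y) \ (cov W1 ∪ cov W2)).card ≤ 1) : 7 ≤ g1 + g2 + E + 2 * s := by
  have n1 := q1_n h.n1 hzx hzy hxy
  have n2 := q1_n h.n2 hzx hzy hxy
  have u1 := two_u W1 (q x) (q y)
  have f3 := q1_1N h hzx hzy hxy (by omega) (by omega)
  have r := q1_r h.symm (ihv5 W2) G2.eq (by omega : hi H W2 + hi H W1 + E = hi H H) hxy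
    hzx.symm hzy.symm (by omega) (by omega) (by omega) (hK x y)
  rw [union_comm (cov W2)] at r
  have a1 := G1.g22 _ _ f3
  have a2 := G1.g33 _ _ f3
  omega

/-- the host `x` does not meet the second piece -/
theorem q1_C [Infinite V] {H W1 W2 : Finset (Finset V)} {q : Fin 3 → Finset V} {O : Finset V}
    (h : Two H W1 W2 q O) {g1 g2 E s : ℕ} (G1 : Q1G H W1 g1) (G2 : Q1G H W2 g2)
    (hE : hi H W1 + hi H W2 + E = hi H H) {z x y : Fin 3} (hzx : z ≠ x) (hzy : z ≠ y)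
    (hxy : x ≠ y) (hK : ∀ i j, (q i ∩ q j).Nonempty) (hs : s = 2 ∨ s = 3)
    (hx : dd W1 (q x) = 4) (h0 : dd W2 (q x) = 0)
    (ho : ((q z ∪ q y) \ (cov W1 ∪ cov W2)).card ≤ s) : 7 ≤ g1 + g2 + E + 2 * s := by
  have n1 := q1_n h.n1 hzx hzy hxy
  have n2 := q1_n h.n2 hzx hzy hxy
  have u1 := two_u W1 (q z) (q y)
  have f3 := q1_1N h hzx.symm hxy hzy (by omega) (by omega)
  have r := q1_r h.symm (ihv5 W2) G2.eq (by omega : hi H W2 + hi H W1 + E = hi H H) hzy
    hzx hxy.symm (by omega) (by omega) (by omega) (hK z y)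
  rw [union_comm (cov W2)] at r
  have a1 := G1.g42 _ _ f3
  have a2 := G1.g41 _ (h.qmem x) _ (h.qmem z) (h.q1 x) (h.q1 z)
    (h.nj1 x z y hzx.symm hxy hzy (by omega)) hx
  have a3 := G1.g41 _ (h.qmem x) _ (h.qmem y) (h.q1 x) (h.q1 y)
    (h.nj1 x y z hxy hzx.symm hzy.symm (by omega)) hx
  omega

theorem q1_num {a0 a1 a2 b0 b1 b2 s g1 g2 E : ℕ} (hs : s = 2 ∨ s = 3) (f0 : a0 + b0 + s = 5)
    (f1 : a1 + b1 + 1 = 5) (f2 : a2 + b2 + 1 = 5) (p0 : 1 ≤ a0) (p1 : 1 ≤ a1) (p2 : 1 ≤ a2)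
    (q0 : 1 ≤ b0) (q1 : 1 ≤ b1) (q2 : 1 ≤ b2)
    (c1 : 4 ≤ a1 + a2 → 2 ≤ a0 → 3 ≤ g1) (c2 : 3 ≤ a1 → 3 ≤ a0 + a2 → 3 ≤ g1)
    (c3 : 3 ≤ a2 → 3 ≤ a0 + a1 → 3 ≤ g1) (c4 : 2 ≤ a1 → 2 ≤ a0 + a2 → 1 ≤ g1)
    (_c5 : 2 ≤ a2 → 2 ≤ a0 + a1 → 1 ≤ g1)
    (d1 : 4 ≤ b1 + b2 → 2 ≤ b0 → 3 ≤ g2) (d2 : 3 ≤ b1 → 3 ≤ b0 + b2 → 3 ≤ g2)
    (d3 : 3 ≤ b2 → 3 ≤ b0 + b1 → 3 ≤ g2) (d4 : 2 ≤ b1 → 2 ≤ b0 + b2 → 1 ≤ g2)
    (_d5 : 2 ≤ b2 → 2 ≤ b0 + b1 → 1 ≤ g2) : 7 ≤ g1 + g2 + E + 2 * s := by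
  rcases hs with rfl | rfl
  · by_cases h : a0 = 1
    · by_cases h1 : 4 ≤ b1 + b2
      · have := d1 h1 (by omega)
        omega
      · by_cases h2 : 3 ≤ a1
        · have := c2 h2 (by omega)
          omega
        · have := c3 (by omega) (by omega)
          omega
    · by_cases h1 : 4 ≤ a1 + a2
      · have := c1 h1 (by omega)
        omega
      · by_cases h2 : 3 ≤ b1
        · have := d2 h2 (by omega)
          omega
        · have := d3 (by omega) (by omega)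
          omega
  · by_cases h : 2 ≤ a1
    · have := c4 h (by omega)
      omega
    · have := d4 (by omega) (by omega)
      omega

theorem q1_idx : ∀ i : Fin 3, ∃ x y : Fin 3, i ≠ x ∧ i ≠ y ∧ x ≠ y := by decide

theorem q1_two [Infinite V] {H W1 W2 : Finset (Finset V)} {q : Fin 3 → Finset V} {O : Finset V}
    (h : Two H W1 W2 q O) {g1 g2 E s : ℕ} (G1 : Q1G H W1 g1) (G2 : Q1G H W2 g2)
    (hE : hi H W1 + hi H W2 + E = hi H H) {z x y : Fin 3} (hzx : z ≠ x) (hzy : z ≠ y)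
    (hxy : x ≠ y) {t : V} (ht : ∀ i, t ∈ q i) (hs : s = 2 ∨ s = 3)
    (hz : (q z \ (cov W1 ∪ cov W2)).card = s) (hx : q x \ (cov W1 ∪ cov W2) = {t})
    (hy : q y \ (cov W1 ∪ cov W2) = {t}) : 7 ≤ g1 + g2 + E + 2 * s := by
  have hK : ∀ i j, (q i ∩ q j).Nonempty := fun i j => ⟨t, mem_inter.2 ⟨ht i, ht j⟩⟩
  have hE' : hi H W2 + hi H W1 + E = hi H H := by omega
  have fz := (two_five h.sep (q z)).trans (h.u5 _ (h.qmem z))
  have fx := (two_five h.sep (q x)).trans (h.u5 _ (h.qmem x))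
  have fy := (two_five h.sep (q y)).trans (h.u5 _ (h.qmem y))
  rw [hz] at fz
  rw [hx, card_singleton] at fx
  rw [hy, card_singleton] at fy
  have tz : t ∈ q z \ (cov W1 ∪ cov W2) :=
    mem_sdiff.2 ⟨ht z, (mem_sdiff.1 (hx ▸ mem_singleton_self t)).2⟩
  have o1 : ((q x ∪ q y) \ (cov W1 ∪ cov W2)).card ≤ 1 := by
    rw [union_sdiff_distrib, hx, hy, union_self, card_singleton]
  have o2 : ((q z ∪ q y) \ (cov W1 ∪ cov W2)).card ≤ s := by
    rw [union_sdiff_distrib, hy, union_eq_left.2 (singleton_subset_iff.2 tz), hz]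
  have o3 : ((q z ∪ q x) \ (cov W1 ∪ cov W2)).card ≤ s := by
    rw [union_sdiff_distrib, hx, union_eq_left.2 (singleton_subset_iff.2 tz), hz]
  by_cases b0 : dd W2 (q z) = 0
  · exact q1_B h G1 G2 hE hzx hzy hxy hK hs (by omega) b0 o1
  by_cases a0 : dd W1 (q z) = 0
  · have := q1_B h.symm G2 G1 hE' hzx hzy hxy hK hs (by omega) a0 (by rwa [union_comm (cov W2)])
    omega
  by_cases b1 : dd W2 (q x) = 0
  · exact q1_C h G1 G2 hE hzx hzy hxy hK hs (by omega) b1 o2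
  by_cases a1 : dd W1 (q x) = 0
  · have := q1_C h.symm G2 G1 hE' hzx hzy hxy hK hs (by omega) a1 (by rwa [union_comm (cov W2)])
    omega
  by_cases b2 : dd W2 (q y) = 0
  · exact q1_C h G1 G2 hE hzy hzx hxy.symm hK hs (by omega) b2 o3
  by_cases a2 : dd W1 (q y) = 0
  · have := q1_C h.symm G2 G1 hE' hzy hzx hxy.symm hK hs (by omega) a2
      (by rwa [union_comm (cov W2)])
    omega
  have s1 := q1_12 h hzx hzy hxy (by omega) (by omega) (by omega)
  have s2 := q1_12 h hzx.symm hxy hzy (by omega) (by omega) (by omega)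
  have s3 := q1_12 h hzy.symm hxy.symm hzx (by omega) (by omega) (by omega)
  have r1 := q1_12 h.symm hzx hzy hxy (by omega) (by omega) (by omega)
  have r2 := q1_12 h.symm hzx.symm hxy hzy (by omega) (by omega) (by omega)
  have r3 := q1_12 h.symm hzy.symm hxy.symm hzx (by omega) (by omega) (by omega)
  exact q1_num hs fz fx fy (by omega) (by omega) (by omega) (by omega) (by omega) (by omega)
    (G1.g42 _ _ s1.symm) (G1.g33 _ _ s2) (G1.g33 _ _ s3) (G1.g22 _ _ s2) (G1.g22 _ _ s3)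
    (G2.g42 _ _ r1.symm) (G2.g33 _ _ r2) (G2.g33 _ _ r3) (G2.g22 _ _ r2) (G2.g22 _ _ r3)

theorem vb4_step [Infinite V] {k : ℕ} (ih : IH4 V k) {H : Finset (Finset V)} (hk : H.card ≤ k + 1)
    (h : CC H) (h3 : ∀ v, dg H v ≤ 3) (h4 : N4 H) (hp : PT H) : VB H 4 := by
  obtain ⟨z, hz, ⟨p, pz, pp⟩, t, tz, ht⟩ := hp
  obtain ⟨F, hF, hτ⟩ := exists_step h (show 1 ≤ dg H t by omega)
  have hF' : Fam H F := hF.mono sdiff_subset Subset.rfl
  have c0 := step0 h h3 ht hF hτ (c := fun _ => 5) fun W _ => ihv5 W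
  rw [sum_const, Nat.nsmul_eq_mul] at c0
  have c1 := step_card hF
  have c2 := hF'.card_eq
  have c3 := hF'.cov_eq
  have c4 := hF'.tt_eq (dg H)
  have c5 := step_tt ht hF
  have c7 : F.card + 1 ≤ (H \ un F).card := by
    obtain ⟨x, hx⟩ := card_pos.1 (show 0 < (H \ un F).card by omega)
    exact nl_all h hF' ⟨x, mem_sdiff.1 hx⟩
  have hto := step_out (by omega : 1 ≤ dg H t) hF
  have out : ∀ e ∈ H, t ∈ e → e ∉ un F := fun e he hte hu =>
    (mem_sdiff.1 (hF.un_sub hu)).2 (mem_star.2 ⟨he, hte⟩)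
  have priv : ∀ e ∈ H, e ∉ un F → ∀ v ∈ e, dg H v ≤ 1 → v ∈ cov H \ cov (un F) :=
    fun e he hu v hv hd => mem_sdiff.2 ⟨mem_cov.2 ⟨e, he, hv⟩, fun hc => by
      obtain ⟨f, f1, f2⟩ := mem_cov.1 hc
      exact hu (faml_two (hF'.un_sub f1) he f2 hv hd ▸ f1)⟩
  have hpo := priv z hz (out z hz tz) p pz pp
  have hpt : p ≠ t := fun e => by
    subst e
    omega
  have c8 : 2 ≤ (cov H \ cov (un F)).card := by
    have := card_le_card (insert_subset hpo (singleton_subset_iff.2 hto))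
    rwa [card_pair hpt] at this
  by_contra hcon
  unfold VB at hcon
  have f1 : F.card = 2 := by omega
  have f2 : (H \ un F).card = 3 := by omega
  have f3 : (cov H \ cov (un F)).card ≤ 3 := by omega
  obtain ⟨W1, W2, hne, hFe⟩ := card_eq_two.1 f1
  have m1 : W1 ∈ F := hFe ▸ mem_insert_self _ _
  have m2 : W2 ∈ F := hFe ▸ mem_insert_of_mem (mem_singleton_self _)
  have hs : ∀ f : Finset (Finset V) → ℕ, ∑ W ∈ F, f W = f W1 + f W2 := fun f => by
    rw [hFe, sum_pair hne]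
  obtain ⟨q, hq, hq'⟩ := side2_of h hF' hFe hne f2 (by rw [hs] at hτ; omega)
  have e : cov (un F) = cov W1 ∪ cov W2 := by
    rw [faml_cov, hFe, biUnion_insert, singleton_biUnion]
  have T := two_of_side2 hq h3
  rw [hs] at hτ c2 c3 c4
  obtain ⟨g1, G1⟩ := q1_exists ih (by omega) T.c1 T.s1 h3 h4 (two_room T)
  obtain ⟨g2, G2⟩ := q1_exists ih (by omega) T.c2 T.s2 h3 h4 (two_room T.symm)
  have p3 : hi H W1 + hi H W2 ≤ hi H H := hi_add (T.sep.disjoint T.c1.u5.ne) T.s1 T.s2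
  obtain ⟨E, hE⟩ : ∃ E, hi H W1 + hi H W2 + E = hi H H := Nat.exists_eq_add_of_le p3 |>.imp
    fun g hg => by omega
  have e1 := G1.eq
  have e2 := G2.eq
  have hst : H \ un F = star H t := (eq_of_subset_of_card_le (fun x hx => mem_sdiff.2
    ⟨(mem_star.1 hx).1, out x (mem_star.1 hx).1 (mem_star.1 hx).2⟩) (by
      unfold dg at ht
      omega)).symm
  have hqt : ∀ i, t ∈ q i := fun i => (mem_star.1 (hst ▸ hq' i)).2
  have main : ∀ u ∈ H \ un F, ∀ P : Finset V, P ⊆ u → (∀ v ∈ P, dg H v ≤ 1) →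
      P.card + 1 = (cov H \ cov (un F)).card → (P.card = 1 ∨ P.card = 2) →
      7 ≤ g1 + g2 + E + 2 * (P.card + 1) := by
    intro u hu P hPu hP hc hP2
    obtain ⟨u1, u2⟩ := mem_sdiff.1 hu
    have tP : t ∉ P := fun c => by
      have := hP t c
      omega
    have eO : insert t P = cov H \ cov (un F) := eq_of_subset_of_card_le
      (insert_subset hto fun v hv => priv u u1 u2 v (hPu hv) (hP v hv))
      (by rw [card_insert_of_notMem tP]; omega)
    obtain ⟨i, rfl⟩ : ∃ i, u = q i := by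
      rcases hq.all u u1 with c | c | c
      · exact absurd (sub_un m1 c) u2
      · exact absurd (sub_un m2 c) u2
      · exact c
    have oth : ∀ j, j ≠ i → q j \ (cov W1 ∪ cov W2) = {t} := fun j hj => by
      ext v
      rw [mem_singleton, ← e, mem_sdiff]
      constructor
      · rintro ⟨v1, v2⟩
        have v3 : v ∈ insert t P := eO ▸ mem_sdiff.2 ⟨mem_cov.2 ⟨_, hq.qmem j, v1⟩, v2⟩
        exact (mem_insert.1 v3).resolve_right fun v4 =>
          hj (hq.qinj (faml_two (hq.qmem j) u1 v1 (hPu v4) (hP v v4)))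
      · rintro rfl
        exact ⟨hqt j, (mem_sdiff.1 hto).2⟩
    have own : (q i \ (cov W1 ∪ cov W2)).card = P.card + 1 := by
      rw [← card_insert_of_notMem tP, ← e]
      congr 1
      refine Subset.antisymm (fun v hv => eO ▸ mem_sdiff.2
        ⟨mem_cov.2 ⟨_, u1, (mem_sdiff.1 hv).1⟩, (mem_sdiff.1 hv).2⟩) fun v hv => mem_sdiff.2
        ⟨(mem_insert.1 hv).elim (fun c => c ▸ hqt i) (fun c => hPu c),
          (mem_sdiff.1 (eO ▸ hv)).2⟩
    obtain ⟨x, y, k1, k2, k3⟩ := q1_idx i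
    exact q1_two T G1 G2 hE k1 k2 k3 hqt (by omega) own (oth x k1.symm) (oth y k2.symm)
  by_cases o2 : (cov H \ cov (un F)).card = 2
  · have := main z (mem_sdiff.2 ⟨hz, out z hz tz⟩) {p} (singleton_subset_iff.2 pz)
      (fun v hv => mem_singleton.1 hv ▸ pp) (by rw [card_singleton]; omega) (by simp)
    rw [card_singleton] at this
    omega
  · have o3 : 0 < tt (H \ un F) (dg H) := by omega
    obtain ⟨u, hu⟩ := card_pos.1 o3
    obtain ⟨u1, u2⟩ := mem_filter.1 hu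
    obtain ⟨P, P1, P2⟩ := exists_subset_card_eq u2
    have := main u u1 P (fun v hv => (mem_filter.1 (P1 hv)).1)
      (fun v hv => (mem_filter.1 (P1 hv)).2) (by omega) (by omega)
    omega

theorem ih4 [Infinite V] (k : ℕ) : IH4 V k := by
  induction k with
  | zero =>
    intro X hk h _ _ _
    have := card_pos.2 h.ne
    omega
  | succ k ih => exact fun X hk h h3 h4 hp => vb4_step ih hk h h3 h4 hp

theorem vb4 [Infinite V] {H : Finset (Finset V)} (h : CC H) (h3 : ∀ v, dg H v ≤ 3) (h4 : N4 H)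
    (hp : PT H) : VB H 4 := ih4 H.card H le_rfl h h3 h4 hp

end Pool.Agent.Work.MP_d266e7_co.C5.P24
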