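import Pool.Agent.Work.MP_d266e7_co.Full.GDefs

/-!
Names for a link (`LkD`), and `cps_disj`: in the class `ClsC` different priced cores are disjoint.
-/

namespace Pool.Agent.Work.MP_d266e7_co.Mix

open Finset C5 C5.P24

variable {V : Type} [DecidableEq V] {G : Finset (Finset V)}

/-- the pair `z = S + k1 + k2`, `z' = S + k3 + g` links the set `K = {k1, k2, k3}` -/
structure LkD (G : Finset (Finset V)) (K z z' : Finset V) (k1 k2 k3 : V) : Prop where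
  pr : Pr G z z'
  eq : K = {k1, k2, k3}
  n12 : k1 ≠ k2
  a1 : k1 ∈ z
  a2 : k2 ∈ z
  a3 : k3 ∈ z'
  b1 : k1 ∉ z'
  b2 : k2 ∉ z'
  b3 : k3 ∉ z

theorem Pr.sdiff {c w : Finset V} (h : Pr G c w) : (c \ w).card = 2 := by
  have h1 := card_sdiff_add_card_inter c w
  rw [h.i3, h.c5] at h1
  omega

theorem Pr.not_three {c w : Finset V} (h : Pr G c w) {a b d : V} (ab : a ≠ b) (ad : a ≠ d)
    (bd : b ≠ d) (ha : a ∈ c ∧ a ∉ w) (hb : b ∈ c ∧ b ∉ w) (hd : d ∈ c ∧ d ∉ w) : False := by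
  have h1 : ({a, b, d} : Finset V) ⊆ c \ w := insert_subset (mem_sdiff.2 ha)
    (insert_subset (mem_sdiff.2 hb) (singleton_subset_iff.2 (mem_sdiff.2 hd)))
  have h2 := card_le_card h1
  rw [h.sdiff, card_eq_three.2 ⟨a, b, d, ab, ad, bd, rfl⟩] at h2
  omega

theorem lkd_of {K p q : Finset V} (h : Pr G p q) (s : K ⊆ sd p q) (h3 : K.card = 3) :
    ∃ k1 k2 k3, LkD G K p q k1 k2 k3 ∨ LkD G K q p k1 k2 k3 := by
  obtain ⟨a, b, c, ab, ac, bc, rfl⟩ := card_eq_three.1 h3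
  have ha := mem_sd.1 (s (by simp : a ∈ ({a, b, c} : Finset V)))
  have hb := mem_sd.1 (s (by simp : b ∈ ({a, b, c} : Finset V)))
  have hc := mem_sd.1 (s (by simp : c ∈ ({a, b, c} : Finset V)))
  have e1 : ({a, b, c} : Finset V) = {a, c, b} := by rw [pair_comm b c]
  have e2 : ({a, b, c} : Finset V) = {b, c, a} := by rw [insert_comm a b, pair_comm a c]
  rcases ha with ha | ha <;> rcases hb with hb | hb <;> rcases hc with hc | hc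
  · exact (h.not_three ab ac bc ha hb hc).elim
  · exact ⟨a, b, c, Or.inl ⟨h, rfl, ab, ha.1, hb.1, hc.2, ha.2, hb.2, hc.1⟩⟩
  · exact ⟨a, c, b, Or.inl ⟨h, e1, ac, ha.1, hc.1, hb.2, ha.2, hc.2, hb.1⟩⟩
  · exact ⟨b, c, a, Or.inr ⟨h.symm, e2, bc, hb.2, hc.2, ha.1, hb.1, hc.1, ha.2⟩⟩
  · exact ⟨b, c, a, Or.inl ⟨h, e2, bc, hb.1, hc.1, ha.2, hb.2, hc.2, ha.1⟩⟩
  · exact ⟨a, c, b, Or.inr ⟨h.symm, e1, ac, ha.2, hc.2, hb.1, ha.1, hc.1, hb.2⟩⟩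
  · exact ⟨a, b, c, Or.inr ⟨h.symm, rfl, ab, ha.2, hb.2, hc.1, ha.1, hb.1, hc.2⟩⟩
  · exact (h.symm.not_three ab ac bc ha.symm hb.symm hc.symm).elim

theorem Lk.data {K : Finset V} (h : Lk G K) (h3 : K.card = 3) :
    ∃ z z' k1 k2 k3, LkD G K z z' k1 k2 k3 := by
  obtain ⟨p, q, h1, h2⟩ := h
  obtain ⟨k1, k2, k3, h4 | h4⟩ := lkd_of h1 h2 h3
  exacts [⟨_, _, _, _, _, h4⟩, ⟨_, _, _, _, _, h4⟩]

theorem LkD.swap {K z z' : Finset V} {k1 k2 k3 : V} (h : LkD G K z z' k1 k2 k3) :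
    LkD G K z z' k2 k1 k3 :=
  ⟨h.pr, h.eq.trans (insert_comm _ _ _), h.n12.symm, h.a2, h.a1, h.a3, h.b2, h.b1, h.b3⟩

theorem LkD.mem {K z z' : Finset V} {k1 k2 k3 : V} (h : LkD G K z z' k1 k2 k3) {k : V} :
    k ∈ K ↔ k = k1 ∨ k = k2 ∨ k = k3 := by
  rw [h.eq]
  simp

/-- a block of degree at most three in three different nodes lies in no other node -/
theorem of_three {v : V} (h : dg G v ≤ 3) {a b c x : Finset V} (ab : a ≠ b) (ac : a ≠ c)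
    (bc : b ≠ c) (ha : a ∈ star G v) (hb : b ∈ star G v) (hc : c ∈ star G v) (hx : x ∈ star G v) :
    x = a ∨ x = b ∨ x = c := by
  have h1 : ({a, b, c} : Finset (Finset V)) = star G v := eq_of_subset_of_card_le
    (insert_subset ha (insert_subset hb (singleton_subset_iff.2 hc)))
    (by rw [card_eq_three.2 ⟨a, b, c, ab, ac, bc, rfl⟩]; exact h)
  rw [← h1] at hx
  simpa using hx

theorem Cls.not_four (h : Cls G) {x y : Finset V} (hx : x ∈ G) (hy : y ∈ G) (k : x ≠ y) {a b : V}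
    (ab : a ≠ b) {D : Finset V} (hD : D.card = 2) (ha : a ∉ D) (hb : b ∉ D) (ax : a ∈ x)
    (ay : a ∈ y) (bx : b ∈ x) (bY : b ∈ y) (d1 : D ⊆ x) (d2 : D ⊆ y) : False := by
  have h1 : insert a (insert b D) ⊆ x ∩ y := insert_subset (mem_inter.2 ⟨ax, ay⟩)
    (insert_subset (mem_inter.2 ⟨bx, bY⟩) (subset_inter d1 d2))
  have h2 := (card_le_card h1).trans (h.c3 x hx y hy k)
  rw [card_insert_of_notMem (by simp [ab, ha]), card_insert_of_notMem hb] at h2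
  omega

theorem lk_z (h : ClsC G) {c w z z' : Finset V} {k1 k2 k3 : V} (t : Trc G c w)
    (l : LkD G (c ∩ w) z z' k1 k2 k3) (t2 : Trc G c z) (l2 : Lk G (c ∩ z)) : False := by
  have m1 := mem_inter.1 (l.mem.2 (Or.inl rfl))
  have m2 := mem_inter.1 (l.mem.2 (Or.inr (Or.inl rfl)))
  have m3 := mem_inter.1 (l.mem.2 (Or.inr (Or.inr rfl)))
  have cz : c ≠ z := t2.1.ne
  have wz : w ≠ z := fun e => l.b3 (e ▸ m3.2)
  have cz' : c ≠ z' := fun e => l.b1 (e ▸ m1.1)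
  have nD : ¬ c \ w ⊆ z := fun s => h.cls.not_four t.1.mc l.pr.mc cz l.n12 t.1.sdiff
    (fun k => (mem_sdiff.1 k).2 m1.2) (fun k => (mem_sdiff.1 k).2 m2.2) m1.1 l.a1 m2.1 l.a2
    sdiff_subset s
  have nF : ¬ w \ c ⊆ z := fun s => h.cls.not_four t.1.mw l.pr.mc wz l.n12 t.1.symm.sdiff
    (fun k => (mem_sdiff.1 k).2 m1.1) (fun k => (mem_sdiff.1 k).2 m2.1) m1.2 l.a1 m2.2 l.a2
    sdiff_subset s
  obtain ⟨s, s1, s2⟩ : ∃ s ∈ c ∩ z, s ∉ ({k1, k2} : Finset V) :=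
    exists_mem_notMem_of_card_lt_card (by rw [t2.1.i3]; exact card_le_two.trans_lt (by omega))
  obtain ⟨sc, sz⟩ := mem_inter.1 s1
  rw [mem_insert, mem_singleton, not_or] at s2
  have sw : s ∉ w := fun k => by
    rcases l.mem.1 (mem_inter.2 ⟨sc, k⟩) with e | e | e
    exacts [s2.1 e, s2.2 e, l.b3 (e ▸ sz)]
  have sz' : s ∈ z' := by
    by_contra k
    exact l.pr.not_three l.n12 (Ne.symm s2.1) (Ne.symm s2.2) ⟨l.a1, l.b1⟩ ⟨l.a2, l.b2⟩ ⟨sz, k⟩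
  obtain ⟨y, y1, -, y2⟩ := t.2
  have yD : c \ w ⊆ y := fun v hv => y2 (mem_sd.2 (Or.inl (mem_sdiff.1 hv)))
  have yF : w \ c ⊆ y := fun v hv => y2 (mem_sd.2 (Or.inr (mem_sdiff.1 hv).symm))
  rcases of_three (h.cl c z t2 l2 s s1) cz cz' l.pr.ne (mem_star.2 ⟨t.1.mc, sc⟩)
    (mem_star.2 ⟨l.pr.mc, sz⟩) (mem_star.2 ⟨l.pr.mw, sz'⟩)
    (mem_star.2 ⟨y1, yD (mem_sdiff.2 ⟨sc, sw⟩)⟩) with e | e | e
  · obtain ⟨v, hv⟩ : (w \ c).Nonempty := card_pos.1 (by rw [t.1.symm.sdiff]; omega)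
    exact (mem_sdiff.1 hv).2 (e ▸ yF hv)
  · exact nD (e ▸ yD)
  · obtain ⟨d, d1, d2⟩ := not_subset.1 nD
    obtain ⟨u, u1, u2⟩ := not_subset.1 nF
    refine l.pr.symm.not_three (a := k3) (b := d) (d := u) ?_ ?_ ?_ ⟨l.a3, l.b3⟩ ⟨e ▸ yD d1, d2⟩
      ⟨e ▸ yF u1, u2⟩
    · exact fun k => (mem_sdiff.1 d1).2 (k ▸ m3.2)
    · exact fun k => (mem_sdiff.1 u1).2 (k ▸ m3.1)
    · exact fun k => (mem_sdiff.1 u1).2 (k ▸ (mem_sdiff.1 d1).1)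

theorem lk_z' (h : ClsC G) {c w z z' : Finset V} {k1 k2 k3 : V} (t : Trc G c w) (l1 : Lk G (c ∩ w))
    (l : LkD G (c ∩ w) z z' k1 k2 k3) (t2 : Trc G c z') (l2 : Lk G (c ∩ z')) : False := by
  have m1 := mem_inter.1 (l.mem.2 (Or.inl rfl))
  have m2 := mem_inter.1 (l.mem.2 (Or.inr (Or.inl rfl)))
  have m3 := mem_inter.1 (l.mem.2 (Or.inr (Or.inr rfl)))
  have cz : c ≠ z := fun e => l.b3 (e ▸ m3.1)
  have cz' : c ≠ z' := t2.1.ne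
  have wz' : w ≠ z' := fun e => l.b1 (e ▸ m1.2)
  have nD : ¬ c \ w ⊆ z := fun s => h.cls.not_four t.1.mc l.pr.mc cz l.n12 t.1.sdiff
    (fun k => (mem_sdiff.1 k).2 m1.2) (fun k => (mem_sdiff.1 k).2 m2.2) m1.1 l.a1 m2.1 l.a2
    sdiff_subset s
  have hD : c \ w ⊆ z' := fun v hv => by
    by_contra k
    obtain ⟨v1, v2⟩ := mem_sdiff.1 hv
    exact t2.1.not_three (d := v) l.n12 (fun e => v2 (e ▸ m1.2)) (fun e => v2 (e ▸ m2.2))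
      ⟨m1.1, l.b1⟩ ⟨m2.1, l.b2⟩ ⟨v1, k⟩
  obtain ⟨d', d1, d2⟩ := not_subset.1 nD
  obtain ⟨d, d3, d4⟩ : ∃ d ∈ c \ w, d ∉ ({d'} : Finset V) :=
    exists_mem_notMem_of_card_lt_card (by rw [t.1.sdiff, card_singleton]; omega)
  rw [mem_singleton] at d4
  have dz : d ∈ z := by
    by_contra k
    exact l.pr.symm.not_three (a := k3) (b := d) (d := d') (fun e => (mem_sdiff.1 d3).2 (e ▸ m3.2))
      (fun e => (mem_sdiff.1 d1).2 (e ▸ m3.2)) d4 ⟨l.a3, l.b3⟩ ⟨hD d3, k⟩ ⟨hD d1, d2⟩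
  obtain ⟨p, q, j1, j2, j3, n⟩ := l2.data t2.1.i3
  have q1 := mem_inter.1 (n.mem.2 (Or.inl rfl))
  have q3 := mem_inter.1 (n.mem.2 (Or.inr (Or.inr rfl)))
  have hin : ∀ v ∈ c ∩ z', ∃ x ∈ G, v ∈ x ∧ x ≠ c ∧ x ≠ z' ∧ (x = p ∨ x = q) := fun v hv => by
    rcases n.mem.1 hv with e | e | e
    · exact ⟨p, n.pr.mc, e ▸ n.a1, fun k => n.b3 (k ▸ q3.1), fun k => n.b3 (k ▸ q3.2), Or.inl rfl⟩
    · exact ⟨p, n.pr.mc, e ▸ n.a2, fun k => n.b3 (k ▸ q3.1), fun k => n.b3 (k ▸ q3.2), Or.inl rfl⟩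
    · exact ⟨q, n.pr.mw, e ▸ n.a3, fun k => n.b1 (k ▸ q1.1), fun k => n.b1 (k ▸ q1.2), Or.inr rfl⟩
  have md : d ∈ c ∩ z' := mem_inter.2 ⟨(mem_sdiff.1 d3).1, hD d3⟩
  obtain ⟨x1, x1G, x1v, x1c, x1z, x1p⟩ := hin d md
  obtain ⟨x2, x2G, x2v, x2c, x2z, x2p⟩ := hin k3 (mem_inter.2 ⟨m3.1, l.a3⟩)
  obtain ⟨x3, -, x3v, -, -, x3p⟩ := hin d' (mem_inter.2 ⟨(mem_sdiff.1 d1).1, hD d1⟩)
  have e1 : x1 = z := by
    rcases of_three (h.cl c z' t2 l2 d md) cz cz' l.pr.ne (mem_star.2 ⟨t.1.mc, (mem_inter.1 md).1⟩)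
      (mem_star.2 ⟨l.pr.mc, dz⟩) (mem_star.2 ⟨l.pr.mw, hD d3⟩) (mem_star.2 ⟨x1G, x1v⟩) with e | e | e
    exacts [absurd e x1c, e, absurd e x1z]
  have e2 : x2 = w := by
    rcases of_three (h.cl c w t l1 k3 (mem_inter.2 m3)) t.1.ne cz' wz' (mem_star.2 ⟨t.1.mc, m3.1⟩)
      (mem_star.2 ⟨t.1.mw, m3.2⟩) (mem_star.2 ⟨l.pr.mw, l.a3⟩) (mem_star.2 ⟨x2G, x2v⟩) with e | e | e
    exacts [absurd e x2c, e, absurd e x2z]
  have n1 : x3 ≠ x1 := fun e => d2 (e1 ▸ e ▸ x3v)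
  have n2 : x3 ≠ x2 := fun e => (mem_sdiff.1 d1).2 (e2 ▸ e ▸ x3v)
  have n3 : x1 ≠ x2 := fun e => l.b3 (e1 ▸ e ▸ x2v)
  rcases x1p with a | a <;> rcases x2p with b | b <;> rcases x3p with g | g
  all_goals first | exact n1 (g.trans a.symm) | exact n2 (g.trans b.symm) | exact n3 (a.trans b.symm)

theorem pend_eq {c w c2 w2 : Finset V} (p : Pend G c w) (t2 : Pr G c2 w2) {k : V}
    (h1 : k ∈ c ∩ w) (h2 : k ∈ c2 ∩ w2) : c ∩ w = c2 ∩ w2 := by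
  have a : c2 ∈ ({c, w} : Finset (Finset V)) := p k h1 ▸ mem_star.2 ⟨t2.mc, (mem_inter.1 h2).1⟩
  have b : w2 ∈ ({c, w} : Finset (Finset V)) := p k h1 ▸ mem_star.2 ⟨t2.mw, (mem_inter.1 h2).2⟩
  rw [mem_insert, mem_singleton] at a b
  rcases a with rfl | rfl <;> rcases b with rfl | rfl
  exacts [absurd rfl t2.ne, rfl, inter_comm _ _, absurd rfl t2.ne]

theorem lk_third (h : ClsC G) {c w v c2 w2 : Finset V} {k : V} (t : Trc G c w)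
    (l1 : Lk G (c ∩ w)) (hk : k ∈ c ∩ w) (hv : v ∈ G) (kv : k ∈ v) (cv : c ≠ v) (wv : w ≠ v)
    (t2 : Trc G c2 w2) (l2 : Lk G (c2 ∩ w2)) (h2 : k ∈ c2 ∩ w2) (ne : c ∩ w ≠ c2 ∩ w2) :
    (Trc G c v ∧ Lk G (c ∩ v)) ∨ (Trc G w v ∧ Lk G (w ∩ v)) := by
  have o := fun x => of_three (x := x) (h.cl c w t l1 k hk) t.1.ne cv wv
    (mem_star.2 ⟨t.1.mc, (mem_inter.1 hk).1⟩) (mem_star.2 ⟨t.1.mw, (mem_inter.1 hk).2⟩)
    (mem_star.2 ⟨hv, kv⟩)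
  have a := o c2 (mem_star.2 ⟨t2.1.mc, (mem_inter.1 h2).1⟩)
  have b := o w2 (mem_star.2 ⟨t2.1.mw, (mem_inter.1 h2).2⟩)
  have n := t2.1.ne
  rcases a with rfl | rfl | rfl <;> rcases b with rfl | rfl | rfl
  · exact absurd rfl n
  · exact absurd rfl ne
  · exact Or.inl ⟨t2, l2⟩
  · exact absurd (inter_comm _ _) ne
  · exact absurd rfl n
  · exact Or.inr ⟨t2, l2⟩
  · exact Or.inl ⟨t2.symm, inter_comm c2 w2 ▸ l2⟩
  · exact Or.inr ⟨t2.symm, inter_comm c2 w2 ▸ l2⟩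
  · exact absurd rfl n

/-- different priced cores are disjoint -/
theorem cp_disj (h : ClsC G) {K K' : Finset V} (h1 : CP G K) (h2 : CP G K') (ne : K ≠ K') :
    Disjoint K K' := by
  obtain ⟨c, w, t, rfl, p⟩ := h1
  obtain ⟨c2, w2, t2, rfl, p2⟩ := h2
  refine disjoint_left.2 fun k a b => ?_
  rcases p with p | p
  · exact ne (pend_eq p t2.1 a b)
  rcases p2 with p2 | p2
  · exact ne (pend_eq p2 t.1 b a).symm
  obtain ⟨z, z', k1, k2, k3, l⟩ := p.data t.1.i3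
  have l' : LkD G (w ∩ c) z z' k1 k2 k3 := inter_comm c w ▸ l
  have m1 := mem_inter.1 (l.mem.2 (Or.inl rfl))
  have m3 := mem_inter.1 (l.mem.2 (Or.inr (Or.inr rfl)))
  by_cases e : k ∈ z
  · rcases lk_third h t p a l.pr.mc e (fun e => l.b3 (e ▸ m3.1)) (fun e => l.b3 (e ▸ m3.2)) t2 p2
      b ne with ⟨x, y⟩ | ⟨x, y⟩
    exacts [lk_z h t l x y, lk_z h t.symm l' x y]
  · have e' : k ∈ z' := by
      rcases l.mem.1 a with r | r | r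
      exacts [absurd (r ▸ l.a1) e, absurd (r ▸ l.a2) e, r ▸ l.a3]
    rcases lk_third h t p a l.pr.mw e' (fun e => l.b1 (e ▸ m1.1)) (fun e => l.b1 (e ▸ m1.2)) t2 p2
      b ne with ⟨x, y⟩ | ⟨x, y⟩
    exacts [lk_z' h t p l x y, lk_z' h t.symm (inter_comm c w ▸ p) l' x y]

end Pool.Agent.Work.MP_d266e7_co.Mix
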