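import Pool.Agent.Work.MP_d266e7_co.Full.Venn5
import Mathlib.Tactic.FinCases

/-!
Families with five members, maximum degree three and transversal number three on at most
thirteen vertices.
-/

namespace Pool.Agent.Work.MP_d266e7_co.C5.P24

open Finset

variable {V : Type} [DecidableEq V]

theorem en5_ext3 {H : Finset (Finset V)} (hm : H.card = 5) {a b c : Finset V} (ha : a ∈ H)
    (hb : b ∈ H) (hc : c ∈ H) (ab : a ≠ b) (ac : a ≠ c) (bc : b ≠ c) :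
    ∃ q, En5 H q ∧ q 0 = a ∧ q 1 = b ∧ q 2 = c := by
  have hb' : b ∈ H.erase a := mem_erase.2 ⟨ab.symm, hb⟩
  have hc' : c ∈ (H.erase a).erase b := mem_erase.2 ⟨bc.symm, mem_erase.2 ⟨ac.symm, hc⟩⟩
  have k : (((H.erase a).erase b).erase c).card = 2 := by
    rw [card_erase_of_mem hc', card_erase_of_mem hb', card_erase_of_mem ha, hm]
  obtain ⟨d, e, -, k⟩ := card_eq_two.1 k
  have m : ∀ x, x ∈ ({d, e} : Finset (Finset V)) → x ∈ H := fun x hx =>
    mem_of_mem_erase (mem_of_mem_erase (mem_of_mem_erase (k ▸ hx)))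
  refine ⟨![a, b, c, d, e], en5_of hm (fun i => ?_) fun x hx => ?_, rfl, rfl, rfl⟩
  · fin_cases i
    exacts [ha, hb, hc, m d (by simp), m e (by simp)]
  · by_cases h1 : x = a
    · exact ⟨0, h1⟩
    by_cases h2 : x = b
    · exact ⟨1, h2⟩
    by_cases h3 : x = c
    · exact ⟨2, h3⟩
    have : x ∈ ({d, e} : Finset (Finset V)) :=
      k ▸ mem_erase.2 ⟨h3, mem_erase.2 ⟨h2, mem_erase.2 ⟨h1, hx⟩⟩⟩
    rcases mem_insert.1 this with h | h
    · exact ⟨3, h⟩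
    · exact ⟨4, mem_singleton.1 h⟩

theorem en5_ext2 {H : Finset (Finset V)} (hm : H.card = 5) {a b : Finset V} (ha : a ∈ H)
    (hb : b ∈ H) (ab : a ≠ b) : ∃ q, En5 H q ∧ q 0 = a ∧ q 1 = b := by
  have hb' : b ∈ H.erase a := mem_erase.2 ⟨ab.symm, hb⟩
  have k : 0 < ((H.erase a).erase b).card := by
    rw [card_erase_of_mem hb', card_erase_of_mem ha, hm]; decide
  obtain ⟨c, hc⟩ := card_pos.1 k
  obtain ⟨h1, h2⟩ := mem_erase.1 hc
  obtain ⟨h2, h3⟩ := mem_erase.1 h2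
  obtain ⟨q, h, e0, e1, -⟩ := en5_ext3 hm ha hb h3 ab h2.symm h1.symm
  exact ⟨q, h, e0, e1⟩

theorem en5_ext1 {H : Finset (Finset V)} (hm : H.card = 5) {a : Finset V} (ha : a ∈ H) :
    ∃ q, En5 H q ∧ q 0 = a := by
  have k : 0 < (H.erase a).card := by
    rw [card_erase_of_mem ha, hm]; decide
  obtain ⟨c, hc⟩ := card_pos.1 k
  obtain ⟨h1, h2⟩ := mem_erase.1 hc
  obtain ⟨q, h, e0, -⟩ := en5_ext2 hm ha h2 h1.symm
  exact ⟨q, h, e0⟩

theorem En5.pos {H : Finset (Finset V)} {q : Fin 5 → Finset V} (h : En5 H q) {i : Fin 5} {v : V}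
    (hv : v ∈ q i) : 1 ≤ vmu H q (vcode q v) :=
  card_pos.2 ⟨v, mem_filter.2 ⟨h.sub hv, rfl⟩⟩

theorem En5.co4 {H : Finset (Finset V)} {q : Fin 5 → Finset V} (h : En5 H q) (hu : U5 H)
    {i j : Fin 5} (ij : i ≠ j) : (q i ∩ q j).card ≤ 4 := by
  by_contra c
  have e1 : q i ∩ q j = q i := eq_of_subset_of_card_le inter_subset_left (by
    rw [hu _ (h.mem i)]; omega)
  have e2 : q i ∩ q j = q j := eq_of_subset_of_card_le inter_subset_right (by
    rw [hu _ (h.mem j)]; omega)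
  exact ij (h.inj (e1.symm.trans e2))

/-- a bound on the degree at the vertices of one member -/
theorem En5.low {H : Finset (Finset V)} {q : Fin 5 → Finset V} (h : En5 H q) {d : ℕ} {i : Fin 5}
    (h3 : ∀ v ∈ q i, C5.dg H v ≤ d) {k : ℕ} (hk : d < vpc k) (hi : k.testBit i = true) :
    vmu H q k = 0 := by
  by_contra c
  obtain ⟨v, hv⟩ := card_pos.1 (Nat.pos_of_ne_zero c)
  have e := (mem_filter.1 hv).2
  have := h3 v (by rw [← e, vcode_bit, decide_eq_true_eq] at hi; exact hi)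
  rw [h.dg, e] at this
  omega

theorem En5.dis {H : Finset (Finset V)} {q : Fin 5 → Finset V} {i j : Fin 5}
    (hd : Disjoint (q i) (q j)) {k : ℕ} (hi : k.testBit i = true) (hj : k.testBit j = true) :
    vmu H q k = 0 := by
  by_contra c
  obtain ⟨v, -, a⟩ := vmu_pos (Nat.one_le_iff_ne_zero.2 c)
  exact disjoint_left.1 hd ((a i).2 hi) ((a j).2 hj)


/-- the linear facts on the pattern counts -/
structure Lin5 (μ : ℕ → ℕ) (n : ℕ) : Prop where
  all : μ 1 + μ 2 + μ 3 + μ 4 + μ 5 + μ 6 + μ 7 + μ 8 + μ 9 + μ 10 + μ 11 + μ 12 + μ 13 + μ 14 + μ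
    16 + μ 17 + μ 18 + μ 19 + μ 20 + μ 21 + μ 22 + μ 24 + μ 25 + μ 26 + μ 28 = n
  n0 : μ 1 + μ 3 + μ 5 + μ 7 + μ 9 + μ 11 + μ 13 + μ 17 + μ 19 + μ 21 + μ 25 = 5
  n1 : μ 2 + μ 3 + μ 6 + μ 7 + μ 10 + μ 11 + μ 14 + μ 18 + μ 19 + μ 22 + μ 26 = 5
  n2 : μ 4 + μ 5 + μ 6 + μ 7 + μ 12 + μ 13 + μ 14 + μ 20 + μ 21 + μ 22 + μ 28 = 5
  n3 : μ 8 + μ 9 + μ 10 + μ 11 + μ 12 + μ 13 + μ 14 + μ 24 + μ 25 + μ 26 + μ 28 = 5
  n4 : μ 16 + μ 17 + μ 18 + μ 19 + μ 20 + μ 21 + μ 22 + μ 24 + μ 25 + μ 26 + μ 28 = 5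
  c01 : μ 3 + μ 7 + μ 11 + μ 19 ≤ 4
  c02 : μ 5 + μ 7 + μ 13 + μ 21 ≤ 4
  c03 : μ 9 + μ 11 + μ 13 + μ 25 ≤ 4
  c04 : μ 17 + μ 19 + μ 21 + μ 25 ≤ 4
  c12 : μ 6 + μ 7 + μ 14 + μ 22 ≤ 4
  c13 : μ 10 + μ 11 + μ 14 + μ 26 ≤ 4
  c14 : μ 18 + μ 19 + μ 22 + μ 26 ≤ 4
  c23 : μ 12 + μ 13 + μ 14 + μ 28 ≤ 4
  c24 : μ 20 + μ 21 + μ 22 + μ 28 ≤ 4
  c34 : μ 24 + μ 25 + μ 26 + μ 28 ≤ 4
  big : μ 15 + μ 23 + μ 27 + μ 29 + μ 30 + μ 31 = 0

theorem En5.lin {H : Finset (Finset V)} {q : Fin 5 → Finset V} (h : En5 H q) (hu : U5 H)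
    (h3 : ∀ v, C5.dg H v ≤ 3) : Lin5 (vmu H q) (cov H).card := by
  have z0 := h.zero
  have z15 := h.big h3 (k := 15) (by decide)
  have z23 := h.big h3 (k := 23) (by decide)
  have z27 := h.big h3 (k := 27) (by decide)
  have z29 := h.big h3 (k := 29) (by decide)
  have z30 := h.big h3 (k := 30) (by decide)
  have z31 := h.big h3 (k := 31) (by decide)
  refine ⟨?_, ?_, ?_, ?_, ?_, ?_, ?_, ?_, ?_, ?_, ?_, ?_, ?_, ?_, ?_, ?_, ?_⟩
  · have := h.n.trans (vx_all _)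
    omega
  · have := ((hu _ (h.mem 0)).symm.trans (h.node 0)).trans (vx_n0 _)
    omega
  · have := ((hu _ (h.mem 1)).symm.trans (h.node 1)).trans (vx_n1 _)
    omega
  · have := ((hu _ (h.mem 2)).symm.trans (h.node 2)).trans (vx_n2 _)
    omega
  · have := ((hu _ (h.mem 3)).symm.trans (h.node 3)).trans (vx_n3 _)
    omega
  · have := ((hu _ (h.mem 4)).symm.trans (h.node 4)).trans (vx_n4 _)
    omega
  · have := ((h.co 0 1).trans (vx_c01 _)).symm.trans_le (h.co4 hu (by decide))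
    omega
  · have := ((h.co 0 2).trans (vx_c02 _)).symm.trans_le (h.co4 hu (by decide))
    omega
  · have := ((h.co 0 3).trans (vx_c03 _)).symm.trans_le (h.co4 hu (by decide))
    omega
  · have := ((h.co 0 4).trans (vx_c04 _)).symm.trans_le (h.co4 hu (by decide))
    omega
  · have := ((h.co 1 2).trans (vx_c12 _)).symm.trans_le (h.co4 hu (by decide))
    omega
  · have := ((h.co 1 3).trans (vx_c13 _)).symm.trans_le (h.co4 hu (by decide))
    omega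
  · have := ((h.co 1 4).trans (vx_c14 _)).symm.trans_le (h.co4 hu (by decide))
    omega
  · have := ((h.co 2 3).trans (vx_c23 _)).symm.trans_le (h.co4 hu (by decide))
    omega
  · have := ((h.co 2 4).trans (vx_c24 _)).symm.trans_le (h.co4 hu (by decide))
    omega
  · have := ((h.co 3 4).trans (vx_c34 _)).symm.trans_le (h.co4 hu (by decide))
    omega
  · omega

theorem w5_numT {a0 a1 a2 a3 a4 p01 p02 p03 p04 p12 p13 p14 p23 p24 p34 t1 t2 t3 t4 n : ℕ}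
    (hn : n ≤ 12)
    (all : a0 + a1 + a2 + a3 + a4 + p01 + p02 + p03 + p04 + p12 + p13 + p14 + p23 + p24 + p34 +
      t1 + t2 + t3 + t4 = n)
    (n0 : a0 + p01 + p02 + p03 + p04 = 5) (n1 : a1 + p01 + p12 + p13 + p14 + t2 + t3 + t4 = 5)
    (n2 : a2 + p02 + p12 + p23 + p24 + t1 + t3 + t4 = 5)
    (n3 : a3 + p03 + p13 + p23 + p34 + t1 + t2 + t4 = 5)
    (n4 : a4 + p04 + p14 + p24 + p34 + t1 + t2 + t3 = 5) :
    a0 + a1 + a2 + a3 + a4 + 1 ≤ t1 + t2 + t3 + t4 := by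
  linarith

theorem w5_numA {p01 p02 p03 p04 p13 p14 p23 p24 p34 t3 t4 : ℕ}
    (n0 : p01 + p02 + p03 + p04 = 3) (n1 : p01 + p13 + p14 = 2)
    (n2 : p02 + p23 + p24 = 2) (n3 : p03 + p13 + p23 + p34 + t4 = 5)
    (n4 : p04 + p14 + p24 + p34 + t3 = 5) (t : t3 + t4 = 3) (k1 : 0 < p01) (k2 : 0 < p02)
    (c1 : p03 = 0 ∨ t3 = 0) (c2 : p04 = 0 ∨ t4 = 0) : p01 + p02 = 3 := by
  omega

theorem w5_numB {a0 a1 a2 a3 a4 p01 p12 p13 p14 p23 p24 p34 t1 t2 t3 t4 : ℕ}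
    (e : a0 + a1 + a2 + a3 + a4 + 1 ≤ t1 + t2 + t3 + t4)
    (n0 : a0 + p01 = 5) (n1 : a1 + p01 + p12 + p13 + p14 + t2 + t3 + t4 = 5)
    (n2 : a2 + p12 + p23 + p24 + t1 + t3 + t4 = 5)
    (n3 : a3 + p13 + p23 + p34 + t1 + t2 + t4 = 5)
    (n4 : a4 + p14 + p24 + p34 + t1 + t2 + t3 = 5)
    (d12 : p12 + t3 + t4 ≤ 3) (d13 : p13 + t2 + t4 ≤ 3) (d14 : p14 + t2 + t3 ≤ 3)
    (d23 : p23 + t1 + t4 ≤ 3) (d24 : p24 + t1 + t3 ≤ 3) (d34 : p34 + t1 + t2 ≤ 3)
    (c : p01 = 0 ∨ t1 = 0) : False := by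
  rcases c with rfl | rfl
  · have : 3 * (t1 + t2 + t3 + t4) + p12 + p13 + p14 + p23 + p24 + p34 ≤ 18 := by linarith
    have : 3 * (t1 + t2 + t3 + t4) + 2 * (p12 + p13 + p14 + p23 + p24 + p34) +
      (a1 + a2 + a3 + a4) = 20 := by linarith
    linarith
  · linarith

/-- the linear facts if the first member has no vertex of degree three -/
theorem En5.light {H : Finset (Finset V)} {q : Fin 5 → Finset V} (h : En5 H q) (hu : U5 H)
    (h3 : ∀ v, C5.dg H v ≤ 3) (hn : (cov H).card ≤ 12)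
    (hn4 : ∀ e ∈ H, ∀ f ∈ H, e ≠ f → (e ∩ f).card ≤ 3) (hl : ∀ v ∈ q 0, C5.dg H v ≤ 2) :
    (vmu H q 1 + vmu H q 2 + vmu H q 4 + vmu H q 8 + vmu H q 16 + 1 ≤ vmu H q 28 + vmu H q 26 +
      vmu H q 22 + vmu H q 14) ∧
    (vmu H q 1 + vmu H q 3 + vmu H q 5 + vmu H q 9 + vmu H q 17 = 5 ∧
    vmu H q 2 + vmu H q 3 + vmu H q 6 + vmu H q 10 + vmu H q 18 + vmu H q 26 + vmu H q 22 + vmu H
      q 14 = 5 ∧
    vmu H q 4 + vmu H q 5 + vmu H q 6 + vmu H q 12 + vmu H q 20 + vmu H q 28 + vmu H q 22 + vmu H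
      q 14 = 5 ∧
    vmu H q 8 + vmu H q 9 + vmu H q 10 + vmu H q 12 + vmu H q 24 + vmu H q 28 + vmu H q 26 + vmu H
      q 14 = 5 ∧
    vmu H q 16 + vmu H q 17 + vmu H q 18 + vmu H q 20 + vmu H q 24 + vmu H q 28 + vmu H q 26 + vmu
      H q 22 = 5) ∧
    (vmu H q 6 + vmu H q 22 + vmu H q 14 ≤ 3 ∧
    vmu H q 10 + vmu H q 26 + vmu H q 14 ≤ 3 ∧
    vmu H q 18 + vmu H q 26 + vmu H q 22 ≤ 3 ∧
    vmu H q 12 + vmu H q 28 + vmu H q 14 ≤ 3 ∧
    vmu H q 20 + vmu H q 28 + vmu H q 22 ≤ 3 ∧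
    vmu H q 24 + vmu H q 28 + vmu H q 26 ≤ 3) ∧
    (q 0 ∩ q 1).card = vmu H q 3 ∧ (q 0 ∩ q 2).card = vmu H q 5 ∧
    (q 1 ∩ q 2).card = vmu H q 6 + vmu H q 22 + vmu H q 14 ∧
    (q 0 ∩ sd (q 1) (q 2)).card = vmu H q 3 + vmu H q 5 := by
  obtain ⟨all, n0, n1, n2, n3, n4, c01, c02, c03, c04, c12, c13, c14, c23, c24, c34, big⟩ := h.lin
    hu h3
  have d12 := ((h.co 1 2).trans (vx_c12 _)).symm.trans_le
    (hn4 _ (h.mem _) _ (h.mem _) (h.inj.ne (by decide)))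
  have d13 := ((h.co 1 3).trans (vx_c13 _)).symm.trans_le
    (hn4 _ (h.mem _) _ (h.mem _) (h.inj.ne (by decide)))
  have d14 := ((h.co 1 4).trans (vx_c14 _)).symm.trans_le
    (hn4 _ (h.mem _) _ (h.mem _) (h.inj.ne (by decide)))
  have d23 := ((h.co 2 3).trans (vx_c23 _)).symm.trans_le
    (hn4 _ (h.mem _) _ (h.mem _) (h.inj.ne (by decide)))
  have d24 := ((h.co 2 4).trans (vx_c24 _)).symm.trans_le
    (hn4 _ (h.mem _) _ (h.mem _) (h.inj.ne (by decide)))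
  have d34 := ((h.co 3 4).trans (vx_c34 _)).symm.trans_le
    (hn4 _ (h.mem _) _ (h.mem _) (h.inj.ne (by decide)))
  have z7 := h.low hl (k := 7) (by decide) (by decide)
  have z11 := h.low hl (k := 11) (by decide) (by decide)
  have z13 := h.low hl (k := 13) (by decide) (by decide)
  have z19 := h.low hl (k := 19) (by decide) (by decide)
  have z21 := h.low hl (k := 21) (by decide) (by decide)
  have z25 := h.low hl (k := 25) (by decide) (by decide)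
  have y15 := h.big h3 (k := 15) (by decide)
  have y23 := h.big h3 (k := 23) (by decide)
  have y27 := h.big h3 (k := 27) (by decide)
  have y29 := h.big h3 (k := 29) (by decide)
  have y30 := h.big h3 (k := 30) (by decide)
  have y31 := h.big h3 (k := 31) (by decide)
  have m0 : vmu H q 1 + vmu H q 3 + vmu H q 5 + vmu H q 9 + vmu H q 17 = 5 := by
    linarith only [n0, z7, z11, z13, z19, z21, z25]
  have m1 : vmu H q 2 + vmu H q 3 + vmu H q 6 + vmu H q 10 + vmu H q 18 + vmu H q 26 + vmu H q 22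
    + vmu H q 14 = 5 := by
    linarith only [n1, z7, z11, z13, z19, z21, z25]
  have m2 : vmu H q 4 + vmu H q 5 + vmu H q 6 + vmu H q 12 + vmu H q 20 + vmu H q 28 + vmu H q 22
    + vmu H q 14 = 5 := by
    linarith only [n2, z7, z11, z13, z19, z21, z25]
  have m3 : vmu H q 8 + vmu H q 9 + vmu H q 10 + vmu H q 12 + vmu H q 24 + vmu H q 28 + vmu H q 26
    + vmu H q 14 = 5 := by
    linarith only [n3, z7, z11, z13, z19, z21, z25]
  have m4 : vmu H q 16 + vmu H q 17 + vmu H q 18 + vmu H q 20 + vmu H q 24 + vmu H q 28 + vmu H q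
    26 + vmu H q 22 = 5 := by
    linarith only [n4, z7, z11, z13, z19, z21, z25]
  refine ⟨w5_numT hn (by linarith only [all, z7, z11, z13, z19, z21, z25]) m0 m1 m2 m3 m4, ⟨m0,
    m1, m2, m3, m4⟩, ⟨?_, ?_, ?_, ?_, ?_, ?_⟩, ?_, ?_, ?_, ?_⟩
  · linarith only [d12, z7, z11, z13, z19, z21, z25, y15, y23, y27, y29, y30, y31]
  · linarith only [d13, z7, z11, z13, z19, z21, z25, y15, y23, y27, y29, y30, y31]
  · linarith only [d14, z7, z11, z13, z19, z21, z25, y15, y23, y27, y29, y30, y31]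
  · linarith only [d23, z7, z11, z13, z19, z21, z25, y15, y23, y27, y29, y30, y31]
  · linarith only [d24, z7, z11, z13, z19, z21, z25, y15, y23, y27, y29, y30, y31]
  · linarith only [d34, z7, z11, z13, z19, z21, z25, y15, y23, y27, y29, y30, y31]
  · linarith only [(h.co 0 1).trans (vx_c01 _), z7, z11, z13, z19, z21, z25, y15, y23, y27, y29,
    y30, y31]
  · linarith only [(h.co 0 2).trans (vx_c02 _), z7, z11, z13, z19, z21, z25, y15, y23, y27, y29,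
    y30, y31]
  · linarith only [(h.co 1 2).trans (vx_c12 _), z7, z11, z13, z19, z21, z25, y15, y23, y27, y29,
    y30, y31]
  · linarith only [(h.sdc 0 1 2).trans (vx_s012 _), z7, z11, z13, z19, z21, z25, y15, y23, y27,
    y29, y30, y31]

/-- a member `u` with two private vertices and no vertex of degree three lies with three
vertices in the symmetric difference of two members with three common vertices -/
theorem w5b {H : Finset (Finset V)} (hu : U5 H) (h3 : ∀ v, dg H v ≤ 3) (hm : H.card = 5)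
    (hn : (cov H).card ≤ 12) (ht : 3 ≤ tau H)
    (hn4 : ∀ e ∈ H, ∀ f ∈ H, e ≠ f → (e ∩ f).card ≤ 3) {u : Finset V} (hm' : u ∈ H)
    (hp : 2 ≤ (u.filter fun v => dg H v ≤ 1).card) (hl : ∀ v ∈ u, dg H v ≤ 2) :
    ∃ c ∈ H, ∃ w ∈ H, c ≠ u ∧ w ≠ u ∧ (c ∩ w).card = 3 ∧ 3 ≤ (u ∩ sd c w).card ∧
      (c.filter fun v => dg H v ≤ 1).card = 0 ∧ (w.filter fun v => dg H v ≤ 1).card = 0 ∧
      (u.filter fun v => dg H v ≤ 1).card = 2 ∧ ∀ s ∈ c ∩ w, 3 ≤ dg H s := by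
  by_cases two : ∃ x ∈ H, ∃ y ∈ H, u ≠ x ∧ u ≠ y ∧ x ≠ y ∧ ¬ Disjoint u x ∧ ¬ Disjoint u y
  · obtain ⟨x, hx, y, hy, ux, uy, xy, ax, ay⟩ := two
    obtain ⟨q, h, rfl, rfl, rfl⟩ := en5_ext3 hm hm' hx hy ux uy xy
    obtain ⟨e, ⟨n0, n1, n2, n3, n4⟩, ⟨d, -⟩, c1, c2, c3, c4⟩ := h.light hu h3 hn hn4 hl
    have k1 := (card_pos.2 (not_disjoint_iff_nonempty_inter.1 ax)).trans_eq c1
    have k2 := (card_pos.2 (not_disjoint_iff_nonempty_inter.1 ay)).trans_eq c2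
    have z28 := (h.two ht (k := 3) (l := 28) (by decide)).resolve_left k1.ne'
    have z26 := (h.two ht (k := 5) (l := 26) (by decide)).resolve_left k2.ne'
    have p0 := (h.priv 0).trans (vx_p0 _)
    rw [p0] at hp
    have a0 : vmu H q 1 = 2 := by linarith only [e, d, hp, z28, z26]
    have a1 : vmu H q 2 = 0 := by linarith only [e, d, hp, z28, z26]
    have a2 : vmu H q 4 = 0 := by linarith only [e, d, hp, z28, z26]
    have a3 : vmu H q 8 = 0 := by linarith only [e, d, hp, z28, z26]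
    have a4 : vmu H q 16 = 0 := by linarith only [e, d, hp, z28, z26]
    have a6 : vmu H q 6 = 0 := by linarith only [e, d, hp, z28, z26]
    have t : vmu H q 22 + vmu H q 14 = 3 := by linarith only [e, d, hp, z28, z26]
    have e' := w5_numA (p13 := vmu H q 10) (p14 := vmu H q 18) (p23 := vmu H q 12)
      (p24 := vmu H q 20) (p34 := vmu H q 24) (by linarith only [n0, a0])
      (by linarith only [n1, a1, a6, z26, t]) (by linarith only [n2, a2, a6, z28, t])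
      (by linarith only [n3, a3, z26, z28]) (by linarith only [n4, a4, z26, z28]) t k1 k2
      (h.two ht (k := 9) (l := 22) (by decide)) (h.two ht (k := 17) (l := 14) (by decide))
    refine ⟨_, hx, _, hy, ux.symm, uy.symm, by linarith only [c3, a6, t], (c4.trans e').ge,
      ((h.priv 1).trans (vx_p1 _)).trans a1, ((h.priv 2).trans (vx_p2 _)).trans a2, p0.trans a0,
      fun s hs => ?_⟩
    have k : ∀ k < 32, k.testBit (1 : Fin 5) = true → k.testBit (2 : Fin 5) = true →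
        3 ≤ vpc k ∨ k = 6 := by decide
    rcases k _ (vcode_lt q s) (by rw [vcode_bit]; exact decide_eq_true (mem_inter.1 hs).1)
      (by rw [vcode_bit]; exact decide_eq_true (mem_inter.1 hs).2) with a | a
    · exact h.dg s ▸ a
    · have := h.pos (mem_inter.1 hs).1
      rw [a, a6] at this
      exact absurd this (by decide)
  · exfalso
    obtain ⟨q, h, rfl, d⟩ : ∃ q, En5 H q ∧ q 0 = u ∧
        ∀ i, i ≠ 0 → i ≠ 1 → Disjoint (q 0) (q i) := by
      by_cases c : ∃ x ∈ H, u ≠ x ∧ ¬ Disjoint u x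
      · obtain ⟨x, hx, ux, ax⟩ := c
        obtain ⟨q, h, rfl, rfl⟩ := en5_ext2 hm hm' hx ux
        exact ⟨q, h, rfl, fun i a b => by_contra fun c =>
          two ⟨_, hx, _, h.mem i, ux, h.inj.ne a.symm, h.inj.ne b.symm, ax, c⟩⟩
      · obtain ⟨q, h, rfl⟩ := en5_ext1 hm hm'
        exact ⟨q, h, rfl, fun i a _ => by_contra fun k => c ⟨_, h.mem i, h.inj.ne a.symm, k⟩⟩
    obtain ⟨e, ⟨n0, n1, n2, n3, n4⟩, ⟨d1, d2, d3, d4, d5, d6⟩, -⟩ := h.light hu h3 hn hn4 hl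
    have z5 := En5.dis (H := H) (d 2 (by decide) (by decide)) (k := 5) (by decide) (by decide)
    have z9 := En5.dis (H := H) (d 3 (by decide) (by decide)) (k := 9) (by decide) (by decide)
    have z17 := En5.dis (H := H) (d 4 (by decide) (by decide)) (k := 17) (by decide) (by decide)
    rw [z5, z9, z17] at n0
    rw [z5] at n2
    rw [z9] at n3
    rw [z17] at n4
    exact w5_numB e n0 n1 n2 n3 n4 d1 d2 d3 d4 d5 d6 (h.two ht (k := 3) (l := 28) (by decide))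

end Pool.Agent.Work.MP_d266e7_co.C5.P24
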