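import Pool.Agent.Work.MP_d266e7_co.Full.Un5
import Pool.Agent.Work.MP_d266e7_co.Full.Win5

/-!
Four nodes of size five and one node of size three on ten blocks.
-/

namespace Pool.Agent.Work.MP_d266e7_co.Mix

open Finset C5 C5.P24

variable {V : Type} [DecidableEq V]

theorem w5 [Infinite V] {H : Finset (Finset V)} (hc : Cls H) (_hm : MC H) (hf : Flat H)
    (h3 : ∀ v, wdeg H v ≤ 3) (e5 : ek H 5 = 4) (e3 : ek H 3 = 1) (hn : (cov H).card = 10) :
    tau H ≤ 2 := by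
  by_contra ht
  obtain ⟨f, h⟩ := exists_un5 hc
  obtain ⟨K, hK⟩ := card_pos.1 (show 0 < ek H 3 by omega)
  obtain ⟨hK, k3⟩ := mem_filter.1 hK
  have n1 := h.np_im hK
  obtain ⟨c, c1, w, w1, -, -, i3, s3, nc, nw, -, d3⟩ := w5b h.u5
    (h.dg_le (by omega) fun v => (dg_le_wdeg H v).trans (h3 v)) (by rw [h.card]; omega)
    (by rw [h.cov_card]; omega) (by rw [h.tau_eq]; omega) h.c3 (mem_image_of_mem f hK)
    (show 2 ≤ np (H.image f) (f K) by omega) fun v hv => by
      by_cases k : v ∈ cov H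
      · have := dg_lt_wdeg hK k3 ((h.unf.mem hK k).1 hv)
        have := h3 v
        rw [h.unf.dg_old k]
        omega
      · exact (h.unf.dg_new k).trans (by omega)
  obtain ⟨a1, a2, a3⟩ := h.old c1 nc
  obtain ⟨b1, b2, b3⟩ := h.old w1 nw
  have p : Pr H c w := ⟨a1, b1, a2, b2, i3, a3, b3⟩
  refine hf.lk K hK k3 ⟨c, w, p, fun d => ?_, ?_⟩
  · obtain ⟨s, hs⟩ := card_pos.1 (show 0 < (c ∩ w).card by omega)
    have := p.pend_iff.1 d s hs
    have := d3 s hs
    rw [h.unf.dg_old (mem_cov.2 ⟨c, a1, (mem_inter.1 hs).1⟩)] at this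
    omega
  · have s : f K ∩ sd c w ⊆ K := fun v hv => (h.unf.mem hK (by
      rcases mem_sd.1 (mem_inter.1 hv).2 with a | a
      exacts [mem_cov.2 ⟨c, a1, a.1⟩, mem_cov.2 ⟨w, b1, a.2⟩])).1 (mem_inter.1 hv).1
    rw [← eq_of_subset_of_card_le s (by omega)]
    exact inter_subset_right

end Pool.Agent.Work.MP_d266e7_co.Mix
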