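import Pool.Agent.Work.MP_d266e7_co.Full.TNum
import Pool.Agent.Work.MP_d266e7_co.Full.TopL
import Pool.Agent.Work.MP_d266e7_co.Full.Q1
import Pool.Agent.Work.MP_d266e7_co.Full.T2P
import Pool.Agent.Work.MP_d266e7_co.Full.W5j

/-!
The level with weighted degrees at most three: unfold the nodes of size three, use `t1`, `t2p`,
`gplus`, `vb4`, `step0` and count the blocks.
-/

namespace Pool.Agent.Work.MP_d266e7_co.Mix

open Finset C5 C5.P24

variable {V : Type} [DecidableEq V]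

theorem tl_dc (R : Finset (Finset V)) (Z : Finset V) :
    ∑ x ∈ R, (x ∩ Z).card = ∑ v ∈ Z, dg R v := by
  simp only [dg, star, card_filter]
  rw [sum_comm]
  refine sum_congr rfl fun e _ => ?_
  rw [← card_filter, filter_mem_eq_inter, inter_comm]

/-- three hosts with private vertices -/
theorem tl_vb2 [Infinite V] {X : Finset (Finset V)} (h : CC X) (h3 : ∀ v, dg X v ≤ 3) {t : V}
    (ht : dg X t = 3) (hp : ∀ x ∈ star X t, 1 ≤ np X x) : P24.VB X 2 := by
  obtain ⟨F, hF, hτ⟩ := exists_step h (show 1 ≤ dg X t by omega)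
  have hF' : Fam X F := hF.mono sdiff_subset Subset.rfl
  have c0 := step0 h h3 ht hF hτ (c := fun _ => 5) fun W _ => ihv5 W
  rw [sum_const, Nat.nsmul_eq_mul] at c0
  have c1 := step_card hF
  have c7 : F.card + 1 ≤ (X \ un F).card := by
    obtain ⟨x, hx⟩ := card_pos.1 (show 0 < (X \ un F).card by omega)
    exact nl_all h hF' ⟨x, mem_sdiff.1 hx⟩
  have hto := step_out (by omega : 1 ≤ dg X t) hF
  have c2 : ∑ x ∈ star X t, np X x ≤ ((cov X \ cov (un F)).erase t).card := by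
    refine sum_np_le (filter_subset _ _) fun e he v hv hd => mem_erase.2 ⟨fun c => ?_,
      mem_sdiff.2 ⟨mem_cov.2 ⟨e, (mem_star.1 he).1, hv⟩, fun hc => ?_⟩⟩
    · subst c
      omega
    · obtain ⟨f, f1, f2⟩ := mem_cov.1 hc
      have := faml_two (hF'.un_sub f1) (mem_star.1 he).1 f2 hv hd
      exact (mem_sdiff.1 (hF.un_sub f1)).2 (this ▸ he)
  have c3 : (star X t).card • 1 ≤ ∑ x ∈ star X t, np X x := card_nsmul_le_sum _ _ _ hp
  have c4 := card_erase_add_one hto
  rw [Nat.nsmul_eq_mul] at c3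
  unfold dg at ht c1
  unfold P24.VB
  omega

/-- nodes of size five with a private block -/
def tQ (H : Finset (Finset V)) : Finset (Finset V) := H.filter fun e => e.card = 5 ∧ 1 ≤ np H e

def tq (H : Finset (Finset V)) : ℕ := (H.filter fun e => e.card = 5 ∧ np H e = 1).card

def tu (H : Finset (Finset V)) : ℕ := (H.filter fun e => e.card = 5 ∧ 2 ≤ np H e).card

/-- blocks of weighted degree `k` -/
def tB (H : Finset (Finset V)) (k : ℕ) : Finset V := (cov H).filter fun v => wdeg H v = k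

variable {H : Finset (Finset V)}

theorem tl_bonus (β : ℕ) : bonus β H = 17 * tq H + β * tu H := by
  simp only [bonus, tq, tu, card_filter, mul_sum, ← sum_add_distrib]
  refine sum_congr rfl fun e _ => ?_
  unfold bon
  split_ifs <;> omega

theorem tl_Q : (tQ H).card = tq H + tu H := by
  simp only [tQ, tq, tu, card_filter, ← sum_add_distrib]
  refine sum_congr rfl fun e _ => ?_
  split_ifs <;> omega

theorem tl_one {x : Finset V} (hx : x ∈ H) (x5 : x.card = 5) {v : V} (hv : v ∈ x)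
    (hd : dg H v ≤ 1) : v ∈ tB H 1 := by
  refine mem_filter.2 ⟨mem_cov.2 ⟨x, hx, hv⟩, ?_⟩
  have : star H v = {x} := eq_singleton_iff_unique_mem.2 ⟨mem_star.2 ⟨hx, hv⟩, fun y hy =>
    faml_two (mem_star.1 hy).1 hx (mem_star.1 hy).2 hv hd⟩
  unfold wdeg
  rw [this, sum_singleton, wt5 x5]

theorem tl_P : tq H + 2 * tu H ≤ (tB H 1).card := by
  have a1 : ∑ e ∈ tQ H, np H e ≤ (tB H 1).card := sum_np_le (filter_subset _ _)
    fun e he v hv hd => tl_one (mem_filter.1 he).1 (mem_filter.1 he).2.1 hv hd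
  refine le_trans ?_ a1
  simp only [tQ, tq, tu, card_filter, sum_filter, mul_sum, ← sum_add_distrib]
  refine sum_le_sum fun e _ => ?_
  split_ifs <;> omega

theorem tl_J3 : ∑ v ∈ cov H, dg (H.filter fun e => e.card = 3) v = 3 * ek H 3 := by
  rw [← tl_dc, ek, mul_comm, ← Nat.nsmul_eq_mul, ← sum_const]
  refine sum_congr rfl fun e he => ?_
  rw [inter_eq_left.2 fun v hv => mem_cov.2 ⟨e, (mem_filter.1 he).1, hv⟩, (mem_filter.1 he).2]

theorem tl_deg (hc : Cls H) (h3 : ∀ v, wdeg H v ≤ 3) :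
    3 * (cov H).card = 5 * ek H 5 + 6 * ek H 3 + 2 * (tB H 1).card + (tB H 2).card := by
  have a1 : ∑ v ∈ cov H, dg H v = 5 * ek H 5 + 3 * ek H 3 := by
    rw [← tl_dc, ← sum_size hc.sz]
    exact sum_congr rfl fun e he => by
      rw [inter_eq_left.2 fun v hv => mem_cov.2 ⟨e, he, hv⟩]
  have a2 : ∑ v ∈ cov H, wdeg H v = 5 * ek H 5 + 6 * ek H 3 := by
    simp only [wdeg_eq, sum_add_distrib]
    rw [a1, tl_J3]
    omega
  rw [← a2, mul_comm, ← Nat.nsmul_eq_mul, ← sum_const]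
  simp only [tB, card_filter, mul_sum, ← sum_add_distrib]
  refine sum_congr rfl fun v hv => ?_
  have b1 := dg_pos.2 hv
  have b2 := dg_le_wdeg H v
  have b3 := h3 v
  split_ifs <;> omega

theorem tl_gp (hf : Flat H) {K : Finset V} (hK : K ∈ gps H) :
    ∃ c w, Pr H c w ∧ Pend H c w ∧ K = c ∩ w := by
  rcases mem_gps.1 hK with ⟨c, w, a, b⟩ | ⟨a, b, c⟩
  · exact ⟨c, w, a.1, hf.tr c w a, b⟩
  · exact absurd c (hf.lk K a b)

theorem tl_C (hf : Flat H) : (cov (gps H)).card = 3 * piG H := by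
  unfold cov
  rw [card_biUnion fun K hK L hL ne => disjoint_left.2 fun k k1 k2 => by
    obtain ⟨c, w, -, p, rfl⟩ := tl_gp hf hK
    obtain ⟨c2, w2, t, -, rfl⟩ := tl_gp hf hL
    exact ne (pend_eq p t k1 k2)]
  rw [piG, mul_comm, ← Nat.nsmul_eq_mul, ← sum_const]
  exact sum_congr rfl fun K hK => (mem_gps.1 hK).card

theorem tl_Cm (hf : Flat H) {v : V} (hv : v ∈ cov (gps H)) :
    v ∈ tB H 2 ∧ dg H v = 2 ∧ ∀ x ∈ H, v ∈ x → x.card = 5 ∧ np H x = 0 := by
  obtain ⟨K, hK, k⟩ := mem_cov.1 hv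
  obtain ⟨c, w, t, p, rfl⟩ := tl_gp hf hK
  have e := p v k
  refine ⟨mem_filter.2 ⟨mem_cov.2 ⟨c, t.mc, (mem_inter.1 k).1⟩, ?_⟩, ?_, fun x hx hvx => ?_⟩
  · unfold wdeg
    rw [e, sum_pair t.ne, wt5 t.c5, wt5 t.w5]
  · unfold dg
    rw [e, card_pair t.ne]
  · have : x ∈ ({c, w} : Finset (Finset V)) := e ▸ mem_star.2 ⟨hx, hvx⟩
    rcases mem_insert.1 this with rfl | a
    · exact ⟨t.c5, t.nc⟩
    · rw [mem_singleton.1 a]
      exact ⟨t.w5, t.nw⟩

theorem tl_mem (hf : Flat H) : 6 * piG H + 5 * (tq H + tu H) ≤ 5 * ek H 5 := by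
  have a1 := tl_dc H (cov (gps H))
  have a2 : ∑ v ∈ cov (gps H), dg H v = (cov (gps H)).card * 2 := by
    rw [← Nat.nsmul_eq_mul, ← sum_const]
    exact sum_congr rfl fun v hv => (tl_Cm hf hv).2.1
  have a3 : ∑ x ∈ H, (x ∩ cov (gps H)).card + 5 * (tQ H).card ≤ 5 * ek H 5 := by
    simp only [tQ, ek, card_filter _ H, mul_sum, ← sum_add_distrib]
    refine sum_le_sum fun x hx => ?_
    have b1 : (x ∩ cov (gps H)).card ≤ x.card := card_le_card inter_subset_left
    by_cases b2 : (x ∩ cov (gps H)).card = 0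
    · split_ifs <;> omega
    · obtain ⟨v, hv⟩ := card_pos.1 (Nat.pos_of_ne_zero b2)
      have b3 := (tl_Cm hf (mem_inter.1 hv).2).2.2 x hx (mem_inter.1 hv).1
      split_ifs <;> omega
  have a4 := tl_C hf
  have a5 := tl_Q (H := H)
  omega

theorem tl_Q5 : ∑ v ∈ cov H, dg (tQ H) v = 5 * (tq H + tu H) := by
  rw [← tl_dc, ← tl_Q, mul_comm, ← Nat.nsmul_eq_mul, ← sum_const]
  refine sum_congr rfl fun e he => ?_
  rw [inter_eq_left.2 fun v hv => mem_cov.2 ⟨e, (mem_filter.1 he).1, hv⟩, (mem_filter.1 he).2.1]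

theorem tl_slot (hf : Flat H) (h3 : ∀ v, wdeg H v ≤ 3)
    (hn : ∀ x ∈ tQ H, ∀ v ∈ x, dg H v ≤ 2) :
    5 * (tq H + tu H) + 6 * piG H ≤ (tB H 1).card + 2 * (tB H 2).card + 3 * ek H 3 := by
  have a1 : (cov (gps H)).card = ∑ v ∈ cov H, if v ∈ cov (gps H) then 1 else 0 := by
    rw [← card_filter, filter_mem_eq_inter,
      inter_eq_right.2 fun v hv => (mem_filter.1 (tl_Cm hf hv).1).1]
  have a2 := tl_C hf
  rw [← tl_Q5, ← tl_J3, show 6 * piG H = 2 * (cov (gps H)).card by omega, a1]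
  simp only [tB, card_filter, mul_sum, ← sum_add_distrib]
  refine sum_le_sum fun v hv => ?_
  have b1 := wdeg_eq H v
  have b2 := h3 v
  have b3 : dg (tQ H) v + dg (H.filter fun e => e.card = 3) v ≤ dg H v :=
    dg_add (filter_subset _ _) (filter_subset _ _) (disjoint_left.2 fun x x1 x2 => by
      have := (mem_filter.1 x1).2.1
      have := (mem_filter.1 x2).2
      omega) v
  by_cases b4 : dg (tQ H) v = 0
  · by_cases b5 : v ∈ cov (gps H)
    · have := (mem_filter.1 (tl_Cm hf b5).1).2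
      split_ifs <;> omega
    · split_ifs <;> omega
  · obtain ⟨x, x1, x2⟩ := mem_cov.1 (dg_pos.1 (Nat.pos_of_ne_zero b4))
    have b5 := hn x x1 v x2
    have b6 : v ∉ cov (gps H) := fun c => by
      have := ((tl_Cm hf c).2.2 x (mem_filter.1 x1).1 x2).2
      have := (mem_filter.1 x1).2.2
      omega
    split_ifs <;> omega

theorem tl_slot2 (hn : ∀ v, dg (tQ H) v ≤ 2) :
    5 * (tq H + tu H) + (tB H 1).card ≤ 2 * (cov H).card := by
  rw [← tl_Q5, mul_comm 2, ← Nat.nsmul_eq_mul, ← sum_const]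
  simp only [tB, card_filter, ← sum_add_distrib]
  refine sum_le_sum fun v _ => ?_
  have b1 := hn v
  have b2 := dg_le_wdeg H v
  have b3 : dg (tQ H) v ≤ dg H v := dg_mono (filter_subset _ _) v
  split_ifs <;> omega

theorem tl_small (hc : Cls H) (h3 : ∀ v, wdeg H v ≤ 3) (h : ek H 5 ≤ 2) :
    (cov H).card ≤ (tB H 1).card + (tB H 2).card + 3 * ek H 3 := by
  rw [← tl_J3, card_eq_sum_ones (cov H)]
  simp only [tB, card_filter, ← sum_add_distrib]
  refine sum_le_sum fun v hv => ?_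
  have b1 := wdeg_eq H v
  have b2 := h3 v
  have b3 := dg_pos.2 hv
  have b4 : dg H v ≤ ek H 5 + dg (H.filter fun e => e.card = 3) v := by
    refine le_trans (card_le_card fun x hx => ?_) (card_union_le _ _)
    obtain ⟨x1, x2⟩ := mem_star.1 hx
    rcases hc.sz x x1 with c | c
    · exact mem_union_right _ (mem_star.2 ⟨mem_filter.2 ⟨x1, c⟩, x2⟩)
    · exact mem_union_left _ (mem_filter.2 ⟨x1, c⟩)
  split_ifs <;> omega

theorem tl_tt {f : Finset V → Finset V} (u : Un5 H f) :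
    ek H 3 + tu H ≤ tt (H.image f) (dg (H.image f)) := by
  have a1 : tt (H.image f) (dg (H.image f)) =
      ∑ e ∈ H, if 2 ≤ np (H.image f) (f e) then 1 else 0 := by
    unfold tt
    rw [card_filter, sum_image fun a ha b hb => u.unf.inj ha hb]
    rfl
  rw [a1]
  simp only [ek, tu, card_filter, ← sum_add_distrib]
  refine sum_le_sum fun e he => ?_
  have := u.np_im he
  split_ifs <;> omega

theorem tl_star {f : Finset V → Finset V} (u : Un5 H f) {x : Finset V} (hx : x ∈ tQ H) :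
    x ∈ H.image f ∧ 1 ≤ np (H.image f) x := by
  obtain ⟨x1, x2, x3⟩ := mem_filter.1 hx
  have a1 := u.np_im x1
  rw [u.fix x1 x2] at a1
  exact ⟨mem_image.2 ⟨x, x1, u.fix x1 x2⟩, by omega⟩

theorem tlevel_of [Infinite V] {β : ℕ} (hβ : β ≤ 53) (hc : Cls H) (hm : MC H) (hf : Flat H)
    (h3 : ∀ v, wdeg H v ≤ 3) (y9 : ek H 5 = 7 → ek H 3 = 2 → (cov H).card = 16 → tau H ≤ 4) :
    GOk β H := by
  obtain ⟨f, u⟩ := exists_un5 hc
  have xc := u.cc hm
  have d3 : ∀ v, dg H v ≤ 3 := fun v => (dg_le_wdeg H v).trans (h3 v)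
  have x3 := u.dg_le (by omega) d3
  have c1 := u.card
  have c2 := u.cov_card
  have c3 := u.tau_eq
  have c4 := u.hi_le hf.tr
  have c5 := tl_tt u
  have e1 := tl_deg hc h3
  have e2 := tl_P (H := H)
  have e3 := tl_C hf
  have e4 : (cov (gps H)).card ≤ (tB H 2).card := card_le_card fun v hv => (tl_Cm hf hv).1
  obtain ⟨E, hE⟩ : ∃ E, (tB H 2).card = 3 * piG H + E := Nat.exists_eq_add_of_le (e3 ▸ e4)
  have e5 : 3 * (cov H).card = 5 * ek H 5 + 6 * ek H 3 + 2 * (tB H 1).card + 3 * piG H + E := by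
    omega
  have fin : 660 * tau H + 17 * tq H + 53 * tu H ≤
      138 * ek H 5 + 276 * ek H 3 + 108 * (cov H).card + 13 * piG H + 46 → GOk β H := fun k => by
    left
    have b1 : β * tu H ≤ 53 * tu H := Nat.mul_le_mul_right _ hβ
    have b2 := tl_bonus (H := H) β
    unfold ValG V0
    generalize β * tu H = z at b1 b2
    omega
  have vb : ∀ c, P24.VB (H.image f) c → 27 * tau H + (ek H 3 + tu H) ≤
      8 * (ek H 5 + ek H 3) + 3 * ((cov H).card + 2 * ek H 3) + piG H + c := fun c k => by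
    unfold P24.VB at k
    rw [c1, c2, c3] at k
    omega
  by_cases hv : 2 * tau H ≤ ek H 5 + ek H 3
  · rcases t2p xc (fun v => (x3 v).trans (by omega)) (by rw [c1, c3]; exact hv) with k | k
    · exact fin (tl_num0 e5 e2 hv (vb 2 k))
    · have b1 : ∀ x ∈ H, x.card = 5 := fun x hx => by
        have b2 := u.np_im hx
        have b3 : np (H.image f) (f x) = 0 := np_zero fun v hv => by
          rw [k.d3 v (mem_cov.2 ⟨f x, mem_image_of_mem f hx, hv⟩)]
          omega
        have := hc.sz x hx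
        omega
      have b2 : H.image f = H := by
        have b3 : H.image f = H.image id := image_congr fun x hx => u.fix hx (b1 x hx)
        rw [b3, image_id]
      exact Or.inr (Or.inr ⟨b1, b2 ▸ k⟩)
  have g1 := hm.gallai
  rw [card_eq_ek hc.sz] at g1
  have g2 := gplus xc x3
  unfold GB at g2
  rw [c1, c2, c3] at g2
  have v4 : 27 * tau H + (ek H 3 + tu H) ≤ 8 * (ek H 5 + ek H 3) +
      3 * ((cov H).card + 2 * ek H 3) + piG H + 4 ∨
      5 * (tq H + tu H) ≤ (tB H 1).card + 2 * E + 3 * ek H 3 := by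
    by_cases k : ∀ x ∈ tQ H, ∀ v ∈ x, dg H v ≤ 2
    · have := tl_slot hf h3 k
      right
      clear vb fin y9
      omega
    · simp only [not_forall] at k
      obtain ⟨x, hx, v, hv, k⟩ := k
      obtain ⟨x1, x2⟩ := tl_star u hx
      obtain ⟨p, hp⟩ := card_pos.1 x2
      refine Or.inl (vb 4 (vb4 xc x3 u.c3 ⟨x, x1, ⟨p, mem_filter.1 hp⟩, v, hv, ?_⟩))
      rw [u.unf.dg_old (mem_cov.2 ⟨x, (mem_filter.1 hx).1, hv⟩)]
      have := d3 v
      clear vb fin y9
      omega
  have v2 : 27 * tau H + (ek H 3 + tu H) ≤ 8 * (ek H 5 + ek H 3) +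
      3 * ((cov H).card + 2 * ek H 3) + piG H + 2 ∨
      5 * (tq H + tu H) + (tB H 1).card ≤ 2 * (cov H).card := by
    by_cases k : ∀ v, dg (tQ H) v ≤ 2
    · exact Or.inr (tl_slot2 k)
    · simp only [not_forall] at k
      obtain ⟨v, k⟩ := k
      have b1 : star (tQ H) v ⊆ star (H.image f) v := fun x hx =>
        mem_star.2 ⟨(tl_star u (mem_star.1 hx).1).1, (mem_star.1 hx).2⟩
      have b2 := x3 v
      have b3 : star (tQ H) v = star (H.image f) v := eq_of_subset_of_card_le b1 (by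
        clear vb fin y9
        unfold dg at k b2
        omega)
      refine Or.inl (vb 2 (tl_vb2 xc x3 (t := v) ?_ fun x hx =>
        (tl_star u (mem_star.1 (b3 ▸ hx)).1).2))
      have b4 := card_le_card b1
      clear vb fin y9
      unfold dg at k b2 ⊢
      omega
  have h8 : 3 ≤ ek H 5 ∨ (cov H).card ≤ (tB H 1).card + 3 * piG H + E + 3 * ek H 3 := by
    by_cases k : ek H 5 ≤ 2
    · have := tl_small hc h3 k
      right
      clear vb fin y9 v4 v2
      omega
    · left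
      clear vb fin y9 v4 v2
      omega
  have hv' : 2 * tau H = ek H 5 + ek H 3 + 1 := by
    clear vb fin y9 v4 v2 h8
    omega
  rcases tl_num1 e5 e2 (tl_mem hf) hv' (by clear vb fin y9 v4 v2 h8; omega) (vb 5 (t1 xc x3))
    v4 v2 h8 with k | k | k | k
  · exact fin k
  · obtain ⟨K, hK⟩ := card_eq_one.1 (show H.card = 1 by rw [card_eq_ek hc.sz, k.1, k.2])
    refine Or.inr (Or.inl ⟨K, ?_, hK⟩)
    obtain ⟨L, hL⟩ := card_pos.1 (show 0 < ek H 3 by rw [k.2]; exact one_pos)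
    obtain ⟨l1, l2⟩ := mem_filter.1 hL
    rw [hK] at l1
    exact mem_singleton.1 l1 ▸ l2
  · have := w5 hc hm hf h3 k.1 k.2.1 k.2.2
    clear vb fin y9 v4 v2 h8
    omega
  · have := y9 k.1 k.2.1 k.2.2
    clear vb fin y9 v4 v2 h8
    omega

end Pool.Agent.Work.MP_d266e7_co.Mix
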