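import Pool.Agent.Work.MP_d266e7_co.Win.Sound
import Pool.Agent.Work.MP_d266e7_co.Win.Y9T

/-!
Two nodes of size three and seven nodes of size five on sixteen blocks of weighted degree at most
three are met by four blocks: name the nodes and use the checked case tree.
-/

namespace Pool.Agent.Work.MP_d266e7_co.Mix

open Finset C5 C5.P24 Win
open C5.P24.X15 (allLt allLt_spec)

variable {V : Type} [DecidableEq V] {H : Finset (Finset V)}

theorem y9_codes : allLt 512 (fun z => Nat.beq z 0 ||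
    Nat.blt 3 (ws 9 1210107565283851686119426 z) || y9A.testBit z) = true := by
  decide +kernel

theorem y9_names (hc : Cls H) (h5 : ek H 5 = 7) (h3 : ek H 3 = 2) :
    ∃ q, Nm H 9 6050537826419258430589955 q := by
  obtain ⟨u, u1, u2, u3⟩ := exists_enum h3
  obtain ⟨x, x1, x2, x3⟩ := exists_enum h5
  obtain ⟨q, hq1, hq2⟩ : ∃ q : ℕ → Finset V, (∀ i (h : i < 2), q i = u ⟨i, h⟩) ∧
      ∀ i (h : i < 7), q (i + 2) = x ⟨i, h⟩ :=
    ⟨fun i => if h : i < 2 then u ⟨i, h⟩ else if h : i - 2 < 7 then x ⟨i - 2, h⟩ else ∅,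
      fun i h => dif_pos h, fun i h => (dif_neg (by omega)).trans (dif_pos h)⟩
  have cs : ∀ i, i < 9 → (∃ h : i < 2, q i = u ⟨i, h⟩) ∨ ∃ j, ∃ h : j < 7, i = j + 2 ∧
      q i = x ⟨j, h⟩ := fun i hi => by
    by_cases k : i < 2
    · exact Or.inl ⟨k, hq1 i k⟩
    · obtain ⟨j, rfl⟩ : ∃ j, i = j + 2 := ⟨i - 2, by omega⟩
      exact Or.inr ⟨j, by omega, rfl, hq2 j (by omega)⟩
  have uc := fun i => (mem_filter.1 (u2 i)).2
  have xc := fun i => (mem_filter.1 (x2 i)).2
  refine ⟨q, fun i hi => ?_, fun i hi j hj e => ?_, fun e he => ?_, fun i hi => ?_⟩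
  · rcases cs i hi with ⟨h, e⟩ | ⟨j, h, -, e⟩
    exacts [e ▸ (mem_filter.1 (u2 _)).1, e ▸ (mem_filter.1 (x2 _)).1]
  · rcases cs i hi with ⟨h, a⟩ | ⟨k, h, a', a⟩ <;> rcases cs j hj with ⟨h', b⟩ | ⟨l, h', b', b⟩ <;>
      rw [a, b] at e
    · exact congrArg Fin.val (u1 e)
    · exact absurd ((uc _).symm.trans ((congrArg card e).trans (xc _))) (by omega)
    · exact absurd ((xc _).symm.trans ((congrArg card e).trans (uc _))) (by omega)
    · have : k = l := congrArg Fin.val (x1 e)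
      omega
  · rcases hc.sz e he with k | k
    · obtain ⟨i, rfl⟩ := u3 e (mem_filter.2 ⟨he, k⟩)
      exact ⟨i, by omega, hq1 i i.2⟩
    · obtain ⟨i, rfl⟩ := x3 e (mem_filter.2 ⟨he, k⟩)
      exact ⟨i + 2, by omega, hq2 i i.2⟩
  · rcases cs i hi with ⟨h, e⟩ | ⟨j, h, rfl, e⟩
    · rw [e, uc]
      exact (by decide +kernel : ∀ i, i < 2 → 3 = dig 6050537826419258430589955 i) i h
    · rw [e, xc]
      exact (by decide +kernel : ∀ j, j < 7 → 5 = dig 6050537826419258430589955 (j + 2)) j h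

theorem y9 (hc : Cls H) (hm : MC H) (hf : Flat H) (hd : ∀ v, wdeg H v ≤ 3) (h5 : ek H 5 = 7)
    (h3 : ek H 3 = 2) (hn : (cov H).card = 16) : tau H ≤ 4 := by
  by_contra ht
  obtain ⟨q, n⟩ := y9_names hc h5 h3
  refine win (T := 3) ⟨hc, hm, hf.tr, hn, by omega⟩ y9_hs y9_chk n fun v hv => ?_
  have k := allLt_spec y9_codes (cd 9 q v) (mk_lt v)
  rw [Bool.or_eq_true, Bool.or_eq_true, Nat.beq_eq, Nat.blt_eq] at k
  rcases k with (k | k) | k
  · obtain ⟨e, he, hv⟩ := mem_cov.1 hv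
    obtain ⟨i, hi, rfl⟩ := n.all e he
    have := (mk_iff hi).2 hv
    rw [k, Nat.zero_testBit] at this
    cases this
  · refine absurd (k.trans_le ?_) (Nat.not_lt.2 (hd v))
    rw [ws_eq, ← sum_filter, wdeg]
    refine le_of_eq (sum_bij (fun i _ => q i) (fun i hi => ?_) (fun i hi j hj e => ?_)
      (fun e he => ?_) fun i hi => ?_)
    · obtain ⟨a, b⟩ := mem_filter.1 hi
      exact mem_star.2 ⟨n.mem i (mem_range.1 a), (mk_iff (mem_range.1 a)).1 b⟩
    · exact n.inj i (mem_range.1 (mem_filter.1 hi).1) j (mem_range.1 (mem_filter.1 hj).1) e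
    · obtain ⟨i, hi, rfl⟩ := n.all e (mem_star.1 he).1
      exact ⟨i, mem_filter.2 ⟨mem_range.2 hi, (mk_iff hi).2 (mem_star.1 he).2⟩, rfl⟩
    · have a := mem_range.1 (mem_filter.1 hi).1
      rw [wt, n.sz i a]
      exact (by decide +kernel : ∀ i, i < 9 → dig 1210107565283851686119426 i =
        if dig 6050537826419258430589955 i = 3 then 2 else 1) i a
  · exact k

end Pool.Agent.Work.MP_d266e7_co.Mix
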