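import Pool.Agent.Work.MP_d266e7_co.Full.ExportM
import Pool.Agent.Work.MP_d266e7_co.Full.CMain
import Pool.Agent.Work.MP_d266e7_co.Full.QMain
import Pool.Agent.Work.MP_d266e7_co.Full.TLev
import Pool.Agent.Work.MP_d266e7_co.Full.Y9

/-!
Assembly: there is no minimal counterexample to `44 tau ≤ 9 n + 7 e5 + 14 e4 + 17 e3`.
-/

namespace Pool.Agent.Work.MP_d266e7_co.Mix

open Finset C5 C5.P24

theorem cstar_final : CStar ℕ 50 :=
  cstar_of_gstar (by omega) (by omega) (gstar_of_qt (by omega) (by omega)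
    (qt_of_tlevel fun _ a b c d => tlevel_of (by omega) a b c d (y9 a b c d)))

end Pool.Agent.Work.MP_d266e7_co.Mix
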