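import Pool.Agent.Work.MP_d266e7_co.P24Q.QDefs

/-!
Definitions for the statement `B*` about families with members of three or five vertices.
Words: a member is a node, a vertex is a block. `β` is the bonus of a node with five blocks of
which at least two are private.
-/

namespace Pool.Agent.Work.MP_d266e7_co.Mix

open Finset C5 C5.P24

variable {V : Type} [DecidableEq V]

/-- weight of a node -/
def wt (e : Finset V) : ℕ := if e.card = 3 then 2 else 1

/-- weighted degree of a block -/
def wdeg (G : Finset (Finset V)) (v : V) : ℕ := ∑ e ∈ star G v, wt e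

/-- the class: nodes of size three or five, weighted degrees at most four, no two nodes with four
common blocks -/
structure Cls (G : Finset (Finset V)) : Prop where
  sz : ∀ e ∈ G, e.card = 3 ∨ e.card = 5
  d4 : ∀ v, wdeg G v ≤ 4
  c3 : ∀ e ∈ G, ∀ f ∈ G, e ≠ f → (e ∩ f).card ≤ 3

/-- number of nodes of size `k` -/
def ek (G : Finset (Finset V)) (k : ℕ) : ℕ := (G.filter fun e => e.card = k).card

/-- number of private blocks of the node `e` -/
def np (G : Finset (Finset V)) (e : Finset V) : ℕ := (e.filter fun v => dg G v ≤ 1).card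

/-- bonus of one node -/
def bon (β : ℕ) (G : Finset (Finset V)) (e : Finset V) : ℕ :=
  if e.card = 5 then (if np G e = 0 then 0 else if np G e = 1 then 17 else β) else 0

def bonus (β : ℕ) (G : Finset (Finset V)) : ℕ := ∑ e ∈ G, bon β G e

/-- two nodes of size five with three common blocks and without private blocks -/
structure Pr (G : Finset (Finset V)) (c w : Finset V) : Prop where
  mc : c ∈ G
  mw : w ∈ G
  c5 : c.card = 5
  w5 : w.card = 5
  i3 : (c ∩ w).card = 3
  nc : np G c = 0
  nw : np G w = 0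

/-- no other node meets the core -/
def Pend (G : Finset (Finset V)) (c w : Finset V) : Prop := ∀ s ∈ c ∩ w, star G s = {c, w}

/-- `K` is a core set with core nodes `N` -/
def Core (G : Finset (Finset V)) (K : Finset V) (N : Finset (Finset V)) : Prop :=
  (K ∈ G ∧ K.card = 3 ∧ N = {K}) ∨ ∃ c w, Pr G c w ∧ K = c ∩ w ∧ N = {c, w}

/-- the legs lie in a node of size five -/
def W5 (G : Finset (Finset V)) (c w : Finset V) : Prop := ∃ y ∈ G, y.card = 5 ∧ sd c w ⊆ y

/-- the legs contain a core set -/
def CW (G : Finset (Finset V)) (c w : Finset V) : Prop := ∃ K N, Core G K N ∧ K ⊆ sd c w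

/-- an `E`-pair -/
def EP (G : Finset (Finset V)) (c w : Finset V) : Prop := Pr G c w ∧ (W5 G c w ∨ CW G c w)

/-- `K` is a node of size three or the core of an `E`-pair, with core nodes `N` -/
def ECore (G : Finset (Finset V)) (K : Finset V) (N : Finset (Finset V)) : Prop :=
  (K ∈ G ∧ K.card = 3 ∧ N = {K}) ∨ ∃ c w, EP G c w ∧ K = c ∩ w ∧ N = {c, w}

/-- priced set of the first kind: the core of a pendant pair with a witness of size five -/
def PSet (G : Finset (Finset V)) (Z : Finset V) : Prop :=
  ∃ c w, Pr G c w ∧ Pend G c w ∧ W5 G c w ∧ Z = c ∩ w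

/-- the data of a priced set `{a, a'}` of the second kind: core set `K = {a, a', b}` with core
nodes `N`, and the cap `(p, q)` -/
structure SigD (G : Finset (Finset V)) (a a' b : V) (N : Finset (Finset V)) (p q : Finset V) :
    Prop where
  aa : a ≠ a'
  ab : a ≠ b
  ab' : a' ≠ b
  core : ECore G {a, a', b} N
  qN : q ∉ N
  sa : star G a = insert q N
  sa' : star G a' = insert q N
  pr : Pr G p q
  npd : ¬ Pend G p q
  pq : p ∩ q = q \ {a, a'}
  bp : b ∈ p

/-- priced set of the second kind -/
def Sig (G : Finset (Finset V)) (Z : Finset V) : Prop :=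
  ∃ a a' b N p q, SigD G a a' b N p q ∧ Z = {a, a'}

def Priced (G : Finset (Finset V)) (Z : Finset V) : Prop := PSet G Z ∨ Sig G Z

open Classical in
/-- the priced sets -/
noncomputable def prs (G : Finset (Finset V)) : Finset (Finset V) :=
  (cov G).powerset.filter (Priced G)

/-- number of priced sets -/
noncomputable def pi (G : Finset (Finset V)) : ℕ := (prs G).card

noncomputable def V0 (G : Finset (Finset V)) : ℤ :=
  138 * ek G 5 + 276 * ek G 3 + 108 * (cov G).card - 660 * tau G

noncomputable def Val (β : ℕ) (G : Finset (Finset V)) : ℤ := V0 G + 13 * pi G - bonus β G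

/-- one node of size three -/
def IsU (G : Finset (Finset V)) : Prop := ∃ K : Finset V, K.card = 3 ∧ G = {K}

/-- the conclusion of `B*` -/
def BOk (β : ℕ) (G : Finset (Finset V)) : Prop := -46 ≤ Val β G ∨ IsU G ∨ (U5 G ∧ E10 G)

/-- the statement `B*` -/
def BStar (V : Type) [DecidableEq V] (β : ℕ) : Prop :=
  ∀ G : Finset (Finset V), Cls G → Crit G → Conn G → G.Nonempty → BOk β G

theorem Cls.ne {G : Finset (Finset V)} (h : Cls G) : NE G := fun e he =>
  card_pos.1 (by have := h.sz e he; omega)

theorem wdeg_mono {G G' : Finset (Finset V)} (h : G' ⊆ G) (v : V) : wdeg G' v ≤ wdeg G v :=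
  sum_le_sum_of_subset (filter_subset_filter _ h)

theorem Cls.mono {G G' : Finset (Finset V)} (h : Cls G) (s : G' ⊆ G) : Cls G' :=
  ⟨fun e he => h.sz e (s he), fun v => (wdeg_mono s v).trans (h.d4 v),
    fun e he f hf => h.c3 e (s he) f (s hf)⟩

theorem Pr.symm {G : Finset (Finset V)} {c w : Finset V} (h : Pr G c w) : Pr G w c :=
  ⟨h.mw, h.mc, h.w5, h.c5, by rw [inter_comm]; exact h.i3, h.nw, h.nc⟩

theorem Pr.ne {G : Finset (Finset V)} {c w : Finset V} (h : Pr G c w) : c ≠ w := by
  rintro rfl
  have h1 := h.i3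
  rw [inter_self, h.c5] at h1
  omega

theorem ECore.core {G : Finset (Finset V)} {K : Finset V} {N : Finset (Finset V)}
    (h : ECore G K N) : Core G K N :=
  h.imp_right fun ⟨c, w, h1, h2⟩ => ⟨c, w, h1.1, h2⟩

theorem Priced.sub {G : Finset (Finset V)} {Z : Finset V} (h : Priced G Z) : Z ⊆ cov G := by
  rcases h with ⟨c, w, h, -, -, rfl⟩ | ⟨a, a', b, N, p, q, h, rfl⟩
  · exact fun v hv => mem_cov.2 ⟨c, h.mc, (mem_inter.1 hv).1⟩
  · have h1 : q ∈ star G a := h.sa ▸ mem_insert_self _ _
    have h2 : q ∈ star G a' := h.sa' ▸ mem_insert_self _ _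
    exact insert_subset (mem_cov.2 ⟨q, mem_star.1 h1⟩)
      (singleton_subset_iff.2 (mem_cov.2 ⟨q, mem_star.1 h2⟩))

theorem mem_prs {G : Finset (Finset V)} {Z : Finset V} : Z ∈ prs G ↔ Priced G Z := by
  classical
  unfold prs
  rw [mem_filter, mem_powerset]
  exact ⟨And.right, fun h => ⟨h.sub, h⟩⟩

end Pool.Agent.Work.MP_d266e7_co.Mix
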