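import Pool.Agent.Work.MP_d266e7_co.Full.GDefs

/-!
Bookkeeping for the outer induction: bonus, sums over pieces, the two exceptional families, and
the count of newly priced sets.
-/

namespace Pool.Agent.Work.MP_d266e7_co.Mix

open Finset C5 C5.P24

variable {V : Type} [DecidableEq V]

theorem cb_bon_anti {β : ℕ} (hβ : 17 ≤ β) {W H : Finset (Finset V)} (h : ∀ v, dg W v ≤ dg H v)
    (e : Finset V) : bon β H e ≤ bon β W e := by
  have := np_anti h e
  unfold bon
  split_ifs <;> omega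

theorem cb_bon_le {β : ℕ} (hβ : β ≤ 216) (H : Finset (Finset V)) (e : Finset V) :
    bon β H e ≤ 108 * np H e := by
  unfold bon
  split_ifs <;> omega

theorem cb_bon_zero {β : ℕ} {H : Finset (Finset V)} {e : Finset V} (h : np H e = 0) :
    bon β H e = 0 := by
  unfold bon
  split_ifs <;> rfl

theorem cb_bon_three {β : ℕ} {H : Finset (Finset V)} {e : Finset V} (h : e.card = 3) :
    bon β H e = 0 := by
  unfold bon
  rw [if_neg (by omega)]

theorem cb_np_pos {H : Finset (Finset V)} {e : Finset V} {v : V} (hv : v ∈ e) (h : dg H v ≤ 1) :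
    1 ≤ np H e := card_pos.2 ⟨v, mem_filter.2 ⟨hv, h⟩⟩

theorem cb_bon_ge {β : ℕ} (hβ : 17 ≤ β) {H : Finset (Finset V)} {e : Finset V} (h5 : e.card = 5)
    (h : 1 ≤ np H e) : 17 ≤ bon β H e := by
  unfold bon
  rw [if_pos h5]
  split_ifs <;> omega

/-- a block of a node without private blocks lies in a second node -/
theorem cb_other {H : Finset (Finset V)} {e : Finset V} (h : np H e = 0) {v : V} (hv : v ∈ e) :
    ∃ x ∈ H, x ≠ e ∧ v ∈ x := by
  have h1 : ¬ dg H v ≤ 1 := fun k => by have := cb_np_pos hv k; omega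
  obtain ⟨x, hx, hne⟩ := exists_mem_ne (not_le.1 h1) e
  exact ⟨x, (mem_star.1 hx).1, hne, (mem_star.1 hx).2⟩

theorem cb_np_out {G : Finset (Finset V)} {F : Finset (Finset (Finset V))} (h : MFam G F) :
    ∑ x ∈ G \ un F, np G x ≤ (cov G \ cov (un F)).card := by
  unfold np
  rw [← card_biUnion]
  · refine card_le_card fun v hv => ?_
    obtain ⟨x, hx, hv⟩ := mem_biUnion.1 hv
    have a := mem_sdiff.1 hx
    have b := mem_filter.1 hv
    refine mem_sdiff.2 ⟨mem_cov.2 ⟨x, a.1, b.1⟩, fun c => ?_⟩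
    obtain ⟨e, he, c⟩ := mem_cov.1 c
    exact a.2 (faml_two (h.un_sub he) a.1 c b.1 b.2 ▸ he)
  · intro x hx y hy hne
    refine disjoint_left.2 fun v a b => hne ?_
    exact faml_two (mem_sdiff.1 hx).1 (mem_sdiff.1 hy).1
      (mem_filter.1 a).1 (mem_filter.1 b).1 (mem_filter.1 a).2

theorem cb_ek_eq {G : Finset (Finset V)} {F : Finset (Finset (Finset V))} (h : MFam G F) (k : ℕ) :
    ek G k = ∑ W ∈ F, ek W k + ek (G \ un F) k := by
  simp only [ek]
  rw [← h.card_filter, ← card_union_of_disjoint (disjoint_filter_filter disjoint_sdiff),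
    ← filter_union, union_sdiff_of_subset h.un_sub]

theorem cb_ek_add {G : Finset (Finset V)} (h : ∀ e ∈ G, e.card = 3 ∨ e.card = 5) :
    ek G 3 + ek G 5 = G.card := by
  unfold ek
  rw [← card_union_of_disjoint (disjoint_filter.2 fun x _ a b => by omega), ← filter_or,
    filter_true_of_mem h]

theorem cb_V0_eq {G : Finset (Finset V)} {F : Finset (Finset (Finset V))} (h : MFam G F)
    (ht : tau (un F) = tau G) : V0 G = ∑ W ∈ F, V0 W + 138 * ek (G \ un F) 5 +
      276 * ek (G \ un F) 3 + 108 * (cov G \ cov (un F)).card := by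
  unfold V0
  rw [cb_ek_eq h 5, cb_ek_eq h 3, h.cov_eq, ← ht, h.tau_un]
  simp only [sum_sub_distrib, sum_add_distrib, ← mul_sum]
  push_cast
  ring

/-- the sum over the pieces; every dropped node pays `138` -/
theorem cb_sum {β : ℕ} (h1 : 17 ≤ β) (h2 : β ≤ 216) {G : Finset (Finset V)}
    {F : Finset (Finset (Finset V))} (hG : Cls G) (h : MFam G F) (ht : tau (un F) = tau G) :
    ∑ W ∈ F, (V0 W - bonus β W) + 138 * (G \ un F).card ≤ V0 G - bonus β G := by
  have e1 := cb_V0_eq h ht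
  have e2 := cb_ek_add (G := G \ un F) fun e he => hG.sz e (mem_sdiff.1 he).1
  have e3 : bonus β G ≤ ∑ W ∈ F, bonus β W + 108 * (cov G \ cov (un F)).card := by
    unfold bonus
    rw [h.sum_eq]
    refine add_le_add (sum_le_sum fun W hW => sum_le_sum fun x _ =>
      cb_bon_anti h1 (dg_mono (h.sub W hW)) x) ?_
    refine (sum_le_sum fun x _ => cb_bon_le h2 G x).trans ?_
    rw [← mul_sum]
    exact Nat.mul_le_mul_left _ (cb_np_out h)
  have e4 : (bonus β G : ℤ) ≤ ∑ W ∈ F, (bonus β W : ℤ) + 108 * (cov G \ cov (un F)).card := by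
    exact_mod_cast e3
  rw [sum_sub_distrib]
  omega

theorem cb_U {β : ℕ} {W : Finset (Finset V)} (h : IsU W) : V0 W - bonus β W = -60 := by
  obtain ⟨K, hK, rfl⟩ := h
  have e1 : ek ({K} : Finset (Finset V)) 5 = 0 := by simp [ek, filter_singleton, hK]
  have e2 : ek ({K} : Finset (Finset V)) 3 = 1 := by simp [ek, filter_singleton, hK]
  have e3 := tau_singleton (u := K) (card_pos.1 (by omega))
  unfold V0 bonus
  rw [e1, e2, e3, cov_singleton, hK, sum_singleton, cb_bon_three hK]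
  rfl

theorem cb_E {β : ℕ} {W : Finset (Finset V)} (h5 : U5 W) (h : E10 W) :
    V0 W - bonus β W = -72 := by
  have e1 : ek W 5 = 6 := by rw [ek, filter_true_of_mem h5, h.m6]
  have e2 : ek W 3 = 0 := by
    rw [ek, card_eq_zero, filter_eq_empty_iff]
    intro x hx
    rw [h5 x hx]
    omega
  have e3 : bonus β W = 0 := sum_eq_zero fun x hx => cb_bon_zero (by
    rw [np, card_eq_zero, filter_eq_empty_iff]
    intro v hv
    rw [h.d3 v (mem_cov.2 ⟨x, hx, hv⟩)]
    omega)
  unfold V0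
  rw [e1, e2, e3, h.n10, h.t3]
  rfl

/-- the priced sets of `H` inside the blocks `B` -/
noncomputable def cpin (H : Finset (Finset V)) (B : Finset V) : ℕ :=
  ((cps H).filter (· ⊆ B)).card

theorem cpin_le (H : Finset (Finset V)) (B : Finset V) : cpin H B ≤ piC H := card_filter_le _ _

theorem cpin_sum {H G : Finset (Finset V)} {F : Finset (Finset (Finset V))} (h : MFam G F) :
    ∑ W ∈ F, cpin H (cov W) ≤ cpin H (cov G) := by
  unfold cpin
  rw [← card_biUnion]
  · refine card_le_card fun K hK => ?_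
    obtain ⟨W, hW, hK⟩ := mem_biUnion.1 hK
    exact mem_filter.2 ⟨(mem_filter.1 hK).1, (mem_filter.1 hK).2.trans (cov_mono (h.sub W hW))⟩
  · intro W hW W' hW' hne
    refine disjoint_left.2 fun K a b => hne ?_
    obtain ⟨v, hv⟩ : K.Nonempty :=
      card_pos.1 (by rw [(mem_cps.1 (mem_filter.1 a).1).gp.card]; omega)
    exact h.eq_of_mem hW hW' ((mem_filter.1 a).2 hv) ((mem_filter.1 b).2 hv)

/-- two pendant cores with a common block are equal -/
theorem cb_pend_eq {W : Finset (Finset V)} {c w c' w' : Finset V} (h : Pend W c w)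
    (h' : Pend W c' w') {v : V} (a : v ∈ c ∩ w) (b : v ∈ c' ∩ w') : c ∩ w = c' ∩ w' := by
  have e : ({c, w} : Finset (Finset V)) = {c', w'} := (h v a).symm.trans (h' v b)
  have k : ∀ (p q : Finset V) (x : V), x ∈ p ∩ q ↔ ∀ f ∈ ({p, q} : Finset (Finset V)), x ∈ f :=
    fun p q x => by simp
  ext x
  rw [k, k, e]

/-- the cores of the pendant traces of `W` that are not priced in `H` -/
def Act (H W : Finset (Finset V)) (K : Finset V) : Prop :=
  ∃ c w, Trc W c w ∧ Pend W c w ∧ K = c ∩ w ∧ ¬ CP H K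

/-- count of the priced sets of `W`: old ones, new ones that meet `B`, and at most one more -/
theorem cb_count {H W : Finset (Finset V)} {B y : Finset V} {ε : ℕ}
    (htr : ∀ c w, Trc W c w → Trc H c w) (hlk : ∀ K, Lk W K → Lk H K)
    (hact : ∀ c w, Trc W c w → Pend W c w → ¬ CP H (c ∩ w) →
      (∃ v ∈ c ∩ w, v ∈ B) ∨ c = y ∨ w = y)
    (hε : ∀ w, Trc W y w → Pend W y w → ¬ CP H (y ∩ w) → 1 ≤ ε) :
    piC W ≤ cpin H (cov W) + (B ∩ cov W).card + ε := by
  classical
  have hs : cps W ⊆ (cps H).filter (· ⊆ cov W) ∪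
      ((cps W).filter (fun K => Act H W K ∧ ∃ v ∈ K, v ∈ B) ∪
        (cps W).filter (fun K => ∃ w, Trc W y w ∧ Pend W y w ∧ ¬ CP H (y ∩ w) ∧ K = y ∩ w)) := by
    intro K hK
    have hK' := mem_cps.1 hK
    by_cases k : CP H K
    · exact mem_union_left _ (mem_filter.2 ⟨mem_cps.2 k, hK'.gp.sub⟩)
    obtain ⟨c, w, a, rfl, b⟩ := hK'
    have p : Pend W c w := b.resolve_right fun d => k ⟨c, w, htr c w a, rfl, Or.inr (hlk _ d)⟩
    refine mem_union_right _ ?_
    rcases hact c w a p k with d | rfl | rfl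
    · exact mem_union_left _ (mem_filter.2 ⟨hK, ⟨c, w, a, p, rfl, k⟩, d⟩)
    · exact mem_union_right _ (mem_filter.2 ⟨hK, w, a, p, k, rfl⟩)
    · exact mem_union_right _ (mem_filter.2 ⟨hK, c, a.symm, p.symm, inter_comm c w ▸ k,
        inter_comm _ _⟩)
  have h1 : ((cps W).filter (fun K => Act H W K ∧ ∃ v ∈ K, v ∈ B)).card ≤ (B ∩ cov W).card := by
    refine card_le_card_of_forall_subsingleton (fun K v => v ∈ K) (fun K hK => ?_)
      fun v _ K a K' b => ?_
    · obtain ⟨a, -, v, b, c⟩ := mem_filter.1 hK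
      exact ⟨v, mem_inter.2 ⟨c, (mem_cps.1 a).gp.sub b⟩, b⟩
    · obtain ⟨-, ⟨c, w, -, p, rfl, -⟩, -⟩ := mem_filter.1 a.1
      obtain ⟨-, ⟨c', w', -, p', rfl, -⟩, -⟩ := mem_filter.1 b.1
      exact cb_pend_eq p p' a.2 b.2
  have h2 : ((cps W).filter
      (fun K => ∃ w, Trc W y w ∧ Pend W y w ∧ ¬ CP H (y ∩ w) ∧ K = y ∩ w)).card ≤ ε := by
    by_cases k : 1 ≤ ε
    · refine le_trans (card_le_one.2 fun K a K' b => ?_) k
      obtain ⟨-, w, t, p, -, rfl⟩ := mem_filter.1 a
      obtain ⟨-, w', t', p', -, rfl⟩ := mem_filter.1 b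
      have e1 := card_union_add_card_inter (y ∩ w) (y ∩ w')
      have e2 : (y ∩ w ∪ y ∩ w').card ≤ y.card :=
        card_le_card (union_subset inter_subset_left inter_subset_left)
      rw [t.1.i3, t'.1.i3] at e1
      rw [t.1.c5] at e2
      obtain ⟨v, hv⟩ : (y ∩ w ∩ (y ∩ w')).Nonempty := card_pos.1 (by omega)
      exact cb_pend_eq p p' (mem_inter.1 hv).1 (mem_inter.1 hv).2
    · refine le_trans (Nat.le_zero.2 ?_) (Nat.zero_le _)
      rw [card_eq_zero, filter_eq_empty_iff]
      rintro K - ⟨w, a, b, c, -⟩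
      exact k (hε w a b c)
  have h3 := (card_le_card hs).trans ((card_union_le _ _).trans
    (Nat.add_le_add_left (card_union_le _ _) _))
  unfold piC cpin
  omega

end Pool.Agent.Work.MP_d266e7_co.Mix
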