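import Pool.Agent.Work.MP_d266e7_co.Full.CRed

/-!
The reduction step closes if the reduced family is not critical and connected (`Red.notMC`), and
otherwise closes or produces a target (`Red.cyc`).
-/

namespace Pool.Agent.Work.MP_d266e7_co.Mix

open Finset C5 C5.P24

variable {V : Type} [DecidableEq V]

theorem cl_ek_ins {W : Finset (Finset V)} {a : Finset V} (ha : a ∉ W) (k : ℕ) :
    ek (insert a W) k = ek W k + if a.card = k then 1 else 0 := by
  unfold ek
  rw [filter_insert]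
  split_ifs with e
  · exact card_insert_of_notMem fun c => ha (mem_filter.1 c).1
  · rfl

/-- a pair put back on a piece -/
theorem cl_back {W : Finset (Finset V)} {c w : Finset V} (h : MEar W c w) (hc : c.card = 5)
    (hw : w.card = 5) (hi : (c ∩ w).card = 3) (d1 : 2 ≤ C5.dd W c) (d2 : 2 ≤ C5.dd W w) :
    V0 (insert c (insert w W)) + 60 ≤ V0 W := by
  have e1 := h.new_card
  unfold V0
  rw [cl_ek_ins h.abW, cl_ek_ins h.bW, cl_ek_ins h.abW, cl_ek_ins h.bW, h.cov_ins, h.tau_ins,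
    if_pos hc, if_pos hw, if_neg (by omega), if_neg (by omega)]
  push_cast
  omega

/-- the trace `y`, `w'` becomes pendant when `c`, `w` are removed -/
structure Tgt (H : Finset (Finset V)) (c w y w' : Finset V) : Prop where
  pr : Pr H c w
  leg : sd c w ⊆ y
  tr : Trc H y w'
  npd : ¬ Pend H y w'
  nlk : ¬ Lk H (y ∩ w')
  nc : w' ≠ c
  nw : w' ≠ w
  st : ∀ v ∈ y ∩ w', ∀ x ∈ H, v ∈ x → x = y ∨ x = w' ∨ ((x = c ∨ x = w) ∧ v ∈ sd c w)

namespace Red

variable {β b : ℕ} {H G : Finset (Finset V)} {s y c w : Finset V}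
  {F : Finset (Finset (Finset V))}

theorem notExc (h : Red β H G s y c w b) (ih : IHC β H) (hF : MFam G F)
    (h0 : G \ un F = ∅) {W : Finset (Finset V)} (hW : W ∈ F) (hs : s ∈ W) : -46 ≤ ValC β W := by
  rcases h.ihp ih hF hW with k | ⟨K, hK, rfl⟩ | k
  · exact k
  · obtain rfl := mem_singleton.1 hs
    rcases h.s3 with d | ⟨-, x, x1, x2, v, v1, v2⟩
    · omega
    have a : x ∈ un F := by_contra fun e => notMem_empty x (h0 ▸ mem_sdiff.2 ⟨x1, e⟩)
    exact absurd (mem_singleton.1 (same hF hW a v1 (mem_cov.2 ⟨s, hs, v2⟩))) x2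
  · exact absurd k.2 (h.noE W (hF.sub W hW) hs k.1)

theorem split (h : Red β H G s y c w b) (h1 : 17 ≤ β) (ih : IHC β H)
    (hF : MFam G F) (ht : tau (un F) = tau G) (h0 : G \ un F = ∅) {W0 W : Finset (Finset V)}
    (m0 : W0 ∈ F) (s0 : s ∈ W0) (mW : W ∈ F) (yW : y ∈ W) (hne : W0 ≠ W) : -46 ≤ ValC β H := by
  have hd := hF.disj m0 mW hne
  have sW : s ∉ W := disjoint_left.1 hd s0
  have y0 : y ∉ W0 := disjoint_right.1 hd yW
  have c0 : cov (G \ un F) = ∅ := by rw [h0]; rfl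
  have eF : F = {W0, W} := by
    refine Subset.antisymm (fun U hU => ?_) (insert_subset m0 (singleton_subset_iff.2 mW))
    by_contra k
    simp only [mem_insert, mem_singleton, not_or] at k
    have := h.few hF ht ⟨U, mem_filter.2 ⟨hU, fun e => disjoint_left.1 (hF.disj hU m0 k.1) e s0,
      fun e => disjoint_left.1 (hF.disj hU mW k.2) e yW⟩⟩
    rw [h0, card_empty] at this
    omega
  have hall : ∀ x ∈ G, x ∈ W0 ∨ x ∈ W := fun x hx => by
    have a : x ∈ un F := by_contra fun e => notMem_empty x (h0 ▸ mem_sdiff.2 ⟨hx, e⟩)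
    obtain ⟨U, a1, a2⟩ := mem_un.1 a
    rw [eF] at a1
    rcases mem_insert.1 a1 with rfl | a1
    exacts [Or.inl a2, Or.inr (mem_singleton.1 a1 ▸ a2)]
  have WH := h.subH (hF.sub W mW) sW
  have yc : y ⊆ cov W := fun v hv => mem_cov.2 ⟨y, yW, hv⟩
  have d1 : 2 ≤ C5.dd W c := h.pr.legs.1 ▸ card_le_card
    (subset_inter sdiff_subset (cr_sd1.trans (h.leg.trans yc)))
  have d2 : 2 ≤ C5.dd W w := h.pr.legs.2 ▸ card_le_card
    (subset_inter sdiff_subset (cr_sd2.trans (h.leg.trans yc)))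
  have hcore : (c ∩ w).Nonempty := card_pos.1 (by rw [h.pr.i3]; omega)
  have ear : MEar W c w := mear_of_cross (hF.mc W mW)
    (h.cross hF ht mW sW (by rw [c0, empty_inter, card_empty])) (by omega) (by omega) hcore
  obtain ⟨X, hX⟩ : ∃ X, X = insert c (insert w W) := ⟨_, rfl⟩
  have mX : ∀ x, x ∈ X ↔ x = c ∨ x = w ∨ x ∈ W := fun x => by rw [hX, mem_insert, mem_insert]
  have XH : X ⊆ H := hX ▸ insert_subset h.pr.mc (insert_subset h.pr.mw WH)
  have stX : ∀ v ∈ c ∩ w, ∀ x ∈ X, v ∈ x → x = c ∨ x = w := fun v hv x hx a => by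
    rcases (mX x).1 hx with k | k | k
    exacts [Or.inl k, Or.inr k,
      absurd (mem_cov.2 ⟨x, k, a⟩) (ear.out (mem_inter.1 hv).1 (mem_inter.1 hv).2)]
  have lt : X.card < H.card := by
    refine card_lt_card ⟨XH, fun k => ?_⟩
    have key : ∀ x ∈ W0, x ∈ H → False := fun x a d => by
      rcases (mX x).1 (k d) with rfl | rfl | e
      exacts [h.cn (hF.sub W0 m0 a), h.wn (hF.sub W0 m0 a), disjoint_left.1 hd a e]
    rcases h.s3 with d | ⟨-, x, x1, x2, v, v1, v2⟩
    · exact key s s0 d.1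
    · have a : x ∈ un F := by_contra fun e => notMem_empty x (h0 ▸ mem_sdiff.2 ⟨x1, e⟩)
      exact key x (same hF m0 a v1 (mem_cov.2 ⟨s, s0, v2⟩)) ((h.sub x x1).resolve_left x2)
  have cX : c ∈ X := (mX c).2 (Or.inl rfl)
  have vX : -46 ≤ ValC β X := by
    rcases ih X lt (h.cH.mono XH) (hX ▸ ear.mc_ins) with k | ⟨K, hK, k⟩ | k
    · exact k
    · have := h.pr.c5
      rw [k] at cX
      rw [mem_singleton.1 cX] at this
      omega
    · obtain ⟨v, hv⟩ := hcore
      have a := k.2.d3 v (mem_cov.2 ⟨c, cX, (mem_inter.1 hv).1⟩)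
      have : dg X v ≤ ({c, w} : Finset (Finset V)).card := card_le_card fun x hx => by
        simpa using stX v hv x (mem_star.1 hx).1 (mem_star.1 hx).2
      have := card_insert_le c ({w} : Finset (Finset V))
      rw [card_singleton] at this
      omega
  have v0 := h.notExc ih hF h0 m0 s0
  have p0 := h.count hF ht m0 (ε := 0) fun w' t _ _ => absurd t.1.mc y0
  rw [c0, empty_inter, card_empty] at p0
  have pX : piC X ≤ cpin H (cov W) + 1 := by
    refine (card_le_card (t := insert (c ∩ w) ((cps H).filter (· ⊆ cov W))) fun K hK => ?_).trans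
      (card_insert_le _ _)
    obtain ⟨p, q, t, rfl, d⟩ := mem_cps.1 hK
    by_cases k : p ∩ q = c ∩ w
    · exact k ▸ mem_insert_self _ _
    have a : p ∩ q ⊆ cov W := fun v hv => by
      by_contra e
      have f : ∀ x ∈ X, v ∈ x → x = c ∨ x = w := fun x hx a => by
        rcases (mX x).1 hx with k | k | k
        exacts [Or.inl k, Or.inr k, absurd (mem_cov.2 ⟨x, k, a⟩) e]
      have n := t.1.ne
      rcases f p t.1.mc (mem_inter.1 hv).1 with rfl | rfl <;>
        rcases f q t.1.mw (mem_inter.1 hv).2 with rfl | rfl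
      exacts [n rfl, k rfl, k (inter_comm _ _), n rfl]
    have t' := t.mono XH
    refine mem_insert_of_mem (mem_filter.2 ⟨mem_cps.2 ⟨p, q, t', rfl,
      d.imp (fun d => ?_) fun d => d.mono XH⟩, a⟩)
    refine (pend_iff t'.1.mc t'.1.mw).2 fun x hx v hv e => ?_
    refine (pend_iff t.1.mc t.1.mw).1 d x ((mX x).2 ?_) v hv e
    by_cases f : x ∈ W
    · exact Or.inr (Or.inr f)
    rcases h.host hF ht mW hx f e (a hv) with g | g | g
    · exact absurd (h0 ▸ g) (notMem_empty x)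
    · exact absurd g.1 sW
    · exact g.2.2.imp_right Or.inl
  have e1 := cb_V0_eq hF ht
  have e2 : cov G \ cov (un F) = ∅ := sdiff_eq_empty_iff_subset.2
    (cov_mono (sdiff_eq_empty_iff_subset.1 h0))
  have e3 := cpin_sum (H := H) hF
  have e4 : ∀ k, ek (∅ : Finset (Finset V)) k = 0 := fun _ => rfl
  rw [h0, e2, e4, e4, card_empty, eF, sum_pair hne] at e1
  rw [eF, sum_pair hne] at e3
  have e5 := cl_back ear h.pr.c5 h.pr.w5 h.pr.i3 d1 d2
  rw [← hX] at e5
  have e6 := h.bonus_le h1 (hF.sub W0 m0) s0 XH fun x hx =>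
    (hall x hx).imp_right fun a => (mX x).2 (Or.inr (Or.inr a))
  have e7 := h.val
  unfold ValC at *
  omega

theorem notMC (h : Red β H G s y c w b) (h1 : 17 ≤ β) (h2 : β ≤ 216) (ih : IHC β H)
    (hn : ¬ MC G) : -46 ≤ ValC β H := by
  obtain ⟨F, hF, ht⟩ := exists_mcore h.cG.cls.ne
  rcases (G \ un F).eq_empty_or_nonempty with h0 | h0
  · obtain ⟨W0, m0, s0⟩ := mem_un.1 (hF.mem_of_crit h.cG.cls.ne ht h.scrit)
    obtain ⟨W, mW, yW⟩ := mem_un.1 (hF.mem_of_crit h.cG.cls.ne ht h.ycrit)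
    refine h.split h1 ih hF ht h0 m0 s0 mW yW ?_
    rintro rfl
    refine hn (Subset.antisymm (hF.sub W0 m0) (fun x hx => ?_) ▸ hF.mc W0 m0)
    obtain ⟨U, a1, a2⟩ := mem_un.1 (sdiff_eq_empty_iff_subset.1 h0 hx)
    by_contra k
    have n : U ≠ W0 := fun e => k (e ▸ a2)
    have := h.few hF ht ⟨U, mem_filter.2 ⟨a1, fun e => disjoint_left.1 (hF.disj a1 m0 n) e s0,
      fun e => disjoint_left.1 (hF.disj a1 m0 n) e yW⟩⟩
    rw [h0, card_empty] at this
    omega
  · exact h.drop h1 h2 ih hF ht (card_pos.2 h0)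

theorem cyc (h : Red β H G s y c w b) (h1 : 17 ≤ β) (ih : IHC β H) (hm : MC G) :
    -46 ≤ ValC β H ∨ ∃ w', Tgt H c w y w' := by
  have hF : MFam G {G} := mfam_one hm Subset.rfl
  have hu : un {G} = G := by simp [un]
  have h0 : G \ un {G} = ∅ := by rw [hu, sdiff_self]; rfl
  have ht : tau (un {G}) = tau G := by rw [hu]
  have mG := mem_singleton_self G
  by_cases k : ∃ w', Trc G y w' ∧ Pend G y w' ∧ ¬ CP H (y ∩ w')
  · obtain ⟨w', t, pd, hn⟩ := k
    have t' := h.trUp Subset.rfl t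
    refine Or.inr ⟨w', h.pr, h.leg, t', fun e => hn ⟨y, w', t', rfl, Or.inl e⟩,
      fun e => hn ⟨y, w', t', rfl, Or.inr e⟩, fun e => h.cn (e ▸ t.1.mw),
      fun e => h.wn (e ▸ t.1.mw), fun v hv x hx a => ?_⟩
    have pd' := (pend_iff t.1.mc t.1.mw).1 pd
    by_cases e : x ∈ G
    · exact (pd' x e v hv a).imp_right Or.inl
    rcases (h.out x hx e).2 v a (mem_cov.2 ⟨y, h.yG, (mem_inter.1 hv).1⟩) with d | d
    · rcases pd' s h.sG v hv d with f | f
      · exact absurd (f ▸ t.1) (h.nomem G Subset.rfl w')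
      · exact absurd (f ▸ t.1.symm) (h.nomem G Subset.rfl y)
    · exact Or.inr (Or.inr d)
  · have v0 := h.notExc ih hF h0 mG h.sG
    have p0 := h.count hF ht mG (ε := 0) fun w' t a d => absurd ⟨w', t, a, d⟩ k
    have c0 : cov (∅ : Finset (Finset V)) = ∅ := rfl
    rw [h0, c0, empty_inter, card_empty] at p0
    have e3 := h.bonus_le h1 (X := ∅) Subset.rfl h.sG (empty_subset _) fun x hx => Or.inl hx
    have e4 : bonus β (∅ : Finset (Finset V)) = 0 := rfl
    have e7 := h.val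
    left
    unfold ValC at *
    omega

end Red

end Pool.Agent.Work.MP_d266e7_co.Mix
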