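import Pool.Agent.Work.MP_d266e7_co.Full.CL1

/-!
Merging a non-pendant trace whose core lies in the legs of no pair is a reduction step.
-/

namespace Pool.Agent.Work.MP_d266e7_co.Mix

open Finset C5 C5.P24

variable {V : Type} [DecidableEq V]

theorem cm_star {H : Finset (Finset V)} {c w : Finset V} {v : V} (hv : v ∉ c ∩ w) :
    star (mrg H c w) v ⊆ star H v := fun x hx => by
  rcases mem_mrg.1 (mem_star.1 hx).1 with rfl | k
  · exact absurd (mem_star.1 hx).2 hv
  · exact mem_star.2 ⟨k.1, (mem_star.1 hx).2⟩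

theorem cm_sum {H : Finset (Finset V)} {c w : Finset V} (hc : c ∈ H) (hw : w ∈ H) (hne : c ≠ w)
    (f : Finset V → ℕ) (hf : f (c ∩ w) ≤ f c + f w) (v : V) :
    ∑ e ∈ star (mrg H c w) v, f e ≤ ∑ e ∈ star H v, f e := by
  by_cases hv : v ∈ c ∩ w
  · have h1 : star (mrg H c w) v ⊆ insert (c ∩ w) (((star H v).erase c).erase w) := fun x hx => by
      rcases mem_mrg.1 (mem_star.1 hx).1 with rfl | k
      · exact mem_insert_self _ _
      · exact mem_insert_of_mem (mem_erase.2 ⟨k.2.2, mem_erase.2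
          ⟨k.2.1, mem_star.2 ⟨k.1, (mem_star.1 hx).2⟩⟩⟩)
    have h2 := sum_le_sum_of_subset (f := f) h1
    have h3 : ∑ e ∈ insert (c ∩ w) (((star H v).erase c).erase w), f e ≤
        f (c ∩ w) + ∑ e ∈ ((star H v).erase c).erase w, f e := by
      by_cases k : c ∩ w ∈ ((star H v).erase c).erase w
      · rw [insert_eq_of_mem k]
        omega
      · rw [sum_insert k]
    have h4 := add_sum_erase (star H v) f (mem_star.2 ⟨hc, (mem_inter.1 hv).1⟩)
    have h5 := add_sum_erase ((star H v).erase c) f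
      (mem_erase.2 ⟨hne.symm, mem_star.2 ⟨hw, (mem_inter.1 hv).2⟩⟩)
    omega
  · exact sum_le_sum_of_subset (cm_star hv)

theorem cm_dg {H : Finset (Finset V)} {c w : Finset V} (h : Pr H c w) (v : V) :
    dg (mrg H c w) v ≤ dg H v := by
  have := cm_sum h.mc h.mw h.ne (fun _ => 1) (by omega) v
  simpa [dg] using this

theorem cm_cls {H : Finset (Finset V)} {c w : Finset V} (hH : Cls H) (h : Pr H c w) :
    Cls (mrg H c w) := by
  refine ⟨fun e he => ?_, fun v => (cm_sum h.mc h.mw h.ne wt ?_ v).trans (hH.d4 v),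
    fun e he f hf hne => ?_⟩
  · rcases mem_mrg.1 he with rfl | k
    exacts [Or.inl h.i3, hH.sz e k.1]
  · simp [wt, h.i3, h.c5, h.w5]
  · rcases mem_mrg.1 he with rfl | k
    · exact h.i3 ▸ card_le_card inter_subset_left
    rcases mem_mrg.1 hf with rfl | k'
    · exact h.i3 ▸ card_le_card inter_subset_right
    · exact hH.c3 e k.1 f k'.1 hne

theorem cm_five {H : Finset (Finset V)} {c w x : Finset V} (h : Pr H c w) (hx : x ∈ mrg H c w)
    (h5 : x.card = 5) : x ∈ H := by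
  rcases mem_mrg.1 hx with rfl | k
  · have := h.i3
    omega
  · exact k.1

theorem cm_pr {H : Finset (Finset V)} {c w p q : Finset V} (h : Pr H c w)
    (a : Pr (mrg H c w) p q) : Pr H p q :=
  a.up (cm_five h a.mc a.c5) (cm_five h a.mw a.w5) (cm_dg h)

theorem cm_ek {H : Finset (Finset V)} {c w : Finset V} (h : Pr H c w) :
    ek (mrg H c w) 5 + 2 ≤ ek H 5 ∧ ek (mrg H c w) 3 ≤ ek H 3 + 1 := by
  constructor
  · have h1 : (mrg H c w).filter (fun e => e.card = 5) ⊆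
        ((H.filter fun e => e.card = 5).erase c).erase w := fun x hx => by
      obtain ⟨a, d⟩ := mem_filter.1 hx
      rcases mem_mrg.1 a with rfl | k
      · have := h.i3
        omega
      · exact mem_erase.2 ⟨k.2.2, mem_erase.2 ⟨k.2.1, mem_filter.2 ⟨k.1, d⟩⟩⟩
    have h2 := card_le_card h1
    have h3 := card_erase_add_one (s := H.filter fun e => e.card = 5) (mem_filter.2 ⟨h.mc, h.c5⟩)
    have h4 := card_erase_add_one (s := (H.filter fun e => e.card = 5).erase c)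
      (mem_erase.2 ⟨h.ne.symm, mem_filter.2 ⟨h.mw, h.w5⟩⟩)
    unfold ek
    omega
  · refine (card_le_card (t := insert (c ∩ w) (H.filter fun e => e.card = 3)) fun x hx => ?_).trans
      (card_insert_le _ _)
    obtain ⟨a, d⟩ := mem_filter.1 hx
    rcases mem_mrg.1 a with rfl | k
    exacts [mem_insert_self _ _, mem_insert_of_mem (mem_filter.2 ⟨k.1, d⟩)]

theorem cm_ne {H : Finset (Finset V)} {c w y : Finset V} (h : Pr H c w) (leg : sd c w ⊆ y) :
    y ≠ c ∧ y ≠ w := by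
  obtain ⟨d, hd⟩ : (c \ w).Nonempty := card_pos.1 (by rw [h.legs.1]; omega)
  obtain ⟨f, hf⟩ : (w \ c).Nonempty := card_pos.1 (by rw [h.legs.2]; omega)
  exact ⟨fun e => (mem_sdiff.1 hf).2 (e ▸ leg (cr_sd2 hf)),
    fun e => (mem_sdiff.1 hd).2 (e ▸ leg (cr_sd1 hd))⟩

/-- a small transversal of the family without the node `y` avoids `y` -/
theorem cm_avoid {H : Finset (Finset V)} (h : MC H) {y : Finset V} (hy : y ∈ H) :
    ∃ T, Hits T (H.erase y) ∧ T.card < tau H ∧ ∀ v ∈ y, v ∉ T := by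
  obtain ⟨T, t1, t2⟩ := exists_opt (h.nes.mono (erase_subset y H))
  have t3 := h.crit y hy
  refine ⟨T, t1, by omega, fun v hv k => ?_⟩
  have : tau H ≤ T.card := tau_le fun e he => by
    by_cases a : e = y
    exacts [⟨v, a ▸ hv, k⟩, t1 e (mem_erase.2 ⟨a, he⟩)]
  omega

theorem red_mrg {β : ℕ} {H : Finset (Finset V)} {c w y : Finset V} (cH : ClsC H) (mH : MC H)
    (h : Pr H c w) (yH : y ∈ H) (y5 : y.card = 5) (leg : sd c w ⊆ y) (hp : ¬ Pend H c w)
    (hl : ¬ Lk H (c ∩ w)) : Red β H (mrg H c w) (c ∩ w) y c w 0 := by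
  have hcore : (c ∩ w).Nonempty := card_pos.1 (by rw [h.i3]; omega)
  have ht := mH.mrg_tau h.mc hcore
  have n5 : ∀ x : Finset V, x.card = 5 → x ≠ c ∩ w := fun x a e => by
    have := h.i3
    rw [← e] at this
    omega
  have lk : ∀ K, Lk (mrg H c w) K → Lk H K := fun K ⟨p, q, a, d⟩ => ⟨p, q, cm_pr h a, d⟩
  have yn := cm_ne h leg
  refine ⟨cH, mH, ⟨cm_cls cH.cls h, fun K hK k3 a => ?_, fun p q t a k hk => ?_⟩, ?_, h, y5, yH,
    leg, mem_insert_self _ _, mem_mrg.2 (Or.inr ⟨yH, yn⟩), fun e => ?_, fun e => ?_,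
    fun x hx => (mem_mrg.1 hx).imp_right And.left, cm_dg h, fun x hx hx' => ?_,
    mH.mrg_crit h.mc hcore, ?_, fun W _ p a => n5 _ a.c5 rfl,
    fun W _ a d => absurd rfl (n5 _ (d _ a)), Or.inr ⟨h.i3, ?_⟩, ?_, fun _ _ _ => Nat.zero_le _⟩
  · rcases mem_mrg.1 hK with rfl | k
    exacts [hl (lk _ a), cH.n3 K k.1 k3 (lk _ a)]
  · obtain ⟨t, x, x1, x2, x3⟩ := t
    exact (cm_dg h k).trans (cH.cl p q ⟨cm_pr h t, x, cm_five h x1 x2, x2, x3⟩ (lk _ a) k hk)
  · have h1 := card_insert_le (c ∩ w) ((H.erase c).erase w)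
    have h2 := card_erase_add_one h.mc
    have h3 := card_erase_add_one (mem_erase.2 ⟨h.ne.symm, h.mw⟩)
    unfold mrg
    omega
  · exact (mem_mrg.1 e).elim (n5 c h.c5) fun k => k.2.1 rfl
  · exact (mem_mrg.1 e).elim (n5 w h.w5) fun k => k.2.2 rfl
  · have k : x = c ∨ x = w := by
      by_contra k
      exact hx' (mem_mrg.2 (Or.inr ⟨hx, not_or.1 k⟩))
    refine ⟨by rcases k with rfl | rfl; exacts [h.nc, h.nw], fun v hv _ => ?_⟩
    by_cases a : v ∈ c ∩ w
    · exact Or.inl a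
    · refine Or.inr ⟨k, mem_sdiff.2 ⟨?_, a⟩⟩
      rcases k with rfl | rfl
      exacts [mem_union_left _ hv, mem_union_right _ hv]
  · obtain ⟨T, t1, t2, t3⟩ := cm_avoid mH yH
    rw [ht]
    refine (tau_le fun e he => ?_).trans_lt t2
    rcases mem_mrg.1 (mem_of_mem_erase he) with rfl | k
    · obtain ⟨v, a, d⟩ := t1 c (mem_erase.2 ⟨yn.1.symm, h.mc⟩)
      exact ⟨v, mem_inter.2 ⟨a, by_contra fun f =>
        t3 v (leg (cr_sd1 (mem_sdiff.2 ⟨a, f⟩))) d⟩, d⟩
    · exact t1 e (mem_erase.2 ⟨ne_of_mem_erase he, k.1⟩)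
  · rw [pend_iff h.mc h.mw] at hp
    push Not at hp
    obtain ⟨x, hx, v, hv, a, n1, n2⟩ := hp
    refine ⟨x, mem_mrg.2 (Or.inr ⟨hx, n1, n2⟩), fun e => ?_, v, a, hv⟩
    exact n1 (mH.not_sub hx h.mc (e ▸ inter_subset_left))
  · have h1 := cm_ek h
    have h2 := card_le_card (mrg_cov (w := w) h.mc)
    have h3 := cpin_le H (cov (mrg H c w))
    unfold V0
    rw [ht]
    omega

end Pool.Agent.Work.MP_d266e7_co.Mix
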