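import Pool.Agent.Work.MP_d266e7_co.Full.CBase

/-!
One reduction step of the outer induction, in abstract form. `H` is reduced to `G`; the pair
`c`, `w` with witness `y` is removed, `s` is the new or newly private node.
-/

namespace Pool.Agent.Work.MP_d266e7_co.Mix

open Finset C5 C5.P24

variable {V : Type} [DecidableEq V]

structure Red (β : ℕ) (H G : Finset (Finset V)) (s y c w : Finset V) (b : ℕ) : Prop where
  cH : ClsC H
  mH : MC H
  cG : ClsC G
  lt : G.card < H.card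
  pr : Pr H c w
  y5 : y.card = 5
  yH : y ∈ H
  leg : sd c w ⊆ y
  sG : s ∈ G
  yG : y ∈ G
  cn : c ∉ G
  wn : w ∉ G
  sub : ∀ x ∈ G, x = s ∨ x ∈ H
  dgle : ∀ v, dg G v ≤ dg H v
  out : ∀ x ∈ H, x ∉ G → np H x = 0 ∧
    ∀ v ∈ x, v ∈ cov G → v ∈ s ∨ ((x = c ∨ x = w) ∧ v ∈ sd c w)
  scrit : tau (G.erase s) < tau G
  ycrit : tau (G.erase y) < tau G
  nomem : ∀ W ⊆ G, ∀ p, ¬ Pr W s p
  noE : ∀ W ⊆ G, s ∈ W → U5 W → ¬ E10 W
  s3 : (s ∈ H ∧ s.card = 5 ∧ np H s = 0) ∨ (s.card = 3 ∧ ∃ x ∈ G, x ≠ s ∧ Adj x s)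
  val : V0 G + 13 * cpin H (cov G) ≤ V0 H + 13 * piC H + b
  bs : ∀ W ⊆ G, s ∈ W → b ≤ bon β W s

theorem Pr.legs {H : Finset (Finset V)} {c w : Finset V} (h : Pr H c w) :
    (c \ w).card = 2 ∧ (w \ c).card = 2 := by
  have e1 := card_sdiff_add_card_inter c w
  have e2 := card_sdiff_add_card_inter w c
  rw [inter_comm w c] at e2
  have := h.c5
  have := h.w5
  have := h.i3
  omega

theorem cr_sd1 {c w : Finset V} : c \ w ⊆ sd c w := fun _ hv => mem_sd.2 (Or.inl (mem_sdiff.1 hv))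

theorem cr_sd2 {c w : Finset V} : w \ c ⊆ sd c w := fun _ hv =>
  mem_sd.2 (Or.inr (mem_sdiff.1 hv).symm)

theorem cr_cov_le {A : Finset (Finset V)} (h : ∀ e ∈ A, e.card = 3 ∨ e.card = 5) :
    (cov A).card ≤ 5 * A.card := by
  refine card_biUnion_le.trans ?_
  rw [mul_comm]
  exact sum_le_card_nsmul _ _ 5 fun e he => by have := h e he; simp only [id]; omega

theorem cr_ind {G : Finset (Finset V)} {F : Finset (Finset (Finset V))} (h : MFam G F)
    (x : Finset V) : ∑ W ∈ F, (if x ∈ W then 1 else 0 : ℤ) ≤ 1 := by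
  rw [sum_boole]
  have : (F.filter (x ∈ ·)).card ≤ 1 := card_le_one.2 fun W a W' b => by
    by_contra c
    exact disjoint_left.1 (h.disj (mem_filter.1 a).1 (mem_filter.1 b).1 c) (mem_filter.1 a).2
      (mem_filter.1 b).2
  exact_mod_cast this

namespace Red

variable {β b : ℕ} {H G : Finset (Finset V)} {s y c w : Finset V}

theorem prUp (h : Red β H G s y c w b) {W : Finset (Finset V)} (hW : W ⊆ G) {p q : Finset V}
    (a : Pr W p q) : Pr H p q :=
  a.up ((h.sub p (hW a.mc)).resolve_left fun e => h.nomem W hW q (e ▸ a))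
    ((h.sub q (hW a.mw)).resolve_left fun e => h.nomem W hW p (e ▸ a.symm))
    fun v => (dg_mono hW v).trans (h.dgle v)

theorem five (h : Red β H G s y c w b) {x : Finset V} (hx : x ∈ G) (h5 : x.card = 5) : x ∈ H := by
  rcases h.sub x hx with rfl | k
  · rcases h.s3 with k | k
    · exact k.1
    · omega
  · exact k

theorem trUp (h : Red β H G s y c w b) {W : Finset (Finset V)} (hW : W ⊆ G) {p q : Finset V}
    (a : Trc W p q) : Trc H p q := by
  obtain ⟨a, x, x1, x2, x3⟩ := a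
  exact ⟨h.prUp hW a, x, h.five (hW x1) x2, x2, x3⟩

theorem lkUp (h : Red β H G s y c w b) {W : Finset (Finset V)} (hW : W ⊆ G) {K : Finset V}
    (a : Lk W K) : Lk H K := by
  obtain ⟨p, q, a, d⟩ := a
  exact ⟨p, q, h.prUp hW a, d⟩

theorem bonus_le (h : Red β H G s y c w b) (hβ : 17 ≤ β) {W X : Finset (Finset V)} (hW : W ⊆ G)
    (hs : s ∈ W) (hX : X ⊆ H) (hall : ∀ x ∈ G, x ∈ W ∨ x ∈ X) :
    bonus β H + b ≤ bonus β W + bonus β X := by
  have h1 : bonus β H ≤ ∑ x ∈ W.erase s ∪ X, bon β H x :=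
    sum_le_sum_of_ne_zero fun x hx hne => by
      have k : x ∈ G := by_contra fun k => hne (cb_bon_zero (h.out x hx k).1)
      have k' : x ≠ s := by
        rintro rfl
        rcases h.s3 with a | a
        exacts [hne (cb_bon_zero a.2.2), hne (cb_bon_three a.1)]
      exact mem_union.2 ((hall x k).imp_left fun a => mem_erase.2 ⟨k', a⟩)
  have h2 := sum_union_inter (s₁ := W.erase s) (s₂ := X) (f := bon β H)
  have h3 : ∑ x ∈ W.erase s, bon β H x ≤ ∑ x ∈ W.erase s, bon β W x :=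
    sum_le_sum fun x _ => cb_bon_anti hβ (fun v => (dg_mono hW v).trans (h.dgle v)) x
  have h4 : ∑ x ∈ X, bon β H x ≤ bonus β X :=
    sum_le_sum fun x _ => cb_bon_anti hβ (dg_mono hX) x
  have h5 : bon β W s + ∑ x ∈ W.erase s, bon β W x = bonus β W := add_sum_erase W _ hs
  have h6 := h.bs W hW hs
  omega

variable {F : Finset (Finset (Finset V))}

theorem same (hF : MFam G F) {W : Finset (Finset V)} (hW : W ∈ F) {x : Finset V} (hx : x ∈ un F)
    {v : V} (a : v ∈ x) (d : v ∈ cov W) : x ∈ W := by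
  obtain ⟨W', a1, a2⟩ := mem_un.1 hx
  exact hF.eq_of_mem a1 hW (mem_cov.2 ⟨x, a2, a⟩) d ▸ a2

theorem host (h : Red β H G s y c w b) (hF : MFam G F) (ht : tau (un F) = tau G)
    {W : Finset (Finset V)} (hW : W ∈ F) {x : Finset V} (hx : x ∈ H) (hxW : x ∉ W) {v : V}
    (a : v ∈ x) (d : v ∈ cov W) :
    x ∈ G \ un F ∨ (s ∈ W ∧ v ∈ s) ∨ (y ∈ W ∧ v ∈ y ∧ (x = c ∨ x = w)) := by
  by_cases k : x ∈ G
  · exact Or.inl (mem_sdiff.2 ⟨k, fun e => hxW (same hF hW e a d)⟩)
  · rcases (h.out x hx k).2 v a (cov_mono (hF.sub W hW) d) with e | e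
    · exact Or.inr (Or.inl ⟨same hF hW (hF.mem_of_crit h.cG.cls.ne ht h.scrit) e d, e⟩)
    · exact Or.inr (Or.inr ⟨same hF hW (hF.mem_of_crit h.cG.cls.ne ht h.ycrit) (h.leg e.2) d,
        h.leg e.2, e.1⟩)

theorem count (h : Red β H G s y c w b) (hF : MFam G F) (ht : tau (un F) = tau G)
    {W : Finset (Finset V)} (hW : W ∈ F) {ε : ℕ}
    (hε : ∀ w', Trc W y w' → Pend W y w' → ¬ CP H (y ∩ w') → 1 ≤ ε) :
    piC W ≤ cpin H (cov W) + (cov (G \ un F) ∩ cov W).card + ε := by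
  have hs := hF.sub W hW
  refine cb_count (fun p q => h.trUp hs) (fun K => h.lkUp hs) (fun p q t pd hn => ?_) hε
  have t' := h.trUp hs t
  have h1 : ¬ Pend H p q := fun k => hn ⟨p, q, t', rfl, Or.inl k⟩
  rw [pend_iff t'.1.mc t'.1.mw] at h1
  push Not at h1
  obtain ⟨x, hx, v, hv, a, n1, n2⟩ := h1
  have pd' := (pend_iff t.1.mc t.1.mw).1 pd
  have hxW : x ∉ W := fun k => (pd' x k v hv a).elim n1 n2
  rcases h.host hF ht hW hx hxW a (mem_cov.2 ⟨p, t.1.mc, (mem_inter.1 hv).1⟩) with k | k | k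
  · exact Or.inl ⟨v, hv, mem_cov.2 ⟨x, k, a⟩⟩
  · rcases pd' s k.1 v hv k.2 with e | e
    · exact absurd (e ▸ t.1) (h.nomem W hs q)
    · exact absurd (e ▸ t.1.symm) (h.nomem W hs p)
  · exact Or.inr ((pd' y k.1 v hv k.2.1).imp Eq.symm Eq.symm)

theorem subH (h : Red β H G s y c w b) {W : Finset (Finset V)} (hW : W ⊆ G) (hs : s ∉ W) :
    W ⊆ H := fun x hx => (h.sub x (hW hx)).resolve_left fun e => hs (e ▸ hx)

theorem neH (h : Red β H G s y c w b) {W : Finset (Finset V)} (hW : W ⊆ G) : W ≠ H :=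
  fun e => h.cn (hW (e ▸ h.pr.mc))

/-- if the only hosts of the piece of `y` are `c` and `w`, their blocks are never joint -/
theorem cross (h : Red β H G s y c w b) (hF : MFam G F) (ht : tau (un F) = tau G)
    {W : Finset (Finset V)} (hW : W ∈ F) (hs : s ∉ W)
    (h0 : (cov (G \ un F) ∩ cov W).card = 0) : Cross W c w := by
  refine h.mH.two_hosts (hF.mc W hW).ne (h.subH (hF.sub W hW) hs) (h.neH (hF.sub W hW))
    fun z hz hz' hd => ?_
  obtain ⟨v, hv⟩ := card_pos.1 hd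
  rcases h.host hF ht hW hz hz' (mem_inter.1 hv).1 (mem_inter.1 hv).2 with k | k | k
  · have : 0 < (cov (G \ un F) ∩ cov W).card :=
      card_pos.2 ⟨v, mem_inter.2 ⟨mem_cov.2 ⟨z, k, (mem_inter.1 hv).1⟩, (mem_inter.1 hv).2⟩⟩
    omega
  · exact absurd k.1 hs
  · exact k.2.2

theorem two (h : Red β H G s y c w b) (hF : MFam G F) (ht : tau (un F) = tau G)
    {W : Finset (Finset V)} (hW : W ∈ F) (hs : s ∉ W) (hy : y ∉ W) :
    2 ≤ (cov (G \ un F) ∩ cov W).card := by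
  obtain ⟨u, hu, v, hv, hne, ⟨x, x1, x2, x3⟩, z, z1, z2, z3⟩ :=
    h.mH.two_blocks (hF.mc W hW) (h.subH (hF.sub W hW) hs) (h.neH (hF.sub W hW))
  have key : ∀ x ∈ H, x ∉ W → ∀ u ∈ x, u ∈ cov W → u ∈ cov (G \ un F) ∩ cov W :=
    fun x x1 x2 u x3 hu => by
      rcases h.host hF ht hW x1 x2 x3 hu with k | k | k
      exacts [mem_inter.2 ⟨mem_cov.2 ⟨x, k, x3⟩, hu⟩, absurd k.1 hs, absurd k.1 hy]
  exact one_lt_card.2 ⟨u, key x x1 x2 u x3 hu, v, key z z1 z2 v z3 hv, hne⟩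

theorem ihp (h : Red β H G s y c w b) (ih : IHC β H) (hF : MFam G F) {W : Finset (Finset V)}
    (hW : W ∈ F) : COk β W :=
  ih W ((card_le_card (hF.sub W hW)).trans_lt h.lt) (h.cG.mono (hF.sub W hW)) (hF.mc W hW)

theorem piece (h : Red β H G s y c w b) (ih : IHC β H) (hF : MFam G F)
    (ht : tau (un F) = tau G) {W : Finset (Finset V)} (hW : W ∈ F) :
    -46 - 13 * ((cov (G \ un F) ∩ cov W).card : ℤ) - 13 * (if y ∈ W then 1 else 0) -
      (if s ∈ W then 1 else 0) ≤ V0 W - bonus β W + 13 * cpin H (cov W) := by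
  have hs := hF.sub W hW
  rcases h.ihp ih hF hW with k | k | k
  · have h1 := h.count hF ht hW (ε := if y ∈ W then 1 else 0) fun w' t _ _ => by
      rw [if_pos t.1.mc]
    unfold ValC at k
    split_ifs at h1 ⊢ <;> omega
  · rw [cb_U k]
    obtain ⟨K, hK, rfl⟩ := k
    have hy : y ∉ ({K} : Finset (Finset V)) := fun e => by
      have := h.y5
      rw [mem_singleton.1 e] at this
      omega
    rw [if_neg hy]
    split_ifs with a
    · obtain rfl := mem_singleton.1 a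
      rcases h.s3 with d | ⟨-, x, x1, x2, v, v1, v2⟩
      · omega
      have d : v ∈ cov ({s} : Finset (Finset V)) := mem_cov.2 ⟨s, a, v2⟩
      have : 0 < (cov (G \ un F) ∩ cov {s}).card := card_pos.2 ⟨v, mem_inter.2 ⟨mem_cov.2 ⟨x,
        mem_sdiff.2 ⟨x1, fun e => x2 (mem_singleton.1 (same hF hW e v1 d))⟩, v1⟩, d⟩⟩
      omega
    · have := h.two hF ht hW a hy
      omega
  · rw [cb_E k.1 k.2]
    have a : s ∉ W := fun e => h.noE W hs e k.1 k.2
    rw [if_neg a]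
    split_ifs with hy
    · have : (cov (G \ un F) ∩ cov W).card ≠ 0 := fun h0 => by
        obtain ⟨d, hd⟩ : (c \ w).Nonempty := card_pos.1 (by rw [h.pr.legs.1]; omega)
        obtain ⟨f, hf⟩ : (w \ c).Nonempty := card_pos.1 (by rw [h.pr.legs.2]; omega)
        obtain ⟨C, c1, c2, c3, c4⟩ := k.2.pair d (mem_cov.2 ⟨y, hy, h.leg (cr_sd1 hd)⟩) f
          (mem_cov.2 ⟨y, hy, h.leg (cr_sd2 hf)⟩)
        exact h.cross hF ht hW a h0 C c1 c2 d (mem_sdiff.1 hd).1 f (mem_sdiff.1 hf).1 c3 c4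
      omega
    · have := h.two hF ht hW a hy
      omega

/-- the pieces without `s` and `y` have their hosts among the dropped nodes -/
theorem few (h : Red β H G s y c w b) (hF : MFam G F) (ht : tau (un F) = tau G)
    (hne : (F.filter fun W => s ∉ W ∧ y ∉ W).Nonempty) :
    (F.filter fun W => s ∉ W ∧ y ∉ W).card + 1 ≤ (G \ un F).card := by
  have hF' : MFam H (F.filter fun W => s ∉ W ∧ y ∉ W) :=
    ⟨fun W hW => h.subH (hF.sub W (mem_filter.1 hW).1) (mem_filter.1 hW).2.1,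
      fun W hW => hF.mc W (mem_filter.1 hW).1,
      fun W hW W' hW' => hF.sep W (mem_filter.1 hW).1 W' (mem_filter.1 hW').1⟩
  refine h.mH.nlemma hF' hne ⟨c, h.pr.mc, fun e => ?_⟩ fun x hx hx' W hW hd => ?_
  · obtain ⟨W, a, d⟩ := mem_un.1 e
    exact h.cn (hF.sub W (mem_filter.1 a).1 d)
  · obtain ⟨v, hv⟩ := card_pos.1 hd
    rcases h.host hF ht (mem_filter.1 hW).1 hx (fun e => hx' (sub_un hW e)) (mem_inter.1 hv).1
      (mem_inter.1 hv).2 with k | k | k
    exacts [k, absurd k.1 (mem_filter.1 hW).2.1, absurd k.1 (mem_filter.1 hW).2.2]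

/-- some node is dropped -/
theorem drop (h : Red β H G s y c w b) (h1 : 17 ≤ β) (h2 : β ≤ 216) (ih : IHC β H)
    (hF : MFam G F) (ht : tau (un F) = tau G) (ha : 1 ≤ (G \ un F).card) : -46 ≤ ValC β H := by
  have e1 := sum_le_sum fun W hW => h.piece ih hF ht (W := W) hW
  have e2 := cb_sum h1 h2 h.cG.cls hF ht
  have e3 := h.bonus_le h1 (X := ∅) Subset.rfl h.sG (empty_subset _) fun x hx => Or.inl hx
  have e4 : bonus β (∅ : Finset (Finset V)) = 0 := rfl
  have e5 : ((∑ W ∈ F, cpin H (cov W) : ℕ) : ℤ) ≤ cpin H (cov G) := by exact_mod_cast cpin_sum hF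
  have e6 : ∑ W ∈ F, (cov (G \ un F) ∩ cov W).card ≤ 5 * (G \ un F).card := by
    have a1 : ∑ W ∈ F, (cov (G \ un F) ∩ cov W).card + _ = _ := hF.size (cov (G \ un F))
    have := cr_cov_le (A := G \ un F) fun e he => h.cG.cls.sz e (mem_sdiff.1 he).1
    omega
  have e6' : ((∑ W ∈ F, (cov (G \ un F) ∩ cov W).card : ℕ) : ℤ) ≤ 5 * (G \ un F).card := by
    exact_mod_cast e6
  have e7 := cr_ind hF y
  have e8 := cr_ind hF s
  have e9 : F.card ≤ (G \ un F).card + 1 := by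
    have a1 := card_filter_add_card_filter_not (s := F) fun W => s ∉ W ∧ y ∉ W
    have a2 : (F.filter fun W => ¬ (s ∉ W ∧ y ∉ W)).card ≤
        (F.filter (s ∈ ·)).card + (F.filter (y ∈ ·)).card := by
      refine (card_le_card fun W hW => ?_).trans (card_union_le _ _)
      have := mem_filter.1 hW
      simp only [mem_union, mem_filter]
      tauto
    rw [sum_boole] at e7 e8
    rcases (F.filter fun W => s ∉ W ∧ y ∉ W).eq_empty_or_nonempty with k | k
    · rw [k, card_empty] at a1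
      omega
    · have := h.few hF ht k
      omega
  have e10 := h.val
  simp only [sum_sub_distrib, sum_add_distrib, ← mul_sum, sum_const, nsmul_eq_mul] at e1 e2
  push_cast at e5 e6'
  unfold ValC
  omega

end Red

end Pool.Agent.Work.MP_d266e7_co.Mix
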