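import Pool.Agent.Work.MP_d266e7_co.Full.CM

/-!
If the core of a trace lies in the legs of a pair, deleting the nodes through one of the two
twin blocks is a reduction step.
-/

namespace Pool.Agent.Work.MP_d266e7_co.Mix

open Finset C5 C5.P24

variable {V : Type} [DecidableEq V]

/-- three blocks in the legs are split two and one -/
theorem cw_split {H : Finset (Finset V)} {K : Finset V} (hK : K.card = 3) (h : Lk H K) :
    ∃ z z', Pr H z z' ∧ K ⊆ sd z z' ∧ z \ z' ⊆ K ∧ ∃ k ∈ K, k ∈ z' \ z := by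
  obtain ⟨p, q, a, d⟩ := h
  have key : ∀ p q, Pr H p q → K ⊆ sd p q → 2 ≤ (K ∩ (p \ q)).card →
      p \ q ⊆ K ∧ ∃ k ∈ K, k ∈ q \ p := fun p q a d e => by
    refine ⟨inter_eq_right.1 (eq_of_subset_of_card_le inter_subset_right (by rw [a.legs.1]; exact e)),
      ?_⟩
    by_contra f
    have : K ⊆ p \ q := fun v hv => by
      rcases mem_sd.1 (d hv) with g | g
      exacts [mem_sdiff.2 g, absurd ⟨v, hv, mem_sdiff.2 g.symm⟩ f]
    have := card_le_card this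
    rw [a.legs.1] at this
    omega
  have e : K ⊆ K ∩ (p \ q) ∪ K ∩ (q \ p) := fun v hv => by
    rcases mem_sd.1 (d hv) with g | g
    exacts [mem_union_left _ (mem_inter.2 ⟨hv, mem_sdiff.2 g⟩),
      mem_union_right _ (mem_inter.2 ⟨hv, mem_sdiff.2 g.symm⟩)]
  have e1 := (card_le_card e).trans (card_union_le _ _)
  by_cases f : 2 ≤ (K ∩ (p \ q)).card
  · exact ⟨p, q, a, d, key p q a d f⟩
  · exact ⟨q, p, a.symm, sd_comm p q ▸ d, key q p a.symm (sd_comm p q ▸ d) (by omega)⟩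

theorem cw_three {H : Finset (Finset V)} {a b d x : Finset V} {v : V} (h : dg H v ≤ 3)
    (ha : a ∈ H) (hb : b ∈ H) (hd : d ∈ H) (hx : x ∈ H) (va : v ∈ a) (vb : v ∈ b) (vd : v ∈ d)
    (vx : v ∈ x) (ab : a ≠ b) (ad : a ≠ d) (bd : b ≠ d) : x = a ∨ x = b ∨ x = d := by
  have e : ({a, b, d} : Finset (Finset V)) = star H v := eq_of_subset_of_card_le
    (insert_subset (mem_star.2 ⟨ha, va⟩) (insert_subset (mem_star.2 ⟨hb, vb⟩)
      (singleton_subset_iff.2 (mem_star.2 ⟨hd, vd⟩))))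
    (by rw [card_eq_three.2 ⟨a, b, d, ab, ad, bd, rfl⟩]; exact h)
  have : x ∈ ({a, b, d} : Finset (Finset V)) := e ▸ mem_star.2 ⟨hx, vx⟩
  simpa using this

theorem red_star {β : ℕ} (h1 : 17 ≤ β) {H : Finset (Finset V)} {c w y : Finset V} (cH : ClsC H)
    (mH : MC H) (h : Pr H c w) (yH : y ∈ H) (y5 : y.card = 5) (leg : sd c w ⊆ y)
    (hl : Lk H (c ∩ w)) : ∃ G s, Red β H G s y c w 17 := by
  obtain ⟨z, z', a, hK, hz, k3, m3, n3⟩ := cw_split h.i3 hl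
  have tr : Trc H c w := ⟨h, y, yH, y5, leg⟩
  have hd := cH.cl c w tr hl
  obtain ⟨k1, m1⟩ : (z \ z').Nonempty := card_pos.1 (by rw [a.legs.1]; omega)
  have cz : c ≠ z := fun e => (mem_sdiff.1 n3).2 (e ▸ (mem_inter.1 m3).1)
  have wz : w ≠ z := fun e => (mem_sdiff.1 n3).2 (e ▸ (mem_inter.1 m3).2)
  have cz' : c ≠ z' := fun e => (mem_sdiff.1 m1).2 (e ▸ (mem_inter.1 (hz m1)).1)
  have wz' : w ≠ z' := fun e => (mem_sdiff.1 m1).2 (e ▸ (mem_inter.1 (hz m1)).2)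
  have s1 : ∀ v ∈ z \ z', ∀ x ∈ H, v ∈ x → x = c ∨ x = w ∨ x = z := fun v hv x hx e =>
    cw_three (hd v (hz hv)) h.mc h.mw a.mc hx (mem_inter.1 (hz hv)).1 (mem_inter.1 (hz hv)).2
      (mem_sdiff.1 hv).1 e h.ne cz wz
  have s2 : ∀ v ∈ c ∩ w, v ∈ z' → ∀ x ∈ H, v ∈ x → x = c ∨ x = w ∨ x = z' :=
    fun v hv hv' x hx e => cw_three (hd v hv) h.mc h.mw a.mw hx (mem_inter.1 hv).1
      (mem_inter.1 hv).2 hv' e h.ne cz' wz'
  obtain ⟨G, hG⟩ : ∃ G, G = H \ star H k1 := ⟨_, rfl⟩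
  have GH : G ⊆ H := hG ▸ sdiff_subset
  have mG : ∀ x, x ∈ G ↔ x ∈ H ∧ k1 ∉ x := fun x => by
    rw [hG, mem_sdiff, mem_star]
    tauto
  have cn : c ∉ G := fun e => ((mG c).1 e).2 (mem_inter.1 (hz m1)).1
  have wn : w ∉ G := fun e => ((mG w).1 e).2 (mem_inter.1 (hz m1)).2
  have zn : z ∉ G := fun e => ((mG z).1 e).2 (mem_sdiff.1 m1).1
  have gone : ∀ v ∈ z \ z', ∀ x ∈ G, v ∉ x := fun v hv x hx e => by
    rcases s1 v hv x (GH hx) e with rfl | rfl | rfl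
    exacts [cn hx, wn hx, zn hx]
  have gone' : ∀ v ∈ z \ z', v ∉ cov G := fun v hv e => by
    obtain ⟨x, x1, x2⟩ := mem_cov.1 e
    exact gone v hv x x1 x2
  have only : ∀ v ∈ c ∩ w, v ∈ z' → ∀ x ∈ G, v ∈ x → x = z' := fun v hv hv' x hx e => by
    rcases s2 v hv hv' x (GH hx) e with rfl | rfl | rfl
    exacts [absurd hx cn, absurd hx wn, rfl]
  have priv : ∀ W ⊆ G, dg W k3 ≤ 1 := fun W hW => card_le_one.2 fun x hx x' hx' =>
    (only k3 m3 (mem_sdiff.1 n3).1 x (hW (mem_star.1 hx).1) (mem_star.1 hx).2).trans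
      (only k3 m3 (mem_sdiff.1 n3).1 x' (hW (mem_star.1 hx').1) (mem_star.1 hx').2).symm
  have yn := cm_ne h leg
  have yz : y ≠ z := by
    rintro rfl
    have e1 : sd c w ∪ y \ z' ⊆ y := union_subset leg sdiff_subset
    have e2 := card_le_card e1
    have e3 : Disjoint (sd c w) (y \ z') :=
      disjoint_left.2 fun v f g => (mem_sdiff.1 f).2 (hz g)
    rw [card_union_of_disjoint e3, sd_card h.c5 h.w5 h.i3, a.legs.1] at e2
    omega
  have ht : tau G + 1 = tau H := hG ▸ mH.rem_tau (dg_pos.2 (mem_cov.2 ⟨z, a.mc, (mem_sdiff.1 m1).1⟩))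
  have cut : ∀ (x : Finset V) (T : Finset V) (v : V), T.card < tau H → v ∈ T →
      Hits (T.erase v) (G.erase x) → tau (G.erase x) < tau G := fun x T v t1 t2 t3 => by
    have := tau_le t3
    have := card_erase_add_one t2
    omega
  have cut1 : ∀ (x : Finset V) (T : Finset V), Hits T (H.erase x) → T.card < tau H →
      ∀ v ∈ z \ z', v ∈ T → tau (G.erase x) < tau G := fun x T t1 t2 v hv t3 =>
    cut x T v t2 t3 fun e he => by
      obtain ⟨u, u1, u2⟩ := t1 e (erase_subset_erase x GH he)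
      exact ⟨u, u1, mem_erase.2 ⟨fun f => gone v hv e (mem_of_mem_erase he) (f ▸ u1), u2⟩⟩
  refine ⟨G, z', cH, mH, cH.mono GH, card_lt_card ⟨GH, fun e => cn (e h.mc)⟩, h, y5, yH, leg,
    (mG z').2 ⟨a.mw, (mem_sdiff.1 m1).2⟩, (mG y).2 ⟨yH, fun e => ?_⟩, cn, wn,
    fun x hx => Or.inr (GH hx), dg_mono GH, fun x hx hx' => ?_, ?_, ?_, fun W hW p e => ?_,
    fun W hW e _ f => ?_, Or.inl ⟨a.mw, a.w5, a.nw⟩, ?_,
    fun W hW _ => cb_bon_ge h1 a.w5 (cb_np_pos (mem_sdiff.1 n3).1 (priv W hW))⟩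
  · rcases s1 k1 m1 y yH e with f | f | f
    exacts [yn.1 f, yn.2 f, yz f]
  · have k : x = c ∨ x = w ∨ x = z := s1 k1 m1 x hx (by_contra fun e => hx' ((mG x).2 ⟨hx, e⟩))
    refine ⟨by rcases k with rfl | rfl | rfl; exacts [h.nc, h.nw, a.nc], fun v hv hv' => ?_⟩
    by_cases e : v ∈ z'
    · exact Or.inl e
    have n1 : v ∉ z := fun f => gone' v (mem_sdiff.2 ⟨f, e⟩) hv'
    have n2 : v ∉ c ∩ w := fun f => by
      rcases mem_sd.1 (hK f) with g | g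
      exacts [n1 g.1, e g.2]
    rcases k with rfl | rfl | rfl
    · exact Or.inr ⟨Or.inl rfl, mem_sdiff.2 ⟨mem_union_left _ hv, n2⟩⟩
    · exact Or.inr ⟨Or.inr rfl, mem_sdiff.2 ⟨mem_union_right _ hv, n2⟩⟩
    · exact absurd hv n1
  · obtain ⟨T, t1, t2, t3⟩ := cm_avoid mH a.mw
    obtain ⟨v, v1, v2⟩ := t1 z (mem_erase.2 ⟨a.ne, a.mc⟩)
    exact cut1 z' T t1 t2 v (mem_sdiff.2 ⟨v1, fun e => t3 v e v2⟩) v2
  · obtain ⟨T, t1, t2, t3⟩ := cm_avoid mH yH
    obtain ⟨u, u1, u2⟩ := t1 z (mem_erase.2 ⟨yz.symm, a.mc⟩)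
    by_cases e : u ∈ z'
    swap
    · exact cut1 y T t1 t2 u (mem_sdiff.2 ⟨u1, e⟩) u2
    obtain ⟨v, v1, v2⟩ := t1 c (mem_erase.2 ⟨yn.1.symm, h.mc⟩)
    have vK : v ∈ c ∩ w := mem_inter.2 ⟨v1, by_contra fun f =>
      t3 v (leg (cr_sd1 (mem_sdiff.2 ⟨v1, f⟩))) v2⟩
    rcases mem_sd.1 (hK vK) with g | g
    · exact cut1 y T t1 t2 v (mem_sdiff.2 g) v2
    · refine cut y T v t2 v2 fun x hx => ?_
      obtain ⟨r, r1, r2⟩ := t1 x (erase_subset_erase y GH hx)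
      by_cases f : r = v
      · obtain rfl := only v vK g.2 x (mem_of_mem_erase hx) (f ▸ r1)
        exact ⟨u, e, mem_erase.2 ⟨fun f => g.1 (f ▸ u1), u2⟩⟩
      · exact ⟨r, r1, mem_erase.2 ⟨f, r2⟩⟩
  · have := cb_np_pos (mem_sdiff.1 n3).1 (priv W hW)
    have := e.nc
    omega
  · have := f.d3 k3 (mem_cov.2 ⟨z', e, (mem_sdiff.1 n3).1⟩)
    have := priv W hW
    omega
  · have e1 : ek G 5 + 3 ≤ ek H 5 := by
      have f : G.filter (fun e => e.card = 5) ∪ {c, w, z} ⊆ H.filter fun e => e.card = 5 :=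
        union_subset (filter_subset_filter _ GH) (insert_subset (mem_filter.2 ⟨h.mc, h.c5⟩)
          (insert_subset (mem_filter.2 ⟨h.mw, h.w5⟩)
            (singleton_subset_iff.2 (mem_filter.2 ⟨a.mc, a.c5⟩))))
      have f1 := card_le_card f
      rw [card_union_of_disjoint (disjoint_left.2 fun x g g' => by
        simp only [mem_insert, mem_singleton] at g'
        rcases g' with rfl | rfl | rfl
        exacts [cn (mem_filter.1 g).1, wn (mem_filter.1 g).1, zn (mem_filter.1 g).1]),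
        card_eq_three.2 ⟨c, w, z, h.ne, cz, wz, rfl⟩] at f1
      exact f1
    have e2 : ek G 3 ≤ ek H 3 := card_le_card (filter_subset_filter _ GH)
    have e3 : (cov G).card + 2 ≤ (cov H).card := by
      have f : cov G ∪ z \ z' ⊆ cov H := union_subset (cov_mono GH)
        fun v hv => mem_cov.2 ⟨z, a.mc, (mem_sdiff.1 hv).1⟩
      have f1 := card_le_card f
      rwa [card_union_of_disjoint (disjoint_right.2 gone'), a.legs.1] at f1
    have e4 : cpin H (cov G) < piC H := card_lt_card ⟨filter_subset _ _, fun f =>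
      gone' k1 m1 ((mem_filter.1 (f (mem_cps.2 ⟨c, w, tr, rfl, Or.inr hl⟩))).2 (hz m1))⟩
    unfold V0
    omega

end Pool.Agent.Work.MP_d266e7_co.Mix
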