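import Pool.Agent.Work.MP_d266e7_co.Full.Top

/-!
Export of the top level bound for families with members of three, four or five vertices.
-/

namespace Pool.Agent.Work.MP_d266e7_co.Mix

open Finset C5 C5.P24

theorem top_export_mixed (hno : ∀ H : Finset (Finset ℕ), ¬ TMin H) (n : ℕ)
    (E : Finset (Finset (Fin n))) (hE : ∀ e ∈ E, 3 ≤ e.card ∧ e.card ≤ 5) :
    ∃ T : Finset (Fin n), (∀ e ∈ E, (e ∩ T).Nonempty) ∧
      44 * T.card ≤ 9 * n + 17 * (E.filter fun e => e.card = 3).card +
        14 * (E.filter fun e => e.card = 4).card + 7 * (E.filter fun e => e.card = 5).card := by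
  have h5 : TSz (E.image (map Fin.valEmbedding)) := fun e he => by
    obtain ⟨f, hf, rfl⟩ := mem_image.1 he
    have := hE f hf
    rw [card_map]
    omega
  obtain ⟨T, h1, h2⟩ := exists_opt h5.ne
  have h4 : (cov (E.image (map Fin.valEmbedding))).card ≤ n := by
    refine (card_le_card (t := range n) fun v hv => ?_).trans (card_range n).le
    obtain ⟨e, he, hv⟩ := mem_cov.1 hv
    obtain ⟨f, -, rfl⟩ := mem_image.1 he
    obtain ⟨w, -, rfl⟩ := mem_map.1 hv
    exact mem_range.2 w.2
  have h6 := top_all hno _ _ (Nat.lt_succ_self _) h5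
  rw [TOk, sum_image fun a _ b _ e => map_injective _ e] at h6
  have h7 : ∑ e ∈ E, tv (map Fin.valEmbedding e) = 17 * (E.filter fun e => e.card = 3).card +
      14 * (E.filter fun e => e.card = 4).card + 7 * (E.filter fun e => e.card = 5).card := by
    rw [card_filter, card_filter, card_filter, mul_sum, mul_sum, mul_sum, ← sum_add_distrib,
      ← sum_add_distrib]
    refine sum_congr rfl fun e he => ?_
    have := hE e he
    unfold tv
    rw [card_map]
    split_ifs <;> omega
  have h9 : (univ.filter fun v : Fin n => v.1 ∈ T).card ≤ T.card :=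
    card_le_card_of_injOn Fin.val (fun v hv => (mem_filter.1 hv).2) Fin.val_injective.injOn
  refine ⟨univ.filter fun v : Fin n => v.1 ∈ T, fun e he => ?_, by omega⟩
  obtain ⟨v, hv, h3⟩ := h1 _ (mem_image_of_mem _ he)
  obtain ⟨w, hw, rfl⟩ := mem_map.1 hv
  exact ⟨w, mem_inter.2 ⟨hw, mem_filter.2 ⟨mem_univ _, h3⟩⟩⟩

end Pool.Agent.Work.MP_d266e7_co.Mix
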