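import Pool.Agent.Work.MP_d266e7_co.C5.Defs
import Mathlib.Data.Nat.Pairing

/-!
Extending the nodes of a family by new private blocks: `Ext H f` says that `f e` is `e` together
with new blocks which lie in no other `f e'`. The transversal number, criticality, connectedness,
stars and intersections do not change. `exists_ext` adds `k e` new blocks to the node `e`.
-/

namespace Pool.Agent.Work.MP_d266e7_co.Mix

open Finset C5

variable {V : Type} [DecidableEq V]

structure Ext (H : Finset (Finset V)) (f : Finset V → Finset V) : Prop where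
  ne : NE H
  sub : ∀ e ∈ H, e ⊆ f e
  old : ∀ e ∈ H, ∀ v ∈ f e, v ∈ cov H → v ∈ e
  dis : ∀ e ∈ H, ∀ e' ∈ H, ∀ v ∈ f e, v ∈ f e' → v ∉ cov H → e = e'

variable {H : Finset (Finset V)} {f : Finset V → Finset V}

theorem Ext.mem_iff (h : Ext H f) {e : Finset V} (he : e ∈ H) {v : V} (hv : v ∈ cov H) :
    v ∈ f e ↔ v ∈ e := ⟨fun k => h.old e he v k hv, fun k => h.sub e he k⟩

theorem Ext.inj (h : Ext H f) : Set.InjOn f H := fun e he e' he' k => by
  ext v
  exact ⟨fun hv => h.old e' he' v (k ▸ h.sub e he hv) (mem_cov.2 ⟨e, he, hv⟩),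
    fun hv => h.old e he v (k ▸ h.sub e' he' hv) (mem_cov.2 ⟨e', he', hv⟩)⟩

theorem Ext.card_image (h : Ext H f) {S : Finset (Finset V)} (s : S ⊆ H) :
    (S.image f).card = S.card := card_image_of_injOn (h.inj.mono (coe_subset.2 s))

theorem Ext.sum_image (h : Ext H f) {S : Finset (Finset V)} (s : S ⊆ H) (g : Finset V → ℕ) :
    ∑ e ∈ S.image f, g e = ∑ e ∈ S, g (f e) :=
  Finset.sum_image (h.inj.mono (coe_subset.2 s))

theorem Ext.ne' (h : Ext H f) : NE (H.image f) := fun x hx => by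
  obtain ⟨e, he, rfl⟩ := mem_image.1 hx
  obtain ⟨v, hv⟩ := h.ne e he
  exact ⟨v, h.sub e he hv⟩

theorem Ext.tau_eq (h : Ext H f) {S : Finset (Finset V)} (s : S ⊆ H) :
    tau (S.image f) = tau S := by
  classical
  refine le_antisymm ?_ ?_
  · obtain ⟨T, h1, h2⟩ := exists_opt (h.ne.mono s)
    refine h2 ▸ tau_le fun x hx => ?_
    obtain ⟨e, he, rfl⟩ := mem_image.1 hx
    obtain ⟨v, h3, h4⟩ := h1 e he
    exact ⟨v, h.sub e (s he) h3, h4⟩
  · obtain ⟨T, h1, h2⟩ := exists_opt (h.ne'.mono (image_subset_image s))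
    have a : ∀ v, ∃ u, ∀ e ∈ H, v ∈ f e → u ∈ e := fun v => by
      by_cases k : v ∈ cov H
      · exact ⟨v, fun e he hv => h.old e he v hv k⟩
      by_cases k' : ∃ e ∈ H, v ∈ f e
      · obtain ⟨e, he, hv⟩ := k'
        obtain ⟨u, hu⟩ := h.ne e he
        exact ⟨u, fun e' he' hv' => h.dis e he e' he' v hv hv' k ▸ hu⟩
      · exact ⟨v, fun e he hv => absurd ⟨e, he, hv⟩ k'⟩
    choose φ hφ using a
    refine h2 ▸ (tau_le (T := T.image φ) fun e he => ?_).trans card_image_le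
    obtain ⟨v, h3, h4⟩ := h1 _ (mem_image_of_mem f he)
    exact ⟨φ v, hφ v e (s he) h3, mem_image_of_mem _ h4⟩

theorem Ext.erase (h : Ext H f) {e : Finset V} (he : e ∈ H) :
    (H.image f).erase (f e) = (H.erase e).image f := by
  ext x
  simp only [mem_erase, mem_image]
  constructor
  · rintro ⟨h1, y, hy, rfl⟩
    exact ⟨y, ⟨fun k => h1 (k ▸ rfl), hy⟩, rfl⟩
  · rintro ⟨y, ⟨h1, hy⟩, rfl⟩
    exact ⟨fun k => h1 (h.inj hy he k), y, hy, rfl⟩

theorem Ext.crit (h : Ext H f) (hc : Crit H) : Crit (H.image f) := fun x hx => by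
  obtain ⟨e, he, rfl⟩ := mem_image.1 hx
  rw [h.erase he, h.tau_eq (erase_subset _ _), h.tau_eq Subset.rfl]
  exact hc e he

theorem Ext.conn (h : Ext H f) (hc : Conn H) : Conn (H.image f) := fun W hW h1 h2 => by
  obtain ⟨S, hS, rfl⟩ := subset_image_iff.1 hW
  obtain ⟨u, hu, z, hz, h3, v, h4, h5⟩ := hc S hS (image_nonempty.1 h1) fun k => h2 (k ▸ rfl)
  refine ⟨f u, mem_image_of_mem f hu, f z, mem_image_of_mem f hz, fun k => ?_, v,
    h.sub u (hS hu) h4, h.sub z hz h5⟩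
  obtain ⟨y, hy, k'⟩ := mem_image.1 k
  exact h3 (h.inj (hS hy) hz k' ▸ hy)

theorem Ext.star_old (h : Ext H f) {v : V} (hv : v ∈ cov H) :
    star (H.image f) v = (star H v).image f := by
  ext x
  simp only [mem_star, mem_image]
  constructor
  · rintro ⟨⟨e, he, rfl⟩, k⟩
    exact ⟨e, ⟨he, h.old e he v k hv⟩, rfl⟩
  · rintro ⟨e, ⟨he, k⟩, rfl⟩
    exact ⟨⟨e, he, rfl⟩, h.sub e he k⟩

theorem Ext.dg_old (h : Ext H f) {v : V} (hv : v ∈ cov H) : dg (H.image f) v = dg H v := by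
  rw [dg, h.star_old hv, h.card_image (S := star H v) (filter_subset _ _), dg]

theorem Ext.dg_new (h : Ext H f) {v : V} (hv : v ∉ cov H) : dg (H.image f) v ≤ 1 :=
  card_le_one.2 fun x hx y hy => by
    obtain ⟨h1, h2⟩ := mem_star.1 hx
    obtain ⟨h3, h4⟩ := mem_star.1 hy
    obtain ⟨e, he, rfl⟩ := mem_image.1 h1
    obtain ⟨e', he', rfl⟩ := mem_image.1 h3
    rw [h.dis e he e' he' v h2 h4 hv]

theorem Ext.inter (h : Ext H f) {e e' : Finset V} (he : e ∈ H) (he' : e' ∈ H) (k : e ≠ e') :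
    f e ∩ f e' = e ∩ e' := by
  ext v
  simp only [mem_inter]
  refine ⟨fun ⟨h1, h2⟩ => ?_, fun ⟨h1, h2⟩ => ⟨h.sub e he h1, h.sub e' he' h2⟩⟩
  have hv : v ∈ cov H := by
    by_contra hv
    exact k (h.dis e he e' he' v h1 h2 hv)
  exact ⟨h.old e he v h1 hv, h.old e' he' v h2 hv⟩

theorem Ext.cov_sub (h : Ext H f) : cov H ⊆ cov (H.image f) := fun v hv => by
  obtain ⟨e, he, k⟩ := mem_cov.1 hv
  exact mem_cov.2 ⟨f e, mem_image_of_mem f he, h.sub e he k⟩

theorem Ext.card_cov (h : Ext H f) :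
    (cov (H.image f)).card = (cov H).card + ∑ e ∈ H, ((f e).card - e.card) := by
  have a : cov (H.image f) \ cov H = H.biUnion fun e => f e \ e := by
    ext v
    simp only [mem_sdiff, mem_biUnion]
    constructor
    · rintro ⟨h1, h2⟩
      obtain ⟨x, hx, k⟩ := mem_cov.1 h1
      obtain ⟨e, he, rfl⟩ := mem_image.1 hx
      exact ⟨e, he, k, fun k' => h2 (mem_cov.2 ⟨e, he, k'⟩)⟩
    · rintro ⟨e, he, h1, h2⟩
      exact ⟨mem_cov.2 ⟨f e, mem_image_of_mem f he, h1⟩, fun k => h2 (h.old e he v h1 k)⟩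
  have b := card_sdiff_add_card_eq_card h.cov_sub
  rw [a, card_biUnion fun e he e' he' k => disjoint_left.2 fun v h1 h2 =>
    k (h.dis e he e' he' v (mem_sdiff.1 h1).1 (mem_sdiff.1 h2).1
      fun m => (mem_sdiff.1 h1).2 (h.old e he v (mem_sdiff.1 h1).1 m)),
    sum_congr rfl fun e he => card_sdiff_of_subset (h.sub e he)] at b
  omega

/-- the new blocks of `f e` are private -/
theorem Ext.priv (h : Ext H f) {e : Finset V} (he : e ∈ H) :
    (f e).card - e.card ≤ ((f e).filter fun v => dg (H.image f) v ≤ 1).card := by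
  rw [← card_sdiff_of_subset (h.sub e he)]
  exact card_le_card fun v hv => mem_filter.2 ⟨(mem_sdiff.1 hv).1,
    h.dg_new fun k => (mem_sdiff.1 hv).2 (h.old e he v (mem_sdiff.1 hv).1 k)⟩

theorem exists_ext [Infinite V] (hH : NE H) (k : Finset V → ℕ) :
    ∃ f, Ext H f ∧ ∀ e ∈ H, (f e).card = e.card + k e := by
  classical
  have hi : ((cov H : Set V)ᶜ).Infinite := (cov H).finite_toSet.infinite_compl
  obtain ⟨g, g1, g2⟩ : ∃ g : ℕ → V, Function.Injective g ∧ ∀ i, g i ∉ cov H :=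
    ⟨fun i => hi.natEmbedding _ i, Subtype.val_injective.comp (hi.natEmbedding _).injective,
      fun i => (hi.natEmbedding _ i).2⟩
  obtain ⟨x, hx⟩ : ∃ x : Finset V → ℕ, Set.InjOn x H :=
    ⟨fun e => H.toList.idxOf e, fun e he e' he' m =>
      (List.idxOf_inj (mem_toList.2 he)).1 m⟩
  refine ⟨fun e => e ∪ (range (k e)).image fun i => g (Nat.pair (x e) i),
    ⟨hH, fun e _ => subset_union_left, fun e _ v hv m => ?_, fun e he e' he' v h1 h2 m => ?_⟩,
    fun e he => ?_⟩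
  · rcases mem_union.1 hv with h | h
    · exact h
    · obtain ⟨i, -, rfl⟩ := mem_image.1 h
      exact absurd m (g2 _)
  · obtain ⟨i, -, a⟩ := mem_image.1 ((mem_union.1 h1).resolve_left
      fun k => m (mem_cov.2 ⟨e, he, k⟩))
    obtain ⟨j, -, b⟩ := mem_image.1 ((mem_union.1 h2).resolve_left
      fun k => m (mem_cov.2 ⟨e', he', k⟩))
    exact hx he he' (Nat.pair_eq_pair.1 (g1 (a.trans b.symm))).1
  · rw [card_union_of_disjoint (disjoint_left.2 fun v h1 h2 => by
      obtain ⟨i, -, rfl⟩ := mem_image.1 h2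
      exact g2 _ (mem_cov.2 ⟨e, he, h1⟩)), card_image_of_injective _ fun i j m =>
        (Nat.pair_eq_pair.1 (g1 m)).2, card_range]

end Pool.Agent.Work.MP_d266e7_co.Mix
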