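import Pool.Agent.Work.MP_d266e7_co.Full.Mix

/-!
Operations on families with members of arbitrary sizes: pair and triple gadgets, refinement,
merging two members to their intersection, enlarging a member, replacing a piece by one member,
unfolding by private vertices.
-/

namespace Pool.Agent.Work.MP_d266e7_co.C5.P24

open Finset

variable {V : Type} [DecidableEq V]

theorem ne_insert {W : Finset (Finset V)} {x : Finset V} (hx : x.Nonempty) (h : NE W) :
    NE (insert x W) := fun e he => by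
  rcases mem_insert.1 he with rfl | he
  exacts [hx, h e he]

theorem ne_of_dd {W : Finset (Finset V)} {x : Finset V} (h : 1 ≤ dd W x) : x.Nonempty :=
  (card_pos.1 h).mono inter_subset_left

theorem dg_erase {H : Finset (Finset V)} {x : Finset V} (hx : x ∈ H) (v : V) :
    dg (H.erase x) v + (if v ∈ x then 1 else 0) = dg H v := by
  rw [← pair_dg_insert (notMem_erase x H), insert_erase hx]

theorem dg_zero {W : Finset (Finset V)} {v : V} (hv : v ∉ cov W) : dg W v = 0 := by
  by_contra h0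
  exact hv (dg_pos.1 (Nat.one_le_iff_ne_zero.2 h0))

theorem star_insert {W : Finset (Finset V)} {x : Finset V} {v : V} :
    star (insert x W) v = if v ∈ x then insert x (star W v) else star W v := filter_insert _ _ _

/-- two new nodes on non-joint vertex families of `W` with a common vertex -/
structure MEar (W : Finset (Finset V)) (a b : Finset V) : Prop where
  mc : MC W
  cross : Cross W (a ∩ cov W) (b ∩ cov W)
  da : 1 ≤ dd W a
  db : 1 ≤ dd W b
  com : (a ∩ b).Nonempty

theorem mear_of_cross {W : Finset (Finset V)} {x y : Finset V} (hW : MC W) (h : Cross W x y)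
    (h1 : 1 ≤ dd W x) (h2 : 1 ≤ dd W y) (hc : (x ∩ y).Nonempty) : MEar W x y :=
  ⟨hW, h.mono inter_subset_left inter_subset_left, h1, h2, hc⟩

theorem cross_of_nj {W : Finset (Finset V)} {x y : Finset V} (h : NJ W x y) : Cross W x y :=
  fun _ hC hc _ hv _ hw a b => h.no_cover hC hc hv hw a b

/-- fresh nodes on `A`, `B` with `k` common and `p`, `q` own new vertices outside `O` -/
theorem exists_mear [Infinite V] {W : Finset (Finset V)} (hW : MC W) {A B : Finset V}
    (hA : A ⊆ cov W) (hB : B ⊆ cov W) (hc : Cross W A B) (h1 : A.Nonempty) (h2 : B.Nonempty)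
    {k : ℕ} (hk : 1 ≤ k) (p q : ℕ) (O : Finset V) :
    ∃ Sh P Q : Finset V, MEar W (A ∪ (Sh ∪ P)) (B ∪ (Sh ∪ Q)) ∧ Sh.card = k ∧ P.card = p ∧
      Q.card = q ∧ Disjoint (Sh ∪ P ∪ Q) (cov W ∪ O) ∧ Disjoint Sh P ∧ Disjoint Sh Q ∧
      Disjoint P Q ∧ (A ∪ (Sh ∪ P)) ∩ cov W = A ∧ (B ∪ (Sh ∪ Q)) ∩ cov W = B ∧
      (A ∪ (Sh ∪ P)) ∩ (B ∪ (Sh ∪ Q)) = Sh ∧ (A ∪ (Sh ∪ P)).card = A.card + k + p ∧
      (B ∪ (Sh ∪ Q)).card = B.card + k + q := by
  obtain ⟨Sh, hSh, dSh⟩ := exists_fresh (cov W ∪ O) k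
  obtain ⟨P, hP, dP⟩ := exists_fresh (cov W ∪ O ∪ Sh) p
  obtain ⟨Q, hQ, dQ⟩ := exists_fresh (cov W ∪ O ∪ Sh ∪ P) q
  simp only [disjoint_union_right] at dSh dP dQ
  have nSh : ∀ v ∈ Sh, v ∉ cov W := fun v hv => disjoint_left.1 dSh.1 hv
  have nP : ∀ v ∈ P, v ∉ cov W := fun v hv => disjoint_left.1 dP.1.1 hv
  have nQ : ∀ v ∈ Q, v ∉ cov W := fun v hv => disjoint_left.1 dQ.1.1.1 hv
  have nQP : ∀ v ∈ Q, v ∉ P := fun v hv => disjoint_left.1 dQ.2 hv
  have hAB : ∀ v ∈ A, v ∉ B := fun v a => disjoint_left.1 (hW.cross_disjoint hA hc) a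
  have cP : (Sh ∪ P).card = Sh.card + P.card := card_union_of_disjoint dP.2.symm
  have cQ : (Sh ∪ Q).card = Sh.card + Q.card := card_union_of_disjoint dQ.1.2.symm
  have ca : (A ∪ (Sh ∪ P)).card = A.card + k + p := by
    rw [card_union_of_disjoint (disjoint_right.2 fun v hv h =>
      (mem_union.1 hv).elim (fun h' => nSh v h' (hA h)) (fun h' => nP v h' (hA h)))]
    omega
  have cb : (B ∪ (Sh ∪ Q)).card = B.card + k + q := by
    rw [card_union_of_disjoint (disjoint_right.2 fun v hv h =>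
      (mem_union.1 hv).elim (fun h' => nSh v h' (hB h)) (fun h' => nQ v h' (hB h)))]
    omega
  have ea : (A ∪ (Sh ∪ P)) ∩ cov W = A := by
    ext v
    simp only [mem_inter, mem_union]
    have := @hA v
    have := nSh v
    have := nP v
    tauto
  have eb : (B ∪ (Sh ∪ Q)) ∩ cov W = B := by
    ext v
    simp only [mem_inter, mem_union]
    have := @hB v
    have := nSh v
    have := nQ v
    tauto
  have ec : (A ∪ (Sh ∪ P)) ∩ (B ∪ (Sh ∪ Q)) = Sh := by
    ext v
    simp only [mem_inter, mem_union]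
    refine ⟨?_, fun h => ⟨Or.inr (Or.inl h), Or.inr (Or.inl h)⟩⟩
    rintro ⟨x | x | x, y | y | y⟩
    · exact absurd y (hAB v x)
    · exact y
    · exact absurd (hA x) (nQ v y)
    · exact x
    · exact x
    · exact x
    · exact absurd (hB y) (nP v x)
    · exact y
    · exact absurd x (nQP v y)
  refine ⟨Sh, P, Q, ⟨hW, ?_, ?_, ?_, ?_⟩, hSh, hP, hQ, ?_, dP.2.symm, dQ.1.2.symm, dQ.2.symm,
    ea, eb, ec, ca, cb⟩
  · rwa [ea, eb]
  · rw [dd, ea]; exact card_pos.2 h1
  · rw [dd, eb]; exact card_pos.2 h2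
  · rw [ec]
    exact card_pos.1 (by omega)
  · simp only [disjoint_union_left, disjoint_union_right]
    exact ⟨⟨⟨dSh.1, dP.1.1⟩, dQ.1.1.1⟩, ⟨dSh.2, dP.1.2⟩, dQ.1.1.2⟩

namespace MEar

variable {W : Finset (Finset V)} {a b : Finset V}

theorem symm (h : MEar W a b) : MEar W b a :=
  ⟨h.mc, h.cross.symm, h.db, h.da, inter_comm a b ▸ h.com⟩

theorem out (h : MEar W a b) {v : V} (ha : v ∈ a) (hb : v ∈ b) : v ∉ cov W := fun hv =>
  disjoint_left.1 (h.mc.cross_disjoint inter_subset_right h.cross) (mem_inter.2 ⟨ha, hv⟩)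
    (mem_inter.2 ⟨hb, hv⟩)

theorem aW (h : MEar W a b) : a ∉ W := by
  obtain ⟨s, hs⟩ := h.com
  exact fun e => h.out (mem_inter.1 hs).1 (mem_inter.1 hs).2 (mem_cov.2 ⟨a, e, (mem_inter.1 hs).1⟩)

theorem bW (h : MEar W a b) : b ∉ W := h.symm.aW

theorem ne (h : MEar W a b) : a ≠ b := by
  intro e
  obtain ⟨v, hv⟩ := card_pos.1 h.da
  exact h.out (mem_inter.1 hv).1 (e ▸ (mem_inter.1 hv).1) (mem_inter.1 hv).2

theorem abW (h : MEar W a b) : a ∉ insert b W := fun e => (mem_insert.1 e).elim h.ne h.aW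

theorem nes (h : MEar W a b) : NE (insert a (insert b W)) :=
  ne_insert (ne_of_dd h.da) (ne_insert (ne_of_dd h.db) h.mc.nes)

theorem card_ins (h : MEar W a b) : (insert a (insert b W)).card = W.card + 2 := by
  rw [card_insert_of_notMem h.abW, card_insert_of_notMem h.bW]

theorem sum_ins {M : Type} [AddCommMonoid M] (h : MEar W a b) (f : Finset V → M) :
    ∑ x ∈ insert a (insert b W), f x = f a + (f b + ∑ x ∈ W, f x) := by
  rw [sum_insert h.abW, sum_insert h.bW]

theorem tau_ins (h : MEar W a b) : tau (insert a (insert b W)) = tau W + 1 := by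
  obtain ⟨s, hs⟩ := h.com
  refine le_antisymm (tau_le_succ h.mc.nes s fun e he => ?_) ?_
  · rcases mem_insert.1 he with rfl | he
    · exact Or.inr (mem_inter.1 hs).1
    rcases mem_insert.1 he with rfl | he
    · exact Or.inr (mem_inter.1 hs).2
    · exact Or.inl he
  · by_contra hlt
    obtain ⟨C, c1, c2⟩ := exists_opt h.nes
    have c3 : Hits C W := fun e he => c1 e (mem_insert_of_mem (mem_insert_of_mem he))
    have c4 : C.card ≤ tau W := by omega
    have c5 := min_sub c3 c4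
    obtain ⟨v, a1, a2⟩ := c1 a (mem_insert_self _ _)
    obtain ⟨w, b1, b2⟩ := c1 b (mem_insert_of_mem (mem_insert_self _ _))
    exact h.cross C c3 c4 v (mem_inter.2 ⟨a1, c5 a2⟩) w (mem_inter.2 ⟨b1, c5 b2⟩) a2 b2

theorem mc_ins (h : MEar W a b) : MC (insert a (insert b W)) := by
  obtain ⟨s, hs⟩ := h.com
  refine ⟨h.nes, fun e he => ?_, ?_, insert_nonempty _ _⟩
  · rw [h.tau_ins]
    rcases mem_insert.1 he with rfl | he
    · rw [erase_insert h.abW]
      exact Nat.lt_succ_of_le (h.mc.absorb h.db)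
    rcases mem_insert.1 he with rfl | he
    · rw [Finset.insert_comm, erase_insert h.symm.abW]
      exact Nat.lt_succ_of_le (h.mc.absorb h.da)
    · have h5 := h.mc.crit e he
      have h6 : tau ((insert a (insert b W)).erase e) ≤ tau (W.erase e) + 1 :=
        tau_le_succ (h.mc.nes.mono (erase_subset _ _)) s fun f hf => by
          obtain ⟨f1, f2⟩ := mem_erase.1 hf
          rcases mem_insert.1 f2 with rfl | f2
          · exact Or.inr (mem_inter.1 hs).1
          rcases mem_insert.1 f2 with rfl | f2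
          · exact Or.inr (mem_inter.1 hs).2
          · exact Or.inl (mem_erase.2 ⟨f1, f2⟩)
      omega
  · obtain ⟨w, hw, haw⟩ := dd_pos.1 h.da
    obtain ⟨w', hw', hbw⟩ := dd_pos.1 h.db
    exact pair_conn_insert (pair_conn_insert h.mc.conn ⟨w', hw', hbw⟩)
      ⟨w, mem_insert_of_mem hw, haw⟩

theorem cov_ins (_h : MEar W a b) :
    (cov (insert a (insert b W))).card = (cov W).card + ((a ∪ b) \ cov W).card := by
  rw [pair_cov_insert, pair_cov_insert, ← union_assoc, ← card_sdiff_add_card, add_comm]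

theorem new_card (h : MEar W a b) :
    ((a ∪ b) \ cov W).card + dd W a + dd W b + (a ∩ b).card = a.card + b.card := by
  have e1 := card_sdiff_add_card_inter (a ∪ b) (cov W)
  have e2 := card_union_add_card_inter a b
  have e3 : ((a ∪ b) ∩ cov W).card = dd W a + dd W b := by
    rw [union_inter_distrib_right]
    exact card_union_of_disjoint (disjoint_left.2 fun v h1 h2 =>
      h.out (mem_inter.1 h1).1 (mem_inter.1 h2).1 (mem_inter.1 h1).2)
  omega

theorem dg_ins (h : MEar W a b) (v : V) : dg (insert a (insert b W)) v =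
    dg W v + (if v ∈ a then 1 else 0) + if v ∈ b then 1 else 0 := by
  rw [pair_dg_insert h.abW, pair_dg_insert h.bW, add_right_comm]

end MEar

/-- three new nodes through a new vertex `s`, pairwise joint, not joint all three -/
structure MTri (W : Finset (Finset V)) (a b c : Finset V) (s : V) : Prop where
  mc : MC W
  sa : s ∈ a
  sb : s ∈ b
  sc : s ∈ c
  sW : s ∉ cov W
  no : No3 W a b c
  jab : Jt W a b
  jac : Jt W a c
  jbc : Jt W b c

theorem MTri.aW {W : Finset (Finset V)} {a b c : Finset V} {s : V} (h : MTri W a b c s) :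
    a ∉ W ∧ b ∉ W ∧ c ∉ W ∧ a ≠ b ∧ a ≠ c ∧ b ≠ c := by
  have n : ∀ e, s ∈ e → e ∉ W := fun e he k => h.sW (mem_cov.2 ⟨e, k, he⟩)
  refine ⟨n a h.sa, n b h.sb, n c h.sc, fun e => ?_, fun e => ?_, fun e => ?_⟩
  · obtain ⟨C, c1, c2, c3, c4⟩ := h.jac
    exact h.no C c1 c2 c3 (e ▸ c3) c4
  · obtain ⟨C, c1, c2, c3, c4⟩ := h.jab
    exact h.no C c1 c2 c3 c4 (e ▸ c3)
  · obtain ⟨C, c1, c2, c3, c4⟩ := h.jab
    exact h.no C c1 c2 c3 c4 (e ▸ c4)

theorem MTri.main {W : Finset (Finset V)} {a b c : Finset V} {s : V} (h : MTri W a b c s) :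
    MC (insert a (insert b (insert c W))) ∧
      tau (insert a (insert b (insert c W))) = tau W + 1 := by
  obtain ⟨X, hX⟩ : ∃ X, X = insert a (insert b (insert c W)) := ⟨_, rfl⟩
  rw [← hX]
  have mem : ∀ e, e ∈ X ↔ e = a ∨ e = b ∨ e = c ∨ e ∈ W := fun e => by
    rw [hX, mem_insert, mem_insert, mem_insert]
  have sub : W ⊆ X := fun e he => (mem e).2 (.inr (.inr (.inr he)))
  have ma : a ∈ X := (mem a).2 (.inl rfl)
  have mb : b ∈ X := (mem b).2 (.inr (.inl rfl))
  have mc : c ∈ X := (mem c).2 (.inr (.inr (.inl rfl)))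
  have u5 : NE X := fun e he => by
    rcases (mem e).1 he with rfl | rfl | rfl | k
    exacts [⟨s, h.sa⟩, ⟨s, h.sb⟩, ⟨s, h.sc⟩, h.mc.nes e k]
  have t1 : tau W < tau X := by
    obtain ⟨T, hT, e⟩ := exists_opt u5
    by_contra hn
    exact h.no T (fun f hf => hT f (sub hf)) (e.trans_le (not_lt.1 hn)) (hT a ma) (hT b mb)
      (hT c mc)
  have t2 : tau X ≤ tau W + 1 := tau_le_succ h.mc.nes s fun e he => by
    rcases (mem e).1 he with rfl | rfl | rfl | k
    exacts [.inr h.sa, .inr h.sb, .inr h.sc, .inl k]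
  have adj : ∀ e f, Jt W e f → (∃ w ∈ W, Adj e w) ∧ ∃ w ∈ W, Adj f w := by
    rintro e f ⟨C, c1, c2, ⟨v, v1, v2⟩, u, u1, u2⟩
    obtain ⟨w, w1, w2⟩ := mem_cov.1 (min_sub c1 c2 v2)
    obtain ⟨w', w1', w2'⟩ := mem_cov.1 (min_sub c1 c2 u2)
    exact ⟨⟨w, w1, v, v1, w2⟩, w', w1', u, u1, w2'⟩
  refine ⟨⟨u5, fun e he => lt_of_le_of_lt ?_ t1, triple_conn h.mc.conn sub fun e he => ?_,
    ⟨a, ma⟩⟩, by omega⟩
  · rcases (mem e).1 he with rfl | rfl | rfl | k
    · obtain ⟨C, c1, c2, c3, c4⟩ := h.jbc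
      refine (tau_le fun f hf => ?_).trans c2
      rcases (mem f).1 (mem_of_mem_erase hf) with k | rfl | rfl | k
      exacts [absurd k (ne_of_mem_erase hf), c3, c4, c1 f k]
    · obtain ⟨C, c1, c2, c3, c4⟩ := h.jac
      refine (tau_le fun f hf => ?_).trans c2
      rcases (mem f).1 (mem_of_mem_erase hf) with rfl | k | rfl | k
      exacts [c3, absurd k (ne_of_mem_erase hf), c4, c1 f k]
    · obtain ⟨C, c1, c2, c3, c4⟩ := h.jab
      refine (tau_le fun f hf => ?_).trans c2
      rcases (mem f).1 (mem_of_mem_erase hf) with rfl | rfl | k | k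
      exacts [c3, c4, absurd k (ne_of_mem_erase hf), c1 f k]
    · refine (tau_le_succ (h.mc.nes.mono (erase_subset e W)) s fun f hf => ?_).trans
        (h.mc.crit e k)
      rcases (mem f).1 (mem_of_mem_erase hf) with rfl | rfl | rfl | k'
      exacts [.inr h.sa, .inr h.sb, .inr h.sc, .inl (mem_erase.2 ⟨ne_of_mem_erase hf, k'⟩)]
  · rcases (mem e).1 he with rfl | rfl | rfl | k
    · exact (adj _ _ h.jab).1
    · exact (adj _ _ h.jab).2
    · exact (adj _ _ h.jac).2
    · obtain ⟨v, hv⟩ := h.mc.nes e k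
      exact ⟨e, k, v, hv, hv⟩

/-- every member of `H` contains a member of `G` -/
theorem tau_refine {H G : Finset (Finset V)} (hG : NE G) (h : ∀ e ∈ H, ∃ f ∈ G, f ⊆ e) :
    tau H ≤ tau G := by
  obtain ⟨T, hT, e⟩ := exists_opt hG
  refine e ▸ tau_le fun x hx => ?_
  obtain ⟨f, f1, f2⟩ := h x hx
  obtain ⟨v, a, b⟩ := hT f f1
  exact ⟨v, f2 a, b⟩

theorem tau_refine_succ {H G : Finset (Finset V)} (hG : NE G) (t : V)
    (h : ∀ e ∈ H, (∃ f ∈ G, f ⊆ e) ∨ t ∈ e) : tau H ≤ tau G + 1 := by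
  obtain ⟨T, hT, e⟩ := exists_opt hG
  refine (tau_le (T := insert t T) fun x hx => ?_).trans (e ▸ card_insert_le _ _)
  rcases h x hx with ⟨f, f1, f2⟩ | k
  · obtain ⟨v, a, b⟩ := hT f f1
    exact ⟨v, f2 a, mem_insert_of_mem b⟩
  · exact ⟨t, k, mem_insert_self _ _⟩

/-- the two members `c`, `w` replaced by their intersection -/
def mrg (H : Finset (Finset V)) (c w : Finset V) : Finset (Finset V) :=
  insert (c ∩ w) ((H.erase c).erase w)

theorem mem_mrg {H : Finset (Finset V)} {c w e : Finset V} :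
    e ∈ mrg H c w ↔ e = c ∩ w ∨ (e ∈ H ∧ e ≠ c ∧ e ≠ w) := by
  simp only [mrg, mem_insert, mem_erase]
  tauto

theorem mrg_comm (H : Finset (Finset V)) (c w : Finset V) : mrg H c w = mrg H w c := by
  rw [mrg, mrg, inter_comm, erase_right_comm]

theorem mrg_ne {H : Finset (Finset V)} {c w : Finset V} (h : NE H) (hs : (c ∩ w).Nonempty) :
    NE (mrg H c w) := ne_insert hs (h.mono ((erase_subset _ _).trans (erase_subset _ _)))

theorem MC.core_not {H : Finset (Finset V)} (h : MC H) {c w : Finset V} (hc : c ∈ H) :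
    c ∩ w ∉ (H.erase c).erase w := fun k =>
  ne_of_mem_erase (mem_of_mem_erase k)
    (h.not_sub (mem_of_mem_erase (mem_of_mem_erase k)) hc inter_subset_left)

theorem MC.mrg_tau {H : Finset (Finset V)} (h : MC H) {c w : Finset V} (hc : c ∈ H)
    (hs : (c ∩ w).Nonempty) : tau (mrg H c w) = tau H := by
  refine le_antisymm ?_ (tau_refine (mrg_ne h.nes hs) fun e he => ?_)
  · obtain ⟨s, hs⟩ := hs
    obtain ⟨C, c1, c2, c3⟩ := h.cover_mem (mem_cov.2 ⟨c, hc, (mem_inter.1 hs).1⟩)
    refine c2 ▸ tau_le fun e he => ?_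
    rcases mem_mrg.1 he with rfl | k
    exacts [⟨s, hs, c3⟩, c1 e k.1]
  · by_cases k : e = c
    · exact ⟨_, mem_insert_self _ _, k ▸ inter_subset_left⟩
    by_cases k' : e = w
    · exact ⟨_, mem_insert_self _ _, k' ▸ inter_subset_right⟩
    · exact ⟨e, mem_mrg.2 (Or.inr ⟨he, k, k'⟩), Subset.rfl⟩

/-- the merged node is critical -/
theorem MC.mrg_crit {H : Finset (Finset V)} (h : MC H) {c w : Finset V} (hc : c ∈ H)
    (hs : (c ∩ w).Nonempty) : tau ((mrg H c w).erase (c ∩ w)) < tau (mrg H c w) := by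
  rw [h.mrg_tau hc hs, mrg, erase_insert (h.core_not hc)]
  exact (tau_mono (h.nes.mono (erase_subset _ _)) (erase_subset _ _)).trans_lt (h.crit c hc)

theorem MC.two_tau {H : Finset (Finset V)} (h : MC H) {c w : Finset V} (hc : c ∈ H)
    (hs : (c ∩ w).Nonempty) : tau ((H.erase c).erase w) + 1 = tau H := by
  have h1 := h.mrg_crit hc hs
  rw [h.mrg_tau hc hs, mrg, erase_insert (h.core_not hc)] at h1
  obtain ⟨s, hs⟩ := hs
  have := tau_le_succ (S := H) (h.nes.mono ((erase_subset w _).trans (erase_subset c H))) s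
    fun e he => by
      by_cases k : e = c
      · exact Or.inr (k ▸ (mem_inter.1 hs).1)
      by_cases k' : e = w
      · exact Or.inr (k' ▸ (mem_inter.1 hs).2)
      · exact Or.inl (mem_erase.2 ⟨k', mem_erase.2 ⟨k, he⟩⟩)
  omega

theorem mrg_cov {H : Finset (Finset V)} {c w : Finset V} (hc : c ∈ H) :
    cov (mrg H c w) ⊆ cov H := fun v hv => by
  obtain ⟨e, he, a⟩ := mem_cov.1 hv
  rcases mem_mrg.1 he with rfl | k
  exacts [mem_cov.2 ⟨c, hc, (mem_inter.1 a).1⟩, mem_cov.2 ⟨e, k.1, a⟩]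

/-- enlarge the member `z` by vertices that no small transversal of the rest contains -/
theorem MC.rewire {W : Finset (Finset V)} (h : MC W) {z z' : Finset V} (hz : z ∈ W) (hs : z ⊆ z')
    (hn : ∀ C, Hits C (W.erase z) → C.card < tau W → ∀ v ∈ z', v ∉ z → v ∉ C) :
    z' ∉ W.erase z ∧ MC (insert z' (W.erase z)) ∧ tau (insert z' (W.erase z)) = tau W := by
  have n0 : NE (W.erase z) := h.nes.mono (erase_subset _ _)
  have n1 : NE (insert z' (W.erase z)) := ne_insert ((h.nes z hz).imp fun _ a => hs a) n0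
  have h0 : z' ∉ W.erase z := fun k =>
    ne_of_mem_erase k (h.not_sub hz (mem_of_mem_erase k) hs).symm
  have ref : ∀ R ⊆ W, ∀ Y : Finset (Finset V), (∀ e ∈ Y, e ∈ R ∨ (e = z' ∧ z ∈ R)) →
      tau Y ≤ tau R := fun R hR Y hY => tau_refine (h.nes.mono hR) fun e he => by
    rcases hY e he with k | ⟨rfl, k⟩
    exacts [⟨e, k, Subset.rfl⟩, ⟨z, k, hs⟩]
  have t : tau (insert z' (W.erase z)) = tau W := by
    refine le_antisymm (ref W Subset.rfl _ fun e he => ?_) ?_
    · rcases mem_insert.1 he with k | k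
      exacts [Or.inr ⟨k, hz⟩, Or.inl (mem_of_mem_erase k)]
    · obtain ⟨C, c1, c2⟩ := exists_opt n1
      by_contra c
      have c3 : Hits C (W.erase z) := fun e he => c1 e (mem_insert_of_mem he)
      obtain ⟨v, a, b⟩ := c1 z' (mem_insert_self _ _)
      have : tau W ≤ C.card := tau_le fun e he => by
        by_cases k : e = z
        · exact ⟨v, k ▸ by_contra fun d => hn C c3 (by omega) v a d b, b⟩
        · exact c3 e (mem_erase.2 ⟨k, he⟩)
      omega
  refine ⟨h0, ⟨n1, fun e he => ?_, fun U hU hne hUne => ?_, insert_nonempty _ _⟩, t⟩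
  · rw [t]
    rcases mem_insert.1 he with rfl | he
    · rw [erase_insert h0]
      exact h.crit z hz
    · refine (ref (W.erase e) (erase_subset _ _) _ fun f hf => ?_).trans_lt
        (h.crit e (mem_of_mem_erase he))
      rcases mem_insert.1 (mem_of_mem_erase hf) with k | k
      · exact Or.inr ⟨k, mem_erase.2 ⟨(ne_of_mem_erase he).symm, hz⟩⟩
      · exact Or.inl (mem_erase.2 ⟨ne_of_mem_erase hf, mem_of_mem_erase k⟩)
  · have key : ∀ U ⊆ insert z' (W.erase z), U.Nonempty → z' ∉ U →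
        ∃ u ∈ U, ∃ y ∈ insert z' (W.erase z), y ∉ U ∧ Adj u y := fun U hU hne k => by
      have s : U ⊆ W.erase z := fun e he => (mem_insert.1 (hU he)).resolve_left fun c => k (c ▸ he)
      obtain ⟨u, hu, y, hy, hy', v, v1, v2⟩ := h.conn U (s.trans (erase_subset _ _)) hne
        fun c => notMem_erase z W (s (c ▸ hz))
      by_cases c : y = z
      · exact ⟨u, hu, z', mem_insert_self _ _, k, v, v1, hs (c ▸ v2)⟩
      · exact ⟨u, hu, y, mem_insert_of_mem (mem_erase.2 ⟨c, hy⟩), hy', v, v1, v2⟩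
    by_cases k : z' ∈ U
    · obtain ⟨u, hu, y, hy, hy', a⟩ := key (insert z' (W.erase z) \ U) sdiff_subset
        (sdiff_nonempty.2 fun c => hUne (Subset.antisymm hU c)) fun c => (mem_sdiff.1 c).2 k
      exact ⟨y, by_contra fun c => hy' (mem_sdiff.2 ⟨hy, c⟩), u, (mem_sdiff.1 hu).1,
        (mem_sdiff.1 hu).2, a.symm⟩
    · exact key U hU hne k

/-- replace the piece `W` by one member `u` -/
theorem replace_tau {H W : Finset (Finset V)} (hH : NE H) (hW : MC W) {u : Finset V}
    (hu : u.Nonempty) (h : ∀ v ∈ u, v ∈ cov W ∨ v ∉ cov (H \ W)) :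
    tau H + 1 ≤ tau (insert u (H \ W)) + tau W := by
  obtain ⟨T, hT, e⟩ := exists_opt (ne_insert hu (hH.mono (sdiff_subset (t := W))))
  obtain ⟨b, b1, b2⟩ := hT u (mem_insert_self _ _)
  have fin : ∀ C, Hits C W → C.card = tau W → (b ∈ C ∨ b ∉ cov (H \ W)) →
      tau H + 1 ≤ T.card + tau W := fun C c1 c2 c3 => by
    have : tau H ≤ (T.erase b ∪ C).card := tau_le fun f hf => by
      by_cases k : f ∈ W
      · obtain ⟨v, a, b⟩ := c1 f k
        exact ⟨v, a, mem_union_right _ b⟩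
      · have k' := mem_sdiff.2 ⟨hf, k⟩
        obtain ⟨v, a, d⟩ := hT f (mem_insert_of_mem k')
        by_cases c : v = b
        · exact ⟨v, a, mem_union_right _ (c ▸ c3.resolve_right fun n =>
            n (mem_cov.2 ⟨f, k', c ▸ a⟩))⟩
        · exact ⟨v, a, mem_union_left _ (mem_erase.2 ⟨c, d⟩)⟩
    have := card_union_le (T.erase b) C
    have := card_erase_add_one b2
    omega
  rw [← e]
  rcases h b b1 with k | k
  · obtain ⟨C, c1, c2, c3⟩ := hW.cover_mem k
    exact fin C c1 c2 (Or.inl c3)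
  · obtain ⟨C, c1, c2⟩ := exists_opt hW.nes
    exact fin C c1 c2 (Or.inr k)

/-- every member gets its own new vertices -/
structure Unf (G : Finset (Finset V)) (f : Finset V → Finset V) : Prop where
  old : ∀ e ∈ G, f e ∩ cov G = e
  own : ∀ e ∈ G, ∀ e' ∈ G, e ≠ e' → ∀ v ∈ f e, v ∈ f e' → v ∈ cov G

theorem exists_unf [Infinite V] (G : Finset (Finset V)) (k : Finset V → ℕ) :
    ∃ f, Unf G f ∧ ∀ e ∈ G, (f e).card = e.card + k e := by
  have key : ∀ (O : Finset V) (R : Finset (Finset V)), ∃ g : Finset V → Finset V,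
      (∀ e ∈ R, (g e).card = k e ∧ Disjoint (g e) O) ∧
      ∀ e ∈ R, ∀ e' ∈ R, e ≠ e' → Disjoint (g e) (g e') := fun O R => by
    induction R using Finset.induction_on with
    | empty => exact ⟨id, by simp, by simp⟩
    | insert x R hx ih =>
      obtain ⟨g, g1, g2⟩ := ih
      obtain ⟨Y, y1, y2⟩ := exists_fresh (O ∪ R.biUnion g) (k x)
      rw [disjoint_union_right, disjoint_biUnion_right] at y2
      have u : ∀ e ∈ R, Function.update g x Y e = g e := fun e he =>
        Function.update_of_ne (fun c : e = x => hx (c ▸ he)) _ _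
      refine ⟨Function.update g x Y, fun e he => ?_, fun e he e' he' c => ?_⟩
      · rcases mem_insert.1 he with rfl | he
        · rw [Function.update_self]; exact ⟨y1, y2.1⟩
        · rw [u e he]; exact g1 e he
      · rcases mem_insert.1 he with rfl | a <;> rcases mem_insert.1 he' with rfl | b
        · exact absurd rfl c
        · rw [Function.update_self, u e' b]; exact y2.2 e' b
        · rw [Function.update_self, u e a]; exact (y2.2 e a).symm
        · rw [u e a, u e' b]; exact g2 e a e' b c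
  obtain ⟨g, g1, g2⟩ := key (cov G) G
  have s : ∀ e ∈ G, e ⊆ cov G := fun e he v hv => mem_cov.2 ⟨e, he, hv⟩
  refine ⟨fun e => e ∪ g e, ⟨fun e he => ?_, fun e he e' he' c v a b => ?_⟩, fun e he => ?_⟩
  · rw [union_inter_distrib_right, inter_eq_left.2 (s e he),
      disjoint_iff_inter_eq_empty.1 (g1 e he).2, union_empty]
  · rcases mem_union.1 a with a | a
    · exact s e he a
    rcases mem_union.1 b with b | b
    · exact s e' he' b
    · exact absurd b (disjoint_left.1 (g2 e he e' he' c) a)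
  · rw [card_union_of_disjoint ((g1 e he).2.mono_right (s e he)).symm, (g1 e he).1]

namespace Unf

variable {G : Finset (Finset V)} {f : Finset V → Finset V}

theorem sub (h : Unf G f) {e : Finset V} (he : e ∈ G) : e ⊆ f e := by
  conv_lhs => rw [← h.old e he]
  exact inter_subset_left

theorem mem (h : Unf G f) {e : Finset V} (he : e ∈ G) {v : V} (hv : v ∈ cov G) :
    v ∈ f e ↔ v ∈ e := ⟨fun a => h.old e he ▸ mem_inter.2 ⟨a, hv⟩, fun a => h.sub he a⟩

theorem inj (h : Unf G f) : Set.InjOn f G := fun e he e' he' c => by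
  rw [← h.old e he, ← h.old e' he', c]

theorem inter (h : Unf G f) {e e' : Finset V} (he : e ∈ G) (he' : e' ∈ G) (c : e ≠ e') :
    f e ∩ f e' = e ∩ e' := by
  ext v
  simp only [mem_inter]
  exact ⟨fun a => ⟨(h.mem he (h.own e he e' he' c v a.1 a.2)).1 a.1,
    (h.mem he' (h.own e he e' he' c v a.1 a.2)).1 a.2⟩, fun a => ⟨h.sub he a.1, h.sub he' a.2⟩⟩

theorem eq_self (h : Unf G f) {e : Finset V} (he : e ∈ G) (c : (f e).card ≤ e.card) : f e = e :=
  (eq_of_subset_of_card_le (h.sub he) c).symm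

theorem card_im (h : Unf G f) {R : Finset (Finset V)} (hR : R ⊆ G) : (R.image f).card = R.card :=
  card_image_of_injOn (h.inj.mono hR)

theorem nes (h : Unf G f) (hG : NE G) : NE (G.image f) := fun x hx => by
  obtain ⟨e, he, rfl⟩ := mem_image.1 hx
  exact (hG e he).imp fun _ a => h.sub he a

theorem star_old (h : Unf G f) {v : V} (hv : v ∈ cov G) :
    star (G.image f) v = (star G v).image f := by
  ext x
  simp only [mem_star, mem_image]
  constructor
  · rintro ⟨⟨e, he, rfl⟩, a⟩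
    exact ⟨e, ⟨he, (h.mem he hv).1 a⟩, rfl⟩
  · rintro ⟨e, ⟨he, a⟩, rfl⟩
    exact ⟨⟨e, he, rfl⟩, h.sub he a⟩

theorem dg_old (h : Unf G f) {v : V} (hv : v ∈ cov G) : dg (G.image f) v = dg G v := by
  rw [dg, h.star_old hv, h.card_im (R := star G v) (filter_subset _ _), dg]

theorem dg_new (h : Unf G f) {v : V} (hv : v ∉ cov G) : dg (G.image f) v ≤ 1 := by
  refine card_le_one.2 fun x hx y hy => ?_
  obtain ⟨e, he, rfl⟩ := mem_image.1 (mem_star.1 hx).1
  obtain ⟨e', he', rfl⟩ := mem_image.1 (mem_star.1 hy).1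
  by_contra c
  exact hv (h.own e he e' he' (fun k => c (k ▸ rfl)) v (mem_star.1 hx).2 (mem_star.1 hy).2)

theorem cov_sub (h : Unf G f) : cov G ⊆ cov (G.image f) := fun v hv => by
  obtain ⟨e, he, a⟩ := mem_cov.1 hv
  exact mem_cov.2 ⟨f e, mem_image_of_mem _ he, h.sub he a⟩

theorem cov_card (h : Unf G f) :
    (cov (G.image f)).card + ∑ e ∈ G, e.card = (cov G).card + ∑ e ∈ G, (f e).card := by
  have e1 : cov (G.image f) \ cov G = G.biUnion fun e => f e \ cov G := by
    ext v
    simp only [mem_sdiff, mem_biUnion]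
    constructor
    · rintro ⟨a, b⟩
      obtain ⟨x, hx, a⟩ := mem_cov.1 a
      obtain ⟨e, he, rfl⟩ := mem_image.1 hx
      exact ⟨e, he, a, b⟩
    · rintro ⟨e, he, a, b⟩
      exact ⟨mem_cov.2 ⟨f e, mem_image_of_mem _ he, a⟩, b⟩
  have e2 : (G.biUnion fun e => f e \ cov G).card = ∑ e ∈ G, (f e \ cov G).card :=
    card_biUnion fun e he e' he' c => disjoint_left.2 fun v a b =>
      (mem_sdiff.1 a).2 (h.own e he e' he' c v (mem_sdiff.1 a).1 (mem_sdiff.1 b).1)
  have e3 : ∑ e ∈ G, (f e).card = ∑ e ∈ G, (f e \ cov G).card + ∑ e ∈ G, e.card := by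
    rw [← sum_add_distrib]
    exact sum_congr rfl fun e he => by
      rw [← card_sdiff_add_card_inter (f e) (cov G), h.old e he]
  have e4 := card_sdiff_add_card_eq_card h.cov_sub
  rw [e1, e2] at e4
  omega

theorem tau_im (h : Unf G f) (hG : NE G) {R : Finset (Finset V)} (hR : R ⊆ G) :
    tau (R.image f) = tau R := by
  refine le_antisymm (tau_refine (hG.mono hR) fun x hx => ?_) ?_
  · obtain ⟨e, he, rfl⟩ := mem_image.1 hx
    exact ⟨e, he, h.sub (hR he)⟩
  · obtain ⟨T, hT, e⟩ := exists_opt ((h.nes hG).mono (image_subset_image (f := f) hR))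
    have key : ∀ v, ∃ w, ∀ e ∈ G, v ∈ f e → w ∈ e := fun v => by
      by_cases c : v ∈ cov G
      · exact ⟨v, fun e he a => (h.mem he c).1 a⟩
      by_cases c' : ∃ e ∈ G, v ∈ f e
      · obtain ⟨e, he, a⟩ := c'
        obtain ⟨w, hw⟩ := hG e he
        exact ⟨w, fun e' he' b => by
          by_contra d
          exact c (h.own e he e' he' (fun k => d (k ▸ hw)) v a b)⟩
      · exact ⟨v, fun e he a => absurd ⟨e, he, a⟩ c'⟩
    choose g hg using key
    refine (tau_le (T := T.image g) fun x hx => ?_).trans (e ▸ card_image_le)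
    obtain ⟨v, a, b⟩ := hT (f x) (mem_image_of_mem _ hx)
    exact ⟨g v, hg v x (hR hx) a, mem_image_of_mem _ b⟩

theorem mc (h : Unf G f) (hG : MC G) : MC (G.image f) := by
  refine ⟨h.nes hG.nes, fun x hx => ?_, fun U hU hne hUne => ?_, hG.ne.image _⟩
  · obtain ⟨e, he, rfl⟩ := mem_image.1 hx
    rw [h.tau_im hG.nes Subset.rfl]
    refine lt_of_le_of_lt ?_ (hG.crit e he)
    rw [← h.tau_im hG.nes (erase_subset e G)]
    refine tau_mono ((h.nes hG.nes).mono (image_subset_image (erase_subset e G))) fun y hy => ?_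
    obtain ⟨e', he', rfl⟩ := mem_image.1 (mem_of_mem_erase hy)
    exact mem_image_of_mem _ (mem_erase.2 ⟨fun k => ne_of_mem_erase hy (k ▸ rfl), he'⟩)
  · obtain ⟨u, hu, z, hz, hz', v, v1, v2⟩ := hG.conn (G.filter fun e => f e ∈ U)
      (filter_subset _ _) (by
        obtain ⟨x, hx⟩ := hne
        obtain ⟨e, he, rfl⟩ := mem_image.1 (hU hx)
        exact ⟨e, mem_filter.2 ⟨he, hx⟩⟩) fun c => hUne (Subset.antisymm hU fun x hx => by
        obtain ⟨e, he, rfl⟩ := mem_image.1 hx
        exact (mem_filter.1 (c.symm ▸ he : e ∈ G.filter fun e => f e ∈ U)).2)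
    obtain ⟨u1, u2⟩ := mem_filter.1 hu
    exact ⟨f u, u2, f z, mem_image_of_mem _ hz, fun c => hz' (mem_filter.2 ⟨hz, c⟩), v,
      h.sub u1 v1, h.sub hz v2⟩

end Unf

end Pool.Agent.Work.MP_d266e7_co.C5.P24
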