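import Pool.Agent.Work.MP_d266e7_co.Full.BDefs
import Pool.Agent.Work.MP_d266e7_co.Full.MixOps

/-!
Definitions for the two inductions of the merged route.
Inner statement `GStar`: the priced sets are the cores of all traces and the nodes of size three
that lie in the legs of a non-pendant pair; these prices are monotone in subfamilies.
Outer statement `CStar`: in the class `ClsC` the priced sets are the cores of the traces that are
pendant or lie in the legs of a pair.
-/

namespace Pool.Agent.Work.MP_d266e7_co.Mix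

open Finset C5 C5.P24

variable {V : Type} [DecidableEq V]

/-- a trace: a `Pr` pair whose legs lie in a node of size five -/
def Trc (G : Finset (Finset V)) (c w : Finset V) : Prop := Pr G c w ∧ W5 G c w

/-- `K` lies in the legs of a `Pr` pair -/
def Lk (G : Finset (Finset V)) (K : Finset V) : Prop := ∃ p q, Pr G p q ∧ K ⊆ sd p q

/-- `K` lies in the legs of a non-pendant `Pr` pair -/
def LkN (G : Finset (Finset V)) (K : Finset V) : Prop :=
  ∃ p q, Pr G p q ∧ ¬ Pend G p q ∧ K ⊆ sd p q

/-- priced sets of the inner statement -/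
def GP (G : Finset (Finset V)) (K : Finset V) : Prop :=
  (∃ c w, Trc G c w ∧ K = c ∩ w) ∨ (K ∈ G ∧ K.card = 3 ∧ LkN G K)

open Classical in
noncomputable def gps (G : Finset (Finset V)) : Finset (Finset V) :=
  (cov G).powerset.filter (GP G)

noncomputable def piG (G : Finset (Finset V)) : ℕ := (gps G).card

noncomputable def ValG (β : ℕ) (G : Finset (Finset V)) : ℤ := V0 G + 13 * piG G - bonus β G

def GOk (β : ℕ) (G : Finset (Finset V)) : Prop := -46 ≤ ValG β G ∨ IsU G ∨ (U5 G ∧ E10 G)

/-- the inner statement -/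
def GStar (V : Type) [DecidableEq V] (β : ℕ) : Prop :=
  ∀ G : Finset (Finset V), Cls G → MC G → GOk β G

/-- the order of the inner induction: fewer nodes, or as many nodes and fewer of size five -/
def Sm (X H : Finset (Finset V)) : Prop := X.card < H.card ∨ (X.card = H.card ∧ ek X 5 < ek H 5)

/-- induction hypothesis of the inner statement -/
def IHG (β : ℕ) (H : Finset (Finset V)) : Prop :=
  ∀ X : Finset (Finset V), Sm X H → Cls X → MC X → GOk β X

/-- all traces are pendant and no node of size three lies in the legs of a non-pendant pair -/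
structure Flat (G : Finset (Finset V)) : Prop where
  tr : ∀ c w, Trc G c w → Pend G c w
  lk : ∀ K ∈ G, K.card = 3 → ¬ LkN G K

/-- the last level of the inner induction -/
def QT (V : Type) [DecidableEq V] (β : ℕ) : Prop :=
  ∀ H : Finset (Finset V), Cls H → MC H → IHG β H → Flat H → GOk β H

/-- priced sets of the outer statement -/
def CP (G : Finset (Finset V)) (K : Finset V) : Prop :=
  ∃ c w, Trc G c w ∧ K = c ∩ w ∧ (Pend G c w ∨ Lk G K)

open Classical in
noncomputable def cps (G : Finset (Finset V)) : Finset (Finset V) :=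
  (cov G).powerset.filter (CP G)

noncomputable def piC (G : Finset (Finset V)) : ℕ := (cps G).card

noncomputable def ValC (β : ℕ) (G : Finset (Finset V)) : ℤ := V0 G + 13 * piC G - bonus β G

def COk (β : ℕ) (G : Finset (Finset V)) : Prop := -46 ≤ ValC β G ∨ IsU G ∨ (U5 G ∧ E10 G)

/-- the class of the outer statement -/
structure ClsC (G : Finset (Finset V)) : Prop where
  cls : Cls G
  n3 : ∀ K ∈ G, K.card = 3 → ¬ Lk G K
  cl : ∀ c w, Trc G c w → Lk G (c ∩ w) → ∀ k ∈ c ∩ w, dg G k ≤ 3

/-- the outer statement -/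
def CStar (V : Type) [DecidableEq V] (β : ℕ) : Prop :=
  ∀ G : Finset (Finset V), ClsC G → MC G → COk β G

/-- induction hypothesis of the outer statement -/
def IHC (β : ℕ) (H : Finset (Finset V)) : Prop :=
  ∀ X : Finset (Finset V), X.card < H.card → ClsC X → MC X → COk β X

theorem np_anti {W H : Finset (Finset V)} (h : ∀ v, dg W v ≤ dg H v) (e : Finset V) :
    np H e ≤ np W e :=
  card_le_card fun v hv => mem_filter.2 ⟨(mem_filter.1 hv).1, (h v).trans (mem_filter.1 hv).2⟩

/-- transfer of a pair to a family with larger degrees -/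
theorem Pr.up {W H : Finset (Finset V)} {c w : Finset V} (h : Pr W c w) (hc : c ∈ H) (hw : w ∈ H)
    (hd : ∀ v, dg W v ≤ dg H v) : Pr H c w :=
  ⟨hc, hw, h.c5, h.w5, h.i3, Nat.le_zero.1 (h.nc ▸ np_anti hd c),
    Nat.le_zero.1 (h.nw ▸ np_anti hd w)⟩

theorem Pr.mono {W H : Finset (Finset V)} {c w : Finset V} (h : Pr W c w) (s : W ⊆ H) :
    Pr H c w := h.up (s h.mc) (s h.mw) (dg_mono s)

theorem W5.mono {W H : Finset (Finset V)} {c w : Finset V} (h : W5 W c w) (s : W ⊆ H) :
    W5 H c w := by
  obtain ⟨y, a, b⟩ := h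
  exact ⟨y, s a, b⟩

theorem Trc.mono {W H : Finset (Finset V)} {c w : Finset V} (h : Trc W c w) (s : W ⊆ H) :
    Trc H c w := ⟨h.1.mono s, h.2.mono s⟩

theorem W5.symm {G : Finset (Finset V)} {c w : Finset V} (h : W5 G c w) : W5 G w c := by
  obtain ⟨y, a, b, d⟩ := h
  exact ⟨y, a, b, sd_comm c w ▸ d⟩

theorem Trc.symm {G : Finset (Finset V)} {c w : Finset V} (h : Trc G c w) : Trc G w c :=
  ⟨h.1.symm, h.2.symm⟩

theorem Pend.symm {G : Finset (Finset V)} {c w : Finset V} (h : Pend G c w) : Pend G w c :=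
  fun s hs => (h s (inter_comm w c ▸ hs)).trans (pair_comm c w)

theorem Pend.anti {W H : Finset (Finset V)} {c w : Finset V} (h : Pend H c w) (s : W ⊆ H)
    (hc : c ∈ W) (hw : w ∈ W) : Pend W c w := fun v hv =>
  Subset.antisymm (h v hv ▸ star_mono s v)
    (insert_subset (mem_star.2 ⟨hc, (mem_inter.1 hv).1⟩)
      (singleton_subset_iff.2 (mem_star.2 ⟨hw, (mem_inter.1 hv).2⟩)))

/-- a pair is pendant as soon as no third node meets its core -/
theorem pend_iff {G : Finset (Finset V)} {c w : Finset V} (hc : c ∈ G) (hw : w ∈ G) :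
    Pend G c w ↔ ∀ x ∈ G, ∀ s ∈ c ∩ w, s ∈ x → x = c ∨ x = w := by
  refine ⟨fun h x hx s hs a => ?_, fun h s hs => Subset.antisymm (fun x hx => ?_) ?_⟩
  · have b : x ∈ star G s := mem_star.2 ⟨hx, a⟩
    rw [h s hs] at b
    simpa using b
  · have := h x (mem_star.1 hx).1 s hs (mem_star.1 hx).2
    simpa using this
  · exact insert_subset (mem_star.2 ⟨hc, (mem_inter.1 hs).1⟩)
      (singleton_subset_iff.2 (mem_star.2 ⟨hw, (mem_inter.1 hs).2⟩))

theorem Lk.mono {W H : Finset (Finset V)} {K : Finset V} (h : Lk W K) (s : W ⊆ H) : Lk H K := by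
  obtain ⟨p, q, a, b⟩ := h
  exact ⟨p, q, a.mono s, b⟩

theorem LkN.mono {W H : Finset (Finset V)} {K : Finset V} (h : LkN W K) (s : W ⊆ H) :
    LkN H K := by
  obtain ⟨p, q, a, b, c⟩ := h
  exact ⟨p, q, a.mono s, fun d => b (d.anti s a.mc a.mw), c⟩

theorem LkN.lk {G : Finset (Finset V)} {K : Finset V} (h : LkN G K) : Lk G K := by
  obtain ⟨p, q, a, -, c⟩ := h
  exact ⟨p, q, a, c⟩

theorem GP.mono {W H : Finset (Finset V)} {K : Finset V} (h : GP W K) (s : W ⊆ H) : GP H K := by
  rcases h with ⟨c, w, a, b⟩ | ⟨a, b, c⟩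
  · exact Or.inl ⟨c, w, a.mono s, b⟩
  · exact Or.inr ⟨s a, b, c.mono s⟩

theorem GP.sub {G : Finset (Finset V)} {K : Finset V} (h : GP G K) : K ⊆ cov G := by
  rcases h with ⟨c, w, a, rfl⟩ | ⟨a, -⟩
  · exact fun v hv => mem_cov.2 ⟨c, a.1.mc, (mem_inter.1 hv).1⟩
  · exact fun v hv => mem_cov.2 ⟨K, a, hv⟩

theorem GP.card {G : Finset (Finset V)} {K : Finset V} (h : GP G K) : K.card = 3 := by
  rcases h with ⟨c, w, a, rfl⟩ | ⟨-, b, -⟩
  · exact a.1.i3
  · exact b

theorem mem_gps {G : Finset (Finset V)} {K : Finset V} : K ∈ gps G ↔ GP G K := by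
  classical
  unfold gps
  rw [mem_filter, mem_powerset]
  exact ⟨And.right, fun h => ⟨h.sub, h⟩⟩

theorem CP.gp {G : Finset (Finset V)} {K : Finset V} (h : CP G K) : GP G K := by
  obtain ⟨c, w, a, b, -⟩ := h
  exact Or.inl ⟨c, w, a, b⟩

theorem mem_cps {G : Finset (Finset V)} {K : Finset V} : K ∈ cps G ↔ CP G K := by
  classical
  unfold cps
  rw [mem_filter, mem_powerset]
  exact ⟨And.right, fun h => ⟨h.gp.sub, h⟩⟩

theorem ClsC.mono {W H : Finset (Finset V)} (h : ClsC H) (s : W ⊆ H) : ClsC W :=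
  ⟨h.cls.mono s, fun K a b c => h.n3 K (s a) b (c.mono s),
    fun c w a b k hk => (dg_mono s k).trans (h.cl c w (a.mono s) (b.mono s) k hk)⟩

theorem gstar_of_step {β : ℕ}
    (h : ∀ H : Finset (Finset V), Cls H → MC H → IHG β H → GOk β H) : GStar V β := by
  have key : ∀ m k : ℕ, ∀ G : Finset (Finset V), G.card = m → ek G 5 = k → Cls G → MC G →
      GOk β G := by
    intro m
    induction m using Nat.strong_induction_on with
    | _ m ih =>
      intro k
      induction k using Nat.strong_induction_on with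
      | _ k ih2 =>
        intro G h1 h2 a b
        refine h G a b fun X hX c d => ?_
        rcases hX with hX | ⟨hX, hX'⟩
        · exact ih X.card (h1 ▸ hX) _ X rfl rfl c d
        · exact ih2 _ (h2 ▸ hX') X (hX.trans h1) rfl c d
  exact fun G => key _ _ G rfl rfl

theorem cstar_of_step {β : ℕ}
    (h : ∀ H : Finset (Finset V), ClsC H → MC H → IHC β H → COk β H) : CStar V β := by
  have key : ∀ m : ℕ, ∀ G : Finset (Finset V), G.card = m → ClsC G → MC G → COk β G := by
    intro m
    induction m using Nat.strong_induction_on with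
    | _ m ih => exact fun G h1 a b => h G a b fun X hX c d => ih X.card (h1 ▸ hX) X rfl c d
  exact fun G => key _ G rfl

/-- without non-pendant traces the outer statement is the inner one -/
theorem cok_of_gok {β : ℕ} {G : Finset (Finset V)} (hc : ClsC G)
    (hp : ∀ c w, Trc G c w → Pend G c w) (h : GOk β G) : COk β G := by
  refine h.imp_left fun a => a.trans ?_
  have : piG G ≤ piC G := card_le_card fun K hK => by
    rcases mem_gps.1 hK with ⟨c, w, a, b⟩ | ⟨a, b, c⟩
    · exact mem_cps.2 ⟨c, w, a, b, Or.inl (hp c w a)⟩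
    · exact absurd c.lk (hc.n3 K a b)
  unfold ValG ValC
  omega

end Pool.Agent.Work.MP_d266e7_co.Mix
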