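import Pool.Agent.Work.MP_d266e7_co.Full.Mrg

/-!
The merge steps of the inner induction: a non-pendant trace, and a node of size three with a
non-pendant link that meets all its non-pendant links.
-/

namespace Pool.Agent.Work.MP_d266e7_co.Mix

open Finset C5 C5.P24

variable {V : Type} [DecidableEq V] {β : ℕ} {H X : Finset (Finset V)} {c w K : Finset V}

theorem IHG.lt (ih : IHG β H) (h : X.card < H.card) (a : Cls X) (b : MC X) : GOk β X :=
  ih X (Or.inl h) a b

theorem sum_valG (F : Finset (Finset (Finset V))) :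
    ∑ W ∈ F, ValG β W = ∑ W ∈ F, VB β W + 13 * (∑ W ∈ F, piG W : ℕ) := by
  simp only [valG_eq, sum_add_distrib, ← mul_sum]
  push_cast
  rfl

theorem piG_two {Y P : Finset (Finset V)} (hX : ∀ K, GP X K → K ∈ P) (hY : ∀ K, GP Y K → K ∈ P)
    (hd : ∀ K, GP X K → GP Y K → False) : piG X + piG Y ≤ P.card := by
  rw [piG, piG, ← card_union_of_disjoint
    (disjoint_left.2 fun K a b => hd K (mem_gps.1 a) (mem_gps.1 b))]
  exact card_le_card (union_subset (fun K a => hX K (mem_gps.1 a)) fun K a => hY K (mem_gps.1 a))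

theorem Pr.gp_mrg (h : Pr H c w) (hH : MC H) (s : X ⊆ mrg H c w) (k : GP X K) :
    GP H K ∨ K = c ∩ w :=
  ((h.dom_mrg hH s).gp k).imp_right fun a => (mem_mrg.1 (s a.1)).resolve_right fun b => a.2 b.1

/-- the merge step up to the split case -/
theorem g_merge (h1 : 17 ≤ β) (h2 : β ≤ 216) (hH : MC H) (hc : Cls H) (ih : IHG β H)
    (h : Pr H c w) (hn : ¬ Pend H c w) {P : Finset (Finset V)} (hP : P.card ≤ piG H)
    (hp : ∀ X ⊆ mrg H c w, ∀ K, GP X K → K ∈ P)
    (hs : ∀ W1 W2, Sp H c w W1 W2 → -46 ≤ ValG β H) : -46 ≤ ValG β H := by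
  obtain ⟨F, W1, m⟩ := exists_mp hH hc h
  have ok : ∀ W ∈ F, GOk β W := fun W a => ih.lt (m.lt a) (m.cls' a) (m.fam.mc W a)
  have a1 := m.vb h1 h2
  have a2 := m.fam.piG_le fun W a => hp W (m.fam.sub W a)
  have a3 := sum_valG (β := β) F
  have a4 := card_le_ws (mrg H c w \ un F)
  rw [valG_eq]
  rcases (mrg H c w \ un F).eq_empty_or_nonempty with e | e
  · rcases m.zero e with ⟨f, g⟩ | ⟨W2, -, -, k⟩
    · have := (ok W1 m.w1).resolve_right (g ▸ h.mrg_not_exc hH hn)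
      rw [f, sum_singleton] at a3
      rw [f] at a1 a2
      omega
    · exact valG_eq (β := β) (G := H) ▸ hs W1 W2 k
  · have b1 := (m.cost (ValG β) fun W a _ => (ok W a).cost).2
    have b2 : -60 ≤ ValG β W1 := (ok W1 m.w1).ge60.resolve_right fun k => by
      have := k.1 _ m.s1
      rw [h.i3] at this
      omega
    have := card_pos.2 e
    omega

/-- put-back -/
theorem Sp.g_back {W1 W2 : Finset (Finset V)} (h : Sp H c w W1 W2) (h1 : 17 ≤ β) (ih : IHG β H)
    (hn : ¬ Pend H c w) (hl : ∀ v ∈ sd c w, v ∉ cov W1) : -45 ≤ ValG β H := by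
  have a1 := (ih.lt h.lt1 h.cls1 h.m1).resolve_right (h.not_exc1 hn)
  have a2 := (ih.lt (h.ltX hn) (h.cls.mono h.subX) h.mcX).resolve_right h.not_excX
  have a3 := h.vb_back h1 hl
  have a4 : piG W1 + piG (insert c (insert w W2)) ≤ piG H + 1 := by
    have b1 : ((gps W1).erase (c ∩ w) ∪ gps (insert c (insert w W2))).card ≤ piG H :=
      card_le_card (union_subset (fun K a => mem_gps.2 ((h.pr.gp_mrg h.mc h.sub1
        (mem_gps.1 (mem_of_mem_erase a))).resolve_right (ne_of_mem_erase a)))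
        fun K a => mem_gps.2 ((mem_gps.1 a).mono h.subX))
    rw [card_union_of_disjoint (disjoint_left.2 fun K a b => ne_of_mem_erase a
      (eq_of_subset_of_card_le (fun v hv => h.inter_sub hl
        ((mem_gps.1 (mem_of_mem_erase a)).sub hv) ((mem_gps.1 b).sub hv))
        (by rw [h.pr.i3, (mem_gps.1 b).card])))] at b1
    have := pred_card_le_card_erase (s := gps W1) (a := c ∩ w)
    unfold piG at *
    omega
  rw [valG_eq] at a1 a2 ⊢
  omega

/-- step M1: a non-pendant trace -/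
theorem g_m1 (h1 : 17 ≤ β) (h2 : β ≤ 216) (hH : MC H) (hc : Cls H) (ih : IHG β H)
    (h : Trc H c w) (hn : ¬ Pend H c w) : -46 ≤ ValG β H := by
  refine g_merge h1 h2 hH hc ih h.1 hn (P := gps H) le_rfl (fun X s K k => mem_gps.2 ?_)
    fun W1 W2 k => ?_
  · exact (h.1.gp_mrg hH s k).elim id fun e => Or.inl ⟨c, w, h, e⟩
  · obtain ⟨y, a, -, b⟩ := h.2
    have := k.g_back h1 ih hn (k.wit a b).2
    omega

/-- a set of three legs contains both legs of one member -/
theorem Pr.leg_split (h : Pr H c w) (hK : K.card = 3) (s : K ⊆ sd c w) :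
    c \ w ⊆ K ∨ w \ c ⊆ K := by
  by_contra k
  rw [not_or] at k
  obtain ⟨u, u1, u2⟩ := not_subset.1 k.1
  obtain ⟨v, v1, v2⟩ := not_subset.1 k.2
  have n : v ≠ u := fun e => (mem_sdiff.1 v1).2 (e ▸ (mem_sdiff.1 u1).1)
  have a := card_le_card (show K ⊆ ((sd c w).erase u).erase v from fun x hx =>
    mem_erase.2 ⟨fun e => v2 (e ▸ hx), mem_erase.2 ⟨fun e => u2 (e ▸ hx), s hx⟩⟩)
  rw [card_erase_of_mem (mem_erase.2 ⟨n, sd_comm w c ▸ sdiff_sub_sd w c v1⟩),
    card_erase_of_mem (sdiff_sub_sd c w u1), sd_card h.c5 h.w5 h.i3, hK] at a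
  omega

/-- rewiring: the core gets the leg `g` of `c` and a new private block -/
theorem Sp.rewire [Infinite V] {W1 W2 : Finset (Finset V)} (h : Sp H c w W1 W2) (h1 : 17 ≤ β)
    {g : V} (g1 : g ∈ c) (g2 : g ∉ w) (g3 : g ∈ cov W1) :
    ∃ Z, MC Z ∧ Cls Z ∧ Z.card < H.card ∧ Dom H Z ∧ (∀ K ∈ Z, K.card = 3 → K ∈ H) ∧
      Disjoint (cov Z) (cov W2) ∧ ¬ (IsU Z ∨ (U5 Z ∧ E10 Z)) ∧
      VB β Z + VB β W2 + 47 ≤ VB β H := by
  obtain ⟨R, r1, r2⟩ := exists_fresh (cov H) 1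
  obtain ⟨ρ, rfl⟩ := card_eq_one.1 r1
  have rH : ρ ∉ cov H := disjoint_singleton_left.1 r2
  have cH : c ⊆ cov H := fun v hv => mem_cov.2 ⟨c, h.pr.mc, hv⟩
  have c1 : cov W1 ⊆ cov H := h.cov_eq ▸ subset_union_left
  have c2 : cov W2 ⊆ cov H := h.cov_eq ▸ subset_union_right
  obtain ⟨z, hz⟩ : ∃ z, z = insert ρ (insert g (c ∩ w)) := ⟨_, rfl⟩
  have mz : ∀ v, v ∈ z ↔ v = ρ ∨ v = g ∨ v ∈ c ∩ w := fun v => by rw [hz, mem_insert, mem_insert]
  have zc : ∀ v ∈ z, v = ρ ∨ (v ∈ c ∧ v ∈ cov W1) := fun v hv => by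
    rcases (mz v).1 hv with k | rfl | k
    exacts [Or.inl k, Or.inr ⟨g1, g3⟩, Or.inr ⟨(mem_inter.1 k).1, h.core_sub k⟩]
  have z5 : z.card = 5 := by
    rw [hz, card_insert_of_notMem fun k => rH (cH (insert_subset g1 inter_subset_left k)),
      card_insert_of_notMem fun k => g2 (mem_inter.1 k).2, h.pr.i3]
  have sR : ∀ e ∈ W1.erase (c ∩ w), e ∈ H ∧ e ≠ c ∧ e ≠ w := fun e he =>
    (mem_mrg.1 (h.sub1 (mem_of_mem_erase he))).resolve_left (ne_of_mem_erase he)
  have rR : ρ ∉ cov (W1.erase (c ∩ w)) := fun k => rH (c1 (cov_mono (erase_subset _ _) k))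
  obtain ⟨n0, mZ, tZ⟩ := h.m1.rewire h.s1 (z' := z) (fun v hv => (mz v).2 (Or.inr (Or.inr hv)))
    fun C a1 a2 v a3 a4 a5 => by
      rcases (mz v).1 a3 with rfl | rfl | k
      · obtain ⟨s, hs⟩ := h.pr.core_ne
        have b1 : MP_d266e7_co.tau (W1.erase (c ∩ w)) ≤ (C.erase v).card := tau_le fun e he => by
          obtain ⟨u, u1, u2⟩ := a1 e he
          exact ⟨u, u1, mem_erase.2 ⟨fun k => rR (mem_cov.2 ⟨e, he, k ▸ u1⟩), u2⟩⟩
        have b2 := tau_le_succ (S := W1) (h.m1.nes.mono (erase_subset (c ∩ w) W1)) s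
          fun e he => by
            by_cases k : e = c ∩ w
            exacts [Or.inr (k ▸ hs), Or.inl (mem_erase.2 ⟨k, he⟩)]
        have := card_erase_add_one a5
        omega
      · obtain ⟨u, u1, u2⟩ := qn_pt h.symm.dd_pos
        obtain ⟨D, d1, d2, d3⟩ := h.m2.cover_mem u2
        have b1 : MP_d266e7_co.tau H ≤ (C ∪ D).card := tau_le fun e he => by
          by_cases k : e = c
          · exact ⟨v, k ▸ g1, mem_union_left _ a5⟩
          rcases h.cases he with m | m | m | m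
          · exact absurd m k
          · exact ⟨u, m ▸ u1, mem_union_right _ d3⟩
          · obtain ⟨x, x1, x2⟩ := a1 e (mem_erase.2 ⟨fun n => h.pr.core_not h.mc (n ▸ he), m⟩)
            exact ⟨x, x1, mem_union_left _ x2⟩
          · obtain ⟨x, x1, x2⟩ := d1 e m
            exact ⟨x, x1, mem_union_right _ x2⟩
        have := card_union_le C D
        have := h.tau
        omega
      · exact a4 k
  obtain ⟨Z, hZ⟩ : ∃ Z, Z = insert z (W1.erase (c ∩ w)) := ⟨_, rfl⟩
  have sI : insert c (W1.erase (c ∩ w)) ⊆ H := insert_subset h.pr.mc fun e he => (sR e he).1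
  have cI : c ∉ W1.erase (c ∩ w) := fun k => (sR c k).2.1 rfl
  have dρ : dg Z ρ ≤ 1 := by
    rw [hZ, pair_dg_insert n0, dg_zero rR]
    split_ifs <;> omega
  have dZ : ∀ v, v ≠ ρ → dg Z v ≤ dg H v := fun v hv => by
    refine le_trans ?_ (dg_mono sI v)
    rw [hZ, pair_dg_insert n0, pair_dg_insert cI]
    split_ifs with a b
    exacts [le_rfl, absurd ((zc v a).resolve_left hv).1 b, Nat.le_succ _, le_rfl]
  have zZ : z ∈ Z := hZ ▸ mem_insert_self _ _
  have ρz : ρ ∈ z := (mz ρ).2 (Or.inl rfl)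
  have nz : 1 ≤ np Z z := np_pos ρz dρ
  have mem : ∀ e ∈ Z, e = z ∨ e ∈ W1.erase (c ∩ w) := fun e he => mem_insert.1 (hZ ▸ he)
  have clZ : Cls Z := by
    have key : ∀ e ∈ W1.erase (c ∩ w), (z ∩ e).card ≤ 3 := fun e he => by
      refine le_trans (card_le_card fun v hv => ?_) (h.cls.c3 c h.pr.mc e (sR e he).1
        (sR e he).2.1.symm)
      obtain ⟨v1, v2⟩ := mem_inter.1 hv
      exact mem_inter.2 ⟨((zc v v1).resolve_left fun k => rR (mem_cov.2 ⟨e, he, k ▸ v2⟩)).1, v2⟩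
    refine ⟨fun e he => ?_, fun v => ?_, fun e he f hf k => ?_⟩
    · rcases mem e he with rfl | a
      exacts [Or.inr z5, h.cls.sz e (sR e a).1]
    · by_cases hv : v = ρ
      · rw [hZ, wdeg_eq_sum, sum_insert n0, sum_eq_zero fun e he =>
          if_neg fun k => rR (mem_cov.2 ⟨e, he, hv ▸ k⟩), wt5 z5]
        split_ifs <;> omega
      · refine le_trans ?_ ((wdeg_mono sI v).trans (h.cls.d4 v))
        rw [hZ, wdeg_eq_sum, wdeg_eq_sum, sum_insert n0, sum_insert cI, wt5 z5, wt5 h.pr.c5]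
        split_ifs with a b
        exacts [le_rfl, absurd ((zc v a).resolve_left hv).1 b, by omega, le_rfl]
    · rcases mem e he with rfl | a <;> rcases mem f hf with rfl | b
      · exact absurd rfl k
      · exact key f b
      · exact inter_comm f e ▸ key e a
      · exact h.cls.c3 e (sR e a).1 f (sR f b).1 k
  have cZ : cov Z ⊆ insert ρ (cov W1) := fun v hv => by
    obtain ⟨e, he, a⟩ := mem_cov.1 hv
    rcases mem e he with rfl | b
    · exact mem_insert.2 ((zc v a).imp_right And.right)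
    · exact mem_insert_of_mem (mem_cov.2 ⟨e, mem_of_mem_erase b, a⟩)
  have kZ : Z.card = W1.card := by rw [hZ, card_insert_of_notMem n0, card_erase_add_one h.s1]
  rw [← hZ] at mZ tZ
  refine ⟨Z, mZ, clZ, kZ ▸ h.lt1,
    ⟨fun e he _ b => ?_, fun y hy b => ?_, fun v hv => dZ v fun k => ?_⟩, fun K a b => ?_,
    disjoint_left.2 fun v a b => ?_,
    not_exc zZ z5 (mem_cov.2 ⟨z, zZ, ρz⟩) (by omega), ?_⟩
  · rcases mem e he with rfl | a
    · omega
    · exact (sR e a).1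
  · rcases mem y hy with rfl | a
    · exact ⟨c, h.pr.mc, h.pr.c5, fun v d e => ((zc v d).resolve_left fun k => by
        rw [k] at e
        omega).1⟩
    · exact ⟨y, (sR y a).1, b, fun _ d _ => d⟩
  · rw [k] at hv
    omega
  · rcases mem K a with rfl | d
    · omega
    · exact (sR K d).1
  · rcases mem_insert.1 (cZ a) with k | k
    · exact rH (k ▸ c2 b)
    · exact disjoint_left.1 h.sep.disjoint_cov k b
  · have a := bonus_two h1 (H := H) (X := Z) (Y := W2) (fun v hv => dZ v fun k => rH (k ▸ hv))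
      (fun v _ => dg_mono h.sub2 v) (fun e he => by
        rcases h.cases he with k | k | k | k
        · exact Or.inr (Or.inr (k ▸ h.pr.nc))
        · exact Or.inr (Or.inr (k ▸ h.pr.nw))
        · exact Or.inl (hZ ▸ mem_insert_of_mem
            (mem_erase.2 ⟨fun n => h.pr.core_not h.mc (n ▸ he), k⟩))
        · exact Or.inr (Or.inl k)) (P := {z}) fun e he => by
        rw [mem_singleton.1 he]
        exact ⟨zZ, z5, fun k => absurd (mem_cov.2 ⟨z, k, ρz⟩) rH, nz⟩
    have b1 : ws Z + 1 = ws W1 := by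
      have := ws_insert (notMem_erase (c ∩ w) W1)
      rw [insert_erase h.s1, wt3 h.pr.i3] at this
      rw [hZ, ws_insert n0, wt5 z5]
      omega
    have b2 := (card_le_card cZ).trans (card_insert_le _ _)
    have b5 := h.ws_eq
    have b6 := h.cov_card
    have b7 := h.tau
    rw [VB, VB, VB, V0_eq clZ.sz, V0_eq (Sz.mono h.cls.sz h.sub2), V0_eq h.cls.sz]
    rw [card_singleton] at a
    omega

/-- a node of size three is priced only through a link -/
theorem GP.lkN (k : GP H K) (hH : MC H) (hK : K ∈ H) : LkN H K := by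
  rcases k with ⟨c, w, a, rfl⟩ | ⟨-, -, a⟩
  exacts [absurd hK (a.1.core_not hH), a]

/-- step M2: every non-pendant link of `K` meets the link `c`, `w` -/
theorem g_m2 [Infinite V] (h1 : 17 ≤ β) (h2 : β ≤ 216) (hH : MC H) (hc : Cls H) (ih : IHG β H)
    (hK : K ∈ H) (k3 : K.card = 3) (h : Pr H c w) (hn : ¬ Pend H c w) (s : K ⊆ sd c w)
    (hw : w \ c ⊆ K) (ho : ∀ p q, Pr H p q → ¬ Pend H p q → K ⊆ sd p q →
      (p = c ∨ p = w) ∨ q = c ∨ q = w) : -46 ≤ ValG β H := by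
  have gK : K ∈ gps H := mem_gps.2 (Or.inr ⟨hK, k3, c, w, h, hn, s⟩)
  have e1 := card_erase_add_one gK
  have no : ∀ X ⊆ mrg H c w, ¬ GP X K := fun X a b => by
    have d := h.dom_mrg hH a
    rcases b with ⟨p, q, b, rfl⟩ | ⟨-, -, p, q, b1, b2, b3⟩
    · exact (d.pr b.1).core_not hH hK
    · have m1 := h.mem_of5 (a b1.mc) b1.c5
      have m2 := h.mem_of5 (a b1.mw) b1.w5
      rcases ho p q (d.pr b1) (fun e => b2 (d.pend b1 e)) b3 with (e | e) | e | e
      exacts [m1.2.1 e, m1.2.2 e, m2.2.1 e, m2.2.2 e]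
  refine g_merge h1 h2 hH hc ih h hn (P := insert (c ∩ w) ((gps H).erase K))
    ((card_insert_le _ _).trans e1.le) (fun X a L k => mem_insert.2 ?_) fun W1 W2 k => ?_
  · exact (h.gp_mrg hH a k).symm.imp_right fun b =>
      mem_erase.2 ⟨fun e => no X a (e ▸ k), mem_gps.2 b⟩
  by_cases hl : ∀ v ∈ sd c w, v ∉ cov W1
  · have := k.g_back h1 ih hn hl
    omega
  have K2 : K ∈ W2 := by
    obtain ⟨v, v1, v2⟩ := qn_pt k.symm.dd_pos
    have n : v ∉ cov W1 := disjoint_right.1 k.sep.disjoint_cov v2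
    have m : v ∈ K := hw (mem_sdiff.2 ⟨v1, fun a => n (k.core_sub (mem_inter.2 ⟨a, v1⟩))⟩)
    rcases k.cases hK with a | a | a | a
    · rw [a, h.c5] at k3
      omega
    · rw [a, h.w5] at k3
      omega
    · exact absurd (mem_cov.2 ⟨K, a, m⟩) n
    · exact a
  obtain ⟨g, g1, g2⟩ : ∃ g ∈ sd c w, g ∈ cov W1 := by simpa using hl
  have g3 : g ∈ c ∧ g ∉ w := (mem_sd.1 g1).resolve_right fun a =>
    disjoint_left.1 k.sep.disjoint_cov g2 (mem_cov.2 ⟨K, K2, hw (mem_sdiff.2 ⟨a.2, a.1⟩)⟩)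
  obtain ⟨Z, z1, z2, z3, z4, z5, z6, z7, z8⟩ := k.rewire h1 g3.1 g3.2 g2
  have a1 := (ih.lt z3 z2 z1).resolve_right z7
  have a2 : -60 ≤ ValG β W2 := (ih.lt k.lt2 (hc.mono k.sub2) k.m2).ge60.resolve_right fun a => by
    have := a.1 K K2
    omega
  have dis : ∀ L, GP Z L → L ⊆ cov W2 → False := fun L a b => by
    obtain ⟨v, hv⟩ := card_pos.1 (show 0 < L.card by rw [a.card]; omega)
    exact disjoint_left.1 z6 (a.sub hv) (b hv)
  have a3 := piG_two (X := Z) (Y := W2) (P := (gps H).erase K)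
    (fun L a => mem_erase.2 ⟨fun e => dis L a fun v hv => mem_cov.2 ⟨K, K2, e ▸ hv⟩,
      mem_gps.2 ((z4.gp a).resolve_right fun b => b.2 (z5 L b.1 a.card))⟩)
    (fun L a => mem_erase.2 ⟨fun e => no W2 k.sub2' (e ▸ a), mem_gps.2 (a.mono k.sub2)⟩)
    fun L a b => dis L a b.sub
  rw [valG_eq] at a1 a2 ⊢
  unfold piG at *
  omega

end Pool.Agent.Work.MP_d266e7_co.Mix
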