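import Pool.Agent.Work.MP_d266e7_co.Full.GM1

/-!
Two disjoint links on a node of size three, and the reduction of the inner statement to its last
level.
-/

namespace Pool.Agent.Work.MP_d266e7_co.Mix

open Finset C5 C5.P24

variable {V : Type} [DecidableEq V] {β : ℕ} {H : Finset (Finset V)} {K p q p' q' : Finset V}

/-- a node of size three and two nodes of size five fill a star -/
theorem Cls.star_eq (hc : Cls H) {x y : Finset V} {v : V} (hK : K ∈ H) (k3 : K.card = 3)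
    (hx : x ∈ H) (x5 : x.card = 5) (hy : y ∈ H) (y5 : y.card = 5) (hne : x ≠ y) (a : v ∈ K)
    (b : v ∈ x) (d : v ∈ y) : star H v = {K, x, y} ∧ wdeg H v = 4 := by
  have s : ({K, x, y} : Finset (Finset V)) ⊆ star H v :=
    insert_subset (mem_star.2 ⟨hK, a⟩) (insert_subset (mem_star.2 ⟨hx, b⟩)
      (singleton_subset_iff.2 (mem_star.2 ⟨hy, d⟩)))
  have n : K ∉ ({x, y} : Finset (Finset V)) := fun k => by
    rcases mem_insert.1 k with k | k
    · rw [k] at k3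
      omega
    · rw [mem_singleton.1 k] at k3
      omega
  have e : ws ({K, x, y} : Finset (Finset V)) = 4 := by
    rw [ws_insert n, ws, sum_pair hne, wt3 k3, wt5 x5, wt5 y5]
    rfl
  have f : ws (star H v \ {K, x, y}) + 4 = wdeg H v := e ▸ ws_sdiff s
  have g := card_le_ws (star H v \ {K, x, y})
  have := hc.d4 v
  exact ⟨Subset.antisymm (sdiff_eq_empty_iff_subset.1 (card_eq_zero.1 (by omega))) s, by omega⟩

theorem _root_.Pool.Agent.Work.MP_d266e7_co.C5.P24.MFam.host_abs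
    {F : Finset (Finset (Finset V))} (h : MFam H F) {W : Finset (Finset V)} (hW : W ∈ F)
    {x : Finset V} (hx : x ∈ H) (hn : x ∉ W) (hd : 1 ≤ C5.dd W x) : x ∈ H \ un F :=
  mem_sdiff.2 ⟨hx, fun k => by
    obtain ⟨W', d, e⟩ := mem_un.1 k
    obtain ⟨v, v1, v2⟩ := qn_pt hd
    exact hn (h.eq_of_mem d hW (mem_cov.2 ⟨x, e, v1⟩) v2 ▸ e)⟩

theorem sum_two {α : Type} [DecidableEq α] {F : Finset α} {a : α} (ha : a ∈ F) (b : α)
    {f : α → ℤ} (h1 : -46 ≤ f a) (h2 : -46 ≤ f b) :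
    ∑ W ∈ (F.erase a).erase b, f W - 92 ≤ ∑ W ∈ F, f W := by
  have e := add_sum_erase F f ha
  by_cases k : b ∈ F.erase a
  · have := add_sum_erase _ f k
    omega
  · rw [erase_eq_of_notMem k]
    omega

theorem not_cov_star {F : Finset (Finset (Finset V))} {t v : V} (hF : MFam (H \ star H t) F)
    (h : star H v ⊆ star H t) : v ∉ cov (un F) := fun k => by
  obtain ⟨e, a, b⟩ := mem_cov.1 k
  have c := mem_sdiff.1 (hF.un_sub a)
  exact c.2 (h (mem_star.2 ⟨c.1, b⟩))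

theorem star_lt {W : Finset (Finset V)} {t : V} (ht : 1 ≤ dg H t) (s : W ⊆ H \ star H t) :
    W.card < H.card := by
  have a := card_le_card s
  have b : (H \ star H t).card + dg H t = H.card := card_sdiff_add_card_eq_card (filter_subset _ _)
  omega

/-- two links with the same two blocks of `K` -/
theorem g_twin (h1 : 17 ≤ β) (h2 : β ≤ 216) (hH : MC H) (hc : Cls H) (ih : IHG β H) {t u : V}
    (hne : t ≠ u) (w4 : wdeg H t = 4) (d3 : dg H t = 3) (e : star H u = star H t) :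
    -46 ≤ ValG β H := by
  obtain ⟨F, hF, ht⟩ := hH.exists_step (t := t) (by omega)
  have sub : ∀ W ∈ F, W ⊆ H := fun W a => (hF.sub W a).trans sdiff_subset
  have a1 := vb_star h1 h2 hc.sz hF ht (P := ∅) (by simp) (Q := {t, u}) fun v hv => by
    rcases mem_insert.1 hv with rfl | k
    · exact ⟨not_cov_star hF Subset.rfl, by omega⟩
    · rw [mem_singleton.1 k]
      exact ⟨not_cov_star hF e.le, by rw [dg, e, ← dg]; omega⟩
  have a2 := hF.piG_le (P := gps H) fun W a K k => mem_gps.2 (k.mono (sub W a))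
  have a3 := sum_valG (β := β) F
  have a4 := card_le_ws ((H \ star H t) \ un F)
  obtain ⟨x, hx⟩ := card_pos.1 (show 0 < (star H t).card by unfold dg at d3; omega)
  have a5 := cost_le hH (hF.mono sdiff_subset Subset.rfl)
    ⟨x, (mem_star.1 hx).1, fun k => (mem_sdiff.1 (hF.un_sub k)).2 hx⟩
    (N := star H t ∪ (H \ star H t) \ un F) (fun x a b _ _ _ => by
      by_cases k : x ∈ star H t
      · exact mem_union_left _ k
      · exact mem_union_right _ (mem_sdiff.2 ⟨mem_sdiff.2 ⟨a, k⟩, b⟩)) (ValG β)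
    fun W a => (ih.lt (star_lt (by omega) (hF.sub W a)) (hc.mono (sub W a)) (hF.mc W a)).cost
  have a6 := card_union_le (star H t) ((H \ star H t) \ un F)
  rw [card_pair hne, card_empty, w4] at a1
  rw [valG_eq]
  unfold dg at d3
  unfold piG at *
  rcases a5 with k | k
  · rw [k, sum_empty] at a1
    omega
  · omega

/-- the data of two crossed links on `K = {k1, k2, k3}` -/
structure Crs (H : Finset (Finset V)) (K p q p' q' : Finset V) (k1 k2 k3 : V) : Prop where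
  mc : MC H
  mK : K ∈ H
  pr : Pr H p q
  pr' : Pr H p' q'
  pp : p ≠ p'
  eK : ∀ v ∈ K, v = k1 ∨ v = k2 ∨ v = k3
  eq : ∀ v ∈ q, v ∈ p ∨ v = k1 ∨ v = k2
  eq' : ∀ v ∈ q', v ∈ p' ∨ v = k1 ∨ v = k3
  s1 : star H k1 = {K, q, q'}
  s2 : star H k2 = {K, q, p'}
  s3 : star H k3 = {K, q', p}
  n1 : k1 ∉ p
  n1' : k1 ∉ p'
  n2 : k2 ∉ q'
  n3 : k3 ∉ q

namespace Crs

variable {k1 k2 k3 : V}

theorem symm (h : Crs H K p q p' q' k1 k2 k3) : Crs H K p' q' p q k1 k3 k2 :=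
  ⟨h.mc, h.mK, h.pr', h.pr, h.pp.symm, fun v hv => (h.eK v hv).imp_right Or.symm, h.eq', h.eq,
    by rw [h.s1, pair_comm], h.s3, h.s2, h.n1', h.n1, h.n3, h.n2⟩

theorem m3 (h : Crs H K p q p' q' k1 k2 k3) : k3 ∈ p :=
  (mem_star.1 (h.s3 ▸ by simp : p ∈ star H k3)).2

theorem only (h : Crs H K p q p' q' k1 k2 k3) {e : Finset V} (he : e ∈ H \ star H k1)
    (hk : k3 ∈ e) : e = p := by
  have a : e ∈ star H k3 := mem_star.2 ⟨(mem_sdiff.1 he).1, hk⟩
  have b := (mem_sdiff.1 he).2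
  rw [h.s3] at a
  rw [h.s1] at b
  simp only [mem_insert, mem_singleton] at a b
  tauto

theorem crit (h : Crs H K p q p' q' k1 k2 k3) :
    tau ((H \ star H k1).erase p) + 2 ≤ tau H := by
  obtain ⟨T, hT, e⟩ := exists_opt (h.mc.nes.mono (erase_subset p H))
  have a := h.mc.crit p h.pr.mc
  have n : ∀ v ∈ p, v ∉ T := fun v v1 v2 => by
    have : tau H ≤ T.card := tau_le fun x hx => by
      by_cases b : x = p
      exacts [⟨v, b ▸ v1, v2⟩, hT x (mem_erase.2 ⟨b, hx⟩)]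
    omega
  have fin : ∀ k ∈ T, (∀ x ∈ H \ star H k1, x ≠ p → k ∈ x → ∃ v ∈ x, v ∈ T ∧ v ≠ k) →
      tau ((H \ star H k1).erase p) + 2 ≤ tau H := fun k b d => by
    have : tau ((H \ star H k1).erase p) ≤ (T.erase k).card := tau_le fun x hx => by
      obtain ⟨x1, x2⟩ := mem_erase.1 hx
      by_cases m : k ∈ x
      · obtain ⟨v, v1, v2, v3⟩ := d x x2 x1 m
        exact ⟨v, v1, mem_erase.2 ⟨v3, v2⟩⟩
      · obtain ⟨v, v1, v2⟩ := hT x (mem_erase.2 ⟨x1, (mem_sdiff.1 x2).1⟩)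
        exact ⟨v, v1, mem_erase.2 ⟨fun c => m (c ▸ v1), v2⟩⟩
    have := card_erase_add_one b
    omega
  by_cases c : k1 ∈ T
  · exact fin k1 c fun x x1 _ x2 =>
      absurd (mem_star.2 ⟨(mem_sdiff.1 x1).1, x2⟩) (mem_sdiff.1 x1).2
  obtain ⟨u, u1, u2⟩ := hT q (mem_erase.2 ⟨h.pr.ne.symm, h.pr.mw⟩)
  have m1 : k1 ∈ q' := (mem_star.1 (h.s1 ▸ by simp : q' ∈ star H k1)).2
  obtain ⟨v, v1, v2⟩ := hT q' (mem_erase.2 ⟨fun k => h.n1 (k ▸ m1), h.pr'.mw⟩)
  have c2 : k2 ∈ T := by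
    rcases h.eq u u1 with k | k | k
    exacts [absurd u2 (n u k), absurd (k ▸ u2) c, k ▸ u2]
  refine fin k2 c2 fun x x1 _ x2 => ⟨v, ?_, v2, fun k => h.n2 (k ▸ v1)⟩
  rw [h.symm.only x1 x2]
  rcases h.eq' v v1 with k | k | k
  exacts [k, absurd (k ▸ v2) c, absurd (k ▸ v2) (n k3 h.m3)]

theorem piece (h : Crs H K p q p' q' k1 k2 k3) {F : Finset (Finset (Finset V))}
    (hF : MFam (H \ star H k1) F) (ht : ∑ W ∈ F, tau W + 1 = tau H) :
    p ∈ un F ∧ dg (un F) k3 ≤ 1 := by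
  have a := h.crit
  have b := tau_mono (h.mc.nes.mono (sdiff_subset (t := star H k1))) hF.un_sub
  have c := h.mc.rem_tau (t := k1) (card_pos.2 ⟨K, h.s1 ▸ mem_insert_self _ _⟩)
  have d := hF.tau_un
  refine ⟨hF.mem_of_crit (h.mc.nes.mono sdiff_subset) (by omega) (by omega),
    card_le_one.2 fun x hx y hy => ?_⟩
  rw [h.only (hF.un_sub (mem_star.1 hx).1) (mem_star.1 hx).2,
    h.only (hF.un_sub (mem_star.1 hy).1) (mem_star.1 hy).2]

theorem main (h : Crs H K p q p' q' k1 k2 k3) (h1 : 17 ≤ β) (h2 : β ≤ 216) (hc : Cls H)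
    (ih : IHG β H) (w4 : wdeg H k1 = 4) (gK : GP H K) : -46 ≤ ValG β H := by
  have mK : K ∈ star H k1 := h.s1 ▸ mem_insert_self _ _
  have d1 : 1 ≤ dg H k1 := card_pos.2 ⟨K, mK⟩
  have m1 : k1 ∈ q := (mem_star.1 (h.s1 ▸ by simp : q ∈ star H k1)).2
  obtain ⟨F, hF, ht⟩ := h.mc.exists_step d1
  have sub : ∀ W ∈ F, W ⊆ H := fun W a => (hF.sub W a).trans sdiff_subset
  have ok : ∀ W ∈ F, GOk β W := fun W a =>
    ih.lt (star_lt d1 (hF.sub W a)) (hc.mono (sub W a)) (hF.mc W a)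
  have nk : k1 ∉ cov (un F) := not_cov_star hF Subset.rfl
  obtain ⟨b1, b2⟩ := h.piece hF ht
  obtain ⟨c1, c2⟩ := h.symm.piece hF ht
  have a1 := vb_star h1 h2 hc.sz hF ht (P := {p, p'}) (fun e he => by
    rcases mem_insert.1 he with rfl | k
    · exact ⟨b1, h.pr.c5, h.pr.nc, np_pos h.m3 b2⟩
    · rw [mem_singleton.1 k]
      exact ⟨c1, h.pr'.c5, h.pr'.nc, np_pos h.symm.m3 c2⟩) (Q := {k1}) fun v hv => by
    rw [mem_singleton.1 hv]
    exact ⟨nk, h.pr.dg2 (Or.inr m1)⟩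
  have a2 := hF.piG_le (P := (gps H).erase K) fun W a L k =>
    mem_erase.2 ⟨fun e => nk (cov_mono (sub_un a) (k.sub (e ▸ (mem_star.1 mK).2))),
      mem_gps.2 (k.mono (sub W a))⟩
  have a3 := sum_valG (β := β) F
  have a4 := card_le_ws ((H \ star H k1) \ un F)
  have a5 := card_erase_add_one (mem_gps.2 gK)
  obtain ⟨Y, y1, y2⟩ := mem_un.1 b1
  obtain ⟨Y', z1, z2⟩ := mem_un.1 c1
  have pY : p ⊆ cov Y := fun v hv => mem_cov.2 ⟨p, y2, hv⟩
  have pY' : p' ⊆ cov Y' := fun v hv => mem_cov.2 ⟨p', z2, hv⟩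
  have a6 := sum_two y1 Y' (f := ValG β)
    ((ok Y y1).resolve_right (not_exc y2 h.pr.c5 (pY h.m3)
      (by have := dg_mono (sub_un y1) k3; omega)))
    ((ok Y' z1).resolve_right (not_exc z2 h.pr'.c5 (pY' h.symm.m3)
      (by have := dg_mono (sub_un z1) k2; omega)))
  have sF : (F.erase Y).erase Y' ⊆ F := (erase_subset _ _).trans (erase_subset _ _)
  have a7 := cost_le h.mc (hF.mono sdiff_subset sF)
    ⟨K, h.mK, fun k => (mem_sdiff.1 ((hF.mono Subset.rfl sF).un_sub k)).2 mK⟩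
    (N := (H \ star H k1) \ un F) (fun x a b W d e => by
      refine hF.host_abs (sF d) (mem_sdiff.2 ⟨a, fun k => ?_⟩) (fun k => b (sub_un d k)) e
      obtain ⟨v, v1, v2⟩ := qn_pt e
      have o1 : v ≠ k1 := fun m => nk (cov_mono (sub_un (sF d)) (m ▸ v2))
      have o2 : v ∉ p := fun m =>
        ne_of_mem_erase (mem_of_mem_erase d) (hF.eq_of_mem (sF d) y1 v2 (pY m))
      have o3 : v ∉ p' := fun m => ne_of_mem_erase d (hF.eq_of_mem (sF d) z1 v2 (pY' m))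
      have o4 : v ≠ k3 := fun m => o2 (m ▸ h.m3)
      have o5 : v ≠ k2 := fun m => o3 (m ▸ h.symm.m3)
      rw [h.s1] at k
      simp only [mem_insert, mem_singleton] at k
      rcases k with rfl | rfl | rfl
      · have := h.eK v v1
        tauto
      · have := h.eq v v1
        tauto
      · have := h.eq' v v1
        tauto) (ValG β) fun W a => (ok W (sF a)).cost
  rw [card_pair h.pp, card_singleton, w4] at a1
  rw [valG_eq]
  unfold piG at *
  rcases a7 with k | k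
  · rw [k, sum_empty] at a6
    omega
  · omega

end Crs

/-- step TL: two disjoint links on `K` -/
theorem g_tl (h1 : 17 ≤ β) (h2 : β ≤ 216) (hH : MC H) (hc : Cls H) (ih : IHG β H) (hK : K ∈ H)
    (k3 : K.card = 3) (gK : GP H K) (h : Pr H p q) (s : K ⊆ sd p q) (l : q \ p ⊆ K)
    (h' : Pr H p' q') (s' : K ⊆ sd p' q') (l' : q' \ p' ⊆ K) (n1 : p ≠ p') (n2 : p ≠ q')
    (n3 : q ≠ p') (n4 : q ≠ q') : -46 ≤ ValG β H := by
  have c1 := h.symm.card_leg
  have c2 := h'.symm.card_leg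
  have c3 := card_union_add_card_inter (q \ p) (q' \ p')
  have c4 := card_le_card (union_subset l l')
  obtain ⟨k1, hk⟩ := card_pos.1 (show 0 < (q \ p ∩ (q' \ p')).card by omega)
  obtain ⟨t1, t2⟩ := mem_inter.1 hk
  have two : ∀ {A : Finset V}, A.card = 2 → k1 ∈ A → ∃ k ∈ A, k ≠ k1 ∧ ∀ v ∈ A, v = k1 ∨ v = k :=
    fun {A} a b => by
      obtain ⟨k, e⟩ := card_eq_one.1 (show (A.erase k1).card = 1 by rw [card_erase_of_mem b, a])
      have m : k ∈ A.erase k1 := e ▸ mem_singleton_self k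
      refine ⟨k, mem_of_mem_erase m, ne_of_mem_erase m, fun v hv => ?_⟩
      by_cases c : v = k1
      exacts [Or.inl c, Or.inr (mem_singleton.1 (e ▸ mem_erase.2 ⟨c, hv⟩))]
  obtain ⟨k2, u1, u2, u3⟩ := two c1 t1
  obtain ⟨k4, v1, v2, v3⟩ := two c2 t2
  obtain ⟨e1, w4⟩ := hc.star_eq hK k3 h.mw h.w5 h'.mw h'.w5 n4 (l t1) (mem_sdiff.1 t1).1
    (mem_sdiff.1 t2).1
  by_cases e : k2 = k4
  · refine g_twin h1 h2 hH hc ih u2.symm w4 ?_ ((hc.star_eq hK k3 h.mw h.w5 h'.mw h'.w5 n4 (l u1)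
      (mem_sdiff.1 u1).1 (e ▸ (mem_sdiff.1 v1).1)).1.trans e1.symm)
    rw [dg, e1]
    refine card_eq_three.2 ⟨K, q, q', fun k => ?_, fun k => ?_, n4, rfl⟩
    · rw [k, h.w5] at k3
      omega
    · rw [k, h'.w5] at k3
      omega
  have o2 : k2 ∉ q' ∧ k2 ∈ p' := (mem_sd.1 (sd_comm p' q' ▸ s' (l u1))).resolve_left fun a =>
    (v3 k2 (mem_sdiff.2 a)).elim u2 e
  have o4 : k4 ∉ q ∧ k4 ∈ p := (mem_sd.1 (sd_comm p q ▸ s (l' v1))).resolve_left fun a =>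
    (u3 k4 (mem_sdiff.2 a)).elim v2 (Ne.symm e)
  have eK : ({k1, k2, k4} : Finset V) = K := eq_of_subset_of_card_le
    (insert_subset (l t1) (insert_subset (l u1) (singleton_subset_iff.2 (l' v1))))
    (by rw [k3, card_eq_three.2 ⟨k1, k2, k4, u2.symm, v2.symm, e, rfl⟩])
  refine Crs.main (k1 := k1) (k2 := k2) (k3 := k4) ⟨hH, hK, h, h', n1,
    fun v hv => by simpa using (eK ▸ hv : v ∈ ({k1, k2, k4} : Finset V)), fun v hv => ?_,
    fun v hv => ?_, e1,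
    (hc.star_eq hK k3 h.mw h.w5 h'.mc h'.c5 n3 (l u1) (mem_sdiff.1 u1).1 o2.2).1,
    (hc.star_eq hK k3 h'.mw h'.w5 h.mc h.c5 n2.symm (l' v1) (mem_sdiff.1 v1).1 o4.2).1,
    (mem_sdiff.1 t1).2, (mem_sdiff.1 t2).2, o2.1, o4.1⟩ h1 h2 hc ih w4 gK
  · by_cases c : v ∈ p
    exacts [Or.inl c, Or.inr (u3 v (mem_sdiff.2 ⟨hv, c⟩))]
  · by_cases c : v ∈ p'
    exacts [Or.inl c, Or.inr (v3 v (mem_sdiff.2 ⟨hv, c⟩))]

/-- a node of size three with a non-pendant link -/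
theorem g_link [Infinite V] (h1 : 17 ≤ β) (h2 : β ≤ 216) (hH : MC H) (hc : Cls H) (ih : IHG β H)
    (hK : K ∈ H) (k3 : K.card = 3) (h : LkN H K) : -46 ≤ ValG β H := by
  have norm : ∀ p q, Pr H p q → ¬ Pend H p q → K ⊆ sd p q → ∃ a b, Pr H a b ∧ ¬ Pend H a b ∧
      K ⊆ sd a b ∧ b \ a ⊆ K ∧ ((a = p ∧ b = q) ∨ (a = q ∧ b = p)) := fun p q a b c => by
    rcases a.leg_split k3 c with d | d
    · exact ⟨q, p, a.symm, fun e => b e.symm, sd_comm p q ▸ c, d, Or.inr ⟨rfl, rfl⟩⟩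
    · exact ⟨p, q, a, b, c, d, Or.inl ⟨rfl, rfl⟩⟩
  have gK : GP H K := Or.inr ⟨hK, k3, h⟩
  obtain ⟨p0, q0, a0, b0, c0⟩ := h
  obtain ⟨p, q, a, b, c, d, -⟩ := norm p0 q0 a0 b0 c0
  by_cases k : ∀ x y, Pr H x y → ¬ Pend H x y → K ⊆ sd x y → (x = p ∨ x = q) ∨ y = p ∨ y = q
  · exact g_m2 h1 h2 hH hc ih hK k3 a b c d k
  · obtain ⟨x, y, k1, k2, k4, k5⟩ : ∃ x y, Pr H x y ∧ ¬ Pend H x y ∧ K ⊆ sd x y ∧
        ¬ ((x = p ∨ x = q) ∨ y = p ∨ y = q) := by
      by_contra m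
      exact k fun x y m1 m2 m3 => by_contra fun m4 => m ⟨x, y, m1, m2, m3, m4⟩
    simp only [not_or] at k5
    obtain ⟨p', q', a', -, c', d', ⟨rfl, rfl⟩ | ⟨rfl, rfl⟩⟩ := norm x y k1 k2 k4
    · exact g_tl h1 h2 hH hc ih hK k3 gK a c d a' c' d' (Ne.symm k5.1.1) (Ne.symm k5.2.1)
        (Ne.symm k5.1.2) (Ne.symm k5.2.2)
    · exact g_tl h1 h2 hH hc ih hK k3 gK a c d a' c' d' (Ne.symm k5.2.1) (Ne.symm k5.1.1)
        (Ne.symm k5.2.2) (Ne.symm k5.1.2)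

/-- the inner statement follows from its last level -/
theorem gstar_of_qt [Infinite V] (h1 : 17 ≤ β) (h2 : β ≤ 216) (h : QT V β) : GStar V β :=
  gstar_of_step fun H hc hH ih => by
    by_cases a : ∀ c w, Trc H c w → Pend H c w
    · by_cases b : ∀ K ∈ H, K.card = 3 → ¬ LkN H K
      · exact h H hc hH ih ⟨a, b⟩
      · obtain ⟨K, b1, b2, b3⟩ : ∃ K ∈ H, K.card = 3 ∧ LkN H K := by simpa using b
        exact Or.inl (g_link h1 h2 hH hc ih b1 b2 b3)
    · obtain ⟨c, w, a1, a2⟩ : ∃ c w, Trc H c w ∧ ¬ Pend H c w := by simpa using a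
      exact Or.inl (g_m1 h1 h2 hH hc ih a1 a2)

end Pool.Agent.Work.MP_d266e7_co.Mix
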