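import Pool.Agent.Work.MP_d266e7_co.P24Q.QN

/-!
Critical connected families with members of arbitrary sizes: minimum transversals through a
vertex, the critical core, additivity over pieces, the neighbourhood lemmas, two host vertices.
The proofs are those of `C5/Core.lean`, `C5/FamL.lean`, `C5/NLem.lean`, `P24Q/QN.lean`.
-/

namespace Pool.Agent.Work.MP_d266e7_co.C5.P24

open Finset

variable {V : Type} [DecidableEq V]

/-- nonempty members, critical, connected, nonempty -/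
structure MC (S : Finset (Finset V)) : Prop where
  nes : NE S
  crit : Crit S
  conn : Conn S
  ne : S.Nonempty

/-- pairwise separated critical connected pieces of `H` -/
structure MFam (H : Finset (Finset V)) (F : Finset (Finset (Finset V))) : Prop where
  sub : ∀ W ∈ F, W ⊆ H
  mc : ∀ W ∈ F, MC W
  sep : ∀ W ∈ F, ∀ W' ∈ F, W ≠ W' → Sep W W'

theorem mc_of_cc {S : Finset (Finset V)} (h : CC S) : MC S := ⟨h.u5.ne, h.crit, h.conn, h.ne⟩

theorem MC.cc {S : Finset (Finset V)} (h : MC S) (hu : U5 S) : CC S := ⟨hu, h.crit, h.conn, h.ne⟩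

theorem mfam_of_fam {H : Finset (Finset V)} {F : Finset (Finset (Finset V))} (h : Fam H F) :
    MFam H F := ⟨h.sub, fun W hW => mc_of_cc (h.cc W hW), h.sep⟩

theorem MFam.fam {H : Finset (Finset V)} {F : Finset (Finset (Finset V))} (h : MFam H F)
    (hu : U5 H) : Fam H F := ⟨h.sub, fun W hW => (h.mc W hW).cc (hu.mono (h.sub W hW)), h.sep⟩

theorem mc_singleton {u : Finset V} (h : u.Nonempty) : MC ({u} : Finset (Finset V)) := by
  refine ⟨fun e he => mem_singleton.1 he ▸ h, fun e he => ?_, fun W hW h1 h2 => ?_,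
    singleton_nonempty u⟩
  · rw [mem_singleton.1 he, erase_singleton, tau_empty, tau_singleton h]
    exact Nat.one_pos
  · exact absurd (h1.subset_singleton_iff.1 hW) h2

theorem MC.gallai {W : Finset (Finset V)} (h : MC W) : 2 * tau W ≤ W.card + 1 :=
  MP_d266e7_co.gallai h.nes h.crit h.conn

theorem MC.tau_pos {W : Finset (Finset V)} (h : MC W) : 1 ≤ tau W :=
  MP_d266e7_co.tau_pos h.nes h.ne

/-- a vertex of a critical member is in a minimum transversal -/
theorem cover_of_crit {W : Finset (Finset V)} (h : NE W) {e : Finset V}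
    (hc : tau (W.erase e) < tau W) {v : V} (hv : v ∈ e) :
    ∃ C, Hits C W ∧ C.card = tau W ∧ v ∈ C := by
  obtain ⟨T, hT, hc'⟩ := exists_opt (h.mono (erase_subset e W))
  have h1 : Hits (insert v T) W := fun f hf => by
    by_cases hfe : f = e
    · exact ⟨v, hfe ▸ hv, mem_insert_self _ _⟩
    · obtain ⟨w, h1, h2⟩ := hT f (mem_erase.2 ⟨hfe, hf⟩)
      exact ⟨w, h1, mem_insert_of_mem h2⟩
  have h2 := card_insert_le v T
  exact ⟨_, h1, le_antisymm (by omega) (tau_le h1), mem_insert_self _ _⟩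

/-- every covered vertex of a critical family is in a minimum transversal -/
theorem MC.cover_mem {W : Finset (Finset V)} (h : MC W) {v : V} (hv : v ∈ cov W) :
    ∃ C, Hits C W ∧ C.card = tau W ∧ v ∈ C := by
  obtain ⟨e, he, hve⟩ := mem_cov.1 hv
  exact cover_of_crit h.nes (h.crit e he) hve

theorem MC.absorb {W : Finset (Finset V)} (h : MC W) {x : Finset V} (hx : 1 ≤ dd W x) :
    tau (insert x W) ≤ tau W := by
  obtain ⟨v, hv⟩ := card_pos.1 hx
  obtain ⟨C, h1, h2, h3⟩ := h.cover_mem (mem_inter.1 hv).2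
  refine h2 ▸ tau_le fun e he => ?_
  rcases mem_insert.1 he with rfl | he
  · exact ⟨v, (mem_inter.1 hv).1, h3⟩
  · exact h1 e he

theorem MC.nj_disjoint {W : Finset (Finset V)} (hW : MC W) {x y : Finset V} (h : NJ W x y) :
    Disjoint (x ∩ cov W) (y ∩ cov W) := by
  refine disjoint_left.2 fun v h1 h2 => ?_
  obtain ⟨C, a1, a2, a3⟩ := hW.cover_mem (mem_inter.1 h1).2
  exact h.no_cover a1 a2.le (mem_inter.1 h1).1 (mem_inter.1 h2).1 a3 a3

theorem MC.cross_disjoint {W : Finset (Finset V)} (hW : MC W) {A B : Finset V}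
    (hA : A ⊆ cov W) (h : Cross W A B) : Disjoint A B := by
  refine disjoint_left.2 fun v h1 h2 => ?_
  obtain ⟨C, a1, a2, a3⟩ := hW.cover_mem (hA h1)
  exact h C a1 a2.le v h1 v h2 a3 a3

theorem MC.rem_tau {H : Finset (Finset V)} (h : MC H) {t : V} (ht : 1 ≤ dg H t) :
    tau (H \ star H t) + 1 = tau H := by
  obtain ⟨e, he⟩ := card_pos.1 ht
  have h1 := tau_star h.nes t
  have h2 := h.crit e (mem_star.1 he).1
  have h3 : tau (H \ star H t) ≤ tau (H.erase e) :=
    tau_mono (h.nes.mono (erase_subset _ _)) fun f hf =>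
      mem_erase.2 ⟨fun e1 => (mem_sdiff.1 hf).2 (e1 ▸ he), (mem_sdiff.1 hf).1⟩
  omega

/-- in a critical family with two members no member contains another one -/
theorem MC.not_sub {H : Finset (Finset V)} (h : MC H) {x y : Finset V} (hx : x ∈ H) (hy : y ∈ H)
    (hs : x ⊆ y) : x = y := by
  by_contra c
  obtain ⟨T, hT, e⟩ := exists_opt (h.nes.mono (erase_subset y H))
  have : tau H ≤ T.card := tau_le fun f hf => by
    by_cases k : f = y
    · obtain ⟨v, a, b⟩ := hT x (mem_erase.2 ⟨c, hx⟩)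
      exact ⟨v, k ▸ hs a, b⟩
    · exact hT f (mem_erase.2 ⟨k, hf⟩)
  have := h.crit y hy
  omega

namespace MFam

variable {H : Finset (Finset V)} {F : Finset (Finset (Finset V))}

theorem un_sub (h : MFam H F) : un F ⊆ H := fun _ he =>
  (mem_un.1 he).elim fun W a => h.sub W a.1 a.2

theorem mono {H' : Finset (Finset V)} {F' : Finset (Finset (Finset V))} (h : MFam H F)
    (hH : H ⊆ H') (hF : F' ⊆ F) : MFam H' F' :=
  ⟨fun W hW => (h.sub W (hF hW)).trans hH, fun W hW => h.mc W (hF hW),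
    fun W hW W' hW' => h.sep W (hF hW) W' (hF hW')⟩

theorem nes (h : MFam H F) : NE (un F) := fun e he => by
  obtain ⟨W, a, b⟩ := mem_un.1 he
  exact (h.mc W a).nes e b

theorem union {A B : Finset (Finset V)} {G : Finset (Finset (Finset V))} (h : Sep A B)
    (hF : MFam A F) (hG : MFam B G) : MFam (A ∪ B) (F ∪ G) := by
  refine ⟨fun W hW => ?_, fun W hW => ?_, fun W hW W' hW' hne => ?_⟩
  · exact (mem_union.1 hW).elim (fun a => (hF.sub W a).trans subset_union_left)
      fun a => (hG.sub W a).trans subset_union_right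
  · exact (mem_union.1 hW).elim (hF.mc W) (hG.mc W)
  · rcases mem_union.1 hW with a | a <;> rcases mem_union.1 hW' with b | b
    · exact hF.sep W a W' b hne
    · exact h.mono (hF.sub W a) (hG.sub W' b)
    · exact h.symm.mono (hG.sub W a) (hF.sub W' b)
    · exact hG.sep W a W' b hne

theorem tau_un (h : MFam H F) : tau (un F) = ∑ W ∈ F, tau W := by
  induction F using Finset.induction_on with
  | empty => exact tau_empty
  | insert W F hW ih =>
    rw [sum_insert hW, ← ih (h.mono subset_rfl (subset_insert _ _)), un, biUnion_insert]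
    refine tau_union_sep (h.mc W (mem_insert_self _ _)).nes
      (h.mono subset_rfl (subset_insert _ _)).nes fun e he f hf => ?_
    obtain ⟨W', a, b⟩ := mem_un.1 hf
    exact h.sep W (mem_insert_self _ _) W' (mem_insert_of_mem a) (fun c => hW (c ▸ a)) e he f b

theorem disj (h : MFam H F) {W W' : Finset (Finset V)} (a : W ∈ F) (b : W' ∈ F) (c : W ≠ W') :
    Disjoint W W' := (h.sep W a W' b c).disjoint (h.mc W a).nes

theorem card_filter (h : MFam H F) (p : Finset V → Prop) [DecidablePred p] :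
    ((un F).filter p).card = ∑ W ∈ F, (W.filter p).card := by
  rw [un, filter_biUnion]
  exact card_biUnion fun W a W' b c => disjoint_filter_filter (h.disj a b c)

theorem card_un (h : MFam H F) : (un F).card = ∑ W ∈ F, W.card := by
  simpa using h.card_filter fun _ => True

theorem sum_un {M : Type} [AddCommMonoid M] (h : MFam H F) (f : Finset V → M) :
    ∑ x ∈ un F, f x = ∑ W ∈ F, ∑ x ∈ W, f x :=
  sum_biUnion fun _ a _ b c => h.disj a b c

theorem sum_cov {M : Type} [AddCommMonoid M] (h : MFam H F) (f : V → M) :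
    ∑ v ∈ cov (un F), f v = ∑ W ∈ F, ∑ v ∈ cov W, f v := by
  rw [faml_cov]
  exact sum_biUnion fun W a W' b c => (h.sep W a W' b c).disjoint_cov

theorem cov_un (h : MFam H F) : (cov (un F)).card = ∑ W ∈ F, (cov W).card := by
  simpa using h.sum_cov (M := ℕ) fun _ => 1

theorem dd_un (h : MFam H F) (x : Finset V) : dd (un F) x = ∑ W ∈ F, dd W x := by
  simpa [dd, inter_comm x] using h.sum_cov (M := ℕ) fun v => if v ∈ x then 1 else 0

theorem card_eq (h : MFam H F) : H.card = ∑ W ∈ F, W.card + (H \ un F).card := by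
  rw [← h.card_un, add_comm, card_sdiff_add_card_eq_card h.un_sub]

theorem sum_eq {M : Type} [AddCommMonoid M] (h : MFam H F) (f : Finset V → M) :
    ∑ x ∈ H, f x = ∑ W ∈ F, ∑ x ∈ W, f x + ∑ x ∈ H \ un F, f x := by
  rw [← h.sum_un, add_comm, sum_sdiff h.un_sub]

theorem cov_eq (h : MFam H F) :
    (cov H).card = ∑ W ∈ F, (cov W).card + (cov H \ cov (un F)).card := by
  rw [← h.cov_un, add_comm, card_sdiff_add_card_eq_card (cov_mono h.un_sub)]

theorem size (h : MFam H F) (x : Finset V) :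
    ∑ W ∈ F, dd W x + (x \ cov (un F)).card = x.card := by
  rw [← h.dd_un, dd, card_inter_add_card_sdiff]

/-- inside a piece the star is the star of the union -/
theorem star_un (h : MFam H F) {W : Finset (Finset V)} (hW : W ∈ F) {v : V} (hv : v ∈ cov W) :
    star (un F) v = star W v := by
  refine Subset.antisymm (fun e he => ?_) (star_mono (sub_un hW) v)
  obtain ⟨a, b⟩ := mem_star.1 he
  obtain ⟨W', c, d⟩ := mem_un.1 a
  obtain ⟨f, f1, f2⟩ := mem_cov.1 hv
  by_cases k : W = W'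
  · exact mem_star.2 ⟨k ▸ d, b⟩
  · exact absurd ⟨v, f2, b⟩ (h.sep W hW W' c k f f1 e d)

/-- a vertex lies in at most one piece -/
theorem eq_of_mem (h : MFam H F) {W W' : Finset (Finset V)} (hW : W ∈ F) (hW' : W' ∈ F) {v : V}
    (hv : v ∈ cov W) (hv' : v ∈ cov W') : W = W' := by
  by_contra c
  exact disjoint_left.1 (h.sep W hW W' hW' c).disjoint_cov hv hv'

/-- a connected subfamily of the union lies in one piece -/
theorem conn_sub (h : MFam H F) {S : Finset (Finset V)} (hS : Conn S) (hSF : S ⊆ un F)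
    {W : Finset (Finset V)} (hW : W ∈ F) {e : Finset V} (he : e ∈ S) (heW : e ∈ W) : S ⊆ W := by
  by_contra hn
  obtain ⟨u, hu, z, hz, hz', a⟩ := hS (S ∩ W) inter_subset_left ⟨e, mem_inter.2 ⟨he, heW⟩⟩
    fun c => hn (inter_eq_left.1 c)
  obtain ⟨W', b, c⟩ := mem_un.1 (hSF hz)
  exact h.sep W hW W' b (fun d => hz' (mem_inter.2 ⟨hz, d ▸ c⟩)) u (mem_inter.1 hu).2 z c a

/-- a critical member survives in the core -/
theorem mem_of_crit (h : MFam H F) (hH : NE H) (ht : tau (un F) = tau H) {e : Finset V}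
    (hc : tau (H.erase e) < tau H) : e ∈ un F := by
  by_contra c
  have := tau_mono (hH.mono (erase_subset e H)) (show un F ⊆ H.erase e from fun x hx =>
    mem_erase.2 ⟨fun k => c (k ▸ hx), h.un_sub hx⟩)
  omega

/-- one piece against the others -/
theorem sep_erase (h : MFam H F) {W : Finset (Finset V)} (hW : W ∈ F) :
    Sep W (un (F.erase W)) := fun e he f hf => by
  obtain ⟨W', a, b⟩ := mem_un.1 hf
  exact h.sep W hW W' (mem_of_mem_erase a) (ne_of_mem_erase a).symm e he f b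

end MFam

theorem exists_mcore {S : Finset (Finset V)} (h : NE S) :
    ∃ F, MFam S F ∧ tau (un F) = tau S := by
  induction S using Finset.strongInduction with
  | H S ih =>
    rcases S.eq_empty_or_nonempty with rfl | hne
    · exact ⟨∅, ⟨by simp, by simp, by simp⟩, rfl⟩
    by_cases hc : Crit S
    · by_cases hn : Conn S
      · exact ⟨{S}, ⟨by simp, by simpa using ⟨h, hc, hn, hne⟩, by simp⟩, by simp [un]⟩
      · obtain ⟨W, h1, h2, h3, h4⟩ := not_conn hn
        have a := h.mono h1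
        have b : NE (S \ W) := h.mono sdiff_subset
        obtain ⟨F, hF, eF⟩ := ih W (Finset.ssubset_iff_subset_ne.2 ⟨h1, h3⟩) a
        obtain ⟨G, hG, eG⟩ := ih _ (sdiff_ssubset h1 h2) b
        have h5 := MFam.union h4 hF hG
        have h6 := tau_union_sep a b h4
        rw [union_sdiff_of_subset h1] at h5 h6
        refine ⟨F ∪ G, h5, ?_⟩
        rw [h6, ← eF, ← eG, ← tau_union_sep (a.mono hF.un_sub) (b.mono hG.un_sub)
          (h4.mono hF.un_sub hG.un_sub), un, union_biUnion]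
        rfl
    · obtain ⟨e, he, h1⟩ : ∃ e ∈ S, tau S ≤ tau (S.erase e) := by simpa [Crit] using hc
      obtain ⟨F, hF, eF⟩ := ih _ (erase_ssubset he) (h.mono (erase_subset _ _))
      exact ⟨F, hF.mono (erase_subset _ _) subset_rfl,
        eF.trans (le_antisymm (tau_mono h (erase_subset _ _)) h1)⟩

theorem MC.exists_step {H : Finset (Finset V)} (h : MC H) {t : V} (ht : 1 ≤ dg H t) :
    ∃ F, MFam (H \ star H t) F ∧ ∑ W ∈ F, tau W + 1 = tau H := by
  obtain ⟨F, hF, e⟩ := exists_mcore (S := H \ star H t) (h.nes.mono sdiff_subset)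
  exact ⟨F, hF, by rw [← hF.tau_un, e, h.rem_tau ht]⟩

theorem mix_adj {H : Finset (Finset V)} {F G : Finset (Finset (Finset V))} (hF : MFam H F)
    (hG : G ⊆ F) {u z : Finset V} (hu : u ∈ un G) (hz : z ∈ H) (hz' : z ∉ un G) (h : Adj u z) :
    z ∈ nlem_nb H F G := by
  obtain ⟨W, hW, huW⟩ := mem_un.1 hu
  refine nlem_mem.2 ⟨⟨hz, fun k => ?_⟩, W, hW, dd_pos.2 ⟨u, huW, h.symm⟩⟩
  obtain ⟨W', hW', hzW⟩ := mem_un.1 k
  exact hF.sep W (hG hW) W' hW' (fun e => hz' (sub_un hW (e ▸ hzW))) u huW z hzW h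

theorem mix_tau {H M : Finset (Finset V)} {G K : Finset (Finset (Finset V))} (hH : NE H)
    (hK : MFam H K) (hE : ∀ W ∈ G, Abs2 W) (f : M → Finset (Finset V) × Bool)
    (hf : Function.Injective f) (h : ∀ x, f x ∈ qn_sl G K ∧ 1 ≤ dd (f x).1 x.1) :
    tau (un K ∪ M) ≤ tau (un K) := by
  have key : ∀ W ∈ K, ∃ C, Hits C W ∧ C.card ≤ tau W ∧
      ∀ x, (f x).1 = W → ∃ v ∈ x.1, v ∈ C := by
    intro W hW
    have one : ∀ x, (f x).1 = W → (∀ y, (f y).1 = W → y = x) →
        ∃ C, Hits C W ∧ C.card ≤ tau W ∧ ∀ x, (f x).1 = W → ∃ v ∈ x.1, v ∈ C := by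
      intro x hx hu
      obtain ⟨v, h1, h2⟩ := qn_pt (h x).2
      obtain ⟨C, c1, c2, c3⟩ := (hK.mc W hW).cover_mem (hx ▸ h2)
      exact ⟨C, c1, c2.le, fun y hy => hu y hy ▸ ⟨v, h1, c3⟩⟩
    have two : ∀ y, (f y).1 = W → f y = (W, false) ∨ f y = (W, true) := by
      intro y hy
      rcases Bool.eq_false_or_eq_true (f y).2 with k | k
      · exact Or.inr (Prod.ext hy k)
      · exact Or.inl (Prod.ext hy k)
    by_cases k0 : ∃ x, f x = (W, false)
    · obtain ⟨x, hx⟩ := k0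
      have hx1 : (f x).1 = W := by rw [hx]
      by_cases k1 : ∃ y, f y = (W, true)
      · obtain ⟨y, hy⟩ := k1
        have hy1 : (f y).1 = W := by rw [hy]
        have hWG : W ∈ G := hy1 ▸ (qn_mem.1 (h y).1).2 (by rw [hy])
        obtain ⟨v, v1, v2⟩ := qn_pt (h x).2
        obtain ⟨w, w1, w2⟩ := qn_pt (h y).2
        obtain ⟨C, c1, c2, c3, c4⟩ := hE W hWG v (hx1 ▸ v2) w (hy1 ▸ w2)
        refine ⟨C, c1, c2, fun z hz => ?_⟩
        rcases two z hz with k | k
        · rw [hf (k.trans hx.symm)]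
          exact ⟨v, v1, c3⟩
        · rw [hf (k.trans hy.symm)]
          exact ⟨w, w1, c4⟩
      · refine one x hx1 fun y hy => ?_
        rcases two y hy with k | k
        · exact hf (k.trans hx.symm)
        · exact absurd ⟨y, k⟩ k1
    · by_cases k1 : ∃ y, f y = (W, true)
      · obtain ⟨x, hx⟩ := k1
        refine one x (by rw [hx]) fun y hy => ?_
        rcases two y hy with k | k
        · exact absurd ⟨y, k⟩ k0
        · exact hf (k.trans hx.symm)
      · obtain ⟨C, h1, h2⟩ := exists_opt (hH.mono (hK.sub _ hW))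
        refine ⟨C, h1, h2.le, fun y hy => ?_⟩
        rcases two y hy with k | k
        · exact absurd ⟨y, k⟩ k0
        · exact absurd ⟨y, k⟩ k1
  choose! C c1 c2 c3 using key
  rw [hK.tau_un]
  refine (tau_le (T := K.biUnion C) fun e he => ?_).trans (card_biUnion_le.trans (sum_le_sum c2))
  rcases mem_union.1 he with he | he
  · obtain ⟨W, hW, heW⟩ := mem_un.1 he
    obtain ⟨v, h1, h2⟩ := c1 W hW e heW
    exact ⟨v, h1, mem_biUnion.2 ⟨W, hW, h2⟩⟩
  · have h0 := (qn_mem.1 (h ⟨e, he⟩).1).1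
    obtain ⟨v, h1, h2⟩ := c3 _ h0 ⟨e, he⟩ rfl
    exact ⟨v, h1, mem_biUnion.2 ⟨_, h0, h2⟩⟩

theorem MC.nlemma2 {H N : Finset (Finset V)} {F G : Finset (Finset (Finset V))} (hH : MC H)
    (hF : MFam H F) (hG : G ⊆ F) (hE : ∀ W ∈ G, Abs2 W) (hne : F.Nonempty)
    (hx : ∃ x ∈ H, x ∉ un F)
    (hN : ∀ x ∈ H, x ∉ un F → ∀ W ∈ F, 1 ≤ dd W x → x ∈ N) : F.card + G.card + 1 ≤ N.card := by
  by_contra hcon
  have hne' := hH.nes
  have hc := qn_card G F
  rw [inter_eq_right.2 hG] at hc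
  obtain ⟨K, ⟨hK, hKn, hle⟩, hmin⟩ := exists_min'
    (fun K => K ⊆ F ∧ K.Nonempty ∧ (nlem_nb H F K).card ≤ (qn_sl G K).card) card
    ⟨F, Subset.rfl, hne, (card_le_card fun x hx => by
      obtain ⟨⟨h1, h2⟩, W, hW, hd⟩ := nlem_mem.1 hx
      exact hN x h1 h2 W hW hd).trans (by omega)⟩
  have hK' : MFam H K := hF.mono Subset.rfl hK
  have hKF : un K ⊆ un F := fun e he => by
    obtain ⟨W, hW, heW⟩ := mem_un.1 he
    exact sub_un (hK hW) heW
  have hM : nlem_nb H F K ⊆ H := fun x hx => (nlem_mem.1 hx).1.1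
  obtain ⟨f, hf, hf'⟩ := qn_hall hK hle fun K' h1 h2 h3 => hmin K' ⟨h1, h2, h3⟩
  have t1 := mix_tau hne' hK' hE f hf hf'
  obtain ⟨u, hu, z, hz, hz', ha⟩ := hH.conn (un K) hK'.un_sub (by
    obtain ⟨W, hW⟩ := hKn
    exact (hK'.mc W hW).ne.mono (sub_un hW)) (fun e => by
    obtain ⟨x, h1, h2⟩ := hx
    exact h2 (hKF (e.symm ▸ h1)))
  have hzM := mix_adj hF hK hu hz hz' ha
  have hU : un K ∪ nlem_nb H F K ⊆ H := union_subset hK'.un_sub hM
  have t2 := tau_union_le (hne'.mono hU) (hne'.mono (sdiff_subset (t := un K ∪ nlem_nb H F K)))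
  rw [union_sdiff_of_subset hU] at t2
  have t3 := tau_union_sep (hne'.mono hK'.un_sub)
    (hne'.mono (sdiff_subset (t := un K ∪ nlem_nb H F K))) fun e he y hy k => by
      rw [mem_sdiff, mem_union, not_or] at hy
      exact hy.2.2 (mix_adj hF hK he hy.1 hy.2.1 k)
  have t4 : tau (un K ∪ H \ (un K ∪ nlem_nb H F K)) ≤ tau (H.erase z) :=
    tau_mono (hne'.mono (erase_subset _ _)) fun e he => by
      rcases mem_union.1 he with he | he
      · exact mem_erase.2 ⟨fun k => hz' (k ▸ he), hK'.un_sub he⟩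
      · rw [mem_sdiff] at he
        exact mem_erase.2 ⟨fun k => he.2 (mem_union_right _ (k ▸ hzM)), he.1⟩
  have t5 := hH.crit z hz
  omega

theorem MC.nlemma {H N : Finset (Finset V)} {F : Finset (Finset (Finset V))} (hH : MC H)
    (hF : MFam H F) (hne : F.Nonempty) (hx : ∃ x ∈ H, x ∉ un F)
    (hN : ∀ x ∈ H, x ∉ un F → ∀ W ∈ F, 1 ≤ dd W x → x ∈ N) : F.card + 1 ≤ N.card := by
  simpa using hH.nlemma2 hF (empty_subset F) (by simp) hne hx hN

theorem MC.nl_all {H : Finset (Finset V)} {F : Finset (Finset (Finset V))} (hH : MC H)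
    (hF : MFam H F) (hx : ∃ x ∈ H, x ∉ un F) : F.card + 1 ≤ (H \ un F).card := by
  rcases F.eq_empty_or_nonempty with rfl | hne
  · obtain ⟨x, h1, h2⟩ := hx
    exact card_pos.2 ⟨x, mem_sdiff.2 ⟨h1, h2⟩⟩
  · exact hH.nlemma hF hne hx fun x h1 h2 _ _ _ => mem_sdiff.2 ⟨h1, h2⟩

theorem mfam_one {H W : Finset (Finset V)} (hW : MC W) (hs : W ⊆ H) : MFam H {W} :=
  ⟨fun _ h => mem_singleton.1 h ▸ hs, fun _ h => mem_singleton.1 h ▸ hW,
    fun _ h _ h' k => absurd ((mem_singleton.1 h).trans (mem_singleton.1 h').symm) k⟩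

theorem MC.nl1 {H W N : Finset (Finset V)} (hH : MC H) (hW : MC W) (hs : W ⊆ H)
    (hx : ∃ x ∈ H, x ∉ W) (hN : ∀ x ∈ H, x ∉ W → 1 ≤ dd W x → x ∈ N) : 2 ≤ N.card := by
  have hu : un {W} = W := by simp [un]
  have := hH.nlemma (N := N) (mfam_one hW hs) (singleton_nonempty W) (hu.symm ▸ hx)
    fun x h1 h2 W' h hd => hN x h1 (hu ▸ h2) (mem_singleton.1 h ▸ hd)
  rwa [card_singleton] at this

theorem MC.nl2 {H W W' N : Finset (Finset V)} (hH : MC H) (hW : MC W) (hW' : MC W') (hs : W ⊆ H)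
    (hs' : W' ⊆ H) (hsep : Sep W W') (hx : ∃ x ∈ H, x ∉ W ∧ x ∉ W')
    (hN : ∀ x ∈ H, x ∉ W → x ∉ W' → (1 ≤ dd W x ∨ 1 ≤ dd W' x) → x ∈ N) : 3 ≤ N.card := by
  have hne : W ≠ W' := by
    rintro rfl
    obtain ⟨e, he⟩ := hW.ne
    obtain ⟨v, hv⟩ := hW.nes e he
    exact hsep e he e he ⟨v, hv, hv⟩
  have hu : ∀ x, x ∉ un {W, W'} ↔ x ∉ W ∧ x ∉ W' := fun x => by simp [un]
  have := hH.nlemma (N := N) (F := {W, W'}) ⟨by simp [hs, hs'], by simp [hW, hW'],
    by simp [hsep, hsep.symm]⟩ (insert_nonempty _ _) (by simpa only [hu] using hx)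
    fun x h1 h2 W'' h hd => hN x h1 ((hu x).1 h2).1 ((hu x).1 h2).2 (by
      rcases mem_insert.1 h with rfl | h
      · exact Or.inl hd
      · exact Or.inr (mem_singleton.1 h ▸ hd))
  rwa [card_pair hne] at this

/-- exchange the part of a transversal inside a subfamily -/
theorem swap_cover {H W R : Finset (Finset V)} {C T : Finset V} (hR : Hits T R) (hWR : W ⊆ R)
    (hC : Hits C W) (hall : ∀ e ∈ H, e ∈ W ∨ (∃ v ∈ e, v ∈ C) ∨ (e ∈ R ∧ Disjoint e (cov W)) ∨
      ∃ v ∈ e, v ∈ T ∧ v ∉ cov W) : tau H + tau W ≤ T.card + C.card := by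
  have h1 : tau W ≤ (T ∩ cov W).card := tau_le fun e he => by
    obtain ⟨v, a, b⟩ := hR e (hWR he)
    exact ⟨v, a, mem_inter.2 ⟨b, mem_cov.2 ⟨e, he, a⟩⟩⟩
  have h2 : tau H ≤ (T \ cov W ∪ C).card := tau_le fun e he => by
    rcases hall e he with k | ⟨v, a, b⟩ | ⟨k, d⟩ | ⟨v, a, b, c⟩
    · obtain ⟨v, a, b⟩ := hC e k
      exact ⟨v, a, mem_union_right _ b⟩
    · exact ⟨v, a, mem_union_right _ b⟩
    · obtain ⟨v, a, b⟩ := hR e k
      exact ⟨v, a, mem_union_left _ (mem_sdiff.2 ⟨b, disjoint_left.1 d a⟩)⟩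
    · exact ⟨v, a, mem_union_left _ (mem_sdiff.2 ⟨b, c⟩)⟩
  have h3 := card_union_le (T \ cov W) C
  have h4 := card_inter_add_card_sdiff T (cov W)
  omega

/-- if a minimum transversal of the piece `W` meets all its hosts, there is no host -/
theorem MC.no_abs {H W : Finset (Finset V)} (hH : MC H) (hW : W.Nonempty) (hs : W ⊆ H)
    (hne : W ≠ H) {C : Finset V} (hC : Hits C W) (hc : C.card ≤ tau W)
    (hall : ∀ x ∈ H, x ∉ W → 1 ≤ dd W x → ∃ v ∈ x, v ∈ C) : False := by
  obtain ⟨-, -, z, hz, hz', -⟩ := hH.conn W hs hW hne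
  obtain ⟨u, hu, x, hx, hx', ha⟩ := hH.conn W hs hW hne
  obtain ⟨T, hT, e⟩ := exists_opt (hH.nes.mono (erase_subset x H))
  have := swap_cover (H := H) hT (fun f hf => mem_erase.2 ⟨fun k => hx' (k ▸ hf), hs hf⟩) hC
    fun f hf => by
      by_cases k : f ∈ W
      · exact Or.inl k
      by_cases k' : 1 ≤ dd W f
      · exact Or.inr (Or.inl (hall f hf k k'))
      · refine Or.inr (Or.inr (Or.inl ⟨mem_erase.2 ⟨fun c => k' ?_, hf⟩, ?_⟩))
        · exact c ▸ dd_pos.2 ⟨u, hu, ha.symm⟩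
        · exact disjoint_iff_inter_eq_empty.2 (card_eq_zero.1 (by unfold dd at k'; omega))
  have := hH.crit x hx
  omega

/-- (F5) a proper piece has two different vertices that lie in hosts -/
theorem MC.two_blocks {H W : Finset (Finset V)} (hH : MC H) (hW : MC W) (hs : W ⊆ H)
    (hne : W ≠ H) : ∃ v ∈ cov W, ∃ w ∈ cov W, v ≠ w ∧ (∃ x ∈ H, x ∉ W ∧ v ∈ x) ∧
      ∃ y ∈ H, y ∉ W ∧ w ∈ y := by
  by_contra c
  obtain ⟨u, hu, x, hx, hx', v, v1, v2⟩ := hH.conn W hs hW.ne hne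
  have hv : v ∈ cov W := mem_cov.2 ⟨u, hu, v1⟩
  obtain ⟨C, c1, c2, c3⟩ := hW.cover_mem hv
  refine hH.no_abs hW.ne hs hne c1 c2.le fun y hy hy' hd => ?_
  obtain ⟨w, w1, w2⟩ := qn_pt hd
  by_cases k : v = w
  · exact ⟨w, w1, k ▸ c3⟩
  · exact absurd ⟨v, hv, w, w2, k, ⟨x, hx, hx', v2⟩, y, hy, hy', w1⟩ c

/-- a proper piece with exactly the hosts `x`, `y`: they are not joint -/
theorem MC.two_hosts {H W : Finset (Finset V)} (hH : MC H) (hW : W.Nonempty) (hs : W ⊆ H)
    (hne : W ≠ H) {x y : Finset V} (hN : ∀ z ∈ H, z ∉ W → 1 ≤ dd W z → z = x ∨ z = y) :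
    Cross W x y := fun C c1 c2 v hv w hw a b =>
  hH.no_abs hW hs hne c1 c2 fun z hz hz' hd => by
    rcases hN z hz hz' hd with rfl | rfl
    exacts [⟨v, hv, a⟩, ⟨w, hw, b⟩]

end Pool.Agent.Work.MP_d266e7_co.C5.P24
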