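import Pool.Agent.Work.MP_d266e7_co.Full.Sum

/-!
Merging a pair to its core: the merged family, its pieces `MP`, the split case `Sp` and the
put-back family.
-/

namespace Pool.Agent.Work.MP_d266e7_co.Mix

open Finset C5 C5.P24

variable {V : Type} [DecidableEq V] {β : ℕ} {H X : Finset (Finset V)} {c w : Finset V}

theorem Pr.core_ne (h : Pr H c w) : (c ∩ w).Nonempty := card_pos.1 (by rw [h.i3]; omega)

theorem mrg_comm (H : Finset (Finset V)) (c w : Finset V) : mrg H c w = mrg H w c :=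
  P24.mrg_comm H c w

theorem core_mem_mrg : c ∩ w ∈ mrg H c w := mem_insert_self _ _

theorem Pr.core_not (h : Pr H c w) (hH : MC H) : c ∩ w ∉ H := fun k => by
  have a := congrArg card (hH.not_sub k h.mc inter_subset_left)
  rw [h.i3, h.c5] at a
  omega

theorem Pr.c_not (h : Pr H c w) : c ∉ mrg H c w := fun k => by
  rcases mem_mrg.1 k with a | a
  · have := congrArg card a
    rw [h.i3, h.c5] at this
    omega
  · exact a.2.1 rfl

theorem Pr.w_not (h : Pr H c w) : w ∉ mrg H c w := mrg_comm H w c ▸ h.symm.c_not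

theorem Pr.sum_mrg (h : Pr H c w) (hH : MC H) (f : Finset V → ℕ) :
    ∑ e ∈ mrg H c w, f e + f c + f w = ∑ e ∈ H, f e + f (c ∩ w) := by
  have a := sum_erase_add H f h.mc
  have b := sum_erase_add (H.erase c) f (mem_erase.2 ⟨h.ne.symm, h.mw⟩)
  rw [mrg, sum_insert (hH.core_not h.mc)]
  omega

theorem Pr.card_mrg (h : Pr H c w) (hH : MC H) : (mrg H c w).card + 1 = H.card := by
  have := h.sum_mrg hH fun _ => 1
  rw [← card_eq_sum_ones, ← card_eq_sum_ones] at this
  omega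

theorem Pr.ws_mrg (h : Pr H c w) (hH : MC H) : ws (mrg H c w) = ws H := by
  have := h.sum_mrg hH wt
  rw [wt5 h.c5, wt5 h.w5, wt3 h.i3] at this
  unfold ws
  omega

theorem dg_eq_sum (G : Finset (Finset V)) (v : V) :
    dg G v = ∑ e ∈ G, if v ∈ e then 1 else 0 := card_filter _ _

theorem wdeg_eq_sum (G : Finset (Finset V)) (v : V) :
    wdeg G v = ∑ e ∈ G, if v ∈ e then wt e else 0 := sum_filter _ _

/-- every block of the pair loses exactly one node -/
theorem Pr.dg_mrg (h : Pr H c w) (hH : MC H) (v : V) :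
    dg (mrg H c w) v + (if v ∈ c ∨ v ∈ w then 1 else 0) = dg H v := by
  have := h.sum_mrg hH fun e => if v ∈ e then 1 else 0
  rw [← dg_eq_sum, ← dg_eq_sum] at this
  by_cases a : v ∈ c <;> by_cases b : v ∈ w <;> simp [a, b] at this ⊢ <;> omega

theorem Pr.dg_mrg_le (h : Pr H c w) (hH : MC H) (v : V) : dg (mrg H c w) v ≤ dg H v := by
  have := h.dg_mrg hH v
  omega

theorem Pr.cov_mrg (h : Pr H c w) (hH : MC H) : cov (mrg H c w) = cov H := by
  ext v
  rw [← dg_pos, ← dg_pos]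
  have := h.dg_mrg hH v
  split_ifs at this with k
  · have := h.dg2 k
    omega
  · omega

theorem Pr.cls_mrg (h : Pr H c w) (hH : MC H) (hc : Cls H) : Cls (mrg H c w) := by
  refine ⟨fun e he => ?_, fun v => le_trans ?_ (hc.d4 v), fun e he f hf k => ?_⟩
  · rcases mem_mrg.1 he with rfl | a
    exacts [Or.inl h.i3, hc.sz e a.1]
  · have := h.sum_mrg hH fun e => if v ∈ e then wt e else 0
    rw [← wdeg_eq_sum, ← wdeg_eq_sum, wt5 h.c5, wt5 h.w5, wt3 h.i3] at this
    by_cases a : v ∈ c <;> by_cases b : v ∈ w <;> simp [a, b] at this ⊢ <;> omega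
  · rcases mem_mrg.1 he with rfl | a
    · exact (card_le_card inter_subset_left).trans h.i3.le
    rcases mem_mrg.1 hf with rfl | b
    · exact (card_le_card inter_subset_right).trans h.i3.le
    · exact hc.c3 e a.1 f b.1 k

theorem Pr.tau_mrg (h : Pr H c w) (hH : MC H) : tau (mrg H c w) = tau H :=
  hH.mrg_tau h.mc h.core_ne

theorem Pr.ne_mrg (h : Pr H c w) (hH : MC H) : NE (mrg H c w) := mrg_ne hH.nes h.core_ne

theorem Pr.mem_of5 (h : Pr H c w) {e : Finset V} (he : e ∈ mrg H c w) (h5 : e.card = 5) :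
    e ∈ H ∧ e ≠ c ∧ e ≠ w := (mem_mrg.1 he).resolve_left fun k => by
  rw [k, h.i3] at h5
  omega

theorem Pr.dom_mrg (h : Pr H c w) (hH : MC H) (s : X ⊆ mrg H c w) : Dom H X :=
  ⟨fun _ a b _ => (h.mem_of5 (s a) b).1, fun y a b => ⟨y, (h.mem_of5 (s a) b).1, b, fun _ c _ => c⟩,
    fun v _ => (dg_mono s v).trans (h.dg_mrg_le hH v)⟩

/-- a node that contains the legs of `c` is critical in the merged family -/
theorem Pr.crit_mrg (h : Pr H c w) (hH : MC H) {y : Finset V} (hy : y ∈ H) (hl : c \ w ⊆ y)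
    (hc : y ≠ c) : tau ((mrg H c w).erase y) < tau (mrg H c w) := by
  obtain ⟨T, hT, e⟩ := exists_opt (hH.nes.mono (erase_subset y H))
  have a := hH.crit y hy
  obtain ⟨v, v1, v2⟩ := hT c (mem_erase.2 ⟨hc.symm, h.mc⟩)
  by_cases k : v ∈ w
  · have : tau ((mrg H c w).erase y) ≤ T.card := tau_le fun x hx => by
      rcases mem_mrg.1 (mem_of_mem_erase hx) with rfl | b
      · exact ⟨v, mem_inter.2 ⟨v1, k⟩, v2⟩
      · exact hT x (mem_erase.2 ⟨ne_of_mem_erase hx, b.1⟩)
    rw [h.tau_mrg hH]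
    omega
  · have : tau H ≤ T.card := tau_le fun x hx => by
      by_cases b : x = y
      · exact ⟨v, b ▸ hl (mem_sdiff.2 ⟨v1, k⟩), v2⟩
      · exact hT x (mem_erase.2 ⟨b, hx⟩)
    omega

theorem sdiff_sub_sd (c w : Finset V) : c \ w ⊆ sd c w := fun _ hv =>
  mem_sd.2 (Or.inl (mem_sdiff.1 hv))

theorem Pr.card_leg (h : Pr H c w) : (c \ w).card = 2 := by
  have := card_sdiff_add_card_inter c w
  rw [h.i3, h.c5] at this
  omega

/-- a node that contains the legs is no member of the pair -/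
theorem Pr.wit_ne (h : Pr H c w) {y : Finset V} (hl : c \ w ⊆ y) : y ≠ w := fun k => by
  obtain ⟨v, hv⟩ := card_pos.1 (show 0 < (c \ w).card by rw [h.card_leg]; omega)
  exact (mem_sdiff.1 hv).2 (k ▸ hl hv)

/-- the pieces `F` of the merged family; the core lies in `W1` -/
structure MP (H : Finset (Finset V)) (c w : Finset V) (F : Finset (Finset (Finset V)))
    (W1 : Finset (Finset V)) : Prop where
  mc : MC H
  cls : Cls H
  pr : Pr H c w
  fam : MFam (mrg H c w) F
  tau : ∑ W ∈ F, tau W = tau H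
  w1 : W1 ∈ F
  s1 : c ∩ w ∈ W1

theorem exists_mp (hH : MC H) (hc : Cls H) (h : Pr H c w) : ∃ F W1, MP H c w F W1 := by
  obtain ⟨F, hF, e⟩ := exists_mcore (h.ne_mrg hH)
  obtain ⟨W1, a, b⟩ := mem_un.1 (hF.mem_of_crit (h.ne_mrg hH) e (hH.mrg_crit h.mc h.core_ne))
  exact ⟨F, W1, hH, hc, h, hF, by rw [← hF.tau_un, e, h.tau_mrg hH], a, b⟩

/-- the split case: no absorbed node, two pieces -/
structure Sp (H : Finset (Finset V)) (c w : Finset V) (W1 W2 : Finset (Finset V)) : Prop where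
  mc : MC H
  cls : Cls H
  pr : Pr H c w
  m1 : MC W1
  m2 : MC W2
  s1 : c ∩ w ∈ W1
  sep : Sep W1 W2
  all : mrg H c w = W1 ∪ W2
  tau : tau W1 + tau W2 = tau H

namespace MP

variable {F : Finset (Finset (Finset V))} {W1 W : Finset (Finset V)}

theorem symm (h : MP H c w F W1) : MP H w c F W1 :=
  ⟨h.mc, h.cls, h.pr.symm, mrg_comm H c w ▸ h.fam, h.tau, h.w1, inter_comm c w ▸ h.s1⟩

theorem cls' (h : MP H c w F W1) (hW : W ∈ F) : Cls W :=
  (h.pr.cls_mrg h.mc h.cls).mono (h.fam.sub W hW)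

theorem lt (h : MP H c w F W1) (hW : W ∈ F) : W.card < H.card := by
  have := card_le_card (h.fam.sub W hW)
  have := h.pr.card_mrg h.mc
  omega

theorem dom (h : MP H c w F W1) (hW : W ∈ F) : Dom H W := h.pr.dom_mrg h.mc (h.fam.sub W hW)

theorem core_not (h : MP H c w F W1) (hW : W ∈ F) (hne : W ≠ W1) : c ∩ w ∉ W := fun k =>
  disjoint_left.1 (h.fam.disj hW h.w1 hne) k h.s1

theorem sub (h : MP H c w F W1) (hW : W ∈ F) (hne : W ≠ W1) : W ⊆ H := fun _ he =>
  ((mem_mrg.1 (h.fam.sub W hW he)).resolve_left fun k => h.core_not hW hne (k ▸ he)).1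

/-- the other pieces are pieces of `H` -/
theorem real (h : MP H c w F W1) : MFam H (F.erase W1) :=
  ⟨fun _ a => h.sub (mem_of_mem_erase a) (ne_of_mem_erase a),
    fun W a => h.fam.mc W (mem_of_mem_erase a),
    fun W a W' b => h.fam.sep W (mem_of_mem_erase a) W' (mem_of_mem_erase b)⟩

theorem c_not (h : MP H c w F W1) : c ∉ un F := fun k => h.pr.c_not (h.fam.un_sub k)

theorem w_not (h : MP H c w F W1) : w ∉ un F := fun k => h.pr.w_not (h.fam.un_sub k)

/-- absorbed nodes are nodes of `H` -/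
theorem abs_sub (h : MP H c w F W1) : mrg H c w \ un F ⊆ H := fun _ he =>
  ((mem_mrg.1 (mem_sdiff.1 he).1).resolve_left fun k =>
    (mem_sdiff.1 he).2 (k ▸ sub_un h.w1 h.s1)).1

/-- a host of a piece is absorbed or a member of the pair -/
theorem host (h : MP H c w F W1) (hW : W ∈ F) {x : Finset V} (hx : x ∈ H) (hn : x ∉ W)
    (hd : 1 ≤ C5.dd W x) : x = c ∨ x = w ∨ x ∈ mrg H c w \ un F := by
  by_cases a : x = c
  · exact Or.inl a
  by_cases b : x = w
  · exact Or.inr (Or.inl b)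
  refine Or.inr (Or.inr (mem_sdiff.2 ⟨mem_mrg.2 (Or.inr ⟨hx, a, b⟩), fun k => ?_⟩))
  obtain ⟨W', d, e⟩ := mem_un.1 k
  obtain ⟨v, v1, v2⟩ := qn_pt hd
  exact hn (h.fam.eq_of_mem d hW (mem_cov.2 ⟨x, e, v1⟩) v2 ▸ e)

/-- a node that contains the legs of `c` survives -/
theorem mem_un (h : MP H c w F W1) {y : Finset V} (hy : y ∈ H) (hl : c \ w ⊆ y) (hc : y ≠ c) :
    y ∈ un F :=
  h.fam.mem_of_crit (h.pr.ne_mrg h.mc) (by rw [h.fam.tau_un, h.tau, h.pr.tau_mrg h.mc])
    (h.pr.crit_mrg h.mc hy hl hc)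

/-- the witness survives -/
theorem wit_mem (h : MP H c w F W1) {y : Finset V} (hy : y ∈ H) (hl : sd c w ⊆ y) : y ∈ un F :=
  h.mem_un hy ((sdiff_sub_sd c w).trans hl)
    (h.pr.symm.wit_ne ((sdiff_sub_sd w c).trans (sd_comm c w ▸ hl)))

/-- if the legs lie in the cover of the piece `Y`, the hosts of a third piece are absorbed -/
theorem host_abs (h : MP H c w F W1) {Y : Finset (Finset V)} (hY : Y ∈ F) (hl : sd c w ⊆ cov Y)
    (hW : W ∈ F) (h1 : W ≠ W1) (h2 : W ≠ Y) {x : Finset V} (hx : x ∈ H) (hn : x ∉ W)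
    (hd : 1 ≤ C5.dd W x) : x ∈ mrg H c w \ un F := by
  obtain ⟨v, v1, v2⟩ := qn_pt hd
  have key : v ∈ c ∨ v ∈ w → False := fun k => by
    by_cases a : v ∈ c ∩ w
    · exact h1 (h.fam.eq_of_mem hW h.w1 v2 (mem_cov.2 ⟨_, h.s1, a⟩))
    · exact h2 (h.fam.eq_of_mem hW hY v2 (hl (mem_sdiff.2 ⟨mem_union.2 k, a⟩)))
  rcases h.host hW hx hn hd with rfl | rfl | k
  exacts [(key (Or.inl v1)).elim, (key (Or.inr v1)).elim, k]

/-- the value of the pieces -/
theorem vb (h : MP H c w F W1) (h1 : 17 ≤ β) (h2 : β ≤ 216) :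
    ∑ W ∈ F, VB β W + 138 * ws (mrg H c w \ un F) ≤ VB β H := by
  have s := h.fam.un_sub
  have a := vb_dom h1 h2 h.cls.sz (Sz.mono (h.pr.cls_mrg h.mc h.cls).sz s)
    (fun v _ => (dg_mono s v).trans (h.pr.dg_mrg_le h.mc v))
    (fun x a b v d _ => by
      rcases mem_mrg.1 (s a) with rfl | k
      · exact h.pr.dg2 (Or.inl (mem_inter.1 d).1)
      · exact absurd k.1 b) (P := ∅) (by simp) (Q := ∅) (by simp)
  rw [sdiff_eq_empty_iff_subset.2 (h.pr.cov_mrg h.mc ▸ cov_mono s), h.fam.vb_un, h.fam.tau_un,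
    h.tau] at a
  have b := ws_sdiff s
  have := h.pr.ws_mrg h.mc
  simp only [card_empty] at a
  omega

/-- the cost of the other pieces -/
theorem cost (h : MP H c w F W1) (f : Finset (Finset V) → ℤ)
    (hf : ∀ W ∈ F, W ≠ W1 → -60 ≤ f W ∨ (Abs2 W ∧ -120 ≤ f W)) :
    F.card ≤ (mrg H c w \ un F).card + 2 ∧
      f W1 - 60 - 60 * ((mrg H c w \ un F).card : ℤ) ≤ ∑ W ∈ F, f W := by
  have u : un (F.erase W1) ⊆ un F := biUnion_subset_biUnion_of_subset_left _ (erase_subset _ _)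
  have a := cost_le h.mc h.real ⟨c, h.pr.mc, fun k => h.c_not (u k)⟩
    (N := insert c (insert w (mrg H c w \ un F)))
    (fun x a b W d e => by
      simpa only [mem_insert] using h.host (mem_of_mem_erase d) a (fun k => b (sub_un d k)) e) f
    fun W a => hf W (mem_of_mem_erase a) (ne_of_mem_erase a)
  have b1 := card_insert_le c (insert w (mrg H c w \ un F))
  have b2 := card_insert_le w (mrg H c w \ un F)
  have b3 := card_erase_add_one h.w1
  have b4 := add_sum_erase F f h.w1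
  rcases a with a | a
  · rw [a] at b3 b4
    simp only [card_empty, sum_empty] at b3 b4
    omega
  · omega

/-- no absorbed node: the cyclic case or the split case -/
theorem zero (h : MP H c w F W1) (hA : mrg H c w \ un F = ∅) :
    (F = {W1} ∧ mrg H c w = W1) ∨ ∃ W2, W1 ≠ W2 ∧ F = {W1, W2} ∧ Sp H c w W1 W2 := by
  have a := (h.cost (fun _ => 0) fun _ _ _ => Or.inl (by omega)).1
  have e : mrg H c w = un F := Subset.antisymm (sdiff_eq_empty_iff_subset.1 hA) h.fam.un_sub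
  have b := card_erase_add_one h.w1
  rw [hA, card_empty] at a
  by_cases k : F.card = 1
  · obtain ⟨W, rfl⟩ := card_eq_one.1 k
    rw [← mem_singleton.1 h.w1] at e ⊢
    exact Or.inl ⟨rfl, by rw [e, un, singleton_biUnion, id]⟩
  · obtain ⟨W2, d⟩ := card_eq_one.1 (show (F.erase W1).card = 1 by omega)
    have m : W2 ∈ F.erase W1 := d ▸ mem_singleton_self _
    have n : W1 ≠ W2 := (ne_of_mem_erase m).symm
    have f : F = {W1, W2} := by rw [← insert_erase h.w1, d]
    have t := h.tau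
    rw [f, sum_pair n] at t
    exact Or.inr ⟨W2, n, f, h.mc, h.cls, h.pr, h.fam.mc _ h.w1, h.fam.mc _ (mem_of_mem_erase m),
      h.s1, h.fam.sep _ h.w1 _ (mem_of_mem_erase m) n, by rw [e, f]; simp [un], t⟩

end MP

/-- a non-pendant pair leaves a second node in a family that contains all nodes at the core -/
theorem Pr.second (h : Pr H c w) (hn : ¬ Pend H c w) :
    ∃ x ∈ H, x ≠ c ∧ x ≠ w ∧ ∃ s ∈ c ∩ w, s ∈ x := by
  by_contra k
  refine hn ((Mix.pend_iff h.mc h.mw).2 fun x hx s hs a => ?_)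
  by_contra d
  exact k ⟨x, hx, fun e => d (Or.inl e), fun e => d (Or.inr e), s, hs, a⟩

/-- the merged family of a non-pendant pair is no exception -/
theorem Pr.mrg_not_exc (h : Pr H c w) (hH : MC H) (hn : ¬ Pend H c w) :
    ¬ (IsU (mrg H c w) ∨ (U5 (mrg H c w) ∧ E10 (mrg H c w))) := by
  obtain ⟨x, a, b, d, -⟩ := h.second hn
  exact not_exc3 core_mem_mrg h.i3 (mem_mrg.2 (Or.inr ⟨a, b, d⟩)) fun k => h.core_not hH (k ▸ a)

namespace Sp

variable {W1 W2 : Finset (Finset V)}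

theorem symm (h : Sp H c w W1 W2) : Sp H w c W1 W2 :=
  ⟨h.mc, h.cls, h.pr.symm, h.m1, h.m2, inter_comm c w ▸ h.s1, h.sep, mrg_comm H c w ▸ h.all,
    h.tau⟩

theorem sub1 (h : Sp H c w W1 W2) : W1 ⊆ mrg H c w := h.all ▸ subset_union_left

theorem sub2' (h : Sp H c w W1 W2) : W2 ⊆ mrg H c w := h.all ▸ subset_union_right

theorem disj (h : Sp H c w W1 W2) : Disjoint W1 W2 := h.sep.disjoint h.m1.nes

theorem sub2 (h : Sp H c w W1 W2) : W2 ⊆ H := fun _ he =>
  ((mem_mrg.1 (h.sub2' he)).resolve_left fun k => disjoint_left.1 h.disj h.s1 (k ▸ he)).1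

theorem cases (h : Sp H c w W1 W2) {x : Finset V} (hx : x ∈ H) :
    x = c ∨ x = w ∨ x ∈ W1 ∨ x ∈ W2 := by
  by_cases a : x = c
  · exact Or.inl a
  by_cases b : x = w
  · exact Or.inr (Or.inl b)
  exact Or.inr (Or.inr (mem_union.1 (h.all ▸ mem_mrg.2 (Or.inr ⟨hx, a, b⟩))))

theorem cov_eq (h : Sp H c w W1 W2) : cov H = cov W1 ∪ cov W2 := by
  rw [← h.pr.cov_mrg h.mc, h.all, cov, union_biUnion]
  rfl

theorem core_sub (h : Sp H c w W1 W2) : c ∩ w ⊆ cov W1 := fun _ hv => mem_cov.2 ⟨_, h.s1, hv⟩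

theorem card_eq (h : Sp H c w W1 W2) : W1.card + W2.card + 1 = H.card := by
  rw [← h.pr.card_mrg h.mc, h.all, card_union_of_disjoint h.disj]

theorem ws_eq (h : Sp H c w W1 W2) : ws W1 + ws W2 = ws H := by
  rw [← h.pr.ws_mrg h.mc, h.all, ws_union h.disj]

theorem cov_card (h : Sp H c w W1 W2) : (cov W1).card + (cov W2).card = (cov H).card := by
  rw [h.cov_eq, card_union_of_disjoint h.sep.disjoint_cov]

theorem host (h : Sp H c w W1 W2) {x : Finset V} (hx : x ∈ H) (hn : x ∉ W2)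
    (hd : 1 ≤ C5.dd W2 x) : x = c ∨ x = w := by
  rcases h.cases hx with k | k | k | k
  · exact Or.inl k
  · exact Or.inr k
  · obtain ⟨v, v1, v2⟩ := qn_pt hd
    exact absurd v2 (disjoint_left.1 h.sep.disjoint_cov (mem_cov.2 ⟨x, k, v1⟩))
  · exact absurd k hn

theorem dd_pos (h : Sp H c w W1 W2) : 1 ≤ C5.dd W2 c := by
  by_contra k
  have := h.mc.nl1 h.m2 h.sub2 ⟨c, h.pr.mc, fun a => h.pr.c_not (h.sub2' a)⟩ (N := {w})
    fun x a b d => mem_singleton.2 ((h.host a b d).resolve_left fun e => k (e ▸ d))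
  rw [card_singleton] at this
  omega

theorem ear (h : Sp H c w W1 W2) : MEar W2 c w :=
  mear_of_cross h.m2 (h.mc.two_hosts h.m2.ne h.sub2
    (fun k => h.pr.c_not (h.sub2' (k ▸ h.pr.mc))) fun _ => h.host) h.dd_pos h.symm.dd_pos
    h.pr.core_ne

/-- the put-back family is a subfamily -/
theorem subX (h : Sp H c w W1 W2) : insert c (insert w W2) ⊆ H :=
  insert_subset h.pr.mc (insert_subset h.pr.mw h.sub2)

theorem mcX (h : Sp H c w W1 W2) : MC (insert c (insert w W2)) := h.ear.mc_ins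

theorem pendX (h : Sp H c w W1 W2) : Pend (insert c (insert w W2)) c w :=
  (pend_iff (mem_insert_self _ _) (mem_insert_of_mem (mem_insert_self _ _))).2 fun x hx s hs a => by
    rcases mem_insert.1 hx with k | k
    · exact Or.inl k
    rcases mem_insert.1 k with k | k
    · exact Or.inr k
    · exact absurd (mem_cov.2 ⟨x, k, a⟩) (disjoint_left.1 h.sep.disjoint_cov (h.core_sub hs))

theorem not_excX (h : Sp H c w W1 W2) : ¬ (IsU (insert c (insert w W2)) ∨
    (U5 (insert c (insert w W2)) ∧ E10 (insert c (insert w W2)))) := by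
  obtain ⟨s, hs⟩ := h.pr.core_ne
  refine not_exc (mem_insert_self _ _) h.pr.c5
    (mem_cov.2 ⟨c, mem_insert_self _ _, (mem_inter.1 hs).1⟩) ?_
  rw [dg, h.pendX s hs]
  exact card_le_two

theorem second (h : Sp H c w W1 W2) (hn : ¬ Pend H c w) : ∃ x ∈ W1, x ≠ c ∩ w := by
  obtain ⟨x, a, b, d, s, e, f⟩ := h.pr.second hn
  rcases h.cases a with k | k | k | k
  · exact absurd k b
  · exact absurd k d
  · exact ⟨x, k, fun m => h.pr.core_not h.mc (m ▸ a)⟩
  · exact absurd (mem_cov.2 ⟨x, k, f⟩) (disjoint_left.1 h.sep.disjoint_cov (h.core_sub e))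

theorem not_exc1 (h : Sp H c w W1 W2) (hn : ¬ Pend H c w) : ¬ (IsU W1 ∨ (U5 W1 ∧ E10 W1)) := by
  obtain ⟨x, a, b⟩ := h.second hn
  exact not_exc3 h.s1 h.pr.i3 a b

theorem ltX (h : Sp H c w W1 W2) (hn : ¬ Pend H c w) : (insert c (insert w W2)).card < H.card := by
  obtain ⟨x, a, b⟩ := h.second hn
  have := one_lt_card.2 ⟨x, a, _, h.s1, b⟩
  have := h.card_eq
  rw [h.ear.card_ins]
  omega

theorem lt1 (h : Sp H c w W1 W2) : W1.card < H.card := by
  have := h.card_eq
  omega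

theorem lt2 (h : Sp H c w W1 W2) : W2.card < H.card := by
  have := h.card_eq
  omega

theorem cls1 (h : Sp H c w W1 W2) : Cls W1 := (h.pr.cls_mrg h.mc h.cls).mono h.sub1

theorem dom1 (h : Sp H c w W1 W2) : Dom H W1 := h.pr.dom_mrg h.mc h.sub1

/-- if no leg lies in the first piece, the two families share only the core -/
theorem inter_sub (h : Sp H c w W1 W2) (hl : ∀ v ∈ sd c w, v ∉ cov W1) {v : V} (h1 : v ∈ cov W1)
    (h2 : v ∈ cov (insert c (insert w W2))) : v ∈ c ∩ w := by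
  by_contra k
  rw [pair_cov_insert, pair_cov_insert, ← union_assoc] at h2
  rcases mem_union.1 h2 with a | a
  · exact hl v (mem_sdiff.2 ⟨a, k⟩) h1
  · exact disjoint_left.1 h.sep.disjoint_cov h1 a

/-- a witness lies in the second piece, so no leg lies in the first piece -/
theorem wit (h : Sp H c w W1 W2) {y : Finset V} (hy : y ∈ H) (hl : sd c w ⊆ y) :
    y ∈ W2 ∧ ∀ v ∈ sd c w, v ∉ cov W1 := by
  have a : y ∈ W2 := by
    obtain ⟨v, v1, v2⟩ := qn_pt h.dd_pos
    have n : v ∉ cov W1 := disjoint_right.1 h.sep.disjoint_cov v2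
    have m : v ∈ y := hl (mem_sdiff.2 ⟨mem_union_left _ v1, fun k => n (h.core_sub k)⟩)
    rcases h.cases hy with k | k | k | k
    · exact absurd k (h.pr.symm.wit_ne ((sdiff_sub_sd w c).trans (sd_comm c w ▸ hl)))
    · exact absurd k (h.pr.wit_ne ((sdiff_sub_sd c w).trans hl))
    · exact absurd (mem_cov.2 ⟨y, k, m⟩) n
    · exact k
  exact ⟨a, fun v hv => disjoint_right.1 h.sep.disjoint_cov (mem_cov.2 ⟨y, a, hl hv⟩)⟩

/-- put-back -/
theorem vb_back (h : Sp H c w W1 W2) (h1 : 17 ≤ β) (hl : ∀ v ∈ sd c w, v ∉ cov W1) :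
    VB β W1 + VB β (insert c (insert w W2)) + 60 ≤ VB β H := by
  have a := bonus_two h1 (H := H) (X := W1) (Y := insert c (insert w W2))
    (fun v _ => (dg_mono h.sub1 v).trans (h.pr.dg_mrg_le h.mc v)) (fun v _ => dg_mono h.subX v)
    (fun e he => by
      rcases h.cases he with k | k | k | k
      · exact Or.inr (Or.inl (k ▸ mem_insert_self _ _))
      · exact Or.inr (Or.inl (k ▸ mem_insert_of_mem (mem_insert_self _ _)))
      · exact Or.inl k
      · exact Or.inr (Or.inl (mem_insert_of_mem (mem_insert_of_mem k)))) (P := ∅) (by simp)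
  have b1 : ws (insert c (insert w W2)) = 1 + (1 + ws W2) := by
    rw [ws, h.ear.sum_ins, wt5 h.pr.c5, wt5 h.pr.w5, ws]
  have b2 := h.ear.cov_ins
  have b3 : ((c ∪ w) \ cov W2).card ≤ 3 := h.pr.i3 ▸ card_le_card fun v hv => by
    obtain ⟨v1, v2⟩ := mem_sdiff.1 hv
    by_contra k
    have m : v ∈ cov H := dg_pos.1 (by have := h.pr.dg2 (mem_union.1 v1); omega)
    rw [h.cov_eq] at m
    exact (mem_union.1 m).elim (hl v (mem_sdiff.2 ⟨v1, k⟩)) v2
  have b4 := h.ear.tau_ins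
  have b5 := h.ws_eq
  have b6 := h.cov_card
  have b7 := h.tau
  rw [VB, VB, VB, V0_eq h.cls1.sz, V0_eq (Sz.mono h.cls.sz h.subX), V0_eq h.cls.sz]
  rw [card_empty] at a
  omega

end Sp

end Pool.Agent.Work.MP_d266e7_co.Mix
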