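import Pool.Agent.Work.MP_d266e7_co.P24.T1

/-!
Rewiring: a vertex `p` that lies only in the member `u` is replaced by a vertex `b` that is in no
minimum transversal together with `p`. The family stays critical and connected, `tau` and the
number of members stay, one vertex disappears. If the other vertices of `u` have degree at most
two, at most two new traces appear (each is charged to a member through `b`).
-/

namespace Pool.Agent.Work.MP_d266e7_co.C5.P24

open Finset

variable {V : Type} [DecidableEq V]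

/-- data of a rewiring -/
structure Rew (W : Finset (Finset V)) (u : Finset V) (p b : V) : Prop where
  cc : CC W
  uW : u ∈ W
  pu : p ∈ u
  priv : dg W p ≤ 1
  bW : b ∈ cov W
  bu : b ∉ u
  cross : Cross W {b} {p}

namespace Rew

variable {W : Finset (Finset V)} {u : Finset V} {p b : V}

theorem pR (h : Rew W u p b) {c : Finset V} (hc : c ∈ W.erase u) : p ∉ c := fun hp =>
  (mem_erase.1 hc).1 (faml_two (mem_erase.1 hc).2 h.uW hp h.pu h.priv)

theorem neR (h : Rew W u p b) : NE (W.erase u) := h.cc.u5.ne.mono (erase_subset _ _)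

theorem v5 (h : Rew W u p b) : (insert b (u.erase p)).card = 5 := by
  rw [card_insert_of_notMem fun e => h.bu (mem_erase.1 e).2, card_erase_of_mem h.pu,
    h.cc.u5 u h.uW]

theorem small (h : Rew W u p b) {C : Finset V} (hC : Hits C (W.erase u)) (hc : C.card < tau W)
    {w : V} (hw : w ∈ insert b (u.erase p)) : w ∉ C := by
  intro hwC
  rcases mem_insert.1 hw with rfl | hw
  · refine h.cross (insert p C) (fun e he => ?_) ((card_insert_le _ _).trans hc) w
      (mem_singleton_self _) p (mem_singleton_self _) (mem_insert_of_mem hwC)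
      (mem_insert_self _ _)
    by_cases e1 : e = u
    · exact ⟨p, e1 ▸ h.pu, mem_insert_self _ _⟩
    · obtain ⟨z, z1, z2⟩ := hC e (mem_erase.2 ⟨e1, he⟩)
      exact ⟨z, z1, mem_insert_of_mem z2⟩
  · have : tau W ≤ C.card := tau_le fun e he => by
      by_cases e1 : e = u
      · exact ⟨w, e1 ▸ (mem_erase.1 hw).2, hwC⟩
      · exact hC e (mem_erase.2 ⟨e1, he⟩)
    omega

theorem vR (h : Rew W u p b) : insert b (u.erase p) ∉ W.erase u := by
  intro hv
  obtain ⟨C, hC, hc⟩ := exists_opt h.neR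
  obtain ⟨w, w1, w2⟩ := hC _ hv
  exact h.small hC (by rw [hc]; exact h.cc.crit u h.uW) w1 w2

theorem u5 (h : Rew W u p b) : U5 (insert (insert b (u.erase p)) (W.erase u)) := fun e he => by
  rcases mem_insert.1 he with rfl | he
  · exact h.v5
  · exact h.cc.u5 e (mem_erase.1 he).2

theorem tau_eq (h : Rew W u p b) : tau (insert (insert b (u.erase p)) (W.erase u)) = tau W := by
  refine le_antisymm ?_ ?_
  · have h1 : tau (insert (insert b (u.erase p)) (W.erase u)) ≤ tau (W.erase u) + 1 :=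
      tau_le_succ h.neR b fun e he => by
        rcases mem_insert.1 he with rfl | he
        · exact Or.inr (mem_insert_self _ _)
        · exact Or.inl he
    have h2 := h.cc.crit u h.uW
    omega
  · obtain ⟨C, hC, hc⟩ := exists_opt h.u5.ne
    by_contra hlt
    obtain ⟨w, w1, w2⟩ := hC _ (mem_insert_self _ _)
    exact h.small (fun e he => hC e (mem_insert_of_mem he)) (by omega) w1 w2

theorem card_eq (h : Rew W u p b) :
    (insert (insert b (u.erase p)) (W.erase u)).card = W.card := by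
  rw [card_insert_of_notMem h.vR, card_erase_add_one h.uW]

theorem crit (h : Rew W u p b) : Crit (insert (insert b (u.erase p)) (W.erase u)) := by
  intro c hc
  rw [h.tau_eq]
  rcases mem_insert.1 hc with rfl | hc
  · rw [erase_insert h.vR]
    exact h.cc.crit u h.uW
  · obtain ⟨c1, c2⟩ := mem_erase.1 hc
    obtain ⟨C, hC, hcard⟩ := exists_opt (h.cc.u5.ne.mono (erase_subset c W))
    have h1 := h.cc.crit c c2
    obtain ⟨w, w1, w2⟩ := hC u (mem_erase.2 ⟨c1.symm, h.uW⟩)
    have h2 : ∀ e ∈ (insert (insert b (u.erase p)) (W.erase u)).erase c,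
        e = insert b (u.erase p) ∨ (e ∈ W.erase u ∧ e ∈ W.erase c) := fun e he => by
      obtain ⟨e1, e2⟩ := mem_erase.1 he
      rcases mem_insert.1 e2 with e2 | e2
      · exact Or.inl e2
      · exact Or.inr ⟨e2, mem_erase.2 ⟨e1, (mem_erase.1 e2).2⟩⟩
    by_cases hw : w = p
    · subst hw
      have h3 : tau ((insert (insert b (u.erase w)) (W.erase u)).erase c) ≤
          (insert b (C.erase w)).card := tau_le fun e he => by
        rcases h2 e he with rfl | ⟨e1, e2⟩
        · exact ⟨b, mem_insert_self _ _, mem_insert_self _ _⟩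
        · obtain ⟨z, z1, z2⟩ := hC e e2
          exact ⟨z, z1, mem_insert_of_mem (mem_erase.2 ⟨fun ez => h.pR e1 (ez ▸ z1), z2⟩)⟩
      have h4 := card_insert_le b (C.erase w)
      have h5 := card_erase_add_one w2
      omega
    · have h3 : tau ((insert (insert b (u.erase p)) (W.erase u)).erase c) ≤ C.card :=
        tau_le fun e he => by
          rcases h2 e he with rfl | ⟨-, e2⟩
          · exact ⟨w, mem_insert_of_mem (mem_erase.2 ⟨hw, w1⟩), w2⟩
          · exact hC e e2
      omega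

theorem conn (h : Rew W u p b) : Conn (insert (insert b (u.erase p)) (W.erase u)) := by
  intro X hX hne hXG
  have key : ∀ e ∈ W.erase u, Adj u e → Adj (insert b (u.erase p)) e := fun e he ⟨w, w1, w2⟩ =>
    ⟨w, mem_insert_of_mem (mem_erase.2 ⟨fun ew => h.pR he (ew ▸ w2), w1⟩), w2⟩
  by_cases hv : insert b (u.erase p) ∈ X
  · have h1 : insert u (X.erase (insert b (u.erase p))) ⊆ W := by
      refine insert_subset h.uW fun e he => ?_
      obtain ⟨e1, e2⟩ := mem_erase.1 he
      exact (mem_erase.1 ((mem_insert.1 (hX e2)).resolve_left e1)).2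
    have h2 : insert u (X.erase (insert b (u.erase p))) ≠ W := fun e => by
      refine hXG (Subset.antisymm hX (insert_subset hv fun z hz => ?_))
      obtain ⟨z1, z2⟩ := mem_erase.1 hz
      rw [← e] at z2
      exact (mem_erase.1 ((mem_insert.1 z2).resolve_left z1)).2
    obtain ⟨e, he, z, hz, hzX, hadj⟩ := h.cc.conn _ h1 ⟨u, mem_insert_self _ _⟩ h2
    have z1 : z ≠ u := fun ez => hzX (ez ▸ mem_insert_self _ _)
    have z2 : z ∈ W.erase u := mem_erase.2 ⟨z1, hz⟩
    have z3 : z ∉ X := fun c => hzX (mem_insert_of_mem (mem_erase.2 ⟨fun ez => h.vR (ez ▸ z2), c⟩))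
    rcases mem_insert.1 he with rfl | he
    · exact ⟨_, hv, z, mem_insert_of_mem z2, z3, key z z2 hadj⟩
    · exact ⟨e, (mem_erase.1 he).2, z, mem_insert_of_mem z2, z3, hadj⟩
  · have h0 : X ⊆ W.erase u := fun e he =>
      (mem_insert.1 (hX he)).resolve_left fun ee => hv (ee ▸ he)
    have h2 : X ≠ W := fun e => (mem_erase.1 (h0 (e ▸ h.uW))).1 rfl
    obtain ⟨e, he, z, hz, hzX, hadj⟩ := h.cc.conn X (h0.trans (erase_subset _ _)) hne h2
    by_cases z1 : z = u
    · subst z1
      exact ⟨e, he, _, mem_insert_self _ _, hv, (key e (h0 he) hadj.symm).symm⟩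
    · exact ⟨e, he, z, mem_insert_of_mem (mem_erase.2 ⟨z1, hz⟩), hzX, hadj⟩

theorem cc_new (h : Rew W u p b) : CC (insert (insert b (u.erase p)) (W.erase u)) :=
  ⟨h.u5, h.crit, h.conn, ⟨_, mem_insert_self _ _⟩⟩

theorem cov_new (h : Rew W u p b) :
    (cov (insert (insert b (u.erase p)) (W.erase u))).card + 1 = (cov W).card := by
  have h1 : cov (insert (insert b (u.erase p)) (W.erase u)) = (cov W).erase p := by
    ext w
    rw [pair_cov_insert, mem_union, mem_erase]
    constructor
    · rintro (hw | hw)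
      · rcases mem_insert.1 hw with rfl | hw
        · exact ⟨fun e => h.bu (e ▸ h.pu), h.bW⟩
        · exact ⟨(mem_erase.1 hw).1, mem_cov.2 ⟨u, h.uW, (mem_erase.1 hw).2⟩⟩
      · obtain ⟨e, e1, e2⟩ := mem_cov.1 hw
        exact ⟨fun ew => h.pR e1 (ew ▸ e2), mem_cov.2 ⟨e, (mem_erase.1 e1).2, e2⟩⟩
    · rintro ⟨w1, w2⟩
      obtain ⟨e, e1, e2⟩ := mem_cov.1 w2
      by_cases eu : e = u
      · exact Or.inl (mem_insert_of_mem (mem_erase.2 ⟨w1, eu ▸ e2⟩))
      · exact Or.inr (mem_cov.2 ⟨e, mem_erase.2 ⟨eu, e1⟩, e2⟩)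
  rw [h1, card_erase_add_one (mem_cov.2 ⟨u, h.uW, h.pu⟩)]

theorem dg_old (h : Rew W u p b) (w : V) :
    dg W w = dg (W.erase u) w + if w ∈ u then 1 else 0 := by
  have := pair_dg_insert (W := W.erase u) (x := u) (notMem_erase u W) w
  rwa [insert_erase h.uW] at this

theorem dg_new (h : Rew W u p b) (w : V) :
    dg (insert (insert b (u.erase p)) (W.erase u)) w ≤ dg W w + if w = b then 1 else 0 := by
  rw [pair_dg_insert h.vR, h.dg_old w]
  by_cases h1 : w = b
  · rw [if_pos h1]
    split_ifs <;> omega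
  · rw [if_neg h1]
    by_cases h2 : w ∈ insert b (u.erase p)
    · rw [if_pos h2, if_pos (mem_erase.1 ((mem_insert.1 h2).resolve_left h1)).2]
    · rw [if_neg h2]
      omega

theorem tt_new (h : Rew W u p b) {d : V → ℕ} (hd : ∀ w, dg W w ≤ d w) (hb : dg W b < d b)
    (hp : 2 ≤ d p) : tt W d ≤ tt (insert (insert b (u.erase p)) (W.erase u))
      (dg (insert (insert b (u.erase p)) (W.erase u))) := by
  have h0 : ∀ w, dg (insert (insert b (u.erase p)) (W.erase u)) w ≤ d w := fun w => by
    have h1 := h.dg_new w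
    have h2 := hd w
    split_ifs at h1 with e
    · subst e
      omega
    · omega
  have h1 : tt (W.erase u) d ≤ tt (W.erase u) (dg (insert (insert b (u.erase p)) (W.erase u))) :=
    tt_mono fun w _ => h0 w
  have h2 : (u.filter fun w => d w ≤ 1).card ≤ ((insert b (u.erase p)).filter fun w =>
      dg (insert (insert b (u.erase p)) (W.erase u)) w ≤ 1).card := by
    refine card_le_card fun w hw => ?_
    obtain ⟨w1, w2⟩ := mem_filter.1 hw
    refine mem_filter.2 ⟨mem_insert_of_mem (mem_erase.2 ⟨fun e => ?_, w1⟩), (h0 w).trans w2⟩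
    subst e
    omega
  have h3 : tt W d = tt (insert u (W.erase u)) d := by rw [insert_erase h.uW]
  rw [h3]
  generalize dg (insert (insert b (u.erase p)) (W.erase u)) = D at h1 h2 ⊢
  unfold tt at h1 ⊢
  rw [card_filter _ (insert u _), sum_insert (notMem_erase u W), ← card_filter,
    card_filter _ (insert (insert b (u.erase p)) _), sum_insert h.vR, ← card_filter]
  split_ifs <;> omega

end Rew

/-- the new trace `q` is charged to the member `g` -/
def rew_rel (R : Finset (Finset V)) (A v : Finset V) (q : Finset (Finset V)) (g : Finset V) :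
    Prop :=
  (q = {v, g} ∧ (g ∩ A).card = 2) ∨
    ((g ∩ A).card = 1 ∧ ∃ w ∈ R, (q = {g, w} ∧ (w ∩ A).card = 2) ∨
      (q = {v, w} ∧ (w ∩ A).card = 3))

theorem rew_three {A g w w' : Finset V} (hA : A.card = 4) (h1 : Disjoint (g ∩ A) (w ∩ A))
    (h2 : Disjoint (g ∩ A) (w' ∩ A)) (h3 : Disjoint (w ∩ A) (w' ∩ A)) :
    (g ∩ A).card + (w ∩ A).card + (w' ∩ A).card ≤ 4 := by
  rw [← card_union_of_disjoint h1, ← card_union_of_disjoint (disjoint_union_left.2 ⟨h2, h3⟩), ← hA]
  exact card_le_card (union_subset (union_subset inter_subset_right inter_subset_right)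
    inter_subset_right)

theorem rew_uniq {R : Finset (Finset V)} {A v : Finset V} (hA : A.card = 4)
    (hd : ∀ c ∈ R, ∀ w ∈ R, c ≠ w → Disjoint (c ∩ A) (w ∩ A)) {g : Finset V} (hg : g ∈ R)
    {q q' : Finset (Finset V)} (h : rew_rel R A v q g) (h' : rew_rel R A v q' g) : q = q' := by
  rcases h with ⟨h1, h2⟩ | ⟨h1, w, hw, h2⟩ <;> rcases h' with ⟨k1, k2⟩ | ⟨k1, w', hw', k2⟩
  · rw [h1, k1]
  · omega
  · omega
  · have a1 : 2 ≤ (w ∩ A).card := by omega
    have a2 : 2 ≤ (w' ∩ A).card := by omega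
    have a3 : g ≠ w := fun e => by
      rw [← e] at a1
      omega
    have a4 : g ≠ w' := fun e => by
      rw [← e] at a2
      omega
    have a5 : w = w' := by
      by_contra e
      have := rew_three hA (hd g hg w hw a3) (hd g hg w' hw' a4) (hd w hw w' hw' e)
      omega
    subst a5
    rcases h2 with ⟨h2, h3⟩ | ⟨h2, h3⟩ <;> rcases k2 with ⟨k2, k3⟩ | ⟨k2, k3⟩
    · rw [h2, k2]
    · omega
    · omega
    · rw [h2, k2]

theorem rew_one {R : Finset (Finset V)} {A : Finset V} {b : V} (hA : A.card = 4) (hb : b ∉ A)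
    (h5 : U5 R) (hd : ∀ c ∈ R, ∀ w ∈ R, c ≠ w → Disjoint (c ∩ A) (w ∩ A)) {w y : Finset V}
    (hw : w ∈ R) (h3 : (insert b A ∩ w).card = 3) (hy : y = insert b A ∨ y ∈ R)
    (hs : sd (insert b A) w ⊆ y) : ∃ g, g ∈ star R b ∧ rew_rel R A (insert b A) {insert b A, w} g := by
  by_cases hbw : b ∈ w
  · refine ⟨w, mem_star.2 ⟨hw, hbw⟩, Or.inl ⟨rfl, ?_⟩⟩
    rw [insert_inter_of_mem hbw, card_insert_of_notMem fun e => hb (mem_inter.1 e).1,
      inter_comm] at h3
    omega
  · rw [insert_inter_of_notMem hbw, inter_comm] at h3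
    have hyR : y ∈ R := by
      refine hy.resolve_left fun e => ?_
      have h1 : w ⊆ w ∩ A := fun z hz => mem_inter.2 ⟨hz, by
        by_contra hzA
        have hz' : z ∉ insert b A := fun c =>
          (mem_insert.1 c).elim (fun e1 => hbw (e1 ▸ hz)) hzA
        exact hz' (e ▸ hs (mem_sd.2 (Or.inr ⟨hz', hz⟩)))⟩
      have h2 := card_le_card h1
      have := h5 w hw
      omega
    have hby : b ∈ y := hs (mem_sd.2 (Or.inl ⟨mem_insert_self _ _, hbw⟩))
    have hyw : y ≠ w := fun e => hbw (e ▸ hby)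
    have h1 : (y ∩ A).card + (w ∩ A).card ≤ 4 := by
      rw [← card_union_of_disjoint (hd y hyR w hw hyw), ← hA]
      exact card_le_card (union_subset inter_subset_right inter_subset_right)
    have h2 : A \ w ⊆ y ∩ A := fun z hz => mem_inter.2
      ⟨hs (mem_sd.2 (Or.inl ⟨mem_insert_of_mem (mem_sdiff.1 hz).1, (mem_sdiff.1 hz).2⟩)),
        (mem_sdiff.1 hz).1⟩
    have h4 := card_le_card h2
    have h6 := card_sdiff_add_card_inter A w
    rw [inter_comm] at h6
    exact ⟨y, mem_star.2 ⟨hyR, hby⟩, Or.inr ⟨by omega, w, hw, Or.inr ⟨rfl, h3⟩⟩⟩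

theorem rew_two {R : Finset (Finset V)} {A : Finset V} {b : V} (hb : b ∉ A)
    (h5 : U5 R) (hd : ∀ c ∈ R, ∀ w ∈ R, c ≠ w → Disjoint (c ∩ A) (w ∩ A)) {c w : Finset V}
    (hc : c ∈ R) (hw : w ∈ R) (h3 : (c ∩ w).card = 3) (hs : sd c w ⊆ insert b A) (hbc : b ∈ c)
    (hbw : b ∉ w) : ∃ g, g ∈ star R b ∧ rew_rel R A (insert b A) {c, w} g := by
  have hne : c ≠ w := fun e => hbw (e ▸ hbc)
  have hdis := disjoint_left.1 (hd c hc w hw hne)
  have e1 : c \ w = insert b (c ∩ A) := by
    ext z
    rw [mem_sdiff, mem_insert, mem_inter]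
    constructor
    · rintro ⟨z1, z2⟩
      exact (mem_insert.1 (hs (mem_sd.2 (Or.inl ⟨z1, z2⟩)))).imp_right fun z3 => ⟨z1, z3⟩
    · rintro (rfl | ⟨z1, z2⟩)
      · exact ⟨hbc, hbw⟩
      · exact ⟨z1, fun z3 => hdis (mem_inter.2 ⟨z1, z2⟩) (mem_inter.2 ⟨z3, z2⟩)⟩
  have e2 : w \ c = w ∩ A := by
    ext z
    rw [mem_sdiff, mem_inter]
    constructor
    · rintro ⟨z1, z2⟩
      exact ⟨z1, (mem_insert.1 (hs (mem_sd.2 (Or.inr ⟨z2, z1⟩)))).resolve_left
        fun e => hbw (e ▸ z1)⟩
    · rintro ⟨z1, z2⟩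
      exact ⟨z1, fun z3 => hdis (mem_inter.2 ⟨z3, z2⟩) (mem_inter.2 ⟨z1, z2⟩)⟩
  have a1 := card_sdiff_add_card_inter c w
  have a2 := card_sdiff_add_card_inter w c
  rw [e1, card_insert_of_notMem fun e => hb (mem_inter.1 e).2] at a1
  rw [e2, inter_comm w c] at a2
  have a3 := h5 c hc
  have a4 := h5 w hw
  exact ⟨c, mem_star.2 ⟨hc, hbc⟩, Or.inr ⟨by omega, w, hw, Or.inl ⟨rfl, by omega⟩⟩⟩

theorem Rew.hi_new {W H : Finset (Finset V)} {u : Finset V} {p b : V} (h : Rew W u p b)
    (hs : W ⊆ H) (h2 : ∀ w ∈ u, dg W w ≤ 2) :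
    hi (insert (insert b (u.erase p)) (W.erase u)) (insert (insert b (u.erase p)) (W.erase u)) ≤
      hi H W + dg W b := by
  classical
  have hA : (u.erase p).card = 4 := by rw [card_erase_of_mem h.pu, h.cc.u5 u h.uW]
  have hb : b ∉ u.erase p := fun e => h.bu (mem_erase.1 e).2
  have h5 : U5 (W.erase u) := h.cc.u5.mono (erase_subset _ _)
  have hd : ∀ c ∈ W.erase u, ∀ w ∈ W.erase u, c ≠ w →
      Disjoint (c ∩ u.erase p) (w ∩ u.erase p) := fun c hc w hw hne => by
    refine disjoint_left.2 fun z z1 z2 => hne ?_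
    have z3 : z ∈ u := (mem_erase.1 (mem_inter.1 z1).2).2
    have a1 := h2 z z3
    have a2 := h.dg_old z
    rw [if_pos z3] at a2
    exact faml_two hc hw (mem_inter.1 z1).1 (mem_inter.1 z2).1 (by omega)
  set G := insert (insert b (u.erase p)) (W.erase u) with hG
  set T := (G.powersetCard 2).filter (Tr G) with hT
  set O := (W.powersetCard 2).filter (Tr H) with hO
  have k1 : (T \ O).card ≤ (star (W.erase u) b).card := by
    refine card_le_card_of_forall_subsingleton
      (rew_rel (W.erase u) (u.erase p) (insert b (u.erase p))) (fun q hq => ?_) (fun g hg => ?_)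
    · obtain ⟨hq1, hq2⟩ := mem_sdiff.1 hq
      obtain ⟨hp, c, hc, w, hw, h3, y, hy, hsd⟩ := mem_filter.1 hq1
      obtain ⟨h4, h6⟩ := mem_powersetCard.1 hp
      have e := earhi_pair hp hc hw (h.u5 c (h4 hc)) h3
      have hy' := mem_insert.1 hy
      rcases mem_insert.1 (h4 hc) with rfl | hc' <;> rcases mem_insert.1 (h4 hw) with e2 | hw'
      · rw [e2, inter_self, h.v5] at h3
        omega
      · rw [e]
        exact rew_one hA hb h5 hd hw' h3 hy' hsd
      · subst e2
        rw [e, pair_comm]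
        exact rew_one hA hb h5 hd hc' (by rwa [inter_comm]) hy' (by rwa [sd_comm])
      · have hold : (∃ y ∈ H, sd c w ⊆ y) → False := fun hh =>
          hq2 (earhi_old e h6 (mem_erase.1 hc').2 (mem_erase.1 hw').2 h3 hh)
        rcases hy' with rfl | hy'
        · by_cases hbs : b ∈ sd c w
          · rcases mem_sd.1 hbs with ⟨b1, b2⟩ | ⟨b1, b2⟩
            · rw [e]
              exact rew_two hb h5 hd hc' hw' h3 hsd b1 b2
            · rw [e, pair_comm]
              exact rew_two hb h5 hd hw' hc' (by rwa [inter_comm]) (by rwa [sd_comm]) b2 b1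
          · exact (hold ⟨u, hs h.uW, fun z hz => (mem_erase.1 ((mem_insert.1 (hsd hz)).resolve_left
              fun e1 => hbs (e1 ▸ hz))).2⟩).elim
        · exact (hold ⟨y, hs (mem_erase.1 hy').2, hsd⟩).elim
    · intro q hq q' hq'
      exact rew_uniq hA hd (mem_star.1 hg).1 hq.2 hq'.2
  have k2 : (star (W.erase u) b).card ≤ dg W b := dg_mono (erase_subset u W) b
  have k3 := card_le_card_sdiff_add_card (s := T) (t := O)
  show T.card ≤ O.card + dg W b
  omega

end Pool.Agent.Work.MP_d266e7_co.C5.P24
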