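import Pool.Agent.Work.MP_d266e7_co.Full.QCfg
import Mathlib.Algebra.BigOperators.Fin

/-!
A block in one node of size three and two nodes of size five, two pieces, no other block.
-/

namespace Pool.Agent.Work.MP_d266e7_co.Mix

open Finset C5 C5.P24

variable {V : Type} [DecidableEq V] [Infinite V] {H : Finset (Finset V)}

theorem q355_sum {M : Type} [AddCommMonoid M] (f : Fin 2 → M) {i j : Fin 2} (ij : i ≠ j) :
    ∑ k, f k = f i + f j := by
  rw [Fin.sum_univ_two]
  have : ∀ i j : Fin 2, i ≠ j → (i = 0 ∧ j = 1) ∨ (i = 1 ∧ j = 0) := by decide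
  rcases this i j ij with ⟨rfl, rfl⟩ | ⟨rfl, rfl⟩
  exacts [rfl, add_comm _ _]

omit [Infinite V] in
theorem q355_cross {W : Fin 2 → Finset (Finset V)} {q : Fin 3 → Finset V} (h : Cfg H W q)
    {i j : Fin 2} (ij : i ≠ j) {x y z : Fin 3} (xy : x ≠ y) (xz : x ≠ z) (yz : y ≠ z)
    (hz : 1 ≤ C5.dd (W j) (q z)) : Cross (W i) (q x) (q y) := by
  have e : ∀ x y z w : Fin 3, x ≠ y → x ≠ z → y ≠ z → w ≠ x → w ≠ y → w = z := by
    intro x y z w
    omega
  exact h.rule (fun _ => j) (fun w a b => ⟨ij.symm, e x y z w xy xz yz a b ▸ hz⟩)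
    fun w w' a b c d _ => (e x y z w xy xz yz a b).trans (e x y z w' xy xz yz c d).symm

theorem q355 {W : Fin 2 → Finset (Finset V)} {q : Fin 3 → Finset V} (h : Cfg H W q)
    (n33 : N33 H) {t : V} (tq : ∀ x, t ∈ q x) (tW : ∀ i, t ∉ cov (W i)) (c0 : (q 0).card = 3)
    (c1 : (q 1).card = 5) (c2 : (q 2).card = 5)
    (hs : ∀ x, ∑ i, C5.dd (W i) (q x) + 1 = (q x).card) : -46 ≤ ∑ i, VH H (W i) := by
  have b := fun i => h.base i fun e => by
    have := h.cardE {i} fun k hk => mem_singleton.1 hk ▸ e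
    simp at this
  have b46 : ∀ i, 1 ≤ C5.dd (W i) (q 0) → -46 ≤ VH H (W i) := fun i a => (b i).2 fun u => by
    obtain ⟨K, k3, e⟩ := u
    have m : K ∈ W i := e ▸ mem_singleton_self K
    have := n33 _ (h.qm 0) K (h.sub i m) c0 k3 fun c => h.qo 0 i (c ▸ m)
    rw [C5.dd, e, cov_singleton, disjoint_iff_inter_eq_empty.1 this] at a
    simp at a
  have q5 : ∀ x : Fin 3, x ≠ 0 → (q x).card = 5 := fun x a => by
    have : ∀ x : Fin 3, x ≠ 0 → x = 1 ∨ x = 2 := by decide
    rcases this x a with rfl | rfl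
    exacts [c1, c2]
  have s := fun x (i j : Fin 2) (ij : i ≠ j) =>
    (congrArg (· + 1) (q355_sum (fun k => C5.dd (W k) (q x)) ij)).symm.trans (hs x)
  have g22 : ∀ i j, i ≠ j → 1 ≤ C5.dd (W j) (q 0) → 2 ≤ C5.dd (W i) (q 1) →
      2 ≤ C5.dd (W i) (q 2) → -46 ≤ ∑ i, VH H (W i) := fun i j ij a b c => by
    have := (h.ga11 le_rfl (q355_cross h ij (x := 1) (y := 2) (by decide) (by decide)
      (by decide) a)).g22 b c
    have := b46 j a
    rw [q355_sum _ ij]
    omega
  have both : ∀ i j, i ≠ j → C5.dd (W j) (q 0) = 0 → -46 ≤ ∑ i, VH H (W i) := fun i j ij a => by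
    have s0 := s 0 i j ij
    have m : 1 ≤ C5.dd (W j) (q 1) ∧ 1 ≤ C5.dd (W j) (q 2) := by
      have k := h.hall {j} (singleton_nonempty j)
      simp only [mem_singleton, exists_eq_left, card_singleton, card_filter,
        Fin.sum_univ_three] at k
      split_ifs at k <;> omega
    have g32 : ∀ x y : Fin 3, x ≠ 0 → y ≠ 0 → x ≠ y → 1 ≤ C5.dd (W j) (q y) →
        C5.dd (W j) (q x) ≤ 1 → -46 ≤ ∑ i, VH H (W i) := fun x y x0 y0 xy c d => by
      have sx := s x i j ij
      have := q5 x x0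
      have := (h.ga11 le_rfl (q355_cross h ij x0 xy y0.symm c)).g32
        (show 3 ≤ C5.dd (W i) (q x) by omega) (show 2 ≤ C5.dd (W i) (q 0) by omega)
      have := (b j).1
      rw [q355_sum _ ij]
      omega
    by_cases k1 : C5.dd (W j) (q 1) ≤ 1
    · exact g32 1 2 (by decide) (by decide) (by decide) m.2 k1
    by_cases k2 : C5.dd (W j) (q 2) ≤ 1
    · exact g32 2 1 (by decide) (by decide) (by decide) m.1 k2
    · exact g22 j i ij.symm (by omega) (by omega) (by omega)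
  have s0 := s 0 0 1 (by decide)
  by_cases k0 : C5.dd (W 0) (q 0) = 0
  · exact both 1 0 (by decide) k0
  by_cases k1 : C5.dd (W 1) (q 0) = 0
  · exact both 0 1 (by decide) k1
  have one : ∀ i, 1 ≤ C5.dd (W i) (q 0) := Fin.forall_fin_two.2 ⟨by omega, by omega⟩
  have jg : ∀ i j, i ≠ j → ∀ x y : Fin 3, x ≠ 0 → y ≠ 0 → x ≠ y → 3 ≤ C5.dd (W i) (q x) →
      1 ≤ C5.dd (W j) (q y) → 17 - 46 ≤ VH H (W i) ∧
        (4 ≤ C5.dd (W i) (q x) → 30 - 46 ≤ VH H (W i)) := fun i j ij x y x0 y0 xy c d => by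
    have g := h.ga11 le_rfl (q355_cross h ij x0 xy y0.symm d)
    have m : Rm (W i) (q 0 ∩ cov (W i)) := fun v hv => h.room3 i c0 v (mem_inter.1 hv).1
    exact ⟨g.j31 m c (one i), fun e => g.j41 (h.rl i (q5 x x0)
      (h.np0 xy (tq x) (tq y) tW (hs x))) m e (one i)⟩
  have each : ∀ i j, i ≠ j → C5.dd (W i) (q 1) ≤ 1 → C5.dd (W j) (q 2) ≤ 1 →
      -46 ≤ ∑ i, VH H (W i) := fun i j ij a c => by
    have s1 := s 1 i j ij
    have s2 := s 2 i j ij
    have g1 := jg i j ij 2 1 (by decide) (by decide) (by decide) (by omega) (by omega)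
    have g2 := jg j i ij.symm 1 2 (by decide) (by decide) (by decide) (by omega) (by omega)
    rw [q355_sum _ ij]
    by_cases k : 4 ≤ C5.dd (W i) (q 2)
    · have := g1.2 k
      omega
    by_cases k' : 4 ≤ C5.dd (W j) (q 1)
    · have := g2.2 k'
      omega
    have := (h.ga12 le_rfl (q355_cross h ij (x := 2) (y := 0) (z := 1) (by decide) (by decide)
      (by decide) (by omega)) (q355_cross h ij (x := 2) (y := 1) (by decide) (by decide)
      (by decide) (one j))).g32 (show 3 ≤ C5.dd (W i) (q 2) by omega) (by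
        rw [card_union_of_disjoint (h.disj (q355_cross h ij (x := 0) (y := 1) (z := 2)
          (by decide) (by decide) (by decide) (by omega)))]
        have := one i
        change 2 ≤ C5.dd (W i) (q 0) + C5.dd (W i) (q 1)
        omega)
    have := b46 j (one j)
    omega
  have s1 := s 1 0 1 (by decide)
  have s2 := s 2 0 1 (by decide)
  by_cases a : 2 ≤ C5.dd (W 0) (q 1) ∧ 2 ≤ C5.dd (W 0) (q 2)
  · exact g22 0 1 (by decide) (one 1) a.1 a.2
  by_cases a' : 2 ≤ C5.dd (W 1) (q 1) ∧ 2 ≤ C5.dd (W 1) (q 2)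
  · exact g22 1 0 (by decide) (one 0) a'.1 a'.2
  by_cases c : C5.dd (W 0) (q 1) ≤ 1
  · exact each 0 1 (by decide) c (by omega)
  · exact each 1 0 (by decide) (by omega) (by omega)

end Pool.Agent.Work.MP_d266e7_co.Mix
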