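import Pool.Agent.Work.MP_d266e7_co.Full.QG

/-!
Pieces and hosts: matching rules, neighbourhood bounds, room, the numerical shadow.
-/

namespace Pool.Agent.Work.MP_d266e7_co.Mix

open Finset C5 C5.P24

set_option linter.unusedSectionVars false

variable {V : Type} [DecidableEq V] {H : Finset (Finset V)}

theorem jt_of_not_cross {W : Finset (Finset V)} {a b : Finset V} (h : ¬ Cross W a b) :
    Jt W a b := by
  by_contra k
  exact h fun C a b v hv w hw c d => k ⟨C, a, b, ⟨v, hv, c⟩, w, hw, d⟩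

/-- nodes outside `W` through `v` add their weights -/
theorem wdeg_out {W N : Finset (Finset V)} {v : V} (s : W ⊆ H) (n : N ⊆ H) (d : Disjoint W N)
    (hv : ∀ e ∈ N, v ∈ e) : wdeg W v + ∑ e ∈ N, wt e ≤ wdeg H v := by
  unfold wdeg
  have d' : Disjoint (star W v) N := d.mono_left (filter_subset _ _)
  rw [← sum_union d']
  exact sum_le_sum_of_subset
    (union_subset (star_mono s v) fun e he => mem_star.2 ⟨n he, hv e he⟩)

namespace Cfg

variable {ι κ : Type} [Fintype ι] [DecidableEq ι] [Fintype κ] [DecidableEq κ]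
  {W : ι → Finset (Finset V)} {q : κ → Finset V}

omit [DecidableEq ι] [Fintype κ] [DecidableEq κ] in
theorem winj (h : Cfg H W q) : Function.Injective W := fun i j e => by
  by_contra k
  obtain ⟨u, hu⟩ := (h.mc i).ne
  obtain ⟨v, hv⟩ := (h.mc i).nes u hu
  exact h.sep i j k u hu u (e ▸ hu) ⟨v, hv, hv⟩

omit [DecidableEq ι] [Fintype κ] [DecidableEq κ] in
theorem fam (h : Cfg H W q) (S : Finset ι) : MFam H (S.image W) := by
  refine ⟨fun Z hZ => ?_, fun Z hZ => ?_, fun Z hZ Y hY ne => ?_⟩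
  · obtain ⟨i, -, rfl⟩ := mem_image.1 hZ
    exact h.sub i
  · obtain ⟨i, -, rfl⟩ := mem_image.1 hZ
    exact h.mc i
  · obtain ⟨i, -, rfl⟩ := mem_image.1 hZ
    obtain ⟨j, -, rfl⟩ := mem_image.1 hY
    exact h.sep i j fun e => ne (e ▸ rfl)

omit [DecidableEq ι] [Fintype κ] [DecidableEq κ] in
theorem mem_cov_un {v : V} : v ∈ cov (un (univ.image W)) ↔ ∃ i, v ∈ cov (W i) := by
  refine ⟨fun hv => ?_, fun ⟨i, hv⟩ => cov_mono (sub_un (mem_image_of_mem _ (mem_univ i))) hv⟩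
  obtain ⟨e, he, hve⟩ := mem_cov.1 hv
  obtain ⟨Z, hZ, heZ⟩ := mem_un.1 he
  obtain ⟨i, -, rfl⟩ := mem_image.1 hZ
  exact ⟨i, mem_cov.2 ⟨e, heZ, hve⟩⟩

omit [DecidableEq ι] [Fintype κ] [DecidableEq κ] in
theorem size (h : Cfg H W q) (x : Finset V) :
    ∑ i, C5.dd (W i) x + (x \ cov (un (univ.image W))).card = x.card := by
  have := (h.fam univ).size x
  rwa [sum_image fun i _ j _ e => h.winj e] at this

theorem card_le (h : Cfg H W q) (i : ι) : (W i).card + Fintype.card κ ≤ H.card := by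
  have d : Disjoint (W i) (univ.image q) := disjoint_right.2 fun e he => by
    obtain ⟨x, -, rfl⟩ := mem_image.1 he
    exact h.qo x i
  rw [← card_univ, ← card_image_of_injective univ h.qi, ← card_union_of_disjoint d]
  refine card_le_card (union_subset (h.sub i) fun e he => ?_)
  obtain ⟨x, -, rfl⟩ := mem_image.1 he
  exact h.qm x

theorem pc (h : Cfg H W q) (h3 : 3 ≤ Fintype.card κ) (i : ι) : Pc H (W i) :=
  ⟨h.qh, h.mc i, h.sub i, by have := h.card_le i; omega⟩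

/-- minimum transversals of the pieces do not meet all hosts -/
theorem no_cover (h : Cfg H W q) (C : ι → Finset V) (h1 : ∀ i, Hits (C i) (W i))
    (h2 : ∀ i, (C i).card ≤ MP_d266e7_co.tau (W i)) (h3 : ∀ x, ∃ i, ∃ v ∈ q x, v ∈ C i) :
    False := by
  have a : MP_d266e7_co.tau H ≤ (univ.biUnion C).card := tau_le fun e he => by
    rcases h.all e he with ⟨i, hi⟩ | ⟨x, rfl⟩
    · obtain ⟨v, a, b⟩ := h1 i e hi
      exact ⟨v, a, mem_biUnion.2 ⟨i, mem_univ _, b⟩⟩
    · obtain ⟨i, v, a, b⟩ := h3 x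
      exact ⟨v, a, mem_biUnion.2 ⟨i, mem_univ _, b⟩⟩
  have b : (univ.biUnion C).card ≤ ∑ i, MP_d266e7_co.tau (W i) :=
    card_biUnion_le.trans (sum_le_sum fun i _ => h2 i)
  have := h.tau
  omega

/-- the hosts in `S` are absorbed by different pieces other than `W i` -/
theorem absorb (h : Cfg H W q) {i : ι} {C : Finset V} (hC : Hits C (W i))
    (hc : C.card ≤ MP_d266e7_co.tau (W i)) (S : Finset κ) (hS : ∀ x, x ∉ S → ∃ v ∈ q x, v ∈ C)
    (f : κ → ι) (hf : ∀ x ∈ S, ∀ y ∈ S, f x = f y → x = y)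
    (h1 : ∀ x ∈ S, f x ≠ i ∧ 1 ≤ C5.dd (W (f x)) (q x)) : False := by
  have key : ∀ j, ∃ D, Hits D (W j) ∧ D.card ≤ MP_d266e7_co.tau (W j) ∧ (j = i → D = C) ∧
      ∀ x ∈ S, f x = j → ∃ v ∈ q x, v ∈ D := fun j => by
    by_cases e : j = i
    · subst e
      exact ⟨C, hC, hc, fun _ => rfl, fun x hx k => absurd k (h1 x hx).1⟩
    by_cases k : ∃ x ∈ S, f x = j
    · obtain ⟨x, hx, rfl⟩ := k
      obtain ⟨v, hv⟩ := card_pos.1 (h1 x hx).2
      obtain ⟨D, a, b, c⟩ := (h.mc (f x)).cover_mem (mem_inter.1 hv).2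
      exact ⟨D, a, b.le, fun k => absurd k e, fun y hy k =>
        hf x hx y hy k.symm ▸ ⟨v, (mem_inter.1 hv).1, c⟩⟩
    · obtain ⟨D, a, b⟩ := exists_opt (h.mc j).nes
      exact ⟨D, a, b.le, fun k => absurd k e, fun x hx l => absurd ⟨x, hx, l⟩ k⟩
  choose D d1 d2 d3 d4 using key
  refine h.no_cover D d1 d2 fun x => ?_
  by_cases hx : x ∈ S
  · exact ⟨f x, d4 _ x hx rfl⟩
  · exact ⟨i, (d3 i rfl).symm ▸ hS x hx⟩

theorem rule (h : Cfg H W q) {i : ι} {x y : κ} (f : κ → ι)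
    (h1 : ∀ z, z ≠ x → z ≠ y → f z ≠ i ∧ 1 ≤ C5.dd (W (f z)) (q z))
    (h2 : ∀ z w, z ≠ x → z ≠ y → w ≠ x → w ≠ y → f z = f w → z = w) :
    Cross (W i) (q x) (q y) := fun C hC hc v hv w hw a b => by
  refine h.absorb hC hc (univ.filter fun z => z ≠ x ∧ z ≠ y) (fun z hz => ?_) f
    (fun z hz u hu => ?_) fun z hz => ?_
  · by_cases e : z = x
    · exact ⟨v, e ▸ hv, a⟩
    · by_cases e' : z = y
      · exact ⟨w, e' ▸ hw, b⟩
      · exact absurd (mem_filter.2 ⟨mem_univ _, e, e'⟩) hz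
  · exact h2 z u (mem_filter.1 hz).2.1 (mem_filter.1 hz).2.2 (mem_filter.1 hu).2.1
      (mem_filter.1 hu).2.2
  · exact h1 z (mem_filter.1 hz).2.1 (mem_filter.1 hz).2.2

omit [DecidableEq ι] [DecidableEq κ] in
theorem hall2 [Nonempty κ] (h : Cfg H W q) (S T : Finset ι) (hS : S.Nonempty) (hT : T ⊆ S)
    (hE : ∀ i ∈ T, Abs2 (W i)) :
    S.card + T.card + 1 ≤ (univ.filter fun x => ∃ i ∈ S, 1 ≤ C5.dd (W i) (q x)).card := by
  obtain ⟨x0⟩ := ‹Nonempty κ›
  have := h.qh.mc.nlemma2 (N := (univ.filter fun x => ∃ i ∈ S, 1 ≤ C5.dd (W i) (q x)).image q)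
    (h.fam S) (image_subset_image hT) (fun Z hZ => by
      obtain ⟨i, hi, rfl⟩ := mem_image.1 hZ
      exact hE i hi) (hS.image W) ⟨q x0, h.qm x0, fun k => by
      obtain ⟨Z, hZ, a⟩ := mem_un.1 k
      obtain ⟨i, -, rfl⟩ := mem_image.1 hZ
      exact h.qo x0 i a⟩ fun e he k Z hZ hd => by
      obtain ⟨i, hi, rfl⟩ := mem_image.1 hZ
      rcases h.all e he with ⟨j, hj⟩ | ⟨x, rfl⟩
      · have := dd_sep (h.sep i j fun l => k (sub_un hZ (l ▸ hj))) hj
        omega
      · exact mem_image_of_mem _ (mem_filter.2 ⟨mem_univ _, i, hi, hd⟩)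
  rwa [card_image_of_injective _ h.winj, card_image_of_injective _ h.winj,
    card_image_of_injective _ h.qi] at this

theorem hall [Nonempty κ] (h : Cfg H W q) (S : Finset ι) (hS : S.Nonempty) :
    S.card + 1 ≤ (univ.filter fun x => ∃ i ∈ S, 1 ≤ C5.dd (W i) (q x)).card := by
  simpa using h.hall2 S ∅ hS (empty_subset _) fun _ k => absurd k (notMem_empty _)

theorem hallE [Nonempty κ] (h : Cfg H W q) {i : ι} (hE : Abs2 (W i)) :
    3 ≤ (univ.filter fun x => 1 ≤ C5.dd (W i) (q x)).card := by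
  simpa using h.hall2 {i} {i} (singleton_nonempty i) Subset.rfl fun j k => mem_singleton.1 k ▸ hE

theorem cardE [Nonempty κ] (h : Cfg H W q) (S : Finset ι) (hE : ∀ i ∈ S, Abs2 (W i)) :
    Fintype.card ι + S.card + 1 ≤ Fintype.card κ := by
  rcases (univ : Finset ι).eq_empty_or_nonempty with e | e
  · have a : S.card ≤ 0 := (card_le_univ S).trans (by rw [← card_univ, e, card_empty])
    have b : Fintype.card ι = 0 := by rw [← card_univ, e, card_empty]
    have := Fintype.card_pos (α := κ)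
    omega
  · exact (h.hall2 univ S e (subset_univ _) hE).trans (card_le_univ _)

/-- the value of a piece that is not `E10` -/
theorem base [Nonempty κ] (h : Cfg H W q) (i : ι) (hE : ¬ Abs2 (W i)) :
    -60 ≤ VH H (W i) ∧ (¬ IsU (W i) → -46 ≤ VH H (W i)) := by
  have a := h.card_le i
  have b := Fintype.card_pos (α := κ)
  rcases vh_base h.qh (h.mc i) (h.sub i) (by omega) with k | k | k
  · exact ⟨by omega, fun _ => k⟩
  · exact ⟨vh_U k, fun l => absurd k l⟩
  · exact absurd k.2.pair hE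

theorem ho (h : Cfg H W q) (i : ι) (x : κ) : Ho H (W i) (q x ∩ cov (W i)) := fun _ hv =>
  ⟨(mem_inter.1 hv).2, q x, h.qm x, h.qo x i, (mem_inter.1 hv).1⟩

theorem ga (h : Cfg H W q) (h3 : 3 ≤ Fintype.card κ) {i : ι} (S T : Finset κ)
    (hc : ∀ x ∈ S, ∀ y ∈ T, Cross (W i) (q x) (q y)) :
    GA H (W i) (S.biUnion fun x => q x ∩ cov (W i)) (T.biUnion fun x => q x ∩ cov (W i)) := by
  refine ⟨h.pc h3 i, fun v hv => ?_, fun v hv => ?_, fun C a b v hv w hw => ?_⟩
  · obtain ⟨x, -, k⟩ := mem_biUnion.1 hv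
    exact h.ho i x v k
  · obtain ⟨x, -, k⟩ := mem_biUnion.1 hv
    exact h.ho i x v k
  · obtain ⟨x, hx, k⟩ := mem_biUnion.1 hv
    obtain ⟨y, hy, l⟩ := mem_biUnion.1 hw
    exact hc x hx y hy C a b v (mem_inter.1 k).1 w (mem_inter.1 l).1

theorem ga11 (h : Cfg H W q) (h3 : 3 ≤ Fintype.card κ) {i : ι} {x y : κ}
    (hc : Cross (W i) (q x) (q y)) : GA H (W i) (q x ∩ cov (W i)) (q y ∩ cov (W i)) :=
  ⟨h.pc h3 i, h.ho i x, h.ho i y, hc.mono inter_subset_left inter_subset_left⟩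

theorem ga12 (h : Cfg H W q) (h3 : 3 ≤ Fintype.card κ) {i : ι} {x y z : κ}
    (hc : Cross (W i) (q x) (q y)) (hc' : Cross (W i) (q x) (q z)) :
    GA H (W i) (q x ∩ cov (W i)) (q y ∩ cov (W i) ∪ q z ∩ cov (W i)) :=
  ⟨h.pc h3 i, h.ho i x, (h.ho i y).union (h.ho i z), fun C a b v hv w hw =>
    (mem_union.1 hw).elim (fun k => hc C a b v (mem_inter.1 hv).1 w (mem_inter.1 k).1)
      fun k => hc' C a b v (mem_inter.1 hv).1 w (mem_inter.1 k).1⟩

theorem disj (h : Cfg H W q) {i : ι} {x y : κ} (hc : Cross (W i) (q x) (q y)) :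
    Disjoint (q x ∩ cov (W i)) (q y ∩ cov (W i)) :=
  (h.mc i).cross_disjoint inter_subset_right (hc.mono inter_subset_left inter_subset_left)

theorem rl (h : Cfg H W q) (i : ι) {x : κ} (h5 : (q x).card = 5) (hn : np H (q x) = 0) :
    Rl H (W i) (q x ∩ cov (W i)) :=
  ⟨q x, h.qm x, h.qo x i, h5, hn, inter_subset_left⟩

omit [DecidableEq ι] [Fintype κ] [DecidableEq κ] in
theorem out1 (h : Cfg H W q) (i : ι) {x : κ} {v : V} (hx : v ∈ q x) :
    wdeg (W i) v + wt (q x) ≤ wdeg H v := by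
  simpa using wdeg_out (N := {q x}) (h.sub i) (singleton_subset_iff.2 (h.qm x))
    (disjoint_singleton_right.2 (h.qo x i)) fun e he => mem_singleton.1 he ▸ hx

omit [DecidableEq ι] [Fintype κ] [DecidableEq κ] in
theorem out2 (h : Cfg H W q) (i : ι) {x y : κ} (hxy : x ≠ y) {v : V} (hx : v ∈ q x)
    (hy : v ∈ q y) : wdeg (W i) v + 2 ≤ wdeg H v := by
  have a := wdeg_out (N := {q x, q y}) (v := v) (h.sub i)
    (insert_subset (h.qm x) (singleton_subset_iff.2 (h.qm y)))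
    (disjoint_insert_right.2 ⟨h.qo x i, disjoint_singleton_right.2 (h.qo y i)⟩) fun e he =>
      (mem_insert.1 he).elim (fun k => k ▸ hx) fun k => mem_singleton.1 k ▸ hy
  rw [sum_pair fun e => hxy (h.qi e)] at a
  have := wt_pos (q x)
  have := wt_pos (q y)
  omega

theorem room2 (h : Cfg H W q) (i : ι) {x y : κ} (hxy : x ≠ y) : Rm (W i) (q x ∩ q y) := fun v hv => by
  have a := h.out2 i hxy (mem_inter.1 hv).1 (mem_inter.1 hv).2
  have := h.qh.cls.d4 v
  omega

theorem room3 (h : Cfg H W q) (i : ι) {x : κ} (h3 : (q x).card = 3) : Rm (W i) (q x) := fun v hv => by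
  have a := h.out1 i hv
  rw [wt3 h3] at a
  have := h.qh.cls.d4 v
  omega

/-- the blocks of a host with one block outside the pieces -/
theorem mem (h : Cfg H W q) {t : V} {x : κ} (tq : t ∈ q x) (tW : ∀ i, t ∉ cov (W i))
    (hs : ∑ i, C5.dd (W i) (q x) + 1 = (q x).card) {v : V} (hv : v ∈ q x) :
    v = t ∨ ∃ i, v ∈ cov (W i) := by
  by_contra k
  rw [not_or] at k
  have a := h.size (q x)
  have b : ({v, t} : Finset V) ⊆ q x \ cov (un (univ.image W)) :=
    insert_subset (mem_sdiff.2 ⟨hv, fun l => k.2 (mem_cov_un.1 l)⟩) (singleton_subset_iff.2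
      (mem_sdiff.2 ⟨tq, fun l => (mem_cov_un.1 l).elim tW⟩))
  have c := card_le_card b
  rw [card_pair k.1] at c
  omega

theorem np0 (h : Cfg H W q) {t : V} {x y : κ} (hxy : x ≠ y) (tq : t ∈ q x) (tq' : t ∈ q y)
    (tW : ∀ i, t ∉ cov (W i)) (hs : ∑ i, C5.dd (W i) (q x) + 1 = (q x).card) : np H (q x) = 0 :=
  np_zero fun v hv => by
    rcases h.mem tq tW hs hv with rfl | ⟨i, hi⟩
    · exact one_lt_card.2 ⟨q x, mem_star.2 ⟨h.qm x, tq⟩, q y, mem_star.2 ⟨h.qm y, tq'⟩,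
        fun e => hxy (h.qi e)⟩
    · have a := dg_lt (h.sub i) (h.qm x) (h.qo x i) hv
      have := dg_pos.2 hi
      omega

omit [Fintype ι] [DecidableEq ι] [DecidableEq κ] in
theorem sum_dd_le {Z : Finset (Finset V)}
    (d : ∀ x y, x ≠ y → Disjoint (q x ∩ cov Z) (q y ∩ cov Z)) :
    ∑ x, C5.dd Z (q x) ≤ (cov Z).card := by
  unfold C5.dd
  rw [← card_biUnion fun x _ y _ k => d x y k]
  exact card_le_card (biUnion_subset.2 fun _ _ => inter_subset_right)

/-- a piece that is one node of size three -/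
theorem small (h : Cfg H W q) (f3 : F3 H) {i : ι} (hU : IsU (W i)) :
    (∀ x y, x ≠ y → Disjoint (q x ∩ cov (W i)) (q y ∩ cov (W i))) ∧
      ∑ x, C5.dd (W i) (q x) ≤ 3 ∧ ∀ x, C5.dd (W i) (q x) ≤ 2 := by
  obtain ⟨K, k3, e⟩ := hU
  have hK : K ∈ W i := e ▸ mem_singleton_self K
  have c : cov (W i) = K := by rw [e, cov_singleton]
  have d : ∀ x y, x ≠ y → Disjoint (q x ∩ cov (W i)) (q y ∩ cov (W i)) := fun x y hxy =>
    disjoint_left.2 fun v a b => by
      have v1 : v ∈ K := c ▸ (mem_inter.1 a).2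
      have a1 := h.out2 i hxy (mem_inter.1 a).1 (mem_inter.1 b).1
      have a2 := f3 K (h.sub i hK) k3 v v1
      have a3 : wt K ≤ wdeg (W i) v :=
        single_le_sum (f := wt) (fun _ _ => Nat.zero_le _) (mem_star.2 ⟨hK, v1⟩)
      rw [wt3 k3] at a3
      omega
  refine ⟨d, (sum_dd_le d).trans (by rw [c, k3]), fun x => ?_⟩
  by_contra k
  have a : q x ∩ cov (W i) = K := eq_of_subset_of_card_le (c ▸ inter_subset_right)
    (by rw [k3]; exact not_le.1 k)
  exact h.qo x i (h.qh.mc.not_sub (h.sub i hK) (h.qm x) (a ▸ inter_subset_left) ▸ hK)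

/-- the hosts of a piece `E10` are disjoint in it -/
theorem smallE (h : Cfg H W q) {i : ι} (_u : U5 (W i)) (hE : E10 (W i)) :
    (∀ x y, x ≠ y → Disjoint (q x ∩ cov (W i)) (q y ∩ cov (W i))) ∧
      ∑ x, C5.dd (W i) (q x) ≤ 10 ∧ ∀ x, (q x).card = 3 → C5.dd (W i) (q x) = 0 := by
  have w : ∀ v ∈ cov (W i), 3 ≤ wdeg (W i) v := fun v hv => hE.d3 v hv ▸ dg_le_wdeg _ v
  have d : ∀ x y, x ≠ y → Disjoint (q x ∩ cov (W i)) (q y ∩ cov (W i)) := fun x y hxy =>
    disjoint_left.2 fun v a b => by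
      have a1 := h.out2 i hxy (mem_inter.1 a).1 (mem_inter.1 b).1
      have a2 := h.qh.cls.d4 v
      have := w v (mem_inter.1 a).2
      omega
  refine ⟨d, (sum_dd_le d).trans hE.n10.le, fun x h3 => ?_⟩
  by_contra k
  obtain ⟨v, hv⟩ := card_pos.1 (Nat.pos_of_ne_zero k)
  have := h.room3 i h3 v (mem_inter.1 hv).1
  have := w v (mem_inter.1 hv).2
  omega

theorem inter_sum (h : Cfg H W q) {t : V} {y z : κ} (ty : t ∈ q y) (tz : t ∈ q z)
    (tW : ∀ i, t ∉ cov (W i)) :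
    ∑ i, (q y ∩ q z ∩ cov (W i)).card + 1 ≤ (q y ∩ q z).card := by
  have a := h.size (q y ∩ q z)
  have b : 0 < ((q y ∩ q z) \ cov (un (univ.image W))).card :=
    card_pos.2 ⟨t, mem_sdiff.2 ⟨mem_inter.2 ⟨ty, tz⟩, fun l => (mem_cov_un.1 l).elim tW⟩⟩
  unfold C5.dd at a
  omega

/-- two hosts that fill a node of size three have at most two common blocks -/
theorem link (h : Cfg H W q) (f3 : F3 H) {i : ι} (hU : IsU (W i)) {t : V} {x y z : κ}
    (xy : x ≠ y) (xz : x ≠ z) (yz : y ≠ z) (tx : t ∈ q x) (ty : t ∈ q y) (tz : t ∈ q z)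
    (y5 : (q y).card = 5) (z5 : (q z).card = 5) (ny : np H (q y) = 0) (nz : np H (q z) = 0)
    (hd : C5.dd (W i) (q y) + C5.dd (W i) (q z) = 3) : (q y ∩ q z).card ≤ 2 := by
  by_contra k
  have d := (h.small f3 hU).1 y z yz
  obtain ⟨K, k3, e⟩ := hU
  have hK : K ∈ H := h.sub i (e ▸ mem_singleton_self K)
  have c : cov (W i) = K := by rw [e, cov_singleton]
  have a := h.qh.cls.c3 _ (h.qm y) _ (h.qm z) fun l => yz (h.qi l)
  have u : q y ∩ cov (W i) ∪ q z ∩ cov (W i) = cov (W i) :=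
    eq_of_subset_of_card_le (union_subset inter_subset_right inter_subset_right)
      (by rw [card_union_of_disjoint d, c, k3, ← c]; exact hd.ge)
  refine h.qh.fl.lk K hK k3 ⟨q y, q z, ⟨h.qm y, h.qm z, y5, z5, by omega, ny, nz⟩, fun p => ?_,
    fun v hv => ?_⟩
  · rcases (pend_iff (h.qm y) (h.qm z)).1 p _ (h.qm x) t (mem_inter.2 ⟨ty, tz⟩) tx with l | l
    · exact xy (h.qi l)
    · exact xz (h.qi l)
  · have v1 : v ∈ cov (W i) := c ▸ hv
    refine mem_sdiff.2 ⟨?_, fun l => disjoint_left.1 d (mem_inter.2 ⟨(mem_inter.1 l).1, v1⟩)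
      (mem_inter.2 ⟨(mem_inter.1 l).2, v1⟩)⟩
    rcases mem_union.1 (u.symm ▸ v1) with l | l
    · exact mem_union_left _ (mem_inter.1 l).1
    · exact mem_union_right _ (mem_inter.1 l).1

/-- the numerical shadow -/
theorem num [Infinite V] (h : Cfg H W q) (f3 : F3 H) (h3 : 3 ≤ Fintype.card κ)
    (hc : Fintype.card κ ≤ Fintype.card ι + 1) (q5 : ∀ x, (q x).card = 5)
    (hn : ∀ i x, 4 ≤ C5.dd (W i) (q x) → np H (q x) = 0) :
    Num (fun i x => C5.dd (W i) (q x)) (fun i y z => (q y ∩ q z ∩ cov (W i)).card)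
      (fun i x y => Cross (W i) (q x) (q y)) (fun i => IsU (W i)) fun i => VH H (W i) := by
  have : Nonempty κ := Fintype.card_pos_iff.1 (by omega)
  have nE : ∀ i, ¬ Abs2 (W i) := fun i k => by
    have := h.cardE {i} fun j l => mem_singleton.1 l ▸ k
    rw [card_singleton] at this
    omega
  refine ⟨h.hall, fun i x y _ f a b => h.rule f a b, fun i k => (h.small f3 k).2,
    fun i => (h.base i (nE i)).1, fun i => (h.base i (nE i)).2,
    fun i y z => card_le_card (inter_subset_inter_right inter_subset_left),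
    fun i y z => card_le_card (inter_subset_inter_right inter_subset_right),
    fun i y z _ k => card_eq_zero.2 (eq_empty_of_forall_notMem fun v hv => ?_),
    fun i x y k _ c => ?_, fun i x y z k _ _ yz c c' => ?_⟩
  · obtain ⟨a, b⟩ := mem_inter.1 hv
    exact disjoint_left.1 (h.disj k) (mem_inter.2 ⟨(mem_inter.1 a).1, b⟩)
      (mem_inter.2 ⟨(mem_inter.1 a).2, b⟩)
  · have a := (h.ga11 h3 c).table (fun l => h.rl i (q5 x) (hn i x l)) (C := ∅) (empty_subset _)
      (fun _ l => absurd l (notMem_empty _)) ((h.base i (nE i)).2 k)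
    rw [card_empty] at a
    exact a
  · have a := (h.ga12 h3 c c').table (fun l => h.rl i (q5 x) (hn i x l))
      (C := q y ∩ q z ∩ cov (W i))
      ((inter_subset_inter_right inter_subset_left).trans subset_union_left)
      (fun v l => h.room2 i yz v (mem_inter.1 l).1) ((h.base i (nE i)).2 k)
    have b := card_union_add_card_inter (q y ∩ cov (W i)) (q z ∩ cov (W i))
    rw [← inter_inter_distrib_right] at b
    have e : (q y ∩ cov (W i) ∪ q z ∩ cov (W i)).card =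
        C5.dd (W i) (q y) + C5.dd (W i) (q z) - (q y ∩ q z ∩ cov (W i)).card := by
      unfold C5.dd
      omega
    rwa [e] at a

end Cfg

end Pool.Agent.Work.MP_d266e7_co.Mix
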