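import Pool.Agent.Work.MP_d266e7_co.Full.QRep
import Pool.Agent.Work.MP_d266e7_co.Full.QCfg

/-!
A block in four nodes of size five, two pieces, no other block.
-/

namespace Pool.Agent.Work.MP_d266e7_co.Mix

open Finset C5 C5.P24

variable {V : Type} [DecidableEq V] {H W1 W2 : Finset (Finset V)} {q : Fin 4 → Finset V} {t : V}

theorem r2_ga {W : Finset (Finset V)} (pc : Pc H W) {a b : ℕ} (g : Gad W (dg H) a b) :
    ∃ A B, GA H W A B ∧ a ≤ A.card ∧ b ≤ B.card := by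
  obtain ⟨A, B, h1, h2, h3, h4, h5, h6⟩ := g
  have ho : ∀ v, dg W v < dg H v → ∃ x ∈ H, x ∉ W ∧ v ∈ x := fun v k => by
    obtain ⟨x, x1, x2⟩ := exists_mem_notMem_of_card_lt_card k
    exact ⟨x, (mem_star.1 x1).1, fun d => x2 (mem_star.2 ⟨d, (mem_star.1 x1).2⟩),
      (mem_star.1 x1).2⟩
  exact ⟨A, B, ⟨pc, fun v hv => ⟨h1 hv, ho v (h3 v (mem_union_left _ hv))⟩,
    fun v hv => ⟨h2 hv, ho v (h3 v (mem_union_right _ hv))⟩, h4⟩, h5, h6⟩

theorem r2_sum4 (f : Fin 4 → ℕ) {x y z w : Fin 4} (h1 : x ≠ y) (h2 : x ≠ z) (h3 : x ≠ w)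
    (h4 : y ≠ z) (h5 : y ≠ w) (h6 : z ≠ w) : ∑ r, f r = f x + f y + f z + f w := by
  have e : (univ : Finset (Fin 4)) = {x, y, z, w} := by
    ext r
    simpa using quad_all x y z w r h1 h2 h3 h4 h5 h6
  rw [e, sum_insert (by simp [h1, h2, h3]), sum_insert (by simp [h4, h5]), sum_pair h6]
  omega

theorem r2_fourth : ∀ r s w : Fin 4, ∃ p, p ≠ r ∧ p ≠ s ∧ p ≠ w := by decide

namespace R2

theorem pc (h : R2 H W1 W2 q t) (hq : QH H) : Pc H W1 :=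
  ⟨hq, h.c1, h.s1, by have := h.lt1; omega⟩

theorem room (h : R2 H W1 W2 q t) {r s : Fin 4} (c : r ≠ s) {b : V} (hr : b ∈ q r)
    (hs : b ∈ q s) : wdeg W1 b ≤ 2 := by
  have a : ws (insert (q r) (insert (q s) (star W1 b))) ≤ wdeg H b := ws_mono
    (insert_subset (mem_star.2 ⟨h.qmem r, hr⟩) (insert_subset (mem_star.2 ⟨h.qmem s, hs⟩)
      (star_mono h.s1 b)))
  rw [ws_insert (fun k => (mem_insert.1 k).elim (h.qinj.ne c) fun k => h.q1 r (mem_star.1 k).1),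
    ws_insert (fun k => h.q1 s (mem_star.1 k).1), wt5 (h.q5 r), wt5 (h.q5 s)] at a
  have := h.cls.d4 b
  change ws (star W1 b) ≤ 2
  omega

theorem sum_dd (hd : ∀ r s, r ≠ s → ∀ v ∈ cov W2, v ∈ q r → v ∉ q s) :
    ∑ r, C5.dd W2 (q r) = (cov (univ.image q) ∩ cov W2).card := by
  refine (card_biUnion fun r _ s _ c => disjoint_left.2 fun v a b =>
    hd r s c v (mem_inter.1 a).2 (mem_inter.1 a).1 (mem_inter.1 b).1).symm.trans
    (congrArg card (Finset.ext fun v => ?_))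
  simp only [mem_biUnion, mem_univ, true_and, mem_inter, mem_cov, mem_image]
  exact ⟨fun ⟨r, a, b⟩ => ⟨⟨_, ⟨r, rfl⟩, a⟩, b⟩, fun ⟨⟨_, ⟨r, k⟩, a⟩, b⟩ => ⟨r, k ▸ a, b⟩⟩

variable [Infinite V]

theorem core (h : R2 H W1 W2 q t) (hq : QH H) (nU : ¬ IsU W2) (g1 : ¬ Gad W1 (dg H) 2 2)
    (g2 : ¬ Gad W2 (dg H) 2 2) (v2 : -46 ≤ VH H W2) {x y z w : Fin 4} (h1 : x ≠ y) (h2 : x ≠ z)
    (h3 : x ≠ w) (h4 : y ≠ z) (h5 : y ≠ w) (h6 : z ≠ w) (hx : 3 ≤ C5.dd W1 (q x))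
    (hy : 3 ≤ C5.dd W1 (q y)) (hz : 3 ≤ C5.dd W1 (q z)) (hw : 1 ≤ C5.dd W2 (q w)) :
    -46 ≤ VH H W1 + VH H W2 := by
  have nj : ∀ r s, 2 ≤ C5.dd W1 (q r) → 2 ≤ C5.dd W1 (q s) → ¬ NJ W1 (q r) (q s) :=
    fun r s a b c => g1 ((h.gad c).mono a b)
  have sx := h.hs x
  have sy := h.hs y
  have sz := h.hs z
  have sw := h.hs w
  have nxy := nj x y (by omega) (by omega)
  have nxz := nj x z (by omega) (by omega)
  have nyz := nj y z (by omega) (by omega)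
  have jz := (h.split h1 h2 h3 h4 h5 h6).resolve_left nxy
  have jy := (h.split h2 h1 h3 h4.symm h6 h5).resolve_left nxz
  have jx := (h.split h4 h1.symm h5 h2.symm h6 h3).resolve_left nyz
  have a3 : ∀ p, p ≠ w → 3 ≤ C5.dd W1 (q p) ∧ NJ W2 (q p) (q w) := fun p c => by
    rcases quad_all x y z w p h1 h2 h3 h4 h5 h6 with rfl | rfl | rfl | rfl
    exacts [⟨hx, jx⟩, ⟨hy, jy⟩, ⟨hz, jz⟩, absurd rfl c]
  have tri : (cov {q x, q y, q z} ∩ cov W2).card ≤ 1 → -46 ≤ VH H W1 + VH H W2 := fun hc => by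
    rcases h.tri hq.ih hq.fl h1 h2 h3 h4 h5 h6 hw nxy nxz nyz hc with k | ⟨k, r, s, c1, c2, c3, b,
      b1, b2, b3⟩
    · omega
    obtain ⟨p, p1, p2, p3⟩ := r2_fourth r s w
    have a1 : C5.dd W1 (q w) ≤ 1 := not_lt.1 fun c => nj p w (by have := (a3 p p3).1; omega) c
      (h.nj_of_com p3 p1 p2 c2.symm c3.symm c1 b1 b2 b3)
    have ga : GA H W2 (q w ∩ cov W2) {b} := ⟨h.symm.pc hq,
      fun v hv => ⟨(mem_inter.1 hv).2, _, h.qmem w, h.q2 w, (mem_inter.1 hv).1⟩,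
      fun v hv => mem_singleton.1 hv ▸ ⟨b1, _, h.qmem r, h.q2 r, b2⟩,
      (P24.cross_of_nj (a3 r c2).2.symm).mono inter_subset_left (singleton_subset_iff.2 b2)⟩
    have := ga.j31 (fun v hv => mem_singleton.1 hv ▸ h.symm.room c1 b2 b3)
      (show 3 ≤ C5.dd W2 (q w) by omega) (card_singleton b).ge
    omega
  by_cases hw2 : 2 ≤ C5.dd W2 (q w)
  · have g3 := gad1N (N := {q x, q y, q z}) h.s2 (h.qmem w) (h.q2 w) fun e he => by
      rcases mem_insert.1 he with rfl | he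
      · exact ⟨h.qmem x, h.q2 x, jx.symm⟩
      rcases mem_insert.1 he with rfl | he
      · exact ⟨h.qmem y, h.q2 y, jy.symm⟩
      · rw [mem_singleton.1 he]
        exact ⟨h.qmem z, h.q2 z, jz.symm⟩
    exact tri (not_lt.1 fun c => g2 (g3.mono hw2 c))
  by_cases hb : C5.dd W2 (q x) + C5.dd W2 (q y) + C5.dd W2 (q z) ≤ 1
  · refine tri (le_trans (card_le_card (t := q x ∩ cov W2 ∪ q y ∩ cov W2 ∪ q z ∩ cov W2)
      fun v hv => ?_) (((card_union_le _ _).trans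
        (Nat.add_le_add_right (card_union_le _ _) _)).trans hb))
    obtain ⟨a, b⟩ := mem_inter.1 hv
    obtain ⟨e, he, c⟩ := mem_cov.1 a
    simp only [mem_insert, mem_singleton] at he
    rcases he with rfl | rfl | rfl <;> simp [b, c]
  have a2 : ∀ p, 2 ≤ C5.dd W1 (q p) := fun p => by
    by_cases c : p = w
    · rw [c]
      omega
    · have := (a3 p c).1
      omega
  have n2 : ∀ r s, r ≠ s → NJ W2 (q r) (q s) := fun r s c => by
    obtain ⟨a, b, c2, c3, c4, c5, c6⟩ := qtwoe_rest2 r s c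
    exact (h.split c6 c2.symm c4.symm c3.symm c5.symm c).resolve_left (nj a b (a2 a) (a2 b))
  by_cases hb3 : 3 ≤ C5.dd W2 (q x) + C5.dd W2 (q y) + C5.dd W2 (q z)
  · exact absurd ((mgad22 h.c2 h.s2 (h.qmem x) (h.qmem y) (h.qmem z) (h.qmem w) (h.q2 x) (h.q2 y)
      (h.q2 z) (h.q2 w) (n2 x y h1) (n2 x z h2) jx (n2 y z h4) jy jz).mono (by omega) (by omega)) g2
  have hd : ∀ r s, r ≠ s → ∀ v ∈ cov W2, v ∈ q r → v ∉ q s := fun r s c v a b d =>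
    disjoint_left.1 (h.c2.nj_disjoint (n2 r s c)) (mem_inter.2 ⟨b, a⟩) (mem_inter.2 ⟨d, a⟩)
  have := h.repl hq.ih hq.fl nU (fun r s _ => nj r s (a2 r) (a2 s)) hd
    (by rw [← sum_dd hd, r2_sum4 _ h1 h2 h3 h4 h5 h6]; omega) fun s => by
      by_cases c : w = s
      · by_cases d : 1 ≤ C5.dd W2 (q x)
        exacts [⟨x, c ▸ h3, d⟩, ⟨y, c ▸ h5, by omega⟩]
      · exact ⟨w, c, hw⟩
  omega

/-- two ordinary pieces -/
theorem normal (h : R2 H W1 W2 q t) (hq : QH H) (u1 : ¬ IsU W1) (u2 : ¬ IsU W2)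
    (v1 : -46 ≤ VH H W1) (v2 : -46 ≤ VH H W2) : -46 ≤ VH H W1 + VH H W2 := by
  by_cases g1 : Gad W1 (dg H) 2 2
  · obtain ⟨A, B, g, a, b⟩ := r2_ga (h.pc hq) g1
    have := g.g22 a b
    omega
  by_cases g2 : Gad W2 (dg H) 2 2
  · obtain ⟨A, B, g, a, b⟩ := r2_ga (h.symm.pc hq) g2
    have := g.g22 a b
    omega
  obtain ⟨x, y, z, w, h1, h2, h3, h4, h5, h6, c | c⟩ :=
    quad_num (a := fun x => C5.dd W1 (q x)) (b := fun x => C5.dd W2 (q x)) h.hs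
      (fun x y z w h1 h2 h3 h4 h5 h6 ⟨a, b, c, d⟩ =>
        (h.split h1 h2 h3 h4 h5 h6).elim (fun j => g1 ((h.gad j).mono a b))
          fun j => g2 ((h.symm.gad j).mono c d))
      (fun x y z w => h.symm.nb) fun x y z w => h.nb
  · exact h.core hq u2 g1 g2 v2 h1 h2 h3 h4 h5 h6 c.1 c.2.1 c.2.2.1 c.2.2.2.1
  · have := h.symm.core hq u1 g2 g1 v1 h1 h2 h3 h4 h5 h6 c.1 c.2.1 c.2.2.1 c.2.2.2.1
    omega

/-- the second piece is `E10` -/
theorem excE (h : R2 H W1 W2 q t) (hq : QH H) (e : E10 W2) : -46 ≤ VH H W1 + VH H W2 := by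
  obtain ⟨A, B, g, a, b⟩ := r2_ga (h.pc hq) (h.gadE e)
  have := g.g33 a b
  have := r2_ge h.s2
  have := (h.symm.ok1 hq.ih).ge60
  omega

/-- the second piece is a node of size three -/
theorem excU (h : R2 H W1 W2 q t) (hq : QH H) (f3 : F3 H) (hu : IsU W2) :
    -46 ≤ VH H W1 + VH H W2 ∨ BadQ H t := by
  have v2 := r2_ge h.s2
  rw [valG_eq, hu.vb] at v2
  obtain ⟨u, u3, rfl⟩ := hu
  have uH : u ∈ H := h.s2 (mem_singleton_self u)
  have hd : ∀ r s, r ≠ s → ∀ v ∈ cov {u}, v ∈ q r → v ∉ q s := fun r s c v a b d => by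
    rw [cov_singleton] at a
    have := (h.cls.star_eq uH u3 (h.qmem r) (h.q5 r) (h.qmem s) (h.q5 s) (h.qinj.ne c) a b d).2
    have := f3 u uH u3 v a
    omega
  have host : ∀ x ∈ H, x ≠ u → Adj x u → ∃ r, x = q r ∧ 1 ≤ C5.dd {u} (q r) := fun x a b c => by
    rcases h.all x a with k | k | ⟨r, rfl⟩
    · exact absurd c (h.sep x k u (mem_singleton_self u))
    · exact absurd (mem_singleton.1 k) b
    · exact ⟨r, rfl, dd_pos.2 ⟨u, mem_singleton_self u, c⟩⟩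
  by_cases g : Gad W1 (dg H) 3 2
  · obtain ⟨A, B, g, a, b⟩ := r2_ga (h.pc hq) g
    have := g.g32 a b
    exact Or.inl (by omega)
  refine Or.inr ⟨?_, u, uH, u3, fun x a b c => ?_, fun x x1 y y1 z z1 x2 y2 z2 x3 y3 z3 xy xz yz =>
    not_lt.1 fun c => g ?_⟩
  · have a1 := h.tau_eq
    have a2 := h.card_eq
    have a3 := h.c1.gallai
    rw [tau_singleton (card_pos.1 (by omega))] at a1
    rw [card_singleton] at a2
    omega
  · obtain ⟨r, rfl, -⟩ := host x a b c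
    exact ⟨h.qt r, h.np_q r⟩
  obtain ⟨r, rfl, r1⟩ := host x x1 x2 x3
  obtain ⟨s, rfl, s1⟩ := host y y1 y2 y3
  obtain ⟨p, rfl, p1⟩ := host z z1 z2 z3
  have c1 : r ≠ s := fun d => xy (d ▸ rfl)
  have c2 : r ≠ p := fun d => xz (d ▸ rfl)
  have c3 : s ≠ p := fun d => yz (d ▸ rfl)
  obtain ⟨o, o1, o2, o3⟩ := r2_fourth r s p
  have a1 : ∑ r, C5.dd {u} (q r) ≤ 3 := by
    rw [sum_dd hd, ← u3, cov_singleton]
    exact card_le_card inter_subset_right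
  rw [r2_sum4 _ o1 o2 o3 c1 c2 c3] at a1
  have a2 := h.hs o
  have mB : ∀ v ∈ (q r ∩ q s ∩ q p).erase t, v ∈ cov W1 ∧ v ∈ q s ∧ v ∈ q p := fun v hv => by
    obtain ⟨b1, b2⟩ := mem_erase.1 hv
    obtain ⟨b3, b4⟩ := mem_inter.1 b2
    exact ⟨((h.mem p b4).resolve_left b1).resolve_right fun d => hd p s c3.symm v d b4
      (mem_inter.1 b3).2, (mem_inter.1 b3).2, b4⟩
  refine ⟨q o ∩ cov W1, (q r ∩ q s ∩ q p).erase t, inter_subset_right, fun v hv => (mB v hv).1,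
    fun v hv => ?_, fun C d1 d2 v hv b hb d3 d4 => ?_, show 3 ≤ C5.dd W1 (q o) by omega, ?_⟩
  · rcases mem_union.1 hv with k | k
    · exact dg_lt h.s1 (h.qmem o) (h.q1 o) (mem_inter.1 k).1
    · exact dg_lt h.s1 (h.qmem s) (h.q1 s) (mB v k).2.1
  · exact h.no3 o2 o3 o1 c3 c1.symm c2.symm r1 C d1 d2 ⟨v, (mem_inter.1 hv).1, d3⟩
      ⟨b, (mB b hb).2.1, d4⟩ ⟨b, (mB b hb).2.2, d4⟩
  · have := pred_card_le_card_erase (s := q r ∩ q s ∩ q p) (a := t)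
    omega

theorem main (h : R2 H W1 W2 q t) (hq : QH H) (f3 : F3 H) :
    -46 ≤ VH H W1 + VH H W2 ∨ BadQ H t := by
  by_cases u1 : IsU W1
  · exact add_comm (VH H W2) _ ▸ h.symm.excU hq f3 u1
  by_cases u2 : IsU W2
  · exact h.excU hq f3 u2
  refine Or.inl ?_
  rcases (h.ok1 hq.ih).imp_right fun k => k.resolve_left u1 with a | a
  · rcases (h.symm.ok1 hq.ih).imp_right fun k => k.resolve_left u2 with b | b
    · exact h.normal hq u1 u2 (a.trans (r2_ge h.s1)) (b.trans (r2_ge h.s2))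
    · exact h.excE hq b.2
  · exact add_comm (VH H W2) _ ▸ h.symm.excE hq a.2

end R2

theorem qa [Infinite V] {W : Fin 2 → Finset (Finset V)} (h : Cfg H W q) (f3 : F3 H)
    (tq : ∀ x, t ∈ q x) (tW : ∀ i, t ∉ cov (W i))
    (q5 : ∀ x, (q x).card = 5) (hs : ∀ x, ∑ i, C5.dd (W i) (q x) = 4) :
    -46 ≤ ∑ i, VH H (W i) ∨ BadQ H t := by
  have a := h.tau
  have e : (univ : Finset (Fin 2)) = {0, 1} := by decide
  simp only [e, sum_pair (show (0 : Fin 2) ≠ 1 by decide)] at a hs ⊢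
  refine R2.main ⟨h.qh.cls, h.qh.mc, h.mc 0, h.mc 1, h.sub 0, h.sub 1, h.sep 0 1 (by decide), h.qm,
    h.qi, fun e he => ?_, by omega, q5, tq, tW 0, tW 1, hs⟩ h.qh f3
  rcases h.all e he with k | k
  · exact or_assoc.1 (Or.inl (Fin.exists_fin_two.1 k))
  · exact Or.inr (Or.inr k)

end Pool.Agent.Work.MP_d266e7_co.Mix
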