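import Pool.Agent.Work.MP_d266e7_co.Full.QNumC

/-!
Numerical check for three pieces and four hosts. Pieces and hosts are sorted, the rest is a finite
check.
-/

namespace Pool.Agent.Work.MP_d266e7_co.Mix

open Finset

def nbRow (a b c e : ℕ) (x : Fin 4) : ℕ :=
  bif Nat.ble x.1 0 then a else bif Nat.ble x.1 1 then b else bif Nat.ble x.1 2 then c else e

def nbL : List (Fin 4) := [0, 1, 2, 3]

/-- evaluate `n` first -/
noncomputable def nbF (n : ℕ) (f : ℕ → ℕ) : ℕ := Nat.rec (f 0) (fun k _ => f (k + 1)) n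

noncomputable def nbMax (f : Fin 4 → ℕ) : ℕ :=
  nbF (f 0) fun a => nbF (f 1) fun b => nbF (f 2) fun c => nbF (f 3) fun e =>
    max (max a b) (max c e)

/-- the other hosts are matched to the other pieces with rows `a`, `b` -/
def nbR (a b : Fin 4 → ℕ) (x y : Fin 4) : Bool :=
  match nbL.filter fun z => z != x && z != y with
  | [z, w] => (Nat.ble 1 (a z) && Nat.ble 1 (b w)) || (Nat.ble 1 (a w) && Nat.ble 1 (b z))
  | _ => false

def nbC (p a b : Fin 4 → ℕ) : Bool :=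
  ((Nat.ble 3 (p 0 + p 1) && Nat.ble 3 (p 2 + p 3)) || ((Nat.ble 3 (p 0 + p 2) &&
    Nat.ble 3 (p 1 + p 3)) || (Nat.ble 3 (p 0 + p 3) && Nat.ble 3 (p 1 + p 2)))) &&
    nbL.all fun x => nbL.all fun y => x == y || nbR a b x y

/-- lower bound for the gain on the piece with row `p` -/
noncomputable def nbG (p a b : Fin 4 → ℕ) : ℕ :=
  bif nbC p a b then 155 else nbMax fun x => bif Nat.ble (p x) 1 then 0 else nbMax fun y =>
    bif nbR a b x y then nbMax fun z =>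
      bif y == z then gT (p x) (p y) 0 else
      bif Nat.blt y.1 z.1 && nbR a b x z then
        bif nbR a b y z then gT (p x) (p y + p z) 0
        else gT (p x) (max (p y) (p z)) (min (p y) (p z))
      else 0
    else 0

def nbS (p : Fin 4 → ℕ) : Bool := Nat.ble (p 0 + p 1 + p 2 + p 3) 3

def nbN (f : Fin 4 → ℕ) : ℕ := min 1 (f 0) + min 1 (f 1) + min 1 (f 2) + min 1 (f 3)

def nbH (a b : Fin 4 → ℕ) : Bool := Nat.ble (nbN a) 1 || Nat.ble (nbN fun x => a x + b x) 2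

/-- the value plus sixty, with `k` common blocks of the hosts `y`, `z` -/
noncomputable def nbV (p a b : Fin 4 → ℕ) (u : Bool) (y z : Fin 4) (k : ℕ) : ℕ :=
  bif u then 0 else 14 + max (nbG p a b) (nbMax fun x =>
    bif nbR a b x y && nbR a b x z then gT (p x) (p y + p z - k) k else 0)

def nbK (p : Fin 4 → ℕ) (y z : Fin 4) (f : Bool → ℕ → Bool) : Bool :=
  [false, true].all fun u => (u && !nbS p) || [0, 1, 2].all fun k =>
    Nat.blt (p y) k || (Nat.blt (p z) k || f u k)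

noncomputable def nbJ (a b c : Fin 4 → ℕ) (n : ℕ) : Bool :=
  nbL.any fun y => nbL.any fun z => y != z && nbK a y z fun ua ka => nbK b y z fun ub kb =>
    nbK c y z fun uc kc => Nat.ble 3 (ka + kb + kc) ||
      ((Nat.ble 2 (ka + kb + kc) && (Nat.beq (a y + b y + c y) 4 && (Nat.beq (a z + b z + c z) 4 &&
        ((ua && Nat.beq (a y + a z) 3) || ((ub && Nat.beq (b y + b z) 3) ||
          (uc && Nat.beq (c y + c z) 3)))))) ||
      Nat.ble 134 (nbV a b c ua y z ka + nbV b c a ub y z kb + nbV c a b uc y z kc + n))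

noncomputable def nbW (p a b : Fin 4 → ℕ) : ℕ := bif nbS p then 0 else 14 + nbG p a b

noncomputable def nbT (a b c : Fin 4 → ℕ) (n : ℕ) : Bool :=
  nbH a b || (nbH b c || (nbH c a ||
    (Nat.ble 134 (nbW a b c + nbW b c a + nbW c a b + n) || nbJ a b c n)))

def nbZ (s : ℕ) : ℕ := bif Nat.ble 16 s then 0 else bif Nat.ble 15 s then 91 else 108

def nbAll (f : ℕ → ℕ → ℕ → Bool) : Bool :=
  f 0 0 4 && f 0 1 3 && f 0 2 2 && f 0 3 1 && f 0 4 0 && f 1 0 3 && f 1 1 2 && f 1 2 1 &&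
    f 1 3 0 && f 2 0 2 && f 2 1 1 && f 2 2 0 && f 3 0 1 && f 3 1 0 && f 4 0 0 && f 0 0 3 &&
    f 0 1 2 && f 0 2 1 && f 0 3 0 && f 1 0 2 && f 1 1 1 && f 1 2 0 && f 2 0 1 && f 2 1 0 &&
    f 3 0 0

def nbKey (a b c : ℕ) : ℕ := 25 * a + 5 * b + c

/-- the sign of `n`, as a numeral -/
private def nbk1 (n : ℕ) (f : ℕ → Bool) : Bool := bif Nat.ble 1 n then f 1 else f 0

private theorem nbk1_eq (n : ℕ) (f : ℕ → Bool) : nbk1 n f = f (min 1 n) := by
  cases n with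
  | zero => rfl
  | succ n => rw [Nat.min_eq_left (Nat.succ_pos n)]; rfl

private theorem nbk_row (a b c e : ℕ) (x : Fin 4) :
    Nat.ble 1 (nbRow (min 1 a) (min 1 b) (min 1 c) (min 1 e) x) = Nat.ble 1 (nbRow a b c e x) := by
  have k : ∀ n, Nat.ble 1 (min 1 n) = Nat.ble 1 n := fun n => by
    cases n with
    | zero => rfl
    | succ n => rw [Nat.min_eq_left (Nat.succ_pos n)]; rfl
  unfold nbRow
  cases Nat.ble x.1 0 <;> cases Nat.ble x.1 1 <;> cases Nat.ble x.1 2 <;> exact k _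

private theorem nbk_W (p : Fin 4 → ℕ) {a b a' b' : Fin 4 → ℕ}
    (ha : ∀ x, Nat.ble 1 (a' x) = Nat.ble 1 (a x)) (hb : ∀ x, Nat.ble 1 (b' x) = Nat.ble 1 (b x)) :
    nbW p a' b' = nbW p a b := by
  have e : nbR a' b' = nbR a b := by
    funext x y
    simp only [nbR, ha, hb]
  simp only [nbW, nbG, nbC, e]

/-- the test `nbT` with the signs of the rows in the matching rules -/
private noncomputable def nbkT (a0 a1 a2 a3 b0 b1 b2 b3 c0 c1 c2 c3 n : ℕ) : Bool :=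
  nbH (nbRow a0 a1 a2 a3) (nbRow b0 b1 b2 b3) || (nbH (nbRow b0 b1 b2 b3) (nbRow c0 c1 c2 c3) ||
  (nbH (nbRow c0 c1 c2 c3) (nbRow a0 a1 a2 a3) ||
    ((nbk1 a0 fun p0 => nbk1 a1 fun p1 => nbk1 a2 fun p2 => nbk1 a3 fun p3 =>
      nbk1 b0 fun q0 => nbk1 b1 fun q1 => nbk1 b2 fun q2 => nbk1 b3 fun q3 =>
      nbk1 c0 fun r0 => nbk1 c1 fun r1 => nbk1 c2 fun r2 => nbk1 c3 fun r3 =>
      Nat.ble 134 (nbW (nbRow a0 a1 a2 a3) (nbRow q0 q1 q2 q3) (nbRow r0 r1 r2 r3) +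
        nbW (nbRow b0 b1 b2 b3) (nbRow r0 r1 r2 r3) (nbRow p0 p1 p2 p3) +
        nbW (nbRow c0 c1 c2 c3) (nbRow p0 p1 p2 p3) (nbRow q0 q1 q2 q3) + n)) ||
    nbJ (nbRow a0 a1 a2 a3) (nbRow b0 b1 b2 b3) (nbRow c0 c1 c2 c3) n)))

private theorem nbkT_eq (a0 a1 a2 a3 b0 b1 b2 b3 c0 c1 c2 c3 n : ℕ) :
    nbT (nbRow a0 a1 a2 a3) (nbRow b0 b1 b2 b3) (nbRow c0 c1 c2 c3) n =
      nbkT a0 a1 a2 a3 b0 b1 b2 b3 c0 c1 c2 c3 n := by
  simp only [nbkT, nbk1_eq]
  rw [nbk_W _ (nbk_row b0 b1 b2 b3) (nbk_row c0 c1 c2 c3),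
    nbk_W _ (nbk_row c0 c1 c2 c3) (nbk_row a0 a1 a2 a3),
    nbk_W _ (nbk_row a0 a1 a2 a3) (nbk_row b0 b1 b2 b3)]
  rfl

theorem nb_check : (nbAll fun a0 b0 c0 => nbAll fun a1 b1 c1 =>
    Nat.blt (nbKey a1 b1 c1) (nbKey a0 b0 c0) || nbAll fun a2 b2 c2 =>
    Nat.blt (nbKey a2 b2 c2) (nbKey a1 b1 c1) || nbAll fun a3 b3 c3 =>
    Nat.blt (nbKey a3 b3 c3) (nbKey a2 b2 c2) ||
    (Nat.blt (b0 + b1 + b2 + b3) (a0 + a1 + a2 + a3) ||
    (Nat.blt (c0 + c1 + c2 + c3) (b0 + b1 + b2 + b3) ||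
    nbT (nbRow a0 a1 a2 a3) (nbRow b0 b1 b2 b3) (nbRow c0 c1 c2 c3)
      (nbZ (a0 + a1 + a2 + a3 + (b0 + b1 + b2 + b3) + (c0 + c1 + c2 + c3)))))) = true := by
  simp only [nbkT_eq]
  decide +kernel

theorem nbAll_spec {f : ℕ → ℕ → ℕ → Bool} (h : nbAll f = true) {a b c : ℕ}
    (hs : a + b + c = 4 ∨ a + b + c = 3) : f a b c = true := by
  simp only [nbAll, Bool.and_eq_true] at h
  have key : ∀ n : ℕ, n = 0 ∨ n = 1 ∨ n = 2 ∨ n = 3 ∨ n = 4 ∨ 5 ≤ n := fun n => by omega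
  rcases key a with rfl | rfl | rfl | rfl | rfl | ha <;>
  rcases key b with rfl | rfl | rfl | rfl | rfl | hb <;>
  rcases key c with rfl | rfl | rfl | rfl | rfl | hc <;>
  first
    | (exfalso; omega)
    | simp only [h]

theorem nbF_eq (n : ℕ) (f : ℕ → ℕ) : nbF n f = f n := by cases n <;> rfl

theorem nbMax_le {f : Fin 4 → ℕ} {G : ℤ} (h : ∀ x, (f x : ℤ) - 46 ≤ G) :
    (nbMax f : ℤ) - 46 ≤ G := by
  have := h 0
  have := h 1
  have := h 2
  have := h 3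
  simp only [nbMax, nbF_eq]
  omega

theorem gT_min {p a b k : ℕ} (h1 : k ≤ a) (h2 : k ≤ b) :
    gT p (max a b) (min a b) ≤ gT p (a + b - k) k := by
  unfold gT
  split_ifs <;> omega

theorem nbZ_le {s : Fin 4 → ℕ} {N : ℤ} (hs : ∀ x, s x = 4 ∨ s x = 3) (N0 : 0 ≤ N)
    (N1 : ∀ x, s x = 3 → 91 ≤ N) (N2 : ∀ x y, x ≠ y → s x = 3 → s y = 3 → 108 ≤ N) :
    (nbZ (s 0 + s 1 + s 2 + s 3) : ℤ) ≤ N := by
  simp only [nbZ, Bool.cond_eq_ite, Nat.ble_eq]
  split_ifs with a b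
  · exact N0
  · by_contra c
    have e : ∀ x, s x = 4 := fun x => (hs x).resolve_right fun e => c (N1 x e)
    rw [e, e, e, e] at a
    omega
  · by_contra c
    have e : ∀ x y, x ≠ y → 7 ≤ s x + s y := fun x y k => by
      have := hs x
      have := hs y
      have := N2 x y k
      omega
    have := e 0 1 (by decide)
    have := e 2 3 (by decide)
    have := e 0 2 (by decide)
    have := e 1 3 (by decide)
    have := e 0 3 (by decide)
    have := e 1 2 (by decide)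
    have := hs 0
    have := hs 1
    have := hs 2
    have := hs 3
    omega

theorem nb_four : ∀ x y z w : Fin 4, (nbL.filter fun z => z != x && z != y) = [z, w] →
    x ≠ y ∧ z ≠ w ∧ ∀ u, u ≠ x → u ≠ y → u = z ∨ u = w := by decide +kernel

section

variable {d : Fin 3 → Fin 4 → ℕ} {k : Fin 3 → Fin 4 → Fin 4 → ℕ}
  {R : Fin 3 → Fin 4 → Fin 4 → Prop} {U : Fin 3 → Prop} {g : Fin 3 → ℤ} {i j l : Fin 3}

theorem Num.nbR_spec (h : Num d k R U g) (n : j ≠ i ∧ l ≠ i ∧ j ≠ l) {x y : Fin 4}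
    (m : nbR (d j) (d l) x y = true) : x ≠ y ∧ R i x y := by
  have key : ∀ z w : Fin 4, x ≠ y → z ≠ w → (∀ u, u ≠ x → u ≠ y → u = z ∨ u = w) →
      1 ≤ d j z → 1 ≤ d l w → R i x y := fun z w a b c e1 e2 => by
    obtain ⟨f, fz, fw⟩ : ∃ f : Fin 4 → Fin 3, f z = j ∧ f w = l :=
      ⟨fun u => if u = z then j else l, if_pos rfl, if_neg b.symm⟩
    refine h.rule i x y a f (fun u a1 a2 => ?_) fun u u' a1 a2 a3 a4 e => ?_
    · rcases c u a1 a2 with rfl | rfl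
      exacts [fz.symm ▸ ⟨n.1, e1⟩, fw.symm ▸ ⟨n.2.1, e2⟩]
    · rcases c u a1 a2 with rfl | rfl <;> rcases c u' a3 a4 with rfl | rfl
      exacts [rfl, absurd (fz.symm.trans (e.trans fw)) n.2.2,
        absurd (fz.symm.trans (e.symm.trans fw)) n.2.2, rfl]
  unfold nbR at m
  split at m
  · obtain ⟨a, b, c⟩ := nb_four _ _ _ _ ‹_›
    simp only [Bool.or_eq_true, Bool.and_eq_true, Nat.ble_eq] at m
    exact ⟨a, m.elim (fun e => key _ _ a b c e.1 e.2)
      fun e => key _ _ a b.symm (fun u a1 a2 => (c u a1 a2).symm) e.1 e.2⟩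
  · exact absurd m Bool.false_ne_true

theorem Num.nbG_spec (h : Num d k R U g) (n : j ≠ i ∧ l ≠ i ∧ j ≠ l) (hU : ¬ U i)
    (c4 : ∀ x y z w, x ≠ y → x ≠ z → x ≠ w → y ≠ z → y ≠ w → z ≠ w →
      (∀ a b, a ≠ b → R i a b) → 3 ≤ d i x + d i y → 3 ≤ d i z + d i w → 155 - 46 ≤ g i) :
    (nbG (d i) (d j) (d l) : ℤ) - 46 ≤ g i := by
  have b := h.b46 i hU
  have z0 : ((0 : ℕ) : ℤ) - 46 ≤ g i := by omega
  rw [nbG, Bool.cond_eq_ite]
  split_ifs with c
  · simp only [nbC, nbL, Bool.and_eq_true, Bool.or_eq_true, Nat.ble_eq, List.all_eq_true,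
      beq_iff_eq] at c
    have m : ∀ x : Fin 4, x ∈ ([0, 1, 2, 3] : List (Fin 4)) := by decide
    have r : ∀ x y, x ≠ y → R i x y := fun x y e =>
      (h.nbR_spec n ((c.2 x (m x) y (m y)).resolve_left e)).2
    rcases c.1 with e | e | e
    · exact c4 0 1 2 3 (by decide) (by decide) (by decide) (by decide) (by decide) (by decide) r
        e.1 e.2
    · exact c4 0 2 1 3 (by decide) (by decide) (by decide) (by decide) (by decide) (by decide) r
        e.1 e.2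
    · exact c4 0 3 1 2 (by decide) (by decide) (by decide) (by decide) (by decide) (by decide) r
        e.1 e.2
  refine nbMax_le fun x => ?_
  rw [Bool.cond_eq_ite]
  split_ifs
  · exact z0
  refine nbMax_le fun y => ?_
  rw [Bool.cond_eq_ite]
  split_ifs with c1
  swap
  · exact z0
  obtain ⟨xy, r1⟩ := h.nbR_spec n c1
  refine nbMax_le fun z => ?_
  simp only [Bool.cond_eq_ite, Bool.and_eq_true, Nat.blt_eq]
  split_ifs with c2 c3 c5
  · exact h.c1 i x y hU xy r1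
  · obtain ⟨xz, r2⟩ := h.nbR_spec n c3.2
    obtain ⟨yz, r3⟩ := h.nbR_spec n c5
    have := h.c2 i x y z hU xy xz yz r1 r2
    rwa [h.k0 i y z yz r3] at this
  · obtain ⟨xz, r2⟩ := h.nbR_spec n c3.2
    have := h.c2 i x y z hU xy xz (fun e => by have := c3.1; omega) r1 r2
    have := gT_min (p := d i x) (h.k1 i y z) (h.k2 i y z)
    omega
  · exact z0

theorem Num.nbS_spec (h : Num d k R U g) (u : U i) : nbS (d i) = true := by
  have := (h.small i u).1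
  rwa [Fin.sum_univ_four, ← Nat.ble_eq] at this

theorem Num.nbH_spec (h : Num d k R U g) (n : i ≠ j) : nbH (d i) (d j) ≠ true := by
  have key : ∀ (S : Finset (Fin 3)) (f : Fin 4 → ℕ), S.Nonempty → (∀ i ∈ S, ∀ x, d i x ≤ f x) →
      S.card + 1 ≤ nbN f := fun S f a b => by
    refine (h.hall S a).trans ((card_le_card (t := univ.filter fun x => 1 ≤ f x)
      fun x hx => ?_).trans ?_)
    · simp only [mem_filter, mem_univ, true_and] at hx ⊢
      obtain ⟨i, hi, c⟩ := hx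
      exact c.trans (b i hi x)
    · have e : ∀ x, (if 1 ≤ f x then 1 else 0) ≤ min 1 (f x) := fun x => by
        split_ifs <;> omega
      rw [card_filter, Fin.sum_univ_four]
      exact add_le_add (add_le_add (add_le_add (e 0) (e 1)) (e 2)) (e 3)
  have a1 := key {i} (d i) (singleton_nonempty i) (by simp)
  have a2 := key {i, j} (fun x => d i x + d j x) (insert_nonempty _ _) (by simp)
  rw [card_singleton] at a1
  rw [card_pair n] at a2
  simp only [nbH, Ne, Bool.or_eq_true, Nat.ble_eq]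
  omega

open Classical in
theorem Num.nbK_spec (h : Num d k R U g) {y z : Fin 4} {f : Bool → ℕ → Bool}
    (m : nbK (d i) y z f = true) (h2 : k i y z ≤ 2) : f (decide (U i)) (k i y z) = true := by
  simp only [nbK, List.all_eq_true, Bool.or_eq_true, Bool.and_eq_true, Nat.blt_eq] at m
  have a := h.k1 i y z
  have b := h.k2 i y z
  rcases m (decide (U i)) (by cases decide (U i) <;> simp) with c | c
  · rw [h.nbS_spec (of_decide_eq_true c.1)] at c
    exact absurd c.2 (by decide)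
  · have := c (k i y z) (by simp; omega)
    exact (this.resolve_left (by omega)).resolve_left (by omega)

open Classical in
theorem Num.nbV_spec (h : Num d k R U g) (n : j ≠ i ∧ l ≠ i ∧ j ≠ l)
    (c4 : ∀ x y z w, x ≠ y → x ≠ z → x ≠ w → y ≠ z → y ≠ w → z ≠ w →
      (∀ a b, a ≠ b → R i a b) → 3 ≤ d i x + d i y → 3 ≤ d i z + d i w → 155 - 46 ≤ g i)
    {y z : Fin 4} (yz : y ≠ z) :
    (nbV (d i) (d j) (d l) (decide (U i)) y z (k i y z) : ℤ) - 60 ≤ g i ∧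
      (nbW (d i) (d j) (d l) : ℤ) - 60 ≤ g i := by
  have b := h.b60 i
  by_cases u : U i
  · rw [nbV, nbW, decide_eq_true u, h.nbS_spec u, cond_true, cond_true]
    omega
  have a := h.nbG_spec n u c4
  have c : (nbMax (fun x => bif nbR (d j) (d l) x y && nbR (d j) (d l) x z then
      gT (d i x) (d i y + d i z - k i y z) (k i y z) else 0) : ℤ) - 46 ≤ g i :=
    nbMax_le fun x => by
      simp only [Bool.cond_eq_ite, Bool.and_eq_true]
      split_ifs with e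
      · obtain ⟨xy, r1⟩ := h.nbR_spec n e.1
        obtain ⟨xz, r2⟩ := h.nbR_spec n e.2
        exact h.c2 i x y z u xy xz yz r1 r2
      · have := h.b46 i u
        omega
  rw [nbV, nbW, decide_eq_false u, cond_false, Bool.cond_eq_ite]
  split_ifs <;> omega

theorem numB_sorted {N : ℤ} (h : Num d k R U g) (hs : ∀ x, ∑ i, d i x = 4 ∨ ∑ i, d i x = 3)
    (N0 : 0 ≤ N) (N1 : ∀ x, ∑ i, d i x = 3 → 91 ≤ N)
    (N2 : ∀ x y, x ≠ y → ∑ i, d i x = 3 → ∑ i, d i y = 3 → 108 ≤ N)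
    (c4 : ∀ i x y z w, x ≠ y → x ≠ z → x ≠ w → y ≠ z → y ≠ w → z ≠ w →
      (∀ a b, a ≠ b → R i a b) → 3 ≤ d i x + d i y → 3 ≤ d i z + d i w → 155 - 46 ≤ g i)
    (cl : ∀ y z, y ≠ z → ∑ i, k i y z ≤ 2)
    (lk : ∀ i y z, U i → y ≠ z → ∑ j, d j y = 4 → ∑ j, d j z = 4 → d i y + d i z = 3 →
      ∑ j, k j y z ≤ 1)
    (s1 : ∑ x, d 0 x ≤ ∑ x, d 1 x) (s2 : ∑ x, d 1 x ≤ ∑ x, d 2 x)
    (s3 : Monotone fun x => nbKey (d 0 x) (d 1 x) (d 2 x)) : -46 ≤ ∑ i, g i + N := by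
  simp only [Fin.sum_univ_three, Fin.sum_univ_four] at hs N1 N2 cl lk s1 s2 ⊢
  have t1 : nbKey _ _ _ ≤ nbKey _ _ _ := s3 (show (0 : Fin 4) ≤ 1 by decide)
  have t2 : nbKey _ _ _ ≤ nbKey _ _ _ := s3 (show (1 : Fin 4) ≤ 2 by decide)
  have t3 : nbKey _ _ _ ≤ nbKey _ _ _ := s3 (show (2 : Fin 4) ≤ 3 by decide)
  have c0 := nbAll_spec nb_check (hs 0)
  have c1 := nbAll_spec c0 (hs 1)
  simp only [Bool.or_eq_true, Nat.blt_eq] at c1
  have c2 := nbAll_spec (c1.resolve_left (by omega)) (hs 2)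
  simp only [Bool.or_eq_true, Nat.blt_eq] at c2
  have c3 := nbAll_spec (c2.resolve_left (by omega)) (hs 3)
  have r : ∀ f : Fin 4 → ℕ, nbRow (f 0) (f 1) (f 2) (f 3) = f := fun f => funext fun x =>
    match x with
    | 0 => rfl
    | 1 => rfl
    | 2 => rfl
    | 3 => rfl
  simp only [Bool.or_eq_true, Nat.blt_eq, r] at c3
  have c := ((c3.resolve_left (by omega)).resolve_left (by omega)).resolve_left (by omega)
  obtain ⟨n, hn, e⟩ : ∃ n : ℕ, (n : ℤ) ≤ N ∧ nbT (d 0) (d 1) (d 2) n = true := by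
    refine ⟨_, le_of_eq_of_le (congrArg (fun s => (nbZ s : ℤ)) ?_)
      (nbZ_le (s := fun x => d 0 x + d 1 x + d 2 x) hs N0 N1 N2), c⟩
    omega
  have v0 := fun {y z : Fin 4} (yz : y ≠ z) =>
    h.nbV_spec (i := 0) (j := 1) (l := 2) (by decide) (c4 0) yz
  have v1 := fun {y z : Fin 4} (yz : y ≠ z) =>
    h.nbV_spec (i := 1) (j := 2) (l := 0) (by decide) (c4 1) yz
  have v2 := fun {y z : Fin 4} (yz : y ≠ z) =>
    h.nbV_spec (i := 2) (j := 0) (l := 1) (by decide) (c4 2) yz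
  simp only [nbT, Bool.or_eq_true, Nat.ble_eq] at e
  rcases e with e | e | e | e | e
  · exact absurd e (h.nbH_spec (by decide))
  · exact absurd e (h.nbH_spec (by decide))
  · exact absurd e (h.nbH_spec (by decide))
  · have := (v0 (show 0 ≠ 1 by decide)).2
    have := (v1 (show 0 ≠ 1 by decide)).2
    have := (v2 (show 0 ≠ 1 by decide)).2
    omega
  simp only [nbJ, List.any_eq_true, Bool.and_eq_true, bne_iff_ne] at e
  obtain ⟨y, -, z, -, yz, e⟩ := e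
  have := cl y z yz
  have e1 := h.nbK_spec (h.nbK_spec (h.nbK_spec e (by omega)) (by omega)) (by omega)
  have := (v0 yz).1
  have := (v1 yz).1
  have := (v2 yz).1
  simp only [Bool.or_eq_true, Bool.and_eq_true, Nat.ble_eq, Nat.beq_eq, decide_eq_true_eq] at e1
  rcases e1 with e1 | ⟨a1, a2, a3, a4⟩ | e1
  · omega
  · rcases a4 with a | a | a <;> have := lk _ y z a.1 yz a2 a3 a.2 <;> omega
  · omega

end

theorem numB {d : Fin 3 → Fin 4 → ℕ} {k : Fin 3 → Fin 4 → Fin 4 → ℕ}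
    {R : Fin 3 → Fin 4 → Fin 4 → Prop} {U : Fin 3 → Prop} {g : Fin 3 → ℤ} {N : ℤ}
    (h : Num d k R U g) (hs : ∀ x, ∑ i, d i x = 4 ∨ ∑ i, d i x = 3) (N0 : 0 ≤ N)
    (N1 : ∀ x, ∑ i, d i x = 3 → 91 ≤ N)
    (N2 : ∀ x y, x ≠ y → ∑ i, d i x = 3 → ∑ i, d i y = 3 → 108 ≤ N)
    (c4 : ∀ i x y z w, x ≠ y → x ≠ z → x ≠ w → y ≠ z → y ≠ w → z ≠ w →
      (∀ a b, a ≠ b → R i a b) → 3 ≤ d i x + d i y → 3 ≤ d i z + d i w → 155 - 46 ≤ g i)
    (cl : ∀ y z, y ≠ z → ∑ i, k i y z ≤ 2)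
    (lk : ∀ i y z, U i → y ≠ z → ∑ j, d j y = 4 → ∑ j, d j z = 4 → d i y + d i z = 3 →
      ∑ j, k j y z ≤ 1) :
    -46 ≤ ∑ i, g i + N := by
  obtain ⟨σ, m⟩ : ∃ σ : Equiv.Perm (Fin 3), Monotone ((fun i => ∑ x, d i x) ∘ σ) :=
    ⟨_, Tuple.monotone_sort _⟩
  obtain ⟨τ, n⟩ : ∃ τ : Equiv.Perm (Fin 4),
      Monotone ((fun x => nbKey (d (σ 0) x) (d (σ 1) x) (d (σ 2) x)) ∘ τ) :=
    ⟨_, Tuple.monotone_sort _⟩
  have e : ∀ x, ∑ i, d (σ i) x = ∑ i, d i x := fun x => Equiv.sum_comp σ fun i => d i x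
  have e' : ∀ y z, ∑ i, k (σ i) y z = ∑ i, k i y z := fun y z => Equiv.sum_comp σ fun i => k i y z
  have e'' : ∀ i, ∑ x, d i (τ x) = ∑ x, d i x := fun i => Equiv.sum_comp τ (d i)
  have t := fun {x y : Fin 4} (a : x ≠ y) => τ.injective.ne a
  rw [← Equiv.sum_comp σ g]
  refine numB_sorted (h.permC σ τ) (fun x => by simpa only [e] using hs (τ x)) N0
    (fun x a => N1 _ ((e _).symm.trans a))
    (fun x y a b c => N2 _ _ (t a) ((e _).symm.trans b) ((e _).symm.trans c))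
    (fun i x y z w a1 a2 a3 a4 a5 a6 r => c4 _ _ _ _ _ (t a1) (t a2) (t a3) (t a4) (t a5) (t a6)
      fun a b c => by simpa using r (τ.symm a) (τ.symm b) (τ.symm.injective.ne c))
    (fun y z a => (e' _ _).trans_le (cl _ _ (t a)))
    (fun i y z u a b c f => (e' _ _).trans_le
      (lk _ _ _ u (t a) ((e _).symm.trans b) ((e _).symm.trans c) f))
    ?_ ?_ n
  · simpa only [e'', Function.comp] using m (show (0 : Fin 3) ≤ 1 by decide)
  · simpa only [e'', Function.comp] using m (show (1 : Fin 3) ≤ 2 by decide)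

end Pool.Agent.Work.MP_d266e7_co.Mix
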