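import Mathlib.Data.Fin.Tuple.Sort

/-!
The finite check for four pieces and five hosts.
-/

namespace Pool.Agent.Work.MP_d266e7_co.Mix

/-- a matching in a table with three rows and three columns -/
def ncR (a1 a2 a3 b1 b2 b3 c1 c2 c3 : ℕ) : Bool :=
  (Nat.ble 1 a1 && ((Nat.ble 1 b2 && Nat.ble 1 c3) || (Nat.ble 1 b3 && Nat.ble 1 c2))) ||
    ((Nat.ble 1 a2 && ((Nat.ble 1 b1 && Nat.ble 1 c3) || (Nat.ble 1 b3 && Nat.ble 1 c1))) ||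
      (Nat.ble 1 a3 && ((Nat.ble 1 b1 && Nat.ble 1 c2) || (Nat.ble 1 b2 && Nat.ble 1 c1))))

/-- two crossing hosts with two blocks each -/
def ncP (p0 p1 p2 p3 p4 a0 a1 a2 a3 a4 b0 b1 b2 b3 b4 c0 c1 c2 c3 c4 : ℕ) : Bool :=
  ((Nat.ble 2 p4 &&
      ((Nat.ble 2 p3 && ncR a0 a1 a2 b0 b1 b2 c0 c1 c2) ||
      ((Nat.ble 2 p2 && ncR a0 a1 a3 b0 b1 b3 c0 c1 c3) ||
      ((Nat.ble 2 p1 && ncR a0 a2 a3 b0 b2 b3 c0 c2 c3) ||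
      (Nat.ble 2 p0 && ncR a1 a2 a3 b1 b2 b3 c1 c2 c3))))) ||
    ((Nat.ble 2 p3 &&
      ((Nat.ble 2 p2 && ncR a0 a1 a4 b0 b1 b4 c0 c1 c4) ||
      ((Nat.ble 2 p1 && ncR a0 a2 a4 b0 b2 b4 c0 c2 c4) ||
      (Nat.ble 2 p0 && ncR a1 a2 a4 b1 b2 b4 c1 c2 c4)))) ||
    ((Nat.ble 2 p2 &&
      ((Nat.ble 2 p1 && ncR a0 a3 a4 b0 b3 b4 c0 c3 c4) ||
      (Nat.ble 2 p0 && ncR a1 a3 a4 b1 b3 b4 c1 c3 c4))) ||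
    (Nat.ble 2 p1 &&
      (Nat.ble 2 p0 && ncR a2 a3 a4 b2 b3 b4 c2 c3 c4)))))

/-- the number of positive entries -/
def ncN (a0 a1 a2 a3 a4 : ℕ) : ℕ := min 1 a0 + min 1 a1 + min 1 a2 + min 1 a3 + min 1 a4

/-- a row as a function -/
def ncS (a0 a1 a2 a3 a4 : ℕ) (x : Fin 5) : ℕ :=
  bif Nat.ble x.1 0 then a0 else bif Nat.ble x.1 1 then a1 else bif Nat.ble x.1 2 then a2
  else bif Nat.ble x.1 3 then a3 else a4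

def ncA (f : Fin 5 → Bool) : Bool :=
  f ⟨0, by decide⟩ || (f ⟨1, by decide⟩ || (f ⟨2, by decide⟩ ||
    (f ⟨3, by decide⟩ || f ⟨4, by decide⟩)))

def ncD (x y : Fin 5) : Bool := !(Nat.beq x.1 y.1)

def ncF (a b c : Fin 5 → ℕ) (z w v : Fin 5) : Bool :=
  ncR (a z) (a w) (a v) (b z) (b w) (b v) (c z) (c w) (c v)

/-- one host crossing two hosts -/
def ncT (p a b c : Fin 5 → ℕ) (o : Bool) : Bool :=
  ncA fun x => Nat.ble 2 (p x) && ncA fun y => ncD x y && (Nat.ble 1 (p y) &&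
    ncA fun z => ncD x z && (ncD y z && (Nat.ble 1 (p z) &&
      ncA fun w => ncD x w && (ncD y w && (ncD z w &&
        ncA fun v => ncD x v && (ncD y v && (ncD z v && (ncD w v &&
          (ncF a b c z w v && (ncF a b c y w v &&
            (ncF a b c x w v || (Nat.ble 4 (p x) && o))))))))))))

/-- the row is not small -/
def ncB (a0 a1 a2 a3 a4 : ℕ) : Bool :=
  Nat.ble 4 (a0 + a1 + a2 + a3 + a4) || (Nat.ble 3 a0 || (Nat.ble 3 a1 || (Nat.ble 3 a2 ||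
    (Nat.ble 3 a3 || Nat.ble 3 a4))))

def ncH (a b : Fin 5 → ℕ) : Bool :=
  Nat.ble (ncN (a 0 + b 0) (a 1 + b 1) (a 2 + b 2) (a 3 + b 3) (a 4 + b 4)) 2

def ncG (a b c e : Fin 5 → ℕ) (ob oc oe : Bool) : Bool :=
  ncT b a c e (oc || oe) || (ncT c a b e (ob || oe) || (ncT e a b c (ob || oc) ||
    (ncH a b || (ncH a c || (ncH a e || (ncH b c || (ncH b e || ncH c e)))))))

/-- the test for one table -/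
def ncL (a0 a1 a2 a3 a4 b0 b1 b2 b3 b4 c0 c1 c2 c3 c4 e0 e1 e2 e3 e4 : ℕ) : Bool :=
  ncP b0 b1 b2 b3 b4 a0 a1 a2 a3 a4 c0 c1 c2 c3 c4 e0 e1 e2 e3 e4 ||
    (ncP c0 c1 c2 c3 c4 a0 a1 a2 a3 a4 b0 b1 b2 b3 b4 e0 e1 e2 e3 e4 ||
    (ncP e0 e1 e2 e3 e4 a0 a1 a2 a3 a4 b0 b1 b2 b3 b4 c0 c1 c2 c3 c4 ||
    (Nat.ble (ncN b0 b1 b2 b3 b4) 1 || (Nat.ble (ncN c0 c1 c2 c3 c4) 1 ||
    (Nat.ble (ncN e0 e1 e2 e3 e4) 1 ||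
    ncG (ncS a0 a1 a2 a3 a4) (ncS b0 b1 b2 b3 b4) (ncS c0 c1 c2 c3 c4) (ncS e0 e1 e2 e3 e4)
      (ncB b0 b1 b2 b3 b4) (ncB c0 c1 c2 c3 c4) (ncB e0 e1 e2 e3 e4))))))

/-- all members of a list, each with the rest of the list -/
noncomputable def ncX (f : ℕ → ℕ → ℕ → ℕ → List (ℕ × ℕ × ℕ × ℕ) → Bool)
    (l : List (ℕ × ℕ × ℕ × ℕ)) : Bool :=
  List.rec true (fun u t ih =>
    (match u with | (a, b, c, e) => f a b c e (u :: t)) && ih) l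

def ncL4 : List (ℕ × ℕ × ℕ × ℕ) :=
  [(2, 2, 0, 0), (2, 1, 1, 0), (2, 1, 0, 1), (2, 0, 2, 0), (2, 0, 1, 1), (2, 0, 0, 2),
    (1, 3, 0, 0), (1, 2, 1, 0), (1, 2, 0, 1), (1, 1, 2, 0), (1, 1, 1, 1), (1, 1, 0, 2),
    (1, 0, 3, 0), (1, 0, 2, 1), (1, 0, 1, 2), (1, 0, 0, 3), (0, 4, 0, 0), (0, 3, 1, 0),
    (0, 3, 0, 1), (0, 2, 2, 0), (0, 2, 1, 1), (0, 2, 0, 2), (0, 1, 3, 0), (0, 1, 2, 1),
    (0, 1, 1, 2), (0, 1, 0, 3), (0, 0, 4, 0), (0, 0, 3, 1), (0, 0, 2, 2), (0, 0, 1, 3),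
    (0, 0, 0, 4)]

def ncL5 : List (ℕ × ℕ × ℕ × ℕ) :=
  [(2, 3, 0, 0), (2, 2, 1, 0), (2, 1, 1, 1), (1, 4, 0, 0), (1, 3, 1, 0), (1, 2, 2, 0),
    (1, 2, 1, 1), (0, 5, 0, 0), (0, 4, 1, 0), (0, 3, 2, 0), (0, 3, 1, 1), (0, 2, 2, 1)]

noncomputable def ncC (a4 b4 c4 e4 : ℕ) : Bool :=
  ncX (fun a3 b3 c3 e3 l3 => Nat.ble 4 (a4 + a3) ||
    ncX (fun a2 b2 c2 e2 l2 => Nat.ble 4 (a4 + a3 + a2) ||
      ((Nat.ble a2 0 && (Nat.ble a3 0 || Nat.ble a4 0)) ||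
      ncX (fun a1 b1 c1 e1 l1 => Nat.ble 4 (a4 + a3 + a2 + a1) ||
        ncX (fun a0 b0 c0 e0 _ => Nat.ble 4 (a4 + a3 + a2 + a1 + a0) ||
          ncL a0 a1 a2 a3 a4 b0 b1 b2 b3 b4 c0 c1 c2 c3 c4 e0 e1 e2 e3 e4) l1) l2)) l3) ncL4

theorem ncC_all : ncX (fun a b c e _ => ncC a b c e) ncL5 = true := by
  decide +kernel

end Pool.Agent.Work.MP_d266e7_co.Mix
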