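import Pool.Agent.Work.MP_d266e7_co.Full.QD
import Pool.Agent.Work.MP_d266e7_co.Full.QNumC0
import Mathlib.Algebra.BigOperators.Fin

/-!
Numerical check for four pieces and five hosts.
-/

namespace Pool.Agent.Work.MP_d266e7_co.Mix

open Finset

theorem Num.permC {ι κ : Type} [Fintype κ] [DecidableEq κ] {d : ι → κ → ℕ} {k : ι → κ → κ → ℕ}
    {R : ι → κ → κ → Prop} {U : ι → Prop} {g : ι → ℤ} (h : Num d k R U g) (σ : ι ≃ ι)
    (τ : κ ≃ κ) :
    Num (fun i x => d (σ i) (τ x)) (fun i y z => k (σ i) (τ y) (τ z))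
      (fun i x y => R (σ i) (τ x) (τ y)) (fun i => U (σ i)) fun i => g (σ i) where
  hall S hS := by
    have a := h.hall (S.map σ.toEmbedding) (by simpa using hS)
    rw [card_map] at a
    refine a.trans (card_le_card_of_injOn τ.symm (fun x hx => ?_) τ.symm.injective.injOn)
    obtain ⟨i, hi, b⟩ := (mem_filter.1 (mem_coe.1 hx)).2
    obtain ⟨j, hj, rfl⟩ := mem_map.1 hi
    exact mem_coe.2 (mem_filter.2 ⟨mem_univ _, j, hj, by simpa using b⟩)
  rule i x y xy f h1 h2 := by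
    have n : ∀ z u, z ≠ τ u → τ.symm z ≠ u := fun z u a b => a (by rw [← b]; simp)
    refine h.rule _ _ _ (τ.injective.ne xy) (fun z => σ (f (τ.symm z))) (fun z a b => ?_)
      fun z w a b c e m => ?_
    · have := h1 _ (n z x a) (n z y b)
      exact ⟨σ.injective.ne this.1, by simpa using this.2⟩
    · exact τ.symm.injective (h2 _ _ (n z x a) (n z y b) (n w x c) (n w y e) (σ.injective m))
  small i hi := ⟨(Equiv.sum_comp τ (d (σ i))).trans_le (h.small _ hi).1, fun x => (h.small _ hi).2 _⟩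
  b60 i := h.b60 _
  b46 i := h.b46 _
  k1 i y z := h.k1 _ _ _
  k2 i y z := h.k2 _ _ _
  k0 i y z a := h.k0 _ _ _ (τ.injective.ne a)
  c1 i x y a b := h.c1 _ _ _ a (τ.injective.ne b)
  c2 i x y z a b c e := h.c2 _ _ _ _ a (τ.injective.ne b) (τ.injective.ne c) (τ.injective.ne e)

theorem nc_gT47 {p q c : ℕ} (a : 2 ≤ p) (b : 2 ≤ q) : 47 ≤ gT p q c := by
  unfold gT
  split_ifs <;> omega

theorem nc_gT30 {p q c : ℕ} (a : 4 ≤ p) (b : 2 ≤ q ∨ 1 ≤ c) : 30 ≤ gT p q c := by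
  unfold gT
  split_ifs <;> omega

/-- five different hosts -/
def NcD (x y z w v : Fin 5) : Prop :=
  x ≠ y ∧ x ≠ z ∧ x ≠ w ∧ x ≠ v ∧ y ≠ z ∧ y ≠ w ∧ y ≠ v ∧ z ≠ w ∧ z ≠ v ∧ w ≠ v

instance (x y z w v : Fin 5) : Decidable (NcD x y z w v) := by
  unfold NcD
  infer_instance

/-- four different pieces -/
def NcE (p q r s : Fin 4) : Prop := p ≠ q ∧ p ≠ r ∧ p ≠ s ∧ q ≠ r ∧ q ≠ s ∧ r ≠ s

instance (p q r s : Fin 4) : Decidable (NcE p q r s) := by
  unfold NcE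
  infer_instance

theorem ncD_all : ∀ x y z w v : Fin 5, NcD x y z w v → ∀ u, u ≠ x → u ≠ y →
    u = z ∨ u = w ∨ u = v := by
  decide +kernel

theorem ncA_spec {f : Fin 5 → Bool} (h : ncA f = true) : ∃ x, f x = true := by
  simp only [ncA, Bool.or_eq_true] at h
  rcases h with h | h | h | h | h <;> exact ⟨_, h⟩

theorem ncD_spec {x y : Fin 5} (h : ncD x y = true) : x ≠ y := by
  rintro rfl
  simp [ncD] at h

theorem ncS_eq (f : Fin 5 → ℕ) : ncS (f 0) (f 1) (f 2) (f 3) (f 4) = f := by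
  funext x
  have : ∀ x : Fin 5, x = 0 ∨ x = 1 ∨ x = 2 ∨ x = 3 ∨ x = 4 := by decide
  rcases this x with rfl | rfl | rfl | rfl | rfl <;> rfl

theorem ncN_card (f : Fin 5 → ℕ) (P : Fin 5 → Prop) {_ : DecidablePred P} (h : ∀ x, P x → 1 ≤ f x) :
    (univ.filter P).card ≤ ncN (f 0) (f 1) (f 2) (f 3) (f 4) := by
  have k : ∀ x, (if P x then 1 else 0) ≤ min 1 (f x) := fun x => by
    split_ifs with k
    · exact le_min le_rfl (h x k)
    · exact Nat.zero_le _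
  rw [Finset.card_filter, Fin.sum_univ_five]
  exact add_le_add (add_le_add (add_le_add (add_le_add (k 0) (k 1)) (k 2)) (k 3)) (k 4)

/-- the order of the columns -/
def ncK (u : ℕ × ℕ × ℕ × ℕ) : ℕ := 36 * u.1 + 6 * u.2.1 + u.2.2.1

theorem ncX_spec {f : ℕ → ℕ → ℕ → ℕ → List (ℕ × ℕ × ℕ × ℕ) → Bool} {l : List (ℕ × ℕ × ℕ × ℕ)}
    (h : ncX f l = true) (hp : l.Pairwise fun u v => ncK v < ncK u) {a b c e : ℕ}
    (hc : (a, b, c, e) ∈ l) : ∃ t, f a b c e t = true ∧ (t.Pairwise fun u v => ncK v < ncK u) ∧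
      ∀ u ∈ l, ncK u ≤ ncK (a, b, c, e) → u ∈ t := by
  induction l with
  | nil => simp at hc
  | cons u t ih =>
    obtain ⟨a', b', c', e'⟩ := u
    have h' : (f a' b' c' e' ((a', b', c', e') :: t) && ncX f t) = true := h
    rw [Bool.and_eq_true] at h'
    rcases List.mem_cons.1 hc with m | m
    · cases m
      exact ⟨_, h'.1, hp, fun u hu _ => hu⟩
    · obtain ⟨s, s1, s2, s3⟩ := ih h'.2 hp.of_cons m
      refine ⟨s, s1, s2, fun u hu hk => ?_⟩
      rcases List.mem_cons.1 hu with rfl | hu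
      · exact absurd (List.rel_of_pairwise_cons hp m) (not_lt.2 hk)
      · exact s3 u hu hk

theorem ncL4_mem : ∀ a < 3, ∀ b < 5, ∀ c < 5, a + b + c ≤ 4 → (a, b, c, 4 - a - b - c) ∈ ncL4 := by
  have : ∀ (a : Fin 3) (b c : Fin 5), a.1 + b.1 + c.1 ≤ 4 →
      (a.1, b.1, c.1, 4 - a.1 - b.1 - c.1) ∈ ncL4 := by decide +kernel
  exact fun a h1 b h2 c h3 => this ⟨a, h1⟩ ⟨b, h2⟩ ⟨c, h3⟩

theorem ncL5_mem : ∀ a < 3, ∀ b < 6, ∀ c < 6, a + b + c ≤ 5 → c ≤ b → 5 - a - b - c ≤ c →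
    (a, b, c, 5 - a - b - c) ∈ ncL5 := by
  have : ∀ (a : Fin 3) (b c : Fin 6), a.1 + b.1 + c.1 ≤ 5 → c.1 ≤ b.1 → 5 - a.1 - b.1 - c.1 ≤ c.1 →
      (a.1, b.1, c.1, 5 - a.1 - b.1 - c.1) ∈ ncL5 := by decide +kernel
  exact fun a h1 b h2 c h3 => this ⟨a, h1⟩ ⟨b, h2⟩ ⟨c, h3⟩

theorem ncL4_pw : ncL4.Pairwise fun u v => ncK v < ncK u := by decide +kernel

theorem ncL5_pw : ncL5.Pairwise fun u v => ncK v < ncK u := by decide +kernel

variable {d : Fin 4 → Fin 5 → ℕ} {k : Fin 4 → Fin 5 → Fin 5 → ℕ}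
  {R : Fin 4 → Fin 5 → Fin 5 → Prop} {U : Fin 4 → Prop} {g : Fin 4 → ℤ}

theorem nc_r1 (h : Num d k R U g) {p q r s : Fin 4} (hE : NcE p q r s) {x y z w v : Fin 5}
    (hD : NcD x y z w v) (a : 1 ≤ d q z) (b : 1 ≤ d r w) (c : 1 ≤ d s v) : R p x y := by
  obtain ⟨e1, e2, e3, e4, e5, e6⟩ := hE
  have m := ncD_all x y z w v hD
  obtain ⟨d1, -, -, -, -, -, -, d8, d9, d10⟩ := hD
  refine h.rule p x y d1 (fun u => if u = z then q else if u = w then r else s) (fun u n1 n2 => ?_)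
    fun u u' n1 n2 n3 n4 => ?_
  · rcases m u n1 n2 with rfl | rfl | rfl
    · simpa using ⟨e1.symm, a⟩
    · simpa [d8.symm] using ⟨e2.symm, b⟩
    · simpa [d9.symm, d10.symm] using ⟨e3.symm, c⟩
  · rcases m u n1 n2 with rfl | rfl | rfl <;> rcases m u' n3 n4 with rfl | rfl | rfl <;>
      simp [d8.symm, d9.symm, d10.symm, e4, e5, e6, e4.symm, e5.symm, e6.symm]

theorem nc_r (h : Num d k R U g) {p q r s : Fin 4} (hE : NcE p q r s) {x y z w v : Fin 5}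
    (hD : NcD x y z w v) (c : ncF (d q) (d r) (d s) z w v = true) : R p x y := by
  simp only [ncF, ncR, Bool.or_eq_true, Bool.and_eq_true, Nat.ble_eq] at c
  obtain ⟨e1, e2, e3, e4, e5, e6⟩ := hE
  rcases c with ⟨a, ⟨b, c⟩ | ⟨b, c⟩⟩ | ⟨a, ⟨b, c⟩ | ⟨b, c⟩⟩ | ⟨a, ⟨b, c⟩ | ⟨b, c⟩⟩
  · exact nc_r1 h ⟨e1, e2, e3, e4, e5, e6⟩ hD a b c
  · exact nc_r1 h ⟨e1, e3, e2, e5, e4, e6.symm⟩ hD a c b
  · exact nc_r1 h ⟨e2, e1, e3, e4.symm, e6, e5⟩ hD b a c
  · exact nc_r1 h ⟨e3, e1, e2, e5.symm, e6.symm, e4⟩ hD c a b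
  · exact nc_r1 h ⟨e2, e3, e1, e6, e4.symm, e5.symm⟩ hD b c a
  · exact nc_r1 h ⟨e3, e2, e1, e6.symm, e5.symm, e4.symm⟩ hD c b a

theorem nc_sum (h : Num d k R U g) {p : Fin 4} (hU : U p) {x y z : Fin 5} (a : x ≠ y) (b : x ≠ z)
    (c : y ≠ z) : d p x + d p y + d p z ≤ 3 := by
  have := (sum_le_sum_of_subset (f := d p) (subset_univ {x, y, z})).trans (h.small p hU).1
  rw [sum_insert (by simp [a, b]), sum_pair c] at this
  omega

theorem nc_pair (h : Num d k R U g) {p q r s : Fin 4} (hE : NcE p q r s) {x y z w v : Fin 5}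
    (hD : NcD x y z w v) (a : 2 ≤ d p x) (b : 2 ≤ d p y)
    (c : ncF (d q) (d r) (d s) z w v = true) : 1 ≤ g p := by
  have n : ¬ U p := fun u => by
    have := nc_sum h u hD.1 hD.2.1 hD.2.2.2.2.1
    omega
  have := h.c1 p x y n hD.1 (nc_r h hE hD c)
  have := nc_gT47 (c := 0) a b
  omega

theorem nc_p (h : Num d k R U g) {p q r s : Fin 4} (hE : NcE p q r s)
    (c : ncP (d p 0) (d p 1) (d p 2) (d p 3) (d p 4) (d q 0) (d q 1) (d q 2) (d q 3) (d q 4)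
      (d r 0) (d r 1) (d r 2) (d r 3) (d r 4) (d s 0) (d s 1) (d s 2) (d s 3) (d s 4) = true) :
    1 ≤ g p := by
  simp only [ncP, Bool.or_eq_true, Bool.and_eq_true, Nat.ble_eq] at c
  rcases c with ⟨a, ⟨b, c⟩ | ⟨b, c⟩ | ⟨b, c⟩ | ⟨b, c⟩⟩ | ⟨a, ⟨b, c⟩ | ⟨b, c⟩ | ⟨b, c⟩⟩ |
    ⟨a, ⟨b, c⟩ | ⟨b, c⟩⟩ | ⟨a, b, c⟩ <;>
  exact nc_pair h hE (by decide) a b c

theorem nc_t (h : Num d k R U g) {p q r s : Fin 4} (hE : NcE p q r s) {o : Bool}
    (c : ncT (d p) (d q) (d r) (d s) o = true) : 1 ≤ g p ∨ (o = true ∧ -16 ≤ g p) := by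
  obtain ⟨x, c⟩ := ncA_spec c
  rw [Bool.and_eq_true, Nat.ble_eq] at c
  obtain ⟨a1, c⟩ := c
  obtain ⟨y, c⟩ := ncA_spec c
  simp only [Bool.and_eq_true, Nat.ble_eq] at c
  obtain ⟨xy, a2, c⟩ := c
  obtain ⟨z, c⟩ := ncA_spec c
  simp only [Bool.and_eq_true, Nat.ble_eq] at c
  obtain ⟨xz, yz, a3, c⟩ := c
  obtain ⟨w, c⟩ := ncA_spec c
  simp only [Bool.and_eq_true] at c
  obtain ⟨xw, yw, zw, c⟩ := c
  obtain ⟨v, c⟩ := ncA_spec c
  simp only [Bool.and_eq_true, Bool.or_eq_true, Nat.ble_eq] at c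
  obtain ⟨xv, yv, zv, wv, r1, r2, c⟩ := c
  have xy := ncD_spec xy
  have xz := ncD_spec xz
  have yz := ncD_spec yz
  have xw := ncD_spec xw
  have yw := ncD_spec yw
  have zw := ncD_spec zw
  have xv := ncD_spec xv
  have yv := ncD_spec yv
  have zv := ncD_spec zv
  have wv := ncD_spec wv
  have n : ¬ U p := fun u => by
    have := nc_sum h u xy xz yz
    omega
  have m := h.c2 p x y z n xy xz yz (nc_r h hE ⟨xy, xz, xw, xv, yz, yw, yv, zw, zv, wv⟩ r1)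
    (nc_r h hE ⟨xz, xy, xw, xv, yz.symm, zw, zv, yw, yv, wv⟩ r2)
  rcases c with c | ⟨c, c'⟩
  · have k0 := h.k0 p y z yz (nc_r h hE ⟨yz, xy.symm, yw, yv, xz.symm, zw, zv, xw, xv, wv⟩ c)
    have := nc_gT47 (q := d p y + d p z - k p y z) (c := k p y z) a1 (by omega)
    exact Or.inl (by omega)
  · have := nc_gT30 (q := d p y + d p z - k p y z) (c := k p y z) c (by omega)
    exact Or.inr ⟨c', by omega⟩

theorem nc_b (h : Num d k R U g) {p : Fin 4}
    (c : ncB (d p 0) (d p 1) (d p 2) (d p 3) (d p 4) = true) : -46 ≤ g p := by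
  refine h.b46 p fun u => ?_
  obtain ⟨a, b⟩ := h.small p u
  rw [Fin.sum_univ_five] at a
  simp only [ncB, Bool.or_eq_true, Nat.ble_eq] at c
  have := b 0
  have := b 1
  have := b 2
  have := b 3
  have := b 4
  omega

theorem nc_n (h : Num d k R U g) (p : Fin 4) : 2 ≤ ncN (d p 0) (d p 1) (d p 2) (d p 3) (d p 4) :=
  (h.hall {p} (singleton_nonempty p)).trans (ncN_card (d p) _ fun x a => by simpa using a)

theorem nc_h (h : Num d k R U g) {p q : Fin 4} (pq : p ≠ q) : ncH (d p) (d q) = false := by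
  have a := (h.hall {p, q} (insert_nonempty _ _)).trans
    (ncN_card (fun x => d p x + d q x) _ fun x a => by
      simp only [mem_insert, mem_singleton, exists_eq_or_imp, exists_eq_left] at a
      omega)
  rw [card_pair pq] at a
  rw [ncH, ← Bool.not_eq_true, Nat.ble_eq]
  omega

theorem nc_l (h : Num d k R U g)
    (c : ncL (d 0 0) (d 0 1) (d 0 2) (d 0 3) (d 0 4) (d 1 0) (d 1 1) (d 1 2) (d 1 3) (d 1 4)
      (d 2 0) (d 2 1) (d 2 2) (d 2 3) (d 2 4) (d 3 0) (d 3 1) (d 3 2) (d 3 3) (d 3 4) = true) :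
    -184 ≤ ∑ i, g i := by
  rw [Fin.sum_univ_four]
  have b0 := h.b60 0
  have b1 := h.b60 1
  have b2 := h.b60 2
  have b3 := h.b60 3
  have n1 := nc_n h 1
  have n2 := nc_n h 2
  have n3 := nc_n h 3
  simp only [ncL, ncG, ncS_eq, nc_h h (show (0 : Fin 4) ≠ 1 by decide),
    nc_h h (show (0 : Fin 4) ≠ 2 by decide), nc_h h (show (0 : Fin 4) ≠ 3 by decide),
    nc_h h (show (1 : Fin 4) ≠ 2 by decide), nc_h h (show (1 : Fin 4) ≠ 3 by decide),
    nc_h h (show (2 : Fin 4) ≠ 3 by decide), Bool.or_false] at c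
  simp only [Bool.or_eq_true, Nat.ble_eq] at c
  rcases c with c | c | c | c | c | c | c | c | c
  · have := nc_p h (by decide) c
    omega
  · have := nc_p h (by decide) c
    omega
  · have := nc_p h (by decide) c
    omega
  · omega
  · omega
  · omega
  all_goals
    rcases nc_t h (by decide) c with c | ⟨c, c'⟩
    · omega
    · rcases Bool.or_eq_true_iff.1 c with c | c <;> have := nc_b h c <;> omega

theorem numC_sorted (h : Num d k R U g) (hs : ∀ x, x ≠ 4 → ∑ i, d i x = 4)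
    (hs4 : ∑ i, d i 4 = 5) (u : U 0) (p1 : d 2 4 ≤ d 1 4) (p2 : d 3 4 ≤ d 2 4)
    (o : ∀ x y : Fin 5, x ≤ y → y ≠ 4 → ncK (d 0 x, d 1 x, d 2 x, d 3 x) ≤
      ncK (d 0 y, d 1 y, d 2 y, d 3 y)) : -184 ≤ ∑ i, g i := by
  obtain ⟨s1, s2⟩ := h.small 0 u
  rw [Fin.sum_univ_five] at s1
  rw [Fin.sum_univ_four] at hs4
  have m : ∀ x, x ≠ 4 → (d 0 x, d 1 x, d 2 x, d 3 x) ∈ ncL4 := fun x hx => by
    have a := hs x hx
    have := s2 x
    rw [Fin.sum_univ_four] at a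
    rw [show d 3 x = 4 - d 0 x - d 1 x - d 2 x by omega]
    exact ncL4_mem _ (by omega) _ (by omega) _ (by omega) (by omega)
  have m4 : (d 0 4, d 1 4, d 2 4, d 3 4) ∈ ncL5 := by
    have := s2 4
    rw [show d 3 4 = 5 - d 0 4 - d 1 4 - d 2 4 by omega]
    exact ncL5_mem _ (by omega) _ (by omega) _ (by omega) (by omega) p1 (by omega)
  have o01 := o 0 1 (by decide) (by decide)
  have o12 := o 1 2 (by decide) (by decide)
  have o23 := o 2 3 (by decide) (by decide)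
  obtain ⟨-, c, -, -⟩ := ncX_spec ncC_all ncL5_pw m4
  obtain ⟨l3, c, w3, i3⟩ := ncX_spec c ncL4_pw (m 3 (by decide))
  rw [Bool.or_eq_true, Nat.ble_eq] at c
  obtain ⟨l2, c, w2, i2⟩ := ncX_spec (c.resolve_left (by omega)) w3 (i3 _ (m 2 (by decide)) o23)
  rw [Bool.or_eq_true, Bool.or_eq_true, Nat.ble_eq] at c
  have z : ¬ (Nat.ble (d 0 2) 0 && (Nat.ble (d 0 3) 0 || Nat.ble (d 0 4) 0)) = true := by
    simp only [Bool.or_eq_true, Bool.and_eq_true, Nat.ble_eq]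
    have n := nc_n h 0
    have a0 := hs 0 (by decide)
    have a1 := hs 1 (by decide)
    have a2 := hs 2 (by decide)
    rw [Fin.sum_univ_four] at a0 a1 a2
    simp only [ncK] at o01 o12
    unfold ncN at n
    omega
  obtain ⟨l1, c, w1, i1⟩ := ncX_spec ((c.resolve_left (by omega)).resolve_left z) w2
    (i2 _ (i3 _ (m 1 (by decide)) (o12.trans o23)) o12)
  rw [Bool.or_eq_true, Nat.ble_eq] at c
  obtain ⟨-, c, -, -⟩ := ncX_spec (c.resolve_left (by omega)) w1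
    (i1 _ (i2 _ (i3 _ (m 0 (by decide)) (o01.trans (o12.trans o23))) (o01.trans o12)) o01)
  rw [Bool.or_eq_true, Nat.ble_eq] at c
  exact nc_l h (c.resolve_left (by omega))

theorem numC_host (h : Num d k R U g) (hs : ∀ x, x ≠ 4 → ∑ i, d i x = 4)
    (hs4 : ∑ i, d i 4 = 5) (u : U 0) (p1 : d 2 4 ≤ d 1 4) (p2 : d 3 4 ≤ d 2 4) :
    -184 ≤ ∑ i, g i := by
  let K : Fin 5 → ℕ := fun x => if x = 4 then 1000 else ncK (d 0 x, d 1 x, d 2 x, d 3 x)
  have mo := Tuple.monotone_sort K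
  set τ := Tuple.sort K
  have t4 : τ 4 = 4 := by
    by_contra n
    have a : K (τ (τ.symm 4)) ≤ K (τ 4) := mo (Fin.le_last _)
    have b := hs _ n
    rw [Fin.sum_univ_four] at b
    simp only [K, Equiv.apply_symm_apply, if_true, n, if_false, ncK] at a
    omega
  have tn : ∀ x, x ≠ 4 → τ x ≠ 4 := fun x a b => a (τ.injective (b.trans t4.symm))
  refine numC_sorted (h.permC (Equiv.refl _) τ) (fun x a => hs _ (tn x a)) ?_ u ?_ ?_
    fun x y a b => ?_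
  · simpa only [t4, Equiv.refl_apply] using hs4
  · simpa only [t4, Equiv.refl_apply] using p1
  · simpa only [t4, Equiv.refl_apply] using p2
  · have c : K (τ x) ≤ K (τ y) := mo a
    have : x ≠ 4 := fun e => b (le_antisymm (Fin.le_last y) (e ▸ a))
    simpa only [K, tn x this, tn y b, if_false, Equiv.refl_apply] using c

theorem numC {d : Fin 4 → Fin 5 → ℕ} {k : Fin 4 → Fin 5 → Fin 5 → ℕ}
    {R : Fin 4 → Fin 5 → Fin 5 → Prop} {U : Fin 4 → Prop} {g : Fin 4 → ℤ}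
    (h : Num d k R U g) (hs : ∀ x, x ≠ 4 → ∑ i, d i x = 4) (hs4 : ∑ i, d i 4 = 5) :
    -184 ≤ ∑ i, g i := by
  by_cases hu : ∃ u, U u
  · obtain ⟨u, hu⟩ := hu
    let K : Fin 4 → ℕ := fun i => if i = u then 0 else 6 - d i 4
    have le : ∀ i, d i 4 ≤ 5 := fun i =>
      (single_le_sum (f := fun i => d i 4) (fun _ _ => Nat.zero_le _) (mem_univ i)).trans_eq hs4
    have mo := Tuple.monotone_sort K
    set σ := Tuple.sort K
    have s0 : σ 0 = u := by
      by_contra n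
      have a : K (σ 0) ≤ K (σ (σ.symm u)) := mo (Fin.zero_le _)
      have := le (σ 0)
      simp only [K, Equiv.apply_symm_apply, if_true, n, if_false] at a
      omega
    have sn : ∀ i, i ≠ 0 → σ i ≠ u := fun i a b => a (σ.injective (b.trans s0.symm))
    have o : ∀ i j : Fin 4, i ≠ 0 → j ≠ 0 → i ≤ j → d (σ j) 4 ≤ d (σ i) 4 := fun i j a b c => by
      have e : K (σ i) ≤ K (σ j) := mo c
      have := le (σ i)
      have := le (σ j)
      simp only [K, sn i a, sn j b, if_false] at e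
      omega
    rw [← Equiv.sum_comp σ g]
    exact numC_host (h.permC σ (Equiv.refl _))
      (fun x a => (Equiv.sum_comp σ fun i => d i x).trans (hs x a))
      ((Equiv.sum_comp σ fun i => d i 4).trans hs4) (by simpa only [s0] using hu)
      (o 1 2 (by decide) (by decide) (by decide)) (o 2 3 (by decide) (by decide) (by decide))
  · rw [Fin.sum_univ_four]
    have n : ∀ i, -46 ≤ g i := fun i => h.b46 i fun a => hu ⟨i, a⟩
    have := n 0
    have := n 1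
    have := n 2
    have := n 3
    omega

end Pool.Agent.Work.MP_d266e7_co.Mix
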