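import Pool.Agent.Work.MP_d266e7_co.Full.QCfg
import Pool.Agent.Work.MP_d266e7_co.Full.QNumB
import Pool.Agent.Work.MP_d266e7_co.Full.QNumC

/-!
Three pieces and four hosts, four pieces and five hosts.
-/

namespace Pool.Agent.Work.MP_d266e7_co.Mix

open Finset C5 C5.P24

variable {V : Type} [DecidableEq V] [Infinite V] {H : Finset (Finset V)}

theorem qb {W : Fin 3 → Finset (Finset V)} {q : Fin 4 → Finset V} (h : Cfg H W q) (f3 : F3 H)
    {t : V} (tq : ∀ x, t ∈ q x) (tW : ∀ i, t ∉ cov (W i)) (q5 : ∀ x, (q x).card = 5) {N : ℤ}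
    (hs : ∀ x, ∑ i, C5.dd (W i) (q x) = 4 ∨ ∑ i, C5.dd (W i) (q x) = 3) (N0 : 0 ≤ N)
    (N1 : ∀ x, ∑ i, C5.dd (W i) (q x) = 3 → 91 ≤ N)
    (N2 : ∀ x y, x ≠ y → ∑ i, C5.dd (W i) (q x) = 3 → ∑ i, C5.dd (W i) (q y) = 3 → 108 ≤ N) :
    -46 ≤ ∑ i, VH H (W i) + N := by
  have n0 : ∀ x, ∑ i, C5.dd (W i) (q x) = 4 → np H (q x) = 0 := fun x e => by
    obtain ⟨y, hy⟩ := exists_ne x
    exact h.np0 hy.symm (tq x) (tq y) tW (by rw [e, q5])
  have hn : ∀ i x, 4 ≤ C5.dd (W i) (q x) → np H (q x) = 0 := fun i x k => n0 x (by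
    have := single_le_sum (f := fun i => C5.dd (W i) (q x)) (fun _ _ => Nat.zero_le _)
      (mem_univ i)
    have := hs x
    omega)
  refine numB (h.num f3 (by simp) (by simp) q5 hn) hs N0 N1 N2
    (fun i x y z w xy xz xw yz yw zw c a b => ?_) (fun y z yz => ?_)
    fun i y z u yz a b c => ?_
  · have g : GA H (W i) (q x ∩ cov (W i) ∪ q y ∩ cov (W i))
        (q z ∩ cov (W i) ∪ q w ∩ cov (W i)) := by
      have := h.ga (i := i) (by simp) {x, y} {z, w} fun e he f hf => c e f (by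
        rcases mem_insert.1 he with rfl | he <;> rcases mem_insert.1 hf with rfl | hf
        · exact xz
        · exact mem_singleton.1 hf ▸ xw
        · exact mem_singleton.1 he ▸ yz
        · exact mem_singleton.1 he ▸ mem_singleton.1 hf ▸ yw)
      simpa only [biUnion_insert, singleton_biUnion] using this
    refine g.g33 ?_ ?_
    · rw [card_union_of_disjoint (h.disj (c x y xy))]
      exact a
    · rw [card_union_of_disjoint (h.disj (c z w zw))]
      exact b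
  · have a := h.inter_sum (tq y) (tq z) tW
    have := h.qh.cls.c3 _ (h.qm y) _ (h.qm z) fun l => yz (h.qi l)
    omega
  · obtain ⟨x, xy, xz⟩ := (by decide : ∀ y z : Fin 4, ∃ x, x ≠ y ∧ x ≠ z) y z
    have k := h.link f3 u xy xz yz (tq x) (tq y) (tq z) (q5 y) (q5 z) (n0 y a) (n0 z b) c
    have := h.inter_sum (tq y) (tq z) tW
    omega

theorem qc {W : Fin 4 → Finset (Finset V)} {q : Fin 5 → Finset V} (h : Cfg H W q) (f3 : F3 H)
    (q5 : ∀ x, (q x).card = 5) (hn : ∀ x, np H (q x) = 0)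
    (hs : ∀ x, x ≠ 4 → ∑ i, C5.dd (W i) (q x) = 4) (hs4 : ∑ i, C5.dd (W i) (q 4) = 5) :
    -184 ≤ ∑ i, VH H (W i) :=
  numC (h.num f3 (by simp) (by simp) q5 fun _ x _ => hn x) hs hs4

end Pool.Agent.Work.MP_d266e7_co.Mix
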