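import Pool.Agent.Work.MP_d266e7_co.Full.QG0

/-!
The gains of the pair gadgets. Two new nodes `a`, `b` are put on the piece `W`; the priced sets of
the new family that are not priced in `H` are listed in `FE.gp`.
-/

namespace Pool.Agent.Work.MP_d266e7_co.Mix

open Finset C5 C5.P24

variable {V : Type} [DecidableEq V] {H W X : Finset (Finset V)} {A B : Finset V}

theorem wdeg_insert {x : Finset V} (hx : x ∉ W) (v : V) :
    wdeg (insert x W) v = wdeg W v + if v ∈ x then wt x else 0 := by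
  rw [wdeg, star_insert]
  split_ifs
  · rw [sum_insert fun k => hx (mem_star.1 k).1, add_comm, wdeg]
  · rfl

theorem wdeg_zero {v : V} (hv : v ∉ cov W) : wdeg W v = 0 := by
  rw [wdeg, card_eq_zero.1 (dg_zero hv), sum_empty]

theorem Ho.dg_lt (h : Ho H W A) (s : W ⊆ H) {v : V} (hv : v ∈ A) : dg W v < dg H v := by
  obtain ⟨-, x, a, b, c⟩ := h v hv
  exact C5.dg_lt s a b c

theorem Ho.wdeg_lt (h : Ho H W A) (s : W ⊆ H) {v : V} (hv : v ∈ A) : wdeg W v < wdeg H v := by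
  obtain ⟨-, x, a, b, c⟩ := h v hv
  have := wdeg_mono (insert_subset a s) v
  rw [wdeg_insert b, if_pos c] at this
  have := wt_pos x
  omega

/-- two new nodes on the piece `W` -/
structure FE (H W : Finset (Finset V)) (a b : Finset V) : Prop where
  pc : Pc H W
  ear : MEar W a b
  ha : Ho H W (a ∩ cov W)
  hb : Ho H W (b ∩ cov W)
  a5 : a.card = 5
  bs : b.card = 5 ∨ (b.card = 3 ∧ Rm W (b ∩ cov W))
  ab : (a ∩ b).card ≤ 3
  ar : C5.dd W a ≤ 3 ∨ Rl H W (a ∩ cov W)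
  br : C5.dd W b ≤ 3

theorem inter_sub_cov {n e : Finset V} (he : e ∈ W) : n ∩ e ⊆ n ∩ cov W := fun _ hv =>
  mem_inter.2 ⟨(mem_inter.1 hv).1, mem_cov.2 ⟨e, he, (mem_inter.1 hv).2⟩⟩

/-- a new node with at most three old blocks links no old node -/
theorem leg_small {n w K : Finset V} (p : Pr X n w) (hw : w ∈ W) (d : C5.dd W n ≤ 3)
    (hK : K ⊆ cov W) (k3 : K.card = 3) (s : K ⊆ sd n w) : False := by
  have e : n ∩ w = n ∩ cov W := eq_of_subset_of_card_le (inter_sub_cov hw) (by rwa [p.i3])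
  have a : K ⊆ w \ n := fun v hv => by
    rcases mem_sd.1 (s hv) with k | k
    · exact absurd (mem_inter.1 (e ▸ mem_inter.2 ⟨k.1, hK hv⟩ : v ∈ n ∩ w)).2 k.2
    · exact mem_sdiff.2 ⟨k.2, k.1⟩
  have b := card_le_card a
  have c := card_sdiff_add_card_inter w n
  rw [inter_comm, p.i3, p.w5] at c
  omega

/-- a trace made of a new node and an old node -/
theorem ear_trace {a b w y : Finset V} (e : MEar W a b) (p : Pr X a w) (hw : w ∈ W)
    (hy : y = a ∨ y = b ∨ y ∈ W) (s : sd a w ⊆ y) :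
    y = b ∧ a ∩ w = a ∩ cov W ∧ w ⊆ a ∩ cov W ∪ b ∩ cov W := by
  obtain ⟨u, hu⟩ := e.com
  obtain ⟨u1, u2⟩ := mem_inter.1 hu
  have wc : ∀ v ∈ w, v ∈ cov W := fun v hv => mem_cov.2 ⟨w, hw, hv⟩
  have yb : y = b := by
    rcases hy with k | k | k
    · have a1 : w ⊆ a ∩ w := fun v hv => mem_inter.2 ⟨by_contra fun c =>
        c (k ▸ s (mem_sd.2 (Or.inr ⟨c, hv⟩))), hv⟩
      have := card_le_card a1
      rw [p.i3, p.w5] at this
      omega
    · exact k
    · exact absurd (mem_cov.2 ⟨y, k, s (mem_sd.2 (Or.inl ⟨u1, fun c => e.out u1 u2 (wc u c)⟩))⟩)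
        (e.out u1 u2)
  subst yb
  refine ⟨rfl, Subset.antisymm (inter_sub_cov hw) fun v hv => ?_, fun v hv => ?_⟩
  · obtain ⟨v1, v2⟩ := mem_inter.1 hv
    exact mem_inter.2 ⟨v1, by_contra fun c => e.out v1 (s (mem_sd.2 (Or.inl ⟨v1, c⟩))) v2⟩
  · by_cases c : v ∈ a
    · exact mem_union_left _ (mem_inter.2 ⟨c, wc v hv⟩)
    · exact mem_union_right _ (mem_inter.2 ⟨s (mem_sd.2 (Or.inr ⟨c, hv⟩)), wc v hv⟩)

namespace FE

variable {a b : Finset V}

theorem dg_le (h : FE H W a b) {v : V} (hv : v ∈ cov W) :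
    dg (insert a (insert b W)) v ≤ dg H v := by
  rw [h.ear.dg_ins]
  have := dg_mono h.pc.sub v
  by_cases c : v ∈ a
  · have := h.ha.dg_lt h.pc.sub (mem_inter.2 ⟨c, hv⟩)
    rw [if_pos c, if_neg fun d => h.ear.out c d hv]
    omega
  by_cases d : v ∈ b
  · have := h.hb.dg_lt h.pc.sub (mem_inter.2 ⟨d, hv⟩)
    rw [if_neg c, if_pos d]
    omega
  · rw [if_neg c, if_neg d]
    omega

theorem c3a (h : FE H W a b) {e : Finset V} (he : e ∈ W) : (a ∩ e).card ≤ 3 := by
  rcases h.ar with k | ⟨x, x1, x2, -, -, x3⟩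
  · exact (card_le_card (inter_sub_cov he)).trans k
  · refine le_trans (card_le_card fun v hv => ?_)
      (h.pc.q.cls.c3 x x1 e (h.pc.sub he) fun c => x2 (c ▸ he))
    exact mem_inter.2 ⟨x3 (inter_sub_cov he hv), (mem_inter.1 hv).2⟩

theorem cls (h : FE H W a b) : Cls (insert a (insert b W)) := by
  have cW := h.pc.q.cls.mono h.pc.sub
  have c3b : ∀ e ∈ W, (b ∩ e).card ≤ 3 := fun e he =>
    (card_le_card (inter_sub_cov he)).trans h.br
  refine ⟨fun e he => ?_, fun v => ?_, fun e he f hf c => ?_⟩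
  · rcases mem_insert.1 he with rfl | he
    · exact Or.inr h.a5
    rcases mem_insert.1 he with rfl | he
    · exact (h.bs.imp_right And.left).symm
    · exact cW.sz e he
  · rw [wdeg_insert h.ear.abW, wdeg_insert h.ear.bW, wt5 h.a5]
    have w : wt b ≤ 2 := by
      unfold wt
      split_ifs <;> omega
    have := h.pc.q.cls.d4 v
    have := cW.d4 v
    by_cases hv : v ∈ cov W
    · by_cases c : v ∈ a
      · have := h.ha.wdeg_lt h.pc.sub (mem_inter.2 ⟨c, hv⟩)
        rw [if_pos c, if_neg fun d => h.ear.out c d hv]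
        omega
      by_cases d : v ∈ b
      · have := h.hb.wdeg_lt h.pc.sub (mem_inter.2 ⟨d, hv⟩)
        rw [if_neg c, if_pos d]
        rcases h.bs with k | k
        · rw [wt5 k]
          omega
        · have := k.2 v (mem_inter.2 ⟨d, hv⟩)
          omega
      · rw [if_neg c, if_neg d]
        omega
    · rw [wdeg_zero hv]
      split_ifs <;> omega
  · simp only [mem_insert] at he hf
    rcases he with rfl | rfl | he <;> rcases hf with rfl | rfl | hf
    · exact absurd rfl c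
    · exact h.ab
    · exact h.c3a hf
    · exact inter_comm e f ▸ h.ab
    · exact absurd rfl c
    · exact c3b f hf
    · exact inter_comm e f ▸ h.c3a he
    · exact inter_comm e f ▸ c3b e he
    · exact cW.c3 e he f hf c

theorem np_old (h : FE H W a b) {e : Finset V} (he : e ∈ W)
    (k : np (insert a (insert b W)) e = 0) : np H e = 0 :=
  Nat.le_zero.1 (k ▸ np_le fun _ hv => h.dg_le (mem_cov.2 ⟨e, he, hv⟩))

theorem pr_old (h : FE H W a b) {c w : Finset V} (p : Pr (insert a (insert b W)) c w)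
    (hc : c ∈ W) (hw : w ∈ W) : Pr H c w :=
  ⟨h.pc.sub hc, h.pc.sub hw, p.c5, p.w5, p.i3, h.np_old hc p.nc, h.np_old hw p.nw⟩

theorem dg_com (h : FE H W a b) {v : V} (hv : v ∈ a ∩ b) : dg (insert a (insert b W)) v = 2 := by
  obtain ⟨v1, v2⟩ := mem_inter.1 hv
  rw [h.ear.dg_ins, dg_zero (h.ear.out v1 v2), if_pos v1, if_pos v2]

/-- an old node of size three has no non-pendant link -/
theorem no_link (h : FE H W a b) {K : Finset V} (hK : K ∈ W) (k3 : K.card = 3) :
    ¬ LkN (insert a (insert b W)) K := by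
  have kc : K ⊆ cov W := fun v hv => mem_cov.2 ⟨K, hK, hv⟩
  have fl := h.pc.q.fl.lk K (h.pc.sub hK) k3
  have key : ∀ w ∈ W, Pr (insert a (insert b W)) a w → ¬ Pend (insert a (insert b W)) a w →
      K ⊆ sd a w → False := fun w hw p n s => by
    rcases h.ar with k | ⟨x, x1, x2, x3, x4, x5⟩
    · exact leg_small p hw k kc k3 s
    have e : a ∩ w = x ∩ w := eq_of_subset_of_card_le
      (fun v hv => mem_inter.2 ⟨x5 (inter_sub_cov hw hv), (mem_inter.1 hv).2⟩)
      (p.i3 ▸ h.pc.q.cls.c3 x x1 w (h.pc.sub hw) fun c => x2 (c ▸ hw))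
    have p' : Pr H x w := ⟨x1, h.pc.sub hw, x3, p.w5, e ▸ p.i3, x4, h.np_old hw p.nw⟩
    refine fl ⟨x, w, p', fun d => n (p.pend_iff.2 fun v hv => ?_), fun v hv => ?_⟩
    · exact (h.dg_le (mem_inter.1 (inter_sub_cov hw hv)).2).trans (p'.pend_iff.1 d v (e ▸ hv))
    · rcases mem_sd.1 (s hv) with k | k
      · exact mem_sd.2 (Or.inl ⟨x5 (mem_inter.2 ⟨k.1, kc hv⟩), k.2⟩)
      · exact mem_sd.2 (Or.inr ⟨fun c =>
          k.1 (mem_inter.1 (e ▸ mem_inter.2 ⟨c, k.2⟩ : v ∈ a ∩ w)).1, k.2⟩)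
  rintro ⟨p, q, pr, n, s⟩
  have hp := pr.mc
  have hq := pr.mw
  simp only [mem_insert] at hp hq
  rcases hp with rfl | rfl | hp <;> rcases hq with rfl | rfl | hq
  · exact pr.ne rfl
  · exact n (pr.pend_iff.2 fun v hv => (h.dg_com hv).le)
  · exact key q hq pr n s
  · exact n (pr.pend_iff.2 fun v hv => (h.dg_com (inter_comm p q ▸ hv)).le)
  · exact pr.ne rfl
  · exact leg_small pr hq h.br kc k3 s
  · exact key p hp pr.symm (fun d => n d.symm) (sd_comm p q ▸ s)
  · exact leg_small pr.symm hp h.br kc k3 (sd_comm p q ▸ s)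
  · have p' := h.pr_old pr hp hq
    refine fl ⟨p, q, p', fun d => n (pr.pend_iff.2 fun v hv => ?_), s⟩
    exact (h.dg_le (mem_cov.2 ⟨p, hp, (mem_inter.1 hv).1⟩)).trans (p'.pend_iff.1 d v hv)

/-- the priced sets of the new family -/
theorem gp (h : FE H W a b) {K : Finset V} (k : GP (insert a (insert b W)) K) :
    (GP H K ∧ K ⊆ cov W) ∨ (K = a ∩ b ∧ b.card = 5) ∨
      (K = a ∩ cov W ∧ b.card = 5 ∧ ∃ w ∈ W, w.card = 5 ∧ K ⊆ w ∧ w ⊆ a ∩ cov W ∪ b ∩ cov W) ∨
      (K = b ∩ cov W ∧ b.card = 5 ∧ np (insert a (insert b W)) b = 0 ∧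
        ∃ w ∈ W, w.card = 5 ∧ K ⊆ w ∧ w ⊆ a ∩ cov W ∪ b ∩ cov W) ∨
      (K = b ∧ np (insert a (insert b W)) b = 0) := by
  rcases k with ⟨c, w, ⟨p, y, y1, y2, y3⟩, rfl⟩ | ⟨k1, k2, k3⟩
  · have hc := p.mc
    have hw := p.mw
    simp only [mem_insert] at hc hw y1
    rcases hc with rfl | rfl | hc <;> rcases hw with rfl | rfl | hw
    · exact absurd rfl p.ne
    · exact .inr (.inl ⟨rfl, p.w5⟩)
    · obtain ⟨e1, e2, e3⟩ := ear_trace h.ear p hw y1 y3
      exact .inr (.inr (.inl ⟨e2, e1 ▸ y2, w, hw, p.w5, inter_subset_right, e3⟩))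
    · exact .inr (.inl ⟨inter_comm _ _, p.c5⟩)
    · exact absurd rfl p.ne
    · obtain ⟨-, e2, e3⟩ := ear_trace h.ear.symm p hw (or_left_comm.1 y1) y3
      exact .inr (.inr (.inr (.inl ⟨e2, p.c5, p.nc, w, hw, p.w5, inter_subset_right,
        union_comm (c ∩ cov W) _ ▸ e3⟩)))
    · obtain ⟨e1, e2, e3⟩ := ear_trace h.ear p.symm hc y1 (sd_comm c w ▸ y3)
      exact .inr (.inr (.inl ⟨(inter_comm _ _).trans e2, e1 ▸ y2, c, hc, p.c5, inter_subset_left,
        e3⟩))
    · obtain ⟨-, e2, e3⟩ := ear_trace h.ear.symm p.symm hc (or_left_comm.1 y1) (sd_comm c w ▸ y3)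
      exact .inr (.inr (.inr (.inl ⟨(inter_comm _ _).trans e2, p.w5, p.nw, c, hc, p.c5,
        inter_subset_left, union_comm (w ∩ cov W) _ ▸ e3⟩)))
    · have sc : sd c w ⊆ cov W := fun v hv => by
        rcases mem_sd.1 hv with k | k
        exacts [mem_cov.2 ⟨c, hc, k.1⟩, mem_cov.2 ⟨w, hw, k.2⟩]
      have s4 := card_le_card (subset_inter y3 sc)
      rw [sd_card p.c5 p.w5 p.i3] at s4
      refine .inl ⟨.inl ⟨c, w, ⟨h.pr_old p hc hw, ?_⟩, rfl⟩,
        fun v hv => mem_cov.2 ⟨c, hc, (mem_inter.1 hv).1⟩⟩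
      rcases y1 with rfl | rfl | y1
      · rcases h.ar with k | ⟨x, x1, -, x3, -, x5⟩
        · exact absurd (s4.trans k) (by omega)
        · exact ⟨x, x1, x3, (subset_inter y3 sc).trans x5⟩
      · exact absurd (s4.trans h.br) (by omega)
      · exact ⟨y, h.pc.sub y1, y2, y3⟩
  · simp only [mem_insert] at k1
    rcases k1 with rfl | rfl | k1
    · have := h.a5
      omega
    · obtain ⟨p, q, pr, -, s⟩ := k3
      refine .inr (.inr (.inr (.inr ⟨rfl, np_zero fun v hv => ?_⟩)))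
      exact pr.dg2 ((mem_sd.1 (s hv)).imp And.left And.right)
    · exact absurd k3 (h.no_link k1 k2)

theorem val (h : FE H W a b) (Fk : Finset (Finset V))
    (hf : ∀ K, GP (insert a (insert b W)) K → (GP H K ∧ K ⊆ cov W) ∨ K ∈ Fk) :
    (476 : ℤ) + bon 50 (insert a (insert b W)) b ≤
      VH H W + 138 * wt b + 108 * ((a ∪ b) \ cov W).card + 13 * Fk.card := by
  obtain ⟨s, hs⟩ := h.ear.com
  have ma : a ∈ insert a (insert b W) := mem_insert_self _ _
  have sX : W ⊆ insert a (insert b W) := (subset_insert _ _).trans (subset_insert _ _)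
  have a1 := ext_val h.pc.q sX (Or.inl (by have := h.pc.sm; rw [h.ear.card_ins]; omega)) h.cls
    h.ear.mc_ins (not_exc ma h.a5 (mem_cov.2 ⟨a, ma, (mem_inter.1 hs).1⟩) (h.dg_com hs).le)
    (fun v hv => h.dg_le hv) Fk hf
  have e : insert a (insert b W) \ W = {a, b} := by
    rw [insert_sdiff_of_notMem _ h.ear.aW, insert_sdiff_of_notMem _ h.ear.bW, sdiff_self]
    rfl
  have a2 := card_sdiff_add_card_eq_card (cov_mono sX)
  have a3 := h.ear.cov_ins
  rw [e, ws, sum_pair h.ear.ne, sum_pair h.ear.ne, h.ear.tau_ins, wt5 h.a5] at a1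
  omega

end FE

variable [Infinite V]

theorem GA.exists_fe (h : GA H W A B) {k q : ℕ} (k1 : 1 ≤ k) (k3 : k ≤ 3) (ha : A.card + k = 5)
    (hb : B.card + k + q = 5 ∨ (B.card + k + q = 3 ∧ Rm W B)) (b1 : 1 ≤ B.card) (b3 : B.card ≤ 3)
    (ar : A.card ≤ 3 ∨ Rl H W A) :
    ∃ a b, FE H W a b ∧ a ∩ cov W = A ∧ b ∩ cov W = B ∧ (a ∩ b).card = k ∧
      b.card = B.card + k + q ∧ ((a ∪ b) \ cov W).card = k + q ∧
      q ≤ np (insert a (insert b W)) b := by
  obtain ⟨Sh, P, Q, e, c1, c2, c3, d1, -, d2, d3, e1, e2, e3, e4, e5⟩ := exists_mear h.pc.mc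
    h.ha.sub h.hb.sub h.cr (card_pos.1 (by omega)) (card_pos.1 b1) k1 0 q ∅
  have n := e.new_card
  rw [C5.dd, C5.dd, e1, e2, e3, e4, e5] at n
  refine ⟨_, _, ⟨h.pc, e, e1.symm ▸ h.ha, e2.symm ▸ h.hb, by omega, ?_, by rw [e3]; omega, ?_,
    by rw [C5.dd, e2]; exact b3⟩, e1, e2, e3.symm ▸ c1, e5, by omega, ?_⟩
  · rw [e2, e5]
    exact hb
  · rw [C5.dd, e1]
    exact ar
  · refine c3 ▸ card_le_card fun v hv => ?_
    have vb : v ∈ B ∪ (Sh ∪ Q) := mem_union_right _ (mem_union_right _ hv)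
    have vW : v ∉ cov W := fun c =>
      disjoint_left.1 d1 (mem_union_right _ hv) (mem_union_left _ c)
    have va : v ∉ A ∪ (Sh ∪ P) := fun c =>
      disjoint_left.1 d2 (e3 ▸ mem_inter.2 ⟨c, vb⟩ : v ∈ Sh) hv
    refine mem_filter.2 ⟨vb, ?_⟩
    rw [e.dg_ins, dg_zero vW, if_neg va, if_pos vb]

theorem GA.gain5 (h : GA H W A B) {k q : ℕ} (k1 : 1 ≤ k) (k3 : k ≤ 3) (ha : A.card + k = 5)
    (hb : B.card + k + q = 5) (b1 : 1 ≤ B.card) (b3 : B.card ≤ 3) (ar : A.card ≤ 3 ∨ Rl H W A)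
    (F0 : Finset (Finset V))
    (hA : A.card = 3 → (∃ w ∈ W, w.card = 5 ∧ A ⊆ w ∧ w ⊆ A ∪ B) → A ∈ F0)
    (hB : B.card = 3 → q = 0 → (∃ w ∈ W, w.card = 5 ∧ B ⊆ w ∧ w ⊆ A ∪ B) → B ∈ F0) :
    (338 : ℤ) + (if q = 0 then 0 else if q = 1 then 17 else 50) ≤
      VH H W + 108 * (k + q) + 13 * (F0.card + if k = 3 then 1 else 0) := by
  obtain ⟨a, b, f, e1, e2, e3, e4, e5, e6⟩ := h.exists_fe k1 k3 ha (Or.inl hb) b1 b3 ar
  have b5 : b.card = 5 := by omega
  have a1 := f.val (if k = 3 then insert (a ∩ b) F0 else F0) fun K hK => by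
    have c := hK.card
    have s : F0 ⊆ if k = 3 then insert (a ∩ b) F0 else F0 := by
      split_ifs
      exacts [subset_insert _ _, Subset.rfl]
    rcases f.gp hK with u | ⟨rfl, -⟩ | ⟨rfl, -, u⟩ | ⟨rfl, -, u, u'⟩ | ⟨rfl, -⟩
    · exact Or.inl u
    · rw [if_pos (e3 ▸ c)]
      exact Or.inr (mem_insert_self _ _)
    · rw [e1, e2] at u
      rw [e1] at c ⊢
      exact Or.inr (s (hA c u))
    · rw [e1, e2] at u'
      rw [e2] at c ⊢
      exact Or.inr (s (hB c (by omega) u'))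
    · omega
  have a2 : (if k = 3 then insert (a ∩ b) F0 else F0).card ≤ F0.card + if k = 3 then 1 else 0 := by
    split_ifs
    exacts [card_insert_le _ _, le_rfl]
  have a3 : (if q = 0 then 0 else if q = 1 then 17 else 50) ≤
      bon 50 (insert a (insert b W)) b := by
    unfold bon
    split_ifs <;> omega
  rw [wt5 b5, e5] at a1
  split_ifs at a1 a2 a3 ⊢ <;> omega

theorem GA.gain3 (h : GA H W A B) {k q : ℕ} (k1 : 1 ≤ k) (ha : A.card + k = 5)
    (hb : B.card + k + q = 3) (m : Rm W B) (b1 : 1 ≤ B.card) (ar : A.card ≤ 3 ∨ Rl H W A) :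
    (200 : ℤ) ≤ VH H W + 108 * (k + q) + 13 * if q = 0 then 1 else 0 := by
  obtain ⟨a, b, f, -, -, -, e4, e5, e6⟩ := h.exists_fe k1 (by omega) ha (Or.inr ⟨hb, m⟩) b1
    (by omega) ar
  have b3 : b.card = 3 := by omega
  have a1 := f.val (if q = 0 then {b} else ∅) fun K hK => by
    rcases f.gp hK with u | ⟨-, u⟩ | ⟨-, u, -⟩ | ⟨-, u, -⟩ | ⟨rfl, u⟩
    · exact Or.inl u
    · omega
    · omega
    · omega
    · rw [if_pos (by omega)]
      exact Or.inr (mem_singleton_self _)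
  rw [wt3 b3, e5] at a1
  split_ifs at a1 ⊢
  · rw [card_singleton] at a1
    omega
  · rw [card_empty] at a1
    omega

theorem GA.g22 (h : GA H W A B) (a : 2 ≤ A.card) (b : 2 ≤ B.card) : 47 - 46 ≤ VH H W := by
  obtain ⟨A', s, a'⟩ := exists_subset_card_eq a
  obtain ⟨B', t, b'⟩ := exists_subset_card_eq b
  have := (h.mono s t).gain5 (k := 3) (q := 0) (by omega) (by omega) (by omega) (by omega)
    (by omega) (by omega) (Or.inl (by omega)) ∅ (fun _ => by omega) fun _ => by omega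
  simp at this
  omega

theorem GA.g32 (h : GA H W A B) (a : 3 ≤ A.card) (b : 2 ≤ B.card) : 64 - 46 ≤ VH H W := by
  obtain ⟨A', s, a'⟩ := exists_subset_card_eq a
  obtain ⟨B', t, b'⟩ := exists_subset_card_eq b
  have := (h.mono s t).gain5 (k := 2) (q := 1) (by omega) (by omega) (by omega) (by omega)
    (by omega) (by omega) (Or.inl (by omega)) {A'} (fun _ _ => mem_singleton_self _)
    fun _ => by omega
  simp at this
  omega

theorem GA.g42 (h : GA H W A B) (a : 4 ≤ A.card) (b : 2 ≤ B.card) : 77 - 46 ≤ VH H W := by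
  obtain ⟨A', s, a'⟩ := exists_subset_card_eq a
  obtain ⟨B', t, b'⟩ := exists_subset_card_eq b
  have g := h.mono s t
  have key : ∀ v ∈ A', (¬ ∃ w ∈ W, w.card = 5 ∧ A'.erase v ⊆ w ∧ w ⊆ A'.erase v ∪ B') →
      77 - 46 ≤ VH H W := fun v hv n => by
    have c := card_erase_add_one hv
    have := (g.mono (erase_subset v _) Subset.rfl).gain5 (k := 2) (q := 1) (by omega) (by omega)
      (by omega) (by omega) (by omega) (by omega) (Or.inl (by omega)) ∅ (fun _ k => absurd k n)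
      fun _ => by omega
    simp at this
    omega
  obtain ⟨v, hv, v', hv', ne⟩ := one_lt_card.1 (show 1 < A'.card by omega)
  by_contra c
  obtain ⟨w, w1, w2, w3, w4⟩ := not_not.1 fun n => c (key v hv n)
  obtain ⟨w', u1, u2, u3, u4⟩ := not_not.1 fun n => c (key v' hv' n)
  have d := card_union_of_disjoint g.disj
  have e1 : w ∪ w' ⊆ A' ∪ B' := union_subset (w4.trans (union_subset_union_left (erase_subset _ _)))
    (u4.trans (union_subset_union_left (erase_subset _ _)))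
  have e2 := card_le_card e1
  have e3 := card_union_add_card_inter w w'
  have e4 := h.pc.q.cls.c3 w (h.pc.sub w1) w' (h.pc.sub u1) fun k => by
    rcases mem_union.1 (w4 (k ▸ u3 (mem_erase.2 ⟨ne, hv⟩))) with m | m
    · exact notMem_erase v A' m
    · exact disjoint_left.1 g.disj hv m
  omega

theorem GA.g33 (h : GA H W A B) (a : 3 ≤ A.card) (b : 3 ≤ B.card) : 155 - 46 ≤ VH H W := by
  obtain ⟨A', s, a'⟩ := exists_subset_card_eq a
  obtain ⟨B', t, b'⟩ := exists_subset_card_eq b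
  have g := h.mono s t
  have key : ∀ K : Finset V, ((∃ w ∈ W, w.card = 5 ∧ A' ⊆ w ∧ w ⊆ A' ∪ B') → A' = K) →
      ((∃ w ∈ W, w.card = 5 ∧ B' ⊆ w ∧ w ⊆ A' ∪ B') → B' = K) → 155 - 46 ≤ VH H W :=
    fun K k1 k2 => by
      have := g.gain5 (k := 2) (q := 0) (by omega) (by omega) (by omega) (by omega)
        (by omega) (by omega) (Or.inl (by omega)) {K} (fun _ k => mem_singleton.2 (k1 k))
        fun _ _ k => mem_singleton.2 (k2 k)
      simp at this
      omega
  by_cases c : ∃ w ∈ W, w.card = 5 ∧ A' ⊆ w ∧ w ⊆ A' ∪ B'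
  · refine key A' (fun _ => rfl) fun ⟨w', u1, u2, u3, u4⟩ => ?_
    obtain ⟨w, w1, w2, w3, w4⟩ := c
    have d := card_union_of_disjoint g.disj
    have e2 := card_le_card (union_subset w4 u4)
    have e3 := card_union_add_card_inter w w'
    have e4 := h.pc.q.cls.c3 w (h.pc.sub w1) w' (h.pc.sub u1) fun k => by
      have := card_le_card (union_subset w3 (k ▸ u3))
      omega
    omega
  · exact key B' (fun k => absurd k c) fun _ => rfl

theorem GA.r41 (h : GA H W A B) (r : Rl H W A) (a : 4 ≤ A.card) (b : 1 ≤ B.card) :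
    2 - 46 ≤ VH H W := by
  obtain ⟨A', s, a'⟩ := exists_subset_card_eq a
  obtain ⟨B', t, b'⟩ := exists_subset_card_eq b
  have := (h.mono s t).gain5 (k := 1) (q := 3) (by omega) (by omega) (by omega) (by omega)
    (by omega) (by omega) (Or.inr (r.mono s)) ∅ (fun _ => by omega) fun _ => by omega
  simp at this
  omega

theorem GA.r42 (h : GA H W A B) (r : Rl H W A) (a : 4 ≤ A.card) (b : 2 ≤ B.card) :
    110 - 46 ≤ VH H W := by
  obtain ⟨A', s, a'⟩ := exists_subset_card_eq a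
  obtain ⟨B', t, b'⟩ := exists_subset_card_eq b
  have := (h.mono s t).gain5 (k := 1) (q := 2) (by omega) (by omega) (by omega) (by omega)
    (by omega) (by omega) (Or.inr (r.mono s)) ∅ (fun _ => by omega) fun _ => by omega
  simp at this
  omega

theorem GA.r43 (h : GA H W A B) (r : Rl H W A) (a : 4 ≤ A.card) (b : 3 ≤ B.card) :
    185 - 46 ≤ VH H W := by
  obtain ⟨A', s, a'⟩ := exists_subset_card_eq a
  obtain ⟨B', t, b'⟩ := exists_subset_card_eq b
  have := (h.mono s t).gain5 (k := 1) (q := 1) (by omega) (by omega) (by omega) (by omega)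
    (by omega) (by omega) (Or.inr (r.mono s)) ∅ (fun _ => by omega) fun _ _ => by omega
  simp at this
  omega

theorem GA.j41 (h : GA H W A B) (r : Rl H W A) (m : Rm W B) (a : 4 ≤ A.card) (b : 1 ≤ B.card) :
    30 - 46 ≤ VH H W := by
  obtain ⟨A', s, a'⟩ := exists_subset_card_eq a
  obtain ⟨B', t, b'⟩ := exists_subset_card_eq b
  have := (h.mono s t).gain3 (k := 1) (q := 1) (by omega) (by omega) (by omega) (m.mono t)
    (by omega) (Or.inr (r.mono s))
  simp at this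
  omega

theorem GA.j31 (h : GA H W A B) (m : Rm W B) (a : 3 ≤ A.card) (b : 1 ≤ B.card) :
    17 - 46 ≤ VH H W := by
  obtain ⟨A', s, a'⟩ := exists_subset_card_eq a
  obtain ⟨B', t, b'⟩ := exists_subset_card_eq b
  have := (h.mono s t).gain3 (k := 2) (q := 0) (by omega) (by omega) (by omega) (m.mono t)
    (by omega) (Or.inl (by omega))
  simp at this
  omega

theorem GA.j42 (h : GA H W A B) (r : Rl H W A) (m : Rm W B) (a : 4 ≤ A.card) (b : 2 ≤ B.card) :
    125 - 46 ≤ VH H W := by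
  obtain ⟨A', s, a'⟩ := exists_subset_card_eq a
  obtain ⟨B', t, b'⟩ := exists_subset_card_eq b
  have := (h.mono s t).gain3 (k := 1) (q := 0) (by omega) (by omega) (by omega) (m.mono t)
    (by omega) (Or.inr (r.mono s))
  simp at this
  omega

/-- all gains in one table -/
theorem GA.table (h : GA H W A B) (r : 4 ≤ A.card → Rl H W A) {C : Finset V} (s : C ⊆ B)
    (m : Rm W C) (h0 : -46 ≤ VH H W) : (gT A.card B.card C.card : ℤ) - 46 ≤ VH H W := by
  have g := h.mono Subset.rfl s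
  unfold gT
  split_ifs with c1 c2 c3 c4 c5 c6 c7 c8 c9 c10 c11 c12 c13 c14
  · exact h.r43 (r c1) c1 c2
  · exact g.j42 (r c1) m c1 c3
  · exact h.r42 (r c1) c1 c4
  · exact g.j41 (r c1) m c1 c5
  · exact h.r41 (r c1) c1 c6
  · exact h0
  · exact h.g33 c7.ge c8
  · exact h.g32 c7.ge c9
  · exact g.j31 m c7.ge c10
  · exact h0
  · exact h.symm.g42 c12 c11.ge
  · exact h.symm.g32 c13 c11.ge
  · exact h.g22 c11.ge c14
  · exact h0
  · exact h0

end Pool.Agent.Work.MP_d266e7_co.Mix
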