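import Pool.Agent.Work.MP_d266e7_co.Full.QD

/-!
The value of a piece: comparison with a larger family, base values, sum over pieces, real
triples.
-/

namespace Pool.Agent.Work.MP_d266e7_co.Mix

open Finset C5 C5.P24

variable {V : Type} [DecidableEq V] {H W X : Finset (Finset V)} {A B : Finset V}

theorem ext_val0 (sX : W ⊆ X) (cX : Sz X) (hd : ∀ v ∈ cov W, dg X v ≤ dg H v)
    (Fk : Finset (Finset V)) (hf : ∀ K, GP X K → (GP H K ∧ K ⊆ cov W) ∨ K ∈ Fk) :
    660 * (tau X : ℤ) + (∑ e ∈ X \ W, bon 50 X e : ℕ) + ValG 50 X ≤ VH H W + 138 * ws (X \ W) +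
      108 * (cov X \ cov W).card + 660 * tau W + 13 * Fk.card := by
  have a1 := ws_sdiff sX
  have a2 := card_sdiff_add_card_eq_card (cov_mono sX)
  have a3 : ∑ e ∈ X \ W, bon 50 X e + ∑ e ∈ W, bon 50 X e = bonus 50 X := sum_sdiff sX
  have a4 : ∑ e ∈ W, bon 50 H e ≤ ∑ e ∈ W, bon 50 X e := sum_le_sum fun e he =>
    bon_anti (by omega) (np_le fun v hv => hd v (mem_cov.2 ⟨e, he, hv⟩))
  have a5 : piG X ≤ ((gps H).filter fun K => K ⊆ cov W).card + Fk.card := by
    refine le_trans (card_le_card fun K hK => ?_) (card_union_le _ _)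
    exact mem_union.2 ((hf K (mem_gps.1 hK)).imp_left fun k => mem_filter.2 ⟨mem_gps.2 k.1, k.2⟩)
  rw [ValG, VH, V0_eq cX, V0_eq (cX.mono sX)]
  omega

/-- comparison of the piece `W` with a smaller family `X` that contains it; `Fk` contains the
priced sets of `X` that are not priced sets of `H` inside `W` -/
theorem ext_val (hq : QH H) (sX : W ⊆ X) (sm : Sm X H) (cX : Cls X) (mX : MC X)
    (ne : ¬ (IsU X ∨ (U5 X ∧ E10 X))) (hd : ∀ v ∈ cov W, dg X v ≤ dg H v)
    (Fk : Finset (Finset V)) (hf : ∀ K, GP X K → (GP H K ∧ K ⊆ cov W) ∨ K ∈ Fk) :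
    660 * (tau X : ℤ) + (∑ e ∈ X \ W, bon 50 X e : ℕ) - 46 ≤ VH H W + 138 * ws (X \ W) +
      108 * (cov X \ cov W).card + 660 * tau W + 13 * Fk.card := by
  have a := ext_val0 sX cX.sz hd Fk hf
  have b := (hq.ih X sm cX mX).resolve_right ne
  omega

theorem valG_le_vh (s : W ⊆ H) (z : Sz W) : ValG 50 W ≤ VH H W := by
  have a := ext_val0 (H := H) Subset.rfl z (fun v _ => dg_mono s v) ∅
    fun K k => Or.inl ⟨k.mono s, k.sub⟩
  simp only [sdiff_self, bot_eq_empty, sum_empty, ws, card_empty] at a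
  omega

theorem vh_base (hq : QH H) (hW : MC W) (s : W ⊆ H) (lt : W.card < H.card) :
    -46 ≤ VH H W ∨ IsU W ∨ (U5 W ∧ E10 W) :=
  (hq.ih W (Or.inl lt) (hq.cls.mono s) hW).imp_left fun k =>
    k.trans (valG_le_vh s (hq.cls.mono s).sz)

theorem vh_U (h : IsU W) : -60 ≤ VH H W := by
  have a : VB 50 W = -60 := h.vb
  have b : ∑ e ∈ W, bon 50 H e = 0 := by
    obtain ⟨K, k, rfl⟩ := h
    rw [sum_singleton, bon_three k]
  unfold VB at a
  unfold VH
  omega

theorem vh_E (s : W ⊆ H) (u : U5 W) (h : E10 W) : -72 ≤ VH H W := by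
  have a := valG_le_vh s fun e he => Or.inr (u e he)
  rw [valG_eq, vb_E10 u h] at a
  omega

/-- the value of `H` against the values of separated pieces -/
theorem vh_sum {F : Finset (Finset (Finset V))} (hc : Cls H) (hF : MFam H F) :
    ∑ W ∈ F, VH H W + 138 * ws (H \ un F) + 108 * (cov H \ cov (un F)).card +
      660 * (∑ W ∈ F, tau W : ℕ) ≤
      ValG 50 H + 660 * tau H + (∑ e ∈ H \ un F, bon 50 H e : ℕ) := by
  have a1 : ∑ W ∈ F, VH H W = 138 * (∑ W ∈ F, ws W : ℕ) + 108 * (∑ W ∈ F, (cov W).card : ℕ) -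
      660 * (∑ W ∈ F, tau W : ℕ) - (∑ W ∈ F, ∑ e ∈ W, bon 50 H e : ℕ) +
      13 * (∑ W ∈ F, ((gps H).filter fun K => K ⊆ cov W).card : ℕ) := by
    push_cast
    simp only [mul_sum, ← sum_add_distrib, ← sum_sub_distrib]
    refine sum_congr rfl fun W hW => ?_
    rw [VH, V0_eq (Sz.mono hc.sz (hF.sub W hW))]
    push_cast
    rfl
  have a2 : ws H = ∑ W ∈ F, ws W + ws (H \ un F) := hF.sum_eq wt
  have a3 := hF.cov_eq
  have a4 : bonus 50 H = _ := hF.sum_eq (bon 50 H)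
  have a5 : _ ≤ piG H := hF.sum_card_le (fun W => (gps H).filter fun K => K ⊆ cov W)
    (fun W _ K k => ⟨(mem_filter.1 k).2, (mem_gps.1 (mem_filter.1 k).1).card⟩)
    fun W _ => filter_subset _ _
  rw [a1, ValG, V0_eq hc.sz]
  omega

theorem Ho.mono (h : Ho H W B) (s : A ⊆ B) : Ho H W A := fun v hv => h v (s hv)

theorem Ho.union (h : Ho H W A) (h' : Ho H W B) : Ho H W (A ∪ B) := fun v hv =>
  (mem_union.1 hv).elim (h v) (h' v)

theorem Ho.sub (h : Ho H W A) : A ⊆ cov W := fun v hv => (h v hv).1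

theorem GA.symm (h : GA H W A B) : GA H W B A := ⟨h.pc, h.hb, h.ha, h.cr.symm⟩

theorem GA.mono (h : GA H W A B) {A' B' : Finset V} (a : A' ⊆ A) (b : B' ⊆ B) : GA H W A' B' :=
  ⟨h.pc, h.ha.mono a, h.hb.mono b, h.cr.mono a b⟩

theorem GA.disj (h : GA H W A B) : Disjoint A B := h.pc.mc.cross_disjoint h.ha.sub h.cr

theorem Rl.mono (h : Rl H W B) (s : A ⊆ B) : Rl H W A := by
  obtain ⟨x, a, b, c, d, e⟩ := h
  exact ⟨x, a, b, c, d, s.trans e⟩

theorem Rm.mono (h : Rm W B) (s : A ⊆ B) : Rm W A := fun v hv => h v (s hv)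

/-- two different blocks with the same star are not in a common minimum transversal -/
theorem not_abs2 {t b : V} (tb : t ≠ b) (ht : t ∈ cov X) (hb : b ∈ cov X)
    (h : ∀ e ∈ X, b ∈ e → t ∈ e) : ¬ Abs2 X := fun k => by
  obtain ⟨C, c1, c2, c3, c4⟩ := k t ht b hb
  have a : tau X ≤ (C.erase b).card := tau_le fun e he => by
    obtain ⟨v, v1, v2⟩ := c1 e he
    by_cases c : v = b
    · exact ⟨t, h e he (c ▸ v1), mem_erase.2 ⟨tb, c3⟩⟩
    · exact ⟨v, v1, mem_erase.2 ⟨c, v2⟩⟩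
  have := card_erase_add_one c4
  omega

/-- three real hosts through `t` with at most one further new block `b` -/
theorem Pc.tri (h : Pc H W) (lt : W.card + 4 ≤ H.card) {x y z : Finset V} {t b : V}
    (hx : x ∈ H) (hy : y ∈ H) (hz : z ∈ H) (x5 : x.card = 5) (y5 : y.card = 5) (z5 : z.card = 5)
    (m : MTri W x y z t) (hn : ∀ v ∈ x ∪ y ∪ z, v ∉ cov W → v = t ∨ v = b)
    (hb : ∃ e ∈ H, e ≠ x ∧ e ≠ y ∧ e ≠ z ∧ b ∈ e) :
    30 - 46 ≤ VH H W ∧ (¬ (b ∈ x ∧ b ∈ y) → ¬ (b ∈ x ∧ b ∈ z) → ¬ (b ∈ y ∧ b ∈ z) →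
      47 - 46 ≤ VH H W) := by
  obtain ⟨xW, yW, zW, xy, xz, yz⟩ := m.aW
  obtain ⟨mX, tX⟩ := m.main
  obtain ⟨X, hX⟩ : ∃ X, X = insert x (insert y (insert z W)) := ⟨_, rfl⟩
  rw [← hX] at mX tX
  have mem : ∀ e, e ∈ X ↔ e = x ∨ e = y ∨ e = z ∨ e ∈ W := fun e => by
    rw [hX, mem_insert, mem_insert, mem_insert]
  have sX : W ⊆ X := fun e he => (mem e).2 (.inr (.inr (.inr he)))
  have sH : X ⊆ H := fun e he => by
    rcases (mem e).1 he with rfl | rfl | rfl | k
    exacts [hx, hy, hz, h.sub k]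
  have eX : X \ W = {x, y, z} := by
    ext e
    simp only [mem_sdiff, mem, mem_insert, mem_singleton]
    constructor
    · tauto
    · rintro (rfl | rfl | rfl) <;> simp [xW, yW, zW]
  have out : ∀ e ∈ X, ∀ v ∈ e, v ∉ cov W → (e = x ∨ e = y ∨ e = z) ∧ t ∈ e ∧ (v = t ∨ v = b) :=
    fun e he v hv k => by
      rcases (mem e).1 he with rfl | rfl | rfl | c
      · exact ⟨.inl rfl, m.sa, hn v (by simp [hv]) k⟩
      · exact ⟨.inr (.inl rfl), m.sb, hn v (by simp [hv]) k⟩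
      · exact ⟨.inr (.inr rfl), m.sc, hn v (by simp [hv]) k⟩
      · exact absurd (mem_cov.2 ⟨e, c, hv⟩) k
  have a := ext_val0 (H := H) sX (h.q.cls.mono sH).sz (fun v _ => dg_mono sH v) ∅ fun K k => by
    refine Or.inl ⟨k.mono sH, fun v hv => by_contra fun c => ?_⟩
    rcases k with ⟨c', w, p, rfl⟩ | ⟨k1, k2, k3⟩
    · have s := h.q.fl.tr c' w (p.mono sH) v hv
      obtain ⟨o1, -, o2⟩ := out c' p.1.mc v (mem_inter.1 hv).1 c
      obtain ⟨o3, -, -⟩ := out w p.1.mw v (mem_inter.1 hv).2 c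
      have g : ∀ e ∈ H, v ∈ e → e = c' ∨ e = w := fun e he a => by
        have : e ∈ star H v := mem_star.2 ⟨he, a⟩
        rw [s] at this
        simpa using this
      rcases o2 with rfl | rfl
      · have g1 := g x hx m.sa
        have g2 := g y hy m.sb
        have g3 := g z hz m.sc
        grind
      · obtain ⟨e, e1, e2, e3, e4, e5⟩ := hb
        have := g e e1 e5
        grind
    · exact h.q.fl.lk K (sH k1) k2 (k3.mono sH)
  have w3 : ws (X \ W) = 3 := by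
    rw [eX, ws, sum_insert (by simp [xy, xz]), sum_pair yz, wt5 x5, wt5 y5, wt5 z5]
    rfl
  have cX : X.card < H.card := by
    have := card_sdiff_add_card_eq_card sX
    have := card_le_ws (X \ W)
    omega
  have tc : t ∈ cov X := mem_cov.2 ⟨x, (mem x).2 (.inl rfl), m.sa⟩
  have g := h.q.ih X (Or.inl cX) (h.q.cls.mono sH) mX
  rw [w3, tX, card_empty] at a
  push_cast at a
  by_cases c : b ∈ cov X \ cov W ∧ t ≠ b
  · obtain ⟨c, tb⟩ := c
    obtain ⟨c1, c2⟩ := mem_sdiff.1 c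
    have g' : -46 ≤ ValG 50 X := g.resolve_right fun k => k.elim
      (fun k => k.not5 ((mem x).2 (.inl rfl)) x5) fun k =>
        not_abs2 tb tc c1 (fun e he a => (out e he b a c2).2.1) k.2.pair
    have n2 : (cov X \ cov W).card ≤ 2 := le_trans (card_le_card (t := {t, b}) fun v hv => by
      obtain ⟨e, he, a⟩ := mem_cov.1 (mem_sdiff.1 hv).1
      simpa using (out e he v a (mem_sdiff.1 hv).2).2.2) card_le_two
    have p0 : (0 : ℤ) ≤ ∑ e ∈ X \ W, (bon 50 X e : ℤ) :=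
      sum_nonneg fun _ _ => Int.natCast_nonneg _
    refine ⟨by omega, fun k1 k2 k3 => ?_⟩
    obtain ⟨e, he, eb⟩ := mem_cov.1 c1
    have o := (out e he b eb c2).1
    have d1 : dg X b ≤ 1 := card_le_one.2 fun f hf f' hf' => by
      obtain ⟨f1, f2⟩ := mem_star.1 hf
      obtain ⟨f3, f4⟩ := mem_star.1 hf'
      have := (out f f1 b f2 c2).1
      have := (out f' f3 b f4 c2).1
      grind
    have e5 : e.card = 5 := by grind
    have b1 : 17 ≤ bon 50 X e := bon_ge (by omega) e5 (np_pos eb d1)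
    have b2 : (bon 50 X e : ℤ) ≤ ∑ e ∈ X \ W, (bon 50 X e : ℤ) :=
      single_le_sum (f := fun e => (bon 50 X e : ℤ)) (fun _ _ => Int.natCast_nonneg _)
        (by rw [eX]; simpa using o)
    omega
  · have n1 : (cov X \ cov W).card ≤ 1 := card_le_one.2 fun v hv w hw => by
      have k : ∀ v ∈ cov X \ cov W, v = t := fun v hv => by
        obtain ⟨e, he, a⟩ := mem_cov.1 (mem_sdiff.1 hv).1
        rcases (out e he v a (mem_sdiff.1 hv).2).2.2 with k | k
        · exact k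
        · by_contra d
          exact c ⟨k ▸ hv, fun d' => d (k.trans d'.symm)⟩
      rw [k v hv, k w hw]
    have g' := g.ge60
    have p0 : (0 : ℤ) ≤ ∑ e ∈ X \ W, (bon 50 X e : ℤ) :=
      sum_nonneg fun _ _ => Int.natCast_nonneg _
    exact ⟨by omega, fun _ _ _ => by omega⟩

end Pool.Agent.Work.MP_d266e7_co.Mix
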