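import Pool.Agent.Work.MP_d266e7_co.Full.R2A
import Pool.Agent.Work.MP_d266e7_co.Full.QD

/-!
Two pieces and four hosts: the value of a piece seen from the whole family, the real triple of
hosts on a piece, the replacement of a piece by one node of size three.
-/

namespace Pool.Agent.Work.MP_d266e7_co.Mix

open Finset C5 C5.P24

variable {V : Type} [DecidableEq V] {H W X : Finset (Finset V)}

theorem r2_pi {B : Finset V} {E : Finset (Finset V)}
    (h : ∀ K, GP X K → (GP H K ∧ K ⊆ B) ∨ K ∈ E) :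
    piG X ≤ ((gps H).filter fun K => K ⊆ B).card + E.card := by
  refine (card_le_card (t := ((gps H).filter fun K => K ⊆ B) ∪ E) fun K hK => ?_).trans
    (card_union_le _ _)
  rcases h K (mem_gps.1 hK) with k | k
  exacts [mem_union_left _ (mem_filter.2 ⟨mem_gps.2 k.1, k.2⟩), mem_union_right _ k]

/-- comparison of a piece with a family made from it -/
theorem r2_of (s : W ⊆ X) (hd : ∀ v ∈ cov W, dg X v ≤ dg H v) {k b : ℕ}
    (hp : piG X ≤ ((gps H).filter fun K => K ⊆ cov W).card + k)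
    (hb : b ≤ ∑ e ∈ X \ W, bon 50 X e) :
    ValG 50 X + V0 W + b ≤ VH H W + V0 X + 13 * k := by
  have a : ∑ e ∈ W, bon 50 H e ≤ ∑ e ∈ W, bon 50 X e :=
    sum_le_sum fun e he => bon_anti (by omega) (np_le fun v hv => hd v (mem_cov.2 ⟨e, he, hv⟩))
  have c : ∑ e ∈ X \ W, bon 50 X e + ∑ e ∈ W, bon 50 X e = bonus 50 X := sum_sdiff s
  unfold ValG VH
  omega

theorem r2_ge (s : W ⊆ H) : ValG 50 W ≤ VH H W := by
  have := r2_of (H := H) (Subset.refl W) (fun v _ => dg_mono s v) (k := 0) (b := 0)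
    (by simpa using r2_pi (E := ∅) fun K k => Or.inl ⟨GP.mono k s, k.sub⟩) (Nat.zero_le _)
  omega

/-- two blocks with nested stars do not lie in a common minimum transversal -/
theorem r2_abs2 (h : Abs2 X) {s b : V} (hs : s ∈ cov X) (hb : b ∈ cov X) (hne : s ≠ b)
    (hst : ∀ e ∈ X, b ∈ e → s ∈ e) : False := by
  obtain ⟨C, c1, c2, c3, c4⟩ := h s hs b hb
  have a : tau X ≤ (C.erase b).card := tau_le fun e he => by
    obtain ⟨v, v1, v2⟩ := c1 e he
    by_cases k : v = b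
    · exact ⟨s, hst e he (k ▸ v1), mem_erase.2 ⟨hne, c3⟩⟩
    · exact ⟨v, v1, mem_erase.2 ⟨k, v2⟩⟩
  have := card_erase_add_one c4
  omega

namespace R2

variable {W1 W2 : Finset (Finset V)} {q : Fin 4 → Finset V} {t : V}

theorem lt1 (h : R2 H W1 W2 q t) : W1.card + 5 ≤ H.card := by
  have := h.card_eq
  have := card_pos.2 h.c2.ne
  omega

theorem ok1 (h : R2 H W1 W2 q t) (ih : IHG 50 H) : GOk 50 W1 :=
  ih.lt (by have := h.lt1; omega) (h.cls.mono h.s1) h.c1

/-- a trace of the flat family has a node in a piece -/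
theorem trc (h : R2 H W1 W2 q t) (hf : Flat H) {c w : Finset V} (a : Trc H c w) :
    (c ∈ W1 ∨ c ∈ W2) ∨ (w ∈ W1 ∨ w ∈ W2) := by
  rcases h.all c a.1.mc with k | k | ⟨x, rfl⟩
  · exact Or.inl (Or.inl k)
  · exact Or.inl (Or.inr k)
  rcases h.all w a.1.mw with k | k | ⟨y, rfl⟩
  · exact Or.inr (Or.inl k)
  · exact Or.inr (Or.inr k)
  have := a.1.pend_iff.1 (hf.tr _ _ a) t (mem_inter.2 ⟨h.qt x, h.qt y⟩)
  have := h.dg_t
  omega

theorem gp_sub (h : R2 H W1 W2 q t) (hf : Flat H) {K : Finset V} (a : GP H K) :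
    K ⊆ cov W1 ∨ K ⊆ cov W2 := by
  rcases a with ⟨c, w, a, rfl⟩ | ⟨a, b, c⟩
  · rcases h.trc hf a with k | k
    · exact k.imp (fun k v hv => mem_cov.2 ⟨c, k, (mem_inter.1 hv).1⟩)
        fun k v hv => mem_cov.2 ⟨c, k, (mem_inter.1 hv).1⟩
    · exact k.imp (fun k v hv => mem_cov.2 ⟨w, k, (mem_inter.1 hv).2⟩)
        fun k v hv => mem_cov.2 ⟨w, k, (mem_inter.1 hv).2⟩
  · exact absurd c (hf.lk K a b)

/-- priced sets of a subfamily without nodes of the second piece -/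
theorem gp_real (h : R2 H W1 W2 q t) (hf : Flat H) (s : X ⊆ H) (hd : Disjoint X W2)
    {K : Finset V} (a : GP X K) : GP H K ∧ K ⊆ cov W1 := by
  refine ⟨a.mono s, ?_⟩
  rcases a with ⟨c, w, a, rfl⟩ | ⟨a, b, c⟩
  · rcases h.trc hf (a.mono s) with (k | k) | k | k
    · exact fun v hv => mem_cov.2 ⟨c, k, (mem_inter.1 hv).1⟩
    · exact absurd k (disjoint_left.1 hd a.1.mc)
    · exact fun v hv => mem_cov.2 ⟨w, k, (mem_inter.1 hv).2⟩
    · exact absurd k (disjoint_left.1 hd a.1.mw)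
  · exact absurd (c.mono s) (hf.lk K (s a) b)

/-- the real triple of hosts with at most one block in the second piece -/
theorem tri (h : R2 H W1 W2 q t) (ih : IHG 50 H) (hf : Flat H) {x y z w : Fin 4}
    (c1 : x ≠ y) (c2 : x ≠ z) (c3 : x ≠ w) (c4 : y ≠ z) (c5 : y ≠ w) (c6 : z ≠ w)
    (hw : 1 ≤ C5.dd W2 (q w)) (nxy : ¬ NJ W1 (q x) (q y)) (nxz : ¬ NJ W1 (q x) (q z))
    (nyz : ¬ NJ W1 (q y) (q z)) (hc : (cov {q x, q y, q z} ∩ cov W2).card ≤ 1) :
    1 ≤ VH H W1 ∨ (-16 ≤ VH H W1 ∧ ∃ r s, r ≠ s ∧ r ≠ w ∧ s ≠ w ∧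
      ∃ b ∈ cov W2, b ∈ q r ∧ b ∈ q s) := by
  have T : MTri W1 (q x) (q y) (q z) t := ⟨h.c1, h.qt x, h.qt y, h.qt z, h.t1,
    h.no3 c1 c2 c3 c4 c5 c6 hw, h.jt nxy, h.jt nxz, h.jt nyz⟩
  obtain ⟨n1, n2, n3, n4, n5, n6⟩ := T.aW
  obtain ⟨m1, m2⟩ := T.main
  obtain ⟨X, hX⟩ : ∃ X, X = insert (q x) (insert (q y) (insert (q z) W1)) := ⟨_, rfl⟩
  obtain ⟨B, hB⟩ : ∃ B, B = cov {q x, q y, q z} ∩ cov W2 := ⟨_, rfl⟩
  rw [← hB] at hc
  have w3 : ws X = ws W1 + 3 := by
    rw [hX, ws_insert (by simp [n1, n4, n5]), ws_insert (by simp [n2, n6]), ws_insert n3,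
      wt5 (h.q5 x), wt5 (h.q5 y), wt5 (h.q5 z)]
    omega
  have k3 : X.card = W1.card + 3 := by
    rw [hX, card_insert_of_notMem (by simp [n1, n4, n5]), card_insert_of_notMem (by simp [n2, n6]),
      card_insert_of_notMem n3]
  have mX : ∀ e, e ∈ X ↔ e = q x ∨ e = q y ∨ e = q z ∨ e ∈ W1 := fun e => by
    rw [hX, mem_insert, mem_insert, mem_insert]
  have host : ∀ e ∈ X, e ∉ W1 → ∃ r, r ≠ w ∧ e = q r ∧ e ∈ ({q x, q y, q z} : Finset _) :=
    fun e he k => by
      rcases (mX e).1 he with rfl | rfl | rfl | a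
      exacts [⟨x, c3, rfl, by simp⟩, ⟨y, c5, rfl, by simp⟩, ⟨z, c6, rfl, by simp⟩, absurd a k]
  rw [← hX] at m1 m2
  have sW : W1 ⊆ X := fun e he => (mX e).2 (Or.inr (Or.inr (Or.inr he)))
  have sH : X ⊆ H := fun e he => by
    rcases (mX e).1 he with rfl | rfl | rfl | a
    exacts [h.qmem x, h.qmem y, h.qmem z, h.s1 a]
  have d2 : Disjoint X W2 := disjoint_left.2 fun e he k => by
    rcases (mX e).1 he with rfl | rfl | rfl | a
    exacts [h.q2 x k, h.q2 y k, h.q2 z k, disjoint_left.1 h.disj a k]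
  have cv : cov X = insert t (cov W1 ∪ B) := by
    refine Subset.antisymm (fun v hv => ?_) (insert_subset
      (mem_cov.2 ⟨_, (mX _).2 (Or.inl rfl), h.qt x⟩) (union_subset (cov_mono sW) fun v hv => ?_))
    · obtain ⟨e, he, a⟩ := mem_cov.1 hv
      rw [mem_insert, mem_union]
      by_cases k : e ∈ W1
      · exact Or.inr (Or.inl (mem_cov.2 ⟨e, k, a⟩))
      obtain ⟨r, -, rfl, k'⟩ := host e he k
      exact (h.mem r a).imp_right fun d => d.imp_right fun d =>
        hB ▸ mem_inter.2 ⟨mem_cov.2 ⟨_, k', a⟩, d⟩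
    · refine cov_mono (fun e he => (mX e).2 ?_) (mem_inter.1 (hB ▸ hv)).1
      simp only [mem_insert, mem_singleton] at he
      tauto
  have B2 : B ⊆ cov W2 := hB ▸ inter_subset_right
  have cc : (cov X).card = (cov W1).card + B.card + 1 := by
    rw [cv, card_insert_of_notMem (fun k => (mem_union.1 k).elim h.t1 fun k => h.t2 (B2 k)),
      card_union_of_disjoint (h.sep.disjoint_cov.mono_right B2)]
  have v0 : V0 X + 138 = V0 W1 + 108 * B.card := by
    rw [Mix.V0_eq (Sz.mono h.cls.sz sH), Mix.V0_eq (Sz.mono h.cls.sz h.s1), w3, cc, m2]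
    push_cast
    ring
  have ok : GOk 50 X := ih.lt (by have := h.lt1; omega) (h.cls.mono sH) m1
  have pv := fun {b : ℕ} (hb : b ≤ ∑ e ∈ X \ W1, bon 50 X e) => r2_of (H := H) sW
    (fun v _ => dg_mono sH v) (k := 0)
    (by simpa using r2_pi (E := ∅) fun K k => Or.inl (h.gp_real hf sH d2 k)) hb
  have p0 := pv (Nat.zero_le _)
  rcases B.eq_empty_or_nonempty with k | ⟨b, hb⟩
  · rw [k, card_empty] at v0
    have := ok.ge60
    exact Or.inl (by omega)
  have B1 : B.card = 1 := le_antisymm hc (card_pos.2 ⟨b, hb⟩)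
  have b1 : b ∉ cov W1 := disjoint_right.1 h.sep.disjoint_cov (B2 hb)
  have bX : b ∈ cov X := cv ▸ mem_insert_of_mem (mem_union_right _ hb)
  have hst : ∀ e ∈ X, b ∈ e → ∃ r, r ≠ w ∧ e = q r := fun e he a =>
    (host e he fun k => b1 (mem_cov.2 ⟨e, k, a⟩)).imp fun _ d => ⟨d.1, d.2.1⟩
  have v46 : -46 ≤ ValG 50 X := by
    rcases ok with k | k | k
    · exact k
    · exact (k.not5 ((mX _).2 (Or.inl rfl)) (h.q5 x)).elim
    · refine (r2_abs2 k.2.pair (cv ▸ mem_insert_self t _) bX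
        (fun d : t = b => h.t2 (d ▸ B2 hb)) fun e he a => ?_).elim
      obtain ⟨r, -, rfl⟩ := hst e he a
      exact h.qt r
  by_cases k : dg X b ≤ 1
  · obtain ⟨e, he, a⟩ := mem_cov.1 bX
    have eW : e ∉ W1 := fun d => b1 (mem_cov.2 ⟨e, d, a⟩)
    obtain ⟨r, -, rfl⟩ := hst e he a
    have := pv ((bon_ge (by omega) (h.q5 r) (np_pos a k)).trans
      (single_le_sum (f := bon 50 X) (fun _ _ => Nat.zero_le _) (mem_sdiff.2 ⟨he, eW⟩)))
    exact Or.inl (by omega)
  · obtain ⟨e, he, f, hf', ne⟩ := one_lt_card.1 (not_le.1 k)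
    obtain ⟨r, r1, rfl⟩ := hst e (mem_star.1 he).1 (mem_star.1 he).2
    obtain ⟨s, s1, rfl⟩ := hst f (mem_star.1 hf').1 (mem_star.1 hf').2
    exact Or.inr ⟨by omega, r, s, fun d => ne (d ▸ rfl), r1, s1, b, B2 hb, (mem_star.1 he).2,
      (mem_star.1 hf').2⟩

/-- the second piece is replaced by the node `u` of its three blocks in hosts -/
theorem repl (h : R2 H W1 W2 q t) (ih : IHG 50 H) (hf : Flat H) (nU : ¬ IsU W2)
    (hj : ∀ r s, r ≠ s → ¬ NJ W1 (q r) (q s))
    (hd : ∀ r s, r ≠ s → ∀ v ∈ cov W2, v ∈ q r → v ∉ q s)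
    (h3 : (cov (univ.image q) ∩ cov W2).card = 3)
    (hb : ∀ s, ∃ r, r ≠ s ∧ 1 ≤ C5.dd W2 (q r)) : 1 ≤ VH H W1 := by
  obtain ⟨u, hu⟩ : ∃ u, u = cov (univ.image q) ∩ cov W2 := ⟨_, rfl⟩
  rw [← hu] at h3
  have mu : ∀ v, v ∈ u ↔ v ∈ cov W2 ∧ ∃ r, v ∈ q r := fun v => by
    rw [hu, mem_inter, mem_cov, and_comm]
    refine and_congr_right fun _ => ⟨fun ⟨e, a, b⟩ => ?_, fun ⟨r, a⟩ =>
      ⟨_, mem_image_of_mem q (mem_univ r), a⟩⟩
    obtain ⟨r, -, rfl⟩ := mem_image.1 a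
    exact ⟨r, b⟩
  have u1 : ∀ v ∈ u, v ∉ cov W1 := fun v hv =>
    disjoint_right.1 h.sep.disjoint_cov ((mu v).1 hv).1
  have une : u.Nonempty := card_pos.1 (by omega)
  obtain ⟨G, hG⟩ : ∃ G, G = insert u (H \ W2) := ⟨_, rfl⟩
  have mG : ∀ e, e ∈ G ↔ e = u ∨ e ∈ W1 ∨ ∃ r, e = q r := fun e => by
    rw [hG, mem_insert, mem_sdiff]
    refine or_congr_right ⟨fun a => (h.all e a.1).imp_right fun k => k.resolve_left a.2, ?_⟩
    rintro (k | ⟨r, rfl⟩)
    exacts [⟨h.s1 k, disjoint_left.1 h.disj k⟩, ⟨h.qmem r, h.q2 r⟩]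
  have uG : u ∈ G := (mG u).2 (Or.inl rfl)
  have sW : W1 ⊆ G := fun e he => (mG e).2 (Or.inr (Or.inl he))
  have qG : ∀ r, q r ∈ G := fun r => (mG _).2 (Or.inr (Or.inr ⟨r, rfl⟩))
  have GH : ∀ e ∈ G, e ≠ u → e ∈ H ∧ e ∉ W2 := fun e he k =>
    mem_sdiff.1 ((mem_insert.1 (hG ▸ he)).resolve_left k)
  have nG : NE G := hG ▸ ne_insert une (h.mc.nes.mono sdiff_subset)
  have tG : tau W1 + 2 ≤ tau G := by
    have := replace_tau h.mc.nes h.c2 une fun v hv => Or.inl ((mu v).1 hv).1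
    rw [← hG, h.tau_eq] at this
    omega
  have stu : ∀ v ∈ u, ∃ r, star G v ⊆ {u, q r} := fun v hv => by
    obtain ⟨a, r, b⟩ := (mu v).1 hv
    refine ⟨r, fun e he => ?_⟩
    obtain ⟨e1, e2⟩ := mem_star.1 he
    rcases (mG e).1 e1 with rfl | k | ⟨s, rfl⟩
    · exact mem_insert_self _ _
    · exact absurd (mem_cov.2 ⟨e, k, e2⟩) (u1 v hv)
    · rw [show s = r from by_contra fun k => hd s r k v a e2 b]
      exact mem_insert_of_mem (mem_singleton_self _)
  have sto : ∀ v, v ∉ u → star G v ⊆ star H v := fun v hv e he =>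
    mem_star.2 ⟨(GH e (mem_star.1 he).1 fun k => hv (k ▸ (mem_star.1 he).2)).1, (mem_star.1 he).2⟩
  have cls : Cls G := by
    refine ⟨fun e he => ?_, fun v => ?_, fun e he f hf' k => ?_⟩
    · by_cases k : e = u
      exacts [Or.inl (k ▸ h3), h.cls.sz e (GH e he k).1]
    · by_cases k : v ∈ u
      · obtain ⟨r, a⟩ := stu v k
        have b : ws ({u, q r} : Finset (Finset V)) = 3 := by
          rw [ws, sum_pair (fun d => by have := h.q5 r; rw [← d] at this; omega), wt3 h3,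
            wt5 (h.q5 r)]
        exact (ws_mono a).trans (by omega)
      · exact (ws_mono (sto v k)).trans (h.cls.d4 v)
    · by_cases a : e = u
      · exact (card_le_card inter_subset_left).trans (by rw [a, h3])
      by_cases b : f = u
      · exact (card_le_card inter_subset_right).trans (by rw [b, h3])
      · exact h.cls.c3 e (GH e he a).1 f (GH f hf' b).1 k
  have dG : ∀ v, dg G v ≤ dg H v := fun v => by
    by_cases k : v ∈ u
    · obtain ⟨r, a⟩ := stu v k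
      obtain ⟨b, s, c⟩ := (mu v).1 k
      have := dg_lt h.s2 (h.qmem s) (h.q2 s) c
      have := dg_pos.2 b
      have : dg G v ≤ 2 := (card_le_card a).trans card_le_two
      omega
    · exact card_le_card (sto v k)
  have mc : MC G := by
    refine ⟨nG, fun e he => lt_of_le_of_lt ?_ (show tau W1 + 1 < tau G from tG), ?_, ⟨u, uG⟩⟩
    · rcases (mG e).1 he with rfl | k | ⟨s, rfl⟩
      · refine tau_le_succ h.c1.nes t fun f hf' => ?_
        rcases (mG f).1 (mem_of_mem_erase hf') with a | a | ⟨r, rfl⟩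
        exacts [absurd a (ne_of_mem_erase hf'), Or.inl a, Or.inr (h.qt r)]
      · obtain ⟨b, hb'⟩ := une
        have n0 : NE (W1.erase e) := h.c1.nes.mono (erase_subset _ _)
        have a1 : tau (insert u (W1.erase e)) ≤ tau (W1.erase e) + 1 :=
          tau_le_succ n0 b fun f hf' => (mem_insert.1 hf').symm.imp_right
            fun a : f = u => a ▸ hb'
        have a2 : tau (G.erase e) ≤ tau (insert u (W1.erase e)) + 1 :=
          tau_le_succ (ne_insert ⟨b, hb'⟩ n0) t fun f hf' => by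
            rcases (mG f).1 (mem_of_mem_erase hf') with a | a | ⟨r, rfl⟩
            exacts [Or.inl (a ▸ mem_insert_self _ _),
              Or.inl (mem_insert_of_mem (mem_erase.2 ⟨ne_of_mem_erase hf', a⟩)), Or.inr (h.qt r)]
        have := h.c1.crit e k
        omega
      · obtain ⟨r, r1, r2⟩ := hb s
        obtain ⟨b, b1, b2⟩ := qn_pt r2
        obtain ⟨y, z, c2, c3, c4, c5, c6⟩ := qtwoe_rest2 r s r1
        have a1 := not_lt.1 (hj y z c6)
        refine (tau_le_succ (A := insert (q y) (insert (q z) W1))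
          (nG.mono (insert_subset (qG y) (insert_subset (qG z) sW))) b fun f hf' => ?_).trans
          (Nat.add_le_add_right a1 1)
        rcases (mG f).1 (mem_of_mem_erase hf') with a | a | ⟨p, rfl⟩
        · exact Or.inr (a ▸ (mu b).2 ⟨b2, r, b1⟩)
        · exact Or.inl (mem_insert_of_mem (mem_insert_of_mem a))
        · rcases quad_all r s y z p r1 c2 c3 c4 c5 c6 with rfl | rfl | rfl | rfl
          · exact Or.inr b1
          · exact absurd rfl (ne_of_mem_erase hf')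
          · exact Or.inl (mem_insert_self _ _)
          · exact Or.inl (mem_insert_of_mem (mem_insert_self _ _))
    · obtain ⟨b, hb'⟩ := une
      obtain ⟨-, r, a⟩ := (mu b).1 hb'
      refine hG ▸ pair_conn_insert (triple_conn h.c1.conn
        (fun e he => mem_sdiff.2 ⟨h.s1 he, disjoint_left.1 h.disj he⟩) fun e he => ?_)
        ⟨q r, mem_sdiff.2 ⟨h.qmem r, h.q2 r⟩, b, hb', a⟩
      rcases h.all e (mem_sdiff.1 he).1 with k | k | ⟨s, rfl⟩
      · obtain ⟨v, hv⟩ := h.c1.nes e k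
        exact ⟨e, k, v, hv, hv⟩
      · exact absurd k (mem_sdiff.1 he).2
      · obtain ⟨y, z, w, c1, -⟩ := qtwoe_rest s
        obtain ⟨C, d1, d2, ⟨v, v1, v2⟩, -⟩ := h.jt (hj s y c1)
        obtain ⟨e, e1, e2⟩ := mem_cov.1 (min_sub d1 d2 v2)
        exact ⟨e, e1, v, v1, e2⟩
  have R : R2 G W1 {u} q t := by
    refine ⟨cls, mc, h.c1, mc_singleton une, sW, singleton_subset_iff.2 uG, ?_, qG, h.qinj,
      fun e he => ?_, ?_, h.q5, h.qt, h.t1, ?_, fun x => ?_⟩
    · rintro e he f hf' ⟨v, v1, v2⟩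
      exact u1 v (mem_singleton.1 hf' ▸ v2) (mem_cov.2 ⟨e, he, v1⟩)
    · rw [mem_singleton]
      exact or_left_comm.1 ((mG e).1 he)
    · rw [tau_singleton une]
      exact tG
    · rw [cov_singleton]
      exact fun k => h.t2 ((mu t).1 k).1
    · rw [← h.hs x, C5.dd, C5.dd, C5.dd, cov_singleton]
      refine congrArg (fun z : Finset V => (q x ∩ cov W1).card + z.card) (Finset.ext fun v => ?_)
      rw [mem_inter, mem_inter, mu]
      exact and_congr_right fun a => ⟨And.left, fun b => ⟨b, x, a⟩⟩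
  have sm : Sm G H := by
    have a1 := R.card_eq
    have a2 := h.card_eq
    have a3 := card_pos.2 h.c2.ne
    rw [card_singleton] at a1
    by_cases k : W2.card = 1
    · obtain ⟨e, rfl⟩ := card_eq_one.1 k
      have e5 : e.card = 5 := (h.cls.sz e (h.s2 (mem_singleton_self e))).resolve_left
        fun d => nU ⟨e, d, rfl⟩
      refine Or.inr ⟨by omega, card_lt_card ⟨fun f hf' => ?_, fun d => ?_⟩⟩
      · obtain ⟨f1, f2⟩ := mem_filter.1 hf'
        exact mem_filter.2 ⟨(GH f f1 fun d => by rw [d] at f2; omega).1, f2⟩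
      · obtain ⟨f1, -⟩ := mem_filter.1 (d (mem_filter.2 ⟨h.s2 (mem_singleton_self e), e5⟩))
        exact (GH e f1 fun d => by rw [d] at e5; omega).2 (mem_singleton_self e)
    · exact Or.inl (by omega)
  have v46 : -46 ≤ ValG 50 G := (ih G sm cls mc).resolve_right
    (not_exc3 uG h3 (qG 0) fun d => by have := h.q5 0; rw [d] at this; omega)
  have dom : Dom H G := ⟨fun e he k _ => (GH e he fun d => by rw [d] at k; omega).1,
    fun y hy k => ⟨y, (GH y hy fun d => by rw [d] at k; omega).1, k, fun _ a _ => a⟩,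
    fun v _ => dG v⟩
  have pi : piG G ≤ ((gps H).filter fun K => K ⊆ cov W1).card + 1 := by
    refine r2_pi (E := {u}) fun K k => ?_
    rw [mem_singleton]
    rcases dom.gp k with a | a
    · refine (h.gp_sub hf a).imp (fun b => ⟨a, b⟩) fun b => ?_
      refine eq_of_subset_of_card_le (fun v hv => ?_) (by rw [h3, k.card])
      obtain ⟨e, e1, e2⟩ := mem_cov.1 (k.sub hv)
      rcases (mG e).1 e1 with rfl | d | ⟨r, rfl⟩
      · exact e2
      · exact absurd (b hv) (disjoint_left.1 h.sep.disjoint_cov (mem_cov.2 ⟨e, d, e2⟩))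
      · exact (mu v).2 ⟨b hv, r, e2⟩
    · exact Or.inr (by_contra fun d => a.2 (GH K a.1 d).1)
  have p := r2_of (H := H) sW (fun v _ => dG v) pi (Nat.zero_le _)
  have v0 := R.V0_eq
  have vu : VB 50 ({u} : Finset (Finset V)) = -60 := IsU.vb ⟨u, h3, rfl⟩
  rw [VB, bonus, sum_singleton, bon_three h3] at vu
  omega

end R2

end Pool.Agent.Work.MP_d266e7_co.Mix
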