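import Pool.Agent.Work.MP_d266e7_co.Full.Q355
import Pool.Agent.Work.MP_d266e7_co.Full.QA
import Pool.Agent.Work.MP_d266e7_co.Full.QBC
import Pool.Agent.Work.MP_d266e7_co.Full.GMain

/-!
Deletion of a star of weight four: the counting cases and the reduction to the configurations.
-/

namespace Pool.Agent.Work.MP_d266e7_co.Mix

open Finset C5 C5.P24

variable {V : Type} [DecidableEq V] {H : Finset (Finset V)}

theorem exists_enum_at {α : Type} [DecidableEq α] {s : Finset α} {k : ℕ} (h : s.card = k) {a : α}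
    (ha : a ∈ s) (j : Fin k) : ∃ q : Fin k → α, Function.Injective q ∧ (∀ x, q x ∈ s) ∧
      (∀ e ∈ s, ∃ x, e = q x) ∧ q j = a := by
  obtain ⟨q, h1, h2, h3⟩ := exists_enum h
  obtain ⟨i, rfl⟩ := h3 a ha
  refine ⟨q ∘ Equiv.swap i j, h1.comp (Equiv.injective _), fun x => h2 _, fun e he => ?_, by simp⟩
  obtain ⟨x, rfl⟩ := h3 e he
  exact ⟨Equiv.swap i j x, by simp⟩

theorem sum_enum {α M : Type} [DecidableEq α] [AddCommMonoid M] {s : Finset α} {k : ℕ}
    {q : Fin k → α} (h1 : Function.Injective q) (h2 : ∀ x, q x ∈ s) (h3 : ∀ e ∈ s, ∃ x, e = q x)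
    (f : α → M) : ∑ x, f (q x) = ∑ e ∈ s, f e := by
  have e : s = univ.image q := by
    ext e
    simp only [mem_image, mem_univ, true_and]
    exact ⟨fun a => (h3 e a).imp fun _ b => b.symm, fun ⟨x, b⟩ => b ▸ h2 x⟩
  rw [e, sum_image h1.injOn]

theorem wdeg_add {O W : Finset (Finset V)} (hO : O ⊆ H) (hW : W ⊆ H) (d : Disjoint O W) (v : V) :
    wdeg O v + wdeg W v ≤ wdeg H v := by
  rw [wdeg, wdeg, ← sum_union (s₁ := star O v) (s₂ := star W v) (disjoint_filter_filter d)]
  exact sum_le_sum_of_subset (union_subset (star_mono hO v) (star_mono hW v))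

theorem sum_wdeg (O : Finset (Finset V)) (C : Finset V) :
    ∑ v ∈ C, wdeg O v = ∑ x ∈ O, wt x * (x ∩ C).card := by
  simp only [wdeg_eq_sum]
  rw [sum_comm]
  refine sum_congr rfl fun x _ => ?_
  rw [← sum_filter, filter_mem_eq_inter, inter_comm, sum_const_nat fun _ _ => rfl, mul_comm]

/-- the pieces after the deletion of a star of weight four -/
structure SD (H : Finset (Finset V)) (t : V) (F : Finset (Finset (Finset V))) : Prop where
  q : QH H
  w4 : wdeg H t = 4
  fam : MFam (H \ star H t) F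
  tau : ∑ W ∈ F, tau W + 1 = tau H

/-- the other blocks outside the pieces -/
def ot (H : Finset (Finset V)) (t : V) (F : Finset (Finset (Finset V))) : Finset V :=
  (cov H \ cov (un F)).erase t

/-- the absorbed nodes -/
def ab (H : Finset (Finset V)) (t : V) (F : Finset (Finset (Finset V))) : Finset (Finset V) :=
  (H \ star H t) \ un F

theorem two_le_of_wdeg {t : V} (h : wdeg H t = 4) : 2 ≤ dg H t := by
  have : wdeg H t ≤ dg H t * 2 := by
    rw [dg, ← sum_const_nat (f := fun _ => 2) fun _ _ => rfl]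
    refine sum_le_sum fun e _ => ?_
    unfold wt
    split_ifs <;> omega
  omega

theorem exists_sd (h : QH H) {t : V} (ht : wdeg H t = 4) : ∃ F, SD H t F := by
  obtain ⟨F, a, b⟩ := h.mc.exists_step (t := t) (by have := two_le_of_wdeg ht; omega)
  exact ⟨F, h, ht, a, b⟩

namespace SD

variable {t : V} {F : Finset (Finset (Finset V))}

theorem real (h : SD H t F) : MFam H F := h.fam.mono sdiff_subset Subset.rfl

theorem tn (h : SD H t F) : t ∉ cov (un F) := not_cov_star h.fam Subset.rfl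

theorem out_eq (h : SD H t F) : H \ un F = star H t ∪ ab H t F := by
  ext x
  have := @MFam.un_sub _ _ _ _ h.fam x
  simp only [ab, mem_union, mem_sdiff, mem_star] at this ⊢
  tauto

theorem out_disj (_h : SD H t F) : Disjoint (star H t) (ab H t F) :=
  disjoint_left.2 fun _ a b => (mem_sdiff.1 (mem_sdiff.1 b).1).2 a

theorem out_card (h : SD H t F) : (H \ un F).card = dg H t + (ab H t F).card := by
  rw [h.out_eq, card_union_of_disjoint h.out_disj, dg]

theorem size (h : SD H t F) {x : Finset V} (hx : x ∈ H) :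
    ∑ W ∈ F, C5.dd W x + (if t ∈ x then 1 else 0) + (x ∩ ot H t F).card = x.card := by
  have a := h.fam.size x
  have e : x ∩ ot H t F = (x \ cov (un F)).erase t := by
    ext v
    have : v ∈ x → v ∈ cov H := fun k => mem_cov.2 ⟨x, hx, k⟩
    simp only [ot, mem_inter, mem_erase, mem_sdiff]
    tauto
  rw [e]
  split_ifs with k
  · have := card_erase_add_one (mem_sdiff.2 ⟨k, h.tn⟩)
    omega
  · rw [erase_eq_of_notMem fun m => k (mem_sdiff.1 m).1]
    omega

theorem np_sum (h : SD H t F) :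
    ∑ x ∈ H \ un F, np H x ≤ ((ot H t F).filter fun v => dg H v ≤ 1).card :=
  sum_np_le sdiff_subset fun e he v hv k => mem_filter.2 ⟨mem_erase.2 ⟨fun m => by
    have := two_le_of_wdeg h.w4
    rw [m] at k
    omega, mem_sdiff.2 ⟨mem_cov.2 ⟨e, (mem_sdiff.1 he).1, hv⟩, fun m => by
      obtain ⟨x, x1, x2⟩ := mem_cov.1 m
      exact (mem_sdiff.1 he).2 (card_le_one.1 k x (mem_star.2 ⟨h.real.un_sub x1, x2⟩) e
        (mem_star.2 ⟨(mem_sdiff.1 he).1, hv⟩) ▸ x1)⟩⟩, k⟩

/-- the value of `H`; `N` is the net gain of the other blocks outside the pieces -/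
theorem main (h : SD H t F) : ∃ N : ℤ, ∑ W ∈ F, VH H W + 138 * ws (ab H t F) + N ≤ ValG 50 H ∧
    83 * (ot H t F).card ≤ N ∧ ((ot H t F).card = 1 → 91 ≤ N) ∧
    ((∀ v ∈ ot H t F, 2 ≤ dg H v) → 108 * (ot H t F).card ≤ N) := by
  have a1 := vh_sum h.q.cls h.real
  have a2 : ws (H \ un F) = 4 + ws (ab H t F) := by
    rw [h.out_eq, ws_union h.out_disj, ← h.w4]
    rfl
  have a3 : (ot H t F).card + 1 = (cov H \ cov (un F)).card := card_erase_add_one
    (mem_sdiff.2 ⟨dg_pos.1 (by have := two_le_of_wdeg h.w4; omega), h.tn⟩)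
  have a4 := h.np_sum
  have a5 := card_filter_le (ot H t F) fun v => dg H v ≤ 1
  have a6 : ∑ e ∈ H \ un F, bon 50 H e ≤ 25 * ∑ e ∈ H \ un F, np H e := by
    rw [mul_sum]
    refine sum_le_sum fun e _ => ?_
    unfold bon
    split_ifs <;> omega
  have a7 := h.tau
  refine ⟨108 * (ot H t F).card - (∑ e ∈ H \ un F, bon 50 H e : ℕ), by omega, by omega,
    fun k => ?_, fun k => ?_⟩
  · have : ∑ e ∈ H \ un F, bon 50 H e ≤ 17 * ∑ e ∈ H \ un F, np H e := by
      rw [mul_sum]
      refine sum_le_sum fun e he => ?_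
      have := single_le_sum (f := np H) (fun _ _ => Nat.zero_le _) he
      unfold bon
      split_ifs <;> omega
    omega
  · rw [filter_eq_empty_iff.2 fun v hv c => by have := k v hv; omega, card_empty] at a4
    omega

/-- `u` pieces are nodes of size three, `g` pieces are `E10` -/
theorem counts (h : SD H t F) : ∃ u g : ℕ,
    -46 * (F.card : ℤ) - 14 * u - 26 * g ≤ ∑ W ∈ F, VH H W ∧
    F.card + g + 1 ≤ (H \ un F).card ∧ u + g ≤ F.card ∧
    ((ot H t F).card = 0 → u + g + 1 ≤ F.card ∨ (4 * (H \ un F).card ≤ 6 * u + 10 * g ∧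
      (F3 H → 4 * (H \ un F).card ≤ 3 * u + 10 * g))) := by
  classical
  have hF := h.real
  have d2 := two_le_of_wdeg h.w4
  obtain ⟨x0, hx0⟩ := card_pos.1 (show 0 < (star H t).card by unfold dg at d2; omega)
  have o0 := mem_sdiff.1 (h.out_eq ▸ mem_union_left _ hx0 : x0 ∈ H \ un F)
  have ex : ∀ W : Finset (Finset V), IsU W → U5 W ∧ E10 W → False := fun W a b => by
    obtain ⟨K, k, rfl⟩ := a
    have := b.1 K (mem_singleton_self K)
    omega
  refine ⟨∑ W ∈ F, if IsU W then 1 else 0, ∑ W ∈ F, if U5 W ∧ E10 W then 1 else 0, ?_, ?_, ?_,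
    fun s0 => ?_⟩
  · rw [card_eq_sum_ones]
    push_cast
    rw [mul_sum, mul_sum, mul_sum, ← sum_sub_distrib, ← sum_sub_distrib]
    refine sum_le_sum fun W hW => ?_
    rcases vh_base h.q (hF.mc W hW) (hF.sub W hW) (star_lt (by omega) (h.fam.sub W hW))
      with k | k | k
    · split_ifs <;> omega
    · have := vh_U (H := H) k
      rw [if_pos k]
      split_ifs <;> omega
    · have := vh_E (hF.sub W hW) k.1 k.2
      rw [if_pos k]
      split_ifs <;> omega
  · rw [← card_filter]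
    rcases F.eq_empty_or_nonempty with e | e
    · rw [h.out_card, e, filter_empty, card_empty]
      omega
    · exact h.q.mc.nlemma2 hF (filter_subset _ F) (fun W hW => (mem_filter.1 hW).2.2.pair) e
        ⟨x0, o0⟩ fun x a b _ _ _ => mem_sdiff.2 ⟨a, b⟩
  · rw [card_eq_sum_ones, ← sum_add_distrib]
    refine sum_le_sum fun W _ => ?_
    have := ex W
    split_ifs <;> first | omega | tauto
  by_cases k : ∀ W ∈ F, IsU W ∨ (U5 W ∧ E10 W)
  swap
  · obtain ⟨W, k1, k2⟩ : ∃ W ∈ F, ¬ (IsU W ∨ (U5 W ∧ E10 W)) := by simpa using k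
    left
    rw [card_eq_sum_ones, ← sum_add_distrib]
    refine Nat.succ_le_of_lt (sum_lt_sum (fun W _ => ?_) ⟨W, k1, ?_⟩)
    · have := ex W
      split_ifs <;> first | omega | tauto
    · rw [if_neg fun m => k2 (Or.inl m), if_neg fun m => k2 (Or.inr m)]
      omega
  right
  have b1 : 4 * (H \ un F).card ≤ ∑ W ∈ F, ∑ v ∈ cov W, wdeg (H \ un F) v := by
    rw [← hF.sum_cov, sum_wdeg, mul_comm, ← sum_const_nat (f := fun _ => 4) fun _ _ => rfl]
    refine sum_le_sum fun x hx => ?_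
    have c1 := h.size (mem_sdiff.1 hx).1
    have c2 := (card_le_card (inter_subset_right (s₁ := x))).trans s0.le
    rw [← hF.dd_un, C5.dd] at c1
    rcases h.q.cls.sz x (mem_sdiff.1 hx).1 with m | m
    · rw [wt3 m]
      split_ifs at c1 <;> omega
    · rw [wt5 m]
      split_ifs at c1 <;> omega
  have b2 : ∀ c : ℕ, (∀ K ∈ H, K.card = 3 → ∀ v ∈ K, wdeg H v ≤ c + 2) →
      ∑ W ∈ F, ∑ v ∈ cov W, wdeg (H \ un F) v ≤ 3 * c * (∑ W ∈ F, if IsU W then 1 else 0) +
        10 * ∑ W ∈ F, if U5 W ∧ E10 W then 1 else 0 := fun c hc => by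
    rw [mul_sum, mul_sum, ← sum_add_distrib]
    refine sum_le_sum fun W hW => ?_
    have ad := wdeg_add sdiff_subset (hF.sub W hW)
      (disjoint_left.2 fun x a b => (mem_sdiff.1 a).2 (sub_un hW b))
    rcases k W hW with m | m
    · rw [if_pos m]
      obtain ⟨K, k3, rfl⟩ := m
      have e : cov ({K} : Finset (Finset V)) = K := by simp [cov]
      have : ∑ v ∈ K, wdeg (H \ un F) v ≤ ∑ v ∈ K, c := sum_le_sum fun v hv => by
        have c1 := ad v
        have c2 := hc K (hF.sub _ hW (mem_singleton_self K)) k3 v hv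
        rw [wdeg_eq_sum {K}, sum_singleton, if_pos hv, wt3 k3] at c1
        omega
      rw [sum_const_nat fun _ _ => rfl, k3] at this
      rw [e]
      omega
    · rw [if_pos m]
      have : ∑ v ∈ cov W, wdeg (H \ un F) v ≤ ∑ v ∈ cov W, 1 := sum_le_sum fun v hv => by
        have c1 := ad v
        have c2 := h.q.cls.d4 v
        have c3 := dg_le_wdeg W v
        rw [m.2.d3 v hv] at c3
        omega
      rw [← card_eq_sum_ones, m.2.n10] at this
      omega
  exact ⟨b1.trans (b2 2 fun _ _ _ v _ => h.q.cls.d4 v), fun f => b1.trans (b2 1 f)⟩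

theorem cfg (h : SD H t F) {r k : ℕ} (hr : F.card = r) {q : Fin k → Finset V}
    (q1 : Function.Injective q) (q2 : ∀ x, q x ∈ H \ un F) (q3 : ∀ e ∈ H \ un F, ∃ x, e = q x) :
    ∃ W : Fin r → Finset (Finset V), Cfg H W q ∧ (∀ i, t ∉ cov (W i)) ∧
      ∑ i, VH H (W i) = ∑ W ∈ F, VH H W ∧ ∀ x, ∑ i, C5.dd (W i) (q x) +
        (if t ∈ q x then 1 else 0) + (q x ∩ ot H t F).card = (q x).card := by
  obtain ⟨W, w1, w2, w3⟩ := exists_enum hr
  refine ⟨W, ⟨h.q, fun i => h.fam.mc _ (w2 i), fun i => h.real.sub _ (w2 i),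
    fun i j c => h.fam.sep _ (w2 i) _ (w2 j) (w1.ne c), fun x => (mem_sdiff.1 (q2 x)).1,
    fun x i c => (mem_sdiff.1 (q2 x)).2 (sub_un (w2 i) c), q1, fun e he => ?_, ?_⟩,
    fun i c => h.tn (cov_mono (sub_un (w2 i)) c), sum_enum w1 w2 w3 _, fun x => ?_⟩
  · by_cases c : e ∈ un F
    · obtain ⟨X, a, b⟩ := mem_un.1 c
      obtain ⟨i, rfl⟩ := w3 X a
      exact Or.inl ⟨i, b⟩
    · exact Or.inr (q3 e (mem_sdiff.2 ⟨he, c⟩))
  · rw [sum_enum w1 w2 w3, h.tau]
  · rw [sum_enum w1 w2 w3 fun X => C5.dd X (q x)]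
    exact h.size (mem_sdiff.1 (q2 x)).1

theorem out_star (h : SD H t F) (e : (ab H t F).card = 0) : H \ un F = star H t := by
  rw [h.out_eq, card_eq_zero.1 e, union_empty]

end SD

variable [Infinite V]

omit [Infinite V] in
theorem star33 (h : QH H) (hn : ¬ N33 H) : -46 ≤ ValG 50 H := by
  obtain ⟨K, k1, L, l1, k3, l3, ne, d⟩ : ∃ K ∈ H, ∃ L ∈ H, K.card = 3 ∧ L.card = 3 ∧ K ≠ L ∧
      ¬ Disjoint K L := by
    by_contra c
    exact hn fun K a L b d e f => by_contra fun g => c ⟨K, a, L, b, d, e, f, g⟩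
  obtain ⟨t, t1, t2⟩ := not_disjoint_iff.1 d
  have s : ({K, L} : Finset (Finset V)) ⊆ star H t :=
    insert_subset (mem_star.2 ⟨k1, t1⟩) (singleton_subset_iff.2 (mem_star.2 ⟨l1, t2⟩))
  have e1 : ws (star H t \ {K, L}) + ws {K, L} = wdeg H t := ws_sdiff s
  have e2 := card_sdiff_add_card_eq_card s
  have e3 := card_le_ws (star H t \ {K, L})
  have e4 := h.cls.d4 t
  rw [ws, ws, sum_pair ne, wt3 k3, wt3 l3, ← ws] at e1
  rw [card_pair ne, ← dg] at e2
  obtain ⟨F, f⟩ := exists_sd h (t := t) (by omega)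
  obtain ⟨N, a1, a2, -⟩ := f.main
  obtain ⟨u, g, b1, b2, b3, b4⟩ := f.counts
  have c1 := f.out_card
  have c2 := card_le_ws (ab H t F)
  omega

theorem star355 (h : QH H) (n33 : N33 H) (hn : ¬ F3 H) : -46 ≤ ValG 50 H := by
  obtain ⟨K, k1, k3, t, t1, t2⟩ : ∃ K ∈ H, K.card = 3 ∧ ∃ t ∈ K, ¬ wdeg H t ≤ 3 := by
    by_contra c
    exact hn fun K a b v d => by_contra fun g => c ⟨K, a, b, v, d, g⟩
  have e4 := h.cls.d4 t
  have mK : K ∈ star H t := mem_star.2 ⟨k1, t1⟩
  have five : ∀ x ∈ star H t, x ≠ K → x.card = 5 := fun x hx c =>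
    (h.cls.sz x (mem_star.1 hx).1).resolve_left fun m =>
      disjoint_left.1 (n33 x (mem_star.1 hx).1 K k1 m k3 c) (mem_star.1 hx).2 t1
  have d3 : dg H t = 3 := by
    have e1 := add_sum_erase (star H t) wt mK
    have e2 := card_erase_add_one mK
    rw [sum_const_nat fun x hx => wt5 (five x (mem_of_mem_erase hx) (ne_of_mem_erase hx)), wt3 k3,
      ← wdeg] at e1
    unfold dg
    omega
  obtain ⟨F, f⟩ := exists_sd h (t := t) (by omega)
  obtain ⟨N, a1, a2, -⟩ := f.main
  obtain ⟨u, g, b1, b2, b3, b4⟩ := f.counts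
  have c1 := f.out_card
  have c2 := card_le_ws (ab H t F)
  by_cases k : (ab H t F).card = 0 ∧ (ot H t F).card = 0 ∧ F.card = 2
  swap
  · omega
  have o := f.out_star k.1
  obtain ⟨q, q1, q2, q3, q4⟩ := exists_enum_at (s := H \ un F) (k := 3) (by omega) (o ▸ mK) 0
  obtain ⟨W, w1, w2, w3, w4⟩ := f.cfg k.2.2 q1 q2 q3
  have tq : ∀ x, t ∈ q x := fun x => (mem_star.1 (o ▸ q2 x)).2
  have := q355 w1 n33 tq w2 (q4 ▸ k3) (five _ (o ▸ q2 1) (q4 ▸ q1.ne (by decide)))
    (five _ (o ▸ q2 2) (q4 ▸ q1.ne (by decide))) fun x => by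
      have := w4 x
      rwa [if_pos (tq x), card_eq_zero.1 k.2.1, inter_empty, card_empty, add_zero] at this
  omega

theorem star5555 (h : QH H) (f3 : F3 H) {t : V} (ht : wdeg H t = 4) :
    -46 ≤ ValG 50 H ∨ BadQ H t := by
  have five : ∀ x ∈ star H t, x.card = 5 := fun x hx =>
    (h.cls.sz x (mem_star.1 hx).1).resolve_left fun m => by
      have := f3 x (mem_star.1 hx).1 m t (mem_star.1 hx).2
      omega
  have d4 : dg H t = 4 := by
    rw [wdeg, sum_const_nat fun x hx => wt5 (five x hx)] at ht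
    unfold dg
    omega
  obtain ⟨F, f⟩ := exists_sd h ht
  obtain ⟨N, a1, a2, a3, a4⟩ := f.main
  obtain ⟨u, g, b1, b2, b3, b4⟩ := f.counts
  have b5 := fun k => (b4 k).imp_right fun m => m.2 f3
  have c1 := f.out_card
  have c2 := card_le_ws (ab H t F)
  by_cases k : ws (ab H t F) = 1 ∧ (ot H t F).card = 0 ∧ F.card = 4
  · obtain ⟨y, hy⟩ := card_eq_one.1 (show (ab H t F).card = 1 by omega)
    have my : y ∈ ab H t F := hy ▸ mem_singleton_self y
    have oy : y ∈ H \ un F := f.out_eq ▸ mem_union_right _ my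
    have ty : t ∉ y := fun m =>
      disjoint_left.1 f.out_disj (mem_star.2 ⟨(mem_sdiff.1 oy).1, m⟩) my
    have y5 : y.card = 5 := (h.cls.sz y (mem_sdiff.1 oy).1).resolve_left fun m => by
      have := k.1
      rw [hy, ws, sum_singleton, wt3 m] at this
      omega
    obtain ⟨q, q1, q2, q3, q4⟩ := exists_enum_at (s := H \ un F) (k := 5) (by omega) oy 4
    obtain ⟨W, w1, w2, w3, w4⟩ := f.cfg k.2.2 q1 q2 q3
    have st : ∀ x, x ≠ 4 → q x ∈ star H t := fun x c =>
      (mem_union.1 (f.out_eq ▸ q2 x)).resolve_right fun m =>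
        q1.ne c ((mem_singleton.1 (hy ▸ m)).trans q4.symm)
    simp only [card_eq_zero.1 k.2.1, inter_empty, card_empty, add_zero] at w4
    have := qc w1 f3 (fun x => by
        by_cases c : x = 4
        exacts [c ▸ q4 ▸ y5, five _ (st x c)])
      (fun x => by
        have c1 := f.np_sum
        have c2 := single_le_sum (f := np H) (fun _ _ => Nat.zero_le _) (q2 x)
        rw [card_eq_zero.1 k.2.1, filter_empty, card_empty] at c1
        omega)
      (fun x c => by
        have := w4 x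
        rw [if_pos (mem_star.1 (st x c)).2, five _ (st x c)] at this
        omega)
      (by
        have := w4 4
        rwa [if_neg (q4 ▸ ty), add_zero, show (q 4).card = 5 from q4 ▸ y5] at this)
    omega
  by_cases m : (ab H t F).card = 0 ∧ (((ot H t F).card ≤ 1 ∧ F.card = 3) ∨
    ((ot H t F).card = 0 ∧ F.card = 2))
  swap
  · left
    have c3 : (ab H t F).card = 0 → ws (ab H t F) = 0 := fun e => by
      rw [card_eq_zero.1 e, ws, sum_empty]
    omega
  have o := f.out_star m.1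
  obtain ⟨q, q1, q2, q3⟩ := exists_enum (s := H \ un F) (k := 4) (by omega)
  have tq : ∀ x, t ∈ q x := fun x => (mem_star.1 (o ▸ q2 x)).2
  have q5 : ∀ x, (q x).card = 5 := fun x => five _ (o ▸ q2 x)
  have le : ∀ x, (q x ∩ ot H t F).card ≤ (ot H t F).card := fun x => card_le_card inter_subset_right
  rcases m.2 with n | n
  · obtain ⟨W, w1, w2, w3, w4⟩ := f.cfg n.2 q1 q2 q3
    simp only [if_pos (tq _), q5] at w4
    have := qb w1 f3 tq w2 q5 (N := N) (fun x => by
        have := w4 x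
        have := le x
        omega) (by omega)
      (fun x c => by
        have := w4 x
        have := le x
        omega)
      fun x y xy c d => by
        have c1 := w4 x
        have c2 := w4 y
        obtain ⟨b, hb⟩ := card_pos.1 (show 0 < (q x ∩ ot H t F).card by omega)
        obtain ⟨b', hb'⟩ := card_pos.1 (show 0 < (q y ∩ ot H t F).card by omega)
        have c3 := card_le_one.1 n.1
        have c4 := le x
        have := a4 fun v hv => one_lt_card.2 ⟨q x, mem_star.2 ⟨w1.qm x,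
          c3 b (mem_inter.1 hb).2 v hv ▸ (mem_inter.1 hb).1⟩, q y, mem_star.2 ⟨w1.qm y,
          c3 b' (mem_inter.1 hb').2 v hv ▸ (mem_inter.1 hb').1⟩, q1.ne xy⟩
        omega
    omega
  · obtain ⟨W, w1, w2, w3, w4⟩ := f.cfg n.2 q1 q2 q3
    simp only [if_pos (tq _), q5] at w4
    refine (qa w1 f3 tq w2 q5 fun x => ?_).imp_left fun c => by omega
    have := w4 x
    have := le x
    omega

end Pool.Agent.Work.MP_d266e7_co.Mix
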