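import Pool.Agent.Work.MP_d266e7_co.Full.GMain
import Pool.Agent.Work.MP_d266e7_co.P24Q.QTwoE

/-!
Two pieces and four hosts of size five through a block `t`, all other blocks of the hosts in the
pieces: the covering logic (`C5/Quad.lean`, `P24Q/QTwo.lean`, `P24Q/QTwoE.lean` for mixed sizes).
-/

namespace Pool.Agent.Work.MP_d266e7_co.Mix

open Finset C5 C5.P24

variable {V : Type} [DecidableEq V]

/-- two pieces and four hosts of size five through `t` -/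
structure R2 (H W1 W2 : Finset (Finset V)) (q : Fin 4 → Finset V) (t : V) : Prop where
  cls : Cls H
  mc : MC H
  c1 : MC W1
  c2 : MC W2
  s1 : W1 ⊆ H
  s2 : W2 ⊆ H
  sep : Sep W1 W2
  qmem : ∀ x, q x ∈ H
  qinj : Function.Injective q
  all : ∀ e ∈ H, e ∈ W1 ∨ e ∈ W2 ∨ ∃ x, e = q x
  lt : tau W1 + tau W2 < tau H
  q5 : ∀ x, (q x).card = 5
  qt : ∀ x, t ∈ q x
  t1 : t ∉ cov W1
  t2 : t ∉ cov W2
  hs : ∀ x, C5.dd W1 (q x) + C5.dd W2 (q x) = 4

theorem mc_cover {H A B : Finset (Finset V)} (h : NE H) (hA : A ⊆ H) (hB : B ⊆ H)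
    (hall : ∀ e ∈ H, e ∈ A ∨ e ∈ B) : tau H ≤ tau A + tau B :=
  (tau_mono (h.mono (union_subset hA hB)) fun e he => mem_union.2 (hall e he)).trans
    (tau_union_le (h.mono hA) (h.mono hB))

theorem mhosts_two {W : Finset (Finset V)} {x y : Finset V} (hW : MC W) (h : NJ W x y) :
    C5.dd W x + C5.dd W y ≤ (cov {x, y} ∩ cov W).card := by
  rw [C5.dd, C5.dd, ← card_union_of_disjoint (hW.nj_disjoint h)]
  refine card_le_card fun v hv => ?_
  rcases mem_union.1 hv with hv | hv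
  · exact mem_inter.2 ⟨mem_cov.2 ⟨x, by simp, (mem_inter.1 hv).1⟩, (mem_inter.1 hv).2⟩
  · exact mem_inter.2 ⟨mem_cov.2 ⟨y, by simp, (mem_inter.1 hv).1⟩, (mem_inter.1 hv).2⟩

theorem mgad22 {W H : Finset (Finset V)} {x y z w : Finset V} (hW : MC W) (hs : W ⊆ H)
    (hx : x ∈ H) (hy : y ∈ H) (hz : z ∈ H) (hw : w ∈ H) (hxW : x ∉ W) (hyW : y ∉ W)
    (hzW : z ∉ W) (hwW : w ∉ W) (h1 : NJ W x y) (h2 : NJ W x z) (h3 : NJ W x w) (h4 : NJ W y z)
    (h5 : NJ W y w) (h6 : NJ W z w) : Gad W (dg H) (C5.dd W x + C5.dd W y) (C5.dd W z + C5.dd W w) := by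
  refine hosts_gad (N := {x, y}) (M := {z, w}) hs ?_ ?_ ?_ (mhosts_two hW h1)
    (mhosts_two hW h6) <;> simp only [mem_insert, mem_singleton, forall_eq_or_imp, forall_eq]
  exacts [⟨⟨hx, hxW⟩, hy, hyW⟩, ⟨⟨hz, hzW⟩, hw, hwW⟩, ⟨⟨h2, h3⟩, h4, h5⟩]

namespace R2

variable {H W1 W2 : Finset (Finset V)} {q : Fin 4 → Finset V} {t : V}

theorem symm (h : R2 H W1 W2 q t) : R2 H W2 W1 q t :=
  ⟨h.cls, h.mc, h.c2, h.c1, h.s2, h.s1, h.sep.symm, h.qmem, h.qinj,
    fun e he => or_left_comm.1 (h.all e he), by rw [add_comm]; exact h.lt, h.q5, h.qt, h.t2, h.t1,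
    fun x => (add_comm _ _).trans (h.hs x)⟩

theorem q1 (h : R2 H W1 W2 q t) (x : Fin 4) : q x ∉ W1 := fun k =>
  h.t1 (mem_cov.2 ⟨_, k, h.qt x⟩)

theorem q2 (h : R2 H W1 W2 q t) (x : Fin 4) : q x ∉ W2 := h.symm.q1 x

theorem d4 (h : R2 H W1 W2 q t) (v : V) : dg H v ≤ 4 := (dg_le_wdeg H v).trans (h.cls.d4 v)

theorem split (h : R2 H W1 W2 q t) {x y z w : Fin 4} (h1 : x ≠ y) (h2 : x ≠ z) (h3 : x ≠ w)
    (h4 : y ≠ z) (h5 : y ≠ w) (h6 : z ≠ w) : NJ W1 (q x) (q y) ∨ NJ W2 (q z) (q w) := by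
  by_contra hn
  simp only [NJ, not_or, not_lt] at hn
  have := h.lt
  have := mc_cover h.mc.nes (A := insert (q x) (insert (q y) W1))
    (B := insert (q z) (insert (q w) W2))
    (insert_subset (h.qmem x) (insert_subset (h.qmem y) h.s1))
    (insert_subset (h.qmem z) (insert_subset (h.qmem w) h.s2)) fun e he => by
      rcases h.all e he with a | a | ⟨s, rfl⟩
      · simp [a]
      · simp [a]
      · rcases quad_all x y z w s h1 h2 h3 h4 h5 h6 with rfl | rfl | rfl | rfl <;> simp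
  omega

theorem nb (h : R2 H W1 W2 q t) {x y z w : Fin 4} (h1 : x ≠ y) (h2 : x ≠ z) (h3 : x ≠ w)
    (h4 : y ≠ z) (h5 : y ≠ w) (h6 : z ≠ w) : 1 ≤ C5.dd W2 (q x) + C5.dd W2 (q y) + C5.dd W2 (q z) := by
  by_contra hn
  have := h.mc.nl1 (N := {q w}) h.c2 h.s2 ⟨q w, h.qmem w, h.q2 w⟩ fun e he a b => by
    rcases h.all e he with c | c | ⟨s, rfl⟩
    · have := dd_sep h.sep.symm c
      omega
    · exact absurd c a
    · rcases quad_all x y z w s h1 h2 h3 h4 h5 h6 with rfl | rfl | rfl | rfl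
      · omega
      · omega
      · omega
      · exact mem_singleton_self _
  simp at this

theorem no3 (h : R2 H W1 W2 q t) {x y z w : Fin 4} (h1 : x ≠ y) (h2 : x ≠ z) (h3 : x ≠ w)
    (h4 : y ≠ z) (h5 : y ≠ w) (h6 : z ≠ w) (hw : 1 ≤ C5.dd W2 (q w)) : No3 W1 (q x) (q y) (q z) := by
  rintro C hC hc ⟨a, ha, ha'⟩ ⟨b, hb, hb'⟩ ⟨c, hc1, hc'⟩
  have a1 := h.lt
  have a2 := h.c2.absorb hw
  have a3 := mc_cover h.mc.nes (A := insert (q x) (insert (q y) (insert (q z) W1)))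
    (B := insert (q w) W2)
    (insert_subset (h.qmem x) (insert_subset (h.qmem y) (insert_subset (h.qmem z) h.s1)))
    (insert_subset (h.qmem w) h.s2) fun e he => by
      rcases h.all e he with a | a | ⟨s, rfl⟩
      · simp [a]
      · simp [a]
      · rcases quad_all x y z w s h1 h2 h3 h4 h5 h6 with rfl | rfl | rfl | rfl <;> simp
  have a4 : tau (insert (q x) (insert (q y) (insert (q z) W1))) ≤ C.card := tau_le fun e he => by
    rcases mem_insert.1 he with rfl | he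
    · exact ⟨a, ha, ha'⟩
    rcases mem_insert.1 he with rfl | he
    · exact ⟨b, hb, hb'⟩
    rcases mem_insert.1 he with rfl | he
    · exact ⟨c, hc1, hc'⟩
    · exact hC e he
  omega

theorem mem (h : R2 H W1 W2 q t) (x : Fin 4) {v : V} (hv : v ∈ q x) :
    v = t ∨ v ∈ cov W1 ∨ v ∈ cov W2 := by
  have a1 : insert t (q x ∩ cov W1 ∪ q x ∩ cov W2) ⊆ q x :=
    insert_subset (h.qt x) (union_subset inter_subset_left inter_subset_left)
  have a2 : (insert t (q x ∩ cov W1 ∪ q x ∩ cov W2)).card = 5 := by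
    rw [card_insert_of_notMem (by simp [h.t1, h.t2]), card_union_of_disjoint
      (h.sep.disjoint_cov.mono inter_subset_right inter_subset_right)]
    exact congrArg (· + 1) (h.hs x)
  rw [← eq_of_subset_of_card_le a1 (by rw [a2, h.q5 x])] at hv
  rcases mem_insert.1 hv with e | e
  · exact Or.inl e
  · exact Or.inr ((mem_union.1 e).imp (fun a => (mem_inter.1 a).2) fun a => (mem_inter.1 a).2)

theorem jt (h : R2 H W1 W2 q t) {x y : Fin 4} (n : ¬ NJ W1 (q x) (q y)) : Jt W1 (q x) (q y) := by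
  obtain ⟨C, c1, c2, ⟨v, hv, hv'⟩, w, hw, hw'⟩ :=
    joint_of_not_nj h.c1.nes ⟨t, h.qt x⟩ ⟨t, h.qt y⟩ n
  exact ⟨C, c1, c2, ⟨v, (mem_inter.1 hv).1, hv'⟩, w, (mem_inter.1 hw).1, hw'⟩

theorem gad (h : R2 H W1 W2 q t) {x y : Fin 4} (n : NJ W1 (q x) (q y)) :
    Gad W1 (dg H) (C5.dd W1 (q x)) (C5.dd W1 (q y)) :=
  gad11 h.s1 (h.qmem x) (h.qmem y) (h.q1 x) (h.q1 y) n

/-- two hosts with a common block in the second piece: the others are not joint in the first -/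
theorem nj_of_com (h : R2 H W1 W2 q t) {x y z w : Fin 4} (h1 : x ≠ y) (h2 : x ≠ z) (h3 : x ≠ w)
    (h4 : y ≠ z) (h5 : y ≠ w) (h6 : z ≠ w) {v : V} (hv : v ∈ cov W2) (hz : v ∈ q z)
    (hw : v ∈ q w) : NJ W1 (q x) (q y) :=
  (h.split h1 h2 h3 h4 h5 h6).resolve_right fun k =>
    disjoint_left.1 (h.c2.nj_disjoint k) (mem_inter.2 ⟨hz, hv⟩) (mem_inter.2 ⟨hw, hv⟩)

theorem tau_eq (h : R2 H W1 W2 q t) : tau H = tau W1 + tau W2 + 1 := by
  have a := tau_le_succ (S := H) (A := W1 ∪ W2) (h.mc.nes.mono (union_subset h.s1 h.s2)) t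
    fun e he => by
      rcases h.all e he with k | k | ⟨x, rfl⟩
      exacts [Or.inl (mem_union_left _ k), Or.inl (mem_union_right _ k), Or.inr (h.qt x)]
  have b := tau_union_le h.c1.nes h.c2.nes
  have := h.lt
  omega

theorem disj (h : R2 H W1 W2 q t) : Disjoint W1 W2 := h.sep.disjoint h.c1.nes

theorem eq_un (h : R2 H W1 W2 q t) : H = W1 ∪ W2 ∪ univ.image q := by
  ext e
  simp only [mem_union, mem_image, mem_univ, true_and]
  refine ⟨fun he => ?_, ?_⟩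
  · rcases h.all e he with k | k | ⟨x, rfl⟩
    exacts [Or.inl (Or.inl k), Or.inl (Or.inr k), Or.inr ⟨x, rfl⟩]
  · rintro ((k | k) | ⟨x, rfl⟩)
    exacts [h.s1 k, h.s2 k, h.qmem x]

theorem sum_eq {M : Type} [AddCommMonoid M] (h : R2 H W1 W2 q t) (f : Finset V → M) :
    ∑ e ∈ H, f e = ∑ e ∈ W1, f e + ∑ e ∈ W2, f e + ∑ x, f (q x) := by
  have d : Disjoint (W1 ∪ W2) (univ.image q) := disjoint_left.2 fun e a b => by
    obtain ⟨x, -, rfl⟩ := mem_image.1 b
    exact (mem_union.1 a).elim (h.q1 x) (h.q2 x)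
  rw [← sum_union h.disj, ← sum_image (s := univ) (f := f) fun a _ b _ k => h.qinj k,
    ← sum_union d, ← h.eq_un]

theorem card_eq (h : R2 H W1 W2 q t) : H.card = W1.card + W2.card + 4 := by
  simpa using h.sum_eq (M := ℕ) fun _ => 1

theorem cov_eq (h : R2 H W1 W2 q t) : cov H = insert t (cov W1 ∪ cov W2) := by
  refine Subset.antisymm (fun v hv => ?_) (insert_subset (mem_cov.2 ⟨_, h.qmem 0, h.qt 0⟩)
    (union_subset (cov_mono h.s1) (cov_mono h.s2)))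
  obtain ⟨e, he, a⟩ := mem_cov.1 hv
  rw [mem_insert, mem_union]
  rcases h.all e he with k | k | ⟨x, rfl⟩
  exacts [Or.inr (Or.inl (mem_cov.2 ⟨e, k, a⟩)), Or.inr (Or.inr (mem_cov.2 ⟨e, k, a⟩)),
    h.mem x a]

theorem cov_card (h : R2 H W1 W2 q t) : (cov H).card = (cov W1).card + (cov W2).card + 1 := by
  rw [h.cov_eq, card_insert_of_notMem (by simp [h.t1, h.t2]),
    card_union_of_disjoint h.sep.disjoint_cov]

theorem dg_t (h : R2 H W1 W2 q t) : 4 ≤ dg H t := by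
  have : (univ.image q).card ≤ dg H t := card_le_card fun e he => by
    obtain ⟨x, -, rfl⟩ := mem_image.1 he
    exact mem_star.2 ⟨h.qmem x, h.qt x⟩
  rwa [card_image_of_injective _ h.qinj, card_fin] at this

theorem np_q (h : R2 H W1 W2 q t) (x : Fin 4) : np H (q x) = 0 := np_zero fun v hv => by
  rcases h.mem x hv with rfl | k | k
  · exact le_trans (by omega) h.dg_t
  · have := dg_lt h.s1 (h.qmem x) (h.q1 x) hv
    have := dg_pos.2 k
    omega
  · have := dg_lt h.s2 (h.qmem x) (h.q2 x) hv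
    have := dg_pos.2 k
    omega

theorem V0_eq (h : R2 H W1 W2 q t) : V0 H = V0 W1 + V0 W2 := by
  have a : ws H = ws W1 + ws W2 + 4 := by
    rw [ws, h.sum_eq, sum_const_nat (m := 1) fun x _ => wt5 (h.q5 x)]
    rfl
  rw [Mix.V0_eq h.cls.sz, Mix.V0_eq (Sz.mono h.cls.sz h.s1), Mix.V0_eq (Sz.mono h.cls.sz h.s2), a,
    h.cov_card, h.tau_eq]
  push_cast
  ring

theorem bonus_eq (h : R2 H W1 W2 q t) (β : ℕ) :
    bonus β H = ∑ e ∈ W1, bon β H e + ∑ e ∈ W2, bon β H e := by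
  rw [bonus, h.sum_eq, sum_eq_zero fun x _ => bon_zero (h.np_q x), add_zero]

/-- with an exceptional second piece of six nodes there is a `(3, 3)` gadget on the first -/
theorem gadE (h : R2 H W1 W2 q t) (e2 : E10 W2) : Gad W1 (dg H) 3 3 := by
  have hs := h.hs
  have dis : ∀ x y, x ≠ y → Disjoint (q x ∩ cov W2) (q y ∩ cov W2) := fun x y c =>
    disjoint_left.2 fun v hx hy => by
      have := dg_lt2 h.s2 (h.qmem x) (h.qmem y) (h.qinj.ne c) (h.q2 x) (h.q2 y)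
        (mem_inter.1 hx).1 (mem_inter.1 hy).1
      have := e2.d3 v (mem_inter.1 hx).2
      have := h.d4 v
      omega
  have nj : ∀ x y z w, x ≠ y → x ≠ z → x ≠ w → y ≠ z → y ≠ w → z ≠ w → 1 ≤ C5.dd W2 (q z) →
      1 ≤ C5.dd W2 (q w) → NJ W1 (q x) (q y) := fun x y z w c1 c2 c3 c4 c5 c6 hz hw =>
    (h.split c1 c2 c3 c4 c5 c6).resolve_right (absorb2 e2.pair hz hw)
  have no : ∀ x y z w, x ≠ y → x ≠ z → x ≠ w → y ≠ z → y ≠ w → z ≠ w → 1 ≤ C5.dd W1 (q x) →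
      ∀ i j l, Rain W2 i j l → ¬ (i ≤ C5.dd W2 (q y) ∧ j ≤ C5.dd W2 (q z) ∧ l ≤ C5.dd W2 (q w)) :=
    fun x y z w c1 c2 c3 c4 c5 c6 hx i j l r ⟨k1, k2, k3⟩ => by
      obtain ⟨C, d1, d2, ⟨u1, d3, d4⟩, ⟨u2, d5, d6⟩, u3, d7, d8⟩ := r _ _ _ inter_subset_right
        inter_subset_right inter_subset_right (dis y z c4) (dis y w c5) (dis z w c6) k1 k2 k3
      exact h.symm.no3 c4 c5 c1.symm c6 c2.symm c3.symm hx C d1 d2
        ⟨u1, (mem_inter.1 d3).1, d4⟩ ⟨u2, (mem_inter.1 d5).1, d6⟩ ⟨u3, (mem_inter.1 d7).1, d8⟩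
  by_cases hb : ∀ x, 1 ≤ C5.dd W2 (q x)
  · have h10 : ∑ x, C5.dd W2 (q x) ≤ 10 := by
      rw [← e2.n10]
      exact (card_biUnion fun x _ y _ c => dis x y c).symm.trans_le
        (card_le_card (biUnion_subset.2 fun x _ => inter_subset_right))
    rw [show (univ : Finset (Fin 4)) = {0, 1, 2, 3} from rfl, sum_insert (by decide),
      sum_insert (by decide), sum_pair (by decide), ← add_assoc, ← add_assoc] at h10
    obtain ⟨x, y, z, w, c1, c2, c3, c4, c5, c6, k1, k2⟩ :=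
      twoe_num (a := fun x => C5.dd W1 (q x)) (b := fun x => C5.dd W2 (q x)) hs hb h10
        fun x y z w c1 c2 c3 c4 c5 c6 hx => ⟨no x y z w c1 c2 c3 c4 c5 c6 hx _ _ _ e2.r222,
          fun k => no x y z w c1 c2 c3 c4 c5 c6 hx _ _ _ e2.r144 ⟨hb y, k⟩⟩
    have n : ∀ x y, x ≠ y → NJ W1 (q x) (q y) := fun x y c => by
      obtain ⟨z, w, c2, c3, c4, c5, c6⟩ := qtwoe_rest2 x y c
      exact nj x y z w c c2 c3 c4 c5 c6 (hb z) (hb w)
    exact (mgad22 h.c1 h.s1 (h.qmem x) (h.qmem y) (h.qmem z) (h.qmem w) (h.q1 x) (h.q1 y) (h.q1 z)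
      (h.q1 w) (n x y c1) (n x z c2) (n x w c3) (n y z c4) (n y w c5) (n z w c6)).mono
      (by omega) k2
  · obtain ⟨x, hx⟩ := not_forall.1 hb
    have hb' : ∀ y, x ≠ y → 1 ≤ C5.dd W2 (q y) := fun y c => by
      obtain ⟨z, w, c2, c3, c4, c5, c6⟩ := qtwoe_rest2 x y c
      by_contra hy
      have hu : un {W2} = W2 := by simp [un]
      have := h.mc.nlemma2 (N := {q z, q w}) (F := {W2}) (G := {W2}) (mfam_one h.c2 h.s2)
        subset_rfl (fun W' k => mem_singleton.1 k ▸ e2.pair) (singleton_nonempty _)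
        ⟨q x, h.qmem x, hu.symm ▸ h.q2 x⟩ fun e he k1 W' k2 k3 => by
          rw [mem_singleton.1 k2] at k3
          rcases h.all e he with m | m | ⟨s, rfl⟩
          · have := dd_sep h.sep.symm m
            omega
          · exact absurd m (hu ▸ k1)
          · rcases quad_all x y z w s c c2 c3 c4 c5 c6 with rfl | rfl | rfl | rfl
            · exact absurd k3 hx
            · exact absurd k3 hy
            · simp
            · simp
      have := card_le_two (a := q z) (b := q w)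
      simp only [card_singleton] at *
      omega
    have sx := hs x
    obtain ⟨y, c, hy⟩ : ∃ y, x ≠ y ∧ C5.dd W2 (q y) ≤ 1 := by
      obtain ⟨y, z, w, c1, c2, c3, c4, c5, c6⟩ := qtwoe_rest x
      have := no x y z w c1 c2 c3 c4 c5 c6 (by omega) _ _ _ e2.r222
      by_cases k : C5.dd W2 (q y) ≤ 1
      · exact ⟨y, c1, k⟩
      by_cases k' : C5.dd W2 (q z) ≤ 1
      · exact ⟨z, c2, k'⟩
      · exact ⟨w, c3, by omega⟩
    obtain ⟨z, w, c2, c3, c4, c5, c6⟩ := qtwoe_rest2 x y c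
    have sy := hs y
    exact (h.gad (nj x y z w c c2 c3 c4 c5 c6 (hb' z c2) (hb' w c3))).mono (by omega) (by omega)

end R2

end Pool.Agent.Work.MP_d266e7_co.Mix
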