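import Pool.Agent.Work.MP_d266e7_co.Full.GDefs
import Pool.Agent.Work.MP_d266e7_co.Full.MixOps

/-!
The value without prices `VB = V0 - bonus`: additivity over pieces, comparison of a family with a
family made from it, the cost of the pieces, transfer of priced sets.
-/

namespace Pool.Agent.Work.MP_d266e7_co.Mix

open Finset C5 C5.P24

variable {V : Type} [DecidableEq V]

/-- nodes of size three or five -/
def Sz (G : Finset (Finset V)) : Prop := ∀ e ∈ G, e.card = 3 ∨ e.card = 5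

/-- total weight -/
def ws (G : Finset (Finset V)) : ℕ := ∑ e ∈ G, wt e

/-- the value without prices -/
noncomputable def VB (β : ℕ) (G : Finset (Finset V)) : ℤ := V0 G - bonus β G

variable {β : ℕ} {G H X : Finset (Finset V)}

omit [DecidableEq V] in
theorem Sz.mono (h : Sz H) (s : X ⊆ H) : Sz X := fun e he => h e (s he)

theorem valG_eq : ValG β G = VB β G + 13 * piG G := by
  unfold ValG VB
  ring

theorem valC_eq : ValC β G = VB β G + 13 * piC G := by
  unfold ValC VB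
  ring

omit [DecidableEq V] in
theorem wt3 {e : Finset V} (h : e.card = 3) : wt e = 2 := if_pos h

omit [DecidableEq V] in
theorem wt5 {e : Finset V} (h : e.card = 5) : wt e = 1 := if_neg (by omega)

omit [DecidableEq V] in
theorem wt_pos (e : Finset V) : 1 ≤ wt e := by
  unfold wt
  split_ifs <;> omega

omit [DecidableEq V] in
theorem card_le_ws (G : Finset (Finset V)) : G.card ≤ ws G := by
  rw [card_eq_sum_ones]
  exact sum_le_sum fun e _ => wt_pos e

theorem ws_insert {x : Finset V} (h : x ∉ G) : ws (insert x G) = wt x + ws G := sum_insert h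

theorem ws_sdiff (s : X ⊆ H) : ws (H \ X) + ws X = ws H := sum_sdiff s

omit [DecidableEq V] in
theorem ws_mono (s : X ⊆ H) : ws X ≤ ws H := sum_le_sum_of_subset s

theorem ws_union (h : Disjoint X H) : ws (X ∪ H) = ws X + ws H := sum_union h

theorem dg_le_wdeg (G : Finset (Finset V)) (v : V) : dg G v ≤ wdeg G v := card_le_ws _

omit [DecidableEq V] in
theorem ws_eq (h : Sz G) : ws G = ek G 5 + 2 * ek G 3 := by
  rw [ek, ek, card_filter, card_filter, mul_sum, ← sum_add_distrib]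
  refine sum_congr rfl fun e he => ?_
  rcases h e he with k | k <;> simp [wt, k]

theorem V0_eq (h : Sz G) : V0 G = 138 * ws G + 108 * (cov G).card - 660 * tau G := by
  rw [V0, ws_eq h]
  push_cast
  ring

theorem np_le {e : Finset V} (h : ∀ v ∈ e, dg X v ≤ dg H v) : np H e ≤ np X e :=
  card_le_card fun v hv =>
    mem_filter.2 ⟨(mem_filter.1 hv).1, (h v (mem_filter.1 hv).1).trans (mem_filter.1 hv).2⟩

theorem np_pos {e : Finset V} {v : V} (hv : v ∈ e) (h : dg G v ≤ 1) : 1 ≤ np G e :=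
  card_pos.2 ⟨v, mem_filter.2 ⟨hv, h⟩⟩

theorem two_le_dg {e : Finset V} (h : np G e = 0) {v : V} (hv : v ∈ e) : 2 ≤ dg G v := by
  by_contra c
  have := np_pos hv (G := G) (by omega)
  omega

theorem np_zero {e : Finset V} (h : ∀ v ∈ e, 2 ≤ dg G v) : np G e = 0 :=
  card_eq_zero.2 (filter_eq_empty_iff.2 fun v hv c => by have := h v hv; omega)

theorem bon_anti (hβ : 17 ≤ β) {e : Finset V} (h : np H e ≤ np X e) : bon β H e ≤ bon β X e := by
  unfold bon
  split_ifs <;> omega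

theorem bon_le (hβ : β ≤ 216) (e : Finset V) : bon β H e ≤ 108 * np H e := by
  unfold bon
  split_ifs <;> omega

theorem bon_zero {e : Finset V} (h : np H e = 0) : bon β H e = 0 := by
  unfold bon
  split_ifs <;> omega

theorem bon_three {e : Finset V} (h : e.card = 3) : bon β H e = 0 := if_neg (by omega)

theorem bon_ge (hβ : 17 ≤ β) {e : Finset V} (h5 : e.card = 5) (h : 1 ≤ np H e) :
    17 ≤ bon β H e := by
  unfold bon
  split_ifs <;> omega

/-- the private blocks of the nodes of `R` are different -/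
theorem sum_np_le {R : Finset (Finset V)} (hR : R ⊆ H) {Z : Finset V}
    (h : ∀ e ∈ R, ∀ v ∈ e, dg H v ≤ 1 → v ∈ Z) : ∑ e ∈ R, np H e ≤ Z.card := by
  have a : (R.biUnion fun e => e.filter fun v => dg H v ≤ 1).card = ∑ e ∈ R, np H e :=
    card_biUnion fun e he f hf c => disjoint_left.2 fun v h1 h2 => by
      obtain ⟨a1, a2⟩ := mem_filter.1 h1
      exact c (card_le_one.1 a2 e (mem_star.2 ⟨hR he, a1⟩) f
        (mem_star.2 ⟨hR hf, (mem_filter.1 h2).1⟩))
  refine a ▸ card_le_card fun v hv => ?_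
  obtain ⟨e, he, k⟩ := mem_biUnion.1 hv
  exact h e he v (mem_filter.1 k).1 (mem_filter.1 k).2

theorem _root_.Pool.Agent.Work.MP_d266e7_co.C5.P24.MFam.dg_un
    {F : Finset (Finset (Finset V))} (h : MFam H F) {W : Finset (Finset V)} (hW : W ∈ F) {v : V}
    (hv : v ∈ cov W) : dg (un F) v = dg W v := congrArg card (h.star_un hW hv)

theorem _root_.Pool.Agent.Work.MP_d266e7_co.C5.P24.MFam.np_un
    {F : Finset (Finset (Finset V))} (h : MFam H F) {W : Finset (Finset V)} (hW : W ∈ F)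
    {e : Finset V} (he : e ∈ W) : np (un F) e = np W e :=
  congrArg card (filter_congr fun v hv => by rw [h.dg_un hW (mem_cov.2 ⟨e, he, hv⟩)])

/-- additivity over pieces -/
theorem _root_.Pool.Agent.Work.MP_d266e7_co.C5.P24.MFam.vb_un
    {F : Finset (Finset (Finset V))} (h : MFam H F) : VB β (un F) = ∑ W ∈ F, VB β W := by
  have b : bonus β (un F) = ∑ W ∈ F, bonus β W := by
    rw [bonus, h.sum_un]
    exact sum_congr rfl fun W hW => sum_congr rfl fun e he => by rw [bon, bon, h.np_un hW he]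
  simp only [VB, V0, ek, b, h.card_filter, h.cov_un, h.tau_un, sum_sub_distrib, sum_add_distrib,
    ← mul_sum]
  push_cast
  rfl

/-- priced sets of different pieces are different -/
theorem _root_.Pool.Agent.Work.MP_d266e7_co.C5.P24.MFam.sum_card_le
    {F : Finset (Finset (Finset V))} (h : MFam H F) (g : Finset (Finset V) → Finset (Finset V))
    (h1 : ∀ W ∈ F, ∀ K ∈ g W, K ⊆ cov W ∧ K.card = 3) {P : Finset (Finset V)}
    (h2 : ∀ W ∈ F, g W ⊆ P) : ∑ W ∈ F, (g W).card ≤ P.card := by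
  rw [← card_biUnion fun W a W' b c => disjoint_left.2 fun K k1 k2 => by
    obtain ⟨v, hv⟩ := card_pos.1 (show 0 < K.card by rw [(h1 W a K k1).2]; omega)
    exact c (h.eq_of_mem a b ((h1 W a K k1).1 hv) ((h1 W' b K k2).1 hv))]
  exact card_le_card (biUnion_subset.2 h2)

theorem _root_.Pool.Agent.Work.MP_d266e7_co.C5.P24.MFam.piG_le
    {F : Finset (Finset (Finset V))} (h : MFam H F) {P : Finset (Finset V)}
    (h2 : ∀ W ∈ F, ∀ K, GP W K → K ∈ P) : ∑ W ∈ F, piG W ≤ P.card :=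
  h.sum_card_le gps (fun _ _ _ k => ⟨(mem_gps.1 k).sub, (mem_gps.1 k).card⟩)
    fun W a K k => h2 W a K (mem_gps.1 k)

theorem _root_.Pool.Agent.Work.MP_d266e7_co.C5.P24.MFam.piC_le
    {F : Finset (Finset (Finset V))} (h : MFam H F) {P : Finset (Finset V)}
    (h2 : ∀ W ∈ F, ∀ K, CP W K → K ∈ P) : ∑ W ∈ F, piC W ≤ P.card :=
  h.sum_card_le cps (fun _ _ _ k => ⟨(mem_cps.1 k).gp.sub, (mem_cps.1 k).gp.card⟩)
    fun W a K k => h2 W a K (mem_cps.1 k)

/-- The comparison of `H` with a family `X` made from it. `P`: nodes that get a private block,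
`Q`: vanished blocks that were not private. -/
theorem vb_dom (h1 : 17 ≤ β) (h2 : β ≤ 216) (sH : Sz H) (sX : Sz X)
    (hd : ∀ v ∈ cov H, dg X v ≤ dg H v)
    (hn : ∀ x ∈ X, x ∉ H → ∀ v ∈ x, v ∈ cov H → 2 ≤ dg H v) {P : Finset (Finset V)}
    (hP : ∀ e ∈ P, e ∈ X ∧ e.card = 5 ∧ (e ∈ H → np H e = 0) ∧ 1 ≤ np X e) {Q : Finset V}
    (hQ : ∀ v ∈ Q, v ∉ cov X ∧ 2 ≤ dg H v) :
    VB β X + 138 * ws H + 108 * Q.card + 17 * P.card + 660 * tau X ≤
      VB β H + 138 * ws X + 108 * (cov X \ cov H).card + 660 * tau H := by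
  obtain ⟨Z, hZ⟩ : ∃ Z, Z = (cov H \ cov X).filter fun v => dg H v ≤ 1 := ⟨_, rfl⟩
  have a1 : ∑ e ∈ H \ X, bon β H e ≤ 108 * Z.card := by
    refine (sum_le_sum fun e _ => bon_le h2 e).trans ?_
    rw [← mul_sum]
    refine Nat.mul_le_mul_left _ (sum_np_le sdiff_subset fun e he v hv k => ?_)
    have c : v ∈ cov H := mem_cov.2 ⟨e, (mem_sdiff.1 he).1, hv⟩
    refine hZ ▸ mem_filter.2 ⟨mem_sdiff.2 ⟨c, fun m => ?_⟩, k⟩
    obtain ⟨x, x1, x2⟩ := mem_cov.1 m
    by_cases d : x ∈ H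
    · exact (mem_sdiff.1 he).2 (card_le_one.1 k x (mem_star.2 ⟨d, x2⟩) e
        (mem_star.2 ⟨(mem_sdiff.1 he).1, hv⟩) ▸ x1)
    · have := hn x x1 d v x2 c
      omega
  have a2 : ∑ e ∈ X ∩ H, bon β H e + 17 * P.card ≤ bonus β X := by
    have b1 : ∑ e ∈ X ∩ H, bon β H e = ∑ e ∈ X, if e ∈ H then bon β H e else 0 := by
      rw [← sum_filter, filter_mem_eq_inter]
    have b2 : 17 * P.card = ∑ e ∈ X, if e ∈ P then 17 else 0 := by
      rw [← sum_filter, filter_mem_eq_inter, inter_eq_right.2 fun e he => (hP e he).1,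
        sum_const_nat fun _ _ => rfl, mul_comm]
    rw [b1, b2, ← sum_add_distrib]
    refine sum_le_sum fun e _ => ?_
    by_cases k : e ∈ P
    · have := bon_ge h1 (hP e k).2.1 (hP e k).2.2.2
      by_cases k' : e ∈ H
      · rw [if_pos k, if_pos k', bon_zero ((hP e k).2.2.1 k')]
        omega
      · rw [if_pos k, if_neg k']
        omega
    · by_cases k' : e ∈ H
      · rw [if_neg k, if_pos k']
        exact bon_anti h1 (np_le fun v hv => hd v (mem_cov.2 ⟨e, k', hv⟩))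
      · rw [if_neg k, if_neg k']
        omega
  have a3 : bonus β H = ∑ e ∈ X ∩ H, bon β H e + ∑ e ∈ H \ X, bon β H e := by
    rw [bonus, ← sum_sdiff (inter_subset_right : X ∩ H ⊆ H), sdiff_inter_self_right, add_comm]
  have a4 : Q.card + Z.card ≤ (cov H \ cov X).card := by
    rw [← card_union_of_disjoint (disjoint_left.2 fun v a b => by
      have := (hQ v a).2
      have := (mem_filter.1 (hZ ▸ b)).2
      omega)]
    refine card_le_card (union_subset (fun v a => ?_) (hZ ▸ filter_subset _ _))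
    exact mem_sdiff.2 ⟨dg_pos.1 (by have := (hQ v a).2; omega), (hQ v a).1⟩
  have a5 := card_sdiff_add_card_inter (cov H) (cov X)
  have a6 := card_sdiff_add_card_inter (cov X) (cov H)
  rw [inter_comm] at a6
  rw [VB, VB, V0_eq sH, V0_eq sX]
  omega

/-- comparison with a subfamily -/
theorem vb_sub (h1 : 17 ≤ β) (h2 : β ≤ 216) (sH : Sz H) (s : X ⊆ H) {P : Finset (Finset V)}
    (hP : ∀ e ∈ P, e ∈ X ∧ e.card = 5 ∧ np H e = 0 ∧ 1 ≤ np X e) {Q : Finset V}
    (hQ : ∀ v ∈ Q, v ∉ cov X ∧ 2 ≤ dg H v) :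
    VB β X + 138 * ws (H \ X) + 108 * Q.card + 17 * P.card + 660 * tau X ≤
      VB β H + 660 * tau H := by
  have a := vb_dom h1 h2 sH (sH.mono s) (fun v _ => dg_mono s v) (fun x a b => absurd (s a) b)
    (fun e he => ⟨(hP e he).1, (hP e he).2.1, fun _ => (hP e he).2.2.1, (hP e he).2.2.2⟩) hQ
  rw [sdiff_eq_empty_iff_subset.2 (cov_mono s), card_empty] at a
  have := ws_sdiff s
  omega

/-- deletion of the star of `t`: pieces `F`, absorbed nodes `(H \ star H t) \ un F` -/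
theorem vb_star (h1 : 17 ≤ β) (h2 : β ≤ 216) (sH : Sz H) {t : V} {F : Finset (Finset (Finset V))}
    (hF : MFam (H \ star H t) F) (ht : ∑ W ∈ F, tau W + 1 = tau H) {P : Finset (Finset V)}
    (hP : ∀ e ∈ P, e ∈ un F ∧ e.card = 5 ∧ np H e = 0 ∧ 1 ≤ np (un F) e) {Q : Finset V}
    (hQ : ∀ v ∈ Q, v ∉ cov (un F) ∧ 2 ≤ dg H v) :
    ∑ W ∈ F, VB β W + 138 * ws ((H \ star H t) \ un F) + 138 * wdeg H t + 108 * Q.card +
      17 * P.card ≤ VB β H + 660 := by
  have a := vb_sub h1 h2 sH (hF.un_sub.trans sdiff_subset) hP hQ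
  have b1 := ws_sdiff (hF.un_sub.trans sdiff_subset)
  have b2 := ws_sdiff hF.un_sub
  have b3 : ws (H \ star H t) + wdeg H t = ws H := ws_sdiff (filter_subset _ _)
  rw [hF.vb_un, hF.tau_un] at a
  omega

/-- bonus of a family whose nodes with private blocks lie in one of two dominated families -/
theorem bonus_two (h1 : 17 ≤ β) {X Y : Finset (Finset V)} (hX : ∀ v ∈ cov H, dg X v ≤ dg H v)
    (hY : ∀ v ∈ cov H, dg Y v ≤ dg H v) (hall : ∀ e ∈ H, e ∈ X ∨ e ∈ Y ∨ np H e = 0)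
    {P : Finset (Finset V)}
    (hP : ∀ e ∈ P, e ∈ X ∧ e.card = 5 ∧ (e ∈ H → np H e = 0) ∧ 1 ≤ np X e) :
    bonus β H + 17 * P.card ≤ bonus β X + bonus β Y := by
  have s : P ⊆ X := fun e he => (hP e he).1
  have a1 : 17 * P.card ≤ ∑ e ∈ P, bon β X e := by
    rw [mul_comm, ← sum_const_nat (f := fun _ => 17) fun _ _ => rfl]
    exact sum_le_sum fun e he => bon_ge h1 (hP e he).2.1 (hP e he).2.2.2
  have a2 : ∑ e ∈ X \ P, bon β X e + ∑ e ∈ P, bon β X e = bonus β X := sum_sdiff s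
  have a3 : bonus β H ≤ ∑ e ∈ X \ P, bon β X e + bonus β Y := by
    have b1 : ∀ (Z : Finset (Finset V)) (f : Finset V → ℕ),
        ∑ e ∈ H, (if e ∈ Z then f e else 0) ≤ ∑ e ∈ Z, f e := fun Z f => by
      rw [← sum_filter]
      exact sum_le_sum_of_subset fun e he => (mem_filter.1 he).2
    refine le_trans ?_ (Nat.add_le_add (b1 _ _) (b1 _ _))
    rw [← sum_add_distrib]
    refine sum_le_sum fun e he => ?_
    by_cases k : np H e = 0
    · rw [bon_zero k]
      omega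
    rcases hall e he with m | m | m
    · rw [if_pos (mem_sdiff.2 ⟨m, fun c => k ((hP e c).2.2.1 he)⟩)]
      exact (bon_anti h1 (np_le fun v hv => hX v (mem_cov.2 ⟨e, he, hv⟩))).trans
        (Nat.le_add_right _ _)
    · rw [if_pos m]
      exact (bon_anti h1 (np_le fun v hv => hY v (mem_cov.2 ⟨e, he, hv⟩))).trans
        (Nat.le_add_left _ _)
    · exact absurd m k
  omega

theorem IsU.vb (h : IsU G) : VB β G = -60 := by
  obtain ⟨K, k, rfl⟩ := h
  have s : Sz ({K} : Finset (Finset V)) := fun e he => Or.inl (mem_singleton.1 he ▸ k)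
  have c : cov ({K} : Finset (Finset V)) = K := by simp [cov]
  rw [VB, V0_eq s, ws, bonus, sum_singleton, sum_singleton, wt3 k, bon_three k, c, k,
    tau_singleton (card_pos.1 (by omega))]
  norm_num

theorem vb_E10 (u : U5 G) (h : E10 G) : VB β G = -72 := by
  have b : bonus β G = 0 := sum_eq_zero fun e he => bon_zero (np_zero fun v hv => by
    rw [h.d3 v (mem_cov.2 ⟨e, he, hv⟩)]
    omega)
  have w : ws G = 6 := by
    rw [ws, sum_const_nat fun e he => wt5 (u e he), h.m6]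
  rw [VB, V0_eq fun e he => Or.inr (u e he), b, w, h.n10, h.t3]
  norm_num

omit [DecidableEq V] in
theorem IsU.not5 (h : IsU G) {e : Finset V} (he : e ∈ G) (h5 : e.card = 5) : False := by
  obtain ⟨K, k, rfl⟩ := h
  rw [mem_singleton.1 he] at h5
  omega

omit [DecidableEq V] in
theorem IsU.eq (h : IsU G) {e f : Finset V} (he : e ∈ G) (hf : f ∈ G) : e = f := by
  obtain ⟨K, -, rfl⟩ := h
  rw [mem_singleton.1 he, mem_singleton.1 hf]

/-- a family with a node of size five and a block of degree at most two is no exception -/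
theorem not_exc {e : Finset V} (he : e ∈ G) (h5 : e.card = 5) {v : V} (hv : v ∈ cov G)
    (hd : dg G v ≤ 2) : ¬ (IsU G ∨ (U5 G ∧ E10 G)) := by
  rintro (h | ⟨-, h⟩)
  · exact h.not5 he h5
  · have := h.d3 v hv
    omega

/-- a family with a node of size three and another node is no exception -/
theorem not_exc3 {e f : Finset V} (he : e ∈ G) (h3 : e.card = 3) (hf : f ∈ G) (hne : f ≠ e) :
    ¬ (IsU G ∨ (U5 G ∧ E10 G)) := by
  rintro (h | ⟨h, -⟩)
  · exact hne (h.eq hf he)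
  · have := h e he
    omega

theorem GOk.ge60 (h : GOk β G) : -60 ≤ ValG β G ∨ (U5 G ∧ E10 G ∧ -72 ≤ ValG β G) := by
  rw [GOk, valG_eq] at h
  rw [valG_eq]
  rcases h with h | h | h
  · omega
  · rw [h.vb]
    omega
  · refine Or.inr ⟨h.1, h.2, ?_⟩
    rw [vb_E10 h.1 h.2]
    omega

theorem COk.ge60 (h : COk β G) : -60 ≤ ValC β G ∨ (U5 G ∧ E10 G ∧ -72 ≤ ValC β G) := by
  rw [COk, valC_eq] at h
  rw [valC_eq]
  rcases h with h | h | h
  · omega
  · rw [h.vb]
    omega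
  · refine Or.inr ⟨h.1, h.2, ?_⟩
    rw [vb_E10 h.1 h.2]
    omega

/-- the cost of real pieces with hosts in `N` -/
theorem cost_le (hH : MC H) {F : Finset (Finset (Finset V))} (hF : MFam H F)
    (hx : ∃ x ∈ H, x ∉ un F) {N : Finset (Finset V)}
    (hN : ∀ x ∈ H, x ∉ un F → ∀ W ∈ F, 1 ≤ C5.dd W x → x ∈ N) (f : Finset (Finset V) → ℤ)
    (hf : ∀ W ∈ F, -60 ≤ f W ∨ (Abs2 W ∧ -120 ≤ f W)) :
    F = ∅ ∨ (F.card + 1 ≤ N.card ∧ 60 - 60 * (N.card : ℤ) ≤ ∑ W ∈ F, f W) := by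
  classical
  rcases F.eq_empty_or_nonempty with h | h
  · exact Or.inl h
  have a := hH.nlemma2 hF (filter_subset Abs2 F) (fun W hW => (mem_filter.1 hW).2) h hx hN
  refine Or.inr ⟨by omega, ?_⟩
  have b : ∑ W ∈ F, (-60 - if Abs2 W then 60 else 0 : ℤ) ≤ ∑ W ∈ F, f W :=
    sum_le_sum fun W hW => by
      rcases hf W hW with k | k
      · split_ifs <;> omega
      · rw [if_pos k.1]
        omega
  rw [sum_sub_distrib, ← sum_filter, sum_const, sum_const] at b
  simp only [nsmul_eq_mul] at b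
  change _ - ((filter Abs2 F).card : ℤ) * 60 ≤ _ at b
  omega

theorem GOk.cost (h : GOk β G) : -60 ≤ ValG β G ∨ (Abs2 G ∧ -120 ≤ ValG β G) :=
  h.ge60.imp_right fun k => ⟨k.2.1.pair, by have := k.2.2; omega⟩

/-- `X` is made from `H` without new pairs and witnesses -/
structure Dom (H X : Finset (Finset V)) : Prop where
  mem : ∀ e ∈ X, e.card = 5 → np X e = 0 → e ∈ H
  wit : ∀ y ∈ X, y.card = 5 → ∃ y' ∈ H, y'.card = 5 ∧ ∀ v ∈ y, 2 ≤ dg X v → v ∈ y'
  dg : ∀ v, 2 ≤ dg X v → dg X v ≤ dg H v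

theorem dom_of_sub (s : X ⊆ H) : Dom H X :=
  ⟨fun _ a _ _ => s a, fun y a b => ⟨y, s a, b, fun _ c _ => c⟩, fun v _ => dg_mono s v⟩

theorem Pr.dg2 {c w : Finset V} (h : Pr G c w) {v : V} (hv : v ∈ c ∨ v ∈ w) : 2 ≤ dg G v :=
  hv.elim (two_le_dg h.nc) (two_le_dg h.nw)

theorem Pr.pend_iff {c w : Finset V} (h : Pr G c w) : Pend G c w ↔ ∀ s ∈ c ∩ w, dg G s ≤ 2 := by
  refine forall₂_congr fun s hs => ⟨fun k => ?_, fun k => ?_⟩
  · rw [dg, k]
    exact card_le_two
  · refine (eq_of_subset_of_card_le (insert_subset (mem_star.2 ⟨h.mc, (mem_inter.1 hs).1⟩)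
      (singleton_subset_iff.2 (mem_star.2 ⟨h.mw, (mem_inter.1 hs).2⟩))) ?_).symm
    rwa [card_pair h.ne]

theorem Dom.pr (h : Dom H X) {c w : Finset V} (p : Pr X c w) : Pr H c w :=
  ⟨h.mem c p.mc p.c5 p.nc, h.mem w p.mw p.w5 p.nw, p.c5, p.w5, p.i3,
    np_zero fun v hv => (p.dg2 (Or.inl hv)).trans (h.dg v (p.dg2 (Or.inl hv))),
    np_zero fun v hv => (p.dg2 (Or.inr hv)).trans (h.dg v (p.dg2 (Or.inr hv)))⟩

theorem Dom.trc (h : Dom H X) {c w : Finset V} (p : Trc X c w) : Trc H c w := by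
  obtain ⟨p, y, y1, y2, y3⟩ := p
  obtain ⟨y', a, b, d⟩ := h.wit y y1 y2
  exact ⟨h.pr p, y', a, b, fun v hv => d v (y3 hv)
    (p.dg2 ((mem_sd.1 hv).imp And.left And.right))⟩

theorem Dom.pend (h : Dom H X) {c w : Finset V} (p : Pr X c w) (k : Pend H c w) : Pend X c w :=
  p.pend_iff.2 fun s hs => (h.dg s (p.dg2 (Or.inl (mem_inter.1 hs).1))).trans
    ((h.pr p).pend_iff.1 k s hs)

theorem Dom.lk (h : Dom H X) {K : Finset V} (k : Lk X K) : Lk H K := by
  obtain ⟨p, q, a, b⟩ := k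
  exact ⟨p, q, h.pr a, b⟩

theorem Dom.lkN (h : Dom H X) {K : Finset V} (k : LkN X K) : LkN H K := by
  obtain ⟨p, q, a, b, c⟩ := k
  exact ⟨p, q, h.pr a, fun d => b (h.pend a d), c⟩

theorem Dom.gp (h : Dom H X) {K : Finset V} (k : GP X K) : GP H K ∨ (K ∈ X ∧ K ∉ H) := by
  rcases k with ⟨c, w, a, b⟩ | ⟨a, b, c⟩
  · exact Or.inl (Or.inl ⟨c, w, h.trc a, b⟩)
  · by_cases d : K ∈ H
    · exact Or.inl (Or.inr ⟨d, b, h.lkN c⟩)
    · exact Or.inr ⟨a, d⟩

end Pool.Agent.Work.MP_d266e7_co.Mix
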