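import Pool.Agent.Work.MP_d266e7_co.P24Q.QThree

/-!
`t1p`: the bound `VB _ 5` for maximum degree four. Removing a vertex of degree four gains eight,
so only three pieces and four hosts without further vertices need a gain (two), which comes from
the case analysis `abs3Q` as in `side3Q`.
-/

namespace Pool.Agent.Work.MP_d266e7_co.C5.P24

open Finset

variable {V : Type} [DecidableEq V]

/-- `VB _ 5` for all families of size at most `k` -/
def IHP (V : Type) [DecidableEq V] (k : ℕ) : Prop :=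
  ∀ X : Finset (Finset V), X.card ≤ k → CC X → (∀ v, dg X v ≤ 4) → VB X 5

/-- the bound for a piece with gain `g`; the traces of `H` inside `Y` are counted -/
def PP (H W Y : Finset (Finset V)) (g : ℕ) : Prop :=
  27 * tau W + tt W (dg H) + g ≤ 8 * W.card + 3 * (cov W).card + hi H Y + 5

theorem pp_zero {k : ℕ} (hU : IHP V k) {H W : Finset (Finset V)} (hk : W.card ≤ k) (hW : CC W)
    (hs : W ⊆ H) (h4 : ∀ v, dg H v ≤ 4) : PP H W W 0 := by
  have h1 : VB W 5 := hU W hk hW fun v => (dg_mono hs v).trans (h4 v)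
  have h2 : tt W (dg H) ≤ tt W (dg W) := tt_mono fun v _ => dg_mono hs v
  have h3 : hi W W ≤ hi H W := hi_mono hs Subset.rfl
  unfold VB at h1
  unfold PP
  omega

theorem pp_ear {k : ℕ} (hU : IHP V k) {H W : Finset (Finset V)} (hk : W.card + 2 ≤ k)
    {a b : Finset V} (e : Ear W a b) (h4 : ∀ v, dg H v ≤ 4)
    (hd : ∀ v ∈ cov W, dg (insert a (insert b W)) v ≤ dg H v) :
    27 * tau W + tt W (dg H) + (if dd W a + (a ∩ b).card ≤ 3 then 1 else 0) +
      (if dd W b + (a ∩ b).card ≤ 3 then 1 else 0) + 11 ≤ 8 * W.card + 3 * (cov W).card +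
      3 * ((a ∪ b) \ cov W).card + hi (insert a (insert b W)) (insert a (insert b W)) + 5 := by
  have h1 := e.card_ins
  have h2 := e.tau_ins
  have h3 := e.cov_ins
  have h5 := e.tt_ins hd
  have h6 : VB (insert a (insert b W)) 5 := hU _ (h1.le.trans hk) e.cc_ins (qgain_dg e h4 hd)
  unfold VB at h6
  omega

theorem pp_gad [Infinite V] {k : ℕ} (hU : IHP V k) {H W : Finset (Finset V)}
    (hk : W.card + 2 ≤ k) (hW : CC W) (hs : W ⊆ H) (h4 : ∀ v, dg H v ≤ 4)
    (hg : Gad W (dg H) 2 2) : PP H W W 1 := by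
  obtain ⟨A, B, hA, hB, hr, hc, k1, k2⟩ := hg
  obtain ⟨A0, a1, a2⟩ := exists_subset_card_eq k1
  obtain ⟨B0, b1, b2⟩ := exists_subset_card_eq k2
  have hg : SGad H W 2 2 := ⟨A0, B0, a1.trans hA, b1.trans hB,
    fun v hv => hr v (union_subset_union a1 b1 hv), hc.mono a1 b1, a2.ge, b2.ge,
    safe_small hW.u5 (by omega), safe_small hW.u5 (by omega)⟩
  obtain ⟨a, b, e, k5, k6, k7, -, -, hd⟩ := gainv_sub (k := 3) hW hs hg
    (by omega) (by omega) (by omega) le_rfl le_rfl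
  have k4 := e.new_card
  have k8 := pp_ear hU hk e h4 hd
  have k3 := e.hi_two hs k5.le k6.le
  unfold PP
  omega

theorem pp_sgad42 [Infinite V] {k : ℕ} (hU : IHP V k) {H W : Finset (Finset V)}
    (hk : W.card + 2 ≤ k) (hW : CC W) (hs : W ⊆ H) (h4 : ∀ v, dg H v ≤ 4)
    (hg : SGad H W 4 2) : PP H W W 2 := by
  obtain ⟨a, b, e, k5, k6, k1, s1, s2, hd⟩ :=
    gainv_sub (k := 1) hW hs hg (by omega) (by omega) le_rfl (by omega) (by omega)
  have k4 := e.new_card
  have k2 := pp_ear hU hk e h4 hd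
  have k3 := e.hi_one hs k1 s1 s2
  unfold PP
  omega

theorem pp_real {k : ℕ} (hU : IHP V k) {H W : Finset (Finset V)} (hk : W.card + 2 ≤ k)
    (hW : CC W) (hs : W ⊆ H) (h5 : U5 H) (h4 : ∀ v, dg H v ≤ 4) {x y : Finset V} (hx : x ∈ H)
    (hy : y ∈ H) (h : NJ W x y) (h1 : 1 ≤ dd W x) (h2 : 1 ≤ dd W y) (hc : (x ∩ y).Nonempty)
    (hn : ((x ∪ y) \ cov W).card ≤ 3) : PP H W (insert x (insert y W)) 2 := by
  have e := ear_of_nj hW (h5 x hx) (h5 y hy) h h1 h2 hc
  have k1 : insert x (insert y W) ⊆ H := insert_subset hx (insert_subset hy hs)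
  have k2 := pp_ear hU hk e h4 fun v _ => dg_mono k1 v
  have k3 : hi (insert x (insert y W)) (insert x (insert y W)) ≤ hi H (insert x (insert y W)) :=
    hi_mono k1 Subset.rfl
  unfold PP
  omega

theorem pp_fin {H Y : Finset (Finset V)} {W : Fin 3 → Finset (Finset V)}
    {q : Fin 4 → Finset V} (h : Side3 H W q) {i j k : Fin 3} (hij : i ≠ j) (hik : i ≠ k)
    (hjk : j ≠ k) {a b c : ℕ} (p1 : PP H (W i) Y a) (p2 : PP H (W j) (W j) b)
    (p3 : PP H (W k) (W k) c) (hg : 2 ≤ a + b + c) (hY : Y ⊆ H)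
    (hd : ∀ l, i ≠ l → Disjoint Y (W l)) :
    27 * (tau (W 0) + tau (W 1) + tau (W 2)) +
      (tt (W 0) (dg H) + tt (W 1) (dg H) + tt (W 2) (dg H)) ≤
      8 * ((W 0).card + (W 1).card + (W 2).card) +
        3 * ((cov (W 0)).card + (cov (W 1)).card + (cov (W 2)).card) + hi H H + 13 := by
  have e1 := qthree_sum (fun l => tau (W l)) hij hik hjk
  have e2 := qthree_sum (fun l => (W l).card) hij hik hjk
  have e3 := qthree_sum (fun l => (cov (W l)).card) hij hik hjk
  have e4 := qthree_sum (fun l => tt (W l) (dg H)) hij hik hjk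
  have a1 := hi_add (H := H) (hd j hij) subset_union_left subset_union_right
  have a2 := hi_add (H := H) (disjoint_union_left.2
    ⟨hd k hik, (h.sep j k hjk).disjoint (h.wcc j).u5.ne⟩) (union_subset hY (h.wsub j)) (h.wsub k)
  unfold PP at p1 p2 p3
  omega

theorem side3P [Infinite V] {k : ℕ} (hU : IHP V k) {H : Finset (Finset V)}
    {W : Fin 3 → Finset (Finset V)} {q : Fin 4 → Finset V} (h : Side3 H W q)
    (hk : ∀ i, (W i).card + 3 ≤ k) (h4 : ∀ v, dg H v ≤ 4) {t : V} (ht : ∀ x, t ∈ q x)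
    (tW : ∀ i, t ∉ cov (W i))
    (hs : ∀ x, dd (W 0) (q x) + dd (W 1) (q x) + dd (W 2) (q x) = 4) :
    27 * (tau (W 0) + tau (W 1) + tau (W 2)) +
      (tt (W 0) (dg H) + tt (W 1) (dg H) + tt (W 2) (dg H)) ≤
      8 * ((W 0).card + (W 1).card + (W 2).card) +
        3 * ((cov (W 0)).card + (cov (W 1)).card + (cov (W 2)).card) + hi H H + 13 := by
  have k2 : ∀ i, (W i).card + 2 ≤ k := fun i => (Nat.le_succ _).trans (hk i)
  have z : ∀ i, PP H (W i) (W i) 0 := fun i =>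
    pp_zero hU (le_self_add.trans (hk i)) (h.wcc i) (h.wsub i) h4
  have dj : ∀ i l, i ≠ l → Disjoint (W i) (W l) := fun i l c =>
    (h.sep i l c).disjoint (h.wcc i).u5.ne
  by_cases two : ∃ i j, i ≠ j ∧ Gad (W i) (dg H) 2 2 ∧ Gad (W j) (dg H) 2 2
  · obtain ⟨i, j, c, g1, g2⟩ := two
    obtain ⟨l, c1, c2⟩ := qthree_third i j c
    exact pp_fin h c c1 c2 (pp_gad hU (k2 i) (h.wcc i) (h.wsub i) h4 g1)
      (pp_gad hU (k2 j) (h.wcc j) (h.wsub j) h4 g2) (z l) (by omega) (h.wsub i) (dj i)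
  obtain ⟨i, hi'⟩ : ∃ i, ∀ l, l ≠ i → ¬ Gad (W l) (dg H) 2 2 := by
    by_cases c : ∃ i, Gad (W i) (dg H) 2 2
    · obtain ⟨i, c⟩ := c
      exact ⟨i, fun l a b => two ⟨l, i, a, b, c⟩⟩
    · exact ⟨0, fun l _ b => c ⟨l, b⟩⟩
  obtain ⟨j, l, hij, hil, hjl, all⟩ := qthree_others i
  have key := abs3Q (u := fun l x y => (cov {q x, q y} ∩ cov (W l)).card) h.shadow hs hij hil hjl
    (fun l x y => ?_) (fun l x y _ c => hosts_two (h.wcc l) c)
    (fun l a x y _ c b1 b2 => hi' l a ((gad11 (h.wsub l) (h.qmem x) (h.qmem y) (h.qout x l)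
      (h.qout y l) c).mono b1 b2))
    (fun l a x y w _ _ _ c1 c2 b => not_lt.1 fun b2 => hi' l a
      ((gad1N (N := {q y, q w}) (h.wsub l) (h.qmem x) (h.qout x l) fun v hv => ?_).mono b b2))
  · rcases key with ⟨x, y, xy, r, b1, b2, b3⟩ | ⟨x, y, w, -, -, -, r1, r2, r3, b1, b2, b3⟩
    · refine pp_fin h hij hil hjl (pp_real hU (k2 i) (h.wcc i) (h.wsub i) h.cc.u5 h4
        (h.qmem x) (h.qmem y) r b1 b2 ⟨t, mem_inter.2 ⟨ht x, ht y⟩⟩ ?_) (z j) (z l) (by omega)
        (insert_subset (h.qmem x) (insert_subset (h.qmem y) (h.wsub i))) fun m c =>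
        disjoint_insert_left.2 ⟨h.qout x m, disjoint_insert_left.2 ⟨h.qout y m, dj i m c⟩⟩
      have s : (q x ∪ q y) \ cov (W i) ⊆
          insert t (cov {q x, q y} ∩ cov (W j) ∪ cov {q x, q y} ∩ cov (W l)) := fun v hv => by
        obtain ⟨v1, v2⟩ := mem_sdiff.1 hv
        have v3 : v ∈ cov {q x, q y} := by simpa [mem_cov] using v1
        have v4 : v = t ∨ ∃ m, v ∈ cov (W m) :=
          (mem_union.1 v1).elim (qthree_host h ht tW hs x v) (qthree_host h ht tW hs y v)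
        rcases v4 with c | ⟨m, c⟩
        · exact mem_insert.2 (Or.inl c)
        · rcases all m with rfl | rfl | rfl
          · exact absurd c v2
          · exact mem_insert_of_mem (mem_union_left _ (mem_inter.2 ⟨v3, c⟩))
          · exact mem_insert_of_mem (mem_union_right _ (mem_inter.2 ⟨v3, c⟩))
      exact (card_le_card s).trans ((card_insert_le _ _).trans
        (Nat.succ_le_succ ((card_union_le _ _).trans b3)))
    · exact pp_fin h hij hil hjl (pp_sgad42 hU (k2 i) (h.wcc i) (h.wsub i) h4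
        ((sgad12 (h.wcc i) (h.wsub i) (h.qmem x) (h.qmem y) (h.qmem w) (h.qout x i) (h.qout y i)
          (h.qout w i) r1 r2 r3).symm.mono (add_le_add b2 b3) b1)) (z j) (z l) (by omega)
        (h.wsub i) (dj i)
  · refine (card_le_card fun v hv => ?_).trans (card_union_le _ _)
    obtain ⟨v1, v2⟩ := mem_inter.1 hv
    have v3 : v ∈ q x ∪ q y := by simpa [mem_cov] using v1
    exact mem_union.2 ((mem_union.1 v3).imp (mem_inter.2 ⟨·, v2⟩) (mem_inter.2 ⟨·, v2⟩))
  · rcases mem_insert.1 hv with rfl | hv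
    · exact ⟨h.qmem y, h.qout y l, c1⟩
    · rw [mem_singleton.1 hv]
      exact ⟨h.qmem w, h.qout w l, c2⟩

theorem pp_sum {F : Finset (Finset (Finset V))} {H : Finset (Finset V)}
    (h : ∀ W ∈ F, PP H W W 0) :
    27 * ∑ W ∈ F, tau W + ∑ W ∈ F, tt W (dg H) ≤
      8 * ∑ W ∈ F, W.card + 3 * ∑ W ∈ F, (cov W).card + ∑ W ∈ F, hi H W + 5 * F.card := by
  have := step_sum (c := fun _ => 5) (H := H) (F := F) h
  rwa [sum_const, Nat.nsmul_eq_mul, mul_comm F.card] at this

theorem pp_step [Infinite V] {H : Finset (Finset V)} {k : ℕ} (hU : IHP V k)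
    (hk : H.card ≤ k + 1) (h : CC H) (h4 : ∀ v, dg H v ≤ 4) {t : V} (ht : dg H t = 4) :
    VB H 5 := by
  have ht1 : 1 ≤ dg H t := by omega
  obtain ⟨F, hF0, hτ⟩ := exists_step h ht1
  have hF : Fam H F := hF0.mono sdiff_subset Subset.rfl
  have c1 := step_card hF0
  have c2 := hF.card_eq
  have c3 := hF.cov_eq
  have c4 := hi_sum (H := H) hF
  have c6 := hF.tt_eq (dg H)
  have hto := step_out ht1 hF0
  have c5 : 2 * tt (H \ un F) (dg H) + 1 ≤ (cov H \ cov (un F)).card := by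
    have c5 := hF.tt_out
    have c6 : ((cov H \ cov (un F)).filter (fun v => dg H v ≤ 1)).card <
        (cov H \ cov (un F)).card :=
      card_lt_card ⟨filter_subset _ _, fun c => by
        have := (mem_filter.1 (c hto)).2
        omega⟩
    omega
  have c7 : F.card + 1 ≤ (H \ un F).card := by
    obtain ⟨x, hx⟩ := card_pos.1 (show 0 < (H \ un F).card by omega)
    exact nl_all h hF ⟨x, mem_sdiff.1 hx⟩
  have hW : ∀ W ∈ F, W.card + 3 ≤ k := fun W hW => by
    have := single_le_sum (f := fun Z : Finset (Finset V) => Z.card)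
      (fun _ _ => Nat.zero_le _) hW
    omega
  have c8 := pp_sum (F := F) (H := H) fun W hWF =>
    pp_zero hU (by have := hW W hWF; omega) (hF.cc W hWF) (hF.sub W hWF) h4
  unfold VB
  by_contra hcon
  have hcase : ((H \ star H t) \ un F).card = 0 ∧ (H \ un F).card = 4 ∧
      (cov H \ cov (un F)).card = 1 ∧ F.card = 3 := by omega
  obtain ⟨f0, f2, f3, f1⟩ := hcase
  have htx : ∀ x ∈ H \ un F, t ∈ x := fun x hx => by
    by_contra c
    exact card_ne_zero_of_mem (mem_sdiff.2 ⟨mem_sdiff.2 ⟨(mem_sdiff.1 hx).1,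
      fun e => c (mem_star.1 e).2⟩, (mem_sdiff.1 hx).2⟩) f0
  have htW : ∀ W ∈ F, t ∉ cov W := fun W hWF e => (mem_sdiff.1 hto).2 (cov_mono (sub_un hWF) e)
  have h5 : ∀ x ∈ H \ un F, ∑ W ∈ F, dd W x = 4 := fun x hx => by
    have a1 := gplus_out hF h.u5 (mem_sdiff.1 hx).1
    have a2 := hF.five (h.u5 x (mem_sdiff.1 hx).1)
    have a4 := card_ne_zero_of_mem (mem_sdiff.2 ⟨htx x hx, (mem_sdiff.1 hto).2⟩)
    omega
  obtain ⟨W, w1, w2, w3⟩ := exists_enum f1
  obtain ⟨q, q1, q2, q3⟩ := exists_enum f2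
  have hs := sum_three w1 w2 w3
  rw [hs] at hτ c2 c3 c6
  have h33 := side3_mk h hF w1 w2 w3 q1 q2 q3 (by omega)
  have := side3P hU h33 (fun i => hW _ (w2 i)) h4 (fun x => htx _ (q2 x))
    (fun i => htW _ (w2 i)) (fun x => (hs _).symm.trans (h5 _ (q2 x)))
  omega

theorem ihp [Infinite V] (k : ℕ) : IHP V k := by
  induction k with
  | zero =>
    intro X hk h _
    have := card_pos.2 h.ne
    omega
  | succ k ih =>
    intro X hk h h4
    by_cases c : ∃ t, dg X t = 4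
    · obtain ⟨t, ht⟩ := c
      exact pp_step ih hk h h4 ht
    · refine t1 h fun v => ?_
      have a1 := h4 v
      have a2 : dg X v ≠ 4 := fun e => c ⟨v, e⟩
      omega

/-- the bound `27 tau + tt ≤ 8 m + 3 n + hi + 5` for maximum degree four -/
theorem t1p [Infinite V] {H : Finset (Finset V)} (h : CC H) (h4 : ∀ v, dg H v ≤ 4) : VB H 5 :=
  ihp H.card H le_rfl h h4

end Pool.Agent.Work.MP_d266e7_co.C5.P24
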