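import Pool.Agent.Work.MP_d266e7_co.Full.Un5

/-!
Numerical part of the level with weighted degrees at most three.
-/

namespace Pool.Agent.Work.MP_d266e7_co.Mix

def tlB (j h s p u E q : ℕ) : Bool :=
  decide (79 < 30 * j + 25 * h + 24 * s + 24 * p + 19 * u + 12 * E + 7 * q) ||
    (let t := 6 * j + 2 * q + 3 * u + 2 * p + 4 * h + E - 8 - s
    let n := (10 * t + j + 2 * (q + 2 * u + p) + 3 * h + E - 5) / 3
    decide (3 * n + 5 ≠ 10 * t + j + 2 * (q + 2 * u + p) + 3 * h + E) ||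
    decide (10 * t < 6 * h + 5 * (q + u) + 5 * j + 5) ||
    decide (10 * t + 2 * (n + 2 * j) + 3 < 17 * t + (j + u) + 5) ||
    (decide (s = 0) && decide (q + 2 * u + p + 2 * E + 3 * j < 5 * (q + u))) ||
    (decide (s < 3) && decide (2 * n < 5 * (q + u) + (q + 2 * u + p))) ||
    (decide (2 * t ≤ j + 3) && decide (q + 2 * u + p + 3 * h + E + 3 * j < n)) ||
    (decide (t = 1) && decide (j = 1)) || (decide (j = 1) && decide (n = 10) && decide (t = 3)) ||
    (decide (j = 2) && decide (n = 16) && decide (t = 5)))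

private theorem tlk_all : ((List.range 3).all fun j => (List.range 4).all fun h =>
    Nat.blt 79 (30 * j + 25 * h) || (List.range 4).all fun s =>
    Nat.blt 79 (30 * j + 25 * h + 24 * s) || (List.range 4).all fun p =>
    Nat.blt 79 (30 * j + 25 * h + 24 * s + 24 * p) || (List.range 5).all fun u =>
    Nat.blt 79 (30 * j + 25 * h + 24 * s + 24 * p + 19 * u) || (List.range 7).all fun E =>
    Nat.blt 79 (30 * j + 25 * h + 24 * s + 24 * p + 19 * u + 12 * E) ||
    (List.range 12).all fun q => tlB j h s p u E q) = true := by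
  decide +kernel

theorem tl_all : ((List.range 3).all fun j => (List.range 4).all fun h => (List.range 4).all fun s =>
    (List.range 4).all fun p => (List.range 5).all fun u => (List.range 7).all fun E =>
    (List.range 12).all fun q => tlB j h s p u E q) = true := by
  have k := tlk_all
  simp only [List.all_eq_true, Bool.or_eq_true, Nat.blt_eq] at k ⊢
  intro j hj h hh s hs p hp u hu E hE q hq
  by_cases c : 79 < 30 * j + 25 * h + 24 * s + 24 * p + 19 * u + 12 * E + 7 * q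
  · rw [tlB, decide_eq_true c, Bool.true_or]
  · have k1 := (k j hj h hh).resolve_left (by clear * - c; omega)
    have k2 := (k1 s hs).resolve_left (by clear * - c; omega)
    have k3 := (k2 p hp).resolve_left (by clear * - c; omega)
    have k4 := (k3 u hu).resolve_left (by clear * - c; omega)
    exact (k4 E hE).resolve_left (by clear * - c; omega) q hq

theorem tl_in : ∀ j < 3, ∀ h < 4, ∀ s < 4, ∀ p < 4, ∀ u < 5, ∀ E < 7, ∀ q < 12,
    tlB j h s p u E q = true := by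
  simpa only [List.all_eq_true, List.mem_range] using tl_all

theorem tl_num1 {e5 j n t h q u P E : ℕ} (h1 : 3 * n = 5 * e5 + 6 * j + 2 * P + 3 * h + E)
    (h2 : q + 2 * u ≤ P) (h3 : 6 * h + 5 * (q + u) ≤ 5 * e5) (hv : 2 * t = e5 + j + 1)
    (gb : 17 * t + (j + u) ≤ 5 * (e5 + j) + 2 * (n + 2 * j) + 3)
    (t1 : 27 * t + (j + u) ≤ 8 * (e5 + j) + 3 * (n + 2 * j) + h + 5)
    (v4 : 27 * t + (j + u) ≤ 8 * (e5 + j) + 3 * (n + 2 * j) + h + 4 ∨
      5 * (q + u) ≤ P + 2 * E + 3 * j)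
    (v2 : 27 * t + (j + u) ≤ 8 * (e5 + j) + 3 * (n + 2 * j) + h + 2 ∨ 5 * (q + u) + P ≤ 2 * n)
    (h8 : 3 ≤ e5 ∨ n ≤ P + 3 * h + E + 3 * j) :
    660 * t + 17 * q + 53 * u ≤ 138 * e5 + 276 * j + 108 * n + 13 * h + 46 ∨
      (e5 = 0 ∧ j = 1) ∨ (e5 = 4 ∧ j = 1 ∧ n = 10) ∨ (e5 = 7 ∧ j = 2 ∧ n = 16) := by
  obtain ⟨p, rfl⟩ := Nat.exists_eq_add_of_le h2
  obtain ⟨s, hs⟩ := Nat.exists_eq_add_of_le t1
  clear h2 t1
  have v4' : 1 ≤ s ∨ 5 * (q + u) ≤ q + 2 * u + p + 2 * E + 3 * j :=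
    v4.imp_left fun c => by clear v2 h8 gb h3 h1 hv v4; omega
  have v2' : 3 ≤ s ∨ 5 * (q + u) + (q + 2 * u + p) ≤ 2 * n :=
    v2.imp_left fun c => by clear v2 h8 gb h3 h1 hv v4 v4'; omega
  clear v4 v2
  have e1 : 6 * j + 2 * q + 3 * u + 2 * p + 4 * h + E - 8 - s = t := by
    clear v4' v2' h8 gb h3
    omega
  have e2 : 3 * n + 5 = 10 * t + j + 2 * (q + 2 * u + p) + 3 * h + E := by
    clear v4' v2' h8 gb h3 e1 hs
    omega
  have e3 : (10 * t + j + 2 * (q + 2 * u + p) + 3 * h + E - 5) / 3 = n := by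
    clear v4' v2' h8 gb h3 e1 hs h1 hv
    omega
  by_cases a1 : 30 * j + 25 * h + 24 * s + 24 * p + 19 * u + 12 * E + 7 * q ≤ 79
  · have b : j < 3 ∧ h < 4 ∧ s < 4 ∧ p < 4 ∧ u < 5 ∧ E < 7 ∧ q < 12 := by
      clear v4' v2' h8 gb h3 e1 hs h1 hv e2 e3
      omega
    have := tl_in j b.1 h b.2.1 s b.2.2.1 p b.2.2.2.1 u b.2.2.2.2.1 E b.2.2.2.2.2.1 q b.2.2.2.2.2.2
    simp only [tlB, e1, e3, Bool.or_eq_true, Bool.and_eq_true, decide_eq_true_eq] at this
    clear e1 e3 hs h1 b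
    right
    rcases this with c | (((((((c | c) | c) | c) | c) | c) | c) | c) | c
    · exact absurd c (by clear v4' v2' h8 gb h3 hv e2; omega)
    · exact absurd e2 c
    · exact absurd c (by clear v4' v2' h8 gb a1 e2; omega)
    · exact absurd c (by clear v4' v2' h8 h3 a1 e2; omega)
    · exact absurd c (by clear v2' h8 gb h3 a1 e2 hv; omega)
    · exact absurd c (by clear v4' h8 gb h3 a1 e2 hv; omega)
    · exact absurd c (by clear v4' v2' gb h3 a1 e2; omega)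
    · exact Or.inl (by clear v4' v2' gb h3 a1 e2 h8; omega)
    · exact Or.inr (Or.inl (by clear v4' v2' gb h3 a1 e2 h8; omega))
    · exact Or.inr (Or.inr (by clear v4' v2' gb h3 a1 e2 h8; omega))
  · left
    clear v4' v2' h8 gb h3 e1 e2 e3
    have : 138 * e5 + 276 * j + 108 * n + 13 * h + 126 = 660 * t + 17 * q + 53 * u +
        (30 * j + 25 * h + 24 * s + 24 * p + 19 * u + 12 * E + 7 * q) := by omega
    omega

theorem tl_num0 {e5 j n t h q u P E : ℕ} (h1 : 3 * n = 5 * e5 + 6 * j + 2 * P + 3 * h + E)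
    (h2 : q + 2 * u ≤ P) (hv : 2 * t ≤ e5 + j)
    (t2 : 27 * t + (j + u) ≤ 8 * (e5 + j) + 3 * (n + 2 * j) + h + 2) :
    660 * t + 17 * q + 53 * u ≤ 138 * e5 + 276 * j + 108 * n + 13 * h + 46 := by
  obtain ⟨p, rfl⟩ := Nat.exists_eq_add_of_le h2
  obtain ⟨s, hs⟩ := Nat.exists_eq_add_of_le t2
  obtain ⟨v, hv'⟩ := Nat.exists_eq_add_of_le hv
  clear h2 t2 hv
  have : 138 * e5 + 276 * j + 108 * n + 13 * h + 48 = 660 * t + 17 * q + 53 * u +
      (6 * v + 30 * j + 25 * h + 24 * s + 24 * p + 19 * u + 12 * E + 7 * q) := by omega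
  by_cases a1 : 6 * v + 30 * j + 25 * h + 24 * s + 24 * p + 19 * u + 12 * E + 7 * q ≤ 1
  · have b1 : v = 0 ∧ j = 0 ∧ h = 0 ∧ s = 0 ∧ p = 0 ∧ u = 0 ∧ E = 0 ∧ q = 0 := by
      clear this h1 hs hv'
      omega
    clear this a1
    omega
  · clear h1 hs hv'
    omega

end Pool.Agent.Work.MP_d266e7_co.Mix
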