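import Pool.Agent.Work.MP_d266e7_co.Full.Top0
import Pool.Agent.Work.MP_d266e7_co.Full.TopL

/-!
The four swaps at a linked core (`TMin.link`): in a minimal counterexample the stars of the three
blocks of a linked core contain only the core nodes and the link, and the core is not a node.
Hence the unfolded family lies in `ClsC`, and `CStar` excludes minimal counterexamples.
-/

namespace Pool.Agent.Work.MP_d266e7_co.Mix

open Finset C5 C5.P24

variable {V : Type} [DecidableEq V] {H : Finset (Finset V)}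

/-- core nodes `O` on `k1, k2, k3`, linked by `z`, `z'` -/
structure Cap (H O : Finset (Finset V)) (z z' : Finset V) (k1 k2 k3 : V) : Prop where
  sub : O ⊆ H
  o1 : ∀ e ∈ O, k1 ∈ e
  o2 : ∀ e ∈ O, k2 ∈ e
  o3 : ∀ e ∈ O, k3 ∈ e
  ov : 14 ≤ ∑ e ∈ O, tv e
  ow : 2 ≤ ∑ e ∈ O, tw e
  mz : z ∈ H
  mz' : z' ∈ H
  z5 : z.card = 5
  z5' : z'.card = 5
  i3 : (z ∩ z').card = 3
  n12 : k1 ≠ k2
  a1 : k1 ∈ z
  a2 : k2 ∈ z
  a3 : k3 ∈ z'
  b1 : k1 ∉ z'
  b2 : k2 ∉ z'
  b3 : k3 ∉ z

variable {O : Finset (Finset V)} {z z' : Finset V} {k1 k2 k3 : V}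

theorem Cap.swap (c : Cap H O z z' k1 k2 k3) : Cap H O z z' k2 k1 k3 :=
  ⟨c.sub, c.o2, c.o1, c.o3, c.ov, c.ow, c.mz, c.mz', c.z5, c.z5', c.i3, c.n12.symm, c.a2, c.a1,
    c.a3, c.b2, c.b1, c.b3⟩

theorem Cap.zO (c : Cap H O z z' k1 k2 k3) : z ∉ O := fun k => c.b3 (c.o3 z k)

theorem Cap.zO' (c : Cap H O z z' k1 k2 k3) : z' ∉ O := fun k => c.b1 (c.o1 z' k)

omit [DecidableEq V] in
theorem tv_ge (e : Finset V) : 7 ≤ tv e := le_trans (by have := tw_pos e; omega) (tw_le e)

/-- a further node on a block of weight three is unique and has size five -/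
theorem TMin.extra (h : TMin H) {k : V} {y x : Finset V} (s : insert y O ⊆ star H k) (yO : y ∉ O)
    (ow : 2 ≤ ∑ e ∈ O, tw e) (hx : x ∈ star H k) (nx : x ∉ insert y O) :
    x.card = 5 ∧ star H k = insert x (insert y O) := by
  have a := h.d4 k
  have s' : insert x (insert y O) ⊆ star H k := insert_subset hx s
  have b : ∑ e ∈ star H k \ insert x (insert y O), tw e + ∑ e ∈ insert x (insert y O), tw e =
      twd H k := sum_sdiff s'
  rw [sum_insert nx, sum_insert yO] at b
  have c := tw_pos y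
  have d := tw_pos x
  refine ⟨?_, Subset.antisymm (sdiff_eq_empty_iff_subset.1 ?_) s'⟩
  · by_contra k5
    rw [tw, if_neg k5] at b
    omega
  · by_contra m
    obtain ⟨e, he⟩ := nonempty_iff_ne_empty.2 m
    have := (tw_pos e).trans (single_le_sum (f := tw) (fun _ _ => Nat.zero_le _) he)
    omega

theorem Cap.s1 (c : Cap H O z z' k1 k2 k3) : insert z O ⊆ star H k1 :=
  insert_subset (mem_star.2 ⟨c.mz, c.a1⟩) fun e he => mem_star.2 ⟨c.sub he, c.o1 e he⟩

theorem Cap.s3 (c : Cap H O z z' k1 k2 k3) : insert z' O ⊆ star H k3 :=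
  insert_subset (mem_star.2 ⟨c.mz', c.a3⟩) fun e he => mem_star.2 ⟨c.sub he, c.o3 e he⟩

theorem TMin.cap1 (h : TMin H) (c : Cap H O z z' k1 k2 k3) (s : star H k2 ⊆ star H k1) :
    star H k1 ⊆ insert z O := by
  intro x hx
  by_contra nx
  have a := h.del (v := k1) (Z := {k1, k2}) (mem_cov.2 ⟨z, c.mz, c.a1⟩)
    (insert_subset (mem_cov.2 ⟨z, c.mz, c.a1⟩) (singleton_subset_iff.2 (mem_cov.2 ⟨z, c.mz, c.a2⟩)))
    fun u hu => by
      rcases mem_insert.1 hu with e | e
      · rw [e]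
      · rw [mem_singleton.1 e]
        exact s
  rw [card_pair c.n12, (h.extra c.s1 c.zO c.ow hx nx).2, sum_insert nx, sum_insert c.zO] at a
  have := tv_ge x
  have := tv_ge z
  have := c.ov
  omega

theorem top_ne_swap {A B : Finset (Finset V)} (h : NE H) (hB : TSz B) : NE (H \ A ∪ B) := fun x hx =>
  (mem_union.1 hx).elim (fun k => h x (mem_sdiff.1 k).1) (hB.ne x)

theorem top_cov_single (q : Finset V) : cov ({q} : Finset (Finset V)) = q := by
  rw [cov, singleton_biUnion, id]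

theorem disj_swap {A : Finset (Finset V)} {q Z : Finset V} (h1 : ∀ u ∈ Z, star H u ⊆ A)
    (h2 : ∀ u ∈ Z, u ∉ q) : Disjoint Z (cov (H \ A ∪ {q})) := disjoint_left.2 fun u hu m => by
  obtain ⟨x, hx, k⟩ := mem_cov.1 m
  rcases mem_union.1 hx with a | a
  · exact (mem_sdiff.1 a).2 (h1 u hu (mem_star.2 ⟨(mem_sdiff.1 a).1, k⟩))
  · exact h2 u hu (mem_singleton.1 a ▸ k)

/-- a cover of the new family meets `q` in `v`; one more block meets all nodes of `A` -/
theorem lift_swap {A : Finset (Finset V)} {q : Finset V} (h : NE H) (hq : TSz {q})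
    (hl : ∀ v ∈ q, ∃ k, ∀ e ∈ A, v ∈ e ∨ k ∈ e) : tau H ≤ tau (H \ A ∪ {q}) + 1 :=
  top_lift (top_ne_swap h hq) fun T hT => by
    obtain ⟨v, h1, h2⟩ := hT q (mem_union_right _ (mem_singleton_self _))
    obtain ⟨k, hk⟩ := hl v h1
    refine ⟨insert k T, fun e he => ?_, card_insert_le _ _⟩
    by_cases m : e ∈ A
    · rcases hk e m with a | a
      exacts [⟨v, a, mem_insert_of_mem h2⟩, ⟨k, a, mem_insert_self _ _⟩]
    · obtain ⟨u, a, b⟩ := hT e (mem_union_left _ (mem_sdiff.2 ⟨he, m⟩))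
      exact ⟨u, a, mem_insert_of_mem b⟩

theorem TMin.cap2 (h : TMin H) (c : Cap H O z z' k1 k2 k3) {x1 x2 : Finset V}
    (h1 : x1 ∈ star H k1) (n1 : x1 ∉ star H k2) (h2 : x2 ∈ star H k2) (n2 : x2 ∉ star H k1) :
    False := by
  have m1 : x1 ∉ insert z O := fun k => n1 (c.swap.s1 k)
  have m2 : x2 ∉ insert z O := fun k => n2 (c.s1 k)
  obtain ⟨f1, e1⟩ := h.extra c.s1 c.zO c.ow h1 m1
  obtain ⟨f2, e2⟩ := h.extra c.swap.s1 c.zO c.ow h2 m2
  obtain ⟨g1, j1⟩ := mem_star.1 h1
  obtain ⟨g2, j2⟩ := mem_star.1 h2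
  have p1 : k2 ∉ x1 := fun k => n1 (mem_star.2 ⟨g1, k⟩)
  have p2 : k1 ∉ x2 := fun k => n2 (mem_star.2 ⟨g2, k⟩)
  have ne : x1 ≠ x2 := fun k => n1 (k ▸ h2)
  have u5 : 5 ≤ (x1.erase k1 ∪ x2.erase k2).card := by
    have a := card_union_add_card_inter (x1.erase k1) (x2.erase k2)
    have b := (card_le_card (inter_subset_inter (erase_subset k1 x1) (erase_subset k2 x2))).trans
      (h.c3 g1 g2 ne)
    rw [card_erase_of_mem j1, card_erase_of_mem j2, f1, f2] at a
    omega
  obtain ⟨q, q1, q2⟩ := exists_subset_card_eq u5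
  have sz : TSz {q} := fun e he => by rw [mem_singleton.1 he]; omega
  have nx : x1 ∉ insert x2 (insert z O) := fun k => (mem_insert.1 k).elim ne m1
  have a := h.swap (A := insert x1 (insert x2 (insert z O))) (B := {q}) (Z := {k1, k2}) (k := 1)
    (insert_subset g1 (insert_subset g2 (insert_subset c.mz c.sub))) sz
    (by rw [card_insert_of_notMem nx, card_insert_of_notMem m2, card_singleton]; omega)
    (insert_subset (mem_cov.2 ⟨z, c.mz, c.a1⟩) (singleton_subset_iff.2 (mem_cov.2 ⟨z, c.mz, c.a2⟩)))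
    (by
      rw [top_cov_single]
      refine q1.trans (union_subset (fun v hv => ?_) fun v hv => ?_)
      exacts [mem_cov.2 ⟨x1, g1, mem_of_mem_erase hv⟩, mem_cov.2 ⟨x2, g2, mem_of_mem_erase hv⟩])
    (disj_swap (fun u hu => by
        rcases mem_insert.1 hu with e | e
        · rw [e, e1]
          exact insert_subset_insert _ (subset_insert _ _)
        · rw [mem_singleton.1 e, e2]
          exact subset_insert _ _)
      fun u hu k => by
        have := q1 k
        rw [mem_insert, mem_singleton] at hu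
        rcases hu with rfl | rfl <;> simp [p1, p2] at this)
    (lift_swap h.sz.ne sz fun v hv => by
      rcases mem_union.1 (q1 hv) with k | k
      · refine ⟨k2, fun e he => ?_⟩
        rcases mem_insert.1 he with rfl | he
        · exact Or.inl (mem_of_mem_erase k)
        · exact Or.inr (mem_star.1 (e2 ▸ he : e ∈ star H k2)).2
      · refine ⟨k1, fun e he => ?_⟩
        rw [insert_comm] at he
        rcases mem_insert.1 he with rfl | he
        · exact Or.inl (mem_of_mem_erase k)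
        · exact Or.inr (mem_star.1 (e1 ▸ he : e ∈ star H k1)).2)
  rw [card_pair c.n12, sum_insert nx, sum_insert m2, sum_insert c.zO, sum_singleton, tv5 q2] at a
  have := tv_ge x1
  have := tv_ge x2
  have := tv_ge z
  have := c.ov
  omega

theorem TMin.cap12 (h : TMin H) (c : Cap H O z z' k1 k2 k3) : star H k1 ⊆ insert z O := by
  by_cases s : star H k2 ⊆ star H k1
  · exact h.cap1 c s
  by_cases s' : star H k1 ⊆ star H k2
  · exact s'.trans (h.cap1 c.swap s')
  obtain ⟨x2, a, b⟩ := not_subset.1 s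
  obtain ⟨x1, d, e⟩ := not_subset.1 s'
  exact (h.cap2 c d e a b).elim

theorem Cap.kcard (c : Cap H O z z' k1 k2 k3) : ({k1, k2, k3} : Finset V).card = 3 :=
  card_eq_three.2 ⟨k1, k2, k3, c.n12, fun e => c.b3 (e ▸ c.a1), fun e => c.b3 (e ▸ c.a2), rfl⟩

theorem Cap.kc (c : Cap H O z z' k1 k2 k3) : {k1, k2, k3} ⊆ cov H :=
  insert_subset (mem_cov.2 ⟨z, c.mz, c.a1⟩) (insert_subset (mem_cov.2 ⟨z, c.mz, c.a2⟩)
    (singleton_subset_iff.2 (mem_cov.2 ⟨z', c.mz', c.a3⟩)))

theorem Cap.zz (c : Cap H O z z' k1 k2 k3) : z ∉ insert z' O := fun k =>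
  (mem_insert.1 k).elim (fun e => c.b3 (e ▸ c.a3)) c.zO

theorem TMin.cap3 (h : TMin H) (c : Cap H O z z' k1 k2 k3) : star H k3 ⊆ insert z' O := by
  intro x hx
  by_contra nx
  obtain ⟨-, e⟩ := h.extra c.s3 c.zO' c.ow hx nx
  have sz : TSz {z ∩ z'} := fun e he => by rw [mem_singleton.1 he]; exact Or.inl c.i3
  have nz : z ∉ star H k3 := fun k => c.b3 (mem_star.1 k).2
  have so : insert z O ⊆ insert z (star H k3) :=
    insert_subset_insert _ ((subset_insert _ _).trans c.s3)
  have a := h.swap (A := insert z (star H k3)) (B := {z ∩ z'}) (Z := {k1, k2, k3}) (k := 1)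
    (insert_subset c.mz (filter_subset _ _)) sz
    (by rw [card_insert_of_notMem nz, e, card_insert_of_notMem nx, card_singleton]; omega) c.kc
    (by
      rw [top_cov_single]
      exact fun v hv => mem_cov.2 ⟨z, c.mz, (mem_inter.1 hv).1⟩)
    (disj_swap (fun u hu => by
        simp only [mem_insert, mem_singleton] at hu
        rcases hu with rfl | rfl | rfl
        exacts [(h.cap12 c).trans so, (h.cap12 c.swap).trans so, subset_insert _ _])
      fun u hu k => by
        simp only [mem_insert, mem_singleton] at hu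
        rcases hu with rfl | rfl | rfl
        exacts [c.b1 (mem_inter.1 k).2, c.b2 (mem_inter.1 k).2, c.b3 (mem_inter.1 k).1])
    (lift_swap h.sz.ne sz fun v hv => ⟨k3, fun y hy => by
      rcases mem_insert.1 hy with rfl | hy
      exacts [Or.inl (mem_inter.1 hv).1, Or.inr (mem_star.1 hy).2]⟩)
  rw [c.kcard, sum_insert nz, e, sum_insert nx, sum_insert c.zO', sum_singleton, tv3 c.i3] at a
  have := tv_ge x
  have := tv_ge z
  have := tv_ge z'
  have := c.ov
  omega

theorem TMin.cap4 (h : TMin H) (c : Cap H O z z' k1 k2 k3) : ∑ e ∈ O, tv e < 17 := by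
  have c4 : (z'.erase k3).card = 4 := by rw [card_erase_of_mem c.a3, c.z5']
  have sz : TSz {z'.erase k3} := fun e he => by rw [mem_singleton.1 he]; omega
  have so : insert z O ⊆ insert z (insert z' O) := insert_subset_insert _ (subset_insert _ _)
  have a := h.swap (A := insert z (insert z' O)) (B := {z'.erase k3}) (Z := {k1, k2, k3}) (k := 1)
    (insert_subset c.mz (insert_subset c.mz' c.sub)) sz
    (by rw [card_insert_of_notMem c.zz, card_insert_of_notMem c.zO', card_singleton]; omega) c.kc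
    (by
      rw [top_cov_single]
      exact fun v hv => mem_cov.2 ⟨z', c.mz', mem_of_mem_erase hv⟩)
    (disj_swap (fun u hu => by
        simp only [mem_insert, mem_singleton] at hu
        rcases hu with rfl | rfl | rfl
        exacts [(h.cap12 c).trans so, (h.cap12 c.swap).trans so,
          (h.cap3 c).trans (subset_insert _ _)])
      fun u hu k => by
        simp only [mem_insert, mem_singleton] at hu
        rcases hu with rfl | rfl | rfl
        exacts [c.b1 (mem_of_mem_erase k), c.b2 (mem_of_mem_erase k), notMem_erase _ _ k])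
    (lift_swap h.sz.ne sz fun v hv => ⟨k1, fun y hy => by
      rw [insert_comm] at hy
      rcases mem_insert.1 hy with rfl | hy
      exacts [Or.inl (mem_of_mem_erase hv), Or.inr (mem_star.1 (c.s1 hy)).2]⟩)
  rw [c.kcard, sum_insert c.zz, sum_insert c.zO', sum_singleton, tv4 c4, tv5 c.z5, tv5 c.z5'] at a
  omega

variable {f : Finset V → Finset V}

theorem TUnf.cap (u : TUnf H f) {K : Finset V} (l : LkD (H.image f) K z z' k1 k2 k3) (s : O ⊆ H)
    (hK : ∀ e ∈ O, K ⊆ e) (ov : 14 ≤ ∑ e ∈ O, tv e) (ow : 2 ≤ ∑ e ∈ O, tw e) :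
    Cap H O z z' k1 k2 k3 :=
  ⟨s, fun e he => hK e he (l.mem.2 (Or.inl rfl)), fun e he => hK e he (l.mem.2 (Or.inr (Or.inl rfl))),
    fun e he => hK e he (l.mem.2 (Or.inr (Or.inr rfl))), ov, ow,
    (u.gen l.pr.mc (Or.inr l.pr.nc)).1, (u.gen l.pr.mw (Or.inr l.pr.nw)).1, l.pr.c5, l.pr.w5,
    l.pr.i3, l.n12, l.a1, l.a2, l.a3, l.b1, l.b2, l.b3⟩

/-- the star of a block of a linked core of a pair -/
theorem TMin.link (h : TMin H) (u : TUnf H f) {c w : Finset V} (p : Pr (H.image f) c w)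
    (l : Lk (H.image f) (c ∩ w)) {k : V} (hk : k ∈ c ∩ w) :
    ∃ y : Finset V, y.card = 5 ∧ star H k ⊆ {y, c, w} := by
  obtain ⟨z, z', k1, k2, k3, d⟩ := l.data p.i3
  have cp := u.cap (O := {c, w}) d (insert_subset (u.gen p.mc (Or.inr p.nc)).1
      (singleton_subset_iff.2 (u.gen p.mw (Or.inr p.nw)).1))
    (fun e he => by
      rw [mem_insert, mem_singleton] at he
      rcases he with rfl | rfl
      exacts [inter_subset_left, inter_subset_right])
    (by rw [sum_pair p.ne, tv5 p.c5, tv5 p.w5]) (by rw [sum_pair p.ne, tw5 p.c5, tw5 p.w5])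
  rcases d.mem.1 hk with rfl | rfl | rfl
  exacts [⟨z, cp.z5, h.cap12 cp⟩, ⟨z, cp.z5, h.cap12 cp.swap⟩, ⟨z', cp.z5', h.cap3 cp⟩]

theorem TUnf.core_sub (u : TUnf H f) {c w : Finset V} (p : Pr (H.image f) c w) : c ∩ w ⊆ cov H :=
  fun _ hv => mem_cov.2 ⟨c, (u.gen p.mc (Or.inr p.nc)).1, (mem_inter.1 hv).1⟩

theorem TMin.clsC (h : TMin H) (u : TUnf H f) : ClsC (H.image f) := by
  refine ⟨u.cls h, fun K hK k3 l => ?_, fun c w t l k hk => ?_⟩
  · obtain ⟨z, z', k1, k2, k3', d⟩ := l.data k3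
    have := h.cap4 (u.cap (O := {K}) d (singleton_subset_iff.2 (u.gen hK (Or.inl k3)).1)
      (fun e he => by rw [mem_singleton.1 he]) (by rw [sum_singleton, tv3 k3]; omega)
      (by rw [sum_singleton, tw3 k3]))
    rw [sum_singleton, tv3 k3] at this
    omega
  · obtain ⟨y, -, s⟩ := h.link u t.1 l hk
    rw [u.ext.dg_old (u.core_sub t.1 hk)]
    exact (card_le_card s).trans card_le_three

theorem TMin.cp_twd (h : TMin H) (u : TUnf H f) {K : Finset V} (p : CP (H.image f) K) {k : V}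
    (hk : k ∈ K) : twd H k ≤ 3 := by
  obtain ⟨c, w, t, rfl, p⟩ := p
  have a : ∃ y : Finset V, y.card = 5 ∧ star H k ⊆ {y, c, w} := by
    rcases p with p | p
    · refine ⟨c, t.1.c5, (u.star_sub (fun x hx => ?_) (p k hk).le).trans (subset_insert _ _)⟩
      rw [mem_insert, mem_singleton] at hx
      rcases hx with rfl | rfl
      exacts [u.gen t.1.mc (Or.inr t.1.nc), u.gen t.1.mw (Or.inr t.1.nw)]
    · exact h.link u t.1 p hk
  obtain ⟨y, y5, s⟩ := a
  have b : twd H k ≤ (star H k).card • 1 := sum_le_card_nsmul _ _ _ fun e he => by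
    have := s he
    simp only [mem_insert, mem_singleton] at this
    rcases this with rfl | rfl | rfl
    exacts [(tw5 y5).le, (tw5 t.1.c5).le, (tw5 t.1.w5).le]
  have d := (card_le_card s).trans card_le_three
  rw [smul_eq_mul] at b
  omega

theorem no_tmin [Infinite V] {β : ℕ} (hβ : 17 ≤ β) (hC : CStar V β) (H : Finset (Finset V)) :
    ¬ TMin H := fun h => by
  obtain ⟨f, u⟩ := exists_tunf h.sz.ne
  have c := h.clsC u
  refine h.close u hβ (p := piC (H.image f)) (T := (cps (H.image f)).biUnion fun K => K)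
    (biUnion_subset.2 fun K hK => ?_) (fun v hv => ?_) ?_
    (hC _ c ⟨u.ext.ne', u.ext.crit h.crit, u.ext.conn h.conn, h.ne.image f⟩)
  · obtain ⟨c, w, t, rfl, -⟩ := mem_cps.1 hK
    exact u.core_sub t.1
  · obtain ⟨K, hK, hv⟩ := mem_biUnion.1 hv
    exact h.cp_twd u (mem_cps.1 hK) hv
  · rw [card_biUnion fun K hK K' hK' ne => cp_disj c (mem_cps.1 hK) (mem_cps.1 hK') ne,
      sum_const_nat fun K hK => (mem_cps.1 hK).gp.card, piC, mul_comm]

/-- the outer statement implies the bound -/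
theorem top_of_cstar {β : ℕ} (hβ : 17 ≤ β) (hC : CStar ℕ β) :
    ∀ n : ℕ, ∀ E : Finset (Finset (Fin n)), (∀ e ∈ E, e.card = 5) →
      ∃ T : Finset (Fin n), (∀ e ∈ E, (e ∩ T).Nonempty) ∧ 44 * T.card ≤ 9 * n + 7 * E.card :=
  top_export (no_tmin hβ hC)

end Pool.Agent.Work.MP_d266e7_co.Mix
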