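import Pool.Agent.Work.MP_d266e7_co.ThreeFour

/-!
`x9`: seven members with five vertices each on nine vertices have `tau ≤ 2` (seven sets of four
points do not cover the pairs of nine points). Let `r v` be the number of members which miss `v`
and `l v w ≥ 1` the number of members which miss both. Then `∑ w ≠ v, (l v w - 1) = 3 r v - 8`, so
`r v ≥ 3`, `∑ r = 28`, one of two different vertices has `r = 3`, and `l v w ≤ 2`. Double counting
`∑ v w, (l v w)^2 = ∑ e f, k e f ^ 2` gives `∑ r^2 + 108 ≥ 3 ∑ r^2 - 56`, while `∑ r^2 ≥ 88`.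
-/

namespace Pool.Agent.Work.MP_d266e7_co

open Finset

variable {V : Type} [DecidableEq V]

theorem x9_num {A B : Type} [DecidableEq A] [DecidableEq B] {C : Finset A} {H : Finset B}
    {χ : A → B → ℤ} (hC : C.card = 9) (hH : H.card = 7) (hs : ∀ v e, χ v e * χ v e = χ v e)
    (hc : ∀ e ∈ H, ∑ v ∈ C, χ v e = 4)
    (h1 : ∀ v ∈ C, ∀ w ∈ C, 1 ≤ ∑ e ∈ H, χ v e * χ w e) : False := by
  obtain ⟨r, hr⟩ : ∃ r : A → ℤ, ∀ v, r v = ∑ e ∈ H, χ v e := ⟨_, fun _ => rfl⟩
  obtain ⟨l, hl⟩ : ∃ l : A → A → ℤ, ∀ v w, l v w = ∑ e ∈ H, χ v e * χ w e := ⟨_, fun _ _ => rfl⟩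
  simp only [← hl] at h1
  have ls : ∀ v w, l v w = l w v := fun v w => by simp only [hl, mul_comm]
  have ld : ∀ v, l v v = r v := fun v => by simp only [hl, hr, hs]
  have m8 : ∀ v ∈ C, ((C.erase v).card : ℤ) = 8 := fun v hv => by
    rw [card_erase_of_mem hv, hC]
    rfl
  have s1 : ∀ v ∈ C, ∑ w ∈ C.erase v, l v w = 3 * r v := fun v hv => by
    have a : ∑ w ∈ C, l v w = r v * 4 := by
      simp only [hl]
      rw [sum_comm, sum_congr rfl fun e he => by rw [← mul_sum, hc e he], ← sum_mul, hr]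
    rw [← add_sum_erase _ _ hv, ld] at a
    omega
  have s2 : ∀ v ∈ C, ∑ w ∈ C.erase v, (l v w - 1) = 3 * r v - 8 := fun v hv => by
    rw [sum_sub_distrib, sum_const, nsmul_one, m8 v hv, s1 v hv]
  have r3 : ∀ v ∈ C, 3 ≤ r v := fun v hv => by
    have := sum_nonneg (s := C.erase v) (f := fun w => l v w - 1)
      fun w hw => sub_nonneg.2 (h1 v hv w (mem_of_mem_erase hw))
    rw [s2 v hv] at this
    omega
  have r28 : ∑ v ∈ C, r v = 28 := by
    simp only [hr]
    rw [sum_comm, sum_congr rfl hc, sum_const, hH]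
    rfl
  have l1 : ∀ v ∈ C, ∀ w ∈ C.erase v, l v w - 1 ≤ 3 * r v - 8 := fun v hv w hw => by
    rw [← s2 v hv]
    exact single_le_sum (f := fun w => l v w - 1)
      (fun u hu => sub_nonneg.2 (h1 v hv u (mem_of_mem_erase hu))) hw
  have l2 : ∀ v ∈ C, ∀ w ∈ C.erase v, l v w ≤ 2 := fun v hv w hw => by
    have a := l1 v hv w hw
    have b := l1 w (mem_of_mem_erase hw) v (mem_erase.2 ⟨(mem_erase.1 hw).1.symm, hv⟩)
    have c : ((C.erase v).erase w).card • (3 : ℤ) ≤ ∑ x ∈ (C.erase v).erase w, r x :=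
      card_nsmul_le_sum _ _ _ fun u hu => r3 u (mem_of_mem_erase (mem_of_mem_erase hu))
    have d := r28
    rw [← add_sum_erase _ _ hv, ← add_sum_erase _ _ hw] at d
    rw [card_erase_of_mem hw, card_erase_of_mem hv, hC] at c
    rw [ls w v] at b
    norm_num at c
    omega
  have a : ∑ v ∈ C, ∑ w ∈ C, l v w ^ 2 ≤ ∑ v ∈ C, (r v ^ 2 + (9 * r v - 16)) :=
    sum_le_sum fun v hv => by
      have k : ∑ w ∈ C.erase v, l v w ^ 2 ≤ ∑ w ∈ C.erase v, (3 * l v w - 2) :=
        sum_le_sum fun w hw => by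
          have k1 := h1 v hv w (mem_of_mem_erase hw)
          have k2 := l2 v hv w hw
          nlinarith
      rw [sum_sub_distrib, ← mul_sum, s1 v hv, sum_const, nsmul_eq_mul, m8 v hv] at k
      rw [← add_sum_erase _ _ hv, ld]
      omega
  have b : ∑ e ∈ H, (∑ f ∈ H, 3 * (∑ v ∈ C, χ v e * χ v f) - 8) ≤
      ∑ e ∈ H, ∑ f ∈ H, (∑ v ∈ C, χ v e * χ v f) ^ 2 := sum_le_sum fun e he => by
    have d : ∑ v ∈ C, χ v e * χ v e = 4 := by simp only [hs, hc e he]
    have m : ((H.erase e).card : ℤ) = 6 := by rw [card_erase_of_mem he, hH]; rfl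
    have k : ∑ f ∈ H.erase e, (3 * (∑ v ∈ C, χ v e * χ v f) - 2) ≤
        ∑ f ∈ H.erase e, (∑ v ∈ C, χ v e * χ v f) ^ 2 := sum_le_sum fun f _ => by
      generalize ∑ v ∈ C, χ v e * χ v f = k
      rcases le_or_gt k 1 with h | h <;> nlinarith
    rw [sum_sub_distrib, sum_const, nsmul_eq_mul, m] at k
    rw [← add_sum_erase _ _ he, ← add_sum_erase _ (fun f => (∑ v ∈ C, χ v e * χ v f) ^ 2) he, d]
    omega
  have c : ∑ e ∈ H, ∑ f ∈ H, 3 * (∑ v ∈ C, χ v e * χ v f) = 3 * ∑ v ∈ C, r v ^ 2 := by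
    simp only [← mul_sum]
    congr 1
    simp only [hr, sq, sum_mul_sum]
    exact (sum_congr rfl fun e _ => sum_comm).trans sum_comm
  have e : ∑ v ∈ C, ∑ w ∈ C, l v w ^ 2 = ∑ e ∈ H, ∑ f ∈ H, (∑ v ∈ C, χ v e * χ v f) ^ 2 := by
    simp only [hl, sq, sum_mul_sum]
    refine (sum_congr rfl fun v _ => sum_comm.trans (sum_congr rfl fun e _ => sum_comm)).trans
      (sum_comm.trans (sum_congr rfl fun e _ => sum_comm.trans (sum_congr rfl fun f _ =>
        sum_congr rfl fun v _ => sum_congr rfl fun w _ => by ring)))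
  have f : ∑ v ∈ C, (7 * r v - 12) ≤ ∑ v ∈ C, r v ^ 2 := sum_le_sum fun v _ => by
    generalize r v = k
    rcases le_or_gt k 3 with h | h <;> nlinarith
  rw [sum_add_distrib, sum_sub_distrib, ← mul_sum, r28, sum_const, hC, e] at a
  rw [sum_sub_distrib, c, sum_const, hH] at b
  rw [sum_sub_distrib, ← mul_sum, r28, sum_const, hC] at f
  norm_num at a b f
  omega

theorem x9 {H : Finset (Finset V)} (h5 : U5 H) (hm : H.card = 7) (hn : (cov H).card = 9) :
    tau H ≤ 2 := by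
  by_contra ht
  refine x9_num (χ := fun v e => if v ∈ e then 0 else 1) hn hm
    (fun v e => by split_ifs <;> rfl) (fun e he => ?_) fun v _ w _ => ?_
  · have s : e ⊆ cov H := fun v hv => mem_cov.2 ⟨e, he, hv⟩
    have a : ∑ v ∈ cov H, (if v ∈ e then (0 : ℤ) else 1) = ((cov H \ e).card : ℤ) := by
      simp only [← ite_not (_ ∈ e), sum_boole, sdiff_eq_filter]
    rw [a, card_sdiff_of_subset s, hn, h5 e he]
    rfl
  · have a : ∃ e ∈ H, v ∉ e ∧ w ∉ e := by
      by_contra h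
      push Not at h
      refine ht ((tau_le (T := {v, w}) fun e he => ?_).trans card_le_two)
      by_cases k : v ∈ e
      exacts [⟨v, k, by simp⟩, ⟨w, h e he k, by simp⟩]
    obtain ⟨e, he, h1, h2⟩ := a
    refine le_trans ?_ (single_le_sum
      (f := fun e => (if v ∈ e then (0 : ℤ) else 1) * if w ∈ e then 0 else 1)
      (fun f _ => by split_ifs <;> norm_num) he)
    simp only [h1, h2, if_false, mul_one, le_refl]

end Pool.Agent.Work.MP_d266e7_co
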