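import Pool.Agent.Work.MP_d266e7_co.Full.BDefs
import Pool.Agent.Work.MP_d266e7_co.Full.Ext
import Pool.Agent.Work.MP_d266e7_co.Full.X9
import Pool.Agent.Work.MP_d266e7_co.P24Q.QX15b

/-!
The top level: `44 tau ≤ 9 n + 7 e5 + 14 e4 + 17 e3` for families with nodes of size three, four
or five. `TMin H`: a counterexample with the least number of nodes. It is critical and connected,
the weight `twd` of a star is at most four, two nodes have at most three common blocks. `TUnf H f`
adds a private block to each node of size four; `TMin.close` is the final count.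
-/

namespace Pool.Agent.Work.MP_d266e7_co.Mix

open Finset C5 C5.P24

variable {V : Type} [DecidableEq V]

/-- nodes of size three, four or five -/
def TSz (H : Finset (Finset V)) : Prop := ∀ e ∈ H, e.card = 3 ∨ e.card = 4 ∨ e.card = 5

/-- value of a node -/
def tv (e : Finset V) : ℕ := if e.card = 5 then 7 else if e.card = 4 then 14 else 17

/-- weight of a node -/
def tw (e : Finset V) : ℕ := if e.card = 5 then 1 else 2

/-- weight of a star -/
def twd (H : Finset (Finset V)) (v : V) : ℕ := ∑ e ∈ star H v, tw e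

def TOk (H : Finset (Finset V)) : Prop := 44 * tau H ≤ 9 * (cov H).card + ∑ e ∈ H, tv e

structure TMin (H : Finset (Finset V)) : Prop where
  sz : TSz H
  bad : ¬ TOk H
  ih : ∀ K : Finset (Finset V), TSz K → K.card < H.card → TOk K

variable {H : Finset (Finset V)}

omit [DecidableEq V] in
theorem TSz.ne (h : TSz H) : NE H := fun e he => card_pos.1 (by have := h e he; omega)

omit [DecidableEq V] in
theorem TSz.mono (h : TSz H) {K : Finset (Finset V)} (s : K ⊆ H) : TSz K := fun e he => h e (s he)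

omit [DecidableEq V] in
theorem tw_le (e : Finset V) : 7 * tw e ≤ tv e := by
  unfold tw tv
  split_ifs <;> omega

omit [DecidableEq V] in
theorem tv5 {e : Finset V} (h : e.card = 5) : tv e = 7 := if_pos h

omit [DecidableEq V] in
theorem tv4 {e : Finset V} (h : e.card = 4) : tv e = 14 := by simp [tv, h]

omit [DecidableEq V] in
theorem tv3 {e : Finset V} (h : e.card = 3) : tv e = 17 := by simp [tv, h]

omit [DecidableEq V] in
theorem tw5 {e : Finset V} (h : e.card = 5) : tw e = 1 := if_pos h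

omit [DecidableEq V] in
theorem tw3 {e : Finset V} (h : e.card = 3) : tw e = 2 := by simp [tw, h]

omit [DecidableEq V] in
theorem tw_pos (e : Finset V) : 1 ≤ tw e := by
  unfold tw
  split_ifs <;> omega

/-- the general swap: delete the nodes `A`, add the nodes `B`, lose the blocks `Z`, lift covers
by at most `k` blocks -/
theorem TMin.swap (h : TMin H) {A B : Finset (Finset V)} {Z : Finset V} {k : ℕ} (hA : A ⊆ H)
    (hB : TSz B) (hc : B.card < A.card) (hZ : Z ⊆ cov H) (hBc : cov B ⊆ cov H)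
    (hz : Disjoint Z (cov (H \ A ∪ B))) (ht : tau H ≤ tau (H \ A ∪ B) + k) :
    9 * Z.card + ∑ e ∈ A, tv e < 44 * k + ∑ e ∈ B, tv e := by
  have h1 : TSz (H \ A ∪ B) := fun e he =>
    (mem_union.1 he).elim (fun k => h.sz e (mem_sdiff.1 k).1) (hB e)
  have h2 := card_union_le (H \ A) B
  have h3 := card_sdiff_add_card_eq_card hA
  have h4 := h.ih _ h1 (by omega)
  have h5 := h.bad
  have h6 : Z ∪ cov (H \ A ∪ B) ⊆ cov H := union_subset hZ (by
    rw [cov_union]
    exact union_subset (cov_mono sdiff_subset) hBc)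
  have h7 := card_le_card h6
  rw [card_union_of_disjoint hz] at h7
  have h8 : ∑ e ∈ H \ A ∪ B, tv e + ∑ e ∈ (H \ A) ∩ B, tv e =
      ∑ e ∈ H \ A, tv e + ∑ e ∈ B, tv e := sum_union_inter
  have h9 : ∑ e ∈ H \ A, tv e + ∑ e ∈ A, tv e = ∑ e ∈ H, tv e := sum_sdiff hA
  unfold TOk at h4 h5
  omega

theorem TMin.crit (h : TMin H) : Crit H := fun e he => by
  by_contra k
  have := h.swap (A := {e}) (B := ∅) (Z := ∅) (k := 0) (singleton_subset_iff.2 he)
    (fun _ m => absurd m (notMem_empty _)) (by simp) (empty_subset _) (empty_subset _)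
    (disjoint_empty_left _) (by rw [union_empty, sdiff_singleton_eq_erase]; omega)
  simp at this

theorem TMin.conn (h : TMin H) : Conn H := by
  by_contra k
  obtain ⟨W, w1, w2, w3, w4⟩ := not_conn k
  have hN := h.sz.ne
  have e1 := tau_union_le (hN.mono w1) (hN.mono (sdiff_subset (s := H) (t := W)))
  have e5 := w4.card_cov
  rw [union_sdiff_of_subset w1] at e1 e5
  have e2 := card_sdiff_add_card_eq_card w1
  have e3 : W.card < H.card := card_lt_card (Finset.ssubset_iff_subset_ne.2 ⟨w1, w3⟩)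
  have e4 := card_pos.2 w2
  have i1 := h.ih W (h.sz.mono w1) e3
  have i2 := h.ih (H \ W) (h.sz.mono sdiff_subset) (by omega)
  have h9 : ∑ e ∈ H \ W, tv e + ∑ e ∈ W, tv e = ∑ e ∈ H, tv e := sum_sdiff w1
  have h5 := h.bad
  unfold TOk at i1 i2 h5
  omega

theorem TMin.ne (h : TMin H) : H.Nonempty := by
  refine nonempty_iff_ne_empty.2 fun e => h.bad ?_
  rw [TOk, e, tau_empty]
  exact Nat.zero_le _

/-- delete a star; the blocks of `Z` disappear -/
theorem TMin.del (h : TMin H) {v : V} {Z : Finset V} (hv : v ∈ cov H) (hZ : Z ⊆ cov H)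
    (hz : ∀ u ∈ Z, star H u ⊆ star H v) : 9 * Z.card + ∑ e ∈ star H v, tv e < 44 := by
  obtain ⟨e, he⟩ := mem_cov.1 hv
  have := h.swap (A := MP_d266e7_co.star H v) (B := ∅) (Z := Z) (k := 1) (filter_subset _ _)
    (fun _ m => absurd m (notMem_empty _)) (card_pos.2 ⟨e, mem_star.2 he⟩) hZ (empty_subset _)
    (disjoint_left.2 fun u hu m => by
      rw [union_empty] at m
      obtain ⟨x, hx, k⟩ := mem_cov.1 m
      exact (mem_sdiff.1 hx).2 (hz u hu (mem_star.2 ⟨(mem_sdiff.1 hx).1, k⟩)))
    (by rw [union_empty]; exact tau_star h.sz.ne v)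
  simpa using this

theorem top_lift {K : Finset (Finset V)} (hK : NE K) {k : ℕ}
    (h : ∀ T, Hits T K → ∃ T', Hits T' H ∧ T'.card ≤ T.card + k) : tau H ≤ tau K + k := by
  obtain ⟨T, h1, h2⟩ := exists_opt hK
  obtain ⟨T', h3, h4⟩ := h T h1
  exact (tau_le h3).trans (h2 ▸ h4)

theorem TMin.d4 (h : TMin H) (v : V) : twd H v ≤ 4 := by
  by_cases hv : v ∈ cov H
  · have h1 := h.del (Z := {v}) hv (singleton_subset_iff.2 hv) fun u hu => by
      rw [mem_singleton.1 hu]
    have h2 : 7 * twd H v ≤ ∑ e ∈ star H v, tv e := by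
      rw [twd, mul_sum]
      exact sum_le_sum fun e _ => tw_le e
    rw [card_singleton] at h1
    omega
  · rw [twd, sum_eq_zero fun e he => absurd (mem_cov.2 ⟨e, mem_star.1 he⟩) hv]
    omega

theorem TMin.nsub (h : TMin H) {e f : Finset V} (he : e ∈ H) (hf : f ∈ H) (s : e ⊆ f) : e = f := by
  by_contra k
  have h1 := h.crit f hf
  have h2 := top_lift (H := H) (k := 0) (h.sz.ne.mono (erase_subset f H)) fun T hT =>
    ⟨T, fun x hx => by
      by_cases m : x = f
      · obtain ⟨v, h3, h4⟩ := hT e (mem_erase.2 ⟨k, he⟩)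
        exact ⟨v, m ▸ s h3, h4⟩
      · exact hT x (mem_erase.2 ⟨m, hx⟩), le_rfl⟩
  omega

theorem TMin.c3 (h : TMin H) {e f : Finset V} (he : e ∈ H) (hf : f ∈ H) (k : e ≠ f) :
    (e ∩ f).card ≤ 3 := by
  by_contra m
  have a : (e ∩ f).card < e.card := card_lt_card ⟨inter_subset_left, fun s =>
    k (h.nsub he hf (s.trans inter_subset_right))⟩
  have b : (e ∩ f).card < f.card := card_lt_card ⟨inter_subset_right, fun s =>
    k (h.nsub hf he (s.trans inter_subset_left)).symm⟩
  have c := h.sz e he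
  have d := h.sz f hf
  have c4 : (e ∩ f).card = 4 := by omega
  have s : TSz {e ∩ f} := fun x hx => by rw [mem_singleton.1 hx]; omega
  have := h.swap (A := {e, f}) (B := {e ∩ f}) (Z := ∅) (k := 0)
    (insert_subset he (singleton_subset_iff.2 hf)) s (by rw [card_pair k]; simp) (empty_subset _)
    (fun v hv => by
      obtain ⟨x, hx, hv⟩ := mem_cov.1 hv
      rw [mem_singleton.1 hx] at hv
      exact mem_cov.2 ⟨e, he, (mem_inter.1 hv).1⟩) (disjoint_empty_left _)
    (top_lift (fun x hx => (mem_union.1 hx).elim (fun k => h.sz.ne x (mem_sdiff.1 k).1) (s.ne x))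
      fun T hT => ⟨T, fun x hx => by
        obtain ⟨v, h3, h4⟩ := hT (e ∩ f) (mem_union_right _ (mem_singleton_self _))
        by_cases m1 : x = e
        · exact ⟨v, m1 ▸ (mem_inter.1 h3).1, h4⟩
        by_cases m2 : x = f
        · exact ⟨v, m2 ▸ (mem_inter.1 h3).2, h4⟩
        exact hT x (mem_union_left _ (mem_sdiff.2 ⟨hx, by simp [m1, m2]⟩)), le_rfl⟩)
  rw [sum_pair k, sum_singleton, tv4 c4, tv5 (e := e) (by omega), tv5 (e := f) (by omega)] at this
  simp at this

/-- every node of size four gets a new private block -/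
structure TUnf (H : Finset (Finset V)) (f : Finset V → Finset V) : Prop where
  ext : Ext H f
  c4 : ∀ e ∈ H, e.card = 4 → (f e).card = 5
  same : ∀ e ∈ H, e.card ≠ 4 → f e = e

variable {f : Finset V → Finset V}

theorem exists_tunf [Infinite V] (h : NE H) : ∃ f, TUnf H f := by
  obtain ⟨f, h1, h2⟩ := exists_ext h fun e => if e.card = 4 then 1 else 0
  refine ⟨f, h1, fun e he k => by rw [h2 e he, if_pos k, k], fun e he k => ?_⟩
  exact (eq_of_subset_of_card_le (h1.sub e he) (by rw [h2 e he, if_neg k]; rfl)).symm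

theorem TUnf.cls (u : TUnf H f) (h : TMin H) : Cls (H.image f) := by
  refine ⟨fun x hx => ?_, fun v => ?_, fun x hx y hy k => ?_⟩
  · obtain ⟨e, he, rfl⟩ := mem_image.1 hx
    by_cases k : e.card = 4
    · exact Or.inr (u.c4 e he k)
    · rw [u.same e he k]
      have := h.sz e he
      omega
  · by_cases hv : v ∈ cov H
    · rw [wdeg, u.ext.star_old hv, u.ext.sum_image (S := star H v) (filter_subset _ _)]
      refine le_trans (sum_le_sum fun e he => ?_) (h.d4 v)
      have he' := (mem_star.1 he).1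
      by_cases k : e.card = 4
      · rw [wt, u.c4 e he' k]
        exact tw_pos e
      · rw [u.same e he' k, wt, tw]
        split_ifs <;> omega
    · have h1 : (star (H.image f) v).card ≤ 1 := u.ext.dg_new hv
      have h2 : wdeg (H.image f) v ≤ (star (H.image f) v).card • 2 :=
        sum_le_card_nsmul _ _ _ fun e _ => by
          unfold wt
          split_ifs <;> omega
      rw [smul_eq_mul] at h2
      omega
  · obtain ⟨e, he, rfl⟩ := mem_image.1 hx
    obtain ⟨e', he', rfl⟩ := mem_image.1 hy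
    have m : e ≠ e' := fun m => k (m ▸ rfl)
    rw [u.ext.inter he he' m]
    exact h.c3 he he' m

theorem TUnf.np_pos (u : TUnf H f) {e : Finset V} (he : e ∈ H) (k : e.card = 4) :
    1 ≤ np (H.image f) (f e) := by
  have := u.ext.priv he
  rw [u.c4 e he k, k] at this
  exact this

/-- a node of size three or without private block is an old node -/
theorem TUnf.gen (u : TUnf H f) {x : Finset V} (hx : x ∈ H.image f)
    (h : x.card = 3 ∨ np (H.image f) x = 0) : x ∈ H ∧ f x = x := by
  obtain ⟨e, he, rfl⟩ := mem_image.1 hx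
  have k : e.card ≠ 4 := fun k => by
    have h1 := u.np_pos he k
    have h2 := u.c4 e he k
    omega
  rw [u.same e he k]
  exact ⟨he, u.same e he k⟩

theorem TUnf.mem (u : TUnf H f) {e : Finset V} (he : e ∈ H) (k : e.card ≠ 4) : e ∈ H.image f :=
  u.same e he k ▸ mem_image_of_mem f he

/-- the star of an old block lies in a set of old nodes -/
theorem TUnf.star_sub (u : TUnf H f) {v : V} {N : Finset (Finset V)} (hN : ∀ x ∈ N, x ∈ H ∧ f x = x)
    (h : star (H.image f) v ⊆ N) : star H v ⊆ N := fun e he => by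
  obtain ⟨h1, h2⟩ := mem_star.1 he
  have h3 := h (mem_star.2 ⟨mem_image_of_mem f h1, u.ext.sub e h1 h2⟩)
  obtain ⟨h4, h5⟩ := hN _ h3
  rwa [← u.ext.inj h4 h1 h5]

omit [DecidableEq V] in
theorem top_sum_sz (h : TSz H) (g : ℕ → ℕ) :
    ∑ e ∈ H, g e.card = g 3 * ek H 3 + g 4 * ek H 4 + g 5 * ek H 5 := by
  simp only [ek, card_filter, mul_sum, ← sum_add_distrib]
  refine sum_congr rfl fun e he => ?_
  rcases h e he with k | k | k <;> simp [k]

theorem top_sum_star (H : Finset (Finset V)) (g : Finset V → ℕ) :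
    ∑ v ∈ cov H, ∑ e ∈ star H v, g e = ∑ e ∈ H, e.card * g e := by
  simp only [star, sum_filter]
  rw [sum_comm]
  refine sum_congr rfl fun e he => ?_
  rw [← sum_filter, filter_mem_eq_inter, inter_eq_right.2 fun v hv => mem_cov.2 ⟨e, he, hv⟩,
    sum_const, smul_eq_mul]

private theorem topk_all {n : ℕ} {f : ℕ → Bool} (h : ∀ k, k < n → f k = true) :
    X15.allLt n f = true := by
  induction n with
  | zero => rfl
  | succ n ih =>
    show (f n && X15.allLt n f) = true
    rw [h n (Nat.lt_succ_self n), ih fun k hk => h k (Nat.lt_succ_of_lt hk)]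
    rfl

private theorem topk_fin : X15.allLt 53 (fun n => X15.allLt 2 fun e3 => X15.allLt 43 fun e5 =>
    Nat.blt (4 * n) (5 * e5 + 6 * e3) || X15.ev ((9 * n + 7 * e5 + 17 * e3) / 44 + 1) fun t =>
      X15.allLt 5 fun p =>
      Nat.blt (4 * n) (5 * e5 + 6 * e3 + 3 * p) ||
      Nat.blt (138 * e5 + 276 * e3 + 108 * n + 13 * p + 46) (660 * t) ||
      (Nat.beq e3 0 && ((Nat.beq e5 7 && Nat.beq n 9 && Nat.beq t 3) ||
        (Nat.beq e5 12 && Nat.beq n 15 && Nat.beq t 5)))) = true := by
  decide +kernel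

theorem top_fin : X15.allLt 53 (fun n => X15.allLt 2 fun e3 => X15.allLt 43 fun e5 =>
    X15.allLt 19 fun t => Nat.ble (44 * t) (9 * n + 7 * e5 + 17 * e3) || X15.allLt 5 fun p =>
      Nat.blt (4 * n) (5 * e5 + 6 * e3 + 3 * p) ||
      Nat.blt (138 * e5 + 276 * e3 + 108 * n + 13 * p + 46) (660 * t) ||
      (Nat.beq e3 0 && ((Nat.beq e5 7 && Nat.beq n 9 && Nat.beq t 3) ||
        (Nat.beq e5 12 && Nat.beq n 15 && Nat.beq t 5)))) = true := by
  refine topk_all fun n hn => topk_all fun e3 h3 => topk_all fun e5 h5 => topk_all fun t _ => ?_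
  have k := X15.allLt_spec (X15.allLt_spec (X15.allLt_spec topk_fin n hn) e3 h3) e5 h5
  rw [Bool.or_eq_true, Nat.blt_eq, X15.ev_eq] at k
  rw [Bool.or_eq_true, Nat.ble_eq]
  by_cases c : 44 * t ≤ 9 * n + 7 * e5 + 17 * e3
  · exact Or.inl c
  refine Or.inr ?_
  by_cases d : t = (9 * n + 7 * e5 + 17 * e3) / 44 + 1 ∧ 5 * e5 + 6 * e3 ≤ 4 * n
  · rw [d.1]
    exact k.resolve_left (not_lt.2 d.2)
  refine topk_all fun p hp => ?_
  rw [Bool.or_eq_true, Bool.or_eq_true, Nat.blt_eq, Nat.blt_eq]
  clear k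
  exact Or.inl (by omega)

theorem top_num {n e3 e4 e5 t p : ℕ} (h1 : 9 * n + 7 * e5 + 14 * e4 + 17 * e3 < 44 * t)
    (h2 : 5 * e5 + 8 * e4 + 6 * e3 + 3 * p ≤ 4 * n)
    (h3 : 660 * t + 17 * e4 ≤ 138 * (e5 + e4) + 276 * e3 + 108 * (n + e4) + 13 * p + 46) :
    e3 = 0 ∧ e4 = 0 ∧ ((e5 = 7 ∧ n = 9 ∧ t = 3) ∨ (e5 = 12 ∧ n = 15 ∧ t = 5)) := by
  have a : e4 = 0 := by omega
  have b : n ≤ 52 := by omega
  have c : e3 ≤ 1 := by omega
  have d : t ≤ 18 := by omega
  have k := X15.allLt_spec (X15.allLt_spec (X15.allLt_spec (X15.allLt_spec top_fin n (by omega))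
    e3 (by omega)) e5 (by omega)) t (by omega)
  rw [Bool.or_eq_true, Nat.ble_eq] at k
  have k' := X15.allLt_spec (k.resolve_left (by omega)) p (by omega)
  simp only [Bool.or_eq_true, Bool.and_eq_true, Nat.blt_eq, Nat.beq_eq] at k'
  omega

/-- the final count: `T` is a set of `3 p` blocks whose stars have weight at most three -/
theorem TMin.close (h : TMin H) (u : TUnf H f) {β p : ℕ} (hβ : 17 ≤ β) {T : Finset V}
    (hT : T ⊆ cov H) (h3 : ∀ v ∈ T, twd H v ≤ 3) (hp : 3 * p ≤ T.card)
    (hb : -46 ≤ V0 (H.image f) + 13 * p - bonus β (H.image f) ∨ IsU (H.image f) ∨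
      (U5 (H.image f) ∧ E10 (H.image f))) : False := by
  have tau' := u.ext.tau_eq (S := H) Subset.rfl
  have bad := h.bad
  have s1 : ∑ e ∈ H, tv e = 17 * ek H 3 + 14 * ek H 4 + 7 * ek H 5 :=
    top_sum_sz h.sz fun k => if k = 5 then 7 else if k = 4 then 14 else 17
  have s2 : H.card = 1 * ek H 3 + 1 * ek H 4 + 1 * ek H 5 := by
    rw [card_eq_sum_ones]
    exact top_sum_sz h.sz fun _ => 1
  have fc : ∀ e ∈ H, (f e).card = if e.card = 4 then 5 else e.card := fun e he => by
    split_ifs with k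
    exacts [u.c4 e he k, by rw [u.same e he k]]
  have s3 : ∀ g : ℕ → ℕ, ∑ x ∈ H.image f, g x.card =
      g 3 * ek H 3 + g 5 * ek H 4 + g 5 * ek H 5 := fun g => by
    rw [u.ext.sum_image Subset.rfl, sum_congr rfl fun e he => by rw [fc e he]]
    exact top_sum_sz h.sz fun k => g (if k = 4 then 5 else k)
  have k5 : ek (H.image f) 5 = ek H 4 + ek H 5 := by
    rw [ek, card_filter, s3 fun k => if k = 5 then 1 else 0]
    simp
  have k3 : ek (H.image f) 3 = ek H 3 := by
    rw [ek, card_filter, s3 fun k => if k = 3 then 1 else 0]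
    simp
  have n' : (cov (H.image f)).card = (cov H).card + ek H 4 := by
    rw [u.ext.card_cov, sum_congr rfl fun e he => by rw [fc e he],
      top_sum_sz h.sz fun k => (if k = 4 then 5 else k) - k]
    simp
  unfold TOk at bad
  rcases hb with hb | ⟨K, k1, k2⟩ | ⟨-, hb⟩
  · have b1 : 17 * ek H 4 ≤ bonus β (H.image f) := by
      have a := top_sum_sz h.sz fun k => if k = 4 then 17 else 0
      rw [bonus, u.ext.sum_image Subset.rfl]
      refine le_trans (le_of_eq (by simpa using a.symm))
        (sum_le_sum (f := fun e => if e.card = 4 then 17 else 0) fun e he => ?_)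
      split_ifs with k
      · have := u.np_pos he k
        rw [bon, if_pos (u.c4 e he k)]
        split_ifs <;> omega
      · exact Nat.zero_le _
    have d1 : ∑ v ∈ cov H, twd H v = 6 * ek H 3 + 8 * ek H 4 + 5 * ek H 5 :=
      (top_sum_star H tw).trans (top_sum_sz h.sz fun k => k * if k = 5 then 1 else 2)
    have d2 : ∑ v ∈ cov H, (twd H v + if v ∈ T then 1 else 0) ≤ (cov H).card • 4 :=
      sum_le_card_nsmul _ _ _ fun v _ => by
        have := h.d4 v
        split_ifs with k
        · have := h3 v k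
          omega
        · omega
    rw [sum_add_distrib, d1, ← card_filter, filter_mem_eq_inter, inter_eq_right.2 hT,
      smul_eq_mul] at d2
    rw [V0, k5, k3, n', tau'] at hb
    obtain ⟨a, b, c⟩ := top_num (n := (cov H).card) (e3 := ek H 3) (e4 := ek H 4) (e5 := ek H 5)
      (t := tau H) (p := p) (by omega) (by omega) (by push_cast at hb; omega)
    have u5 : U5 H := fun e he => by
      rcases h.sz e he with k | k | k
      · exact absurd (a ▸ card_pos.2 ⟨e, mem_filter.2 ⟨he, k⟩⟩ : 0 < 0) (lt_irrefl 0)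
      · exact absurd (b ▸ card_pos.2 ⟨e, mem_filter.2 ⟨he, k⟩⟩ : 0 < 0) (lt_irrefl 0)
      · exact k
    rcases c with ⟨c1, c2, c3⟩ | ⟨c1, c2, c3⟩
    · have := x9 u5 (by omega) c2
      omega
    · have := x15_full u5 (by omega) c2 fun v => by
        refine le_trans ?_ (h.d4 v)
        rw [dg, card_eq_sum_ones]
        exact sum_le_sum fun e _ => tw_pos e
      omega
  · have a : (cov (H.image f)).card = 3 := by rw [k2, cov, singleton_biUnion, id, k1]
    have b : ek (H.image f) 3 = 1 := by rw [k2, ek, filter_singleton, if_pos k1, card_singleton]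
    have c : ek (H.image f) 5 = 0 := by
      rw [k2, ek, filter_singleton, if_neg (by omega), card_empty]
    obtain ⟨v, hv⟩ : K.Nonempty := card_pos.1 (by omega)
    have d : tau (H.image f) ≤ 1 := tau_le_one v fun e he => by
      rw [k2, mem_singleton] at he
      exact he ▸ hv
    omega
  · have a : ek H 4 = 0 := by
      rw [ek, card_eq_zero, filter_eq_empty_iff]
      intro e he k
      obtain ⟨v, hv⟩ := card_pos.1 (u.np_pos he k)
      obtain ⟨h1, h2⟩ := mem_filter.1 hv
      have := hb.d3 v (mem_cov.2 ⟨_, mem_image_of_mem f he, h1⟩)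
      omega
    have b := hb.m6
    have c := hb.n10
    have d := hb.t3
    rw [u.ext.card_image Subset.rfl] at b
    omega

/-- if there is no minimal counterexample the bound holds -/
theorem top_all (hno : ∀ H : Finset (Finset V), ¬ TMin H) (k : ℕ) :
    ∀ H : Finset (Finset V), H.card < k → TSz H → TOk H := by
  induction k with
  | zero => intro H h; omega
  | succ k ih =>
    intro H h1 h2
    by_contra h3
    exact hno H ⟨h2, h3, fun K k1 k2 => ih K (by omega) k1⟩

theorem top_export (hno : ∀ H : Finset (Finset ℕ), ¬ TMin H) (n : ℕ)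
    (E : Finset (Finset (Fin n))) (hE : ∀ e ∈ E, e.card = 5) :
    ∃ T : Finset (Fin n), (∀ e ∈ E, (e ∩ T).Nonempty) ∧ 44 * T.card ≤ 9 * n + 7 * E.card := by
  have h5 : U5 (E.image (map Fin.valEmbedding)) := fun e he => by
    obtain ⟨f, hf, rfl⟩ := mem_image.1 he
    rw [card_map, hE f hf]
  obtain ⟨T, h1, h2⟩ := exists_opt h5.ne
  have h4 : (cov (E.image (map Fin.valEmbedding))).card ≤ n := by
    refine (card_le_card (t := range n) fun v hv => ?_).trans (card_range n).le
    obtain ⟨e, he, hv⟩ := mem_cov.1 hv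
    obtain ⟨f, -, rfl⟩ := mem_image.1 he
    obtain ⟨w, -, rfl⟩ := mem_map.1 hv
    exact mem_range.2 w.2
  have h6 := top_all hno _ _ (Nat.lt_succ_self _) fun e he => Or.inr (Or.inr (h5 e he))
  rw [TOk, sum_congr rfl fun e he => tv5 (h5 e he), sum_const, smul_eq_mul] at h6
  have h8 : (E.image (map Fin.valEmbedding)).card ≤ E.card := card_image_le
  have h9 : (univ.filter fun v : Fin n => v.1 ∈ T).card ≤ T.card :=
    card_le_card_of_injOn Fin.val (fun v hv => (mem_filter.1 hv).2) Fin.val_injective.injOn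
  refine ⟨univ.filter fun v : Fin n => v.1 ∈ T, fun e he => ?_, by omega⟩
  obtain ⟨v, hv, h3⟩ := h1 _ (mem_image_of_mem _ he)
  obtain ⟨w, hw, rfl⟩ := mem_map.1 hv
  exact ⟨w, mem_inter.2 ⟨hw, mem_filter.2 ⟨mem_univ _, h3⟩⟩⟩

end Pool.Agent.Work.MP_d266e7_co.Mix
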