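import Pool.Agent.Work.MP_d266e7_co.Full.Sum

/-!
Unfolding a family of the class to a family of nodes with five blocks.
-/

namespace Pool.Agent.Work.MP_d266e7_co.Mix

open Finset C5 C5.P24

variable {V : Type} [DecidableEq V]

/-- every node of size three gets two new private blocks -/
structure Un5 (H : Finset (Finset V)) (f : Finset V → Finset V) : Prop where
  cls : Cls H
  unf : Unf H f
  c5 : ∀ e ∈ H, (f e).card = 5

theorem exists_un5 [Infinite V] {H : Finset (Finset V)} (h : Cls H) : ∃ f, Un5 H f := by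
  obtain ⟨f, a, b⟩ := exists_unf H fun e => 5 - e.card
  exact ⟨f, h, a, fun e he => by have := b e he; have := h.sz e he; omega⟩

omit [DecidableEq V] in
theorem card_eq_ek {H : Finset (Finset V)} (h : Sz H) : H.card = ek H 5 + ek H 3 := by
  rw [ek, ek, card_filter, card_filter, ← sum_add_distrib, card_eq_sum_ones]
  refine sum_congr rfl fun e he => ?_
  rcases h e he with k | k <;> simp [k]

omit [DecidableEq V] in
theorem sum_size {H : Finset (Finset V)} (h : Sz H) :
    ∑ e ∈ H, e.card = 5 * ek H 5 + 3 * ek H 3 := by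
  rw [ek, ek, card_filter, card_filter, mul_sum, mul_sum, ← sum_add_distrib]
  refine sum_congr rfl fun e he => ?_
  rcases h e he with k | k <;> simp [k]

/-- the weighted degree counts the nodes of size three twice -/
theorem wdeg_eq (H : Finset (Finset V)) (v : V) :
    wdeg H v = dg H v + dg (H.filter fun e => e.card = 3) v := by
  have e : star (H.filter fun e => e.card = 3) v = (star H v).filter fun e => e.card = 3 :=
    filter_comm _ _ _
  rw [wdeg, dg, dg, e, card_filter, card_eq_sum_ones, ← sum_add_distrib]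
  refine sum_congr rfl fun e _ => ?_
  unfold wt
  split_ifs <;> rfl

theorem dg_lt_wdeg {H : Finset (Finset V)} {K : Finset V} (hK : K ∈ H) (k3 : K.card = 3) {v : V}
    (hv : v ∈ K) : dg H v + 1 ≤ wdeg H v := by
  have : 1 ≤ dg (H.filter fun e => e.card = 3) v :=
    dg_pos.2 (mem_cov.2 ⟨K, mem_filter.2 ⟨hK, k3⟩, hv⟩)
  rw [wdeg_eq]
  omega

namespace Un5

variable {H : Finset (Finset V)} {f : Finset V → Finset V}

theorem u5 (h : Un5 H f) : U5 (H.image f) := fun x hx => by
  obtain ⟨e, he, rfl⟩ := mem_image.1 hx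
  exact h.c5 e he

theorem cc (h : Un5 H f) (m : MC H) : CC (H.image f) := (h.unf.mc m).cc h.u5

theorem card (h : Un5 H f) : (H.image f).card = ek H 5 + ek H 3 :=
  (h.unf.card_im Subset.rfl).trans (card_eq_ek h.cls.sz)

theorem cov_card (h : Un5 H f) : (cov (H.image f)).card = (cov H).card + 2 * ek H 3 := by
  have a := h.unf.cov_card
  rw [sum_size h.cls.sz, sum_const_nat h.c5, card_eq_ek h.cls.sz] at a
  omega

theorem tau_eq (h : Un5 H f) : tau (H.image f) = tau H := h.unf.tau_im h.cls.ne Subset.rfl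

theorem fix (h : Un5 H f) {e : Finset V} (he : e ∈ H) (e5 : e.card = 5) : f e = e :=
  h.unf.eq_self he (by rw [h.c5 e he, e5])

theorem dg_le (h : Un5 H f) {d : ℕ} (h1 : 1 ≤ d) (hd : ∀ v, dg H v ≤ d) (v : V) :
    dg (H.image f) v ≤ d := by
  by_cases c : v ∈ cov H
  · exact h.unf.dg_old c ▸ hd v
  · exact (h.unf.dg_new c).trans h1

theorem c3 (h : Un5 H f) : ∀ x ∈ H.image f, ∀ y ∈ H.image f, x ≠ y → (x ∩ y).card ≤ 3 := by
  intro x hx y hy c
  obtain ⟨e, he, rfl⟩ := mem_image.1 hx
  obtain ⟨e', he', rfl⟩ := mem_image.1 hy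
  have k : e ≠ e' := fun k => c (k ▸ rfl)
  rw [h.unf.inter he he' k]
  exact h.cls.c3 e he e' he' k

/-- the private blocks of an unfolded node -/
theorem np_im (h : Un5 H f) {e : Finset V} (he : e ∈ H) :
    np (H.image f) (f e) + e.card = np H e + 5 := by
  have a : (f e).filter (fun v => dg (H.image f) v ≤ 1) =
      e.filter (fun v => dg H v ≤ 1) ∪ f e \ cov H := by
    ext v
    simp only [mem_filter, mem_union, mem_sdiff]
    by_cases c : v ∈ cov H
    · rw [h.unf.dg_old c, h.unf.mem he c]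
      tauto
    · have := h.unf.dg_new c
      have : v ∉ e := fun k => c (mem_cov.2 ⟨e, he, k⟩)
      tauto
  have b := card_sdiff_add_card_inter (f e) (cov H)
  rw [h.unf.old e he, h.c5 e he] at b
  rw [np, np, a, card_union_of_disjoint (disjoint_left.2 fun v a b =>
    (mem_sdiff.1 b).2 (mem_cov.2 ⟨e, he, (mem_filter.1 a).1⟩))]
  omega

/-- a node of the unfolded family without private blocks is a node of the family -/
theorem old (h : Un5 H f) {x : Finset V} (hx : x ∈ H.image f) (n : np (H.image f) x = 0) :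
    x ∈ H ∧ x.card = 5 ∧ np H x = 0 := by
  obtain ⟨e, he, rfl⟩ := mem_image.1 hx
  have a := h.np_im he
  have e5 : e.card = 5 := by have := h.cls.sz e he; omega
  rw [h.fix he e5] at *
  exact ⟨he, e5, by omega⟩

theorem trc (h : Un5 H f) {c w y : Finset V} (hc : c ∈ H.image f) (hw : w ∈ H.image f)
    (hy : y ∈ H.image f) (h3 : (c ∩ w).card = 3) (hs : sd c w ⊆ y) : Trc H c w := by
  have key : ∀ c ∈ H.image f, ∀ w ∈ H.image f, (c ∩ w).card = 3 → sd c w ⊆ y →
      np (H.image f) c = 0 := fun c hc w hw h3 hs => np_zero fun v hv => by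
    by_contra k
    have one := card_le_one.1 (show dg (H.image f) v ≤ 1 by omega)
    have c5 := h.u5 c hc
    have w5 := h.u5 w hw
    by_cases a : v ∈ w
    · rw [one c (mem_star.2 ⟨hc, hv⟩) w (mem_star.2 ⟨hw, a⟩), inter_self] at h3
      omega
    · have e := one c (mem_star.2 ⟨hc, hv⟩) y (mem_star.2 ⟨hy, hs (mem_sd.2 (Or.inl ⟨hv, a⟩))⟩)
      have : w ⊆ c ∩ w := fun u hu => mem_inter.2 ⟨by_contra fun b =>
        b (e ▸ hs (mem_sd.2 (Or.inr ⟨b, hu⟩))), hu⟩
      have := card_le_card this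
      omega
  obtain ⟨c1, c2, c3⟩ := h.old hc (key c hc w hw h3 hs)
  obtain ⟨w1, w2, w3⟩ := h.old hw (key w hw c hc (inter_comm c w ▸ h3) (sd_comm c w ▸ hs))
  obtain ⟨e, he, rfl⟩ := mem_image.1 hy
  have s : sd c w ⊆ e := fun v hv => (h.unf.mem he (by
    rcases mem_sd.1 hv with a | a
    exacts [mem_cov.2 ⟨c, c1, a.1⟩, mem_cov.2 ⟨w, w1, a.2⟩])).1 (hs hv)
  refine ⟨⟨c1, w1, c2, w2, h3, c3, w3⟩, e, he, ?_, s⟩
  have a := card_le_card s
  have b := sd_card c2 w2 h3
  have := h.cls.sz e he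
  omega

/-- with pendant traces only, the traces of the unfolded family are counted by their cores -/
theorem hi_le (h : Un5 H f) (hp : ∀ c w, Trc H c w → Pend H c w) :
    hi (H.image f) (H.image f) ≤ piG H := by
  have key : ∀ p ∈ ((H.image f).powersetCard 2).filter (Tr (H.image f)),
      ∃ c w, Trc H c w ∧ p = {c, w} := fun p hp => by
    obtain ⟨a, c, hc, w, hw, h3, y, hy, hs⟩ := mem_filter.1 hp
    have s := (mem_powersetCard.1 a).1
    exact ⟨c, w, h.trc (s hc) (s hw) hy h3 hs, earhi_pair a hc hw (h.u5 c (s hc)) h3⟩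
  choose! c w k1 k2 using key
  refine card_le_card_of_injOn (fun p => c p ∩ w p)
    (fun p a => mem_coe.2 (mem_gps.2 (Or.inl ⟨_, _, k1 p a, rfl⟩))) fun p a q b e => ?_
  obtain ⟨s, hs⟩ := card_pos.1 (show 0 < (c p ∩ w p).card by rw [(k1 p a).1.i3]; omega)
  rw [k2 p a, k2 q b, ← hp _ _ (k1 p a) s hs, ← hp _ _ (k1 q b) s (by
    have e' : c p ∩ w p = c q ∩ w q := e
    exact e' ▸ hs)]

end Un5

end Pool.Agent.Work.MP_d266e7_co.Mix
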