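import Pool.Agent.Work.MP_d266e7_co.P24.Trace

/-!
Counting the vertices of a family with five members by their incidence pattern.
-/

namespace Pool.Agent.Work.MP_d266e7_co.C5.P24

open Finset

variable {V : Type} [DecidableEq V]

/-- incidence pattern of a vertex -/
def vcode (q : Fin 5 → Finset V) (v : V) : ℕ := Nat.ofBits fun i => decide (v ∈ q i)

def vsum (μ : ℕ → ℕ) (P : ℕ → Bool) : ℕ → ℕ
  | 0 => 0
  | k + 1 => vsum μ P k + cond (P k) (μ k) 0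

def vpc (k : ℕ) : ℕ := (k.testBit 0).toNat + (k.testBit 1).toNat + (k.testBit 2).toNat +
  (k.testBit 3).toNat + (k.testBit 4).toNat

theorem vcode_lt (q : Fin 5 → Finset V) (v : V) : vcode q v < 32 := Nat.ofBits_lt_two_pow _

theorem vcode_bit (q : Fin 5 → Finset V) (v : V) (i : Fin 5) :
    (vcode q v).testBit i = decide (v ∈ q i) := Nat.testBit_ofBits_lt _ _ i.2

theorem vsum_eq (s : Finset V) (f : V → ℕ) (P : ℕ → Bool) (n : ℕ) :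
    vsum (fun k => (s.filter fun v => f v = k).card) P n =
      (s.filter fun v => f v < n ∧ P (f v) = true).card := by
  induction n with
  | zero => simp [vsum]
  | succ n ih =>
    rw [vsum, ih]
    cases h : P n
    · refine congrArg card (filter_congr fun v _ => ⟨fun a => ⟨by omega, a.2⟩, fun a => ⟨?_, a.2⟩⟩)
      by_contra c
      have e : f v = n := by omega
      rw [e, h] at a
      exact absurd a.2 (by decide)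
    · rw [cond_true, ← card_union_of_disjoint (disjoint_filter.2 fun v _ a b => by omega),
        ← filter_or]
      refine congrArg card (filter_congr fun v _ => ⟨fun a => ?_, fun a => ?_⟩)
      · rcases a with a | a
        · exact ⟨by omega, a.2⟩
        · exact ⟨by omega, a ▸ h⟩
      · by_cases c : f v = n
        · exact Or.inr c
        · exact Or.inl ⟨by omega, a.2⟩

/-- the number of vertices with a given pattern -/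
def vmu (H : Finset (Finset V)) (q : Fin 5 → Finset V) (k : ℕ) : ℕ :=
  ((cov H).filter fun v => vcode q v = k).card

theorem vmu_card (H : Finset (Finset V)) (q : Fin 5 → Finset V) (P : ℕ → Bool) {s : Finset V}
    (h : ∀ v, v ∈ s ↔ v ∈ cov H ∧ P (vcode q v) = true) : s.card = vsum (vmu H q) P 32 := by
  refine Eq.trans (congrArg card ?_) (vsum_eq (cov H) (vcode q) P 32).symm
  ext v
  rw [h, mem_filter]
  exact ⟨fun a => ⟨a.1, vcode_lt q v, a.2⟩, fun a => ⟨a.1, a.2.2⟩⟩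

theorem vmu_pos {H : Finset (Finset V)} {q : Fin 5 → Finset V} {k : ℕ} (h : 1 ≤ vmu H q k) :
    ∃ v ∈ cov H, ∀ i : Fin 5, v ∈ q i ↔ k.testBit i = true := by
  obtain ⟨v, hv⟩ := card_pos.1 h
  obtain ⟨h1, h2⟩ := mem_filter.1 hv
  exact ⟨v, h1, fun i => by rw [← h2, vcode_bit, decide_eq_true_eq]⟩

/-- an enumeration of the five members -/
structure En5 (H : Finset (Finset V)) (q : Fin 5 → Finset V) : Prop where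
  inj : Function.Injective q
  mem : ∀ i, q i ∈ H
  all : ∀ e ∈ H, ∃ i, e = q i

theorem en5_of {H : Finset (Finset V)} (hm : H.card = 5) {q : Fin 5 → Finset V}
    (mem : ∀ i, q i ∈ H) (all : ∀ e ∈ H, ∃ i, e = q i) : En5 H q := by
  refine ⟨?_, mem, all⟩
  have e : univ.image q = H := Subset.antisymm (image_subset_iff.2 fun i _ => mem i)
    fun e he => by
      obtain ⟨i, rfl⟩ := all e he
      exact mem_image_of_mem _ (mem_univ _)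
  have := card_image_iff.1 (show (univ.image q).card = (univ : Finset (Fin 5)).card by
    rw [e, hm]; rfl)
  exact fun i j k => this (mem_coe.2 (mem_univ _)) (mem_coe.2 (mem_univ _)) k

theorem vpc_fin : ∀ f : Fin 5 → Bool, (univ.filter fun i => f i = true).card =
    vpc (Nat.ofBits f) := by decide

theorem En5.dg {H : Finset (Finset V)} {q : Fin 5 → Finset V} (h : En5 H q) (v : V) :
    C5.dg H v = vpc (vcode q v) := by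
  rw [vcode, ← vpc_fin, ← card_image_of_injective _ h.inj]
  refine congrArg card ?_
  ext e
  simp only [mem_star, mem_image, mem_filter, mem_univ, true_and, decide_eq_true_eq]
  constructor
  · rintro ⟨a, b⟩
    obtain ⟨i, rfl⟩ := h.all e a
    exact ⟨i, b, rfl⟩
  · rintro ⟨i, a, rfl⟩
    exact ⟨h.mem i, a⟩

theorem En5.sub {H : Finset (Finset V)} {q : Fin 5 → Finset V} (h : En5 H q) {i : Fin 5} {v : V}
    (hv : v ∈ q i) : v ∈ cov H := mem_cov.2 ⟨_, h.mem i, hv⟩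

theorem En5.zero {H : Finset (Finset V)} {q : Fin 5 → Finset V} (h : En5 H q) :
    vmu H q 0 = 0 := by
  by_contra c
  obtain ⟨v, hv, k⟩ := vmu_pos (Nat.one_le_iff_ne_zero.2 c)
  obtain ⟨e, he, a⟩ := mem_cov.1 hv
  obtain ⟨i, rfl⟩ := h.all e he
  simpa using (k i).1 a

theorem En5.big {H : Finset (Finset V)} {q : Fin 5 → Finset V} (h : En5 H q) {d : ℕ}
    (h3 : ∀ v, C5.dg H v ≤ d) {k : ℕ} (hk : d < vpc k) : vmu H q k = 0 := by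
  by_contra c
  obtain ⟨v, hv⟩ := card_pos.1 (Nat.pos_of_ne_zero c)
  have := h3 v
  rw [h.dg, (mem_filter.1 hv).2] at this
  omega

theorem En5.two {H : Finset (Finset V)} {q : Fin 5 → Finset V} (h : En5 H q) (ht : 3 ≤ tau H)
    {k l : ℕ} (hk : ∀ i : Fin 5, k.testBit i = true ∨ l.testBit i = true) :
    vmu H q k = 0 ∨ vmu H q l = 0 := by
  by_contra c
  rw [not_or] at c
  obtain ⟨v, -, a⟩ := vmu_pos (Nat.one_le_iff_ne_zero.2 c.1)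
  obtain ⟨w, -, b⟩ := vmu_pos (Nat.one_le_iff_ne_zero.2 c.2)
  have := tau_le_two (S := H) (A := ∅) (fun e he => absurd he (notMem_empty e)) v w
    fun e he => Or.inr (by
      obtain ⟨i, rfl⟩ := h.all e he
      exact (hk i).imp (a i).2 (b i).2)
  rw [tau_empty] at this
  omega

theorem En5.n {H : Finset (Finset V)} {q : Fin 5 → Finset V} (_h : En5 H q) :
    (cov H).card = vsum (vmu H q) (fun _ => true) 32 :=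
  vmu_card H q _ fun _ => ⟨fun a => ⟨a, rfl⟩, fun a => a.1⟩

theorem En5.node {H : Finset (Finset V)} {q : Fin 5 → Finset V} (h : En5 H q) (i : Fin 5) :
    (q i).card = vsum (vmu H q) (fun k => k.testBit i) 32 :=
  vmu_card H q _ fun v => by
    rw [vcode_bit, decide_eq_true_eq]
    exact ⟨fun a => ⟨h.sub a, a⟩, fun a => a.2⟩

theorem En5.co {H : Finset (Finset V)} {q : Fin 5 → Finset V} (h : En5 H q) (i j : Fin 5) :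
    (q i ∩ q j).card = vsum (vmu H q) (fun k => k.testBit i && k.testBit j) 32 :=
  vmu_card H q _ fun v => by
    rw [vcode_bit, vcode_bit, Bool.and_eq_true, decide_eq_true_eq, decide_eq_true_eq, mem_inter]
    exact ⟨fun a => ⟨h.sub a.1, a⟩, fun a => a.2⟩

theorem En5.sdc {H : Finset (Finset V)} {q : Fin 5 → Finset V} (h : En5 H q) (u i j : Fin 5) :
    (q u ∩ sd (q i) (q j)).card =
      vsum (vmu H q) (fun k => k.testBit u && (k.testBit i != k.testBit j)) 32 :=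
  vmu_card H q _ fun v => by
    rw [vcode_bit, vcode_bit, vcode_bit, mem_inter, mem_sd]
    refine ⟨fun a => ⟨h.sub a.1, ?_⟩, fun a => ?_⟩
    · rcases a with ⟨a, ⟨b, c⟩ | ⟨b, c⟩⟩ <;> simp [a, b, c]
    · have := a.2
      by_cases a1 : v ∈ q u <;> by_cases a2 : v ∈ q i <;> by_cases a3 : v ∈ q j <;>
        simp_all

theorem En5.priv {H : Finset (Finset V)} {q : Fin 5 → Finset V} (h : En5 H q) (i : Fin 5) :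
    ((q i).filter fun v => C5.dg H v ≤ 1).card =
      vsum (vmu H q) (fun k => k.testBit i && Nat.ble (vpc k) 1) 32 :=
  vmu_card H q _ fun v => by
    rw [vcode_bit, Bool.and_eq_true, decide_eq_true_eq, Nat.ble_eq, mem_filter, h.dg]
    exact ⟨fun a => ⟨h.sub a.1, a⟩, fun a => a.2⟩

theorem vx_all (μ : ℕ → ℕ) : vsum μ (fun _ => true) 32 =
    0 + μ 0 + μ 1 + μ 2 + μ 3 + μ 4 + μ 5 + μ 6 + μ 7 + μ 8 + μ 9 + μ 10 + μ 11 + μ 12 + μ 13 + μ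
      14 + μ 15 + μ 16 + μ 17 + μ 18 + μ 19 + μ 20 + μ 21 + μ 22 + μ 23 + μ 24 + μ 25 + μ 26 + μ
      27 + μ 28 + μ 29 + μ 30 + μ 31 := rfl

theorem vx_n0 (μ : ℕ → ℕ) : vsum μ (fun k => k.testBit (0 : Fin 5)) 32 =
    0 + 0 + μ 1 + 0 + μ 3 + 0 + μ 5 + 0 + μ 7 + 0 + μ 9 + 0 + μ 11 + 0 + μ 13 + 0 + μ 15 + 0 + μ
      17 + 0 + μ 19 + 0 + μ 21 + 0 + μ 23 + 0 + μ 25 + 0 + μ 27 + 0 + μ 29 + 0 + μ 31 := rfl

theorem vx_p0 (μ : ℕ → ℕ) :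
    vsum μ (fun k => k.testBit (0 : Fin 5) && Nat.ble (vpc k) 1) 32 = μ 1 := by
  exact (rfl : _ = 0 + 0 + μ 1 + 0 + 0 + 0 + 0 + 0 + 0 + 0 + 0 + 0 + 0 + 0 + 0 + 0 + 0 + 0 + 0 + 0
    + 0 + 0 + 0 + 0 + 0 + 0 + 0 + 0 + 0 + 0 + 0 + 0 + 0).trans (by omega)

theorem vx_n1 (μ : ℕ → ℕ) : vsum μ (fun k => k.testBit (1 : Fin 5)) 32 =
    0 + 0 + 0 + μ 2 + μ 3 + 0 + 0 + μ 6 + μ 7 + 0 + 0 + μ 10 + μ 11 + 0 + 0 + μ 14 + μ 15 + 0 + 0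
      + μ 18 + μ 19 + 0 + 0 + μ 22 + μ 23 + 0 + 0 + μ 26 + μ 27 + 0 + 0 + μ 30 + μ 31 := rfl

theorem vx_p1 (μ : ℕ → ℕ) :
    vsum μ (fun k => k.testBit (1 : Fin 5) && Nat.ble (vpc k) 1) 32 = μ 2 := by
  exact (rfl : _ = 0 + 0 + 0 + μ 2 + 0 + 0 + 0 + 0 + 0 + 0 + 0 + 0 + 0 + 0 + 0 + 0 + 0 + 0 + 0 + 0
    + 0 + 0 + 0 + 0 + 0 + 0 + 0 + 0 + 0 + 0 + 0 + 0 + 0).trans (by omega)

theorem vx_n2 (μ : ℕ → ℕ) : vsum μ (fun k => k.testBit (2 : Fin 5)) 32 =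
    0 + 0 + 0 + 0 + 0 + μ 4 + μ 5 + μ 6 + μ 7 + 0 + 0 + 0 + 0 + μ 12 + μ 13 + μ 14 + μ 15 + 0 + 0
      + 0 + 0 + μ 20 + μ 21 + μ 22 + μ 23 + 0 + 0 + 0 + 0 + μ 28 + μ 29 + μ 30 + μ 31 := rfl

theorem vx_p2 (μ : ℕ → ℕ) :
    vsum μ (fun k => k.testBit (2 : Fin 5) && Nat.ble (vpc k) 1) 32 = μ 4 := by
  exact (rfl : _ = 0 + 0 + 0 + 0 + 0 + μ 4 + 0 + 0 + 0 + 0 + 0 + 0 + 0 + 0 + 0 + 0 + 0 + 0 + 0 + 0
    + 0 + 0 + 0 + 0 + 0 + 0 + 0 + 0 + 0 + 0 + 0 + 0 + 0).trans (by omega)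

theorem vx_n3 (μ : ℕ → ℕ) : vsum μ (fun k => k.testBit (3 : Fin 5)) 32 =
    0 + 0 + 0 + 0 + 0 + 0 + 0 + 0 + 0 + μ 8 + μ 9 + μ 10 + μ 11 + μ 12 + μ 13 + μ 14 + μ 15 + 0 +
      0 + 0 + 0 + 0 + 0 + 0 + 0 + μ 24 + μ 25 + μ 26 + μ 27 + μ 28 + μ 29 + μ 30 + μ 31 := rfl

theorem vx_p3 (μ : ℕ → ℕ) :
    vsum μ (fun k => k.testBit (3 : Fin 5) && Nat.ble (vpc k) 1) 32 = μ 8 := by
  exact (rfl : _ = 0 + 0 + 0 + 0 + 0 + 0 + 0 + 0 + 0 + μ 8 + 0 + 0 + 0 + 0 + 0 + 0 + 0 + 0 + 0 + 0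
    + 0 + 0 + 0 + 0 + 0 + 0 + 0 + 0 + 0 + 0 + 0 + 0 + 0).trans (by omega)

theorem vx_n4 (μ : ℕ → ℕ) : vsum μ (fun k => k.testBit (4 : Fin 5)) 32 =
    0 + 0 + 0 + 0 + 0 + 0 + 0 + 0 + 0 + 0 + 0 + 0 + 0 + 0 + 0 + 0 + 0 + μ 16 + μ 17 + μ 18 + μ 19
      + μ 20 + μ 21 + μ 22 + μ 23 + μ 24 + μ 25 + μ 26 + μ 27 + μ 28 + μ 29 + μ 30 + μ 31 := rfl

theorem vx_p4 (μ : ℕ → ℕ) :
    vsum μ (fun k => k.testBit (4 : Fin 5) && Nat.ble (vpc k) 1) 32 = μ 16 := by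
  exact (rfl : _ = 0 + 0 + 0 + 0 + 0 + 0 + 0 + 0 + 0 + 0 + 0 + 0 + 0 + 0 + 0 + 0 + 0 + μ 16 + 0 +
    0 + 0 + 0 + 0 + 0 + 0 + 0 + 0 + 0 + 0 + 0 + 0 + 0 + 0).trans (by omega)

theorem vx_c01 (μ : ℕ → ℕ) :
    vsum μ (fun k => k.testBit (0 : Fin 5) && k.testBit (1 : Fin 5)) 32 =
    0 + 0 + 0 + 0 + μ 3 + 0 + 0 + 0 + μ 7 + 0 + 0 + 0 + μ 11 + 0 + 0 + 0 + μ 15 + 0 + 0 + 0 + μ 19
      + 0 + 0 + 0 + μ 23 + 0 + 0 + 0 + μ 27 + 0 + 0 + 0 + μ 31 := rfl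

theorem vx_c02 (μ : ℕ → ℕ) :
    vsum μ (fun k => k.testBit (0 : Fin 5) && k.testBit (2 : Fin 5)) 32 =
    0 + 0 + 0 + 0 + 0 + 0 + μ 5 + 0 + μ 7 + 0 + 0 + 0 + 0 + 0 + μ 13 + 0 + μ 15 + 0 + 0 + 0 + 0 +
      0 + μ 21 + 0 + μ 23 + 0 + 0 + 0 + 0 + 0 + μ 29 + 0 + μ 31 := rfl

theorem vx_c03 (μ : ℕ → ℕ) :
    vsum μ (fun k => k.testBit (0 : Fin 5) && k.testBit (3 : Fin 5)) 32 =
    0 + 0 + 0 + 0 + 0 + 0 + 0 + 0 + 0 + 0 + μ 9 + 0 + μ 11 + 0 + μ 13 + 0 + μ 15 + 0 + 0 + 0 + 0 +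
      0 + 0 + 0 + 0 + 0 + μ 25 + 0 + μ 27 + 0 + μ 29 + 0 + μ 31 := rfl

theorem vx_c04 (μ : ℕ → ℕ) :
    vsum μ (fun k => k.testBit (0 : Fin 5) && k.testBit (4 : Fin 5)) 32 =
    0 + 0 + 0 + 0 + 0 + 0 + 0 + 0 + 0 + 0 + 0 + 0 + 0 + 0 + 0 + 0 + 0 + 0 + μ 17 + 0 + μ 19 + 0 +
      μ 21 + 0 + μ 23 + 0 + μ 25 + 0 + μ 27 + 0 + μ 29 + 0 + μ 31 := rfl

theorem vx_c12 (μ : ℕ → ℕ) :
    vsum μ (fun k => k.testBit (1 : Fin 5) && k.testBit (2 : Fin 5)) 32 =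
    0 + 0 + 0 + 0 + 0 + 0 + 0 + μ 6 + μ 7 + 0 + 0 + 0 + 0 + 0 + 0 + μ 14 + μ 15 + 0 + 0 + 0 + 0 +
      0 + 0 + μ 22 + μ 23 + 0 + 0 + 0 + 0 + 0 + 0 + μ 30 + μ 31 := rfl

theorem vx_c13 (μ : ℕ → ℕ) :
    vsum μ (fun k => k.testBit (1 : Fin 5) && k.testBit (3 : Fin 5)) 32 =
    0 + 0 + 0 + 0 + 0 + 0 + 0 + 0 + 0 + 0 + 0 + μ 10 + μ 11 + 0 + 0 + μ 14 + μ 15 + 0 + 0 + 0 + 0
      + 0 + 0 + 0 + 0 + 0 + 0 + μ 26 + μ 27 + 0 + 0 + μ 30 + μ 31 := rfl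

theorem vx_c14 (μ : ℕ → ℕ) :
    vsum μ (fun k => k.testBit (1 : Fin 5) && k.testBit (4 : Fin 5)) 32 =
    0 + 0 + 0 + 0 + 0 + 0 + 0 + 0 + 0 + 0 + 0 + 0 + 0 + 0 + 0 + 0 + 0 + 0 + 0 + μ 18 + μ 19 + 0 +
      0 + μ 22 + μ 23 + 0 + 0 + μ 26 + μ 27 + 0 + 0 + μ 30 + μ 31 := rfl

theorem vx_c23 (μ : ℕ → ℕ) :
    vsum μ (fun k => k.testBit (2 : Fin 5) && k.testBit (3 : Fin 5)) 32 =
    0 + 0 + 0 + 0 + 0 + 0 + 0 + 0 + 0 + 0 + 0 + 0 + 0 + μ 12 + μ 13 + μ 14 + μ 15 + 0 + 0 + 0 + 0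
      + 0 + 0 + 0 + 0 + 0 + 0 + 0 + 0 + μ 28 + μ 29 + μ 30 + μ 31 := rfl

theorem vx_c24 (μ : ℕ → ℕ) :
    vsum μ (fun k => k.testBit (2 : Fin 5) && k.testBit (4 : Fin 5)) 32 =
    0 + 0 + 0 + 0 + 0 + 0 + 0 + 0 + 0 + 0 + 0 + 0 + 0 + 0 + 0 + 0 + 0 + 0 + 0 + 0 + 0 + μ 20 + μ
      21 + μ 22 + μ 23 + 0 + 0 + 0 + 0 + μ 28 + μ 29 + μ 30 + μ 31 := rfl

theorem vx_c34 (μ : ℕ → ℕ) :
    vsum μ (fun k => k.testBit (3 : Fin 5) && k.testBit (4 : Fin 5)) 32 =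
    0 + 0 + 0 + 0 + 0 + 0 + 0 + 0 + 0 + 0 + 0 + 0 + 0 + 0 + 0 + 0 + 0 + 0 + 0 + 0 + 0 + 0 + 0 + 0
      + 0 + μ 24 + μ 25 + μ 26 + μ 27 + μ 28 + μ 29 + μ 30 + μ 31 := rfl

theorem vx_s012 (μ : ℕ → ℕ) :
    vsum μ (fun k => k.testBit (0 : Fin 5) && (k.testBit (1 : Fin 5) != k.testBit (2 : Fin 5))) 32 =
    0 + 0 + 0 + 0 + μ 3 + 0 + μ 5 + 0 + 0 + 0 + 0 + 0 + μ 11 + 0 + μ 13 + 0 + 0 + 0 + 0 + 0 + μ 19
      + 0 + μ 21 + 0 + 0 + 0 + 0 + 0 + μ 27 + 0 + μ 29 + 0 + 0 := rfl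

theorem vx_s013 (μ : ℕ → ℕ) :
    vsum μ (fun k => k.testBit (0 : Fin 5) && (k.testBit (1 : Fin 5) != k.testBit (3 : Fin 5))) 32 =
    0 + 0 + 0 + 0 + μ 3 + 0 + 0 + 0 + μ 7 + 0 + μ 9 + 0 + 0 + 0 + μ 13 + 0 + 0 + 0 + 0 + 0 + μ 19
      + 0 + 0 + 0 + μ 23 + 0 + μ 25 + 0 + 0 + 0 + μ 29 + 0 + 0 := rfl

theorem vx_s014 (μ : ℕ → ℕ) :
    vsum μ (fun k => k.testBit (0 : Fin 5) && (k.testBit (1 : Fin 5) != k.testBit (4 : Fin 5))) 32 =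
    0 + 0 + 0 + 0 + μ 3 + 0 + 0 + 0 + μ 7 + 0 + 0 + 0 + μ 11 + 0 + 0 + 0 + μ 15 + 0 + μ 17 + 0 + 0
      + 0 + μ 21 + 0 + 0 + 0 + μ 25 + 0 + 0 + 0 + μ 29 + 0 + 0 := rfl

theorem vx_s023 (μ : ℕ → ℕ) :
    vsum μ (fun k => k.testBit (0 : Fin 5) && (k.testBit (2 : Fin 5) != k.testBit (3 : Fin 5))) 32 =
    0 + 0 + 0 + 0 + 0 + 0 + μ 5 + 0 + μ 7 + 0 + μ 9 + 0 + μ 11 + 0 + 0 + 0 + 0 + 0 + 0 + 0 + 0 + 0
      + μ 21 + 0 + μ 23 + 0 + μ 25 + 0 + μ 27 + 0 + 0 + 0 + 0 := rfl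

theorem vx_s024 (μ : ℕ → ℕ) :
    vsum μ (fun k => k.testBit (0 : Fin 5) && (k.testBit (2 : Fin 5) != k.testBit (4 : Fin 5))) 32 =
    0 + 0 + 0 + 0 + 0 + 0 + μ 5 + 0 + μ 7 + 0 + 0 + 0 + 0 + 0 + μ 13 + 0 + μ 15 + 0 + μ 17 + 0 + μ
      19 + 0 + 0 + 0 + 0 + 0 + μ 25 + 0 + μ 27 + 0 + 0 + 0 + 0 := rfl

theorem vx_s034 (μ : ℕ → ℕ) :
    vsum μ (fun k => k.testBit (0 : Fin 5) && (k.testBit (3 : Fin 5) != k.testBit (4 : Fin 5))) 32 =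
    0 + 0 + 0 + 0 + 0 + 0 + 0 + 0 + 0 + 0 + μ 9 + 0 + μ 11 + 0 + μ 13 + 0 + μ 15 + 0 + μ 17 + 0 +
      μ 19 + 0 + μ 21 + 0 + μ 23 + 0 + 0 + 0 + 0 + 0 + 0 + 0 + 0 := rfl

theorem vx_s123 (μ : ℕ → ℕ) :
    vsum μ (fun k => k.testBit (1 : Fin 5) && (k.testBit (2 : Fin 5) != k.testBit (3 : Fin 5))) 32 =
    0 + 0 + 0 + 0 + 0 + 0 + 0 + μ 6 + μ 7 + 0 + 0 + μ 10 + μ 11 + 0 + 0 + 0 + 0 + 0 + 0 + 0 + 0 +
      0 + 0 + μ 22 + μ 23 + 0 + 0 + μ 26 + μ 27 + 0 + 0 + 0 + 0 := rfl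

theorem vx_s124 (μ : ℕ → ℕ) :
    vsum μ (fun k => k.testBit (1 : Fin 5) && (k.testBit (2 : Fin 5) != k.testBit (4 : Fin 5))) 32 =
    0 + 0 + 0 + 0 + 0 + 0 + 0 + μ 6 + μ 7 + 0 + 0 + 0 + 0 + 0 + 0 + μ 14 + μ 15 + 0 + 0 + μ 18 + μ
      19 + 0 + 0 + 0 + 0 + 0 + 0 + μ 26 + μ 27 + 0 + 0 + 0 + 0 := rfl

theorem vx_s134 (μ : ℕ → ℕ) :
    vsum μ (fun k => k.testBit (1 : Fin 5) && (k.testBit (3 : Fin 5) != k.testBit (4 : Fin 5))) 32 =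
    0 + 0 + 0 + 0 + 0 + 0 + 0 + 0 + 0 + 0 + 0 + μ 10 + μ 11 + 0 + 0 + μ 14 + μ 15 + 0 + 0 + μ 18 +
      μ 19 + 0 + 0 + μ 22 + μ 23 + 0 + 0 + 0 + 0 + 0 + 0 + 0 + 0 := rfl

end Pool.Agent.Work.MP_d266e7_co.C5.P24
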